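import Pool.Agent.Helper42.CY.LocH

/-!
# CY-37 (project CY, section 5.2): group theory by transfer

Compare Helper42/IR/F/NoTwo.lean (copy its private lemma `notwo_aux`: a perfect finite group of order
divisible by `p` has no Sylow subgroup `P` with `normalizer P ≤ centralizer P`).

* `two_not_cyclic`: a perfect finite group of even order has no cyclic Sylow `2`-subgroup: Mathlib
  `IsCyclic.normalizer_le_centralizer` (the smallest prime divisor of the order is `2`).
* `der`: `K` perfect, `LocC p ⊤ Q Z H`, `T = normalizer Z`: elements of `p`-power order of `T` are in the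
  commutator subgroup of `T`. `Q` is (the underlying subgroup of) a Sylow subgroup `P` of `K`. `P` is a
  normal cyclic Sylow subgroup of `N = normalizer Q`: by Mathlib `Sylow.le_center_or_le_commutator` (file
  Mathlib/GroupTheory/SpecificGroups/ZGroup.lean, see also
  `Sylow.normalizer_le_centralizer_or_le_commutator` for the transport to `N`) it is central in `N`,
  impossible by `notwo_aux`, or `Q ≤ ⁅N, N⁆`. `N ≤ T` (`LocC.normQ_Z`), so `Q ≤ ⁅T, T⁆`, a normal subgroup of
  `T`. Let `y ∈ T` have `p`-power order; by `LocC.pel` (`NN ⊤ Z = ⊤ ⊓ normalizer Z`) `y ∈ Q ⊔ H` and by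
  `LocC.sylow_C` `c y c⁻¹ ∈ Q` for some `c ∈ Q ⊔ H ≤ T`.
-/

namespace Pool.Agent.Helper42.CY

open Pool.Agent.Helper42.INC Pool.Agent.Helper42.IR

private theorem notwo_aux {p : ℕ} [Fact p.Prime] (K : Type) [Group K] [Finite K]
    (hperf : ⁅(⊤ : Subgroup K), (⊤ : Subgroup K)⁆ = ⊤) (hp : p ∣ Nat.card K) (P : Sylow p K)
    (hP : Subgroup.normalizer (P : Set K) ≤ Subgroup.centralizer (P : Set K)) : False := by
  have hcomm : ∀ a b : P, a * b = b * a := fun a b =>
    Subtype.ext (hP (Subgroup.le_normalizer b.2) a a.2)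
  have hker : (MonoidHom.transferSylow P hP).ker = ⊤ := by
    rw [eq_top_iff, ← hperf, Subgroup.commutator_le]
    intro g₁ _ g₂ _
    rw [MonoidHom.mem_ker, map_commutatorElement, commutatorElement_eq_one_iff_mul_comm]
    exact hcomm _ _
  have h1 := MonoidHom.not_dvd_card_ker_transferSylow P hP
  rw [hker, Subgroup.card_top] at h1
  exact h1 hp

private theorem key_aux {p : ℕ} [Fact p.Prime] (K : Type) [Group K] [Finite K]
    (P : Sylow p K) [IsCyclic P] :
    Subgroup.normalizer (P : Set K) ≤ Subgroup.centralizer (P : Set K) ∨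
      (P : Subgroup K) ≤ ⁅Subgroup.normalizer (P : Set K), Subgroup.normalizer (P : Set K)⁆ := by
  let Q : Sylow p (Subgroup.normalizer (P : Set K)) := P.subtype P.le_normalizer
  have : Q.Normal := P.normal_in_normalizer
  have : IsCyclic Q :=
    isCyclic_of_surjective _ (Subgroup.subgroupOfEquivOfLe P.le_normalizer).symm.surjective
  refine (Sylow.le_center_or_le_commutator Q).imp (fun h ↦ ?_) (fun h ↦ ?_)
  · rw [← SetLike.coe_subset_coe, ← Subgroup.centralizer_eq_top_iff_subset, eq_top_iff,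
      ← Subgroup.map_subtype_le_map_subtype, ← MonoidHom.range_eq_map,
      (Subgroup.normalizer (P : Set K)).range_subtype] at h
    replace h := h.trans (Subgroup.map_centralizer_le_centralizer_image _ _)
    rwa [← Subgroup.coe_map, P.coe_subtype, ← P.coe_coe,
      Subgroup.map_subgroupOf_eq_of_le P.le_normalizer] at h
  · rw [P.coe_subtype, ← Subgroup.map_subtype_le_map_subtype, ← P.coe_coe,
      Subgroup.map_subgroupOf_eq_of_le P.le_normalizer, Subgroup.map_subtype_commutator] at h
    exact h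

theorem two_not_cyclic (K : Type) [Group K] [Finite K]
    (hperf : ⁅(⊤ : Subgroup K), (⊤ : Subgroup K)⁆ = ⊤) (h : 2 ∣ Nat.card K)
    (hc : ∀ Q : Sylow 2 K, IsCyclic Q) : False := by
  have hmin : (Nat.card K).minFac = 2 := (Nat.minFac_eq_two_iff _).mpr h
  let P : Sylow 2 K := default
  have hcyc : IsCyclic P := hc P
  exact notwo_aux K hperf h P (hcyc.normalizer_le_centralizer hmin)

theorem der {K : Type} [Group K] [Finite K] {p : ℕ} [Fact p.Prime] {Q Z H : Subgroup K}
    (hL : LocC p (⊤ : Subgroup K) Q Z H) (hperf : ⁅(⊤ : Subgroup K), (⊤ : Subgroup K)⁆ = ⊤)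
    {y : Subgroup.normalizer (Z : Set K)} {k : ℕ} (hy : y ^ p ^ k = 1) :
    y ∈ commutator (Subgroup.normalizer (Z : Set K)) := by
  have hQp : IsPGroup p Q := by
    obtain ⟨a, _, ha⟩ := hL.cQ
    exact IsPGroup.of_card ha
  have hidx : ¬ p ∣ Q.index := by
    have h1 := hL.syl
    rwa [Subgroup.relIndex_top_right] at h1
  obtain ⟨P, hPQ⟩ : ∃ P : Sylow p K, (P : Subgroup K) = Q :=
    ⟨hQp.toSylow hidx, IsPGroup.toSylow_coe _ _⟩
  have hdvd : p ∣ Nat.card K := by
    rw [← hL.cZ]
    exact Subgroup.card_subgroup_dvd_card Z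
  have hcyc : IsCyclic P := by
    have h1 := hL.cyc
    rw [← hPQ] at h1
    exact h1
  have hPN : (P : Set K) = (Q : Set K) := by
    rw [← hPQ]
    rfl
  have hQT : Q ≤ ⁅Subgroup.normalizer (Z : Set K), Subgroup.normalizer (Z : Set K)⁆ := by
    rcases key_aux K P with h | h
    · exact (notwo_aux K hperf hdvd P h).elim
    · rw [hPQ, hPN] at h
      exact h.trans (Subgroup.commutator_mono (fun a ha => hL.normQ_Z ha)
        (fun a ha => hL.normQ_Z ha))
  have hyN : (y : K) ∈ NN (⊤ : Subgroup K) Z := ⟨Subgroup.mem_top _, y.2⟩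
  have hyC : (y : K) ∈ Q ⊔ H := hL.pel hyN (k := k) (by
    have h1 := congrArg (Subtype.val) hy
    simpa using h1)
  obtain ⟨c, hc, hcy⟩ := hL.sylow_C hyC (k := k) (by
    have h1 := congrArg (Subtype.val) hy
    simpa using h1)
  have hcT : c ∈ Subgroup.normalizer (Z : Set K) := (hL.sup_le hc).2
  have h2 : c * y * c⁻¹ ∈ ⁅Subgroup.normalizer (Z : Set K), Subgroup.normalizer (Z : Set K)⁆ :=
    hQT hcy
  rw [← Subgroup.map_subtype_commutator, Subgroup.mem_map] at h2
  obtain ⟨w, hw, hwe⟩ := h2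
  have h3 : y = (⟨c, hcT⟩ : Subgroup.normalizer (Z : Set K))⁻¹ * w *
      ((⟨c, hcT⟩ : Subgroup.normalizer (Z : Set K))⁻¹)⁻¹ := by
    apply Subtype.ext
    have h4 : (w : K) = c * y * c⁻¹ := hwe
    push_cast
    rw [h4]
    group
  rw [h3]
  exact Subgroup.Normal.conj_mem inferInstance w hw _

end Pool.Agent.Helper42.CY
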