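import Pool.Agent.Helper42.CY.LocG

/-!
# CY-03 (project CY): existence of the normal complement

`Q` a cyclic Sylow `p`-subgroup of `K`, `Z ≤ Q` of order `p`, `C = K ⊓ centralizer Z`. `Q ≤ C` is a Sylow
`p`-subgroup of `C`. Claim: `N_C(Q) ≤ C(Q)`. Let `g ∈ C` normalize `Q`, `Q = ⟨y⟩`, `g y g⁻¹ = y ^ c`; as `g`
centralizes `Z = ⟨y ^ (q/p)⟩`, `y ^ (c q/p) = y ^ (q/p)`, so `c ≡ 1` modulo `p`, and the automorphism of `Q`
induced by `g` has `p`-power order (`c ^ (p ^ (a-1)) ≡ 1` modulo `p ^ a`). So it is enough to show the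
claim for the elements `g` of `p`-power order (write `g` as a product of powers `u v` of `g` with `u` of
`p`-power order and `v` of order prime to `p`; `v` acts on `Q` with order prime to `p` and a power of
`p`, so trivially) and for such `g`, `⟨g⟩ Q` is a `p`-subgroup of `C` containing the Sylow subgroup `Q`, so
`g ∈ Q` and `Q` is commutative.
Burnside's theorem (Mathlib `MonoidHom.ker_transferSylow_isComplement'` for the Sylow subgroup
`Q.subgroupOf C` of `↥C`) gives a normal complement; `H` is its image in `G`. Its order is `|C : Q|`, prime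
to `p`. See `four_dvd` and `le_derived` in Helper42/IR/F/NoTwo.lean for the use of Burnside's theorem.
-/

namespace Pool.Agent.Helper42.CY

open Pool.Agent.Helper42.INC Pool.Agent.Helper42.IR Pool.Agent.Helper97.S4

variable {G : Type} [Group G] [Finite G] {p : ℕ} [Fact p.Prime] {K Q Z : Subgroup G}

/-- elements centralizing `Z` and normalizing the cyclic `p`-group `Q` act on it with `p`-power order -/
theorem cent_of_prime (hc : IsCyclic Q) {a : ℕ} (hQ : Nat.card Q = p ^ a) (hZQ : Z ≤ Q)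
    (hZ : Nat.card Z = p) {g : G} (hg : g ∈ Subgroup.normalizer (Q : Set G))
    (hgZ : g ∈ Subgroup.centralizer (Z : Set G)) (ho : ¬ p ∣ orderOf g) :
    g ∈ Subgroup.centralizer (Q : Set G) := by
  have hp : p.Prime := Fact.out
  obtain ⟨⟨y, hy⟩, hgen⟩ := hc.exists_generator
  have hygen : ∀ x ∈ Q, ∃ k : ℕ, y ^ k = x := by
    intro x hx
    have h1 := hgen ⟨x, hx⟩
    rw [← mem_powers_iff_mem_zpowers] at h1
    obtain ⟨k, hk⟩ := h1
    exact ⟨k, congrArg Subtype.val hk⟩
  have hord : orderOf y = p ^ a := by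
    rw [← hQ, ← orderOf_eq_card_of_forall_mem_zpowers hgen]
    exact (Subgroup.orderOf_coe (⟨y, hy⟩ : Q))
  -- the exponent `c`
  obtain ⟨c, hcy⟩ := hygen (g * y * g⁻¹) ((Subgroup.mem_normalizer_iff.1 hg y).1 hy)
  -- `a ≠ 0`
  have ha : a ≠ 0 := by
    rintro rfl
    have h1 := Subgroup.card_dvd_of_le hZQ
    rw [hZ, hQ, pow_zero, Nat.dvd_one] at h1
    exact hp.one_lt.ne' h1
  obtain ⟨a, rfl⟩ := Nat.exists_eq_succ_of_ne_zero ha
  -- a nontrivial element of `Z`
  have : Nontrivial Z := Finite.one_lt_card_iff_nontrivial.1 (by rw [hZ]; exact hp.one_lt)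
  obtain ⟨z, hz⟩ := exists_ne (1 : Z)
  have hz1 : (z : G) ≠ 1 := fun h => hz (Subtype.ext h)
  obtain ⟨k, hk⟩ := hygen z (hZQ z.2)
  have hgz : (z : G) * g = g * z := Subgroup.mem_centralizer_iff.1 hgZ z z.2
  have h1 : y ^ (c * k) = y ^ k := by
    rw [pow_mul, hcy, conj_pow, hk, ← hgz, mul_inv_cancel_right]
  have h2 : ¬ (p ^ (a + 1) : ℕ) ∣ k := by
    intro h
    rw [← hord] at h
    exact hz1 (by rw [← hk]; exact orderOf_dvd_iff_pow_eq_one.1 h)
  have h3 : (p : ℤ) ∣ (c : ℤ) - 1 := by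
    by_contra hnd
    have hcop : IsCoprime (p : ℤ) ((c : ℤ) - 1) :=
      ((Nat.prime_iff_prime_int.1 hp).irreducible.coprime_iff_not_dvd).2 hnd
    have hcop2 : IsCoprime ((p : ℤ) ^ (a + 1)) ((c : ℤ) - 1) := hcop.pow_left
    rw [pow_eq_pow_iff_modEq, hord] at h1
    have h4 := (Int.natCast_modEq_iff.2 h1).symm.dvd
    push_cast at h4
    have h5 : ((p : ℤ) ^ (a + 1)) ∣ (k : ℤ) := by
      refine hcop2.dvd_of_dvd_mul_left ?_
      have : ((c : ℤ) - 1) * k = c * k - k := by ring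
      rw [this]
      exact h4
    exact h2 (by exact_mod_cast h5)
  have h6 : ((p : ℤ) ^ (a + 1)) ∣ (c : ℤ) ^ p ^ a - 1 ^ p ^ a := dvd_sub_pow_of_dvd_sub h3 a
  have h7 : ∀ n : ℕ, g ^ n * y * (g ^ n)⁻¹ = y ^ (c ^ n) := by
    intro n
    induction n with
    | zero => simp
    | succ n ih =>
      calc g ^ (n + 1) * y * (g ^ (n + 1))⁻¹ = g * (g ^ n * y * (g ^ n)⁻¹) * g⁻¹ := by
            rw [pow_succ' g n]; group
        _ = (g * y * g⁻¹) ^ (c ^ n) := by rw [ih, conj_pow]
        _ = y ^ (c ^ (n + 1)) := by rw [← hcy, ← pow_mul, pow_succ' c n]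
  have h8 : y ^ (c ^ p ^ a) = y := by
    conv_rhs => rw [← pow_one y]
    rw [pow_eq_pow_iff_modEq, hord]
    rw [← Int.natCast_modEq_iff]
    push_cast
    rw [one_pow] at h6
    exact (Int.modEq_iff_dvd.2 h6).symm
  have h9 : g ^ p ^ a * y = y * g ^ p ^ a := by
    have := h7 (p ^ a)
    rw [h8] at this
    exact mul_inv_eq_iff_eq_mul.1 this
  -- `g` is a power of `g ^ p ^ a`
  have hcop3 : (p ^ a).Coprime (orderOf g) :=
    Nat.Coprime.pow_left a ((Nat.Prime.coprime_iff_not_dvd hp).2 ho)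
  obtain ⟨m, hm⟩ := exists_pow_eq_self_of_coprime hcop3
  have h10 : Commute g y := by
    have h11 : Commute (g ^ p ^ a) y := h9
    rw [← hm]
    exact h11.pow_left m
  rw [Subgroup.mem_centralizer_iff]
  intro x hx
  obtain ⟨n, rfl⟩ := hygen x hx
  exact (h10.symm.pow_left n).eq

theorem exists_locC (hQK : Q ≤ K) (hc : IsCyclic Q) (hQ : ∃ a, 2 ≤ a ∧ Nat.card Q = p ^ a)
    (hs : ¬ p ∣ Q.relIndex K) (hZQ : Z ≤ Q) (hZ : Nat.card Z = p) :
    ∃ H, LocC p K Q Z H := by
  have hp : p.Prime := Fact.out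
  obtain ⟨a, ha, hQa⟩ := id hQ
  have hcomm : ∀ x ∈ Q, ∀ y ∈ Q, x * y = y * x := by
    intro x hx y hy
    have h1 : IsMulCommutative Q := IsCyclic.isMulCommutative
    have h2 := h1.is_comm.comm ⟨x, hx⟩ ⟨y, hy⟩
    exact congrArg Subtype.val h2
  set C := K ⊓ Subgroup.centralizer (Z : Set G) with hC
  have hQC : Q ≤ C := by
    intro x hx
    refine Subgroup.mem_inf.2 ⟨hQK hx, ?_⟩
    rw [Subgroup.mem_centralizer_iff]
    intro z hz
    exact hcomm z (hZQ hz) x hx
  have hCK : C ≤ K := inf_le_left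
  have hpg : IsPGroup p (Q.subgroupOf C) := by
    refine IsPGroup.of_card (n := a) ?_
    rw [← hQa]
    exact Nat.card_congr (Subgroup.subgroupOfEquivOfLe hQC).toEquiv
  have hidx : ¬ p ∣ (Q.subgroupOf C).index := by
    intro h
    apply hs
    rw [← Subgroup.relIndex_mul_relIndex Q C K hQC hCK]
    exact Dvd.dvd.mul_right h _
  set P : Sylow p C := hpg.toSylow hidx with hP
  have hPc : (P : Subgroup C) = Q.subgroupOf C := rfl
  -- normalizer and centralizer
  have hNC : Subgroup.normalizer ((P : Subgroup C) : Set C) ≤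
      Subgroup.centralizer ((P : Subgroup C) : Set C) := by
    intro g hg
    have hcent_iff : ∀ x : C, x ∈ Subgroup.centralizer ((P : Subgroup C) : Set C) ↔
        (x : G) ∈ Subgroup.centralizer (Q : Set G) := by
      intro x
      rw [Subgroup.mem_centralizer_iff, Subgroup.mem_centralizer_iff]
      constructor
      · intro h y hy
        have h1 := h ⟨y, hQC hy⟩ (by
          show (⟨y, hQC hy⟩ : C) ∈ Q.subgroupOf C
          exact Subgroup.mem_subgroupOf.2 hy)
        exact congrArg Subtype.val h1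
      · intro h y hy
        have hy' : y ∈ Q.subgroupOf C := hy
        exact Subtype.ext (h y (Subgroup.mem_subgroupOf.1 hy'))
    have hnorm : ∀ x : C, x ∈ Subgroup.normalizer ((P : Subgroup C) : Set C) →
        (x : G) ∈ Subgroup.normalizer (Q : Set G) := by
      intro x hx
      rw [Subgroup.mem_normalizer_iff] at hx ⊢
      intro y
      constructor
      · intro hy
        have h1 : (⟨y, hQC hy⟩ : C) ∈ Q.subgroupOf C := Subgroup.mem_subgroupOf.2 hy
        have h2 := (hx ⟨y, hQC hy⟩).1 h1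
        have h3 : x * ⟨y, hQC hy⟩ * x⁻¹ ∈ Q.subgroupOf C := h2
        exact Subgroup.mem_subgroupOf.1 h3
      · intro hy
        have hyC : y ∈ C := by
          have h4 : (x : G)⁻¹ * ((x : G) * y * (x : G)⁻¹) * (x : G) ∈ C :=
            C.mul_mem (C.mul_mem (C.inv_mem x.2) (hQC hy)) x.2
          have h5 : (x : G)⁻¹ * ((x : G) * y * (x : G)⁻¹) * (x : G) = y := by group
          rwa [h5] at h4
        have h6 : x * ⟨y, hyC⟩ * x⁻¹ ∈ Q.subgroupOf C := Subgroup.mem_subgroupOf.2 hy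
        have h7 := (hx ⟨y, hyC⟩).2 h6
        have h8 : (⟨y, hyC⟩ : C) ∈ Q.subgroupOf C := h7
        exact Subgroup.mem_subgroupOf.1 h8
    -- decomposition of `g`
    obtain ⟨e, m, hm, hem⟩ := Nat.exists_eq_pow_mul_and_not_dvd
      (orderOf_pos g).ne' p hp.one_lt.ne'
    have hm0 : m ≠ 0 := by
      rintro rfl
      exact hm (dvd_zero p)
    have hu : g ^ m ∈ Subgroup.centralizer ((P : Subgroup C) : Set C) := by
      have h1 : g ^ m ∈ Subgroup.normalizer ((P : Subgroup C) : Set C) := pow_mem hg m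
      have h2 : IsPGroup p (Subgroup.zpowers (g ^ m)) := by
        refine IsPGroup.of_card (n := e) ?_
        rw [Nat.card_zpowers, orderOf_pow_of_dvd hm0 (hem ▸ Dvd.intro_left _ rfl), hem,
          Nat.mul_div_cancel _ (Nat.pos_of_ne_zero hm0)]
      have h3 := h2.inf_normalizer_sylow P
      have h4 : g ^ m ∈ Subgroup.zpowers (g ^ m) ⊓
          Subgroup.normalizer ((P : Subgroup C) : Set C) :=
        ⟨Subgroup.mem_zpowers _, h1⟩
      have h5 : g ^ m ∈ Subgroup.zpowers (g ^ m) ⊓ (P : Subgroup C) := h3 ▸ h4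
      have h6 : g ^ m ∈ Q.subgroupOf C := h5.2
      rw [hcent_iff, Subgroup.mem_centralizer_iff]
      intro y hy
      exact hcomm y hy _ (Subgroup.mem_subgroupOf.1 h6)
    have hv : g ^ (p ^ e) ∈ Subgroup.centralizer ((P : Subgroup C) : Set C) := by
      have h1 : g ^ (p ^ e) ∈ Subgroup.normalizer ((P : Subgroup C) : Set C) := pow_mem hg _
      rw [hcent_iff]
      refine cent_of_prime hc hQa hZQ hZ (hnorm _ h1) (g ^ (p ^ e)).2.2 ?_
      rw [Subgroup.orderOf_coe, orderOf_pow_of_dvd (pow_pos hp.pos e).ne'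
        (hem ▸ Dvd.intro _ rfl), hem, Nat.mul_div_cancel_left _ (pow_pos hp.pos e)]
      exact hm
    have hcop : IsCoprime (m : ℤ) ((p ^ e : ℕ) : ℤ) := by
      rw [Nat.isCoprime_iff_coprime]
      exact (Nat.Coprime.pow_left e ((Nat.Prime.coprime_iff_not_dvd hp).2 hm)).symm
    obtain ⟨s, t, hst⟩ := hcop
    have hgg : g = (g ^ m) ^ s * (g ^ (p ^ e)) ^ t := by
      rw [← zpow_natCast g m, ← zpow_natCast g (p ^ e), ← zpow_mul, ← zpow_mul, ← zpow_add]
      have : (m : ℤ) * s + ((p ^ e : ℕ) : ℤ) * t = 1 := by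
        rw [← hst]
        ring
      rw [this, zpow_one]
    rw [hgg]
    exact mul_mem (zpow_mem hu s) (zpow_mem hv t)
  have hcompl := MonoidHom.ker_transferSylow_isComplement' P hNC
  have hndvd := MonoidHom.not_dvd_card_ker_transferSylow P hNC
  set H0 := (MonoidHom.transferSylow P hNC).ker with hH0
  refine ⟨H0.map C.subtype, hQK, hc, hQ, hs, hZQ, hZ, Subgroup.map_subtype_le _, ?_, ?_, ?_⟩
  · -- normal
    intro c hcC
    rw [Subgroup.mem_normalizer_iff]
    have key : ∀ c' : C, ∀ h ∈ H0.map C.subtype, (c' : G) * h * (c' : G)⁻¹ ∈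
        H0.map C.subtype := by
      rintro c' _ ⟨h, hh, rfl⟩
      exact ⟨c' * h * c'⁻¹, (inferInstance : H0.Normal).conj_mem h hh c', rfl⟩
    intro h
    refine ⟨fun hh => key ⟨c, hcC⟩ h hh, fun hh => ?_⟩
    have h1 := key (⟨c, hcC⟩ : C)⁻¹ _ hh
    have h2 : (((⟨c, hcC⟩ : C)⁻¹ : C) : G) * (c * h * c⁻¹) *
        (((⟨c, hcC⟩ : C)⁻¹ : C) : G)⁻¹ = h := by
      show c⁻¹ * (c * h * c⁻¹) * c⁻¹⁻¹ = h
      group
    rw [h2] at h1
    exact h1
  · -- order
    have h1 : Nat.card (H0.map C.subtype) = Nat.card H0 :=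
      (Nat.card_congr (H0.equivMapOfInjective C.subtype C.subtype_injective).toEquiv).symm
    rw [h1]
    exact hndvd
  · -- sup
    have h1 := hcompl.sup_eq_top
    have h2 := congrArg (Subgroup.map C.subtype) h1
    rw [Subgroup.map_sup, ← MonoidHom.range_eq_map, Subgroup.range_subtype, hPc,
      Subgroup.subgroupOf_map_subtype, inf_eq_left.2 hQC, sup_comm] at h2
    exact h2

end Pool.Agent.Helper42.CY
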