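import Pool.Agent.Helper42.CY.LocG

/-!
# CY-02 (project CY): fusion, indices and the Frattini argument for `LocC p K Q Z H`

`N = NN K Z`, `C = Q ⊔ H = K ⊓ centralizer Z`, `π : normalizer Z → (ZMod p)ˣ` with kernel the centralizer of
`Z` (`exists_piQ Z hL.cZ` of S4/LocA.lean).

* `comm_cent`: `π` has commutative target.
* `pel`: `g ∈ N` of `p`-power order: `π g = 1` as `|(ZMod p)ˣ| = p - 1` is prime to `p`, so `g ∈ C`.
* `ti`: `k ∈ K`, `x ∈ C`, `x ∉ H`, `k⁻¹ x k ∈ C`: by `pow_Z` some power `z = x ^ i` is in `Z`, `z ≠ 1`; it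
  generates `Z` (order `p`); `k⁻¹ z k ∈ C` has order `p`, so it is in `Z` (`mem_Z`) and `k⁻¹ Z k = Z`.
* `tiQ`: `x ∈ Q`, `x ≠ 1` and `k⁻¹ x k ∈ N`: it has `p`-power order, so it is in `C` by `pel`; use `ti`.
* `frattini`: `a` normalizes `C = Q ⊔ H` (`norm_sup`); `a Q a⁻¹` and `Q` are Sylow `p`-subgroups of `C` (their
  index in `C` is `|H|`), so `a Q a⁻¹ = c Q c⁻¹` with `c ∈ C`; `b = c⁻¹ a`.
* `sylow_C`: an element of `p`-power order of `C` is conjugate in `C` to an element of `Q` (Sylow).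
* `index_dvd`: `N / C` embeds in `(ZMod p)ˣ`. `index_prime`, `index_C`: `Q ≤ C ≤ N` and `syl`.
* `index_mod`: `Z` acts on `K ⧸ N` (left multiplication); `z k N = k N` for all `z ∈ Z` iff
  `k⁻¹ Z k ≤ N` iff (`pel`, `mem_Z`) `k⁻¹ Z k = Z` iff `k ∈ N`: exactly one fixed point, and `Z` is a `p`-group
  (`IsPGroup.card_modEq_card_fixedPoints`).
* `index_T`: as `p ∤ |K : N|` and `p ∤ |N : T|`.
* `ee_eq`: `NN K Z ⊓ stab φ = C (NN K Q ⊓ stab φ)` by `frattini`, as `C` fixes `φ`.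
* `ee_lt`, `ee_pos`: `ee K Q H φ` is the index of `(Q ⊔ H) ⊓ (NN K Q ⊓ stab φ)` in `NN K Q ⊓ stab φ`, and this
  is the kernel of the restriction of `π`; so it divides `p - 1`.
-/

set_option linter.unusedSectionVars false

namespace Pool.Agent.Helper42.CY

open Pool.Agent.Helper42.INC Pool.Agent.Helper42.IR Pool.Agent.Helper97.S4

variable {G : Type} [Group G] [Finite G] {p : ℕ} [Fact p.Prime] {K Q Z H : Subgroup G}

/-- the normalizer modulo the centralizer is abelian -/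
theorem comm_cent (hZ : Nat.card Z = p) {a b : G} (ha : a ∈ Subgroup.normalizer (Z : Set G))
    (hb : b ∈ Subgroup.normalizer (Z : Set G)) :
    a * b * a⁻¹ * b⁻¹ ∈ Subgroup.centralizer (Z : Set G) := by
  obtain ⟨π, hπ⟩ := exists_piQ (p := p) Z hZ
  have h1 : π ((⟨a, ha⟩ : Subgroup.normalizer (Z : Set G)) * ⟨b, hb⟩ * (⟨a, ha⟩)⁻¹ *
      (⟨b, hb⟩)⁻¹) = 1 := by
    rw [map_mul, map_mul, map_mul, map_inv, map_inv, mul_comm (π _) (π _)]
    group
  exact (hπ _).1 h1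

private theorem card_units_p : Nat.card (ZMod p)ˣ = p - 1 := by
  have hp : p.Prime := Fact.out
  rw [Nat.card_eq_fintype_card, ZMod.card_units_eq_totient, Nat.totient_prime hp]

private theorem not_dvd_of_dvd_sub {m : ℕ} (h : m ∣ p - 1) : ¬ p ∣ m := by
  intro hm
  have hp : p.Prime := Fact.out
  have h1 := hp.one_lt
  have h2 := Nat.le_of_dvd (by omega) (hm.trans h)
  omega

theorem LocC.pel (hL : LocC p K Q Z H) {g : G} (hg : g ∈ NN K Z) {k : ℕ} (h : g ^ p ^ k = 1) :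
    g ∈ Q ⊔ H := by
  have hp : p.Prime := Fact.out
  obtain ⟨π, hπ⟩ := exists_piQ (p := p) Z hL.cZ
  rw [hL.sup]
  refine ⟨hg.1, (hπ ⟨g, hg.2⟩).1 ?_⟩
  have h1 : (π ⟨g, hg.2⟩) ^ p ^ k = 1 := by
    rw [← map_pow]
    have h2 : (⟨g, hg.2⟩ : Subgroup.normalizer (Z : Set G)) ^ p ^ k = 1 := Subtype.ext h
    rw [h2, map_one]
  have h2 : orderOf (π ⟨g, hg.2⟩) ∣ p ^ k := orderOf_dvd_of_pow_eq_one h1
  have h3 : orderOf (π ⟨g, hg.2⟩) ∣ p - 1 := by
    rw [← card_units_p (p := p)]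
    exact orderOf_dvd_natCard _
  have h4 : Nat.Coprime (p ^ k) (p - 1) := by
    apply Nat.Coprime.pow_left
    rw [Nat.Prime.coprime_iff_not_dvd hp]
    exact not_dvd_of_dvd_sub dvd_rfl
  exact orderOf_eq_one_iff.1 (Nat.eq_one_of_dvd_coprimes h4 h2 h3)

theorem LocC.ti (hL : LocC p K Q Z H) {k x : G} (hk : k ∈ K) (hx : x ∈ Q ⊔ H) (hxH : x ∉ H)
    (h : k⁻¹ * x * k ∈ Q ⊔ H) : k ∈ NN K Z := by
  have hp : p.Prime := Fact.out
  obtain ⟨i, hz, hz1⟩ := hL.pow_Z hx hxH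
  set z := x ^ i with hzdef
  have hzp : z ^ p = 1 := by
    have h1 : (⟨z, hz⟩ : Z) ^ Nat.card Z = 1 := pow_card_eq_one'
    rw [hL.cZ] at h1
    exact congrArg Subtype.val h1
  have e1 : ∀ (w : G) (j : ℕ), (k⁻¹ * w * k) ^ j = k⁻¹ * w ^ j * k := by
    intro w j
    have := conj_pow (i := j) (a := k⁻¹) (b := w)
    rwa [inv_inv] at this
  have h2 : k⁻¹ * z * k ∈ Q ⊔ H := by
    rw [hzdef, ← e1]
    exact Subgroup.pow_mem _ h i
  have h3 : k⁻¹ * z * k ∈ Z := by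
    apply hL.mem_Z h2
    rw [e1, hzp]
    group
  have h4 : ∀ w ∈ Z, k⁻¹ * w * k ∈ Z := by
    intro w hw
    have hz1' : (⟨z, hz⟩ : Z) ≠ 1 := fun h5 => hz1 (congrArg Subtype.val h5)
    have h5 : (⟨w, hw⟩ : Z) ∈ Submonoid.powers (⟨z, hz⟩ : Z) :=
      mem_powers_of_prime_card hL.cZ hz1'
    obtain ⟨j, hj⟩ := h5
    have hj' : z ^ j = w := congrArg Subtype.val hj
    rw [← hj', ← e1]
    exact Subgroup.pow_mem _ h3 j
  refine ⟨hk, ?_⟩
  have h5 : k⁻¹ ∈ Subgroup.normalizer (Z : Set G) := by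
    apply Subgroup.mem_normalizer_fintype
    intro n hn
    rw [inv_inv]
    exact h4 n hn
  have h6 := Subgroup.inv_mem _ h5
  rwa [inv_inv] at h6

theorem LocC.tiQ (hL : LocC p K Q Z H) {k x : G} (hk : k ∈ K) (hx : x ∈ Q) (hx1 : x ≠ 1)
    (h : k⁻¹ * x * k ∈ NN K Z) : k ∈ NN K Z := by
  obtain ⟨a, _, ha⟩ := hL.cQ
  have h1 : x ^ p ^ a = 1 := by
    have h2 : (⟨x, hx⟩ : Q) ^ Nat.card Q = 1 := pow_card_eq_one'
    rw [ha] at h2
    exact congrArg Subtype.val h2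
  have h2 : (k⁻¹ * x * k) ^ p ^ a = 1 := by
    have := conj_pow (i := p ^ a) (a := k⁻¹) (b := x)
    rw [inv_inv, h1] at this
    rw [this]
    group
  exact hL.ti hk ((le_sup_left : Q ≤ Q ⊔ H) hx) (fun hxH => hx1 (hL.disj hx hxH)) (hL.pel h h2)

private theorem conj_of_sylow {C P R : Subgroup G} (hP : P ≤ C) (hR : R ≤ C)
    (pP : IsPGroup p P) (pR : IsPGroup p R) (iP : ¬ p ∣ P.relIndex C) (iR : ¬ p ∣ R.relIndex C) :
    ∃ c ∈ C, ∀ x, x ∈ P ↔ c * x * c⁻¹ ∈ R := by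
  have pP' : IsPGroup p (P.subgroupOf C) := pP.comap_subtype
  have pR' : IsPGroup p (R.subgroupOf C) := pR.comap_subtype
  have iP' : ¬ p ∣ (P.subgroupOf C).index := iP
  have iR' : ¬ p ∣ (R.subgroupOf C).index := iR
  obtain ⟨g, hg⟩ := MulAction.exists_smul_eq C (pP'.toSylow iP') (pR'.toSylow iR')
  refine ⟨(g : G), g.2, fun x => ?_⟩
  have key : ∀ y : C, y ∈ P.subgroupOf C ↔ g * y * g⁻¹ ∈ R.subgroupOf C := by
    intro y
    have h1 : ((g • (pP'.toSylow iP') : Sylow p C) : Subgroup C) =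
        ((pR'.toSylow iR' : Sylow p C) : Subgroup C) := by rw [hg]
    rw [Sylow.coe_subgroup_smul, IsPGroup.toSylow_coe, IsPGroup.toSylow_coe] at h1
    rw [← h1, Subgroup.mem_pointwise_smul_iff_inv_smul_mem, ← map_inv, MulAut.smul_def,
      MulAut.conj_apply, inv_inv]
    have e : g⁻¹ * (g * y * g⁻¹) * g = y := by group
    rw [e]
  constructor
  · intro hx
    have h1 := (key ⟨x, hP hx⟩).1 hx
    exact h1
  · intro hx
    have hxC : x ∈ C := by
      have h2 := C.mul_mem (C.mul_mem (C.inv_mem g.2) (hR hx)) g.2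
      have e : (g : G)⁻¹ * (g * x * (g : G)⁻¹) * g = x := by group
      rwa [e] at h2
    exact (key ⟨x, hxC⟩).2 hx

private theorem LocC.pQ (hL : LocC p K Q Z H) : IsPGroup p Q := by
  obtain ⟨a, _, ha⟩ := hL.cQ
  exact IsPGroup.of_card ha

private theorem LocC.iQ (hL : LocC p K Q Z H) : ¬ p ∣ Q.relIndex (Q ⊔ H) := by
  have h1 : Q.relIndex (Q ⊔ H) ∣ Q.relIndex K := by
    refine Dvd.intro _ (Subgroup.relIndex_mul_relIndex Q (Q ⊔ H) K le_sup_left ?_)
    rw [hL.sup]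
    exact inf_le_left
  exact fun h => hL.syl (h.trans h1)

theorem LocC.frattini (hL : LocC p K Q Z H) {a : G} (haK : a ∈ Subgroup.normalizer (K : Set G))
    (haZ : a ∈ Subgroup.normalizer (Z : Set G)) :
    ∃ c ∈ Q ⊔ H, ∃ b ∈ Subgroup.normalizer (K : Set G) ⊓ Subgroup.normalizer (Q : Set G),
      a = c * b := by
  have haC := hL.norm_sup haK haZ
  -- the conjugate of `Q`
  set R : Subgroup G := Q.map (MulAut.conj a).toMonoidHom with hRdef
  have memR : ∀ x, x ∈ R ↔ a⁻¹ * x * a ∈ Q := by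
    intro x
    rw [hRdef, Subgroup.mem_map]
    constructor
    · rintro ⟨y, hy, rfl⟩
      have e : a⁻¹ * ((MulAut.conj a).toMonoidHom y) * a = y := by
        change a⁻¹ * (a * y * a⁻¹) * a = y
        group
      rw [e]
      exact hy
    · intro hx
      refine ⟨_, hx, ?_⟩
      change a * (a⁻¹ * x * a) * a⁻¹ = x
      group
  have hRC : R ≤ Q ⊔ H := by
    intro x hx
    have h1 : a⁻¹ * x * a ∈ Q ⊔ H := (le_sup_left : Q ≤ Q ⊔ H) ((memR x).1 hx)
    exact (Subgroup.mem_normalizer_iff''.1 haC x).2 h1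
  have cardR : Nat.card R = Nat.card Q := by
    rw [hRdef]
    exact Nat.card_congr (Q.equivMapOfInjective _ (MulAut.conj a).injective).symm.toEquiv
  have pR : IsPGroup p R := by
    obtain ⟨n, _, hn⟩ := hL.cQ
    exact IsPGroup.of_card (cardR.trans hn)
  have iR : ¬ p ∣ R.relIndex (Q ⊔ H) := by
    have h1 : Nat.card R * R.relIndex (Q ⊔ H) = Nat.card (Q ⊔ H : Subgroup G) := by
      have := Subgroup.relIndex_mul_relIndex ⊥ R (Q ⊔ H) bot_le hRC
      rwa [Subgroup.relIndex_bot_left, Subgroup.relIndex_bot_left] at this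
    have h2 : Nat.card Q * Q.relIndex (Q ⊔ H) = Nat.card (Q ⊔ H : Subgroup G) := by
      have := Subgroup.relIndex_mul_relIndex ⊥ Q (Q ⊔ H) bot_le le_sup_left
      rwa [Subgroup.relIndex_bot_left, Subgroup.relIndex_bot_left] at this
    rw [cardR, ← h2] at h1
    have h3 : R.relIndex (Q ⊔ H) = Q.relIndex (Q ⊔ H) :=
      Nat.eq_of_mul_eq_mul_left Nat.card_pos h1
    rw [h3]
    exact hL.iQ
  obtain ⟨c, hc, hcx⟩ := conj_of_sylow (p := p) le_sup_left hRC hL.pQ pR hL.iQ iR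
  have hcK : c ∈ K := by
    have h1 : Q ⊔ H ≤ K := by
      rw [hL.sup]
      exact inf_le_left
    exact h1 hc
  refine ⟨c, hc, c⁻¹ * a, ⟨?_, ?_⟩, by group⟩
  · exact Subgroup.mul_mem _ (Subgroup.inv_mem _ (Subgroup.le_normalizer hcK)) haK
  · refine Subgroup.mem_normalizer_iff''.2 fun x => ?_
    have h1 := (hcx x).trans (memR _)
    have e : (c⁻¹ * a)⁻¹ * x * (c⁻¹ * a) = a⁻¹ * (c * x * c⁻¹) * a := by group
    rw [e]
    exact h1

/-- the same for elements of the local subgroup -/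
theorem LocC.frattini' (hL : LocC p K Q Z H) {a : G} (ha : a ∈ NN K Z) :
    ∃ c ∈ Q ⊔ H, ∃ b ∈ NN K Q, a = c * b := by
  obtain ⟨c, hc, b, hb, e⟩ := hL.frattini (Subgroup.le_normalizer ha.1) ha.2
  have hcK : c ∈ K := by
    have h1 : Q ⊔ H ≤ K := by
      rw [hL.sup]
      exact inf_le_left
    exact h1 hc
  refine ⟨c, hc, b, ⟨?_, hb.2⟩, e⟩
  have h2 : b = c⁻¹ * a := by rw [e]; group
  rw [h2]
  exact K.mul_mem (K.inv_mem hcK) ha.1

theorem LocC.sylow_C (hL : LocC p K Q Z H) {g : G} (hg : g ∈ Q ⊔ H) {k : ℕ}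
    (h : g ^ p ^ k = 1) : ∃ c ∈ Q ⊔ H, c * g * c⁻¹ ∈ Q := by
  have pQ' : IsPGroup p (Q.subgroupOf (Q ⊔ H)) := hL.pQ.comap_subtype
  have hz : IsPGroup p (Subgroup.zpowers (⟨g, hg⟩ : (Q ⊔ H : Subgroup G))) := by
    rintro ⟨y, hy⟩
    obtain ⟨j, hj⟩ := Subgroup.mem_zpowers_iff.1 hy
    refine ⟨k, Subtype.ext ?_⟩
    change y ^ p ^ k = 1
    rw [← hj, ← zpow_natCast, ← zpow_mul, mul_comm, zpow_mul, zpow_natCast]
    have h1 : (⟨g, hg⟩ : (Q ⊔ H : Subgroup G)) ^ p ^ k = 1 := Subtype.ext h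
    rw [h1, one_zpow]
  obtain ⟨P, hP⟩ := hz.exists_le_sylow
  have iQ' : ¬ p ∣ (Q.subgroupOf (Q ⊔ H)).index := hL.iQ
  obtain ⟨c, hc⟩ := MulAction.exists_smul_eq (Q ⊔ H : Subgroup G) P (pQ'.toSylow iQ')
  refine ⟨(c : G), c.2, ?_⟩
  have h1 : ((c • P : Sylow p (Q ⊔ H : Subgroup G)) : Subgroup (Q ⊔ H : Subgroup G)) =
      ((pQ'.toSylow iQ' : Sylow p (Q ⊔ H : Subgroup G)) : Subgroup (Q ⊔ H : Subgroup G)) := by
    rw [hc]
  rw [Sylow.coe_subgroup_smul, IsPGroup.toSylow_coe] at h1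
  have h2 : (⟨g, hg⟩ : (Q ⊔ H : Subgroup G)) ∈ P := hP (Subgroup.mem_zpowers _)
  have h3 : c * ⟨g, hg⟩ * c⁻¹ ∈ Q.subgroupOf (Q ⊔ H) := by
    rw [← h1, Subgroup.mem_pointwise_smul_iff_inv_smul_mem, ← map_inv, MulAut.smul_def,
      MulAut.conj_apply, inv_inv]
    have e : c⁻¹ * (c * ⟨g, hg⟩ * c⁻¹) * c = ⟨g, hg⟩ := by group
    rw [e]
    exact h2
  exact h3

/-- the index of `C` in a subgroup of the normalizer of `Z` in `K` is the order of the image -/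
private theorem LocC.idx_eq (hL : LocC p K Q Z H) {π : Subgroup.normalizer (Z : Set G) →* (ZMod p)ˣ}
    (hπ : ∀ a, π a = 1 ↔ (a : G) ∈ Subgroup.centralizer (Z : Set G)) {D : Subgroup G}
    (hD : D ≤ Subgroup.normalizer (Z : Set G)) (hDK : D ≤ K) :
    (Q ⊔ H).relIndex D = Nat.card (π.comp (Subgroup.inclusion hD)).range := by
  have hker : (π.comp (Subgroup.inclusion hD)).ker = (Q ⊔ H).subgroupOf D := by
    ext a
    rw [MonoidHom.mem_ker, MonoidHom.comp_apply, hπ, Subgroup.mem_subgroupOf, hL.sup]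
    constructor
    · intro h
      exact ⟨hDK a.2, h⟩
    · intro h
      exact h.2
  unfold Subgroup.relIndex
  rw [← hker, Subgroup.index_ker]

private theorem LocC.idx_dvd (hL : LocC p K Q Z H) {D : Subgroup G}
    (hD : D ≤ Subgroup.normalizer (Z : Set G)) (hDK : D ≤ K) : (Q ⊔ H).relIndex D ∣ p - 1 := by
  obtain ⟨π, hπ⟩ := exists_piQ (p := p) Z hL.cZ
  rw [hL.idx_eq hπ hD hDK, ← card_units_p (p := p)]
  exact Subgroup.card_subgroup_dvd_card _

theorem LocC.index_dvd (hL : LocC p K Q Z H) : (Q ⊔ H).relIndex (NN K Z) ∣ p - 1 :=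
  hL.idx_dvd inf_le_right inf_le_left

theorem LocC.index_prime (hL : LocC p K Q Z H) {T : Subgroup G} (h1 : Q ⊔ H ≤ T)
    (h2 : T ≤ NN K Z) : ¬ p ∣ T.relIndex (NN K Z) ∧ T.relIndex (NN K Z) ∣ p - 1 := by
  have h3 : T.relIndex (NN K Z) ∣ (Q ⊔ H).relIndex (NN K Z) :=
    Dvd.intro_left _ (Subgroup.relIndex_mul_relIndex (Q ⊔ H) T (NN K Z) h1 h2)
  have h4 := h3.trans hL.index_dvd
  exact ⟨not_dvd_of_dvd_sub h4, h4⟩

theorem LocC.index_C (hL : LocC p K Q Z H) : ¬ p ∣ (Q ⊔ H).relIndex K := by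
  have h1 : (Q ⊔ H).relIndex K ∣ Q.relIndex K := by
    refine Dvd.intro_left _ (Subgroup.relIndex_mul_relIndex Q (Q ⊔ H) K le_sup_left ?_)
    rw [hL.sup]
    exact inf_le_left
  exact fun h => hL.syl (h.trans h1)

theorem LocC.index_mod (hL : LocC p K Q Z H) : (((NN K Z).relIndex K : ℕ) : ZMod p) = 1 := by
  have hp : p.Prime := Fact.out
  have hZK : Z ≤ K := hL.ZQ.trans hL.QK
  have hZN : Z ≤ NN K Z := (hL.ZQ.trans le_sup_left).trans hL.sup_le
  set N' : Subgroup K := (NN K Z).subgroupOf K with hN'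
  set Z' : Subgroup K := Z.subgroupOf K with hZ'
  have pZ : IsPGroup p Z := IsPGroup.of_card (n := 1) (by rw [hL.cZ, pow_one])
  have pZ' : IsPGroup p Z' := pZ.comap_subtype
  have hmod := pZ'.card_modEq_card_fixedPoints (K ⧸ N')
  -- exactly one fixed point
  have hfix : MulAction.fixedPoints Z' (K ⧸ N') = {((1 : K) : K ⧸ N')} := by
    ext q
    rw [Set.mem_singleton_iff]
    induction q using QuotientGroup.induction_on with
    | H k =>
      rw [MulAction.mem_fixedPoints]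
      constructor
      · intro h
        -- a nontrivial element of `Z`
        have hnt : Nontrivial Z := by
          rw [← Finite.one_lt_card_iff_nontrivial, hL.cZ]
          exact hp.one_lt
        obtain ⟨z, hz⟩ := exists_ne (1 : Z)
        have hz1 : (z : G) ≠ 1 := fun h1 => hz (Subtype.ext h1)
        have h1 := h ⟨⟨z, hZK z.2⟩, z.2⟩
        have h2 : (((⟨z, hZK z.2⟩ : K) * k : K) : K ⧸ N') = (k : K ⧸ N') := h1
        have h3 := QuotientGroup.eq.1 h2.symm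
        have h4 : (k : G)⁻¹ * ((z : G) * k) ∈ NN K Z := h3
        rw [← mul_assoc] at h4
        have h5 : (k : G) ∈ NN K Z := hL.tiQ k.2 (hL.ZQ z.2) hz1 h4
        apply QuotientGroup.eq.2
        have h6 : k⁻¹ * 1 ∈ N' := by
          rw [mul_one]
          exact N'.inv_mem h5
        exact h6
      · intro h z
        have h1 : k⁻¹ * 1 ∈ N' := QuotientGroup.eq.1 h
        rw [mul_one] at h1
        have h2 : k ∈ N' := by
          have := N'.inv_mem h1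
          rwa [inv_inv] at this
        have h3 : ((((z : K) * k : K)) : K ⧸ N') = (k : K ⧸ N') := by
          apply QuotientGroup.eq.2
          have h4 : (z : K) ∈ N' := hZN z.2
          exact N'.mul_mem (N'.inv_mem (N'.mul_mem h4 h2)) h2
        exact h3
  have hone : Nat.card ({((1 : K) : K ⧸ N')} : Set (K ⧸ N')) = 1 := by simp
  rw [hfix, hone] at hmod
  have h1 : (NN K Z).relIndex K ≡ 1 [MOD p] := hmod
  have h2 := (ZMod.natCast_eq_natCast_iff _ _ _).2 h1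
  rw [h2, Nat.cast_one]

/-- elements of `Q ⊔ H` fix its characters -/
theorem LocC.C_le_stab (hL : LocC p K Q Z H) {φ : G → ℂ} (hφ : φ ∈ IrrS (Q ⊔ H)) :
    Q ⊔ H ≤ NN K Z ⊓ stab φ :=
  le_inf hL.sup_le (fun _ hg => cnj_eq_self hg hφ)

theorem LocC.ee_eq (hL : LocC p K Q Z H) {φ : G → ℂ} (hφ : φ ∈ IrrS (Q ⊔ H)) :
    ee K Q H φ = (Q ⊔ H).relIndex (NN K Z ⊓ stab φ) := by
  obtain ⟨π, hπ⟩ := exists_piQ (p := p) Z hL.cZ
  have hD : NN K Q ⊓ stab φ ≤ Subgroup.normalizer (Z : Set G) :=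
    fun g hg => (hL.NNQ_le hg.1).2
  have hD' : NN K Q ⊓ stab φ ≤ K := fun g hg => hg.1.1
  have hN : NN K Z ⊓ stab φ ≤ Subgroup.normalizer (Z : Set G) := fun g hg => hg.1.2
  have hN' : NN K Z ⊓ stab φ ≤ K := fun g hg => hg.1.1
  unfold ee
  rw [hL.idx_eq hπ hD hD', hL.idx_eq hπ hN hN']
  have hr : (π.comp (Subgroup.inclusion hD)).range = (π.comp (Subgroup.inclusion hN)).range := by
    ext u
    rw [MonoidHom.mem_range, MonoidHom.mem_range]
    constructor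
    · rintro ⟨x, rfl⟩
      exact ⟨⟨x, ⟨hL.NNQ_le x.2.1, x.2.2⟩⟩, rfl⟩
    · rintro ⟨x, rfl⟩
      obtain ⟨c, hc, b, hb, e⟩ := hL.frattini' x.2.1
      have hcs : c ∈ stab φ := (hL.C_le_stab hφ hc).2
      have hbs : b ∈ stab φ := by
        have h1 : b = c⁻¹ * x := by rw [e]; group
        rw [h1]
        exact Subgroup.mul_mem _ (Subgroup.inv_mem _ hcs) x.2.2
      refine ⟨⟨b, ⟨hb, hbs⟩⟩, ?_⟩
      have hcN : c ∈ Subgroup.normalizer (Z : Set G) := (hL.sup_le hc).2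
      have hbN : b ∈ Subgroup.normalizer (Z : Set G) := (hL.NNQ_le hb).2
      have h2 : (Subgroup.inclusion hN) x = (⟨c, hcN⟩ : Subgroup.normalizer (Z : Set G)) *
          ⟨b, hbN⟩ := Subtype.ext e
      have h3 : π ⟨c, hcN⟩ = 1 := by
        rw [hπ]
        rw [hL.sup] at hc
        exact hc.2
      rw [MonoidHom.comp_apply, MonoidHom.comp_apply, h2, map_mul, h3, one_mul]
      rfl
  rw [hr]

theorem LocC.ee_lt (hL : LocC p K Q Z H) (φ : G → ℂ) : ee K Q H φ < p := by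
  have hp : p.Prime := Fact.out
  have h1 : ee K Q H φ ∣ p - 1 :=
    hL.idx_dvd (fun g hg => (hL.NNQ_le hg.1).2) (fun g hg => hg.1.1)
  have h2 := hp.one_lt
  have h3 := Nat.le_of_dvd (by omega) h1
  omega

theorem LocC.ee_pos (hL : LocC p K Q Z H) (φ : G → ℂ) : 0 < ee K Q H φ := by
  have _ := hL
  unfold ee Subgroup.relIndex
  exact Nat.pos_of_ne_zero Subgroup.index_ne_zero_of_finite

theorem LocC.ee_NN (hL : LocC p K Q Z H) (φ : G → ℂ) : ee (NN K Z) Q H φ = ee K Q H φ := by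
  unfold ee
  rw [hL.NN_Q]

theorem LocC.Cj_NN (hL : LocC p K Q Z H) (φ lam lam' : G → ℂ) :
    Cj (NN K Z) Q φ lam lam' ↔ Cj K Q φ lam lam' := by
  unfold Cj
  rw [hL.NN_Q]

end Pool.Agent.Helper42.CY
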