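import Pool.Agent.Helper42.CY.FCore
import Pool.Agent.Helper42.CY.LocE
import Pool.Agent.Helper42.CY.LocH
import Pool.Agent.Helper7.MK.Defs

/-!
# CY-36 (project CY, section 5.2): `Good p K` from matched characters

Adapt Helper42/IR/F/GoodOf.lean and the private lemmas `preserves`, `preserves_iff` of IR/F/HII.lean. Here
`T = normalizer Z`, `Z` the subgroup of order `p` of the cyclic Sylow subgroup `Q`.

* `preserves_Z`: `LocC p ⊤ Q Z H`. If `α` maps `T = normalizer Z` onto itself then it maps `Z` onto itself: for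
  `x ∈ Z`, `α x ∈ T` and `(α x) ^ p = 1`; by `LocC.pel` `α x ∈ Q ⊔ H` and by `LocC.mem_Z` `α x ∈ Z`. The same for
  `α⁻¹`.
* `exists_top`: `|Q| = p ^ a` with `a ≥ 2` (`p ^ 2 ∣ |K|`, `Sylow.card_eq_multiplicity`); the cyclic group `Q`
  has a subgroup of order `p` (generated by `y ^ (p ^ (a-1))`); `exists_locC` for `K = ⊤`.
* `good_of_matched`: `exists_top` gives `Z`, `H`, `exists_core` gives `F`. Take `T = normalizer Z`.
  - `normalizer Q ≤ T`: `LocC.normQ_Z`.
  - `T ≠ ⊤`: otherwise `⁅K, K⁆ ≤ centralizer Z` (`comm_cent`), so `Z` is central and `p ∣ |Z(K)|`.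
  - an automorphism `α` which preserves `Q` preserves `Z = {x ∈ Q | x ^ p = 1}` (`LocC.mem_Z`), so `T`.
  - the bijection `IrrP p K ≃ IrrP p T`, `θ ↦ (fun t => F θ t)` and the rest as in the old file, with
    `preserves_Z` for the equivariance.
-/

namespace Pool.Agent.Helper42.CY

open Pool.Agent.Helper42.INC Pool.Agent.Helper42.IR Pool.Agent.Helper42.IR.F
  Pool.Agent.Helper7.MK

section

variable {K : Type} [Group K] {p : ℕ}

private lemma mem_normalizer_of {Q : Subgroup K} {α : MulAut K} (hα : ∀ x, α x ∈ Q ↔ x ∈ Q) (x : K) :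
    α x ∈ Subgroup.normalizer (Q : Set K) ↔ x ∈ Subgroup.normalizer (Q : Set K) := by
  rw [Subgroup.mem_normalizer_iff, Subgroup.mem_normalizer_iff]
  constructor
  · intro h y
    have h1 : α y ∈ Q ↔ α x * α y * (α x)⁻¹ ∈ Q := h (α y)
    rw [← hα y, h1, ← map_mul, ← map_inv, ← map_mul]
    exact hα _
  · intro h y
    have h1 : α⁻¹ y ∈ Q ↔ x * α⁻¹ y * x⁻¹ ∈ Q := h (α⁻¹ y)
    have e1 : α (α⁻¹ y) = y := MulAut.apply_inv_self K α y
    have h2 : y ∈ Q ↔ α⁻¹ y ∈ Q := by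
      rw [← hα (α⁻¹ y), e1]
    rw [h2, h1, ← hα (x * α⁻¹ y * x⁻¹), map_mul, map_mul, map_inv, e1]

private lemma preserves [Finite K] [Fact p.Prime] {Q Z H : Subgroup K}
    (hL : LocC p (⊤ : Subgroup K) Q Z H) {α : MulAut K}
    (hα : ∀ x, α x ∈ Subgroup.normalizer (Z : Set K) ↔ x ∈ Subgroup.normalizer (Z : Set K))
    {x : K} (hx : x ∈ Z) : α x ∈ Z := by
  have h1 : (⟨x, hx⟩ : Z) ^ Nat.card Z = 1 := pow_card_eq_one'
  rw [hL.cZ] at h1
  have h2 : x ^ p = 1 := congrArg Subtype.val h1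
  have h3 : (α x) ^ p = 1 := by
    rw [← map_pow, h2, map_one]
  refine hL.mem_Z (hL.pel (k := 1) ⟨Subgroup.mem_top _, ?_⟩ (by rwa [pow_one])) h3
  exact (hα x).2 (Subgroup.le_normalizer hx)

private lemma irrN {Q : Subgroup K} {f : K → ℂ} (h : f ∈ IrrS (NN (⊤ : Subgroup K) Q)) :
    (fun t : Subgroup.normalizer (Q : Set K) => f t) ∈ Irr _ := by
  have e : NN (⊤ : Subgroup K) Q = Subgroup.normalizer (Q : Set K) := by
    unfold NN
    exact top_inf_eq _
  exact irr_comp (MulEquiv.subgroupCongr e.symm) h.1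

private lemma irrN_ext {Q : Subgroup K} {φ : Subgroup.normalizer (Q : Set K) → ℂ}
    (h : φ ∈ Irr _) : ext0 (Subgroup.normalizer (Q : Set K)) φ ∈
      IrrS (NN (⊤ : Subgroup K) Q) := by
  have e : NN (⊤ : Subgroup K) Q = Subgroup.normalizer (Q : Set K) := by
    unfold NN
    exact top_inf_eq _
  constructor
  · have h1 := irr_comp (MulEquiv.subgroupCongr e) h
    have h2 : (fun x => φ (MulEquiv.subgroupCongr e x)) =
        fun x : NN (⊤ : Subgroup K) Q => ext0 (Subgroup.normalizer (Q : Set K)) φ x := by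
      funext x
      exact (ext0_mem φ (MulEquiv.subgroupCongr e x)).symm
    rwa [h2] at h1
  · intro x hx
    apply ext0_notMem
    rwa [← e]

private lemma deg_res {T : Subgroup K} (f : K → ℂ) : deg (fun t : T => f t) = deg f := rfl

private lemma sp_of_irrP [Finite K] {θ : K → ℂ} (h : θ ∈ IrrP p K) :
    θ ∈ IrrSP p (⊤ : Subgroup K) := by
  obtain ⟨h1, n, hn, hd⟩ := h
  refine ⟨?_, ?_⟩
  · refine ⟨irr_comp (Subgroup.topEquiv (G := K)) h1, fun x hx => absurd (Subgroup.mem_top x) hx⟩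
  · rwa [deg_eq hn]

private lemma irrP_of_sp [Finite K] {θ : K → ℂ} (h : θ ∈ IrrSP p (⊤ : Subgroup K)) :
    θ ∈ IrrP p K := by
  have h1 : θ ∈ Irr K := irr_comp (Subgroup.topEquiv (G := K)).symm h.1.1
  exact ⟨h1, deg θ, (deg_cast h1).symm, h.2⟩

end

theorem preserves_Z {K : Type} [Group K] [Finite K] {p : ℕ} [Fact p.Prime] {Q Z H : Subgroup K}
    (hL : LocC p (⊤ : Subgroup K) Q Z H) {α : MulAut K}
    (hα : ∀ x, α x ∈ Subgroup.normalizer (Z : Set K) ↔ x ∈ Subgroup.normalizer (Z : Set K))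
    (x : K) : α x ∈ Z ↔ x ∈ Z := by
  constructor
  · intro hx
    have hα' : ∀ x, α⁻¹ x ∈ Subgroup.normalizer (Z : Set K) ↔
        x ∈ Subgroup.normalizer (Z : Set K) := by
      intro y
      rw [← hα (α⁻¹ y), MulAut.apply_inv_self]
    have h4 := preserves hL hα' hx
    rwa [MulAut.inv_apply_self] at h4
  · exact preserves hL hα

theorem exists_top {K : Type} [Group K] [Finite K] {p : ℕ} [Fact p.Prime] (Q : Sylow p K)
    (hc : IsCyclic Q) (h2 : p ^ 2 ∣ Nat.card K) :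
    ∃ Z H : Subgroup K, LocC p (⊤ : Subgroup K) (Q : Subgroup K) Z H := by
  have hp : p.Prime := Fact.out
  have h0 : Nat.card K ≠ 0 := Nat.card_pos.ne'
  have hf : 2 ≤ (Nat.card K).factorization p := (hp.pow_dvd_iff_le_factorization h0).1 h2
  have hcQ := Q.card_eq_multiplicity
  obtain ⟨a, ha⟩ : ∃ a, (Nat.card K).factorization p = a + 1 := ⟨_, (Nat.succ_pred (by omega)).symm⟩
  rw [ha] at hcQ hf
  obtain ⟨⟨y, hy⟩, hgen⟩ := hc.exists_generator
  have hord : orderOf y = p ^ (a + 1) := by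
    rw [← hcQ, ← orderOf_eq_card_of_forall_mem_zpowers hgen]
    exact (Subgroup.orderOf_coe (⟨y, hy⟩ : (Q : Subgroup K)))
  have hpa : p ^ a ≠ 0 := (pow_pos hp.pos a).ne'
  have hZ : Nat.card (Subgroup.zpowers (y ^ p ^ a)) = p := by
    rw [Nat.card_zpowers, orderOf_pow_of_dvd hpa (by rw [hord]; exact pow_dvd_pow p (Nat.le_succ a)),
      hord, pow_succ, Nat.mul_div_cancel_left _ (pow_pos hp.pos a)]
  have hZQ : Subgroup.zpowers (y ^ p ^ a) ≤ (Q : Subgroup K) := by
    rw [Subgroup.zpowers_le]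
    exact Subgroup.pow_mem _ hy _
  obtain ⟨H, hH⟩ := exists_locC (p := p) (K := (⊤ : Subgroup K)) (Q := (Q : Subgroup K))
    (Z := Subgroup.zpowers (y ^ p ^ a)) le_top hc ⟨a + 1, hf, hcQ⟩
    (by rw [Subgroup.relIndex_top_right]; exact Q.not_dvd_index) hZQ hZ
  exact ⟨_, H, hH⟩

theorem good_of_matched {p : ℕ} [Fact p.Prime] (hp2 : p ≠ 2) (K : Type) [Group K] [Finite K]
    (hperf : ⁅(⊤ : Subgroup K), (⊤ : Subgroup K)⁆ = ⊤) (hc : ∀ Q : Sylow p K, IsCyclic Q)
    (h2 : p ^ 2 ∣ Nat.card K) (h3 : ¬ p ∣ Nat.card (Subgroup.center K))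
    (hM : ∀ (Q Z H : Subgroup K) (F : (K → ℂ) → (K → ℂ)), LocC p (⊤ : Subgroup K) Q Z H →
      CoreC p Q Z H F → ∀ θ ∈ IrrSP p (⊤ : Subgroup K),
        MatchedAut (Subgroup.normalizer (Z : Set K)) θ (fun t => F θ t)) : Good p K := by
  intro Q
  have hp : p.Prime := Fact.out
  obtain ⟨Z, H, hL⟩ := exists_top Q (hc Q) h2
  obtain ⟨F, hF⟩ := exists_core hp2 hL
  -- the normalizer is proper
  have hT : Subgroup.normalizer (Z : Set K) ≠ ⊤ := by
    intro hT
    have hcent : ⁅(⊤ : Subgroup K), (⊤ : Subgroup K)⁆ ≤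
        Subgroup.centralizer (Z : Set K) := by
      rw [Subgroup.commutator_le]
      intro a _ b _
      rw [commutatorElement_def]
      exact comm_cent hL.cZ (hT ▸ Subgroup.mem_top a) (hT ▸ Subgroup.mem_top b)
    rw [hperf] at hcent
    have hQZ : Z ≤ Subgroup.center K := by
      intro x hx
      rw [Subgroup.mem_center_iff]
      intro g
      have h5 := Subgroup.mem_centralizer_iff.1 (hcent (Subgroup.mem_top g)) x hx
      exact h5.symm
    apply h3
    rw [← hL.cZ]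
    exact Subgroup.card_dvd_of_le hQZ
  have hαZ : ∀ α : MulAut K, (∀ x, α x ∈ Q ↔ x ∈ Q) → ∀ x, α x ∈ Z ↔ x ∈ Z := by
    have hpow : ∀ x ∈ Z, x ^ p = 1 := by
      intro x hx
      have h1 : (⟨x, hx⟩ : Z) ^ Nat.card Z = 1 := pow_card_eq_one'
      rw [hL.cZ] at h1
      exact congrArg Subtype.val h1
    intro α hα x
    constructor
    · intro hx
      refine hL.mem_Z (Subgroup.mem_sup_left ((hα x).1 (hL.ZQ hx))) ?_
      apply α.injective
      rw [map_pow, map_one]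
      exact hpow _ hx
    · intro hx
      refine hL.mem_Z (Subgroup.mem_sup_left ((hα x).2 (hL.ZQ hx))) ?_
      rw [← map_pow, hpow x hx, map_one]
  refine ⟨Subgroup.normalizer (Z : Set K), fun g hg => hL.normQ_Z hg, hT,
    fun α hα x => mem_normalizer_of (hαZ α hα) x, ?_⟩
  -- the bijection
  have hmem : ∀ θ : IrrP p K, (fun t : Subgroup.normalizer (Z : Set K) =>
      F θ.1 t) ∈ IrrP p (Subgroup.normalizer (Z : Set K)) := by
    intro θ
    have h4 := hF.bij.mapsTo (sp_of_irrP θ.2)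
    have h5 := irrN h4.1
    exact ⟨h5, deg (F θ.1), by
      have h6 := deg_cast h5
      rw [deg_res] at h6
      exact h6.symm, h4.2⟩
  let f : IrrP p K → IrrP p (Subgroup.normalizer (Z : Set K)) :=
    fun θ => ⟨fun t => F θ.1 t, hmem θ⟩
  have hf : Function.Bijective f := by
    constructor
    · intro θ θ' he
      have h4 := hF.bij.mapsTo (sp_of_irrP θ.2)
      have h5 := hF.bij.mapsTo (sp_of_irrP θ'.2)
      apply Subtype.ext
      apply hF.bij.injOn (sp_of_irrP θ.2) (sp_of_irrP θ'.2)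
      funext x
      by_cases hx : x ∈ Subgroup.normalizer (Z : Set K)
      · exact congrFun (congrArg Subtype.val he) ⟨x, hx⟩
      · have hx' : x ∉ NN (⊤ : Subgroup K) Z := fun h => hx h.2
        rw [h4.1.2 x hx', h5.1.2 x hx']
    · intro φ
      obtain ⟨n, hn, hd⟩ := φ.2.2
      have h4 : ext0 (Subgroup.normalizer (Z : Set K)) φ.1 ∈
          IrrSP p (NN (⊤ : Subgroup K) Z) := by
        refine ⟨irrN_ext φ.2.1, ?_⟩
        have h5 : ext0 (Subgroup.normalizer (Z : Set K)) φ.1 1 = n := by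
          rw [← hn]
          exact ext0_mem φ.1 1
        rwa [deg_eq h5]
      obtain ⟨χ, hχ, he⟩ := hF.bij.surjOn h4
      refine ⟨⟨χ, irrP_of_sp hχ⟩, ?_⟩
      apply Subtype.ext
      funext t
      change F χ t = φ.1 t
      rw [he]
      exact ext0_mem φ.1 t
  refine ⟨Equiv.ofBijective f hf, ?_, ?_, ?_⟩
  · intro α hα θ θ' hθ t t' htt
    have h4 : θ'.1 = fun x => θ.1 (α x) := funext hθ
    have h5 := hF.equivariant α (preserves_Z hL hα) θ.1 (sp_of_irrP θ.2)
    change F θ'.1 t = F θ.1 t'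
    rw [h4, h5, htt]
  · intro θ
    exact hF.degree θ.1 (sp_of_irrP θ.2)
  · intro θ
    exact hM _ Z H F hL hF θ.1 (sp_of_irrP θ.2)

end Pool.Agent.Helper42.CY
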