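import Pool.Agent.Helper42.IR.F.PLift
import Pool.Agent.Helper42.IR.F.NoTwo
import Pool.Agent.Helper42.IR.F.Defs

/-!
# CY-38 (project CY, section 5.2): matched characters, `p`-groups of automorphisms

This is Helper42/IR/F/PPart.lean with a general subgroup `T` in place of `normalizer Q`: copy that file
(including its private lemmas; `mem_of_pow` is not needed) and replace the last step: there the elements
`y ∈ T` of `p`-power order are in `Q ≤ ⁅T, T⁆`, here `y ∈ commutator T` is the hypothesis `hder`.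
-/

namespace Pool.Agent.Helper42.CY

open Pool.Agent.Helper42.INC Pool.Agent.Helper42.IR Pool.Agent.Helper42.IR.F
open scoped Kronecker

/-- the representation on column vectors given by a matrix representation -/
private noncomputable def p1Rep {H n : Type} [Group H] [Fintype n] [DecidableEq n]
    (D : H →* Matrix n n ℂ) : Representation ℂ H (n → ℂ) :=
  (Matrix.toLinAlgEquiv' (R := ℂ) (n := n)).toMulEquiv.toMonoidHom.comp D

private lemma p1_apply {H n : Type} [Group H] [Fintype n] [DecidableEq n]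
    (D : H →* Matrix n n ℂ) (h : H) : p1Rep D h = Matrix.toLin' (D h) := rfl

private lemma p1_char {H n : Type} [Group H] [Fintype n] [DecidableEq n]
    (D : H →* Matrix n n ℂ) : (p1Rep D).character = fun h => (D h).trace := by
  funext h
  rw [Representation.character, p1_apply, Matrix.trace_toLin'_eq]

/-- Schur's lemma for matrices -/
private lemma p1_comm {H n : Type} [Group H] [Finite H] [Fintype n] [DecidableEq n]
    (D : H →* Matrix n n ℂ) (hD : (fun h => (D h).trace) ∈ Irr H) (A : Matrix n n ℂ)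
    (hA : ∀ h, A * D h = D h * A) : ∃ c : ℂ, A = c • (1 : Matrix n n ℂ) := by
  classical
  have := Fintype.ofFinite H
  have hne : (D 1).trace ≠ 0 := by
    obtain ⟨m, hm0, hm⟩ := irr_one hD
    rw [hm]
    exact_mod_cast hm0.ne'
  have h1 : B (p1Rep D).character (p1Rep D).character = 1 := by
    rw [p1_char]
    exact B_irr_self hD
  rw [B_eq, Representation.card_inv_mul_sum_char_mul_char_eq_finrank] at h1
  have h2 : Module.finrank ℂ (Representation.IntertwiningMap (p1Rep D) (p1Rep D)) = 1 := by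
    exact_mod_cast h1
  have hid : Representation.IntertwiningMap.id (p1Rep D) ≠ 0 := by
    intro h0
    have h3 : (LinearMap.id : (n → ℂ) →ₗ[ℂ] (n → ℂ)) = 0 :=
      congrArg (fun f => f.toLinearMap) h0
    apply hne
    rw [map_one, Matrix.trace_one]
    have h4 : IsEmpty n := by
      by_contra hcon
      rw [not_isEmpty_iff] at hcon
      obtain ⟨i⟩ := hcon
      have h5 := congrFun (LinearMap.congr_fun h3 (fun _ => (1 : ℂ))) i
      simp at h5
    simp
  have hcz : ∀ g, Matrix.toLin' A ∘ₗ p1Rep D g = p1Rep D g ∘ₗ Matrix.toLin' A := by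
    intro g
    rw [p1_apply, ← Matrix.toLin'_mul, ← Matrix.toLin'_mul, hA g]
  obtain ⟨c, hc⟩ := (finrank_eq_one_iff_of_nonzero' _ hid).1 h2
    ⟨Matrix.toLin' A, hcz⟩
  have h6 : c • (LinearMap.id : (n → ℂ) →ₗ[ℂ] (n → ℂ)) = Matrix.toLin' A :=
    congrArg (fun f => f.toLinearMap) hc
  refine ⟨c, ?_⟩
  apply Matrix.toLin'.injective
  rw [← h6, map_smul, Matrix.toLin'_one]

/-- `(a, b) ↦ X a ⊗ (Y b⁻¹)ᵀ` -/
private noncomputable def pkr {A B' n l : Type} [Group A] [Group B'] [Fintype n] [DecidableEq n]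
    [Fintype l] [DecidableEq l] (X : A →* Matrix n n ℂ) (Y : B' →* Matrix l l ℂ) :
    A × B' →* Matrix (n × l) (n × l) ℂ where
  toFun ab := X ab.1 ⊗ₖ (Y ab.2⁻¹).transpose
  map_one' := by
    show X 1 ⊗ₖ (Y (1 : B')⁻¹).transpose = 1
    rw [inv_one, map_one, map_one, Matrix.transpose_one, Matrix.one_kronecker_one]
  map_mul' := by
    rintro ⟨a, b⟩ ⟨a', b'⟩
    show X (a * a') ⊗ₖ (Y (b * b')⁻¹).transpose =
      X a ⊗ₖ (Y b⁻¹).transpose * X a' ⊗ₖ (Y b'⁻¹).transpose
    rw [mul_inv_rev, map_mul, map_mul, Matrix.transpose_mul, Matrix.mul_kronecker_mul]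

private lemma pkr_apply {A B' n l : Type} [Group A] [Group B'] [Fintype n] [DecidableEq n]
    [Fintype l] [DecidableEq l] (X : A →* Matrix n n ℂ) (Y : B' →* Matrix l l ℂ) (a : A)
    (b : B') : pkr X Y (a, b) = X a ⊗ₖ (Y b⁻¹).transpose := rfl

/-- `MatchedOn` from matrices over an arbitrary finite index type -/
private lemma matchedOn_of_type' {K : Type} [Group K] {T : Subgroup K} {θ : K → ℂ} {φ : T → ℂ}
    {R0 : Subgroup (MulAut K)} {n : Type} [Fintype n] [DecidableEq n]
    (D : K × T →* Matrix n n ℂ) (R : R0 →* Matrix n n ℂ)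
    (h1 : ∀ k t, (D (k, t)).trace = θ k * φ t⁻¹)
    (h2 : ∀ (α : R0) (k : K) (t t' : T), (t' : K) = α.1 t →
      R α * D (k, t) = D (α.1 k, t') * R α)
    (h3 : ∀ (α : R0) (t : T), α.1 = MulAut.conj (t : K) → R α = D (t, t)) :
    MatchedOn T θ φ R0 := by
  let e : n ≃ Fin (Fintype.card n) := Fintype.equivFin n
  let E : Matrix n n ℂ ≃ₐ[ℂ] Matrix (Fin (Fintype.card n)) (Fin (Fintype.card n)) ℂ :=
    Matrix.reindexAlgEquiv ℂ ℂ e
  refine ⟨Fintype.card n, (E.toMulEquiv.toMonoidHom).comp D, (E.toMulEquiv.toMonoidHom).comp R,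
    ?_, ?_, ?_⟩
  · intro k t
    rw [← h1]
    show (Matrix.reindex e e (D (k, t))).trace = (D (k, t)).trace
    unfold Matrix.trace
    simp only [Matrix.diag_apply, Matrix.reindex_apply, Matrix.submatrix_apply]
    exact Equiv.sum_comp e.symm (fun i => D (k, t) i i)
  · intro α k t t' h
    show E (R α) * E (D (k, t)) = E (D (α.1 k, t')) * E (R α)
    rw [← map_mul, ← map_mul, h2 α k t t' h]
  · intro α t h
    show E (R α) = E (D (t, t))
    rw [h3 α t h]

/-- matrix form of an irreducible character -/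
private lemma exists_matrix' {K : Type} [Group K] {χ : K → ℂ} (h : χ ∈ Irr K) :
    ∃ (m : ℕ) (X : K →* Matrix (Fin m) (Fin m) ℂ), (∀ k, (X k).trace = χ k) ∧ χ 1 = m := by
  obtain ⟨V, _, _, _, ρ, -, rfl⟩ := h
  let b := Module.finBasis ℂ V
  refine ⟨Module.finrank ℂ V,
    (LinearMap.toMatrixAlgEquiv b : (V →ₗ[ℂ] V) →* _).comp ρ, fun k => ?_, ?_⟩
  · rw [Representation.character, LinearMap.trace_eq_matrix_trace ℂ b]
    rfl
  · rw [Representation.char_one]

/-- a homomorphism to `ℂ` is trivial on the commutator subgroup -/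
private lemma hom_comm {L : Type} [Group L] (f : L →* ℂ) {x : L} (hx : x ∈ commutator L) :
    f x = 1 := by
  have h1 := Abelianization.commutator_subset_ker f.toHomUnits hx
  rw [MonoidHom.mem_ker] at h1
  have h2 := congrArg Units.val h1
  rwa [MonoidHom.coe_toHomUnits, Units.val_one] at h2

/-- the determinant of a matrix representation -/
private noncomputable def detHom {L : Type} [Group L] {l : ℕ}
    (Y : L →* Matrix (Fin l) (Fin l) ℂ) : L →* ℂ :=
  (Matrix.detMonoidHom (n := Fin l) (R := ℂ)).comp Y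

/-- the `p`-part and the prime-to-`p` part of an element -/
private lemma split_p {L : Type} [Group L] [Finite L] (p : ℕ) [hp : Fact p.Prime] (t : L) :
    ∃ y z : L, ∃ u v : ℤ, ∃ k m : ℕ, y = t ^ u ∧ z = t ^ v ∧ t = y * z ∧ y ^ p ^ k = 1 ∧
      z ^ m = 1 ∧ Nat.Coprime p m := by
  have h0 : orderOf t ≠ 0 := (orderOf_pos t).ne'
  obtain ⟨k, m, hpm, hm⟩ := Nat.exists_eq_pow_mul_and_not_dvd h0 p hp.out.ne_one
  have hcop : Nat.Coprime p m := (Nat.Prime.coprime_iff_not_dvd hp.out).2 hpm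
  have hcop2 : IsCoprime (m : ℤ) ((p ^ k : ℕ) : ℤ) :=
    Nat.isCoprime_iff_coprime.2 (hcop.symm.pow_right k)
  obtain ⟨u, v, huv⟩ := hcop2
  refine ⟨t ^ (u * m), t ^ (v * (p ^ k : ℕ)), u * m, v * (p ^ k : ℕ), k, m, rfl, rfl, ?_, ?_, ?_,
    hcop⟩
  · rw [← zpow_add, huv, zpow_one]
  · rw [← zpow_natCast, ← zpow_mul]
    have h1 : u * (m : ℤ) * ((p ^ k : ℕ) : ℤ) = (orderOf t : ℤ) * u := by
      rw [hm]; push_cast; ring
    rw [h1, zpow_mul, zpow_natCast, pow_orderOf_eq_one, one_zpow]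
  · rw [← zpow_natCast, ← zpow_mul]
    have h1 : v * ((p ^ k : ℕ) : ℤ) * (m : ℤ) = (orderOf t : ℤ) * v := by
      rw [hm]; push_cast; ring
    rw [h1, zpow_mul, zpow_natCast, pow_orderOf_eq_one, one_zpow]

/-- restriction to a subgroup preserved by the automorphisms -/
private noncomputable def resAut {K : Type} [Group K] {T : Subgroup K}
    (R0 : Subgroup (MulAut K)) (hT : ∀ r ∈ R0, ∀ x, r x ∈ T ↔ x ∈ T) : R0 →* MulAut T where
  toFun r :=
    { toFun := fun t => ⟨r.1 t, (hT r.1 r.2 t).2 t.2⟩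
      invFun := fun t => ⟨r.1.symm t, (hT r.1 r.2 _).1 (by
        rw [MulEquiv.apply_symm_apply]; exact t.2)⟩
      left_inv := fun t => Subtype.ext (by simp)
      right_inv := fun t => Subtype.ext (by simp)
      map_mul' := fun t t' => Subtype.ext (by simp) }
  map_one' := by
    ext t
    rfl
  map_mul' r s := by
    ext t
    rfl

private lemma resAut_coe {K : Type} [Group K] {T : Subgroup K}
    (R0 : Subgroup (MulAut K)) (hT : ∀ r ∈ R0, ∀ x, r x ∈ T ↔ x ∈ T) (r : R0) (t : T) :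
    ((resAut R0 hT r t : T) : K) = r.1 t := rfl

theorem matched_p {K : Type} [Group K] [Finite K] {p : ℕ} [Fact p.Prime]
    (hperf : ⁅(⊤ : Subgroup K), (⊤ : Subgroup K)⁆ = ⊤) {T : Subgroup K}
    (hder : ∀ (y : T) (k : ℕ), y ^ p ^ k = 1 → y ∈ commutator T)
    {θ : K → ℂ} (hθ : θ ∈ Irr K) (hθp : ¬ p ∣ deg θ)
    {φ : T → ℂ} (hφ : φ ∈ Irr _) (hφp : ¬ p ∣ deg φ)
    (hag : ∀ z : T, (z : K) ∈ Subgroup.center K → θ z * φ 1 = θ 1 * φ z)
    (R0 : Subgroup (MulAut K)) (hR : IsPGroup p R0)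
    (hT : ∀ r ∈ R0, ∀ x, r x ∈ T ↔ x ∈ T)
    (hinv : ∀ r ∈ R0, ∀ k, θ (r k) = θ k)
    (hinvφ : ∀ r ∈ R0, ∀ t t' : T, (t' : K) = r t → φ t' = φ t) :
    MatchedOn T θ φ R0 := by
  classical
  have hp : p.Prime := Fact.out
  obtain ⟨m, X, hX, hm⟩ := exists_matrix' hθ
  obtain ⟨l, Y, hY, hl⟩ := exists_matrix' hφ
  have hpm : ¬ p ∣ m := by rwa [deg_eq hm] at hθp
  have hpl : ¬ p ∣ l := by rwa [deg_eq hl] at hφp
  have hXirr : (fun k => (X k).trace) ∈ Irr K := by
    rw [show (fun k => (X k).trace) = θ from funext hX]; exact hθ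
  have hYirr : (fun t => (Y t).trace) ∈ Irr T := by
    rw [show (fun t => (Y t).trace) = φ from funext hY]; exact hφ
  have hm0 : (m : ℂ) ≠ 0 := by
    intro h0
    apply hpm
    have : m = 0 := by exact_mod_cast h0
    rw [this]
    exact dvd_zero p
  have hl0 : (l : ℂ) ≠ 0 := by
    intro h0
    apply hpl
    have : l = 0 := by exact_mod_cast h0
    rw [this]
    exact dvd_zero p
  let b : R0 →* MulAut T := resAut R0 hT
  obtain ⟨W1, hW1, hW1d⟩ := exists_plift hR R0.subtype X hXirr hpm (fun r k => by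
    rw [hX, hX]
    exact hinv r.1 r.2 k)
  obtain ⟨W2, hW2, hW2d⟩ := exists_plift hR b Y hYirr hpl (fun r t => by
    rw [hY, hY]
    exact hinvφ r.1 r.2 t (b r t) rfl)
  refine matchedOn_of_type' (pkr X Y) ((pkr W1 W2).comp ((MonoidHom.id R0).prod (MonoidHom.id R0)))
    ?_ ?_ ?_
  · intro k t
    rw [pkr_apply, Matrix.trace_kronecker, Matrix.trace_transpose, hX, hY]
  · intro α k t t' ht
    show pkr W1 W2 (α, α) * pkr X Y (k, t) = pkr X Y (α.1 k, t') * pkr W1 W2 (α, α)
    rw [pkr_apply, pkr_apply, pkr_apply, ← Matrix.mul_kronecker_mul, ← Matrix.mul_kronecker_mul,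
      ← Matrix.transpose_mul, ← Matrix.transpose_mul]
    have h1 : W1 α * X k = X (α.1 k) * W1 α := hW1 α k
    have h2 : Y t⁻¹ * W2 α⁻¹ = W2 α⁻¹ * Y t'⁻¹ := by
      rw [hW2 α⁻¹ t'⁻¹]
      congr 2
      apply Subtype.ext
      show (t : K)⁻¹ = (α.1)⁻¹ ((t' : K)⁻¹)
      rw [ht, map_inv, MulAut.inv_apply_self]
    rw [h1, h2]
  · intro α t hα
    show pkr W1 W2 (α, α) = pkr X Y ((t : K), t)
    obtain ⟨y, z, u, v, k, n, hyt, hzt, htyz, hyk, hzn, hcop⟩ := split_p p t
    -- `conj z = 1`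
    have hz1 : MulAut.conj (z : K) = 1 := by
      obtain ⟨j, hj⟩ := hR α
      have hj' : (MulAut.conj (t : K)) ^ p ^ j = 1 := by
        rw [← hα]
        exact congrArg Subtype.val hj
      have hzc : MulAut.conj (z : K) = MulAut.conj (t : K) ^ v := by
        rw [hzt, Subgroup.coe_zpow, map_zpow]
      have e1 : MulAut.conj (z : K) ^ p ^ j = 1 := by
        rw [hzc, ← zpow_natCast, ← zpow_mul, mul_comm, zpow_mul, zpow_natCast, hj', one_zpow]
      have e2 : MulAut.conj (z : K) ^ n = 1 := by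
        rw [← map_pow, ← Subgroup.coe_pow, hzn, Subgroup.coe_one, map_one]
      have e3 := Nat.dvd_gcd (orderOf_dvd_of_pow_eq_one e1) (orderOf_dvd_of_pow_eq_one e2)
      rw [(hcop.pow_left j).gcd_eq_one] at e3
      exact orderOf_eq_one_iff.1 (Nat.dvd_one.1 e3)
    have hzc : ∀ x : K, (z : K) * x = x * z := by
      intro x
      have h1 := DFunLike.congr_fun hz1 x
      rw [MulAut.conj_apply, MulAut.one_apply, mul_inv_eq_iff_eq_mul] at h1
      exact h1
    have hzcen : (z : K) ∈ Subgroup.center K := Subgroup.mem_center_iff.2 fun x => (hzc x).symm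
    have hαy : α.1 = MulAut.conj (y : K) := by
      rw [hα, htyz, Subgroup.coe_mul, map_mul, hz1, mul_one]
    -- `D (z, z) = 1`
    have hDz : pkr X Y ((z : K), z) = 1 := by
      obtain ⟨c, hc⟩ := p1_comm X hXirr (X z) (fun k => by rw [← map_mul, ← map_mul, hzc k])
      obtain ⟨w, hw⟩ := p1_comm Y hYirr (Y z) (fun s => by
        rw [← map_mul, ← map_mul]
        congr 1
        exact Subtype.ext (hzc s))
      have h1 := hag z hzcen
      rw [← hX z, ← hY z, hc, hw, Matrix.trace_smul, Matrix.trace_smul, Matrix.trace_one,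
        Matrix.trace_one, Fintype.card_fin, Fintype.card_fin, hm, hl, smul_eq_mul,
        smul_eq_mul] at h1
      have hwc : w = c := by
        have h3 : (m : ℂ) * l * w = m * l * c := by linear_combination -h1
        exact mul_left_cancel₀ (mul_ne_zero hm0 hl0) h3
      have hc0 : c ≠ 0 := by
        intro h0
        have h3 : X z * X (z : K)⁻¹ = 1 := by rw [← map_mul, mul_inv_cancel, map_one]
        rw [hc, h0, zero_smul, zero_mul] at h3
        have h4 := congrArg Matrix.trace h3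
        rw [Matrix.trace_zero, Matrix.trace_one, Fintype.card_fin] at h4
        exact hm0 h4.symm
      have hzi : Y z⁻¹ = c⁻¹ • (1 : Matrix (Fin l) (Fin l) ℂ) := by
        have h3 : Y z * Y z⁻¹ = 1 := by rw [← map_mul, mul_inv_cancel, map_one]
        rw [hw, hwc, smul_mul_assoc, one_mul] at h3
        rw [← h3, smul_smul, inv_mul_cancel₀ hc0, one_smul]
      rw [pkr_apply, hzi, hc, Matrix.transpose_smul, Matrix.transpose_one, Matrix.smul_kronecker,
        Matrix.kronecker_smul, Matrix.one_kronecker_one, smul_smul, mul_inv_cancel₀ hc0, one_smul]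
    have hDt : pkr X Y ((t : K), t) = pkr X Y ((y : K), y) := by
      have h1 : ((t : K), t) = ((y : K), y) * ((z : K), z) := by
        rw [Prod.mk_mul_mk, ← htyz, ← Subgroup.coe_mul, ← htyz]
      rw [h1, map_mul, hDz, mul_one]
    -- `y ∈ Q`
    have hyk' : (y : K) ^ p ^ k = 1 := by
      rw [← Subgroup.coe_pow, hyk, Subgroup.coe_one]
    have hyX : (X y).det = 1 := by
      apply hom_comm (detHom X)
      rw [commutator_def, hperf]
      exact Subgroup.mem_top _
    have hyY : (Y y).det = 1 := by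
      apply hom_comm (detHom Y)
      exact hder y k hyk
    have hX1 : W1 α = X y :=
      plift_conj hR R0.subtype X hXirr hpm W1 hW1 hW1d α y ⟨k, hyk'⟩ hyX hαy
    have hY1 : W2 α = Y y := by
      refine plift_conj hR b Y hYirr hpl W2 hW2 hW2d α y ⟨k, hyk⟩ hyY ?_
      ext s
      show α.1 (s : K) = _
      rw [hαy, MulAut.conj_apply, MulAut.conj_apply]
      rfl
    have hY2 : W2 α⁻¹ = Y y⁻¹ := by
      have h1 : Y y * Y y⁻¹ = 1 := by rw [← map_mul, mul_inv_cancel, map_one]
      have h2 : W2 α⁻¹ * W2 α = 1 := by rw [← map_mul, inv_mul_cancel, map_one]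
      calc W2 α⁻¹ = W2 α⁻¹ * (Y y * Y y⁻¹) := by rw [h1, mul_one]
        _ = (W2 α⁻¹ * W2 α) * Y y⁻¹ := by rw [hY1, mul_assoc]
        _ = Y y⁻¹ := by rw [h2, one_mul]
    rw [hDt, pkr_apply, pkr_apply, hX1, hY2]

end Pool.Agent.Helper42.CY
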