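import Mathlib

/-!
# CY-41 (project CY): cyclic Sylow subgroups of sections and of central extensions. MATHLIB ONLY

* `cyclic_section`: `F` finite with cyclic Sylow `p`-subgroups, `L ⊴ H ≤ F`, `H ⧸ L ≃* S`. A Sylow `p`-subgroup of
  `H` is a `p`-subgroup of `F`, so contained in a Sylow subgroup of `F` (`IsPGroup.exists_le_sylow`), so it is
  cyclic. A Sylow subgroup of `H ⧸ L` is the image of a Sylow subgroup of `H` (Mathlib
  `Sylow.mapSurjective` and its surjectivity, or: the image of a Sylow subgroup is a Sylow subgroup and all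
  Sylow subgroups are conjugate, so isomorphic: `Sylow.equiv`), so cyclic (`isCyclic_of_surjective`);
  transport along the isomorphism.
* `cyclic_cover`: `p ∤ |N|`, `N` normal in the finite group `K`, `K ⧸ N` with cyclic Sylow `p`-subgroups. A
  Sylow `p`-subgroup `Q` of `K` meets `N` trivially, so it is isomorphic to its image in `K ⧸ N`, a
  `p`-subgroup, contained in a Sylow subgroup; so it is cyclic.
-/

namespace Pool.Agent.Helper42.CY

private theorem fs_map {p : ℕ} [Fact p.Prime] {G S : Type} [Group G] [Group S] [Finite G]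
    (f : G →* S) (hf : Function.Surjective f) (hG : ∀ P : Sylow p G, IsCyclic P) :
    ∀ P : Sylow p S, IsCyclic P := by
  intro P
  have hfin : Finite (Sylow p S) := by
    have : Finite S := Finite.of_surjective f hf
    infer_instance
  obtain ⟨Q, hQ⟩ := Sylow.mapSurjective_surjective hf p P
  have hQc := hG Q
  have h1 : (P : Subgroup S) = (Q : Subgroup G).map f := by
    rw [← hQ]
    rfl
  have h2 : Function.Surjective (f.subgroupMap (Q : Subgroup G)) :=
    MonoidHom.subgroupMap_surjective f _
  have h3 : IsCyclic ((Q : Subgroup G).map f) := isCyclic_of_surjective _ h2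
  change IsCyclic (P : Subgroup S)
  rw [h1]
  exact h3

private theorem fs_pgroup {p : ℕ} {G : Type} [Group G] (hG : ∀ P : Sylow p G, IsCyclic P)
    (Q : Subgroup G) (hQ : IsPGroup p Q) : IsCyclic Q := by
  obtain ⟨P, hP⟩ := hQ.exists_le_sylow
  have hc : IsCyclic (P : Subgroup G) := hG P
  exact isCyclic_of_injective (Subgroup.inclusion hP) (Subgroup.inclusion_injective hP)

theorem cyclic_section {p : ℕ} [Fact p.Prime] {F S : Type} [Group F] [Group S] [Finite F]
    (hF : ∀ P : Sylow p F, IsCyclic P)
    (h : ∃ (H : Subgroup F) (L : Subgroup H) (_ : L.Normal), Nonempty ((H ⧸ L) ≃* S)) :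
    ∀ P : Sylow p S, IsCyclic P := by
  obtain ⟨H, L, hL, ⟨e⟩⟩ := h
  have hH : ∀ P : Sylow p H, IsCyclic P := by
    intro P
    have h1 : IsPGroup p ((P : Subgroup H).map H.subtype) := P.isPGroup'.map _
    have h2 := fs_pgroup hF _ h1
    have e1 : (P : Subgroup H) ≃* (P : Subgroup H).map H.subtype :=
      (P : Subgroup H).equivMapOfInjective _ H.subtype_injective
    exact isCyclic_of_injective e1.toMonoidHom e1.injective
  exact fs_map (e.toMonoidHom.comp (QuotientGroup.mk' L))
    (e.surjective.comp (QuotientGroup.mk'_surjective L)) hH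

theorem cyclic_cover {p : ℕ} [Fact p.Prime] {K S : Type} [Group K] [Group S] [Finite K]
    (N : Subgroup K) [N.Normal] (hN : ¬ p ∣ Nat.card N) (e : (K ⧸ N) ≃* S)
    (hS : ∀ P : Sylow p S, IsCyclic P) : ∀ P : Sylow p K, IsCyclic P := by
  intro P
  let f : K →* S := e.toMonoidHom.comp (QuotientGroup.mk' N)
  have hker : f.ker = N := by
    ext x
    rw [MonoidHom.mem_ker]
    change e (QuotientGroup.mk' N x) = 1 ↔ x ∈ N
    rw [map_eq_one_iff e e.injective]
    exact QuotientGroup.eq_one_iff x
  have h1 : IsPGroup p ((P : Subgroup K).map f) := P.isPGroup'.map _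
  have h2 : IsCyclic ((P : Subgroup K).map f) := fs_pgroup hS _ h1
  have hdis : Disjoint (P : Subgroup K) N := by
    rw [Subgroup.disjoint_def]
    intro x hx hxN
    obtain ⟨k, hk⟩ := P.isPGroup' ⟨x, hx⟩
    have hxk : x ^ p ^ k = 1 := by
      have := congrArg Subtype.val hk
      simpa using this
    have h3 : orderOf x ∣ p ^ k := orderOf_dvd_of_pow_eq_one hxk
    have h4 : orderOf x ∣ Nat.card N := Subgroup.orderOf_dvd_natCard N hxN
    have hco : Nat.Coprime (p ^ k) (Nat.card N) :=
      Nat.Coprime.pow_left k ((Nat.Prime.coprime_iff_not_dvd (Fact.out : p.Prime)).2 hN)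
    have h5 : orderOf x = 1 := Nat.eq_one_of_dvd_coprimes hco h3 h4
    exact orderOf_eq_one_iff.1 h5
  have hinj : Function.Injective (f.subgroupMap (P : Subgroup K)) := by
    rw [injective_iff_map_eq_one]
    intro x hx
    have h6 : f (x : K) = 1 := congrArg Subtype.val hx
    have h7 : (x : K) ∈ N := by
      rw [← hker]
      exact h6
    exact Subtype.ext (Subgroup.disjoint_def.1 hdis x.2 h7)
  exact isCyclic_of_injective (f.subgroupMap (P : Subgroup K)) hinj

end Pool.Agent.Helper42.CY
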