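import Pool.Agent.Helper42.CY.FPrime
import Pool.Agent.Helper42.CY.FGood
import Pool.Agent.Helper42.CY.FDer
import Pool.Agent.Helper42.CY.FPart
import Pool.Agent.Helper42.CY.FSec
import Pool.Agent.Helper42.IR.F.GlueM

/-!
# CY-42 (project CY): groups with cyclic Sylow `p`-subgroups

Adapt Helper42/IR/F/HII.lean. `goodC`: `p = 2` is excluded by `two_not_cyclic`. `good_of_matched`;
`matched_of_on` (IR/F/GlueM.lean, as in the old file, with `T = normalizer Z`) reduces to groups `R0` of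
automorphisms of prime power order: `matched_p` with `der` and `agree` for `q = p`, `matched_pprime` for
`q ≠ p`; `preserves_Z`.

`pgood_of_cyclic`: `p ^ 2 ∣ |S| ∣ |K|` and `cyclic_cover` for `N = center K`.
-/

namespace Pool.Agent.Helper42.CY

open Pool.Agent.Helper42.INC Pool.Agent.Helper42.IR Pool.Agent.Helper42.IR.F
  Pool.Agent.Helper7.MK

theorem goodC {p : ℕ} [Fact p.Prime] (K : Type) [Group K] [Finite K]
    (hperf : ⁅(⊤ : Subgroup K), (⊤ : Subgroup K)⁆ = ⊤) (hc : ∀ Q : Sylow p K, IsCyclic Q)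
    (h2 : p ^ 2 ∣ Nat.card K) (h3 : ¬ p ∣ Nat.card (Subgroup.center K)) : Good p K := by
  by_cases hp2 : p = 2
  · subst hp2
    exact (two_not_cyclic K hperf ((Dvd.intro_left _ rfl : 2 ∣ 2 ^ 2).trans h2) hc).elim
  apply good_of_matched hp2 K hperf hc h2 h3
  intro Q Z H F hL hF θ hθ
  have hNN : NN (⊤ : Subgroup K) Z = Subgroup.normalizer (Z : Set K) := by
    unfold NN
    exact top_inf_eq _
  have hFθ := hF.bij.mapsTo hθ
  have hθI : θ ∈ Irr K := mem_irrS_top.1 hθ.1
  have hφI : (fun t : Subgroup.normalizer (Z : Set K) => F θ t) ∈ Irr _ :=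
    irr_comp (MulEquiv.subgroupCongr hNN.symm) hFθ.1.1
  apply matched_of_on hθI hφI
  intro q hq R0 hR0 hR0q
  have hT : ∀ r ∈ R0, ∀ x, r x ∈ Subgroup.normalizer (Z : Set K) ↔
      x ∈ Subgroup.normalizer (Z : Set K) := fun r hr => (hR0 hr).1
  have hinv : ∀ r ∈ R0, ∀ k, θ (r k) = θ k := fun r hr => (hR0 hr).2
  have hZ : ∀ r ∈ R0, ∀ x, r x ∈ Z ↔ x ∈ Z := fun r hr => preserves_Z hL (hT r hr)
  by_cases hqp : q = p
  · subst hqp
    apply matched_p hperf (fun y k hy => der hL hperf hy) hθI hθ.2 hφI hFθ.2 ?_ R0 hR0q hT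
      hinv ?_
    · intro z hz
      exact agree hp2 hL hperf h3 hF hθ hz
    · intro r hr t t' ht
      have h4 := hF.equivariant r (hZ r hr) θ hθ
      have h5 : (fun x => θ (r x)) = θ := funext (hinv r hr)
      rw [h5] at h4
      have h6 := congrFun h4 (t : K)
      change F θ (t' : K) = F θ (t : K)
      rw [ht, h6]
  · have hR : ¬ p ∣ Nat.card R0 := by
      obtain ⟨n, hn⟩ := by
        haveI : Fact q.Prime := ⟨hq⟩
        exact IsPGroup.iff_card.1 hR0q
      rw [hn]
      intro hd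
      have hp : p.Prime := Fact.out
      have h4 := hp.dvd_of_dvd_pow hd
      exact hqp ((Nat.prime_dvd_prime_iff_eq hp hq).1 h4).symm
    exact matched_pprime hp2 hL hperf h3 hF hθ R0 hR hZ hinv

theorem pgood_of_cyclic {p : ℕ} [Fact p.Prime] (S : Type) [Group S]
    (hc : ∀ P : Sylow p S, IsCyclic P) (h2 : p ^ 2 ∣ Nat.card S) (K : Type) [Group K] [Finite K]
    (hperf : ⁅(⊤ : Subgroup K), (⊤ : Subgroup K)⁆ = ⊤)
    (he : Nonempty ((K ⧸ Subgroup.center K) ≃* S))
    (hz : ¬ p ∣ Nat.card (Subgroup.center K)) : Good p K := by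
  obtain ⟨e⟩ := he
  refine goodC K hperf (cyclic_cover (Subgroup.center K) hz e hc) ?_ hz
  rw [← Nat.card_congr e.toEquiv] at h2
  exact h2.trans (Subgroup.card_quotient_dvd_card _)

end Pool.Agent.Helper42.CY
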