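import Pool.Agent.Helper42.CY.CanJ

/-!
# CY-10 (project CY): expansions of `aa`

Compare Helper97/S4/AAx.lean.

* `aa_expand_K`: `ip (Q ⊔ H) χ _` only depends on `χ` on `Q ⊔ H ≤ K`, and `χ` on `K` is the sum of the
  `ip K χ θ * θ` (`expand_on`).
* `aa_expand_C`: `K ≤ J ≤ normalizer K`. By `ip_trans` (`C ≤ CJ ≤ J`)
  `ip C χ (prodC lam φ) = ∑ θ' ∈ IrrS CJ, ip CJ χ θ' * ip C θ' (prodC lam φ)`; by `ca_up` the nonzero terms have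
  `θ' = prodC Q HJ lam φ'`, `φ' ∈ Ca p Q HJ` (different `φ'` give different `θ'`, `prodC_inj`), and
  `ip C (prodC Q HJ lam φ') (prodC Q H lam φ) = ip C φ' φ` (`ip_prodC_J`). The same for `oneS Q` in place of
  `lam` (`prodC_one`). Subtract.
-/

namespace Pool.Agent.Helper42.CY

open Pool.Agent.Helper42.INC Pool.Agent.Helper42.IR Pool.Agent.Helper97.S4

variable {G : Type} [Group G] [Finite G] {p : ℕ} [Fact p.Prime] {K J Q Z H HJ : Subgroup G}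

theorem aa_expand_K (hKJ : K ≤ J) (hC : Q ⊔ H ≤ K)
    {χ : G → ℂ} (hχ : χ ∈ IrrS J) (lam φ : G → ℂ) :
    aa Q H χ lam φ = ∑ᶠ θ : IrrS K, ip K χ θ.1 * aa Q H θ.1 lam φ := by
  have := (irrS_finite K).fintype
  unfold aa
  rw [ip_trans hC hKJ hχ (prodC Q H lam φ), ip_trans hC hKJ hχ φ]
  simp only [finsum_eq_sum_of_fintype, mul_sub, Finset.sum_sub_distrib]

theorem aa_congr {χ χ' : G → ℂ} (h : ∀ x ∈ Q ⊔ H, χ x = χ' x) (lam φ : G → ℂ) :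
    aa Q H χ lam φ = aa Q H χ' lam φ := by
  have h1 : (fun l : (Q ⊔ H : Subgroup G) => χ l) = fun l : (Q ⊔ H : Subgroup G) => χ' l := by
    funext l
    exact h l.1 l.2
  unfold aa ip
  rw [h1]

theorem ca_finite (p : ℕ) (Q H : Subgroup G) : (Ca p Q H).Finite :=
  (irrS_finite (Q ⊔ H)).subset fun _ hφ => hφ.1.1

private theorem ax_key (hL : LocC p K Q Z H) (hLJ : LocC p J Q Z HJ) (hKJ : K ≤ J)
    (hn : J ≤ Subgroup.normalizer (K : Set G)) {χ : G → ℂ} (hχ : χ ∈ IrrS J) {mu φ : G → ℂ}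
    (hl : mu ∈ IrrS Q) (hφ : φ ∈ Ca p Q H) :
    ip (Q ⊔ H) χ (prodC Q H mu φ) =
      ∑ᶠ φ' : Ca p Q HJ, ip (Q ⊔ HJ) χ (prodC Q HJ mu φ'.1) * ip (Q ⊔ H) φ'.1 φ := by
  have := (irrS_finite (Q ⊔ HJ)).fintype
  have := (ca_finite p Q HJ).fintype
  have hCC : Q ⊔ H ≤ Q ⊔ HJ := sup_le_sup_left (H_le hL hLJ hKJ) Q
  have hCJ : Q ⊔ HJ ≤ J := sup_le hLJ.QK (hLJ.HC.trans inf_le_left)
  rw [ip_trans hCC hCJ hχ (prodC Q H mu φ), finsum_eq_sum_of_fintype, finsum_eq_sum_of_fintype]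
  symm
  refine Fintype.sum_of_injective
    (fun φ' : Ca p Q HJ =>
      (⟨prodC Q HJ mu φ'.1, prodC_mem hLJ hl φ'.2.1.1⟩ : IrrS (Q ⊔ HJ))) ?_ _ _ ?_ ?_
  · intro a b hab
    have h1 : prodC Q HJ mu a.1 = prodC Q HJ mu b.1 := congrArg Subtype.val hab
    exact Subtype.ext (prodC_inj hLJ hl hl a.2 b.2 h1).2
  · intro θ hθ
    by_cases h0 : ip (Q ⊔ H) θ.1 (prodC Q H mu φ) = 0
    · rw [h0, mul_zero]
    · exfalso
      obtain ⟨φ', hφ', he, _⟩ := ca_up hL hLJ hKJ hn hl hφ θ.2 h0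
      exact hθ ⟨⟨φ', hφ'⟩, Subtype.ext he.symm⟩
  · intro φ'
    have h1 := ip_prodC_J hL hLJ hKJ hn hl hl hφ φ'.2
    rw [if_pos rfl] at h1
    change _ = ip (Q ⊔ HJ) χ (prodC Q HJ mu φ'.1) * ip (Q ⊔ H) (prodC Q HJ mu φ'.1) (prodC Q H mu φ)
    rw [h1]

theorem aa_expand_C (hL : LocC p K Q Z H) (hLJ : LocC p J Q Z HJ) (hKJ : K ≤ J)
    (hn : J ≤ Subgroup.normalizer (K : Set G)) {χ : G → ℂ} (hχ : χ ∈ IrrS J) {lam φ : G → ℂ}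
    (hl : lam ∈ IrrS Q) (hφ : φ ∈ Ca p Q H) :
    aa Q H χ lam φ = ∑ᶠ φ' : Ca p Q HJ, aa Q HJ χ lam φ'.1 * ip (Q ⊔ H) φ'.1 φ := by
  have := (ca_finite p Q HJ).fintype
  have h1 := ax_key hL hLJ hKJ hn hχ hl hφ
  have h2 := ax_key hL hLJ hKJ hn hχ (Pool.Agent.Helper97.S4.oneS_mem Q) hφ
  rw [prodC_one hL hφ.1.1.2] at h2
  unfold aa
  rw [h1, h2]
  simp only [finsum_eq_sum_of_fintype, sub_mul, Finset.sum_sub_distrib]
  congr 1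
  refine Finset.sum_congr rfl fun φ' _ => ?_
  rw [prodC_one hLJ φ'.2.1.1.2]

end Pool.Agent.Helper42.CY
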