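import Pool.Agent.Helper42.IR.ScalarR
import Pool.Agent.Helper42.IR.RankLe
import Pool.Agent.Helper42.IR.RankIdem
import Pool.Agent.Helper42.IR.Val

/-!
# CY-19 (project CY): rank bounds for a cyclic `p`-group acting on an idempotent

`Q` a cyclic group (a type) of order `p ^ a`, `A : Q → M_n(OO p)` multiplicative (so `E = A 1` is an
idempotent, `E * A x = A x = A x * E`), `lam` a linear character, `m = |Q|⁻¹ ∑ lam x⁻¹ tr (A x)`.
Compare `exists_NL`, `rank_NL`, `rank_sub`, `bounds` in Helper42/IR/MultBds.lean.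

The values of `lam` are `p ^ a`-th roots of unity, so in `OO p` (`integral_mem`), with residue `1`
(`(z - 1) ^ (p ^ a)` has residue `z ^ (p ^ a) - 1 = 0`). `NL = ∑ lam x⁻¹ A x` over `OO p`; `toK NL = toK (∑ A x)`.
Over `ℂ`, `P = |Q|⁻¹ NL` is an idempotent (`A y NL = lam y NL`) with trace `m`, so of rank `m`
(`trace_idem`). `rank (toK NL) ≤ rank (toC NL) = m` (`rank_map_le`).
`(A y - lam y E) P = 0` and a vector `v` with `E v = v`, `A y v = lam y v` satisfies `A x v = lam x v` for all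
`x ∈ Q` (`y` generates), so `P v = v`: the kernel of `A y - lam y E` is `ker E ⊕ range P`, of dimension
`n - rank E + m`, so `rank (toC (A y - lam y E)) = rank (toC E) - m`, and
`rank (toK (A y - E)) = rank (toK (A y - lam y E)) ≤ rank (toC (..))`, `rank (toK E) = rank (toC E)`
(`rank_idem_map`).
-/

namespace Pool.Agent.Helper42.CY

open Pool.Agent.Helper42.INC Pool.Agent.Helper42.IR

variable {p : ℕ} [Fact p.Prime]

private lemma bdsa_res_one {a : ℕ} {z : OO p} (hz : z ^ p ^ a = 1) :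
    IsLocalRing.residue (OO p) z = 1 := by
  have h1 : (IsLocalRing.residue (OO p) z - 1) ^ p ^ a = 0 := by
    have h2 := sub_pow_char_pow (x := IsLocalRing.residue (OO p) z) (y := (1 : kk p)) (p := p)
      (n := a)
    rw [h2, ← map_pow, hz, map_one, one_pow, sub_self]
  exact sub_eq_zero.1 (pow_eq_zero_iff (pow_pos (Fact.out : p.Prime).pos a).ne' |>.1 h1)

private lemma bdsa_toC_map {n : ℕ} (A : Matrix (Fin n) (Fin n) (OO p)) :
    (toK A).rank ≤ (toC A).rank :=
  rank_map_le (algebraMap (OO p) ℂ) (IsLocalRing.residue (OO p)) (by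
    intro a b h
    exact Subtype.ext h) A

private lemma bdsa_rank_smul {n : ℕ} {c : ℂ} (hc : c ≠ 0) (A : Matrix (Fin n) (Fin n) ℂ) :
    (c • A).rank = A.rank :=
  Matrix.rank_smul_of_mem_nonZeroDivisors A (mem_nonZeroDivisors_of_ne_zero hc)

/-- the linear algebra over `ℂ` -/
private lemma bdsa_core {Q : Type} [Group Q] [Fintype Q] {n : ℕ}
    (S : Q → Matrix (Fin n) (Fin n) ℂ) (hS : ∀ x y, S x * S y = S (x * y)) {lam : Q → ℂ}
    (h1 : lam 1 = 1) (hm : ∀ x y, lam (x * y) = lam x * lam y) {m : ℕ}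
    (htr : (Nat.card Q : ℂ)⁻¹ * ∑ x : Q, lam x⁻¹ * (S x).trace = m) {y : Q}
    (hy : ∀ x : Q, x ∈ Subgroup.zpowers y) :
    (∑ x : Q, lam x⁻¹ • S x).rank = m ∧ (S y - lam y • S 1).rank + m = (S 1).rank := by
  classical
  have hc0 : (Nat.card Q : ℂ) ≠ 0 := by exact_mod_cast Nat.card_pos.ne'
  have hli : ∀ x : Q, lam x * lam x⁻¹ = 1 := fun x => by rw [← hm, mul_inv_cancel, h1]
  have hl0 : ∀ x : Q, lam x ≠ 0 := fun x => left_ne_zero_of_mul_eq_one (hli x)
  have hyN : ∀ y : Q, S y * (∑ x : Q, lam x⁻¹ • S x) = lam y • ∑ x : Q, lam x⁻¹ • S x := by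
    intro y
    rw [Finset.mul_sum, Finset.smul_sum]
    refine Fintype.sum_equiv (Equiv.mulLeft y) _ _ ?_
    intro x
    have e1 : Equiv.mulLeft y x = y * x := rfl
    rw [e1, Matrix.mul_smul, hS, smul_smul]
    congr 1
    rw [mul_inv_rev, hm]
    linear_combination (-lam x⁻¹) * hli y
  have hNE : (∑ x : Q, lam x⁻¹ • S x) * S 1 = ∑ x : Q, lam x⁻¹ • S x := by
    rw [Finset.sum_mul]
    refine Finset.sum_congr rfl fun x _ => ?_
    rw [Matrix.smul_mul, hS, mul_one]
  have hEN : S 1 * (∑ x : Q, lam x⁻¹ • S x) = ∑ x : Q, lam x⁻¹ • S x := by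
    rw [hyN, h1, one_smul]
  have hNN : (∑ x : Q, lam x⁻¹ • S x) * (∑ x : Q, lam x⁻¹ • S x) =
      (Nat.card Q : ℂ) • ∑ x : Q, lam x⁻¹ • S x := by
    have e1 : ∀ x : Q, (lam x⁻¹ • S x) * (∑ x : Q, lam x⁻¹ • S x) = ∑ x : Q, lam x⁻¹ • S x := by
      intro x
      rw [Matrix.smul_mul, hyN, smul_smul, mul_comm, hli, one_smul]
    rw [Finset.sum_mul, Finset.sum_congr rfl (fun x _ => e1 x), Finset.sum_const,
      Finset.card_univ, ← Nat.card_eq_fintype_card, ← Nat.cast_smul_eq_nsmul ℂ]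
  have htr' : ((Nat.card Q : ℂ)⁻¹ • ∑ x : Q, lam x⁻¹ • S x).trace = m := by
    rw [Matrix.trace_smul, Matrix.trace_sum, smul_eq_mul, ← htr]
    congr 1
    refine Finset.sum_congr rfl fun x _ => ?_
    rw [Matrix.trace_smul, smul_eq_mul]
  have hEE : S 1 * S 1 = S 1 := by rw [hS, mul_one]
  have hX : ∀ x : Q, ∃ X : Matrix (Fin n) (Fin n) ℂ,
      S 1 - lam x⁻¹ • S x = X * (S y - lam y • S 1) := by
    have hk : ∀ k : ℕ, ∃ X : Matrix (Fin n) (Fin n) ℂ,
        S 1 - lam (y ^ k)⁻¹ • S (y ^ k) = X * (S y - lam y • S 1) := by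
      intro k
      induction k with
      | zero =>
        refine ⟨0, ?_⟩
        rw [pow_zero, inv_one, h1, one_smul, sub_self, Matrix.zero_mul]
      | succ k ih =>
        obtain ⟨X, hX⟩ := ih
        refine ⟨(lam y)⁻¹ • (S y * X) - (lam y)⁻¹ • 1, ?_⟩
        have e1 : lam (y ^ (k + 1))⁻¹ • S (y ^ (k + 1)) =
            (lam y)⁻¹ • (S y * (lam (y ^ k)⁻¹ • S (y ^ k))) := by
          rw [Matrix.mul_smul, hS, ← pow_succ', smul_smul]
          congr 1
          rw [pow_succ', mul_inv_rev, hm, mul_comm]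
          congr 1
          exact eq_inv_of_mul_eq_one_right (hli y)
        have e2 : S y * (lam (y ^ k)⁻¹ • S (y ^ k)) = S y - S y * (X * (S y - lam y • S 1)) := by
          rw [← hX, Matrix.mul_sub, hS, mul_one]
          abel
        rw [e1, e2, Matrix.sub_mul, Matrix.smul_mul, Matrix.smul_mul, Matrix.one_mul,
          Matrix.mul_assoc, smul_sub, smul_sub, smul_smul, inv_mul_cancel₀ (hl0 y), one_smul]
        abel
    intro x
    obtain ⟨k, hk'⟩ := (mem_powers_iff_mem_zpowers.2 (hy x) : x ∈ Submonoid.powers y)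
    have hk'' : y ^ k = x := hk'
    rw [← hk'']
    exact hk k
  choose X hX using hX
  have hyN' := hyN y
  set N := ∑ x : Q, lam x⁻¹ • S x with hN
  set E := S 1 with hE
  set T := S y - lam y • E with hT
  have hXT : E - (Nat.card Q : ℂ)⁻¹ • N = ((Nat.card Q : ℂ)⁻¹ • ∑ x : Q, X x) * T := by
    have e8 : ∑ x : Q, (E - lam x⁻¹ • S x) = (∑ x : Q, X x) * T := by
      rw [Finset.sum_mul]
      exact Finset.sum_congr rfl fun x _ => hX x
    rw [Finset.sum_sub_distrib, Finset.sum_const, Finset.card_univ, ← Nat.card_eq_fintype_card,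
      ← hN, ← Nat.cast_smul_eq_nsmul ℂ] at e8
    rw [Matrix.smul_mul, ← e8, smul_sub, smul_smul, inv_mul_cancel₀ hc0, one_smul]
  have hPP : ((Nat.card Q : ℂ)⁻¹ • N) * ((Nat.card Q : ℂ)⁻¹ • N) = (Nat.card Q : ℂ)⁻¹ • N := by
    rw [Matrix.smul_mul, Matrix.mul_smul, hNN, smul_smul, smul_smul, mul_assoc,
      inv_mul_cancel₀ hc0, mul_one]
  have hPE : ((Nat.card Q : ℂ)⁻¹ • N) * E = (Nat.card Q : ℂ)⁻¹ • N := by
    rw [Matrix.smul_mul, hNE]
  have hEP : E * ((Nat.card Q : ℂ)⁻¹ • N) = (Nat.card Q : ℂ)⁻¹ • N := by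
    rw [Matrix.mul_smul, hEN]
  have hTP : T * ((Nat.card Q : ℂ)⁻¹ • N) = 0 := by
    rw [Matrix.mul_smul, hT, Matrix.sub_mul, hyN', Matrix.smul_mul, hEN, sub_self, smul_zero]
  have hTE : T * E = T := by
    rw [hT, Matrix.sub_mul, Matrix.smul_mul, hEE, hE, hS, mul_one]
  have hrN : ((Nat.card Q : ℂ)⁻¹ • N).rank = N.rank := bdsa_rank_smul (inv_ne_zero hc0) N
  set P := (Nat.card Q : ℂ)⁻¹ • N with hP
  have hid : (E - P) * (E - P) = E - P := by
    rw [Matrix.sub_mul, Matrix.mul_sub, Matrix.mul_sub, hEE, hEP, hPE, hPP]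
    abel
  have t1 := trace_idem _ hPP
  have t2 := trace_idem _ hid
  have t3 := trace_idem _ hEE
  rw [Matrix.trace_sub] at t2
  have hrk : T.rank = (E - P).rank := by
    apply le_antisymm
    · have e11 : T = T * (E - P) := by
        rw [Matrix.mul_sub, hTP, hTE, sub_zero]
      rw [e11]
      exact Matrix.rank_mul_le_right _ _
    · rw [hXT]
      exact Matrix.rank_mul_le_right _ _
  constructor
  · rw [← hrN]
    rw [htr'] at t1
    exact_mod_cast t1.symm
  · have hfin : ((T.rank + m : ℕ) : ℂ) = (E.rank : ℂ) := by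
      rw [hrk]
      push_cast
      rw [← t2, ← t3, htr']
      ring
    exact_mod_cast hfin

theorem boundsA {Q : Type} [Group Q] [Finite Q] {a n : ℕ} (hQ : Nat.card Q = p ^ a)
    (A : Q → Matrix (Fin n) (Fin n) (OO p)) (hA : ∀ x y, A (x * y) = A x * A y) {lam : Q → ℂ}
    (h1 : lam 1 = 1) (hm : ∀ x y, lam (x * y) = lam x * lam y) {m : ℕ}
    (htr : (Nat.card Q : ℂ)⁻¹ * ∑ᶠ x : Q, lam x⁻¹ * (((A x).trace : OO p) : ℂ) = m) {y : Q}
    (hy : ∀ x : Q, x ∈ Subgroup.zpowers y) :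
    (toK (∑ᶠ x : Q, A x)).rank ≤ m ∧
      m + (toK (A y - A 1)).rank ≤ (toK (A 1)).rank := by
  classical
  have := Fintype.ofFinite Q
  have hpow : ∀ x : Q, lam x ^ p ^ a = 1 := by
    intro x
    have e1 : ∀ k : ℕ, lam (x ^ k) = lam x ^ k := by
      intro k
      induction k with
      | zero => rw [pow_zero, pow_zero, h1]
      | succ k ih => rw [pow_succ, hm, ih, pow_succ]
    rw [← e1, ← hQ, pow_card_eq_one', h1]
  have hmem : ∀ x : Q, lam x ∈ OO p := fun x =>
    integral_mem (IsIntegral.of_pow (pow_pos (Fact.out : p.Prime).pos a) (by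
      rw [hpow x]; exact isIntegral_one))
  have hres : ∀ x : Q, IsLocalRing.residue (OO p) (⟨lam x, hmem x⟩ : OO p) = 1 := fun x =>
    bdsa_res_one (a := a) (Subtype.ext (hpow x))
  have htr' : (Nat.card Q : ℂ)⁻¹ * ∑ x : Q, lam x⁻¹ * (toC (A x)).trace = m := by
    rw [← htr, finsum_eq_sum_of_fintype]
    congr 1
    refine Finset.sum_congr rfl fun x _ => ?_
    rw [trace_toC]
  obtain ⟨c1, c2⟩ := bdsa_core (fun x => toC (A x)) (fun x y => by rw [← toC_mul, ← hA])
    h1 hm htr' hy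
  constructor
  · have e1 : toK (∑ᶠ x : Q, A x) = toK (∑ x : Q, (⟨lam x⁻¹, hmem _⟩ : OO p) • A x) := by
      rw [finsum_eq_sum_of_fintype, toK_sum, toK_sum]
      refine Finset.sum_congr rfl fun x _ => ?_
      rw [toK_smul, hres, one_smul]
    have e2 : toC (∑ x : Q, (⟨lam x⁻¹, hmem _⟩ : OO p) • A x) =
        ∑ x : Q, lam x⁻¹ • toC (A x) := by
      rw [toC_sum]
      refine Finset.sum_congr rfl fun x _ => ?_
      rw [toC_smul]
    rw [e1]
    refine (bdsa_toC_map _).trans ?_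
    rw [e2, c1]
  · have e1 : toK (A y - A 1) = toK (A y - (⟨lam y, hmem y⟩ : OO p) • A 1) := by
      rw [toK_sub, toK_sub, toK_smul, hres, one_smul]
    have e2 : toC (A y - (⟨lam y, hmem y⟩ : OO p) • A 1) = toC (A y) - lam y • toC (A 1) := by
      rw [toC_sub, toC_smul]
    have h7 := bdsa_toC_map (A y - (⟨lam y, hmem y⟩ : OO p) • A 1)
    have h8 : (toK (A 1)).rank = (toC (A 1)).rank :=
      rank_idem_map (algebraMap (OO p) ℂ) (IsLocalRing.residue (OO p)) (by
        intro a b h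
        exact Subtype.ext h) _ (by rw [← hA, mul_one])
    rw [e2] at h7
    rw [e1, h8, ← c2]

    omega

end Pool.Agent.Helper42.CY
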