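import Pool.Agent.Helper42.CY.Loc1

/-!
# Project CY, section 4: local characters over a canonical character

`π : normalizer Z → (ZMod p)ˣ` with kernel the centralizer of `Z` (`exists_piQ`).
-/

namespace Pool.Agent.Helper42.CY

open Pool.Agent.Helper42.INC Pool.Agent.Helper42.IR Pool.Agent.Helper97.S4

/-- orthogonality: the sum over all characters of a finite abelian group -/
private lemma beta_sum_chars {A : Type} [CommGroup A] [Finite A] [Fintype (A →* ℂˣ)] (u : A)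
    (hu : u ≠ 1) : ∑ β : A →* ℂˣ, ((β u : ℂˣ) : ℂ) = 0 := by
  classical
  have hexp : HasEnoughRootsOfUnity ℂ (Monoid.exponent A) := by
    have : NeZero (Monoid.exponent A) := ⟨Monoid.exponent_ne_zero_of_finite⟩
    infer_instance
  obtain ⟨β₀, hβ₀⟩ := CommGroup.exists_apply_ne_one_of_hasEnoughRootsOfUnity A ℂ hu
  have h1 : ∑ β : A →* ℂˣ, ((β u : ℂˣ) : ℂ) =
      ((β₀ u : ℂˣ) : ℂ) * ∑ β : A →* ℂˣ, ((β u : ℂˣ) : ℂ) := by
    rw [Finset.mul_sum]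
    rw [← Equiv.sum_comp (Equiv.mulLeft β₀)]
    refine Finset.sum_congr rfl fun β _ => ?_
    change (((β₀ * β) u : ℂˣ) : ℂ) = _
    rw [MonoidHom.mul_apply, Units.val_mul]
  have h2 : ((β₀ u : ℂˣ) : ℂ) - 1 ≠ 0 := by
    intro h
    apply hβ₀
    apply Units.ext
    rw [Units.val_one]
    linear_combination h
  have h3 : (((β₀ u : ℂˣ) : ℂ) - 1) * ∑ β : A →* ℂˣ, ((β u : ℂˣ) : ℂ) = 0 := by
    linear_combination -h1
  exact (mul_eq_zero.1 h3).resolve_left h2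

private lemma beta_finite_chars {A : Type} [CommGroup A] [Finite A] : Finite (A →* ℂˣ) := by
  have hexp : HasEnoughRootsOfUnity ℂ (Monoid.exponent A) := by
    have : NeZero (Monoid.exponent A) := ⟨Monoid.exponent_ne_zero_of_finite⟩
    infer_instance
  obtain ⟨e⟩ := CommGroup.monoidHom_mulEquiv_of_hasEnoughRootsOfUnity A ℂ
  exact Finite.of_equiv A e.symm.toEquiv

variable {G : Type} [Group G] [Finite G] {p : ℕ} [Fact p.Prime] {K Q Z H : Subgroup G}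

/-- the scalar product on `C` of two characters of `NN K Z` with a common constituent -/
private lemma beta_ip_ne {C N : Subgroup G} (hCN : C ≤ N) {ψ ψ' φ : G → ℂ}
    (hψ : ψ ∈ IrrS N) (hψ' : ψ' ∈ IrrS N) (hφ : φ ∈ IrrS C)
    (h : ip C ψ φ ≠ 0) (h' : ip C ψ' φ ≠ 0) : ip C ψ ψ' ≠ 0 := by
  classical
  haveI : Finite (IrrS C) := (irrS_finite C).to_subtype
  haveI := Fintype.ofFinite (IrrS C)
  have h1 := ip_trans (le_refl C) hCN hψ ψ'
  rw [finsum_eq_sum_of_fintype] at h1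
  have hnat : ∀ θ : IrrS C, ∃ m : ℕ, ip C ψ θ.1 * ip C θ.1 ψ' = (m : ℂ) := by
    intro θ
    obtain ⟨a, ha⟩ := ip_res_nat hCN hψ θ.2
    obtain ⟨b, hb⟩ := ip_res_nat hCN hψ' θ.2
    refine ⟨a * b, ?_⟩
    rw [ha, ip_symm C θ.1 ψ', hb]
    push_cast
    ring
  choose m hm using hnat
  have h2 : ip C ψ ψ' = ((∑ θ : IrrS C, m θ : ℕ) : ℂ) := by
    rw [h1]
    push_cast
    exact Finset.sum_congr rfl fun θ _ => hm θ
  rw [h2]
  have h3 : m ⟨φ, hφ⟩ ≠ 0 := by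
    intro h0
    have h4 := hm ⟨φ, hφ⟩
    rw [h0, Nat.cast_zero, ip_symm C φ ψ'] at h4
    exact (mul_ne_zero h h') h4
  have h5 : 0 < ∑ θ : IrrS C, m θ :=
    lt_of_lt_of_le (Nat.pos_of_ne_zero h3)
      (Finset.single_le_sum (f := m) (fun _ _ => Nat.zero_le _) (Finset.mem_univ _))
  exact_mod_cast h5.ne'

/-- Two irreducible characters `ψ`, `ψ'` of `N = NN K Z` over the same irreducible character `φ` of
`C = Q ⊔ H` differ by a linear character `β ∘ π`: the sum over all `β : (ZMod p)ˣ →* ℂˣ` of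
`B (ψ * (β ∘ π)) ψ'` on `N` is a nonzero multiple of `ip C ψ ψ' ≠ 0`. -/
theorem exists_beta (hL : LocC p K Q Z H)
    (π : Subgroup.normalizer (Z : Set G) →* (ZMod p)ˣ)
    (hπ : ∀ a, π a = 1 ↔ (a : G) ∈ Subgroup.centralizer (Z : Set G)) {ψ ψ' φ : G → ℂ}
    (hψ : ψ ∈ IrrS (NN K Z)) (hψ' : ψ' ∈ IrrS (NN K Z)) (hφ : φ ∈ IrrS (Q ⊔ H))
    (h : ip (Q ⊔ H) ψ φ ≠ 0) (h' : ip (Q ⊔ H) ψ' φ ≠ 0) :
    ∃ β : (ZMod p)ˣ →* ℂˣ, ∀ (x : G) (hx : x ∈ NN K Z),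
      ψ' x = ψ x * ((β (π ⟨x, (Subgroup.mem_inf.1 hx).2⟩) : ℂˣ) : ℂ) := by
  classical
  have hCN : Q ⊔ H ≤ NN K Z := hL.sup_le
  haveI := Fintype.ofFinite (NN K Z)
  haveI := Fintype.ofFinite (Q ⊔ H : Subgroup G)
  haveI : Finite ((ZMod p)ˣ →* ℂˣ) := beta_finite_chars
  haveI := Fintype.ofFinite ((ZMod p)ˣ →* ℂˣ)
  let πN : NN K Z →* (ZMod p)ˣ :=
    π.comp (Subgroup.inclusion (inf_le_right : NN K Z ≤ Subgroup.normalizer (Z : Set G)))
  have hπN : ∀ (x : G) (hx : x ∈ NN K Z), πN ⟨x, hx⟩ = π ⟨x, (Subgroup.mem_inf.1 hx).2⟩ :=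
    fun x hx => rfl
  by_contra hcon
  push Not at hcon
  have hB : ∀ β : (ZMod p)ˣ →* ℂˣ,
      B (fun x : NN K Z => ((β (πN x) : ℂˣ) : ℂ) * ψ x) (fun x : NN K Z => ψ' x) = 0 := by
    intro β
    apply B_irr_ne (irr_linTwist (β.comp πN) hψ.1) hψ'.1
    intro heq
    obtain ⟨x, hx, hne⟩ := hcon β
    apply hne
    have h1 := congrFun heq ⟨x, hx⟩
    rw [mul_comm]
    exact h1.symm
  -- membership in the kernel
  have hker : ∀ x : NN K Z, πN x = 1 ↔ (x : G) ∈ Q ⊔ H := by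
    intro x
    have h1 : πN x = π ⟨(x : G), (Subgroup.mem_inf.1 x.2).2⟩ := rfl
    rw [h1, hπ, hL.sup]
    exact ⟨fun h2 => Subgroup.mem_inf.2 ⟨(Subgroup.mem_inf.1 x.2).1, h2⟩,
      fun h2 => (Subgroup.mem_inf.1 h2).2⟩
  -- the sum over the kernel
  have hsum : ∑ x ∈ Finset.univ.filter (fun x : NN K Z => πN x = 1), ψ x * ψ' ((x : G)⁻¹) =
      (Nat.card (Q ⊔ H : Subgroup G) : ℂ) * ip (Q ⊔ H) ψ ψ' := by
    have h1 : ∑ x ∈ Finset.univ.filter (fun x : NN K Z => πN x = 1), ψ x * ψ' ((x : G)⁻¹) =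
        ∑ z : (Q ⊔ H : Subgroup G), ψ (z : G) * ψ' ((z : G)⁻¹) := by
      symm
      refine Finset.sum_bij (fun z _ => (⟨(z : G), hCN z.2⟩ : NN K Z)) ?_ ?_ ?_ ?_
      · intro z _
        rw [Finset.mem_filter]
        refine ⟨Finset.mem_univ _, ?_⟩
        rw [hker]
        exact z.2
      · intro z _ w _ hzw
        exact Subtype.ext (congrArg (fun x : NN K Z => (x : G)) hzw)
      · intro x hx
        rw [Finset.mem_filter, hker] at hx
        exact ⟨⟨x, hx.2⟩, Finset.mem_univ _, rfl⟩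
      · intro z _
        rfl
    rw [h1]
    unfold ip
    rw [B_eq, ← mul_assoc, mul_inv_cancel₀, one_mul]
    · rfl
    · exact_mod_cast (Nat.card_pos (α := (Q ⊔ H : Subgroup G))).ne'
  -- summation over all characters
  have htot : ∑ β : (ZMod p)ˣ →* ℂˣ,
      B (fun x : NN K Z => ((β (πN x) : ℂˣ) : ℂ) * ψ x) (fun x : NN K Z => ψ' x) =
      (Nat.card (NN K Z) : ℂ)⁻¹ * ((Fintype.card ((ZMod p)ˣ →* ℂˣ) : ℂ) *
        ∑ x ∈ Finset.univ.filter (fun x : NN K Z => πN x = 1), ψ x * ψ' ((x : G)⁻¹)) := by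
    simp only [B_eq]
    rw [← Finset.mul_sum, Finset.sum_comm]
    congr 1
    rw [Finset.mul_sum, Finset.sum_filter]
    refine Finset.sum_congr rfl fun x _ => ?_
    have h1 : ∀ β : (ZMod p)ˣ →* ℂˣ, ((β (πN x) : ℂˣ) : ℂ) * ψ x * ψ' ((x⁻¹ : NN K Z) : G) =
        ((β (πN x) : ℂˣ) : ℂ) * (ψ x * ψ' ((x : G)⁻¹)) := by
      intro β
      rw [mul_assoc]
      rfl
    rw [Finset.sum_congr rfl (fun β _ => h1 β), ← Finset.sum_mul]
    by_cases hx : πN x = 1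
    · rw [if_pos hx]
      congr 1
      rw [hx]
      simp
    · rw [if_neg hx, beta_sum_chars _ hx, zero_mul]
  rw [Finset.sum_congr rfl (fun β _ => hB β), Finset.sum_const_zero, hsum] at htot
  have hne := beta_ip_ne hCN hψ hψ' hφ h h'
  have h1 : (Nat.card (NN K Z) : ℂ)⁻¹ ≠ 0 :=
    inv_ne_zero (by exact_mod_cast (Nat.card_pos (α := NN K Z)).ne')
  have h2 : (Fintype.card ((ZMod p)ˣ →* ℂˣ) : ℂ) ≠ 0 := by
    exact_mod_cast Fintype.card_ne_zero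
  have h3 : (Nat.card (Q ⊔ H : Subgroup G) : ℂ) ≠ 0 := by
    exact_mod_cast (Nat.card_pos (α := (Q ⊔ H : Subgroup G))).ne'
  exact (mul_ne_zero h1 (mul_ne_zero h2 (mul_ne_zero h3 hne))) htot.symm

/-- conjugation by elements normalizing a subgroup -/
private lemma beta_conj_mem {N : Subgroup G} {a : G} (ha : a ∈ Subgroup.normalizer (N : Set G))
    {x : G} : x ∈ N ↔ a⁻¹ * x * a ∈ N := by
  have h1 : a * (a⁻¹ * x * a) * a⁻¹ = x := by group
  have h2 := Subgroup.mem_normalizer_iff.1 ha (a⁻¹ * x * a)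
  rw [h1] at h2
  exact h2.symm

/-- `π` is invariant under conjugation -/
private lemma beta_pi_conj (π : Subgroup.normalizer (Z : Set G) →* (ZMod p)ˣ) {a x : G}
    (ha : a ∈ Subgroup.normalizer (Z : Set G)) (hx : x ∈ Subgroup.normalizer (Z : Set G))
    (hax : a⁻¹ * x * a ∈ Subgroup.normalizer (Z : Set G)) :
    π ⟨a⁻¹ * x * a, hax⟩ = π ⟨x, hx⟩ := by
  have h1 : (⟨a⁻¹ * x * a, hax⟩ : Subgroup.normalizer (Z : Set G)) =
      (⟨a, ha⟩ : Subgroup.normalizer (Z : Set G))⁻¹ * ⟨x, hx⟩ * ⟨a, ha⟩ := rfl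
  rw [h1, map_mul, map_mul, map_inv, mul_comm, mul_inv_cancel_left]

/-- If `a` (normalizing `K` and `Z`) fixes `ψ` then it fixes `ψ'`: by `exists_beta` and
`π (a⁻¹ x a) = π x` (the target is commutative). -/
theorem fix_of_fix (hL : LocC p K Q Z H) {a : G} (haK : a ∈ Subgroup.normalizer (K : Set G))
    (haZ : a ∈ Subgroup.normalizer (Z : Set G)) {ψ ψ' φ : G → ℂ}
    (hψ : ψ ∈ IrrS (NN K Z)) (hψ' : ψ' ∈ IrrS (NN K Z)) (hφ : φ ∈ IrrS (Q ⊔ H))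
    (h : ip (Q ⊔ H) ψ φ ≠ 0) (h' : ip (Q ⊔ H) ψ' φ ≠ 0)
    (hf : cnj a ψ = ψ) : cnj a ψ' = ψ' := by
  obtain ⟨π, hπ⟩ := exists_piQ (p := p) Z hL.cZ
  obtain ⟨β, hβ⟩ := exists_beta hL π hπ hψ hψ' hφ h h'
  have haN := norm_NN haK haZ
  funext x
  rw [cnj_apply]
  by_cases hx : x ∈ NN K Z
  · have hax := (beta_conj_mem haN).1 hx
    rw [hβ _ hax, hβ _ hx, beta_pi_conj π haZ (Subgroup.mem_inf.1 hx).2]
    have h1 := congrFun hf x
    rw [cnj_apply] at h1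
    rw [h1]
  · have hax : a⁻¹ * x * a ∉ NN K Z := fun h1 => hx ((beta_conj_mem haN).2 h1)
    rw [hψ'.2 _ hax, hψ'.2 _ hx]

end Pool.Agent.Helper42.CY
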