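import Pool.Agent.Helper42.CY.Defs
import Pool.Agent.Helper97.S4.F1S
import Pool.Agent.Helper97.S4.Clif
import Pool.Agent.Helper42.IR.NormF

/-!
# CY-05 (project CY): Mackey's formula and cyclic quotients

* `orth_col`: column orthogonality for `IrrS J`: `second_orth` of IR/NormF.lean is the case of the whole
  group; its proof (`nf_orth`, for `Irr` of the group `↥J`) with `exists_irrSEquiv` of S4/Chr.lean.
* `mackey`: expand both scalar products (`ip L f g = |L|⁻¹ ∑ x ∈ L, f x * g x⁻¹`), exchange the sums,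
  `orth_col`: `|L|⁻² ∑_{x, y ∈ L} θ(x⁻¹) θ'(y⁻¹) #{k ∈ J | k x k⁻¹ = y⁻¹} = |L|⁻² ∑_{k ∈ J} ∑_{x ∈ L} θ(x⁻¹)
  θ'(k x k⁻¹)` as `θ'` vanishes off `L`, and `θ'(k x k⁻¹) = (cnj k⁻¹ θ') x`; replace `k` by `k⁻¹`.
* `mult_one`: `L` normal in `J` with cyclic quotient, `χ ∈ IrrS J` over `θ ∈ IrrS L`. By `mackey` with
  `θ' = θ` the sum over all `χ ∈ IrrS J` of `(ip L χ θ)²` is `|L|⁻¹ #{k ∈ J | cnj k θ = θ} = |J ⊓ stab θ| / |L|`;
  by `card_over_pi` this is the number of `χ ∈ IrrS J` with `ip L χ θ ≠ 0`; these numbers are natural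
  (`ip_res_nat`), so all nonzero ones are `1`.
* `cyc_deg`: `χ 1 = ∑ θ', ip L χ θ' * θ' 1` (`expand_on`), where the `θ'` with nonzero multiplicity are the
  conjugates of `θ` under `J` (`clifford`, `ip_cnj_right`), of number `|J : J ⊓ stab θ|`.
-/

namespace Pool.Agent.Helper42.CY

open Pool.Agent.Helper42.INC Pool.Agent.Helper42.IR Pool.Agent.Helper97.S4

variable {G : Type} [Group G] [Finite G]

omit [Finite G] in
private noncomputable def cy5E (K : Type) [Group K] : IrrS (⊤ : Subgroup K) ≃ Irr K :=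
  (cmx_equiv (⊤ : Subgroup K)).trans (irrEquiv Subgroup.topEquiv).symm

theorem orth_col (J : Subgroup G) {x y : G} (hx : x ∈ J) (hy : y ∈ J) :
    ∑ᶠ χ : IrrS J, χ.1 x * χ.1 y = (Nat.card {k : G // k ∈ J ∧ k * x * k⁻¹ = y⁻¹} : ℂ) := by
  obtain ⟨e, he⟩ := exists_irrSEquiv J
  have h1 : ∑ᶠ χ : IrrS J, χ.1 x * χ.1 y = ∑ᶠ χ : Irr J, χ.1 ⟨x, hx⟩ * χ.1 ⟨y, hy⟩ := by
    rw [← finsum_comp_equiv e]
    apply finsum_congr
    intro χ
    rw [he χ]
  have h2 : ∑ᶠ χ : IrrS (⊤ : Subgroup J), χ.1 ⟨x, hx⟩ * χ.1 ⟨y, hy⟩ =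
      ∑ᶠ χ : Irr J, χ.1 ⟨x, hx⟩ * χ.1 ⟨y, hy⟩ := by
    rw [← finsum_comp_equiv (cy5E J)]
    rfl
  rw [h1, ← h2, second_orth]
  congr 1
  exact Nat.card_congr
    { toFun := fun k => ⟨k.1.1, k.1.2, by
        have := congrArg Subtype.val k.2
        exact this⟩
      invFun := fun k => ⟨⟨k.1, k.2.1⟩, Subtype.ext k.2.2⟩
      left_inv := fun _ => rfl
      right_inv := fun _ => rfl }

private theorem cy5_ip (L : Subgroup G) [Fintype L] (f g : G → ℂ) :
    ip L f g = (Nat.card L : ℂ)⁻¹ * ∑ x : L, f x * g (x : G)⁻¹ := by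
  unfold ip
  rw [B_eq]
  rfl

theorem mackey {L J : Subgroup G} (hLJ : L ≤ J) (θ θ' : G → ℂ) (h0 : ∀ x, x ∉ L → θ' x = 0) :
    ∑ᶠ χ : IrrS J, ip L χ.1 θ * ip L χ.1 θ' =
      (Nat.card L : ℂ)⁻¹ * ∑ᶠ k : J, ip L (cnj (k : G) θ') θ := by
  classical
  have := Fintype.ofFinite L
  have := Fintype.ofFinite J
  have := (irrS_finite J).fintype
  rw [finsum_eq_sum_of_fintype, finsum_eq_sum_of_fintype]
  set c : ℂ := (Nat.card L : ℂ)⁻¹ with hc
  have hcount : ∀ a b : L, ∑ χ : IrrS J, χ.1 (a : G) * χ.1 (b : G) =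
      ∑ k : J, if (k : G) * a * (k : G)⁻¹ = (b : G)⁻¹ then (1 : ℂ) else 0 := by
    intro a b
    rw [← finsum_eq_sum_of_fintype, orth_col J (hLJ a.2) (hLJ b.2), Finset.sum_boole]
    congr 1
    rw [← Fintype.card_subtype, ← Nat.card_eq_fintype_card]
    exact Nat.card_congr
      { toFun := fun k => ⟨⟨k.1, k.2.1⟩, k.2.2⟩
        invFun := fun k => ⟨k.1.1, k.1.2, k.2⟩
        left_inv := fun _ => rfl
        right_inv := fun _ => rfl }
  have hL : ∑ χ : IrrS J, ip L χ.1 θ * ip L χ.1 θ' =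
      c * (c * ∑ a : L, ∑ b : L, θ (a : G)⁻¹ * θ' (b : G)⁻¹ *
        ∑ χ : IrrS J, χ.1 (a : G) * χ.1 (b : G)) := by
    calc ∑ χ : IrrS J, ip L χ.1 θ * ip L χ.1 θ'
        = ∑ χ : IrrS J, c * (c * ∑ a : L, ∑ b : L, θ (a : G)⁻¹ * θ' (b : G)⁻¹ *
            (χ.1 (a : G) * χ.1 (b : G))) := by
          apply Finset.sum_congr rfl
          intro χ _
          rw [cy5_ip, cy5_ip, ← hc]
          have : (∑ a : L, χ.1 (a : G) * θ (a : G)⁻¹) * (∑ b : L, χ.1 (b : G) * θ' (b : G)⁻¹) =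
              ∑ a : L, ∑ b : L, θ (a : G)⁻¹ * θ' (b : G)⁻¹ * (χ.1 (a : G) * χ.1 (b : G)) := by
            rw [Finset.sum_mul_sum]
            apply Finset.sum_congr rfl
            intro a _
            apply Finset.sum_congr rfl
            intro b _
            ring
          rw [← this]
          ring
      _ = _ := by
          rw [← Finset.mul_sum, ← Finset.mul_sum]
          congr 2
          rw [Finset.sum_comm]
          apply Finset.sum_congr rfl
          intro a _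
          rw [Finset.sum_comm]
          apply Finset.sum_congr rfl
          intro b _
          rw [Finset.mul_sum]
  rw [hL]
  congr 1
  have h1 : ∑ k : J, ip L (cnj (k : G) θ') θ = ∑ k : J, ip L (cnj (k : G)⁻¹ θ') θ := by
    rw [← Equiv.sum_comp (Equiv.inv J) (fun k : J => ip L (cnj (k : G) θ') θ)]
    rfl
  rw [h1]
  have h2 : ∀ k : J, ip L (cnj (k : G)⁻¹ θ') θ =
      c * ∑ a : L, θ' ((k : G) * a * (k : G)⁻¹) * θ (a : G)⁻¹ := by
    intro k
    rw [cy5_ip]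
    congr 1
    apply Finset.sum_congr rfl
    intro a _
    rw [cnj_apply, inv_inv]
  rw [Finset.sum_congr rfl (fun k _ => h2 k), ← Finset.mul_sum]
  congr 1
  conv_rhs => rw [Finset.sum_comm]
  apply Finset.sum_congr rfl
  intro a _
  have h3 : ∀ b : L, θ (a : G)⁻¹ * θ' (b : G)⁻¹ * ∑ χ : IrrS J, χ.1 (a : G) * χ.1 (b : G) =
      ∑ k : J, (if (k : G) * a * (k : G)⁻¹ = (b : G)⁻¹ then θ (a : G)⁻¹ * θ' (b : G)⁻¹ else 0) := by
    intro b
    rw [hcount a b, Finset.mul_sum]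
    apply Finset.sum_congr rfl
    intro k _
    split_ifs
    · rw [mul_one]
    · rw [mul_zero]
  rw [Finset.sum_congr rfl (fun b _ => h3 b), Finset.sum_comm]
  apply Finset.sum_congr rfl
  intro k _
  by_cases hk : (k : G) * a * (k : G)⁻¹ ∈ L
  · rw [Finset.sum_eq_single (⟨(k : G) * a * (k : G)⁻¹, hk⟩⁻¹ : L)]
    · rw [if_pos (by simp)]
      have e : ((((⟨(k : G) * a * (k : G)⁻¹, hk⟩ : L)⁻¹ : L) : G))⁻¹ = (k : G) * a * (k : G)⁻¹ := by
        rw [Subgroup.coe_inv, inv_inv]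
      rw [e, mul_comm]
    · intro b _ hb
      rw [if_neg]
      intro h
      apply hb
      apply Subtype.ext
      rw [Subgroup.coe_inv]
      change (b : G) = ((k : G) * a * (k : G)⁻¹)⁻¹
      rw [h, inv_inv]
    · intro h
      exact absurd (Finset.mem_univ _) h
  · rw [h0 _ hk, zero_mul]
    apply Finset.sum_eq_zero
    intro b _
    rw [if_neg]
    intro h
    apply hk
    rw [h]
    exact L.inv_mem b.2

theorem mult_one {L J : Subgroup G} (hLJ : L ≤ J) (hn : J ≤ Subgroup.normalizer (L : Set G))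
    {C : Type} [Group C] [IsCyclic C] (π : J →* C) (hπ : ∀ x : J, π x = 1 ↔ (x : G) ∈ L)
    {χ θ : G → ℂ} (hχ : χ ∈ IrrS J) (hθ : θ ∈ IrrS L) (h : ip L χ θ ≠ 0) : ip L χ θ = 1 := by
  classical
  have := Fintype.ofFinite J
  have := (irrS_finite J).fintype
  choose n hnn using fun χ : IrrS J => ip_res_nat hLJ χ.2 hθ
  have h1 := mackey hLJ θ θ hθ.2
  rw [finsum_eq_sum_of_fintype, finsum_eq_sum_of_fintype] at h1
  have h2 : ∀ k : J, ip L (cnj (k : G) θ) θ = if cnj (k : G) θ = θ then (1 : ℂ) else 0 :=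
    fun k => ip_irrS (cnj_mem_irrS (hn k.2) hθ) hθ
  rw [Finset.sum_congr rfl (fun k _ => h2 k), Finset.sum_boole] at h1
  have h3 : ((Finset.univ.filter (fun k : J => cnj (k : G) θ = θ)).card : ℕ) =
      Nat.card (J ⊓ stab θ : Subgroup G) := by
    rw [← Fintype.card_subtype, ← Nat.card_eq_fintype_card]
    exact Nat.card_congr
      { toFun := fun k => ⟨k.1.1, k.1.2, k.2⟩
        invFun := fun k => ⟨⟨k.1, k.2.1⟩, k.2.2⟩
        left_inv := fun _ => rfl
        right_inv := fun _ => rfl }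
  have h4 := card_over_pi hLJ hn π hπ hθ
  have h5 : Nat.card {χ : G → ℂ // χ ∈ IrrS J ∧ ip L χ θ ≠ 0} =
      ∑ χ : IrrS J, if n χ ≠ 0 then 1 else 0 := by
    have h6 : Nat.card {χ : G → ℂ // χ ∈ IrrS J ∧ ip L χ θ ≠ 0} =
        Nat.card {χ : IrrS J // n χ ≠ 0} :=
      Nat.card_congr
        { toFun := fun χ => ⟨⟨χ.1, χ.2.1⟩, fun h0 => χ.2.2 (by
            have := hnn ⟨χ.1, χ.2.1⟩
            rw [h0, Nat.cast_zero] at this
            exact this)⟩
          invFun := fun χ => ⟨χ.1.1, χ.1.2, fun h0 => χ.2 (by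
            have := hnn χ.1
            rw [h0] at this
            exact_mod_cast this.symm)⟩
          left_inv := fun _ => rfl
          right_inv := fun _ => rfl }
    rw [h6, Nat.card_eq_fintype_card, Fintype.card_subtype, Finset.card_filter]
  have hL0 : (Nat.card L : ℂ) ≠ 0 := by
    exact_mod_cast Nat.card_pos.ne'
  have h7 : ∑ χ : IrrS J, (n χ) ^ 2 = ∑ χ : IrrS J, if n χ ≠ 0 then 1 else 0 := by
    have h8 : ((∑ χ : IrrS J, (n χ) ^ 2 : ℕ) : ℂ) =
        ((∑ χ : IrrS J, if n χ ≠ 0 then 1 else 0 : ℕ) : ℂ) := by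
      have h9 : ((∑ χ : IrrS J, (n χ) ^ 2 : ℕ) : ℂ) =
          ∑ χ : IrrS J, ip L χ.1 θ * ip L χ.1 θ := by
        rw [Nat.cast_sum]
        apply Finset.sum_congr rfl
        intro χ _
        rw [hnn χ, Nat.cast_pow, sq]
      rw [h9, h1, h3, ← h4, h5, Nat.cast_mul]
      field_simp
    exact_mod_cast h8
  have h10 : ∀ χ ∈ (Finset.univ : Finset (IrrS J)), (if n χ ≠ 0 then 1 else 0) ≤ (n χ) ^ 2 := by
    intro χ _
    split_ifs with h11
    · exact Nat.one_le_iff_ne_zero.2 (pow_ne_zero 2 h11)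
    · exact Nat.zero_le _
  have h12 := (Finset.sum_eq_sum_iff_of_le h10).1 h7.symm ⟨χ, hχ⟩ (Finset.mem_univ _)
  have h13 : n ⟨χ, hχ⟩ ≠ 0 := by
    intro h0
    apply h
    have := hnn ⟨χ, hχ⟩
    rw [h0, Nat.cast_zero] at this
    exact this
  rw [if_pos h13] at h12
  have h14 : n ⟨χ, hχ⟩ = 1 := by
    have h15 : (n ⟨χ, hχ⟩) ^ 2 = 1 := h12.symm
    exact (Nat.pow_eq_one.1 h15).resolve_right (by norm_num)
  have h16 := hnn ⟨χ, hχ⟩
  rw [h14, Nat.cast_one] at h16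
  exact h16

theorem cyc_deg {L J : Subgroup G} (hLJ : L ≤ J) (hn : J ≤ Subgroup.normalizer (L : Set G))
    {C : Type} [Group C] [IsCyclic C] (π : J →* C) (hπ : ∀ x : J, π x = 1 ↔ (x : G) ∈ L)
    {χ θ : G → ℂ} (hχ : χ ∈ IrrS J) (hθ : θ ∈ IrrS L) (h : ip L χ θ ≠ 0) :
    deg χ = (J ⊓ stab θ).relIndex J * deg θ := by
  classical
  have := (irrS_finite L).fintype
  let _ : MulAction G (G → ℂ) := cnjAct
  have h1 := expand_on (L := L) (f := χ) (fun y hy x _ => irrS_conj (hLJ hy) hχ x) L.one_mem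
  rw [finsum_eq_sum_of_fintype] at h1
  have h2 : ∀ ρ : IrrS L, ip L χ ρ.1 * ρ.1 1 =
      if ip L χ ρ.1 ≠ 0 then (deg θ : ℂ) else 0 := by
    intro ρ
    split_ifs with h3
    · obtain ⟨k, hk, hk2⟩ := clifford hLJ hn hχ hθ ρ.2 h h3
      rw [mult_one hLJ hn π hπ hχ ρ.2 h3, one_mul, irrS_deg ρ.2, ← hk2, deg_cnj]
    · push Not at h3
      rw [h3, zero_mul]
  rw [Finset.sum_congr rfl (fun ρ _ => h2 ρ), ← Finset.sum_filter, Finset.sum_const,
    nsmul_eq_mul, irrS_deg hχ] at h1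
  have h4 : (Finset.univ.filter (fun ρ : IrrS L => ip L χ ρ.1 ≠ 0)).card =
      (J ⊓ stab θ).relIndex J := by
    rw [← Fintype.card_subtype, ← Nat.card_eq_fintype_card]
    have h5 : Nat.card {ρ : IrrS L // ip L χ ρ.1 ≠ 0} = Nat.card (MulAction.orbit J θ) := by
      apply Nat.card_congr
      exact
        { toFun := fun ρ => ⟨ρ.1.1, by
            obtain ⟨k, hk, hk2⟩ := clifford hLJ hn hχ hθ ρ.1.2 h ρ.2
            exact ⟨⟨k, hk⟩, hk2⟩⟩
          invFun := fun f => ⟨⟨f.1, by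
            obtain ⟨k, hk⟩ := f.2
            have hk' : cnj (k : G) θ = f.1 := hk
            rw [← hk']
            exact cnj_mem_irrS (hn k.2) hθ⟩, by
            obtain ⟨k, hk⟩ := f.2
            have hk' : cnj (k : G) θ = f.1 := hk
            change ip L χ f.1 ≠ 0
            rw [← hk', ip_cnj_right hn hχ k.2]
            exact h⟩
          left_inv := fun _ => rfl
          right_inv := fun _ => rfl }
    rw [h5, Nat.card_congr (MulAction.orbitEquivQuotientStabilizer J θ)]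
    have h6 : MulAction.stabilizer J θ = (J ⊓ stab θ).subgroupOf J := by
      ext k
      rw [MulAction.mem_stabilizer_iff, Subgroup.mem_subgroupOf]
      constructor
      · intro hk
        exact ⟨k.2, hk⟩
      · intro hk
        exact hk.2
    rw [h6]
    rfl
  rw [h4] at h1
  exact_mod_cast h1

end Pool.Agent.Helper42.CY
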