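import Pool.Agent.Helper42.CY.Dt
import Pool.Agent.Helper42.CY.Cyc
import Pool.Agent.Helper42.CY.LocH

/-!
# CY-07 (project CY): canonical characters of `C = Q ⊔ H`

* `prodC_mem`: product of an irreducible and a linear character (`irr_linTwist` of INC/Red2.lean or the
  norm criterion): `lift Q H lam` restricted to `C` is a homomorphism to `ℂˣ`.
* `rst_H`: `χ ∈ IrrSP p C` restricts irreducibly to `H`: `θ ∈ IrrS H` under `χ` (`exists_under`); by
  `cyc_deg` (`L = H`, `J = C`, `π` from `exists_projQ`) `deg χ = |C : C ⊓ stab θ| deg θ`, the index is a divisor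
  of `|C : H| = |Q|`, a power of `p`, so it is `1`: `C` fixes `θ`, `deg χ = deg θ` and `ip H χ θ = 1`
  (`mult_one`), so `χ = θ` on `H` (`expand_on` and `clifford`: all constituents are conjugate to `θ`).
* `sum_prodC`: by `sum_lift` and `lift g⁻¹ = (lift g)⁻¹`, the sum over all `lam` of
  `|C|⁻¹ ∑_{g ∈ C} χ g * lift lam g⁻¹ * φ g⁻¹` is `|C|⁻¹ |Q| ∑_{g ∈ H} χ g φ g⁻¹ = ip H χ φ` (`card_C`).
* `over_H`: `θ ∈ IrrS C`, `ip H θ φ ≠ 0`: by `sum_prodC` some `ip C θ (prodC lam φ) ≠ 0`, so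
  `θ = prodC lam φ` (`ip_irrS`).
* `ca_exists`: `θ ∈ IrrSP p C`, `n = deg θ`, `δ = rst Q (dt Q θ) ∈ IrrS Q`. Choose `k` with `k n ≡ -1` modulo `|Q|`;
  `mu = δ ^ k ∈ IrrS Q` and `φ = prodC mu θ` has `dt Q φ x = mu x ^ n δ x = δ x ^ (k n + 1) = 1` (`dt_twist`,
  `prodC mu θ = mu θ` on `Q`). `θ = prodC (mu⁻¹) φ`.
* `prodC_inj`: `φ' = prodC (lam lam'⁻¹) φ`, so by `dt_twist` `(lam lam'⁻¹) x ^ n = 1` for `x ∈ Q`, `n = deg φ`
  prime to `p` and `(lam lam'⁻¹) x` has `p`-power order: `lam = lam'`.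
* `ca_cnjQ`: `dt_cnj`. `ca_cnj`: `a = c b` by `frattini`; `cnj b φ` is a class function of `C`.
* `ca_ext`: `over_H` for `θ = φ'`: `φ' = prodC lam φ`, so `lam = oneS Q` by `prodC_inj`.
* `stab_prodC`: if `a` normalizes `K`, `Z` and fixes `prodC lam φ` then with `a = c b`, `b` fixes it:
  `prodC (cnj b lam) (cnj b φ) = prodC lam φ`, so `b` fixes `lam` and `φ`; `stab_lam`.
-/

namespace Pool.Agent.Helper42.CY

open Pool.Agent.Helper42.INC Pool.Agent.Helper42.IR Pool.Agent.Helper97.S4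

variable {G : Type} [Group G] [Finite G] {p : ℕ} [Fact p.Prime] {K Q Z H : Subgroup G}

theorem prodC_mem (hL : LocC p K Q Z H) {lam φ : G → ℂ} (hl : lam ∈ IrrS Q)
    (hφ : φ ∈ IrrS (Q ⊔ H)) : prodC Q H lam φ ∈ IrrS (Q ⊔ H) := by
  refine ⟨?_, fun x hx => ?_⟩
  · let l : (Q ⊔ H : Subgroup G) →* ℂˣ :=
      { toFun := fun g => Units.mk0 (lift Q H lam g) (lift_ne hL hl g.2).1
        map_one' := by
          ext
          exact lift_H hL hl (Subgroup.one_mem H)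
        map_mul' := fun g g' => by
          ext
          exact lift_mul hL hl g.2 g'.2 }
    exact irr_linTwist l hφ.1
  · change lift Q H lam x * φ x = 0
    rw [hφ.2 x hx, mul_zero]

theorem deg_prodC (hL : LocC p K Q Z H) {lam φ : G → ℂ} (hl : lam ∈ IrrS Q) :
    deg (prodC Q H lam φ) = deg φ := by
  unfold deg
  change ⌊(lift Q H lam 1 * φ 1).re⌋₊ = _
  rw [lift_H hL hl (Subgroup.one_mem H), one_mul]

theorem prodC_one (hL : LocC p K Q Z H) {φ : G → ℂ} (hφ : ∀ x, x ∉ Q ⊔ H → φ x = 0) :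
    prodC Q H (oneS Q) φ = φ := by
  funext g
  change lift Q H (oneS Q) g * φ g = φ g
  by_cases hg : g ∈ Q ⊔ H
  · rw [lift_oneS hL hg, one_mul]
  · rw [hφ g hg, mul_zero]

theorem prodC_prodC (hL : LocC p K Q Z H) (lam mu φ : G → ℂ) :
    prodC Q H lam (prodC Q H mu φ) = prodC Q H (fun x => lam x * mu x) φ := by
  funext g
  change lift Q H lam g * (lift Q H mu g * φ g) = lift Q H (fun x => lam x * mu x) g * φ g
  rw [lift_mul_lam hL, mul_assoc]

theorem cnj_prodC (hL : LocC p K Q Z H) {a : G} (haK : a ∈ Subgroup.normalizer (K : Set G))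
    (haQ : a ∈ Subgroup.normalizer (Q : Set G)) (lam φ : G → ℂ) :
    cnj a (prodC Q H lam φ) = prodC Q H (cnj a lam) (cnj a φ) := by
  have haH := hL.norm_H haK (hL.normQ_Z haQ)
  funext g
  change cnj a (lift Q H lam) g * cnj a φ g = lift Q H (cnj a lam) g * cnj a φ g
  rw [cnj_lift hL haQ haH]

/-- irreducible characters of degree prime to `p` restrict irreducibly to `H` -/
theorem rst_H (hL : LocC p K Q Z H) {χ : G → ℂ} (hχ : χ ∈ IrrSP p (Q ⊔ H)) :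
    rst H χ ∈ IrrS H := by
  classical
  obtain ⟨a, ha2, hqa⟩ := hL.cQ
  have hHC : H ≤ Q ⊔ H := le_sup_right
  have hn : Q ⊔ H ≤ Subgroup.normalizer (H : Set G) := fun g hg => hL.norm_C hg
  obtain ⟨θ, hθ, hne⟩ := exists_under hHC hχ.1
  obtain ⟨π, hπ, -⟩ := exists_projQ hL
  have := hL.cyc
  have hdeg := cyc_deg hHC hn π hπ hχ.1 hθ hne
  have hm1 := mult_one hHC hn π hπ hχ.1 hθ hne
  -- the index is a power of `p`
  have hHst : H ≤ (Q ⊔ H) ⊓ stab θ := by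
    refine le_inf hHC fun h hh => ?_
    rw [mem_stab]
    exact cnj_eq_self hh hθ
  have hidx : ((Q ⊔ H) ⊓ stab θ).relIndex (Q ⊔ H) ∣ p ^ a := by
    have h1 := Subgroup.relIndex_dvd_of_le_left (Q ⊔ H) hHst
    have h2 := Subgroup.relIndex_mul_relIndex ⊥ H (Q ⊔ H) bot_le hHC
    have h2' : H.relIndex (Q ⊔ H) * Nat.card H = Nat.card Q * Nat.card H := by
      rw [← hL.card_C, ← Subgroup.relIndex_bot_left (H := H),
        ← Subgroup.relIndex_bot_left (H := Q ⊔ H), mul_comm]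
      exact h2
    have h3 : H.relIndex (Q ⊔ H) = Nat.card Q :=
      Nat.eq_of_mul_eq_mul_right Nat.card_pos h2'
    rwa [h3, hqa] at h1
  have hidx1 : ((Q ⊔ H) ⊓ stab θ).relIndex (Q ⊔ H) = 1 := by
    obtain ⟨j, -, hj⟩ := (Nat.dvd_prime_pow (Fact.out : p.Prime)).1 hidx
    rcases Nat.eq_zero_or_pos j with h0 | h0
    · rw [hj, h0, pow_zero]
    · exfalso
      apply hχ.2
      rw [hdeg, hj]
      exact Dvd.dvd.mul_right (dvd_pow_self p (by omega)) _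
  have hfix : ∀ c ∈ Q ⊔ H, cnj c θ = θ := by
    intro c hc
    have h1 := Subgroup.relIndex_eq_one.1 hidx1 hc
    exact mem_stab.1 h1.2
  have heq : rst H χ = θ := by
    funext x
    unfold rst
    by_cases hx : x ∈ H
    · rw [if_pos hx, expand_on (L := H) (f := χ)
        (fun y hy x _ => irrS_conj (hHC hy) hχ.1 x) hx]
      rw [finsum_eq_single _ (⟨θ, hθ⟩ : IrrS H)]
      · change ip H χ θ * θ x = θ x
        rw [hm1, one_mul]
      · rintro ⟨ρ, hρ⟩ hρne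
        have h1 : ip H χ ρ = 0 := by
          by_contra hcon
          obtain ⟨k, hk, hkρ⟩ := clifford hHC hn hχ.1 hθ hρ hne hcon
          rw [hfix k hk] at hkρ
          exact hρne (Subtype.ext hkρ.symm)
        change ip H χ ρ * ρ x = 0
        rw [h1, zero_mul]
    · rw [if_neg hx, hθ.2 x hx]
  rw [heq]
  exact hθ

private theorem cn_ip (L : Subgroup G) [Fintype G] [DecidablePred (fun x : G => x ∈ L)]
    (f g : G → ℂ) : ip L f g =
      (Nat.card L : ℂ)⁻¹ * ∑ x ∈ Finset.univ.filter (fun x : G => x ∈ L), f x * g x⁻¹ := by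
  unfold ip B
  congr 1
  have := Fintype.ofFinite L
  rw [finsum_eq_sum_of_fintype]
  refine Finset.sum_bij (fun (x : L) _ => (x : G)) ?_ ?_ ?_ ?_
  · intro x _
    exact Finset.mem_filter.2 ⟨Finset.mem_univ _, x.2⟩
  · intro x _ y _ h
    exact Subtype.ext h
  · intro x hx
    exact ⟨⟨x, (Finset.mem_filter.1 hx).2⟩, Finset.mem_univ _, rfl⟩
  · intro x _
    rfl

private theorem cn_ip_congr {L : Subgroup G} {f f' g g' : G → ℂ} (hf : ∀ x ∈ L, f x = f' x)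
    (hg : ∀ x ∈ L, g x = g' x) : ip L f g = ip L f' g' := by
  unfold ip
  have h1 : (fun h : L => f h) = fun h : L => f' h := by
    funext h
    exact hf h h.2
  have h2 : (fun h : L => g h) = fun h : L => g' h := by
    funext h
    exact hg h h.2
  rw [h1, h2]

private theorem cn_rst {L : Subgroup G} (f : G → ℂ) {x : G} (hx : x ∈ L) : rst L f x = f x := by
  classical
  unfold rst
  rw [if_pos hx]

private theorem cn_deg {L : Subgroup G} {φ : G → ℂ} (hφ : φ ∈ IrrS L) : φ 1 = (deg φ : ℂ) := by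
  obtain ⟨n, -, hn⟩ := irr_one hφ.1
  have h1 : φ 1 = n := hn
  rw [deg_eq h1, h1]

theorem sum_prodC (hL : LocC p K Q Z H) (χ φ : G → ℂ) :
    ∑ᶠ lam : IrrS Q, ip (Q ⊔ H) χ (prodC Q H lam.1 φ) = ip H χ φ := by
  classical
  have hfin : Finite (IrrS Q) := irrS_finite Q
  have := Fintype.ofFinite (IrrS Q)
  have := Fintype.ofFinite G
  have hQ0 : (Nat.card Q : ℂ) ≠ 0 := by exact_mod_cast Nat.card_pos.ne'
  have hH0 : (Nat.card H : ℂ) ≠ 0 := by exact_mod_cast Nat.card_pos.ne'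
  have hip : ∀ (L : Subgroup G) (f g : G → ℂ), ip L f g =
      (Nat.card L : ℂ)⁻¹ * ∑ x ∈ Finset.univ.filter (fun x : G => x ∈ L), f x * g x⁻¹ :=
    fun L f g => cn_ip L f g
  rw [finsum_eq_sum_of_fintype]
  simp only [hip]
  rw [← Finset.mul_sum, Finset.sum_comm, hL.card_C]
  have h1 : ∀ g ∈ Finset.univ.filter (fun x : G => x ∈ Q ⊔ H),
      ∑ lam : IrrS Q, χ g * prodC Q H lam.1 φ g⁻¹ =
        if g ∈ H then (Nat.card Q : ℂ) * (χ g * φ g⁻¹) else 0 := by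
    intro g hg
    have hgC : g⁻¹ ∈ Q ⊔ H := Subgroup.inv_mem _ (Finset.mem_filter.1 hg).2
    have h2 : ∑ lam : IrrS Q, χ g * prodC Q H lam.1 φ g⁻¹ =
        (∑ lam : IrrS Q, lift Q H lam.1 g⁻¹) * (χ g * φ g⁻¹) := by
      rw [Finset.sum_mul]
      refine Finset.sum_congr rfl fun lam _ => ?_
      change χ g * (lift Q H lam.1 g⁻¹ * φ g⁻¹) = _
      ring
    rw [h2, ← finsum_eq_sum_of_fintype]
    by_cases hgH : g ∈ H
    · rw [if_pos hgH, (sum_lift hL hgC).1 (Subgroup.inv_mem _ hgH)]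
    · rw [if_neg hgH, (sum_lift hL hgC).2 (fun h => hgH (by
        have := Subgroup.inv_mem _ h
        rwa [inv_inv] at this)), zero_mul]
  rw [Finset.sum_congr rfl h1, ← Finset.sum_filter, Finset.filter_filter]
  have h3 : Finset.univ.filter (fun x : G => x ∈ Q ⊔ H ∧ x ∈ H) =
      Finset.univ.filter (fun x : G => x ∈ H) := by
    ext x
    simp only [Finset.mem_filter, Finset.mem_univ, true_and]
    exact ⟨fun h => h.2, fun h => ⟨(le_sup_right : H ≤ Q ⊔ H) h, h⟩⟩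
  rw [h3, ← Finset.mul_sum, Nat.cast_mul, mul_inv]
  field_simp

theorem over_H (hL : LocC p K Q Z H) {θ φ : G → ℂ} (hθ : θ ∈ IrrS (Q ⊔ H))
    (hφ : φ ∈ IrrSP p (Q ⊔ H)) (h : ip H θ φ ≠ 0) : ∃ lam ∈ IrrS Q, θ = prodC Q H lam φ := by
  have h1 := sum_prodC hL θ φ
  by_contra hcon
  push Not at hcon
  apply h
  rw [← h1]
  apply finsum_eq_zero_of_forall_eq_zero
  rintro ⟨lam, hlam⟩
  change ip (Q ⊔ H) θ (prodC Q H lam φ) = 0
  classical
  rw [ip_irrS hθ (prodC_mem hL hlam hφ.1), if_neg (hcon lam hlam)]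

private theorem cn_inv_mul (hL : LocC p K Q Z H) {lam : G → ℂ} (hl : lam ∈ IrrS Q) :
    (fun x => (lam x)⁻¹ * lam x) = oneS Q := by
  funext x
  unfold oneS
  by_cases hx : x ∈ Q
  · rw [if_pos hx, mul_comm]
    exact (lam_inv_mem hL hl).2 x hx
  · rw [if_neg hx, hl.2 x hx, mul_zero]

theorem ca_exists (hL : LocC p K Q Z H) {θ : G → ℂ} (hθ : θ ∈ IrrSP p (Q ⊔ H)) :
    ∃ lam ∈ IrrS Q, ∃ φ ∈ Ca p Q H, θ = prodC Q H lam φ := by
  classical
  obtain ⟨a, ha2, hqa⟩ := hL.cQ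
  have hp : p.Prime := Fact.out
  have hcop : Nat.Coprime (deg θ) (Nat.card Q) := by
    rw [hqa]
    exact Nat.Coprime.pow_right a ((Nat.Prime.coprime_iff_not_dvd hp).2 hθ.2).symm
  have hQ1 : 1 < Nat.card Q := by
    rw [hqa]
    exact Nat.one_lt_pow (by omega) hp.one_lt
  obtain ⟨k, hk0, hk⟩ : ∃ k : ℕ, k ≠ 0 ∧ Nat.card Q ∣ k * deg θ + 1 := by
    obtain ⟨m, hm⟩ := Nat.exists_mul_mod_eq_one_of_coprime hcop hQ1
    -- `deg θ * m % |Q| = 1`
    refine ⟨m * (Nat.card Q - 1), ?_, ?_⟩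
    · intro h0
      rcases Nat.mul_eq_zero.1 h0 with h1 | h1
      · rw [h1, mul_zero, Nat.zero_mod] at hm
        exact zero_ne_one hm.2
      · omega
    · have h1 : deg θ * m ≡ 1 [MOD Nat.card Q] := by
        change deg θ * m % Nat.card Q = 1 % Nat.card Q
        rw [hm.2, Nat.mod_eq_of_lt hQ1]
      have h2 : m * (Nat.card Q - 1) * deg θ + 1 ≡ 1 * (Nat.card Q - 1) + 1 [MOD Nat.card Q] := by
        apply Nat.ModEq.add_right
        have h3 : m * (Nat.card Q - 1) * deg θ = deg θ * m * (Nat.card Q - 1) := by ring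
        rw [h3]
        exact Nat.ModEq.mul_right _ h1
      have h4 : 1 * (Nat.card Q - 1) + 1 = Nat.card Q := by omega
      rw [h4] at h2
      exact (Nat.modEq_zero_iff_dvd.1 (h2.trans (by
        rw [Nat.modEq_zero_iff_dvd])))
  have hδ := dt_mem hL θ
  set δ := rst Q (dt Q θ) with hδd
  obtain ⟨hδ1, hδm, hδq⟩ := lin_mul hL hδ
  set mu : G → ℂ := fun x => δ x ^ k with hmu
  have hmuS : mu ∈ IrrS Q := by
    refine lin_mem hL ?_ ?_ ?_
    · change δ 1 ^ k = 1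
      rw [hδ1, one_pow]
    · intro x hx y hy
      change δ (x * y) ^ k = δ x ^ k * δ y ^ k
      rw [hδm x hx y hy, mul_pow]
    · intro x hx
      change δ x ^ k = 0
      rw [hδ.2 x hx, zero_pow hk0]
  have hmui := lam_inv_mem hL hmuS
  refine ⟨fun x => (mu x)⁻¹, hmui.1, prodC Q H mu θ, ⟨⟨prodC_mem hL hmuS hθ.1, ?_⟩, ?_⟩, ?_⟩
  · rw [deg_prodC hL hmuS]
    exact hθ.2
  · intro x hx
    have h1 : dt Q (prodC Q H mu θ) x = dt Q (fun x => mu x * θ x) x := by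
      apply dt_congr
      intro y hy
      change lift Q H mu y * θ y = mu y * θ y
      rw [lift_Q hL mu hy]
    rw [h1, dt_twist hL hmuS (nm_irr le_sup_left hθ.1) (cn_deg hθ.1) hx]
    have h2 : dt Q θ x = δ x := by
      rw [hδd, cn_rst _ hx]
    rw [h2]
    change (δ x ^ k) ^ deg θ * δ x = 1
    rw [← pow_mul, ← pow_succ]
    obtain ⟨j, hj⟩ := hk
    rw [hj, pow_mul, hδq x hx, one_pow]
  · rw [prodC_prodC hL]
    have h3 : (fun x => (mu x)⁻¹ * mu x) = oneS Q := cn_inv_mul hL hmuS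
    rw [h3, prodC_one hL (fun x hx => hθ.1.2 x hx)]

theorem prodC_inj (hL : LocC p K Q Z H) {lam lam' φ φ' : G → ℂ} (hl : lam ∈ IrrS Q)
    (hl' : lam' ∈ IrrS Q) (hφ : φ ∈ Ca p Q H) (hφ' : φ' ∈ Ca p Q H)
    (he : prodC Q H lam φ = prodC Q H lam' φ') : lam = lam' ∧ φ = φ' := by
  classical
  obtain ⟨a, ha2, hqa⟩ := hL.cQ
  have hp : p.Prime := Fact.out
  have h0 : prodC Q H (fun x => (lam' x)⁻¹ * lam x) φ = φ' := by
    have h1 := congrArg (prodC Q H (fun x => (lam' x)⁻¹)) he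
    rw [prodC_prodC hL, prodC_prodC hL, cn_inv_mul hL hl',
      prodC_one hL (fun x hx => hφ'.1.1.2 x hx)] at h1
    exact h1
  have hν : (fun x => (lam' x)⁻¹ * lam x) ∈ IrrS Q :=
    lam_mul_mem hL (lam_inv_mem hL hl').1 hl
  obtain ⟨-, -, hνq⟩ := lin_mul hL hν
  have hν1 : ∀ x ∈ Q, (lam' x)⁻¹ * lam x = 1 := by
    intro x hx
    have h1 : dt Q φ' x = dt Q (fun x => ((lam' x)⁻¹ * lam x) * φ x) x := by
      rw [← h0]
      apply dt_congr
      intro y hy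
      change lift Q H (fun x => (lam' x)⁻¹ * lam x) y * φ y = ((lam' y)⁻¹ * lam y) * φ y
      rw [lift_Q hL _ hy]
    have h2 := dt_twist hL hν (nm_irr le_sup_left hφ.1.1) (cn_deg hφ.1.1) hx
    rw [← h1, hφ'.2 x hx, hφ.2 x hx, mul_one] at h2
    have h3 : ((lam' x)⁻¹ * lam x) ^ Nat.card Q = 1 := hνq x hx
    have h4 : ((lam' x)⁻¹ * lam x) ^ deg φ = 1 := h2.symm
    have hcop : Nat.Coprime (Nat.card Q) (deg φ) := by
      rw [hqa]
      exact Nat.Coprime.pow_left a ((Nat.Prime.coprime_iff_not_dvd hp).2 hφ.1.2)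
    have h5 := orderOf_dvd_of_pow_eq_one h3
    have h6 := orderOf_dvd_of_pow_eq_one h4
    have h7 := Nat.dvd_gcd h5 h6
    rw [Nat.Coprime.gcd_eq_one hcop, Nat.dvd_one, orderOf_eq_one_iff] at h7
    exact h7
  have hlam : lam = lam' := by
    funext x
    by_cases hx : x ∈ Q
    · have h1 := hν1 x hx
      have h2 := (lam_inv_mem hL hl').2 x hx
      calc lam x = (lam' x * (lam' x)⁻¹) * lam x := by rw [h2, one_mul]
        _ = lam' x * ((lam' x)⁻¹ * lam x) := by ring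
        _ = lam' x := by rw [h1, mul_one]
    · rw [hl.2 x hx, hl'.2 x hx]
  refine ⟨hlam, ?_⟩
  rw [hlam, cn_inv_mul hL hl', prodC_one hL (fun x hx => hφ.1.1.2 x hx)] at h0
  exact h0

theorem ca_cnj (hL : LocC p K Q Z H) {a : G} (haK : a ∈ Subgroup.normalizer (K : Set G))
    (haZ : a ∈ Subgroup.normalizer (Z : Set G)) {φ : G → ℂ} (hφ : φ ∈ Ca p Q H) :
    cnj a φ ∈ Ca p Q H := by
  obtain ⟨c, hc, b, hb, rfl⟩ := hL.frattini haK haZ
  have hbC : b ∈ Subgroup.normalizer ((Q ⊔ H : Subgroup G) : Set G) :=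
    hL.norm_sup hb.1 (hL.normQ_Z hb.2)
  have h1 : cnj b φ ∈ IrrSP p (Q ⊔ H) := cnj_mem_irrSP hbC hφ.1
  have h2 : cnj (c * b) φ = cnj b φ := by
    rw [← cnj_cnj, cnj_eq_self hc h1.1]
  rw [h2]
  refine ⟨h1, fun x hx => ?_⟩
  rw [dt_cnj hb.2]
  exact hφ.2 _ ((Subgroup.mem_normalizer_iff''.1 hb.2 x).1 hx)

/-- canonical characters are determined by their restriction to `H` -/
theorem ca_ext (hL : LocC p K Q Z H) {φ φ' : G → ℂ} (hφ : φ ∈ Ca p Q H) (hφ' : φ' ∈ Ca p Q H)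
    (h : ∀ x ∈ H, φ x = φ' x) : φ = φ' := by
  classical
  have h1 : ip H φ' φ ≠ 0 := by
    have h2 : ip H φ' φ = ip H (rst H φ) (rst H φ) := by
      apply cn_ip_congr
      · intro x hx
        rw [cn_rst _ hx, h x hx]
      · intro x hx
        rw [cn_rst _ hx]
    rw [h2, ip_irrS (rst_H hL hφ.1) (rst_H hL hφ.1), if_pos rfl]
    exact one_ne_zero
  obtain ⟨lam, hlam, he⟩ := over_H hL hφ'.1.1 hφ.1 h1
  have h3 : prodC Q H (oneS Q) φ' = prodC Q H lam φ := by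
    rw [prodC_one hL (fun x hx => hφ'.1.1.2 x hx)]
    exact he
  exact (prodC_inj hL (Helper97.S4.oneS_mem Q) hlam hφ' hφ h3).2.symm

open Classical in
/-- different canonical characters have different (so orthogonal) restrictions to `H` -/
theorem ip_H (hL : LocC p K Q Z H) {lam φ φ' : G → ℂ} (hl : lam ∈ IrrS Q) (hφ : φ ∈ Ca p Q H)
    (hφ' : φ' ∈ Ca p Q H) : ip H (prodC Q H lam φ) φ' = if φ = φ' then 1 else 0 := by
  have h2 : ip H (prodC Q H lam φ) φ' = ip H (rst H φ) (rst H φ') := by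
    apply cn_ip_congr
    · intro x hx
      change lift Q H lam x * φ x = _
      rw [cn_rst _ hx, lift_H hL hl hx, one_mul]
    · intro x hx
      rw [cn_rst _ hx]
  rw [h2, ip_irrS (rst_H hL hφ.1) (rst_H hL hφ'.1)]
  by_cases he : φ = φ'
  · rw [if_pos he, if_pos (by rw [he])]
  · rw [if_neg he, if_neg]
    intro h3
    apply he
    refine ca_ext hL hφ hφ' fun x hx => ?_
    rw [← cn_rst φ hx, ← cn_rst φ' hx, h3]

open Classical in
theorem ip_prodC (hL : LocC p K Q Z H) {lam lam' φ φ' : G → ℂ} (hl : lam ∈ IrrS Q)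
    (hl' : lam' ∈ IrrS Q) (hφ : φ ∈ Ca p Q H) (hφ' : φ' ∈ Ca p Q H) :
    ip (Q ⊔ H) (prodC Q H lam φ) (prodC Q H lam' φ') =
      if lam = lam' ∧ φ = φ' then 1 else 0 := by
  rw [ip_irrS (prodC_mem hL hl hφ.1.1) (prodC_mem hL hl' hφ'.1.1)]
  by_cases he : lam = lam' ∧ φ = φ'
  · rw [if_pos he, if_pos (by rw [he.1, he.2])]
  · rw [if_neg he, if_neg]
    intro h3
    exact he (prodC_inj hL hl hl' hφ hφ' h3)

theorem stab_prodC (hL : LocC p K Q Z H) {lam φ : G → ℂ} (hl : lam ∈ IrrS Q) (h1 : lam ≠ oneS Q)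
    (hφ : φ ∈ Ca p Q H) {a : G} (haK : a ∈ Subgroup.normalizer (K : Set G))
    (haZ : a ∈ Subgroup.normalizer (Z : Set G)) (ha : cnj a (prodC Q H lam φ) = prodC Q H lam φ) :
    a ∈ Subgroup.centralizer (Z : Set G) ∧ cnj a φ = φ := by
  obtain ⟨c, hc, b, hb, rfl⟩ := hL.frattini haK haZ
  have hbZ := hL.normQ_Z hb.2
  have hbC : b ∈ Subgroup.normalizer ((Q ⊔ H : Subgroup G) : Set G) := hL.norm_sup hb.1 hbZ
  have h2 : cnj b (prodC Q H lam φ) = prodC Q H lam φ := by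
    have h3 := cnj_mem_irrS hbC (prodC_mem hL hl hφ.1.1)
    rw [← cnj_cnj, cnj_eq_self hc h3] at ha
    exact ha
  rw [cnj_prodC hL hb.1 hb.2] at h2
  have hbφ := ca_cnj hL hb.1 hbZ hφ
  obtain ⟨h4, h5⟩ := prodC_inj hL (cnj_mem_irrS hb.2 hl) hl hbφ hφ h2
  have h6 := stab_lam hL hl h1 hb.2 h4
  have h7 : c ∈ Subgroup.centralizer (Z : Set G) := by
    rw [hL.sup] at hc
    exact hc.2
  refine ⟨Subgroup.mul_mem _ h7 h6, ?_⟩
  rw [← cnj_cnj, h5, cnj_eq_self hc hφ.1.1]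

/-- conjugates of `prodC lam φ` by elements of `NN K Z` -/
theorem cnj_prodC_Z (hL : LocC p K Q Z H) {a : G} (haK : a ∈ Subgroup.normalizer (K : Set G))
    (haZ : a ∈ Subgroup.normalizer (Z : Set G)) {lam φ : G → ℂ} (hl : lam ∈ IrrS Q)
    (hφ : φ ∈ IrrS (Q ⊔ H)) :
    ∃ lam' ∈ IrrS Q, (lam ≠ oneS Q → lam' ≠ oneS Q) ∧
      cnj a (prodC Q H lam φ) = prodC Q H lam' (cnj a φ) := by
  obtain ⟨c, hc, b, hb, rfl⟩ := hL.frattini haK haZ
  have hbZ := hL.normQ_Z hb.2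
  have hbC : b ∈ Subgroup.normalizer ((Q ⊔ H : Subgroup G) : Set G) := hL.norm_sup hb.1 hbZ
  refine ⟨cnj b lam, cnj_mem_irrS hb.2 hl, fun h => cnj_ne_oneS hb.2 h, ?_⟩
  have h3 := cnj_mem_irrS hbC (prodC_mem hL hl hφ)
  rw [← cnj_cnj, cnj_eq_self hc h3, ← cnj_cnj, cnj_eq_self hc (cnj_mem_irrS hbC hφ),
    cnj_prodC hL hb.1 hb.2]

/-! ### the numbers `aa` -/

theorem aa_cnj (hL : LocC p K Q Z H) {a : G} (haK : a ∈ Subgroup.normalizer (K : Set G))
    (haQ : a ∈ Subgroup.normalizer (Q : Set G)) (χ lam φ : G → ℂ) :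
    aa Q H (cnj a χ) (cnj a lam) (cnj a φ) = aa Q H χ lam φ := by
  have haC : a ∈ Subgroup.normalizer ((Q ⊔ H : Subgroup G) : Set G) :=
    hL.norm_sup haK (hL.normQ_Z haQ)
  unfold aa
  rw [← cnj_prodC hL haK haQ, ip_cnj haC, ip_cnj haC]

theorem aa_oneS (hL : LocC p K Q Z H) (χ φ : G → ℂ) : aa Q H χ (oneS Q) φ = 0 := by
  unfold aa
  have h1 : ip (Q ⊔ H) χ (prodC Q H (oneS Q) φ) = ip (Q ⊔ H) χ φ := by
    apply cn_ip_congr (fun _ _ => rfl)
    intro x hx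
    change lift Q H (oneS Q) x * φ x = φ x
    rw [lift_oneS hL hx, one_mul]
  rw [h1, sub_self]

/-- the numbers `aa` are integers -/
theorem aa_int (hL : LocC p K Q Z H) {χ lam φ : G → ℂ} (hχ : χ ∈ IrrS K) (hl : lam ∈ IrrS Q)
    (hφ : φ ∈ Ca p Q H) : ∃ m : ℤ, aa Q H χ lam φ = m := by
  have hCK : Q ⊔ H ≤ K := sup_le hL.QK hL.HK
  obtain ⟨m, hm⟩ := ip_res_nat hCK hχ (prodC_mem hL hl hφ.1.1)
  obtain ⟨n, hn⟩ := ip_res_nat hCK hχ hφ.1.1
  refine ⟨(m : ℤ) - n, ?_⟩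
  unfold aa
  rw [hm, hn]
  push_cast
  ring

end Pool.Agent.Helper42.CY
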