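import Pool.Agent.Helper42.IR.KeyApp
import Pool.Agent.Helper42.CY.Can

/-!
# CY-15 (project CY): the key lemma

`key_lemma'` is `key_lemma` of Helper42/IR/KeyLemma.lean without the hypothesis `hQN`, which is not used in its
proof (`key_lemma0`, `key_lemma`): copy these proofs.

`keyO`: `key_lemma'` over `OO p` with `N = normalizer Z`, `T = N ⊓ stab φ`, `e = Eph R H (rst H φ)` (`rst_H`). See
`keyO` in Helper42/IR/KeyApp.lean. `Q ≤ T` (`C_le_stab`). `hfree`: `LocC.tiQ` (`T ≤ N = NN ⊤ Z`). `T` and `N` normalize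
`H` (`norm_H`); for `k ∈ N`: `cnj k (rst H φ) = rst H (cnj k φ)` and `cnj k φ ∈ Ca` (`ca_cnj`), so by `ca_ext`
`cnj k (rst H φ) = rst H φ` iff `cnj k φ = φ`; `Eph_conj`, `Eph_comm`, `Eph_mul_ne`.
`keyO_top`: the same with `T = N`, `e = 1`. `keyK`: over the residue field (`redR` of KeyApp.lean).
`eph_center`, `eph_centerK`: what commutes with all `R h`, `h ∈ H`, commutes with `Eph` (see
`eph_comm_center`, `eph_comm_centerK` in KeyApp.lean).
-/

namespace Pool.Agent.Helper42.CY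

open Pool.Agent.Helper42.INC Pool.Agent.Helper42.IR Pool.Agent.Helper97.S4

private theorem key_lemma0c {A : Type} [CommRing A] {K : Type} [Group K] [Finite K] {n : ℕ}
    (ρ : K →* Matrix (Fin n) (Fin n) A) (Q T N : Subgroup K) (hQT : Q ≤ T) (hTN : T ≤ N)
    (hfree : ∀ k, k ∉ N → ∀ x ∈ Q, k⁻¹ * x * k ∈ T → x = 1)
    (e : Matrix (Fin n) (Fin n) A) (he : e * e = e) (heT : ∀ t ∈ T, ρ t * e = e * ρ t)
    (hort : ∀ k ∈ N, k ∉ T → e * (ρ k * e * ρ k⁻¹) = 0)
    (f : Matrix (Fin n) (Fin n) A) (hef : e * f = f) (hfe : f * e = f)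
    (hfT : ∀ t ∈ T, ρ t * f = f * ρ t) :
    ∃ g b : Matrix (Fin n) (Fin n) A, (∀ k, ρ k * g = g * ρ k) ∧ e * b = b ∧ b * e = b ∧
      f = e * g * e - ∑ᶠ x : Q, ρ (x : K) * b * ρ (x : K)⁻¹ ∧
      g.trace = (T.index : A) * f.trace := by
  classical
  haveI := Fintype.ofFinite K
  haveI := Fintype.ofFinite Q
  haveI := Fintype.ofFinite (K ⧸ T)
  have hinv : ∀ k : K, ρ k * ρ k⁻¹ = 1 := fun k => by
    rw [← map_mul, mul_inv_cancel, map_one]
  have hinv' : ∀ k : K, ρ k⁻¹ * ρ k = 1 := fun k => by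
    rw [← map_mul, inv_mul_cancel, map_one]
  -- the conjugates of `f`
  have hc : ∀ a b : K, (QuotientGroup.leftRel T) a b →
      ρ a * f * ρ a⁻¹ = ρ b * f * ρ b⁻¹ := by
    intro a b hab
    rw [QuotientGroup.leftRel_apply] at hab
    obtain ⟨t, ht⟩ : ∃ t, t = a⁻¹ * b := ⟨_, rfl⟩
    rw [← ht] at hab
    have hb : b = a * t := by rw [ht]; group
    have h1 := hfT _ hab
    rw [hb, map_mul, mul_inv_rev, map_mul ρ t⁻¹]
    calc ρ a * f * ρ a⁻¹ = ρ a * (f * (ρ t * ρ t⁻¹)) * ρ a⁻¹ := by rw [hinv, mul_one]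
      _ = ρ a * ((f * ρ t) * ρ t⁻¹) * ρ a⁻¹ := by rw [mul_assoc f]
      _ = ρ a * ((ρ t * f) * ρ t⁻¹) * ρ a⁻¹ := by rw [h1]
      _ = ρ a * ρ t * f * (ρ t⁻¹ * ρ a⁻¹) := by simp only [mul_assoc]
  let C : K ⧸ T → Matrix (Fin n) (Fin n) A := Quotient.lift (fun k => ρ k * f * ρ k⁻¹) hc
  have hC : ∀ k : K, C (k : K ⧸ T) = ρ k * f * ρ k⁻¹ := fun k => rfl
  have hCs : ∀ (k : K) (q : K ⧸ T), C (k • q) = ρ k * C q * ρ k⁻¹ := by
    intro k q
    obtain ⟨a, rfl⟩ := QuotientGroup.mk_surjective q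
    change C ((k * a : K) : K ⧸ T) = _
    rw [hC, hC, map_mul, mul_inv_rev, map_mul]
    simp only [mul_assoc]
  -- cosets outside `N`
  let S : Set (K ⧸ T) := {q | ∀ a : K, (a : K ⧸ T) = q → a ∉ N}
  have hSmem : ∀ a : K, a ∉ N → (a : K ⧸ T) ∈ S := by
    intro a ha a' ha' ha'N
    rw [QuotientGroup.eq] at ha'
    apply ha
    have : a = a' * (a'⁻¹ * a) := by group
    rw [this]
    exact N.mul_mem ha'N (hTN ha')
  have hSs : ∀ (h : Q) (x : K ⧸ T), x ∈ S → h • x ∈ S := by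
    intro h x hx
    obtain ⟨a, rfl⟩ := QuotientGroup.mk_surjective x
    have ha : a ∉ N := hx a rfl
    change (((h : K) * a : K) : K ⧸ T) ∈ S
    apply hSmem
    intro h1
    apply ha
    have : a = (h : K)⁻¹ * ((h : K) * a) := by group
    rw [this]
    exact N.mul_mem (N.inv_mem (hTN (hQT h.2))) h1
  have hSf : ∀ (h : Q) (x : K ⧸ T), x ∈ S → h • x = x → h = 1 := by
    intro h x hx hh
    obtain ⟨a, rfl⟩ := QuotientGroup.mk_surjective x
    have ha : a ∉ N := hx a rfl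
    change (((h : K) * a : K) : K ⧸ T) = (a : K ⧸ T) at hh
    rw [eq_comm, QuotientGroup.eq] at hh
    have h1 := hfree a ha (h : K) h.2 (by rwa [← mul_assoc] at hh)
    exact Subtype.ext h1
  obtain ⟨Y, hYS, hY⟩ := sum_free_orbits (M := Matrix (Fin n) (Fin n) A) S hSs hSf
  refine ⟨∑ q : K ⧸ T, C q, ∑ᶠ y ∈ Y, e * C y * e, ?_, ?_, ?_, ?_, ?_⟩
  · intro k
    rw [Finset.mul_sum, Finset.sum_mul]
    have h1 : ∀ q : K ⧸ T, ρ k * C q = C (k • q) * ρ k := by
      intro q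
      rw [hCs, mul_assoc, hinv', mul_one]
    rw [Finset.sum_congr rfl (fun q _ => h1 q)]
    exact Equiv.sum_comp (MulAction.toPerm k : Equiv.Perm (K ⧸ T)) (fun q => C q * ρ k)
  · rw [finsum_mem_eq_finite_toFinset_sum _ (Set.toFinite Y), Finset.mul_sum]
    refine Finset.sum_congr rfl fun y _ => ?_
    rw [← mul_assoc, ← mul_assoc, he]
  · rw [finsum_mem_eq_finite_toFinset_sum _ (Set.toFinite Y), Finset.sum_mul]
    refine Finset.sum_congr rfl fun y _ => ?_
    rw [mul_assoc, he]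
  · -- the main identity
    have hx : ∀ x : Q, ρ (x : K) * e = e * ρ (x : K) := fun x => heT _ (hQT x.2)
    have hx' : ∀ x : Q, e * ρ (x : K)⁻¹ = ρ (x : K)⁻¹ * e :=
      fun x => (heT _ (T.inv_mem (hQT x.2))).symm
    have h1 : ∑ᶠ x : Q, ρ (x : K) * (∑ᶠ y ∈ Y, e * C y * e) * ρ (x : K)⁻¹ =
        ∑ᶠ q ∈ S, e * C q * e := by
      rw [hY (fun q => e * C q * e), finsum_mem_eq_finite_toFinset_sum _ (Set.toFinite Y),
        finsum_mem_eq_finite_toFinset_sum _ (Set.toFinite Y), finsum_eq_sum_of_fintype]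
      simp only [finsum_eq_sum_of_fintype]
      rw [Finset.sum_comm]
      refine Finset.sum_congr rfl fun x _ => ?_
      rw [Finset.mul_sum, Finset.sum_mul]
      refine Finset.sum_congr rfl fun y _ => ?_
      change _ = e * C ((x : K) • y) * e
      rw [hCs]
      calc ρ (x : K) * (e * C y * e) * ρ (x : K)⁻¹
          = (ρ (x : K) * e) * C y * (e * ρ (x : K)⁻¹) := by simp only [mul_assoc]
        _ = e * (ρ (x : K) * C y * ρ (x : K)⁻¹) * e := by
            rw [hx, hx']; simp only [mul_assoc]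
    rw [h1, finsum_mem_eq_finite_toFinset_sum _ (Set.toFinite S)]
    have h2 : e * (∑ q : K ⧸ T, C q) * e = ∑ q : K ⧸ T, e * C q * e := by
      rw [Finset.mul_sum, Finset.sum_mul]
    rw [h2]
    have hSd : (Set.toFinite S).toFinset = Finset.univ.filter (fun q => q ∈ S) := by
      ext q; rw [Set.Finite.mem_toFinset, Finset.mem_filter]; simp
    rw [hSd, ← Finset.sum_filter_add_sum_filter_not Finset.univ (fun q => q ∈ S)
      (fun q => e * C q * e), add_sub_cancel_left]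
    rw [Finset.sum_eq_single ((1 : K) : K ⧸ T)]
    · rw [hC, inv_one, map_one, one_mul, mul_one, hef, hfe]
    · intro q hq hq1
      simp only [Finset.mem_filter, Finset.mem_univ, true_and] at hq
      obtain ⟨a, rfl⟩ := QuotientGroup.mk_surjective q
      have haN : a ∈ N := by
        by_contra hcon
        exact hq (hSmem a hcon)
      have haT : a ∉ T := by
        intro hcon
        apply hq1
        rw [QuotientGroup.eq]
        simpa using T.inv_mem hcon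
      rw [hC]
      have h3 := hort a haN haT
      calc e * (ρ a * f * ρ a⁻¹) * e
          = e * (ρ a * (e * f) * ρ a⁻¹) * e := by rw [hef]
        _ = e * (ρ a * e * (ρ a⁻¹ * ρ a) * f * ρ a⁻¹) * e := by
            rw [hinv', mul_one]; simp only [mul_assoc]
        _ = (e * (ρ a * e * ρ a⁻¹)) * (ρ a * f * ρ a⁻¹) * e := by simp only [mul_assoc]
        _ = 0 := by rw [h3, zero_mul, zero_mul]
    · intro hcon
      exfalso
      apply hcon
      simp only [Finset.mem_filter, Finset.mem_univ, true_and]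
      intro h4
      exact h4 1 rfl N.one_mem
  · rw [Matrix.trace_sum]
    have h1 : ∀ q : K ⧸ T, (C q).trace = f.trace := by
      intro q
      obtain ⟨a, rfl⟩ := QuotientGroup.mk_surjective q
      rw [hC, Matrix.trace_mul_comm, ← mul_assoc, hinv', one_mul]
    rw [Finset.sum_congr rfl (fun q _ => h1 q), Finset.sum_const, nsmul_eq_mul, Finset.card_univ,
      ← Nat.card_eq_fintype_card]
    rfl

theorem key_lemma' {A : Type} [CommRing A] {K : Type} [Group K] [Finite K] {n : ℕ}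
    (ρ : K →* Matrix (Fin n) (Fin n) A) (Q T N : Subgroup K) (hQT : Q ≤ T) (hTN : T ≤ N)
    (hfree : ∀ k, k ∉ N → ∀ x ∈ Q, k⁻¹ * x * k ∈ T → x = 1)
    (e : Matrix (Fin n) (Fin n) A) (he : e * e = e) (heT : ∀ t ∈ T, ρ t * e = e * ρ t)
    (hcen : ∀ g : Matrix (Fin n) (Fin n) A, (∀ k, ρ k * g = g * ρ k) → e * g = g * e)
    (hort : ∀ k ∈ N, k ∉ T → e * (ρ k * e * ρ k⁻¹) = 0)
    (f : Matrix (Fin n) (Fin n) A) (hef : e * f = f) (hfe : f * e = f)
    (hfT : ∀ t ∈ T, ρ t * f = f * ρ t) :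
    ∃ g b : Matrix (Fin n) (Fin n) A, (∀ k, ρ k * g = g * ρ k) ∧ e * b = b ∧ b * e = b ∧
      f = e * g - ∑ᶠ x : Q, ρ (x : K) * b * ρ (x : K)⁻¹ ∧
      g.trace = (T.index : A) * f.trace := by
  obtain ⟨g, b, hg, heb, hbe, hf, htr⟩ :=
    key_lemma0c ρ Q T N hQT hTN hfree e he heT hort f hef hfe hfT
  refine ⟨g, b, hg, heb, hbe, ?_, htr⟩
  have h1 : e * g * e = e * g := by
    rw [mul_assoc, ← hcen g hg, ← mul_assoc, he]
  rw [h1] at hf
  exact hf

variable {p : ℕ} [Fact p.Prime] {K : Type} [Group K] [Finite K] {n : ℕ}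
  (R : K →* Matrix (Fin n) (Fin n) (OO p)) {Q Z H : Subgroup K}
  (hL : LocC p (⊤ : Subgroup K) Q Z H)

include hL

private lemma normH_c {k : K} (hk : k ∈ Subgroup.normalizer (Z : Set K)) :
    k ∈ Subgroup.normalizer (H : Set K) := by
  apply hL.norm_H _ hk
  rw [Subgroup.mem_normalizer_iff]
  intro x
  simp

private lemma freeN_c : ∀ k, k ∉ Subgroup.normalizer (Z : Set K) → ∀ x ∈ Q,
    k⁻¹ * x * k ∈ Subgroup.normalizer (Z : Set K) → x = 1 := by
  intro k hk x hx h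
  by_contra hx1
  exact hk (hL.tiQ (Subgroup.mem_top k) hx hx1 ⟨Subgroup.mem_top _, h⟩).2

private lemma Q_le_T_c {φ : K → ℂ} (hφ : φ ∈ Ca p Q H) :
    Q ≤ Subgroup.normalizer (Z : Set K) ⊓ stab φ := by
  intro x hx
  have h1 := hL.C_le_stab hφ.1.1 (Subgroup.mem_sup_left hx)
  exact ⟨h1.1.2, h1.2⟩

theorem rst_cnj {φ : K → ℂ} (hφ : φ ∈ Ca p Q H) {k : K}
    (hk : k ∈ Subgroup.normalizer (Z : Set K)) :
    cnj k (rst H φ) = rst H (cnj k φ) ∧ (cnj k (rst H φ) = rst H φ ↔ cnj k φ = φ) := by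
  classical
  have hkH := normH_c hL hk
  have hkm : ∀ x : K, x ∈ H ↔ k * x * k⁻¹ ∈ H := Subgroup.mem_normalizer_iff.1 hkH
  have hki : ∀ x : K, k⁻¹ * x * k ∈ H ↔ x ∈ H := by
    intro x
    rw [hkm (k⁻¹ * x * k)]
    have : k * (k⁻¹ * x * k) * k⁻¹ = x := by group
    rw [this]
  have h1 : cnj k (rst H φ) = rst H (cnj k φ) := by
    funext x
    rw [cnj_apply]
    unfold rst
    by_cases hx : x ∈ H
    · rw [if_pos hx, if_pos ((hki x).2 hx), cnj_apply]
    · rw [if_neg hx, if_neg (fun h => hx ((hki x).1 h))]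
  refine ⟨h1, ?_, ?_⟩
  · intro h
    rw [h1] at h
    have hkK : k ∈ Subgroup.normalizer ((⊤ : Subgroup K) : Set K) := by
      rw [Subgroup.mem_normalizer_iff]
      intro x
      simp
    refine ca_ext hL (ca_cnj hL hkK hk hφ) hφ ?_
    intro x hx
    have h2 := congrFun h x
    unfold rst at h2
    rw [if_pos hx, if_pos hx] at h2
    exact h2
  · intro h
    rw [h1, h]

theorem eph_center {φ : K → ℂ} (hφ : φ ∈ IrrS H)
    (g : Matrix (Fin n) (Fin n) (OO p)) (hg : ∀ k ∈ H, R k * g = g * R k) :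
    Eph R H φ * g = g * Eph R H φ := by
  classical
  haveI := Fintype.ofFinite H
  apply toC_inj
  rw [toC_mul, toC_mul, toC_Eph R H hL.pH hφ, finsum_eq_sum_of_fintype, Matrix.smul_mul,
    Matrix.mul_smul, Finset.sum_mul, Finset.mul_sum]
  congr 1
  refine Finset.sum_congr rfl fun h _ => ?_
  rw [Matrix.smul_mul, Matrix.mul_smul, ← toC_mul, ← toC_mul, hg h h.2]

theorem eph_centerK {φ : K → ℂ} (hφ : φ ∈ IrrS H)
    (g : Matrix (Fin n) (Fin n) (kk p)) (hg : ∀ k ∈ H, toK (R k) * g = g * toK (R k)) :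
    toK (Eph R H φ) * g = g * toK (Eph R H φ) := by
  classical
  haveI := Fintype.ofFinite H
  have hc : ∀ h : H, ∃ a : OO p, (a : ℂ) =
      ((deg φ : ℂ) * (Nat.card H : ℂ)⁻¹) * φ (h : K)⁻¹ := by
    intro h
    refine ⟨((deg φ : ℕ) : OO p) * ⟨(Nat.card H : ℂ)⁻¹, inv_nat_mem hL.pH⟩ *
      ⟨φ (h : K)⁻¹, irrS_mem_OO hφ _⟩, ?_⟩
    push_cast
    rfl
  choose a ha using hc
  have hE : Eph R H φ = ∑ h : H, a h • R h := by
    apply toC_inj
    rw [toC_Eph R H hL.pH hφ, finsum_eq_sum_of_fintype, toC_sum, Finset.smul_sum]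
    refine Finset.sum_congr rfl fun h _ => ?_
    rw [toC_smul, ha, smul_smul]
  rw [hE, toK_sum, Finset.sum_mul, Finset.mul_sum]
  refine Finset.sum_congr rfl fun h _ => ?_
  rw [toK_smul, Matrix.smul_mul, Matrix.mul_smul, hg h h.2]

private lemma ort_c {φ : K → ℂ} (hφ : φ ∈ Ca p Q H) :
    ∀ k ∈ Subgroup.normalizer (Z : Set K), k ∉ Subgroup.normalizer (Z : Set K) ⊓ stab φ →
      Eph R H (rst H φ) * (R k * Eph R H (rst H φ) * R k⁻¹) = 0 := by
  intro k hk hkT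
  have hkH := normH_c hL hk
  have hkK : k ∈ Subgroup.normalizer ((⊤ : Subgroup K) : Set K) := by
    rw [Subgroup.mem_normalizer_iff]
    intro x
    simp
  have hr := rst_H hL hφ.1
  have h1 := rst_cnj hL hφ hk
  rw [Eph_conj R H hL.pH hr hkH, h1.1]
  apply Eph_mul_ne R H hL.pH hr (rst_H hL (ca_cnj hL hkK hk hφ).1)
  intro h
  apply hkT
  refine ⟨hk, ?_⟩
  change cnj k φ = φ
  apply h1.2.1
  rw [h1.1, ← h]

private lemma comm_c {φ : K → ℂ} (hφ : φ ∈ Ca p Q H) :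
    ∀ t ∈ Subgroup.normalizer (Z : Set K) ⊓ stab φ,
      R t * Eph R H (rst H φ) = Eph R H (rst H φ) * R t := by
  intro t ht
  exact Eph_comm R H hL.pH (rst_H hL hφ.1) (normH_c hL ht.1)
    ((rst_cnj hL hφ ht.1).2.2 ht.2)

theorem keyO (hR : SchurR R) {φ : K → ℂ} (hφ : φ ∈ Ca p Q H)
    (f : Matrix (Fin n) (Fin n) (OO p)) (hef : Eph R H (rst H φ) * f = f)
    (hfe : f * Eph R H (rst H φ) = f)
    (hfT : ∀ t ∈ Subgroup.normalizer (Z : Set K) ⊓ stab φ, R t * f = f * R t) :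
    ∃ (c : OO p) (b : Matrix (Fin n) (Fin n) (OO p)), Eph R H (rst H φ) * b = b ∧
      b * Eph R H (rst H φ) = b ∧ f = c • Eph R H (rst H φ) - trQ R Q b ∧
      c * (n : OO p) = ((Subgroup.normalizer (Z : Set K) ⊓ stab φ).index : OO p) * f.trace := by
  obtain ⟨g, b, hg, heb, hbe, hf, htr⟩ := key_lemma' R Q
    (Subgroup.normalizer (Z : Set K) ⊓ stab φ) (Subgroup.normalizer (Z : Set K))
    (Q_le_T_c hL hφ) inf_le_left
    (fun k hk x hx h => freeN_c hL k hk x hx h.1)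
    (Eph R H (rst H φ)) (Eph_mul_self R H hL.pH (rst_H hL hφ.1))
    (comm_c R hL hφ)
    (fun g hg => eph_center R hL (rst_H hL hφ.1) g (fun k _ => hg k))
    (ort_c R hL hφ)
    f hef hfe hfT
  obtain ⟨c, hc⟩ := scalarR R hR g (fun k => (hg k).symm)
  refine ⟨c, b, heb, hbe, ?_, ?_⟩
  · rw [hf, hc]
    simp only [trQ, Matrix.mul_smul, mul_one]
  · rw [← htr, hc, Matrix.trace_smul, Matrix.trace_one, Fintype.card_fin, smul_eq_mul]

theorem keyO_top (hR : SchurR R) (f : Matrix (Fin n) (Fin n) (OO p))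
    (hfT : ∀ t ∈ Subgroup.normalizer (Z : Set K), R t * f = f * R t) :
    ∃ (c : OO p) (b : Matrix (Fin n) (Fin n) (OO p)),
      f = c • (1 : Matrix (Fin n) (Fin n) (OO p)) - trQ R Q b ∧
      c * (n : OO p) = ((Subgroup.normalizer (Z : Set K)).index : OO p) * f.trace := by
  have hQN : Q ≤ Subgroup.normalizer (Z : Set K) := by
    intro x hx
    exact (hL.sup_le (Subgroup.mem_sup_left hx)).2
  obtain ⟨g, b, hg, heb, hbe, hf, htr⟩ := key_lemma' R Q
    (Subgroup.normalizer (Z : Set K)) (Subgroup.normalizer (Z : Set K))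
    hQN le_rfl
    (fun k hk x hx h => freeN_c hL k hk x hx h)
    1 (one_mul _) (fun t _ => by rw [one_mul, mul_one]) (fun g _ => by rw [one_mul, mul_one])
    (fun k hk hkT => absurd hk hkT)
    f (one_mul _) (mul_one _) hfT
  obtain ⟨c, hc⟩ := scalarR R hR g (fun k => (hg k).symm)
  refine ⟨c, b, ?_, ?_⟩
  · rw [hf, hc, one_mul]
    rfl
  · rw [← htr, hc, Matrix.trace_smul, Matrix.trace_one, Fintype.card_fin, smul_eq_mul]

theorem keyK {φ : K → ℂ} (hφ : φ ∈ Ca p Q H)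
    (f : Matrix (Fin n) (Fin n) (kk p)) (hef : toK (Eph R H (rst H φ)) * f = f)
    (hfe : f * toK (Eph R H (rst H φ)) = f)
    (hfT : ∀ t ∈ Subgroup.normalizer (Z : Set K) ⊓ stab φ, toK (R t) * f = f * toK (R t)) :
    ∃ g b : Matrix (Fin n) (Fin n) (kk p), (∀ k, toK (R k) * g = g * toK (R k)) ∧
      toK (Eph R H (rst H φ)) * b = b ∧ b * toK (Eph R H (rst H φ)) = b ∧
      f = toK (Eph R H (rst H φ)) * g - trQ (redR R) Q b := by
  obtain ⟨g, b, hg, heb, hbe, hf, -⟩ := key_lemma' (redR R) Q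
    (Subgroup.normalizer (Z : Set K) ⊓ stab φ) (Subgroup.normalizer (Z : Set K))
    (Q_le_T_c hL hφ) inf_le_left
    (fun k hk x hx h => freeN_c hL k hk x hx h.1)
    (toK (Eph R H (rst H φ))) (by rw [← toK_mul, Eph_mul_self R H hL.pH (rst_H hL hφ.1)])
    (fun t ht => by
      rw [redR_apply, ← toK_mul, ← toK_mul, comm_c R hL hφ t ht])
    (fun g hg => eph_centerK R hL (rst_H hL hφ.1) g (fun k _ => hg k))
    (by
      intro k hk hkT
      rw [redR_apply, redR_apply, ← toK_mul, ← toK_mul, ← toK_mul, ort_c R hL hφ k hk hkT]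
      ext i j
      simp [toK])
    f hef hfe hfT
  exact ⟨g, b, hg, heb, hbe, hf⟩

end Pool.Agent.Helper42.CY
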