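import Pool.Agent.Helper42.CY.Can

/-!
# CY-11 (project CY): the norm and the degree relation

`θ_lam = prodC Q H lam φ - φ` vanishes off `C = Q ⊔ H` and on `H` (`lift_H`), and
`aa Q H χ lam φ = ip C χ θ_lam`. `N = NN K Z`.

* `norm`: `mackey` for `L = C ≤ J = K`, `θ = θ_lam`, `θ' = θ_lam'`. For `k ∈ K \ N` the term
  `ip C (cnj k θ_lam') θ_lam` vanishes: a nonzero summand has `x ∈ C \ H`, `k⁻¹ x k ∈ C \ H` (values at `x⁻¹`
  and `k⁻¹ x k`), so `k ∈ N` by `LocC.ti`. For `k ∈ N`, `cnj k θ_lam' = prodC lam'' (cnj k φ) - cnj k φ` with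
  `lam'' ≠ oneS Q` (`cnj_prodC_Z`), `cnj k φ ∈ Ca`, and by `ip_prodC` (and `prodC_one`)
  `ip C (cnj k θ_lam') θ_lam = [cnj k (prodC lam' φ) = prodC lam φ] + [cnj k φ = φ]`. So the sum is
  `|C|⁻¹ #{k ∈ N | cnj k φ = φ} + |C|⁻¹ #{k ∈ N | cnj k (prodC lam' φ) = prodC lam φ}`. The first term is
  `|N ⊓ stab φ| / |C| = (Q ⊔ H).relIndex (NN K Q ⊓ stab φ)` (`ee_eq`). The second set is empty or a coset of
  the stabilizer of `prodC lam φ` in `N`, which is `C` (`stab_prodC`; `C_le_stab`); it is nonempty iff (by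
  `frattini'` and `prodC_inj`) there is `n ∈ NN K Q` with `cnj n φ = φ`, `cnj n lam = lam'` (inverse of
  `k`).
* `regular`: `∑ χ, ip C χ θ_lam * χ 1 = |C|⁻¹ ∑_{x ∈ C} θ_lam x⁻¹ ∑ χ, χ x * χ 1` and by `orth_col` (`y = 1`) only
  `x = 1` contributes, where `θ_lam 1 = 0`.
-/

namespace Pool.Agent.Helper42.CY

open Pool.Agent.Helper42.INC Pool.Agent.Helper42.IR Pool.Agent.Helper97.S4

variable {G : Type} [Group G] [Finite G] {p : ℕ} [Fact p.Prime] {K Q Z H : Subgroup G}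

private theorem nc_ip (L : Subgroup G) [Fintype L] (f g : G → ℂ) :
    ip L f g = (Nat.card L : ℂ)⁻¹ * ∑ x : L, f (x : G) * g (x : G)⁻¹ := by
  unfold ip
  rw [B_eq]
  rfl

private theorem nc_sub_left (L : Subgroup G) (f f' g : G → ℂ) :
    ip L (fun x => f x - f' x) g = ip L f g - ip L f' g := by
  unfold ip
  exact B_sub_left (fun h : L => f h) (fun h : L => f' h) (fun h : L => g h)

private theorem nc_sub_right (L : Subgroup G) (f f' g : G → ℂ) :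
    ip L g (fun x => f x - f' x) = ip L g f - ip L g f' := by
  rw [ip_symm, nc_sub_left, ip_symm L f, ip_symm L f']

theorem aa_eq_ip (hL : LocC p K Q Z H) (χ lam φ : G → ℂ) :
    aa Q H χ lam φ = ip (Q ⊔ H) χ (fun g => prodC Q H lam φ g - φ g) := by
  unfold aa
  rw [nc_sub_right]

private theorem nc_off {φ : G → ℂ} (hφ : φ ∈ IrrS (Q ⊔ H)) (lam : G → ℂ) {x : G}
    (hx : x ∉ Q ⊔ H) : prodC Q H lam φ x - φ x = 0 := by
  unfold prodC
  rw [hφ.2 x hx, mul_zero, sub_zero]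

private theorem nc_H (hL : LocC p K Q Z H) {lam : G → ℂ} (hl : lam ∈ IrrS Q) (φ : G → ℂ) {x : G}
    (hx : x ∈ H) : prodC Q H lam φ x - φ x = 0 := by
  unfold prodC
  rw [lift_H hL hl hx, one_mul, sub_self]

open Classical in
private theorem nc_term (hL : LocC p K Q Z H) {φ lam lam' : G → ℂ} (hφ : φ ∈ Ca p Q H)
    (hl : lam ∈ IrrS Q) (hl' : lam' ∈ IrrS Q) (h1 : lam ≠ oneS Q) (h1' : lam' ≠ oneS Q) {k : G}
    (hk : k ∈ K) :
    ip (Q ⊔ H) (cnj k (fun g => prodC Q H lam' φ g - φ g))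
        (fun g => prodC Q H lam φ g - φ g) =
      (if k ∈ NN K Z ∧ cnj k (prodC Q H lam' φ) = prodC Q H lam φ then 1 else 0) +
        (if k ∈ NN K Z ⊓ stab φ then 1 else 0) := by
  by_cases hN : k ∈ NN K Z
  · have hkK : k ∈ Subgroup.normalizer (K : Set G) := Subgroup.le_normalizer hk
    have hkZ : k ∈ Subgroup.normalizer (Z : Set G) := hN.2
    obtain ⟨mu, hmu, hmu1, he⟩ := cnj_prodC_Z hL hkK hkZ hl' hφ.1.1
    have hc : cnj k (fun g => prodC Q H lam' φ g - φ g) =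
        fun g => prodC Q H mu (cnj k φ) g - cnj k φ g := by
      rw [← he]
      rfl
    rw [hc, nc_sub_left, nc_sub_right, nc_sub_right]
    have hφk := ca_cnj hL hkK hkZ hφ
    have e1 : ip (Q ⊔ H) (prodC Q H mu (cnj k φ)) (prodC Q H lam φ) =
        if cnj k (prodC Q H lam' φ) = prodC Q H lam φ then 1 else 0 := by
      rw [he, ip_irrS (prodC_mem hL hmu hφk.1.1) (prodC_mem hL hl hφ.1.1)]
    have e2 : ip (Q ⊔ H) (prodC Q H mu (cnj k φ)) φ = 0 := by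
      have := ip_prodC hL hmu (Pool.Agent.Helper97.S4.oneS_mem Q) hφk hφ
      rw [prodC_one hL hφ.1.1.2, if_neg (fun h => hmu1 h1' h.1)] at this
      exact this
    have e3 : ip (Q ⊔ H) (cnj k φ) (prodC Q H lam φ) = 0 := by
      have := ip_prodC hL (Pool.Agent.Helper97.S4.oneS_mem Q) hl hφk hφ
      rw [prodC_one hL hφk.1.1.2, if_neg (fun h => h1 h.1.symm)] at this
      exact this
    have e4 : ip (Q ⊔ H) (cnj k φ) φ = if cnj k φ = φ then 1 else 0 := ip_irrS hφk.1.1 hφ.1.1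
    rw [e1, e2, e3, e4]
    have m : k ∈ NN K Z ⊓ stab φ ↔ cnj k φ = φ := ⟨fun h => h.2, fun h => ⟨hN, h⟩⟩
    simp only [m, hN, true_and]
    ring
  · rw [if_neg (fun h => hN h.1), if_neg (fun h => hN h.1), add_zero]
    have := Fintype.ofFinite (Q ⊔ H : Subgroup G)
    rw [nc_ip, Finset.sum_eq_zero, mul_zero]
    rintro ⟨x, hx⟩ -
    change cnj k (fun g => prodC Q H lam' φ g - φ g) x *
      (prodC Q H lam φ x⁻¹ - φ x⁻¹) = 0
    by_cases hxH : x ∈ H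
    · rw [nc_H hL hl φ (H.inv_mem hxH), mul_zero]
    · have h2 : k⁻¹ * x * k ∉ Q ⊔ H := fun h => hN (hL.ti hk hx hxH h)
      have h3 : cnj k (fun g => prodC Q H lam' φ g - φ g) x = 0 := nc_off hφ.1.1 lam' h2
      rw [h3, zero_mul]

omit [Finite G] [Fact p.Prime] in
private theorem nc_CK (hL : LocC p K Q Z H) : Q ⊔ H ≤ K := by
  rw [hL.sup]
  exact inf_le_left

open Classical in
/-- the number of `k ∈ NN K Z` with `cnj k (prodC lam' φ) = prodC lam φ` -/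
private theorem nc_count (hL : LocC p K Q Z H) {φ lam lam' : G → ℂ} (hφ : φ ∈ Ca p Q H)
    (hl : lam ∈ IrrS Q) (hl' : lam' ∈ IrrS Q) (h1 : lam ≠ oneS Q) :
    (Nat.card {k : G // k ∈ NN K Z ∧ cnj k (prodC Q H lam' φ) = prodC Q H lam φ} : ℂ) =
      (Nat.card (Q ⊔ H : Subgroup G) : ℂ) *
        (if ∃ n ∈ NN K Q, cnj n φ = φ ∧ cnj n lam = lam' then 1 else 0) := by
  by_cases hex : ∃ n ∈ NN K Q, cnj n φ = φ ∧ cnj n lam = lam'
  · rw [if_pos hex, mul_one]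
    obtain ⟨n, hn, hn1, hn2⟩ := hex
    have hnN : n ∈ NN K Z := hL.NNQ_le hn
    have hnK : n ∈ Subgroup.normalizer (K : Set G) := Subgroup.le_normalizer hn.1
    have hcn : cnj n (prodC Q H lam φ) = prodC Q H lam' φ := by
      rw [cnj_prodC hL hnK hn.2, hn1, hn2]
    congr 1
    refine Nat.card_congr ⟨fun k => ⟨k.1 * n, ?_⟩, fun c => ⟨c.1 * n⁻¹, ?_, ?_⟩, ?_, ?_⟩
    · have hkN : k.1 * n ∈ NN K Z := Subgroup.mul_mem _ k.2.1 hnN
      have h2 : cnj (k.1 * n) (prodC Q H lam φ) = prodC Q H lam φ := by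
        rw [← cnj_cnj, hcn, k.2.2]
      have h3 := (stab_prodC hL hl h1 hφ (Subgroup.le_normalizer hkN.1) hkN.2 h2).1
      rw [hL.sup]
      exact ⟨hkN.1, h3⟩
    · exact Subgroup.mul_mem _ (hL.sup_le c.2) (Subgroup.inv_mem _ hnN)
    · rw [← cnj_cnj, ← hcn, cnj_inv_cnj, cnj_eq_self c.2 (prodC_mem hL hl hφ.1.1)]
    · intro k
      apply Subtype.ext
      simp
    · intro c
      apply Subtype.ext
      simp
  · rw [if_neg hex, mul_zero]
    have : IsEmpty {k : G // k ∈ NN K Z ∧ cnj k (prodC Q H lam' φ) = prodC Q H lam φ} := by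
      refine ⟨fun k => hex ?_⟩
      obtain ⟨k, hk, hk2⟩ := k
      obtain ⟨c, hc, b, hb, rfl⟩ := hL.frattini' hk
      have hbK : b ∈ Subgroup.normalizer (K : Set G) := Subgroup.le_normalizer hb.1
      have h2 : cnj b (prodC Q H lam' φ) = prodC Q H lam φ := by
        have h3 := congrArg (cnj c⁻¹) hk2
        rw [← cnj_cnj, cnj_inv_cnj] at h3
        rw [h3, cnj_eq_self (Subgroup.inv_mem _ hc) (prodC_mem hL hl hφ.1.1)]
      rw [cnj_prodC hL hbK hb.2] at h2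
      obtain ⟨h3, h4⟩ := prodC_inj hL (cnj_mem_irrS hb.2 hl') hl
        (ca_cnj hL hbK (hL.normQ_Z hb.2) hφ) hφ h2
      refine ⟨b⁻¹, Subgroup.inv_mem _ hb, ?_, ?_⟩
      · nth_rewrite 1 [← h4]
        exact cnj_inv_cnj b φ
      · rw [← h3]
        exact cnj_inv_cnj b lam'
    rw [Nat.card_of_isEmpty]
    simp

open Classical in
theorem norm (hL : LocC p K Q Z H) {φ lam lam' : G → ℂ} (hφ : φ ∈ Ca p Q H) (hl : lam ∈ IrrS Q)
    (hl' : lam' ∈ IrrS Q) (h1 : lam ≠ oneS Q) (h1' : lam' ≠ oneS Q) :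
    ∑ᶠ χ : IrrS K, aa Q H χ.1 lam φ * aa Q H χ.1 lam' φ =
      ((Q ⊔ H).relIndex (NN K Q ⊓ stab φ) : ℂ) +
        (if ∃ n ∈ NN K Q, cnj n φ = φ ∧ cnj n lam = lam' then 1 else 0) := by
  have hc0 : (Nat.card (Q ⊔ H : Subgroup G) : ℂ) ≠ 0 := by exact_mod_cast Nat.card_pos.ne'
  simp only [aa_eq_ip hL]
  rw [mackey (nc_CK hL) _ _ (fun x hx => nc_off hφ.1.1 lam' hx)]
  rw [finsum_congr fun k : K => nc_term hL hφ hl hl' h1 h1' k.2]
  have := Fintype.ofFinite K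
  rw [finsum_eq_sum_of_fintype, Finset.sum_add_distrib, Finset.sum_boole, Finset.sum_boole]
  have s1 : ((Finset.univ.filter fun k : K => (k : G) ∈ NN K Z ∧
      cnj (k : G) (prodC Q H lam' φ) = prodC Q H lam φ).card : ℂ) =
      (Nat.card {k : G // k ∈ NN K Z ∧ cnj k (prodC Q H lam' φ) = prodC Q H lam φ} : ℂ) := by
    rw [← Fintype.card_subtype, ← Nat.card_eq_fintype_card]
    congr 1
    refine Nat.card_congr ⟨fun k => ⟨k.1.1, k.2⟩, fun k => ⟨⟨k.1, k.2.1.1⟩, k.2⟩, ?_, ?_⟩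
    · intro k
      rfl
    · intro k
      rfl
  have s2 : ((Finset.univ.filter fun k : K => (k : G) ∈ NN K Z ⊓ stab φ).card : ℂ) =
      (Nat.card (NN K Z ⊓ stab φ : Subgroup G) : ℂ) := by
    rw [← Fintype.card_subtype, ← Nat.card_eq_fintype_card]
    congr 1
    refine Nat.card_congr ⟨fun k => ⟨k.1.1, k.2⟩, fun k => ⟨⟨k.1, k.2.1.1⟩, k.2⟩, ?_, ?_⟩
    · intro k
      rfl
    · intro k
      rfl
  have s3 : Nat.card (Q ⊔ H : Subgroup G) * (Q ⊔ H).relIndex (NN K Z ⊓ stab φ) =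
      Nat.card (NN K Z ⊓ stab φ : Subgroup G) := by
    have h4 := Subgroup.relIndex_mul_relIndex ⊥ (Q ⊔ H) (NN K Z ⊓ stab φ) bot_le
      (hL.C_le_stab hφ.1.1)
    rw [Subgroup.relIndex_bot_left, Subgroup.relIndex_bot_left] at h4
    exact h4
  have s4 : (Q ⊔ H).relIndex (NN K Q ⊓ stab φ) = (Q ⊔ H).relIndex (NN K Z ⊓ stab φ) :=
    hL.ee_eq hφ.1.1
  rw [s1, s2, nc_count hL hφ hl hl' h1, ← s3, s4]
  push_cast
  field_simp
  ring

theorem regular (hL : LocC p K Q Z H) {φ lam : G → ℂ} (hφ : φ ∈ Ca p Q H) (hl : lam ∈ IrrS Q) :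
    ∑ᶠ χ : IrrS K, aa Q H χ.1 lam φ * χ.1 1 = 0 := by
  classical
  have := (irrS_finite K).fintype
  have := Fintype.ofFinite (Q ⊔ H : Subgroup G)
  simp only [aa_eq_ip hL, nc_ip]
  rw [finsum_eq_sum_of_fintype]
  have h2 : ∀ χ : IrrS K, (Nat.card (Q ⊔ H : Subgroup G) : ℂ)⁻¹ *
      (∑ x : (Q ⊔ H : Subgroup G), χ.1 (x : G) *
        (prodC Q H lam φ (x : G)⁻¹ - φ (x : G)⁻¹)) * χ.1 1 =
      ∑ x : (Q ⊔ H : Subgroup G), (Nat.card (Q ⊔ H : Subgroup G) : ℂ)⁻¹ *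
        (prodC Q H lam φ (x : G)⁻¹ - φ (x : G)⁻¹) * (χ.1 (x : G) * χ.1 1) := by
    intro χ
    rw [mul_assoc, Finset.sum_mul, Finset.mul_sum]
    refine Finset.sum_congr rfl fun x _ => ?_
    ring
  rw [Finset.sum_congr rfl fun χ _ => h2 χ, Finset.sum_comm]
  refine Finset.sum_eq_zero fun x _ => ?_
  rw [← Finset.mul_sum]
  by_cases hx : (x : G) = 1
  · rw [hx, inv_one, nc_H hL hl φ H.one_mem]
    ring
  · have h3 := orth_col K (nc_CK hL x.2) K.one_mem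
    rw [finsum_eq_sum_of_fintype] at h3
    rw [h3]
    have : IsEmpty {k : G // k ∈ K ∧ k * (x : G) * k⁻¹ = 1⁻¹} := by
      refine ⟨fun k => hx ?_⟩
      have h5 : (k : G) * (x : G) * (k : G)⁻¹ = 1 := k.2.2.trans inv_one
      rwa [conj_eq_one_iff] at h5
    have h6 : Nat.card {k : G // k ∈ K ∧ k * (x : G) * k⁻¹ = 1⁻¹} = 0 := Nat.card_of_isEmpty
    rw [h6, Nat.cast_zero, mul_zero]

end Pool.Agent.Helper42.CY
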