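import Pool.Agent.Helper42.CY.Coh0
import Pool.Agent.Helper42.CY.NormC

/-!
# CY-13 (project CY): the shape of the multiplicities, first part

`φ ∈ Ca p Q H`. Let `Λ` be the finite type of the nontrivial `lam ∈ IrrS Q` (`|Q| - 1` elements, `card_irrS`)
and `r` the equivalence relation `Cj K Q φ` on it (conjugate under `NN K Q ⊓ stab φ`, see S4/Defs.lean).
* `class_le`: each class has at most `e = ee K Q H φ` elements: the stabilizer of `lam` in
  `S = NN K Q ⊓ stab φ` contains `S ⊓ (Q ⊔ H)` (elements of `Q ⊔ H` normalizing `Q` fix `lift Q H lam`,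
  `lift_conj`, so `lam` by `cnj_lift`, `lift_inj`), so the class is the image of `S / (S ⊓ (Q ⊔ H))`, which
  has `e` elements.
* so the number `X` of classes satisfies `X e ≥ |Q| - 1 ≥ p ^ 2 - 1`, `e ≤ p - 1` (`ee_lt`), so `X ≥ p + 1 ≥ e + 2`.
* `coh`: for each class choose a representative `lam_i`; `v i χ` = the integer `aa Q H χ lam_i φ` (`aa_int`),
  `J = IrrS K`. `norm` gives the Gram matrix (for different classes the condition in `norm` fails),
  `regular` the orthogonality to `d χ = deg χ > 0`. `coh0`. In the first case `aa Q H χ lam φ = u` for all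
  nontrivial `lam`, since `aa Q H χ lam φ = aa Q H χ lam_i φ` for `lam` in the class `i` (`aa_cnj` with
  `cnj n χ = χ` for `n ∈ NN K Q ≤ K`). In the second case take `l0 = lam_i0`.
-/

namespace Pool.Agent.Helper42.CY

open Pool.Agent.Helper42.INC Pool.Agent.Helper42.IR Pool.Agent.Helper97.S4

variable {G : Type} [Group G] [Finite G] {p : ℕ} [Fact p.Prime] {K Q Z H : Subgroup G}

/-- the multiplicities are invariant under `NN K Q ⊓ stab φ` -/
theorem aa_Cj (hL : LocC p K Q Z H) {χ : G → ℂ} (hχ : χ ∈ IrrS K) {φ lam lam' : G → ℂ}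
    (h : Cj K Q φ lam lam') : aa Q H χ lam' φ = aa Q H χ lam φ := by
  obtain ⟨n, hn, h1, h2⟩ := h
  have hnK : n ∈ K := hn.1
  have h3 := aa_cnj hL (Subgroup.le_normalizer hnK) hn.2 χ lam φ
  rw [cnj_eq_self hnK hχ, h1, h2] at h3
  exact h3

omit [Finite G] in
private theorem coh_refl (φ lam : G → ℂ) : Cj K Q φ lam lam :=
  ⟨1, Subgroup.one_mem _, cnj_one φ, cnj_one lam⟩

omit [Finite G] in
private theorem coh_symm {φ lam lam' : G → ℂ} (h : Cj K Q φ lam lam') : Cj K Q φ lam' lam := by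
  obtain ⟨n, hn, h1, h2⟩ := h
  refine ⟨n⁻¹, Subgroup.inv_mem _ hn, ?_, ?_⟩
  · nth_rewrite 1 [← h1]; exact cnj_inv_cnj n φ
  · nth_rewrite 1 [← h2]; exact cnj_inv_cnj n lam

omit [Finite G] in
private theorem coh_trans {φ lam lam' lam'' : G → ℂ} (h : Cj K Q φ lam lam')
    (h' : Cj K Q φ lam' lam'') : Cj K Q φ lam lam'' := by
  obtain ⟨n, hn, h1, h2⟩ := h
  obtain ⟨m, hm, h3, h4⟩ := h'
  refine ⟨m * n, Subgroup.mul_mem _ hm hn, ?_, ?_⟩
  · rw [← cnj_cnj, h1, h3]
  · rw [← cnj_cnj, h2, h4]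

/-- elements of `NN K Q` in `Q ⊔ H` fix the characters of `Q` -/
private theorem coh_fix (hL : LocC p K Q Z H) {lam : G → ℂ} (hl : lam ∈ IrrS Q) {c : G}
    (hc : c ∈ NN K Q) (hcC : c ∈ Q ⊔ H) : cnj c lam = lam := by
  have h1 := cnj_lift hL hc.2 (hL.norm_C hcC) lam
  rw [lift_conj hL hl hcC] at h1
  exact (lift_inj hL hl (cnj_mem_irrS hc.2 hl) (fun x _ => congrFun h1 x)).symm

/-- the classes have at most `e` elements -/
private theorem coh_class (hL : LocC p K Q Z H) {φ lam : G → ℂ} (hl : lam ∈ IrrS Q) :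
    {lam' | Cj K Q φ lam lam'}.ncard ≤ ee K Q H φ := by
  classical
  set S : Subgroup G := NN K Q ⊓ stab φ with hS
  have hf : ∀ a b : S, (QuotientGroup.leftRel ((Q ⊔ H).subgroupOf S)) a b →
      cnj (a : G) lam = cnj (b : G) lam := by
    intro a b hab
    rw [QuotientGroup.leftRel_apply, Subgroup.mem_subgroupOf] at hab
    have h1 : ((a⁻¹ * b : S) : G) = (a : G)⁻¹ * (b : G) := rfl
    rw [h1] at hab
    have h2 : (a : G)⁻¹ * (b : G) ∈ NN K Q :=
      Subgroup.mul_mem _ (Subgroup.inv_mem _ a.2.1) b.2.1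
    have h3 := coh_fix hL hl h2 hab
    have h4 : (b : G) = (a : G) * ((a : G)⁻¹ * (b : G)) := by group
    rw [h4, ← cnj_cnj, h3]
  set f : S ⧸ ((Q ⊔ H).subgroupOf S) → (G → ℂ) := Quotient.lift (fun a : S => cnj (a : G) lam) hf
    with hfd
  have h1 : {lam' | Cj K Q φ lam lam'} ⊆ Set.range f := by
    rintro lam' ⟨n, hn, h2, h3⟩
    exact ⟨QuotientGroup.mk (⟨n, hn, h2⟩ : S), h3⟩
  have h2 : {lam' | Cj K Q φ lam lam'}.ncard ≤ (Set.range f).ncard :=
    Set.ncard_le_ncard h1 (Set.toFinite _)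
  have h3 : (Set.range f).ncard ≤ Nat.card (S ⧸ ((Q ⊔ H).subgroupOf S)) := by
    rw [← Set.image_univ, ← Set.ncard_univ]
    exact Set.ncard_image_le (Set.toFinite _)
  exact h2.trans h3

/-- the nontrivial characters of `Q` -/
private abbrev cohL (Q : Subgroup G) : Type := {lam : G → ℂ // lam ∈ IrrS Q ∧ lam ≠ oneS Q}

private theorem cohL_fin (Q : Subgroup G) : Finite (cohL Q) :=
  Set.Finite.to_subtype ((irrS_finite Q).subset (fun _ h => h.1))

private theorem cohL_card (hL : LocC p K Q Z H) : Nat.card (cohL Q) + 1 = Nat.card Q := by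
  classical
  have h0 : (IrrS Q).Finite := irrS_finite Q
  have h1 : Nat.card (cohL Q) = (IrrS Q \ {oneS Q}).ncard := by
    rw [← Nat.card_coe_set_eq]
    rfl
  rw [h1, Set.ncard_sdiff_singleton_add_one (Pool.Agent.Helper97.S4.oneS_mem Q) h0, ← card_irrS hL,
    Nat.card_coe_set_eq]

private def cohR (K Q : Subgroup G) (φ : G → ℂ) : Setoid (cohL Q) where
  r a b := Cj K Q φ a.1 b.1
  iseqv := ⟨fun a => coh_refl φ a.1, fun h => coh_symm h, fun h h' => coh_trans h h'⟩

private theorem coh_count (hL : LocC p K Q Z H) (φ : G → ℂ) :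
    ee K Q H φ + 2 ≤ Nat.card (Quotient (cohR K Q φ)) := by
  classical
  have hfin : Finite (cohL Q) := cohL_fin Q
  have := Fintype.ofFinite (cohL Q)
  have : Fintype (Quotient (cohR K Q φ)) := Fintype.ofFinite _
  have h1 : Fintype.card (cohL Q) ≤ ee K Q H φ * Fintype.card (Quotient (cohR K Q φ)) := by
    rw [← Finset.card_univ, ← Finset.card_univ]
    refine Finset.card_le_mul_card_image_of_maps_to (f := fun a : cohL Q => (Quotient.mk (cohR K Q φ) a))
      (fun a _ => Finset.mem_univ _) _ ?_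
    intro b _
    obtain ⟨a, rfl⟩ := Quotient.exists_rep b
    have h2 : ({x ∈ (Finset.univ : Finset (cohL Q)) | Quotient.mk (cohR K Q φ) x =
        Quotient.mk (cohR K Q φ) a}).card ≤ {lam' | Cj K Q φ a.1 lam'}.ncard := by
      rw [← Set.ncard_coe_finset, ← Set.ncard_image_of_injective _ Subtype.val_injective]
      refine Set.ncard_le_ncard ?_ ?_
      · rintro _ ⟨x, hx, rfl⟩
        have h3 : Quotient.mk (cohR K Q φ) x = Quotient.mk (cohR K Q φ) a := by
          simpa using hx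
        exact coh_symm (Quotient.exact h3)
      · refine Set.Finite.subset (irrS_finite Q) ?_
        rintro lam' ⟨n, hn, h3, h4⟩
        rw [← h4]
        exact cnj_mem_irrS hn.2 a.2.1
    exact h2.trans (coh_class hL a.2.1)
  have h2 := cohL_card hL
  rw [Nat.card_eq_fintype_card] at h2 ⊢
  have h3 := hL.ee_lt φ
  obtain ⟨a, ha, hQ⟩ := hL.cQ
  have hp := (Fact.out : p.Prime).two_le
  have h4 : p ^ 2 ≤ p ^ a := Nat.pow_le_pow_right (by omega) ha
  rw [hQ] at h2
  set e := ee K Q H φ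
  set X := Fintype.card (Quotient (cohR K Q φ))
  by_contra hlt
  push Not at hlt
  have h5 : e * X ≤ (p - 1) * (p) := Nat.mul_le_mul (by omega) (by omega)
  obtain ⟨q, rfl⟩ : ∃ q, p = q + 1 := ⟨p - 1, by omega⟩
  simp only [Nat.add_sub_cancel] at h5
  nlinarith

theorem coh (hL : LocC p K Q Z H) {φ : G → ℂ} (hφ : φ ∈ Ca p Q H) {χ : G → ℂ}
    (hχ : χ ∈ IrrS K) :
    (∃ u : ℤ, u ^ 2 ≤ (ee K Q H φ : ℤ) ∧ ∀ lam ∈ IrrS Q, lam ≠ oneS Q → aa Q H χ lam φ = u) ∨
      ∃ ε : ℂ, (ε = 1 ∨ ε = -1) ∧ ∃ l0 ∈ IrrS Q, l0 ≠ oneS Q ∧ EX K Q H χ φ l0 ε := by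
  classical
  have hfin : Finite (cohL Q) := cohL_fin Q
  have : Fintype (Quotient (cohR K Q φ)) := Fintype.ofFinite _
  have hfinK : Finite (IrrS K) := (irrS_finite K).to_subtype
  have : Fintype (IrrS K) := Fintype.ofFinite _
  have hex : ∀ (i : Quotient (cohR K Q φ)) (χ : IrrS K), ∃ m : ℤ, aa Q H χ.1 i.out.1 φ = m :=
    fun i χ => aa_int hL χ.2 i.out.2.1 hφ
  choose v hv using hex
  have hI : ee K Q H φ + 2 ≤ Fintype.card (Quotient (cohR K Q φ)) := by
    rw [← Nat.card_eq_fintype_card]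
    exact coh_count hL φ
  have hcls : ∀ (a : G → ℂ) (ha : a ∈ IrrS Q ∧ a ≠ oneS Q),
      Cj K Q φ (Quotient.mk (cohR K Q φ) ⟨a, ha⟩).out.1 a := fun a ha =>
    Quotient.exact (Quotient.out_eq (Quotient.mk (cohR K Q φ) ⟨a, ha⟩))
  have hg : ∀ i j, ∑ χ, v i χ * v j χ = (ee K Q H φ : ℤ) + (if i = j then 1 else 0) := by
    intro i j
    have h1 := norm hL hφ i.out.2.1 j.out.2.1 i.out.2.2 j.out.2.2
    rw [finsum_eq_sum_of_fintype] at h1
    have h2 : (∃ n ∈ NN K Q, cnj n φ = φ ∧ cnj n i.out.1 = j.out.1) ↔ i = j := by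
      constructor
      · intro h3
        have h4 : Quotient.mk (cohR K Q φ) i.out = Quotient.mk (cohR K Q φ) j.out :=
          Quotient.sound h3
        rwa [Quotient.out_eq, Quotient.out_eq] at h4
      · rintro rfl
        exact coh_refl φ _
    have h3 : (∑ χ, (v i χ : ℂ) * (v j χ : ℂ)) = (ee K Q H φ : ℂ) + (if i = j then 1 else 0) := by
      rw [Finset.sum_congr rfl (fun χ _ => by rw [← hv i χ, ← hv j χ]), h1]
      simp only [h2]
      rfl
    have h4 : ((∑ χ, v i χ * v j χ : ℤ) : ℂ) = (((ee K Q H φ : ℤ) + (if i = j then 1 else 0) : ℤ) : ℂ) := by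
      push_cast
      rw [h3]
    exact_mod_cast h4
  have hr : ∀ i, ∑ χ : IrrS K, v i χ * (deg χ.1 : ℤ) = 0 := by
    intro i
    have h1 := regular hL hφ i.out.2.1
    rw [finsum_eq_sum_of_fintype] at h1
    have h2 : ((∑ χ : IrrS K, v i χ * (deg χ.1 : ℤ) : ℤ) : ℂ) = 0 := by
      push_cast
      rw [← h1]
      refine Finset.sum_congr rfl (fun χ _ => ?_)
      rw [hv i χ, irrS_deg χ.2]
    exact_mod_cast h2
  have hd : ∀ χ : IrrS K, 0 < (deg χ.1 : ℤ) := by
    intro χ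
    have h1 := irrS_one_ne χ.2
    rw [irrS_deg χ.2] at h1
    have h2 : deg χ.1 ≠ 0 := by exact_mod_cast h1
    exact_mod_cast Nat.pos_of_ne_zero h2
  have he := hL.ee_pos φ
  rcases coh0 v (ee K Q H φ) he hI hg (fun χ => (deg χ.1 : ℤ)) hd hr ⟨χ, hχ⟩ with
    ⟨u, hu, h1⟩ | ⟨ε, hε, i0, h1⟩
  · left
    refine ⟨u, hu, fun lam hl hne => ?_⟩
    rw [aa_Cj hL hχ (hcls lam ⟨hl, hne⟩), hv _ ⟨χ, hχ⟩, h1]
  · right
    refine ⟨(ε : ℂ), ?_, i0.out.1, i0.out.2.1, i0.out.2.2, ?_⟩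
    · rcases hε with rfl | rfl
      · left; simp
      · right; simp
    · intro lam hl hne
      have h2 : aa Q H χ lam φ = v (Quotient.mk (cohR K Q φ) ⟨lam, hl, hne⟩) ⟨χ, hχ⟩ := by
        rw [aa_Cj hL hχ (hcls lam ⟨hl, hne⟩), hv _ ⟨χ, hχ⟩]
      constructor
      · intro h3
        have h4 : (Quotient.mk (cohR K Q φ) ⟨lam, hl, hne⟩) = i0 := by
          rw [← Quotient.out_eq i0]
          exact Quotient.sound (coh_symm h3)
        rw [h2, h1, if_pos h4]
      · intro h3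
        have h4 : (Quotient.mk (cohR K Q φ) ⟨lam, hl, hne⟩) ≠ i0 := by
          intro h5
          apply h3
          have h6 : Quotient.mk (cohR K Q φ) i0.out = Quotient.mk (cohR K Q φ) ⟨lam, hl, hne⟩ := by
            rw [Quotient.out_eq, h5]
          exact Quotient.exact h6
        rw [h2, h1, if_neg h4]
        simp

set_option linter.unusedVariables false in
/-- for each `φ` there are two nontrivial characters of `Q` which are not conjugate -/
theorem exists_not_Cj (hL : LocC p K Q Z H) {φ : G → ℂ} (hφ : φ ∈ Ca p Q H) :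
    ∃ lam ∈ IrrS Q, ∃ lam' ∈ IrrS Q, lam ≠ oneS Q ∧ lam' ≠ oneS Q ∧ ¬ Cj K Q φ lam lam' := by
  classical
  have hfin : Finite (cohL Q) := cohL_fin Q
  have : Fintype (Quotient (cohR K Q φ)) := Fintype.ofFinite _
  have h1 := coh_count hL φ
  rw [Nat.card_eq_fintype_card] at h1
  have h2 : 1 < Fintype.card (Quotient (cohR K Q φ)) := by omega
  obtain ⟨i, j, hij⟩ := Fintype.exists_pair_of_one_lt_card h2
  refine ⟨i.out.1, i.out.2.1, j.out.1, j.out.2.1, i.out.2.2, j.out.2.2, ?_⟩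
  intro h3
  apply hij
  have h4 : Quotient.mk (cohR K Q φ) i.out = Quotient.mk (cohR K Q φ) j.out :=
    Quotient.sound h3
  rwa [Quotient.out_eq, Quotient.out_eq] at h4

end Pool.Agent.Helper42.CY
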