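import Pool.Agent.Helper42.CY.Rank35
import Pool.Agent.Helper42.CY.BdsA
import Pool.Agent.Helper42.CY.Coh
import Pool.Agent.Helper42.IR.PkgTop

/-!
# CY-22 (project CY): the shape of the multiplicities

* `cm_diff`: `A` from `exists_WD`, restricted to `Q` (`x ↦ A (inclusion hQT x)`), `m = ip (Q ⊔ H) χ (prodC lam φ)`,
  `χ = chR R`, `d = deg φ > 0`. By `WD.trace`, `|Q|⁻¹ ∑_{x ∈ Q} lam x⁻¹ tr (A x) =
  d |Q|⁻¹ |H|⁻¹ ∑_{x, h} lam x⁻¹ χ(h x) φ((h x)⁻¹) = d m` (`card_C`; `h x` runs over `Q ⊔ H` and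
  `lift Q H lam (h x)⁻¹ = lam x⁻¹`). `boundsA` for `lam` (with `m' d`) and `lam'`, `rank_small`:
  `d m + rank (A y - E) ≤ rank E ≤ rank (A y - E) + rank N + d ≤ rank (A y - E) + d m' + d`.
* `shape_all`: `χ ∈ IrrS ⊤` is `chR R` with `SchurR R`, `LocalR R` (`exists_special`, `mem_irrS_top`). By `coh`, if
  `aa Q H χ lam φ = u` for all nontrivial `lam` then `|u| ≤ 1` by `cm_diff` for `lam` and `oneS Q` (both
  orders; `prodC_one`; multiplicities are natural numbers, `ip_res_nat` and `prodC_mem`).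
-/

namespace Pool.Agent.Helper42.CY

open Pool.Agent.Helper42.INC Pool.Agent.Helper42.IR Pool.Agent.Helper97.S4

variable {p : ℕ} [Fact p.Prime] {K : Type} [Group K] [Finite K] {Q Z H : Subgroup K}

/-- sums over `Q ⊔ H` -/
private theorem cs_sum (hL : LocC p (⊤ : Subgroup K) Q Z H) (f : K → ℂ) :
    ∑ᶠ g : (Q ⊔ H : Subgroup K), f g = ∑ᶠ x : Q, ∑ᶠ h : H, f ((h : K) * x) := by
  classical
  have := Fintype.ofFinite Q
  have := Fintype.ofFinite H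
  have := Fintype.ofFinite (Q ⊔ H : Subgroup K)
  have hQ : ∀ x : Q, (x : K) ∈ Q ⊔ H := fun x => (le_sup_left : Q ≤ Q ⊔ H) x.2
  have hH : ∀ h : H, (h : K) ∈ Q ⊔ H := fun h => (le_sup_right : H ≤ Q ⊔ H) h.2
  rw [finsum_eq_sum_of_fintype, finsum_eq_sum_of_fintype]
  have e1 : ∀ x : Q, ∑ᶠ h : H, f ((h : K) * x) = ∑ h : H, f ((h : K) * x) := fun x =>
    finsum_eq_sum_of_fintype _
  rw [Finset.sum_congr rfl (fun x _ => e1 x), ← Fintype.sum_prod_type']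
  symm
  refine Fintype.sum_bijective (fun z : Q × H =>
    (⟨(z.2 : K) * (z.1 : K), (Q ⊔ H).mul_mem (hH z.2) (hQ z.1)⟩ : (Q ⊔ H : Subgroup K)))
    ?_ _ _ (fun z => rfl)
  constructor
  · rintro ⟨x, h⟩ ⟨x', h'⟩ he
    have h1 : (h : K) * x = h' * x' := congrArg Subtype.val he
    have h2 : (x : K)⁻¹ * (h : K)⁻¹ = (x' : K)⁻¹ * (h' : K)⁻¹ := by
      rw [← mul_inv_rev, ← mul_inv_rev, h1]
    obtain ⟨h3, h4⟩ := hL.mul_inj (Q.inv_mem x.2) (Q.inv_mem x'.2) (H.inv_mem h.2)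
      (H.inv_mem h'.2) h2
    exact Prod.ext (Subtype.ext (inv_injective h3)) (Subtype.ext (inv_injective h4))
  · rintro ⟨g, hg⟩
    obtain ⟨x, hx, h, hh, he⟩ := hL.mem_sup.1 ((Q ⊔ H).inv_mem hg)
    refine ⟨(⟨x⁻¹, Q.inv_mem hx⟩, ⟨h⁻¹, H.inv_mem hh⟩), Subtype.ext ?_⟩
    change h⁻¹ * x⁻¹ = g
    rw [← mul_inv_rev, ← he, inv_inv]

private theorem cs_ip (hL : LocC p (⊤ : Subgroup K) Q Z H) (χ φ lam : K → ℂ) :
    ip (Q ⊔ H) χ (prodC Q H lam φ) = (Nat.card Q : ℂ)⁻¹ * ∑ᶠ x : Q, lam (x : K)⁻¹ *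
      ((Nat.card H : ℂ)⁻¹ * ∑ᶠ h : H, χ ((h : K) * x) * φ ((h : K) * x)⁻¹) := by
  classical
  have := Fintype.ofFinite Q
  have := Fintype.ofFinite H
  have h1 : ip (Q ⊔ H) χ (prodC Q H lam φ) = (Nat.card (Q ⊔ H : Subgroup K) : ℂ)⁻¹ *
      ∑ᶠ g : (Q ⊔ H : Subgroup K), χ (g : K) * prodC Q H lam φ (g : K)⁻¹ := rfl
  rw [h1, cs_sum hL (fun g => χ g * prodC Q H lam φ g⁻¹), hL.card_C]
  simp only [finsum_eq_sum_of_fintype]
  rw [Finset.mul_sum, Finset.mul_sum]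
  refine Finset.sum_congr rfl fun x _ => ?_
  have h2 : ∀ h : H, χ ((h : K) * x) * prodC Q H lam φ ((h : K) * x)⁻¹ =
      lam (x : K)⁻¹ * (χ ((h : K) * x) * φ ((h : K) * x)⁻¹) := by
    intro h
    have h3 : lift Q H lam ((h : K) * x)⁻¹ = lam (x : K)⁻¹ := by
      rw [mul_inv_rev]
      exact lift_apply hL lam (Q.inv_mem x.2) (H.inv_mem h.2)
    unfold prodC
    rw [h3]
    ring
  rw [Finset.sum_congr rfl (fun h _ => h2 h), ← Finset.mul_sum]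
  push_cast
  rw [mul_inv]
  ring

theorem cm_diff (hp2 : p ≠ 2) {n : ℕ} (R : K →* Matrix (Fin n) (Fin n) (OO p))
    (hL : LocC p (⊤ : Subgroup K) Q Z H) (hLoc : LocalR R) {φ : K → ℂ} (hφ : φ ∈ Ca p Q H)
    {lam lam' : K → ℂ} (hl : lam ∈ IrrS Q) (hl' : lam' ∈ IrrS Q) {m m' : ℕ}
    (hm : ip (Q ⊔ H) (chR R) (prodC Q H lam φ) = m)
    (hm' : ip (Q ⊔ H) (chR R) (prodC Q H lam' φ) = m') : m ≤ m' + 1 := by
  classical
  have hQT : Q ≤ Subgroup.normalizer (Z : Set K) ⊓ stab φ := by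
    intro x hx
    have h4 := hL.C_le_stab hφ.1.1 ((le_sup_left : Q ≤ Q ⊔ H) hx)
    exact ⟨h4.1.2, h4.2⟩
  obtain ⟨Φ, s, A, hW⟩ := exists_WD R hL hφ
  have hd : 0 < deg φ := mb_deg_pos hφ.1.1
  obtain ⟨y, hy⟩ := hL.cyc.exists_generator
  obtain ⟨a, -, hQ⟩ := hL.cQ
  have hA1 : A (Subgroup.inclusion hQT 1) = Eph R H (rst H φ) := by rw [map_one, hW.one]
  have hAm : ∀ x x' : Q, A (Subgroup.inclusion hQT (x * x')) =
      A (Subgroup.inclusion hQT x) * A (Subgroup.inclusion hQT x') := by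
    intro x x'
    rw [map_mul, hW.mul]
  have htr : ∀ {mu : K → ℂ} {k : ℕ}, ip (Q ⊔ H) (chR R) (prodC Q H mu φ) = k →
      (Nat.card Q : ℂ)⁻¹ * ∑ᶠ x : Q, (fun z : Q => mu z) x⁻¹ *
        (((A (Subgroup.inclusion hQT x)).trace : OO p) : ℂ) = ((deg φ * k : ℕ) : ℂ) := by
    intro mu k hk
    rw [cs_ip hL] at hk
    rw [Nat.cast_mul, ← hk]
    have := Fintype.ofFinite Q
    simp only [finsum_eq_sum_of_fintype (α := Q)]
    rw [mul_left_comm, Finset.mul_sum (a := (deg φ : ℂ))]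
    congr 1
    refine Finset.sum_congr rfl fun x _ => ?_
    have h5 := hW.trace (Subgroup.inclusion hQT x) ((le_sup_left : Q ≤ Q ⊔ H) x.2)
    rw [h5]
    change mu (x : K)⁻¹ * ((deg φ : ℂ) * (Nat.card H : ℂ)⁻¹ *
      ∑ᶠ h : H, chR R ((h : K) * x) * φ ((h : K) * x)⁻¹) = _
    ring
  have hb := fun {mu : K → ℂ} (hmu : mu ∈ IrrS Q) {k : ℕ}
      (hk : ip (Q ⊔ H) (chR R) (prodC Q H mu φ) = k) =>
    boundsA hQ (fun x : Q => A (Subgroup.inclusion hQT x)) hAm (lam := fun x : Q => mu x)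
      (lin_mul hL hmu).1 (fun x x' => (lin_mul hL hmu).2.1 x x.2 x' x'.2) (htr hk) hy
  have h1 := (hb hl hm).2
  have h2 := (hb hl' hm').1
  have h3 := rank_small hp2 R hL hLoc hφ hW hQT hy
  simp only [hA1] at h1
  have h4 : deg φ * m ≤ deg φ * (m' + 1) := by
    rw [mul_add, mul_one]
    omega
  exact Nat.le_of_mul_le_mul_left h4 hd

theorem shape_all (hp2 : p ≠ 2) (hL : LocC p (⊤ : Subgroup K) Q Z H) {χ : K → ℂ}
    (hχ : χ ∈ IrrS (⊤ : Subgroup K)) {φ : K → ℂ} (hφ : φ ∈ Ca p Q H) (hB : Bl Q H χ φ) :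
    ∃ ε : ℂ, (ε = 1 ∨ ε = -1) ∧
      (NE Q H χ φ ε ∨ ∃ l0 ∈ IrrS Q, l0 ≠ oneS Q ∧ EX (⊤ : Subgroup K) Q H χ φ l0 ε) := by
  classical
  rcases coh hL hφ hχ with ⟨u, -, hu⟩ | ⟨ε, hε, l0, hl0, hl01, hex⟩
  · obtain ⟨lam, hl, hne⟩ := hB
    have hlam : lam ≠ oneS Q := by
      rintro rfl
      exact hne (aa_oneS hL χ φ)
    have hu0 : u ≠ 0 := by
      rintro rfl
      apply hne
      rw [hu lam hl hlam]
      simp
    obtain ⟨n, R, hR, -, hLoc⟩ := exists_special (p := p) (mem_irrS_top.1 hχ)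
    have hC : Q ⊔ H ≤ (⊤ : Subgroup K) := le_top
    obtain ⟨m, hm⟩ := ip_res_nat hC hχ (prodC_mem hL hl hφ.1.1)
    obtain ⟨m0, hm0⟩ := ip_res_nat hC hχ (prodC_mem hL (Helper97.S4.oneS_mem Q) hφ.1.1)
    have h1 := cm_diff hp2 R hL hLoc hφ hl (Helper97.S4.oneS_mem Q) (by rw [hR]; exact hm)
      (by rw [hR]; exact hm0)
    have h2 := cm_diff hp2 R hL hLoc hφ (Helper97.S4.oneS_mem Q) hl (by rw [hR]; exact hm0)
      (by rw [hR]; exact hm)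
    have h3 : (u : ℂ) = ((m : ℤ) - (m0 : ℤ) : ℤ) := by
      rw [← hu lam hl hlam]
      unfold aa
      rw [hm]
      have h4 : prodC Q H (oneS Q) φ = φ := prodC_one hL hφ.1.1.2
      rw [h4] at hm0
      rw [hm0]
      push_cast
      rfl
    have h4 : u = (m : ℤ) - (m0 : ℤ) := by exact_mod_cast h3
    have h5 : u = 1 ∨ u = -1 := by omega
    rcases h5 with h6 | h6
    · refine ⟨1, Or.inl rfl, Or.inl fun mu hmu hmu1 => ?_⟩
      rw [hu mu hmu hmu1, h6]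
      simp
    · refine ⟨-1, Or.inr rfl, Or.inl fun mu hmu hmu1 => ?_⟩
      rw [hu mu hmu hmu1, h6]
      simp
  · exact ⟨ε, hε, Or.inr ⟨l0, hl0, hl01, hex⟩⟩

end Pool.Agent.Helper42.CY
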