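import Pool.Agent.Helper42.CY.Mult
import Pool.Agent.Helper42.CY.Small
import Pool.Agent.Helper42.CY.KeyC

/-!
# CY-24 (project CY): degrees of the characters in a block

`K` a group, `χ = chR R` (`exists_special`), `n = deg χ` (`chR_one`), `E = Eph R H (rst H φ)`,
`T = normalizer Z ⊓ stab φ`, `m = ip H χ φ`; `tr E = deg φ * m` (`trace_Eph`; `ip H χ (rst H φ) = ip H χ φ`).
`keyO` for `f = E`: `E = c E - trQ R Q b`, `c n = |K : T| tr E = |K : T| deg φ m`; taking traces (`trace_trQ`)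
`(1 - c) tr E = - |Q| tr b`. `p ∤ |K : T|` (`index_C`: `Q ⊔ H ≤ T`), `p ∤ deg φ`, and if `χ` is in the block of `φ` then
`p ∤ m` by `shape_all`, `mult_ndvd`.
* `def0`: so `c n` is a unit of `OO p` (`isUnit_nat`), hence `n` is a unit, `p ∤ n` (`p_mem`).
* `deg_mod`: `tr E` is a unit, `|Q| tr b` is in the maximal ideal, so `c ≡ 1` modulo the maximal ideal, and
  `n ≡ |K : T| deg φ m` modulo the maximal ideal, so modulo `p` (`dvd_of_mem`; or reduce to `kk p`, a field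
  containing `ZMod p`), and `|K : T| = |K : N| |N : T| ≡ |N : T|` with `N = normalizer Z` (`index_mod`).
-/

namespace Pool.Agent.Helper42.CY

open Pool.Agent.Helper42.INC Pool.Agent.Helper42.IR Pool.Agent.Helper97.S4

variable {p : ℕ} [Fact p.Prime] {K : Type} [Group K] [Finite K] {Q Z H : Subgroup K}

theorem ndvd_of_Bl (hp2 : p ≠ 2) (hL : LocC p (⊤ : Subgroup K) Q Z H) {χ : K → ℂ}
    (hχ : χ ∈ IrrS (⊤ : Subgroup K)) {φ : K → ℂ} (hφ : φ ∈ Ca p Q H) (hB : Bl Q H χ φ) {m : ℕ}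
    (hm : ip H χ φ = m) : ¬ p ∣ m :=
  mult_ndvd hL hχ hφ (shape_all hp2 hL hχ hφ hB) hm

omit [Fact p.Prime] [Finite K] in
private theorem blk_deg_rst (φ : K → ℂ) : deg (rst H φ) = deg φ := by
  unfold deg rst
  rw [if_pos H.one_mem]

omit [Fact p.Prime] [Finite K] in
private theorem blk_ip_rst (χ φ : K → ℂ) : ip H χ (rst H φ) = ip H χ φ := by
  have h : (fun h : H => rst H φ (h : K)) = (fun h : H => φ (h : K)) := by
    funext h
    unfold rst
    rw [if_pos h.2]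
  unfold ip
  rw [h]

omit [Finite K] in
private theorem blk_irrS_top {χ : K → ℂ} (h : χ ∈ IrrS (⊤ : Subgroup K)) : χ ∈ Irr K :=
  irr_comp (Subgroup.topEquiv (G := K)).symm h.1

/-- the main computation: `c n = |K : T| deg φ m`, `(c - 1) deg φ m = |Q| tr b` -/
private theorem blk_main (hp2 : p ≠ 2) (hL : LocC p (⊤ : Subgroup K) Q Z H) {n : ℕ}
    (R : K →* Matrix (Fin n) (Fin n) (OO p)) (hR : SchurR R)
    (hχ : chR R ∈ IrrS (⊤ : Subgroup K)) {φ : K → ℂ} (hφ : φ ∈ Ca p Q H)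
    (hB : Bl Q H (chR R) φ) {m : ℕ} (hm : ip H (chR R) φ = m) :
    ∃ c : OO p, c * (n : OO p) =
        (((Subgroup.normalizer (Z : Set K) ⊓ stab φ).index * (deg φ * m) : ℕ) : OO p) ∧
      c - 1 ∈ IsLocalRing.maximalIdeal (OO p) ∧
      ¬ p ∣ (Subgroup.normalizer (Z : Set K) ⊓ stab φ).index * (deg φ * m) := by
  have hp : p.Prime := Fact.out
  have hNN : NN (⊤ : Subgroup K) Z = Subgroup.normalizer (Z : Set K) := by
    unfold NN
    rw [top_inf_eq]
  have hrst : rst H φ ∈ IrrS H := rst_H hL hφ.1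
  have hmd : ¬ p ∣ m := ndvd_of_Bl hp2 hL hχ hφ hB hm
  have hdd : ¬ p ∣ deg φ := hφ.1.2
  -- index
  have hCT : Q ⊔ H ≤ Subgroup.normalizer (Z : Set K) ⊓ stab φ := by
    have h1 := hL.C_le_stab hφ.1.1
    rwa [hNN] at h1
  have hTi : ¬ p ∣ (Subgroup.normalizer (Z : Set K) ⊓ stab φ).index := by
    intro h1
    apply hL.index_C
    rw [Subgroup.relIndex_top_right]
    exact h1.trans (Subgroup.index_dvd_of_le hCT)
  have hall : ¬ p ∣ (Subgroup.normalizer (Z : Set K) ⊓ stab φ).index * (deg φ * m) := by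
    intro h1
    rcases hp.dvd_mul.1 h1 with h2 | h2
    · exact hTi h2
    · rcases hp.dvd_mul.1 h2 with h3 | h3
      · exact hdd h3
      · exact hmd h3
  have htr : (Eph R H (rst H φ)).trace = ((deg φ * m : ℕ) : OO p) := by
    apply Subtype.ext
    rw [trace_Eph R H hL.pH hrst, blk_deg_rst, blk_ip_rst, hm]
    push_cast
    rfl
  obtain ⟨c, b, -, -, hE, hc⟩ := keyO R hL hR hφ (Eph R H (rst H φ))
    (Eph_mul_self R H hL.pH hrst) (Eph_mul_self R H hL.pH hrst) (by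
      intro t ht
      have htZ : t ∈ Subgroup.normalizer (Z : Set K) := ht.1
      have htH : t ∈ Subgroup.normalizer (H : Set K) :=
        hL.norm_H' (by rw [hNN]; exact htZ)
      exact Eph_comm R H hL.pH hrst htH (((rst_cnj hL hφ htZ).2).2 ht.2))
  refine ⟨c, ?_, ?_, hall⟩
  · rw [hc, htr]
    push_cast
    ring
  · have h1 := congrArg Matrix.trace hE
    rw [Matrix.trace_sub, Matrix.trace_smul, trace_trQ, htr, smul_eq_mul] at h1
    have h2 : (c - 1) * ((deg φ * m : ℕ) : OO p) = (Nat.card Q : OO p) * b.trace := by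
      linear_combination -h1
    have hu : IsUnit ((deg φ * m : ℕ) : OO p) := by
      apply isUnit_nat
      intro h3
      exact hall (h3.mul_left _)
    have hQm : (Nat.card Q : OO p) ∈ IsLocalRing.maximalIdeal (OO p) := by
      obtain ⟨a, ha, hQ⟩ := hL.cQ
      rw [hQ]
      obtain ⟨k, rfl⟩ : ∃ k, a = k + 1 := ⟨a - 1, by omega⟩
      rw [pow_succ, Nat.cast_mul]
      exact Ideal.mul_mem_left _ _ (p_mem p)
    have h4 : (c - 1) * ((deg φ * m : ℕ) : OO p) ∈ IsLocalRing.maximalIdeal (OO p) := by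
      rw [h2]
      exact Ideal.mul_mem_right _ _ hQm
    rcases (IsLocalRing.maximalIdeal.isMaximal (OO p)).isPrime.mem_or_mem h4 with h5 | h5
    · exact h5
    · exact absurd hu h5

theorem def0 (hp2 : p ≠ 2) (hL : LocC p (⊤ : Subgroup K) Q Z H) {χ : K → ℂ}
    (hχ : χ ∈ IrrS (⊤ : Subgroup K)) (hd : p ∣ deg χ) {φ : K → ℂ} (hφ : φ ∈ Ca p Q H) :
    ¬ Bl Q H χ φ := by
  intro hB
  obtain ⟨n, R, rfl, hR, -⟩ := exists_special (p := p) (blk_irrS_top hχ)
  have hn : deg (chR R) = n := deg_eq (chR_one R)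
  rw [hn] at hd
  obtain ⟨m, hm⟩ := mult_nat hL hχ hφ
  obtain ⟨c, hc, -, hall⟩ := blk_main hp2 hL R hR hχ hφ hB hm
  have hu := isUnit_nat (p := p) hall
  rw [← hc] at hu
  have h1 : ((n : ℕ) : OO p) ∈ IsLocalRing.maximalIdeal (OO p) := by
    obtain ⟨k, rfl⟩ := hd
    rw [Nat.cast_mul]
    exact Ideal.mul_mem_right _ _ (p_mem p)
  exact (Ideal.mul_mem_left (IsLocalRing.maximalIdeal (OO p)) c h1) hu

theorem deg_mod (hp2 : p ≠ 2) (hL : LocC p (⊤ : Subgroup K) Q Z H) {χ : K → ℂ}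
    (hχ : χ ∈ IrrS (⊤ : Subgroup K)) {φ : K → ℂ} (hφ : φ ∈ Ca p Q H) (hB : Bl Q H χ φ) {m : ℕ}
    (hm : ip H χ φ = m) :
    (deg χ : ZMod p) = (((Subgroup.normalizer (Z : Set K) ⊓ stab φ).relIndex
      (Subgroup.normalizer (Z : Set K)) * deg φ * m : ℕ) : ZMod p) := by
  obtain ⟨n, R, rfl, hR, -⟩ := exists_special (p := p) (blk_irrS_top hχ)
  have hn : deg (chR R) = n := deg_eq (chR_one R)
  rw [hn]
  obtain ⟨c, hc, hc1, -⟩ := blk_main hp2 hL R hR hχ hφ hB hm
  have hNN : NN (⊤ : Subgroup K) Z = Subgroup.normalizer (Z : Set K) := by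
    unfold NN
    rw [top_inf_eq]
  set T := Subgroup.normalizer (Z : Set K) ⊓ stab φ with hT
  have h1 : ((n : ℕ) : OO p) - ((T.index * (deg φ * m) : ℕ) : OO p) ∈
      IsLocalRing.maximalIdeal (OO p) := by
    rw [← hc]
    have h2 : ((n : ℕ) : OO p) - c * (n : OO p) = -((c - 1) * (n : OO p)) := by ring
    rw [h2]
    exact Ideal.neg_mem_iff _ |>.2 (Ideal.mul_mem_right _ _ hc1)
  have h2 : ((n : ℕ) : kk p) = ((T.index * (deg φ * m) : ℕ) : kk p) := by
    have h3 : IsLocalRing.residue (OO p)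
        (((n : ℕ) : OO p) - ((T.index * (deg φ * m) : ℕ) : OO p)) = 0 :=
      (IsLocalRing.residue_eq_zero_iff _).2 h1
    rw [map_sub, map_natCast, map_natCast, sub_eq_zero] at h3
    exact h3
  have h3 : ((n : ℕ) : ZMod p) = ((T.index * (deg φ * m) : ℕ) : ZMod p) := by
    rw [ZMod.natCast_eq_natCast_iff]
    exact (CharP.natCast_eq_natCast (kk p) p).1 h2
  have h4 : T.relIndex (Subgroup.normalizer (Z : Set K)) *
      (Subgroup.normalizer (Z : Set K)).index = T.index :=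
    Subgroup.relIndex_mul_index inf_le_left
  have h5 : (((Subgroup.normalizer (Z : Set K)).index : ℕ) : ZMod p) = 1 := by
    have h6 := hL.index_mod
    rwa [hNN, Subgroup.relIndex_top_right] at h6
  rw [h3, ← h4]
  push_cast
  rw [h5]
  ring

end Pool.Agent.Helper42.CY
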