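import Pool.Agent.Helper42.IR.Eph
import Pool.Agent.Helper42.IR.SchurIrr
import Pool.Agent.Helper42.IR.Special
import Pool.Agent.Helper97.S4.Chr

/-!
# CY-08 (project CY): values at elements of `p`-power order; a vanishing lemma

* `val_mod`: `f ∈ IrrS L`, `x ∈ L`, `x ^ (p ^ k) = 1`: `f x` is the sum of `f 1` roots of unity `z` of order
  dividing `p ^ k` (eigenvalues of the operator of `x`; or expand `f` on the cyclic group generated by `x`
  in linear characters, `expand_on`), and `z - 1` is in the maximal ideal: its residue is `1`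
  (`(z - 1) ^ (p ^ k)` has residue `z ^ (p ^ k) - 1 = 0` in characteristic `p`).
* `vanish`: `L` of order prime to `p`, `J ≤ normalizer L`, `L ≤ J`, `χ ∈ IrrS J`, `y ∈ J` with `χ y ≠ 0`: there is
  `η ∈ IrrS L` with `ip L χ η ≠ 0` fixed by `y`. Proof: the group `↥J` has an integral matrix representation
  `R` with character `χ` (`exists_special`). With `Eph R L' η` for the subgroup `L' = L.subgroupOf J` of `↥J`:
  `tr R y = ∑ η, tr (R y * Eph η * Eph η)` (`Eph_sum`, `Eph_mul_self`) `= ∑ η, tr (Eph η * R y * Eph η)` and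
  `Eph η * R y = R y * Eph (cnj y⁻¹ η)` (`Eph_conj`), so the term of `η` vanishes if `cnj y η ≠ η`
  (`Eph_mul_ne`); if `ip L χ η = 0` then `Eph R L' η` has trace `0` (`trace_Eph`), so it is an idempotent of
  rank `0`, `Eph = 0`.
-/

namespace Pool.Agent.Helper42.CY

open Pool.Agent.Helper42.INC Pool.Agent.Helper42.IR Pool.Agent.Helper97.S4

variable {G : Type} [Group G] [Finite G] {p : ℕ} [Fact p.Prime]

private lemma h86vp_sum (k : ℕ) (s : Multiset ℂ) (hs : ∀ z ∈ s, z ^ p ^ k = 1) :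
    ∃ w : OO p, w ∈ IsLocalRing.maximalIdeal (OO p) ∧ s.sum = (Multiset.card s : ℂ) + (w : ℂ) := by
  induction s using Multiset.induction_on with
  | empty => exact ⟨0, Ideal.zero_mem _, by simp⟩
  | cons a s ih =>
    obtain ⟨w, hw, h⟩ := ih (fun z hz => hs z (Multiset.mem_cons_of_mem hz))
    have ha := hs a (Multiset.mem_cons_self a s)
    have hpos : 0 < p ^ k := pow_pos (Fact.out : p.Prime).pos k
    have hint : IsIntegral ℤ a := by
      refine ⟨Polynomial.X ^ (p ^ k) - 1, ?_, ?_⟩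
      · exact Polynomial.monic_X_pow_sub_C (1 : ℤ) hpos.ne'
      · simp [ha]
    have haO : a ∈ OO p := integral_mem hint
    set b : OO p := ⟨a, haO⟩ with hb
    have hb1 : b ^ p ^ k = 1 := by
      apply Subtype.ext
      simpa [hb] using ha
    have hbm : b - 1 ∈ IsLocalRing.maximalIdeal (OO p) := by
      rw [← IsLocalRing.residue_eq_zero_iff]
      have h1 : (IsLocalRing.residue (OO p) (b - 1)) ^ p ^ k = 0 := by
        rw [map_sub, map_one, sub_pow_char_pow, one_pow, ← map_pow, hb1, map_one, sub_self]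
      exact pow_eq_zero_iff hpos.ne' |>.1 h1
    refine ⟨w + (b - 1), Ideal.add_mem _ hw hbm, ?_⟩
    rw [Multiset.sum_cons, Multiset.card_cons, h]
    push_cast
    have h2 : ((b : OO p) : ℂ) = a := rfl
    rw [h2]
    ring

omit [Finite G] in
theorem val_mod {L : Subgroup G} {f : G → ℂ} (hf : f ∈ IrrS L) {x : G} (hx : x ∈ L) {k : ℕ}
    (h : x ^ p ^ k = 1) :
    ∃ z : OO p, z ∈ IsLocalRing.maximalIdeal (OO p) ∧ f x = f 1 + (z : ℂ) := by
  obtain ⟨V, _, _, _, ρ, hρ, hfρ⟩ := hf.1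
  have h1 : f x = ρ.character ⟨x, hx⟩ := congrFun hfρ ⟨x, hx⟩
  have h2 : f 1 = ρ.character 1 := congrFun hfρ 1
  have h3 : ρ.character ⟨x, hx⟩ = (LinearMap.charpoly (ρ ⟨x, hx⟩)).roots.sum :=
    Module.End.trace_eq_sum_roots_charpoly_of_splits (IsAlgClosed.splits _)
  have hpow : ∀ z ∈ (LinearMap.charpoly (ρ ⟨x, hx⟩)).roots, z ^ p ^ k = 1 := by
    intro z hz
    have hz1 : (LinearMap.charpoly (ρ ⟨x, hx⟩)).IsRoot z := Polynomial.isRoot_of_mem_roots hz
    have hz2 : Module.End.HasEigenvalue (ρ ⟨x, hx⟩) z :=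
      (Module.End.hasEigenvalue_iff_isRoot_charpoly (ρ ⟨x, hx⟩) z).2 hz1
    obtain ⟨v, hv⟩ := hz2.exists_hasEigenvector
    have hv1 : ∀ m : ℕ, (ρ ((⟨x, hx⟩ : L) ^ m)) v = z ^ m • v := by
      intro m
      induction m with
      | zero => simp
      | succ m ih =>
        rw [pow_succ', map_mul, Module.End.mul_apply, ih, map_smul, hv.apply_eq_smul, smul_smul,
          pow_succ]
    have h4 := hv1 (p ^ k)
    have h5 : ((⟨x, hx⟩ : L) ^ p ^ k) = 1 := by
      apply Subtype.ext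
      simpa using h
    rw [h5, map_one, Module.End.one_apply] at h4
    have h6 : (z ^ p ^ k - 1) • v = 0 := by
      rw [sub_smul, one_smul, ← h4, sub_self]
    have h7 : z ^ p ^ k - 1 = 0 := (smul_eq_zero.1 h6).resolve_right hv.2
    exact sub_eq_zero.1 h7
  obtain ⟨w, hw, h8⟩ := h86vp_sum (p := p) k _ hpow
  refine ⟨w, hw, ?_⟩
  have h9 : Multiset.card (LinearMap.charpoly (ρ ⟨x, hx⟩)).roots = Module.finrank ℂ V := by
    rw [← LinearMap.charpoly_natDegree (ρ ⟨x, hx⟩)]
    exact (Polynomial.splits_iff_card_roots.1 (IsAlgClosed.splits _))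
  rw [h1, h2, h3, h8, h9, Representation.char_one]

private lemma h86vp_zero {n : ℕ} (R : G →* Matrix (Fin n) (Fin n) (OO p)) (H : Subgroup G)
    (hH : ¬ p ∣ Nat.card H) {φ : G → ℂ} (hφ : φ ∈ IrrS H) (h0 : ip H (chR R) φ = 0) :
    Eph R H φ = 0 := by
  have h1 := trace_Eph R H hH hφ
  rw [h0, mul_zero] at h1
  have h2 : toC (Eph R H φ) * toC (Eph R H φ) = toC (Eph R H φ) := by
    rw [← toC_mul, Eph_mul_self R H hH hφ]
  have h3 := trace_idem _ h2
  rw [trace_toC, h1] at h3
  have h4 : (toC (Eph R H φ)).rank = 0 := by exact_mod_cast h3.symm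
  have h5 : toC (Eph R H φ) = 0 := by
    unfold Matrix.rank at h4
    have h6 : LinearMap.range (toC (Eph R H φ)).mulVecLin = ⊥ := Submodule.finrank_eq_zero.1 h4
    have h7 : (toC (Eph R H φ)).mulVecLin = 0 := LinearMap.range_eq_bot.1 h6
    ext i j
    have h8 := congrFun (LinearMap.congr_fun h7 (Pi.single j 1)) i
    simpa using h8
  apply toC_inj
  rw [h5]
  ext i j
  simp [toC]

/-- the main step inside a group `K` with a normal subgroup `H` of order prime to `p` -/
private lemma h86vp_main {K : Type} [Group K] [Finite K] {χ : K → ℂ} (hχ : χ ∈ Irr K)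
    (H : Subgroup K) (hH : ¬ p ∣ Nat.card H) (hn : ∀ t, t ∈ Subgroup.normalizer (H : Set K))
    {y : K} (h : χ y ≠ 0) : ∃ φ ∈ IrrS H, ip H χ φ ≠ 0 ∧ cnj y φ = φ := by
  classical
  by_contra hcon
  push Not at hcon
  obtain ⟨n, R, hR, -, -⟩ := exists_special (p := p) hχ
  apply h
  have h0 : ∀ φ : IrrS H, (R y * Eph R H φ.1).trace = 0 := by
    intro φ
    by_cases hi : ip H χ φ.1 = 0
    · rw [← hR] at hi
      rw [h86vp_zero R H hH φ.2 hi, mul_zero, Matrix.trace_zero]
    · have hne : cnj y φ.1 ≠ φ.1 := hcon φ.1 φ.2 hi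
      have h1 : R y * Eph R H φ.1 = Eph R H (cnj y φ.1) * R y := by
        have h2 := Eph_conj R H hH φ.2 (hn y)
        rw [← h2, mul_assoc, ← map_mul, inv_mul_cancel, map_one, mul_one]
      calc (R y * Eph R H φ.1).trace = (R y * Eph R H φ.1 * Eph R H φ.1).trace := by
            rw [mul_assoc, Eph_mul_self R H hH φ.2]
        _ = (Eph R H φ.1 * (R y * Eph R H φ.1)).trace := Matrix.trace_mul_comm _ _
        _ = (Eph R H φ.1 * Eph R H (cnj y φ.1) * R y).trace := by rw [h1, mul_assoc]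
        _ = 0 := by
            rw [Eph_mul_ne R H hH φ.2 (Pool.Agent.Helper97.S4.cnj_mem_irrS (hn y) φ.2)
              (Ne.symm hne), zero_mul, Matrix.trace_zero]
  have hfin : Finite (IrrS H) := (Pool.Agent.Helper97.S4.irrS_finite H).to_subtype
  have := Fintype.ofFinite (IrrS H)
  have h1 : R y = ∑ φ : IrrS H, R y * Eph R H φ.1 := by
    rw [← Finset.mul_sum, ← finsum_eq_sum_of_fintype, Eph_sum R H hH, mul_one]
  have h2 : (R y).trace = 0 := by
    rw [h1, Matrix.trace_sum]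
    exact Finset.sum_eq_zero fun φ _ => h0 φ
  rw [← hR]
  unfold chR
  rw [h2]
  rfl

theorem vanish {L J : Subgroup G} (hL : ¬ p ∣ Nat.card L) (hLJ : L ≤ J)
    (hn : J ≤ Subgroup.normalizer (L : Set G)) {χ : G → ℂ} (hχ : χ ∈ IrrS J) {y : G} (hy : y ∈ J)
    (h : χ y ≠ 0) : ∃ η ∈ IrrS L, ip L χ η ≠ 0 ∧ cnj y η = η := by
  classical
  have hc : ¬ p ∣ Nat.card (L.subgroupOf J) := by
    rwa [Nat.card_congr (Subgroup.subgroupOfEquivOfLe hLJ).toEquiv]
  have hnn : ∀ t : J, t ∈ Subgroup.normalizer ((L.subgroupOf J : Subgroup J) : Set J) := by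
    intro t
    rw [Subgroup.mem_normalizer_iff]
    intro x
    have h1 := (Subgroup.mem_normalizer_iff.1 (hn t.2)) (x : G)
    exact h1
  obtain ⟨φ, hφ, hip, hfix⟩ := h86vp_main (p := p) hχ.1 (L.subgroupOf J) hc hnn (y := ⟨y, hy⟩) h
  set e : L ≃* (L.subgroupOf J) := (Subgroup.subgroupOfEquivOfLe hLJ).symm with he
  have hecoe : ∀ x : L, ((e x : J) : G) = x := fun x => rfl
  refine ⟨fun x => if hx : x ∈ L then φ ⟨x, hLJ hx⟩ else 0, ⟨?_, ?_⟩, ?_, ?_⟩
  · have h1 : (fun x : L => if hx : (x : G) ∈ L then φ ⟨x, hLJ hx⟩ else 0) =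
        fun x : L => (fun z : L.subgroupOf J => φ z) (e x) := by
      funext x
      rw [dif_pos x.2]
      rfl
    rw [h1]
    exact irr_comp e hφ.1
  · intro x hx
    exact dif_neg hx
  · have h1 : (fun x : L => if hx : (x : G) ∈ L then φ ⟨x, hLJ hx⟩ else 0) =
        fun x : L => (fun z : L.subgroupOf J => φ z) (e.toMonoidHom x) := by
      funext x
      rw [dif_pos x.2]
      rfl
    have h2 : (fun x : L => χ x) =
        fun x : L => (fun z : L.subgroupOf J => χ ((z : J) : G)) (e.toMonoidHom x) := by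
      funext x
      rfl
    unfold ip
    rw [h1, h2]
    have h3 := B_comp e.toMonoidHom e.surjective (fun z : L.subgroupOf J => χ ((z : J) : G))
      (fun z : L.subgroupOf J => φ z)
    intro h4
    apply hip
    unfold ip
    exact h3.symm.trans h4
  · funext x
    rw [cnj_apply]
    have hxn : y⁻¹ * x * y ∈ L ↔ x ∈ L := ((Subgroup.mem_normalizer_iff''.1 (hn hy)) x).symm
    by_cases hx : x ∈ L
    · have h1 := congrFun hfix ⟨x, hLJ hx⟩
      rw [cnj_apply] at h1
      rw [dif_pos (hxn.2 hx), dif_pos hx, ← h1]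
      rfl
    · rw [dif_neg (fun h' => hx (hxn.1 h')), dif_neg hx]

end Pool.Agent.Helper42.CY
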