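import Pool.Agent.Helper42.CY.Can
import Pool.Agent.Helper42.CY.ValP
import Pool.Agent.Helper42.IR.BSepA

/-!
# CY-09 (project CY): canonical characters of a group and of a normal subgroup

`K ≤ J ≤ normalizer K`, `LocC p K Q Z H`, `LocC p J Q Z HJ`; `C = Q ⊔ H = K ⊓ (Q ⊔ HJ)`, `CJ = Q ⊔ HJ`.

* `H_le`: elements of `H` are in `CJ` and have order prime to `p` (`mem_H_iff`). `C_norm`: `K` is normal
  in `J` and `C = K ⊓ CJ`.
* `lift_res`: for `g = x h`, `x ∈ Q`, `h ∈ H ≤ HJ`.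
* `norm_J`: the elements of `CJ` normalize `K` and `Z` (they centralize it).
* `ca_down`: `φ' ∈ Ca p Q HJ`, `θ ∈ IrrS C` under `φ'`. All constituents of `φ'` on `C` are conjugate to `θ`
  under `CJ` with the same multiplicity (`clifford`, `ip_cnj_right`), so `deg φ'` is a multiple of `deg θ`
  (`expand_on` at `1`) and `p ∤ deg θ`. By `ca_exists` `θ = prodC lam φ0`. For `g ∈ CJ`,
  `cnj g θ = prodC lam (cnj g φ0)` (`lift_res` and `lift_conj` for `CJ`), `cnj g φ0 ∈ Ca` (`ca_cnj`), so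
  `dt Q (cnj g θ) x = lam x ^ deg θ` (`dt_twist`). By `dt_sum` (`φ' = ∑ mult * θ'` on `C`, finitely many `θ'`)
  `1 = dt Q φ' x = lam x ^ (deg φ')`; `lam x` has `p`-power order, so `lam = oneS Q`, `θ = φ0`.
* `mod_CJ`: a character `θ' ∈ IrrS CJ` with `θ' y ≠ 0` for a generator `y` of `Q` has degree prime to `p`:
  `vanish` for `L = HJ`: `η ∈ IrrS HJ` under `θ'` fixed by `y`, so by `CJ = Q HJ`. By `cyc_deg` (`π` from
  `exists_projQ`) `deg θ' = deg η`, and `p ∤ deg η` (`not_dvd_deg`).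
* `ca_up`: `θ' ∈ IrrS CJ` over `prodC lam φ`. On `C`, `θ' = t ∑ prodC lam (cnj g φ)` over the `r` different
  `cnj g φ`, `g ∈ CJ` (`clifford`, `expand_on`), so `θ' y = t lam y ∑ (cnj g φ) y`, and by `val_mod` the last
  sum is `r deg φ` modulo the maximal ideal, `r ∣ |CJ : C|`, prime to `p` (`Q ≤ C`); so `θ' y ≠ 0` and
  `p ∤ deg θ'` by `mod_CJ`. `θ' = prodC lam' φ'` (`ca_exists`). `prodC lam φ` is a constituent of
  `prodC lam' φ'` on `C`, i.e. of `lift lam' * φ'`, so `prodC (lam lam'⁻¹) φ` is a constituent of `φ'`,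
  hence canonical (`ca_down`), and `lam = lam'` by `prodC_inj`.
* `ip_prodC_J`: `ip C (lift lam φ') (lift lam' φ) = ip C φ' (prodC (lam' lam⁻¹) φ)`.
-/

namespace Pool.Agent.Helper42.CY

open Pool.Agent.Helper42.INC Pool.Agent.Helper42.IR Pool.Agent.Helper97.S4

variable {G : Type} [Group G] [Finite G] {p : ℕ} [Fact p.Prime] {K J Q Z H HJ : Subgroup G}

theorem H_le (hL : LocC p K Q Z H) (hLJ : LocC p J Q Z HJ) (hKJ : K ≤ J) : H ≤ HJ := by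
  intro x hx
  have h1 := hL.mem_H_iff.1 hx
  refine hLJ.mem_H_iff.2 ⟨?_, h1.2⟩
  have h2 := h1.1
  rw [hL.sup] at h2
  rw [hLJ.sup]
  exact ⟨hKJ h2.1, h2.2⟩

theorem C_eq (hL : LocC p K Q Z H) (hLJ : LocC p J Q Z HJ) (hKJ : K ≤ J) :
    Q ⊔ H = K ⊓ (Q ⊔ HJ) := by
  rw [hL.sup, hLJ.sup, ← inf_assoc, inf_eq_left.2 hKJ]

private theorem C_le (hL : LocC p K Q Z H) (hLJ : LocC p J Q Z HJ) (hKJ : K ≤ J) :
    Q ⊔ H ≤ Q ⊔ HJ := by
  rw [C_eq hL hLJ hKJ]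
  exact inf_le_right

private theorem norm_J (hLJ : LocC p J Q Z HJ)
    (hn : J ≤ Subgroup.normalizer (K : Set G)) {g : G} (hg : g ∈ Q ⊔ HJ) :
    g ∈ Subgroup.normalizer (K : Set G) ∧ g ∈ Subgroup.normalizer (Z : Set G) := by
  rw [hLJ.sup] at hg
  exact ⟨hn hg.1, Subgroup.centralizer_le_normalizer _ hg.2⟩

theorem C_norm (hL : LocC p K Q Z H) (hLJ : LocC p J Q Z HJ) (hKJ : K ≤ J)
    (hn : J ≤ Subgroup.normalizer (K : Set G)) :
    Q ⊔ HJ ≤ Subgroup.normalizer ((Q ⊔ H : Subgroup G) : Set G) := by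
  intro g hg
  have h := norm_J hLJ hn hg
  exact hL.norm_sup h.1 h.2

theorem lift_res (hL : LocC p K Q Z H) (hLJ : LocC p J Q Z HJ) (hKJ : K ≤ J) (lam : G → ℂ)
    {g : G} (hg : g ∈ Q ⊔ H) : lift Q HJ lam g = lift Q H lam g := by
  obtain ⟨x, hx, h, hh, rfl⟩ := hL.mem_sup.1 hg
  rw [lift_apply hL lam hx hh, lift_apply hLJ lam hx (H_le hL hLJ hKJ hh)]

/-- `CJ` acts trivially on the labels -/
theorem cnj_prodC_J (hL : LocC p K Q Z H) (hLJ : LocC p J Q Z HJ) (hKJ : K ≤ J)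
    (hn : J ≤ Subgroup.normalizer (K : Set G)) {g : G} (hg : g ∈ Q ⊔ HJ) {lam : G → ℂ}
    (hl : lam ∈ IrrS Q) (φ : G → ℂ) :
    cnj g (prodC Q H lam φ) = prodC Q H lam (cnj g φ) := by
  funext x
  change lift Q H lam (g⁻¹ * x * g) * φ (g⁻¹ * x * g) = lift Q H lam x * φ (g⁻¹ * x * g)
  congr 1
  have hgn := C_norm hL hLJ hKJ hn hg
  by_cases hx : x ∈ Q ⊔ H
  · have hx' : g⁻¹ * x * g ∈ Q ⊔ H := (Subgroup.mem_normalizer_iff''.1 hgn x).1 hx
    rw [← lift_res hL hLJ hKJ lam hx, ← lift_res hL hLJ hKJ lam hx']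
    exact congrFun (lift_conj hLJ hl hg) x
  · have hx' : g⁻¹ * x * g ∉ Q ⊔ H := fun h => hx ((Subgroup.mem_normalizer_iff''.1 hgn x).2 h)
    rw [lift_off hL lam hx, lift_off hL lam hx']

/-- the expansion over the conjugates -/
private theorem orbit_expand {L M : Subgroup G} (hLM : L ≤ M)
    (hn : M ≤ Subgroup.normalizer (L : Set G)) {χ θ : G → ℂ} (hχ : χ ∈ IrrS M) (hθ : θ ∈ IrrS L)
    (h : ip L χ θ ≠ 0) :
    ∃ (S : Finset (G → ℂ)) (m : ℕ), m ≠ 0 ∧ (∀ ρ, ρ ∈ S ↔ ∃ k ∈ M, cnj k θ = ρ) ∧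
      ∀ x ∈ L, χ x = ∑ ρ ∈ S, (m : ℂ) * ρ x := by
  classical
  obtain ⟨m, hm⟩ := ip_res_nat hLM hχ hθ
  have hm0 : m ≠ 0 := by
    rintro rfl
    apply h
    rw [hm, Nat.cast_zero]
  refine ⟨(irrS_finite L).toFinset.filter (fun ρ => ip L χ ρ ≠ 0), m, hm0, ?_, ?_⟩
  · intro ρ
    rw [Finset.mem_filter, Set.Finite.mem_toFinset]
    constructor
    · rintro ⟨h1, h2⟩
      exact clifford hLM hn hχ hθ h1 h h2
    · rintro ⟨k, hk, rfl⟩
      refine ⟨cnj_mem_irrS (hn hk) hθ, ?_⟩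
      rw [ip_cnj_right hn hχ hk]
      exact h
  · intro x hx
    have h1 := expand_on (L := L) (f := χ)
      (fun y hy x _ => irrS_conj (hLM hy) hχ x) hx
    have h2 : ∑ᶠ ρ : IrrS L, ip L χ ρ.1 * ρ.1 x
        = ∑ ρ ∈ (irrS_finite L).toFinset, ip L χ ρ * ρ x := by
      have h3 := finsum_set_coe_eq_finsum_mem (f := fun ρ : G → ℂ => ip L χ ρ * ρ x) (IrrS L)
      rw [h3, finsum_mem_eq_finite_toFinset_sum _ (irrS_finite L)]
    rw [h1, h2, Finset.sum_filter]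
    refine Finset.sum_congr rfl fun ρ hρ => ?_
    have hρ' : ρ ∈ IrrS L := (irrS_finite L).mem_toFinset.1 hρ
    by_cases h0 : ip L χ ρ = 0
    · rw [if_neg (by simpa using h0), h0, zero_mul]
    · rw [if_pos h0]
      obtain ⟨k, hk, rfl⟩ := clifford hLM hn hχ hθ hρ' h h0
      rw [ip_cnj_right hn hχ hk, hm]

section
attribute [local instance] cnjAct

/-- the number of conjugates divides the index of a subgroup fixing `θ` -/
private theorem card_orbit_dvd {R M : Subgroup G} {θ : G → ℂ} (hR : R ≤ M)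
    (hfix : ∀ x ∈ R, cnj x θ = θ) {S : Finset (G → ℂ)}
    (hS : ∀ ρ, ρ ∈ S ↔ ∃ k ∈ M, cnj k θ = ρ) : S.card ∣ R.relIndex M := by
  have h1 : (MulAction.orbit M θ : Set (G → ℂ)) = (S : Set (G → ℂ)) := by
    ext ρ
    rw [Finset.mem_coe, hS]
    constructor
    · rintro ⟨k, hk⟩
      exact ⟨k, k.2, hk⟩
    · rintro ⟨k, hk, he⟩
      exact ⟨⟨k, hk⟩, he⟩
  have h2 := MulAction.index_stabilizer M θ
  rw [h1, Set.ncard_coe_finset] at h2
  rw [← h2]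
  apply Subgroup.index_dvd_of_le
  intro x hx
  exact hfix x hx

end

/-- the determinant of `lift lam * φ` -/
private theorem dt_prodC (hL : LocC p K Q Z H) {lam φ : G → ℂ} (hl : lam ∈ IrrS Q)
    (hφ : φ ∈ Ca p Q H) {x : G} (hx : x ∈ Q) : dt Q (prodC Q H lam φ) x = lam x ^ deg φ := by
  have h1 : dt Q (prodC Q H lam φ) x = dt Q (fun x => lam x * φ x) x := by
    refine dt_congr (fun y hy => ?_) x
    change lift Q H lam y * φ y = lam y * φ y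
    rw [lift_Q hL lam hy]
  rw [h1, dt_twist hL hl (nm_irr (L := Q ⊔ H) le_sup_left hφ.1.1) (irrS_deg hφ.1.1) hx, hφ.2 x hx,
    mul_one]

/-- a character of `Q` with trivial prime-to-`p` power is trivial -/
private theorem lam_trivial (hL : LocC p K Q Z H) {lam : G → ℂ} (hl : lam ∈ IrrS Q) {n : ℕ}
    (hn : ¬ p ∣ n) (h : ∀ x ∈ Q, lam x ^ n = 1) : lam = oneS Q := by
  classical
  have hp : p.Prime := Fact.out
  obtain ⟨a, _, ha⟩ := hL.cQ
  have hco : Nat.Coprime n (Nat.card Q) := by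
    rw [ha]
    exact Nat.Coprime.pow_right a ((Nat.Prime.coprime_iff_not_dvd hp).2 hn).symm
  funext x
  unfold oneS
  by_cases hx : x ∈ Q
  · rw [if_pos hx]
    have h1 := h x hx
    have h2 := (lin_mul hL hl).2.2 x hx
    have h3 : orderOf (lam x) ∣ 1 := by
      rw [← Nat.Coprime.gcd_eq_one hco]
      exact Nat.dvd_gcd (orderOf_dvd_of_pow_eq_one h1) (orderOf_dvd_of_pow_eq_one h2)
    have h4 : orderOf (lam x) = 1 := Nat.dvd_one.1 h3
    exact orderOf_eq_one_iff.1 h4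
  · rw [if_neg hx]
    exact hl.2 x hx

theorem ca_down (hL : LocC p K Q Z H) (hLJ : LocC p J Q Z HJ) (hKJ : K ≤ J)
    (hn : J ≤ Subgroup.normalizer (K : Set G)) {φ' θ : G → ℂ} (hφ' : φ' ∈ Ca p Q HJ)
    (hθ : θ ∈ IrrS (Q ⊔ H)) (h : ip (Q ⊔ H) φ' θ ≠ 0) : θ ∈ Ca p Q H := by
  classical
  have hCJ := C_le hL hLJ hKJ
  have hnC := C_norm hL hLJ hKJ hn
  obtain ⟨S, m, hm, hS, hexp⟩ := orbit_expand hCJ hnC hφ'.1.1 hθ h
  have hSdeg : ∀ ρ ∈ S, ρ 1 = (deg θ : ℂ) := by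
    intro ρ hρ
    obtain ⟨k, hk, rfl⟩ := (hS ρ).1 hρ
    rw [irrS_deg (cnj_mem_irrS (hnC hk) hθ), deg_cnj]
  have hdeg : deg φ' = S.card * (m * deg θ) := by
    have h1 := hexp 1 (Subgroup.one_mem _)
    rw [irrS_deg hφ'.1.1] at h1
    have h2 : ∑ ρ ∈ S, (m : ℂ) * ρ 1 = ∑ ρ ∈ S, ((m * deg θ : ℕ) : ℂ) := by
      refine Finset.sum_congr rfl fun ρ hρ => ?_
      rw [hSdeg ρ hρ, Nat.cast_mul]
    rw [h2, Finset.sum_const, nsmul_eq_mul] at h1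
    exact_mod_cast h1
  have hpθ : ¬ p ∣ deg θ := by
    intro h1
    apply hφ'.1.2
    rw [hdeg]
    exact Dvd.dvd.mul_left (Dvd.dvd.mul_left h1 m) _
  obtain ⟨lam, hl, φ0, hφ0, hθe⟩ := ca_exists hL (θ := θ) ⟨hθ, hpθ⟩
  have hd0 : deg φ0 = deg θ := by rw [hθe, deg_prodC hL hl]
  have hdt : ∀ ρ ∈ S, ∀ x ∈ Q, dt Q ρ x = lam x ^ deg θ := by
    intro ρ hρ x hx
    obtain ⟨k, hk, rfl⟩ := (hS ρ).1 hρ
    have hk' := norm_J hLJ hn hk
    rw [hθe, cnj_prodC_J hL hLJ hKJ hn hk hl, dt_prodC hL hl (ca_cnj hL hk'.1 hk'.2 hφ0) hx,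
      deg_cnj, deg_prodC hL hl]
  have hlam : lam = oneS Q := by
    refine lam_trivial hL hl hφ'.1.2 fun x hx => ?_
    have h1 : dt Q φ' x = dt Q (fun x => ∑ ρ ∈ S, (((fun _ => m) ρ : ℕ) : ℂ) * (fun ρ => ρ) ρ x) x := by
      refine dt_congr (fun y hy => ?_) x
      exact hexp y (le_sup_left (a := Q) (b := H) hy)
    have hnm : ∀ ρ ∈ S, NM Q ((fun ρ : G → ℂ => ρ) ρ) := by
      intro ρ hρ
      obtain ⟨k, hk, rfl⟩ := (hS ρ).1 hρ
      exact nm_irr (L := Q ⊔ H) le_sup_left (cnj_mem_irrS (hnC hk) hθ)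
    rw [hφ'.2 x hx, dt_sum S (fun _ => m) (fun ρ => ρ) hnm x] at h1
    have h2 : ∏ ρ ∈ S, dt Q ((fun ρ : G → ℂ => ρ) ρ) x ^ ((fun _ => m) ρ : ℕ)
        = ∏ ρ ∈ S, (lam x ^ deg θ) ^ m := by
      refine Finset.prod_congr rfl fun ρ hρ => ?_
      simp only
      rw [hdt ρ hρ x hx]
    rw [h2, Finset.prod_const, ← pow_mul, ← pow_mul] at h1
    have h3 : S.card * (m * deg θ) = deg θ * (m * S.card) := by ring
    rw [hdeg, h3]
    exact h1.symm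
  rw [hθe, hlam, prodC_one hL hφ0.1.1.2]
  exact hφ0

theorem mod_CJ (hLJ : LocC p J Q Z HJ) {θ' : G → ℂ} (hθ : θ' ∈ IrrS (Q ⊔ HJ)) {y : G}
    (hy : ∀ x ∈ Q, ∃ i : ℕ, x = y ^ i) (hyQ : y ∈ Q) (h : θ' y ≠ 0) : ¬ p ∣ deg θ' := by
  have hnH : Q ⊔ HJ ≤ Subgroup.normalizer (HJ : Set G) := fun g hg => hLJ.norm_C hg
  obtain ⟨η, hη, hip, hfix⟩ := vanish (p := p) hLJ.pH (le_sup_right (a := Q) (b := HJ)) hnH hθ
    (le_sup_left (a := Q) (b := HJ) hyQ) h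
  obtain ⟨π, hπ, _⟩ := exists_projQ hLJ
  have : IsCyclic Q := hLJ.cyc
  have h1 := cyc_deg (le_sup_right (a := Q) (b := HJ)) hnH π hπ hθ hη hip
  have hstab : (Q ⊔ HJ) ⊓ stab η = Q ⊔ HJ := by
    apply inf_eq_left.2
    intro g hg
    obtain ⟨x, hx, k, hk, rfl⟩ := hLJ.mem_sup.1 hg
    obtain ⟨i, rfl⟩ := hy x hx
    refine (stab η).mul_mem ((stab η).pow_mem (mem_stab.2 hfix) i) ?_
    exact mem_stab.2 (cnj_eq_self hk hη)
  rw [hstab, Subgroup.relIndex_self, one_mul] at h1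
  rw [h1]
  exact not_dvd_deg hLJ.pH hη

/-- the shift of labels -/
private theorem ip_shift (hL : LocC p K Q Z H) (hLJ : LocC p J Q Z HJ) (hKJ : K ≤ J)
    {lam : G → ℂ} (hl : lam ∈ IrrS Q) (lam' f φ : G → ℂ) :
    ip (Q ⊔ H) (prodC Q HJ lam f) (prodC Q H lam' φ) =
      ip (Q ⊔ H) f (prodC Q H (fun x => lam' x * (lam x)⁻¹) φ) := by
  unfold ip B
  congr 1
  apply finsum_congr
  intro c
  have hc : (c : G) ∈ Q ⊔ H := c.2
  have hci : (c : G)⁻¹ ∈ Q ⊔ H := Subgroup.inv_mem _ hc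
  change prodC Q HJ lam f (c : G) * prodC Q H lam' φ (c : G)⁻¹ =
    f (c : G) * prodC Q H (fun x => lam' x * (lam x)⁻¹) φ (c : G)⁻¹
  unfold prodC
  rw [lift_mul_lam hL lam' (fun x => (lam x)⁻¹)]
  have h1 : lift Q H (fun x => (lam x)⁻¹) (c : G)⁻¹ * lift Q H lam (c : G)⁻¹ = 1 := by
    rw [← lift_mul_lam hL]
    have h2 : (fun x => (lam x)⁻¹ * lam x) = oneS Q := by
      classical
      funext x
      unfold oneS
      by_cases hx : x ∈ Q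
      · rw [if_pos hx, mul_comm]
        exact (lam_inv_mem hL hl).2 x hx
      · rw [if_neg hx, hl.2 x hx, mul_zero]
    rw [h2, lift_oneS hL hci]
  have h2 := lift_ne hL hl hc
  have h3 : lift Q H (fun x => (lam x)⁻¹) (c : G)⁻¹ = lift Q HJ lam (c : G) := by
    rw [lift_res hL hLJ hKJ lam hc]
    rw [h2.2] at h1
    calc lift Q H (fun x => (lam x)⁻¹) (c : G)⁻¹
        = lift Q H (fun x => (lam x)⁻¹) (c : G)⁻¹ * (lift Q H lam (c : G))⁻¹ *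
            lift Q H lam (c : G) := by
          rw [mul_assoc, inv_mul_cancel₀ h2.1, mul_one]
      _ = lift Q H lam (c : G) := by rw [h1, one_mul]
  rw [h3]
  ring

/-- if the shifted product is a constituent then the labels agree -/
private theorem shift_eq (hL : LocC p K Q Z H) (hLJ : LocC p J Q Z HJ) (hKJ : K ≤ J)
    (hn : J ≤ Subgroup.normalizer (K : Set G)) {lam lam' φ φ' : G → ℂ} (hl : lam ∈ IrrS Q)
    (hl' : lam' ∈ IrrS Q) (hφ : φ ∈ Ca p Q H) (hφ' : φ' ∈ Ca p Q HJ)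
    (h : ip (Q ⊔ H) (prodC Q HJ lam φ') (prodC Q H lam' φ) ≠ 0) : lam = lam' := by
  rw [ip_shift hL hLJ hKJ hl] at h
  have hm : (fun x => lam' x * (lam x)⁻¹) ∈ IrrS Q :=
    lam_mul_mem hL hl' (lam_inv_mem hL hl).1
  have h1 := ca_down hL hLJ hKJ hn hφ' (prodC_mem hL hm hφ.1.1) h
  have h2 : prodC Q H (fun x => lam' x * (lam x)⁻¹) φ =
      prodC Q H (oneS Q) (prodC Q H (fun x => lam' x * (lam x)⁻¹) φ) :=
    (prodC_one hL h1.1.1.2).symm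
  have h3 := (prodC_inj hL hm (Pool.Agent.Helper97.S4.oneS_mem Q) hφ h1 h2).1
  classical
  funext x
  by_cases hx : x ∈ Q
  · have h4 := congrFun h3 x
    unfold oneS at h4
    simp only [if_pos hx] at h4
    have h5 := (lam_inv_mem hL hl).2 x hx
    calc lam x = (lam' x * (lam x)⁻¹) * lam x := by rw [h4, one_mul]
      _ = lam' x * (lam x * (lam x)⁻¹) := by ring
      _ = lam' x := by rw [h5, mul_one]
  · rw [hl.2 x hx, hl'.2 x hx]

private theorem shift_self (hL : LocC p K Q Z H) {lam : G → ℂ} (hl : lam ∈ IrrS Q) {φ : G → ℂ}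
    (hφ : ∀ x, x ∉ Q ⊔ H → φ x = 0) :
    prodC Q H (fun x => lam x * (lam x)⁻¹) φ = φ := by
  classical
  have h2 : (fun x => lam x * (lam x)⁻¹) = oneS Q := by
    funext x
    unfold oneS
    by_cases hx : x ∈ Q
    · rw [if_pos hx]
      exact (lam_inv_mem hL hl).2 x hx
    · rw [if_neg hx, hl.2 x hx, zero_mul]
  rw [h2, prodC_one hL hφ]

open Classical in
theorem ip_prodC_J (hL : LocC p K Q Z H) (hLJ : LocC p J Q Z HJ) (hKJ : K ≤ J)
    (hn : J ≤ Subgroup.normalizer (K : Set G)) {lam lam' φ φ' : G → ℂ} (hl : lam ∈ IrrS Q)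
    (hl' : lam' ∈ IrrS Q) (hφ : φ ∈ Ca p Q H) (hφ' : φ' ∈ Ca p Q HJ) :
    ip (Q ⊔ H) (prodC Q HJ lam φ') (prodC Q H lam' φ) =
      if lam = lam' then ip (Q ⊔ H) φ' φ else 0 := by
  by_cases he : lam = lam'
  · subst he
    rw [if_pos rfl, ip_shift hL hLJ hKJ hl, shift_self hL hl hφ.1.1.2]
  · rw [if_neg he]
    by_contra h
    exact he (shift_eq hL hLJ hKJ hn hl hl' hφ hφ' h)

theorem ca_up (hL : LocC p K Q Z H) (hLJ : LocC p J Q Z HJ) (hKJ : K ≤ J)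
    (hn : J ≤ Subgroup.normalizer (K : Set G)) {lam φ θ' : G → ℂ} (hl : lam ∈ IrrS Q)
    (hφ : φ ∈ Ca p Q H) (hθ' : θ' ∈ IrrS (Q ⊔ HJ))
    (h : ip (Q ⊔ H) θ' (prodC Q H lam φ) ≠ 0) :
    ∃ φ' ∈ Ca p Q HJ, θ' = prodC Q HJ lam φ' ∧ ip (Q ⊔ H) φ' φ ≠ 0 := by
  classical
  have hp : p.Prime := Fact.out
  have hCJ := C_le hL hLJ hKJ
  have hnC := C_norm hL hLJ hKJ hn
  have hψ : prodC Q H lam φ ∈ IrrS (Q ⊔ H) := prodC_mem hL hl hφ.1.1
  obtain ⟨S, m, hm, hS, hexp⟩ := orbit_expand hCJ hnC hθ' hψ h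
  -- a generator of `Q`
  obtain ⟨a, _, ha⟩ := hL.cQ
  have : IsCyclic Q := hL.cyc
  obtain ⟨y0, hy0⟩ := IsCyclic.exists_generator (α := Q)
  have hy : ∀ x ∈ Q, ∃ i : ℕ, x = (y0 : G) ^ i := by
    intro x hx
    have h1 := hy0 ⟨x, hx⟩
    rw [← mem_powers_iff_mem_zpowers] at h1
    obtain ⟨i, hi⟩ := h1
    refine ⟨i, ?_⟩
    have h2 := congrArg (Subtype.val : Q → G) hi
    simpa using h2.symm
  have hyQ : (y0 : G) ∈ Q := y0.2
  have hyC : (y0 : G) ∈ Q ⊔ H := le_sup_left (a := Q) (b := H) hyQ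
  have hyp : (y0 : G) ^ p ^ a = 1 := by
    rw [← ha]
    have h1 : y0 ^ Nat.card Q = 1 := pow_card_eq_one'
    exact congrArg (Subtype.val : Q → G) h1
  -- the number of conjugates is prime to `p`
  have hScard : ¬ p ∣ S.card := by
    intro h1
    have h2 : S.card ∣ Q.relIndex (Q ⊔ HJ) :=
      card_orbit_dvd le_sup_left (fun x hx => cnj_eq_self (le_sup_left (a := Q) (b := H) hx) hψ) hS
    have h3 : Q ⊔ HJ ≤ J := by
      rw [hLJ.sup]
      exact inf_le_left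
    have h4 := Subgroup.relIndex_mul_relIndex Q (Q ⊔ HJ) J le_sup_left h3
    apply hLJ.syl
    rw [← h4]
    exact Dvd.dvd.mul_right (h1.trans h2) _
  have hlam := lin_mul hL hl
  have hlamy : lam y0 ≠ 0 := by
    intro h1
    have h2 := hlam.2.2 y0 hyQ
    rw [h1, zero_pow (Nat.card_pos (α := Q)).ne'] at h2
    exact zero_ne_one h2
  have hval : ∀ ρ ∈ S, ∃ z : OO p, z ∈ IsLocalRing.maximalIdeal (OO p) ∧
      ρ y0 = lam y0 * ((deg φ : ℂ) + (z : ℂ)) := by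
    intro ρ hρ
    obtain ⟨k, hk, rfl⟩ := (hS ρ).1 hρ
    have hφk : cnj k φ ∈ IrrS (Q ⊔ H) := cnj_mem_irrS (hnC hk) hφ.1.1
    obtain ⟨z, hz, hze⟩ := val_mod (p := p) hφk hyC hyp
    refine ⟨z, hz, ?_⟩
    rw [cnj_prodC_J hL hLJ hKJ hn hk hl]
    change lift Q H lam y0 * cnj k φ y0 = _
    rw [lift_Q hL lam hyQ, hze, irrS_deg hφk, deg_cnj]
  choose! z hz hzv using hval
  have hne : θ' y0 ≠ 0 := by
    intro h0
    have h1 := hexp y0 hyC
    rw [h0] at h1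
    have h2 : ∑ ρ ∈ S, (m : ℂ) * ρ y0
        = (m : ℂ) * lam y0 * (((S.card * deg φ : ℕ) : OO p) + ∑ ρ ∈ S, z ρ : OO p) := by
      have h3 : ∀ ρ ∈ S, (m : ℂ) * ρ y0 = (m : ℂ) * lam y0 * ((deg φ : ℂ) + (z ρ : ℂ)) := by
        intro ρ hρ
        rw [hzv ρ hρ]
        ring
      rw [Finset.sum_congr rfl h3, ← Finset.mul_sum]
      congr 1
      push_cast
      rw [Finset.sum_add_distrib, Finset.sum_const, nsmul_eq_mul]
    rw [h2] at h1
    have hmC : (m : ℂ) ≠ 0 := by exact_mod_cast hm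
    have h4 : ((((S.card * deg φ : ℕ) : OO p) + ∑ ρ ∈ S, z ρ : OO p) : ℂ) = 0 := by
      rcases mul_eq_zero.1 h1.symm with h5 | h5
      · exact absurd h5 (mul_ne_zero hmC hlamy)
      · exact h5
    have h5 : ((S.card * deg φ : ℕ) : OO p) + ∑ ρ ∈ S, z ρ = 0 := Subtype.ext h4
    have h6 : ∑ ρ ∈ S, z ρ ∈ IsLocalRing.maximalIdeal (OO p) :=
      Ideal.sum_mem _ fun ρ hρ => hz ρ hρ
    have h7 : ((S.card * deg φ : ℕ) : OO p) ∈ IsLocalRing.maximalIdeal (OO p) := by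
      rw [eq_neg_of_add_eq_zero_left h5]
      exact (IsLocalRing.maximalIdeal (OO p)).neg_mem h6
    rcases (Nat.Prime.dvd_mul hp).1 (dvd_of_mem h7) with h8 | h8
    · exact hScard h8
    · exact hφ.1.2 h8
  have hpθ : ¬ p ∣ deg θ' := mod_CJ hLJ hθ' hy hyQ hne
  obtain ⟨lam', hl', φ', hφ', hθe⟩ := ca_exists hLJ (θ := θ') ⟨hθ', hpθ⟩
  rw [hθe] at h
  have he : lam' = lam := shift_eq hL hLJ hKJ hn hl' hl hφ hφ' h
  subst he
  refine ⟨φ', hφ', hθe, ?_⟩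
  rw [ip_prodC_J hL hLJ hKJ hn hl' hl' hφ hφ', if_pos rfl] at h
  exact h

end Pool.Agent.Helper42.CY
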