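import Mathlib

/-!
# CY-12 (project CY): integral vectors with Gram matrix `e + δ` (Mathlib only)

`v i`, `i ∈ I`, integral vectors indexed by the finite set `J`, with `v i · v j = e + δ_ij`, `|I| ≥ e + 2`,
`e ≥ 1`, all orthogonal to a positive vector `d`. CLAIM: for every `χ ∈ J` either `v i χ = u` for all `i`,
with `u ^ 2 ≤ e`, or there are a sign `ε` and `i0` with `v i χ = ε` for `i = i0` and `0` otherwise.

Proof. Fix `i0 ∈ I` (`|I| ≥ 3`). For `i ≠ j` the vector `v i - v j` has norm `2` and is orthogonal to `d > 0`, so it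
is `e_χ - e_χ'` with different `χ`, `χ'` (`root`). For `i ≠ i0` put `w i = v i - v i0 = e_(a i) - e_(b i)`. For
`i ≠ j` (both `≠ i0`) `w i · w j = 1`, so `a i = a j` or `b i = b j`, not both (otherwise `w i = w j`, but
`w i · w i = 2`); and `a i ≠ b j` (`a i = b j` would give a contribution `-1`, and `w i · w j ≥ 1` would need
`a i = a j` and `b i = b j`...: then `b i = b j = a i`, absurd). If `a i = a j` for some pair `i ≠ j` and
`b k = b l` for some pair `k ≠ l`: a contradiction (`star`: with `a i = a j`, any third `k` has `a k = a i`,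
for otherwise `b k = b i` and `b k = b j`, `b i = b j` and `w i = w j`; so all `a k` are equal, and
then `b k ≠ b l`). So all `a i` are equal, or all `b i` are equal (`i ≠ i0`). In the first case put
`c i0 = a`, `c i = b i`, `ε = -1`, in the second `c i0 = b`, `c i = a i`, `ε = 1`: `c : I → J` is injective and
`v i - v j = ε (e_(c i) - e_(c j))` for all `i`, `j`. Hence `u = v i - ε e_(c i)` does not depend on `i`.
`v i · v i = e + 1` gives `u · u + 2 ε u (c i) = e`, so all `u (c i)` are equal to one integer `a`, and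
`|I| a ^ 2 + s + 2 ε a = e` where `s` is the sum of `u χ ^ 2` over the `χ` not of the form `c i`.
If `a ≠ 0` then `|I| a ^ 2 - 2 |a| ≤ e` with `|I| ≥ e + 2` forces `|a| = 1`, `|I| = e + 2`, `ε a = -1`, `s = 0`
(`(e + 2) a ^ 2 - 2 |a| > e` for `|a| ≥ 2`): `u = - ε ∑ e_(c i)` and `v i = - ε ∑_{j ≠ i} e_(c j)`, so
`∑_{j ≠ i} d (c j) = 0`, a contradiction to `d > 0`. So `a = 0`, `s = e`: for `χ = c i0` we get
`v i χ = ε δ`, and for the other `χ`, `v i χ = u χ` with `(u χ) ^ 2 ≤ s = e`.
-/

namespace Pool.Agent.Helper42.CY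

/-- integral vectors of norm `2` orthogonal to a positive vector are differences of unit vectors -/
theorem root {J : Type} [Fintype J] [DecidableEq J] (w : J → ℤ) (d : J → ℤ) (hd : ∀ χ, 0 < d χ)
    (h2 : ∑ χ, w χ * w χ = 2) (h0 : ∑ χ, w χ * d χ = 0) :
    ∃ a b : J, a ≠ b ∧ ∀ χ, w χ = (if χ = a then 1 else 0) - (if χ = b then 1 else 0) := by
  -- a positive entry and a negative entry
  have hpos : ∃ a, 0 < w a := by
    by_contra hno
    push Not at hno
    have h1 : ∀ χ ∈ (Finset.univ : Finset J), w χ * d χ ≤ 0 := fun χ _ =>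
      mul_nonpos_of_nonpos_of_nonneg (hno χ) (hd χ).le
    have h3 := (Finset.sum_eq_zero_iff_of_nonpos h1).1 h0
    have h4 : ∀ χ, w χ = 0 := by
      intro χ
      have h5 := h3 χ (Finset.mem_univ χ)
      rcases mul_eq_zero.1 h5 with h6 | h6
      · exact h6
      · exact absurd h6 (hd χ).ne'
    simp [h4] at h2
  have hneg : ∃ b, w b < 0 := by
    by_contra hno
    push Not at hno
    have h1 : ∀ χ ∈ (Finset.univ : Finset J), 0 ≤ w χ * d χ := fun χ _ =>
      mul_nonneg (hno χ) (hd χ).le
    have h3 := (Finset.sum_eq_zero_iff_of_nonneg h1).1 h0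
    have h4 : ∀ χ, w χ = 0 := by
      intro χ
      have h5 := h3 χ (Finset.mem_univ χ)
      rcases mul_eq_zero.1 h5 with h6 | h6
      · exact h6
      · exact absurd h6 (hd χ).ne'
    simp [h4] at h2
  obtain ⟨a, ha⟩ := hpos
  obtain ⟨b, hb⟩ := hneg
  have hab : a ≠ b := by
    rintro rfl
    omega
  have hsub : ∀ χ, χ ≠ a → χ ≠ b → w a * w a + w b * w b + w χ * w χ ≤ 2 := by
    intro χ hxa hxb
    have h1 : ∑ x ∈ ({a, b, χ} : Finset J), w x * w x ≤ ∑ x, w x * w x :=
      Finset.sum_le_sum_of_subset_of_nonneg (Finset.subset_univ _)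
        (fun x _ _ => mul_self_nonneg (w x))
    rw [Finset.sum_insert (by simp [hab, hxa.symm]), Finset.sum_insert (by simp [hxb.symm]),
      Finset.sum_singleton, h2] at h1
    linarith
  have hsub2 : w a * w a + w b * w b ≤ 2 := by
    have h1 : ∑ x ∈ ({a, b} : Finset J), w x * w x ≤ ∑ x, w x * w x :=
      Finset.sum_le_sum_of_subset_of_nonneg (Finset.subset_univ _)
        (fun x _ _ => mul_self_nonneg (w x))
    rw [Finset.sum_insert (by simp [hab]), Finset.sum_singleton, h2] at h1
    linarith
  have hwa : w a = 1 := by nlinarith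
  have hwb : w b = -1 := by nlinarith
  refine ⟨a, b, hab, fun χ => ?_⟩
  by_cases hxa : χ = a
  · subst hxa
    simp [hab, hwa]
  · by_cases hxb : χ = b
    · subst hxb
      simp [hxa, hwb]
    · have h1 := hsub χ hxa hxb
      rw [hwa, hwb] at h1
      have h3 : w χ * w χ ≤ 0 := by linarith
      have h4 : w χ = 0 := by
        have := mul_self_nonneg (w χ)
        exact mul_self_eq_zero.1 (le_antisymm h3 this)
      simp [hxa, hxb, h4]

/-- inner product of two differences of unit vectors -/
theorem inner_root {J : Type} [Fintype J] [DecidableEq J] (a b a' b' : J) :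
    ∑ χ, ((if χ = a then (1 : ℤ) else 0) - (if χ = b then 1 else 0)) *
      ((if χ = a' then 1 else 0) - (if χ = b' then 1 else 0)) =
      (if a = a' then 1 else 0) - (if a = b' then 1 else 0) - (if b = a' then 1 else 0) +
        (if b = b' then 1 else 0) := by
  simp only [sub_mul, mul_sub, Finset.sum_sub_distrib, ite_mul, one_mul, zero_mul,
    Finset.sum_ite_eq', Finset.mem_univ, if_true]
  ring

/-- the combinatorial part: the vectors are `u + ε e_(c i)` -/
theorem shape {I J : Type} [Fintype I] [DecidableEq I] [Fintype J] [DecidableEq J]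
    (v : I → J → ℤ) (e : ℕ)
    (hg : ∀ i j, ∑ χ, v i χ * v j χ = e + (if i = j then 1 else 0)) (d : J → ℤ)
    (hd : ∀ χ, 0 < d χ) (hr : ∀ i, ∑ χ, v i χ * d χ = 0) (i0 : I) :
    ∃ (u : J → ℤ) (ε : ℤ) (c : I → J), (ε = 1 ∨ ε = -1) ∧ Function.Injective c ∧
      ∀ i χ, v i χ = u χ + ε * (if χ = c i then 1 else 0) := by
  have h1 : ∀ i, i ≠ i0 → ∃ a b : J, a ≠ b ∧
      ∀ χ, v i χ - v i0 χ = (if χ = a then 1 else 0) - (if χ = b then 1 else 0) := by
    intro i hi
    refine root (fun χ => v i χ - v i0 χ) d hd ?_ ?_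
    · have : ∀ χ, (v i χ - v i0 χ) * (v i χ - v i0 χ) =
          v i χ * v i χ - v i χ * v i0 χ - v i0 χ * v i χ + v i0 χ * v i0 χ := fun χ => by ring
      simp only [this, Finset.sum_add_distrib, Finset.sum_sub_distrib, hg]
      simp [hi, hi.symm]
      ring
    · simp only [sub_mul, Finset.sum_sub_distrib, hr, sub_zero]
  haveI hJ : Nonempty J := by
    by_contra hJ
    rw [not_nonempty_iff] at hJ
    have h2 := hg i0 i0
    simp at h2
    omega
  choose! a b hab hv using h1
  have key : ∀ i j, i ≠ i0 → j ≠ i0 → i ≠ j →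
      (if a i = a j then (1 : ℤ) else 0) - (if a i = b j then 1 else 0) -
        (if b i = a j then 1 else 0) + (if b i = b j then 1 else 0) = 1 := by
    intro i j hi hj hij
    rw [← inner_root]
    have h2 : ∀ χ, ((if χ = a i then (1 : ℤ) else 0) - (if χ = b i then 1 else 0)) *
        ((if χ = a j then 1 else 0) - (if χ = b j then 1 else 0)) =
        v i χ * v j χ - v i χ * v i0 χ - v i0 χ * v j χ + v i0 χ * v i0 χ := by
      intro χ
      rw [← hv i hi χ, ← hv j hj χ]
      ring
    simp only [h2, Finset.sum_add_distrib, Finset.sum_sub_distrib, hg]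
    simp [hij, hi, hj.symm]
  have key2 : ∀ i j, i ≠ i0 → j ≠ i0 → i ≠ j →
      ((a i = a j ∧ b i ≠ b j) ∨ (a i ≠ a j ∧ b i = b j)) ∧ a i ≠ b j := by
    intro i j hi hj hij
    have h2 := key i j hi hj hij
    have h3 := hab i hi
    have h4 := hab j hj
    by_cases e1 : a i = a j <;> by_cases e2 : b i = b j <;> by_cases e3 : a i = b j <;>
      by_cases e4 : b i = a j <;> simp [e1, e2, e3, e4] at h2 ⊢ <;> simp_all
  by_cases hA : ∃ i j, i ≠ i0 ∧ j ≠ i0 ∧ i ≠ j ∧ a i = a j
  · -- all `a` are equal
    obtain ⟨i, j, hi, hj, hij, haa⟩ := hA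
    have hall : ∀ k, k ≠ i0 → a k = a i := by
      intro k hk
      by_contra hne
      have hki : k ≠ i := fun h => hne (by rw [h])
      have hkj : k ≠ j := fun h => hne (by rw [h, haa])
      have h2 := (key2 k i hk hi hki).1
      have h3 := (key2 k j hk hj hkj).1
      have h4 := (key2 i j hi hj hij).1
      rcases h2 with ⟨h2, -⟩ | ⟨-, h2⟩
      · exact hne h2
      · rcases h3 with ⟨h3, -⟩ | ⟨-, h3⟩
        · exact hne (h3.trans haa.symm)
        · rcases h4 with ⟨-, h4⟩ | ⟨h4, -⟩
          · exact h4 (h2.symm.trans h3)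
          · exact h4 haa
    refine ⟨fun χ => v i0 χ + (if χ = a i then 1 else 0), -1,
      fun k => if k = i0 then a i else b k, Or.inr rfl, ?_, ?_⟩
    · intro k l hkl
      by_cases hk : k = i0
      · by_cases hl : l = i0
        · rw [hk, hl]
        · simp only [hk, hl, if_true, if_false] at hkl
          exact absurd ((hall l hl).trans hkl) (hab l hl)
      · by_cases hl : l = i0
        · simp only [hk, hl, if_true, if_false] at hkl
          exact absurd ((hall k hk).trans hkl.symm) (hab k hk)
        · simp only [hk, hl, if_false] at hkl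
          by_contra hne
          rcases (key2 k l hk hl hne).1 with ⟨-, h2⟩ | ⟨h2, -⟩
          · exact h2 hkl
          · exact h2 ((hall k hk).trans (hall l hl).symm)
    · intro k χ
      by_cases hk : k = i0
      · simp only [hk, if_true]
        ring
      · have h2 := hv k hk χ
        rw [hall k hk] at h2
        simp only [hk, if_false]
        linarith
  · -- all `b` are equal
    push Not at hA
    by_cases hex : ∃ i, i ≠ i0
    · obtain ⟨i, hi⟩ := hex
      have hall : ∀ k, k ≠ i0 → b k = b i := by
        intro k hk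
        by_cases hki : k = i
        · rw [hki]
        · rcases (key2 k i hk hi hki).1 with ⟨h2, -⟩ | ⟨-, h2⟩
          · exact absurd h2 (hA k i hk hi hki)
          · exact h2
      refine ⟨fun χ => v i0 χ - (if χ = b i then 1 else 0), 1,
        fun k => if k = i0 then b i else a k, Or.inl rfl, ?_, ?_⟩
      · intro k l hkl
        by_cases hk : k = i0
        · by_cases hl : l = i0
          · rw [hk, hl]
          · simp only [hk, hl, if_true, if_false] at hkl
            exact absurd (hkl.symm.trans (hall l hl).symm) (hab l hl)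
        · by_cases hl : l = i0
          · simp only [hk, hl, if_true, if_false] at hkl
            exact absurd (hkl.trans (hall k hk).symm) (hab k hk)
          · simp only [hk, hl, if_false] at hkl
            by_contra hne
            exact hA k l hk hl hne hkl
      · intro k χ
        by_cases hk : k = i0
        · subst hk
          simp
        · have h2 := hv k hk χ
          rw [hall k hk] at h2
          simp only [hk, if_false]
          linarith
    · push Not at hex
      -- only one index
      obtain ⟨χ0⟩ := hJ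
      refine ⟨fun χ => v i0 χ - (if χ = χ0 then 1 else 0), 1, fun _ => χ0, Or.inl rfl, ?_, ?_⟩
      · intro k l _
        rw [hex k, hex l]
      · intro k χ
        rw [hex k]
        simp

theorem coh0 {I J : Type} [Fintype I] [DecidableEq I] [Fintype J] (v : I → J → ℤ) (e : ℕ)
    (he : 1 ≤ e) (hI : e + 2 ≤ Fintype.card I)
    (hg : ∀ i j, ∑ χ, v i χ * v j χ = e + (if i = j then 1 else 0)) (d : J → ℤ)
    (hd : ∀ χ, 0 < d χ) (hr : ∀ i, ∑ χ, v i χ * d χ = 0) (χ : J) :
    (∃ u : ℤ, u ^ 2 ≤ e ∧ ∀ i, v i χ = u) ∨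
      ∃ ε : ℤ, (ε = 1 ∨ ε = -1) ∧ ∃ i0, ∀ i, v i χ = if i = i0 then ε else 0 := by
  classical
  have hI0 : 0 < Fintype.card I := by omega
  obtain ⟨i0⟩ : Nonempty I := Fintype.card_pos_iff.1 hI0
  obtain ⟨u, ε, c, hε, hc, hv⟩ := shape v e hg d hd hr i0
  have hε2 : ε * ε = 1 := by rcases hε with h | h <;> rw [h] <;> norm_num
  -- norms
  have hnorm : ∀ i, ∑ x, u x * u x + 2 * (ε * u (c i)) = e := by
    intro i
    have h1 := hg i i
    have h2 : ∀ x, v i x * v i x = u x * u x + 2 * ε * (u x * (if x = c i then 1 else 0)) +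
        (if x = c i then 1 else 0) := by
      intro x
      rw [hv i x]
      by_cases hx : x = c i
      · simp only [hx, if_true]
        linear_combination hε2
      · simp [hx]
    simp only [h2, Finset.sum_add_distrib, ← Finset.mul_sum] at h1
    simp only [mul_ite, mul_one, mul_zero, Finset.sum_ite_eq', Finset.mem_univ, if_true] at h1
    linarith
  obtain ⟨α, hα⟩ : ∃ α : ℤ, ε * u (c i0) = α := ⟨_, rfl⟩
  have hα' : ∀ i, ε * u (c i) = α := by
    intro i
    have h1 := hnorm i
    have h2 := hnorm i0
    rw [hα] at h2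
    linarith
  have huc : ∀ i, u (c i) = ε * α := by
    intro i
    rw [← hα' i, ← mul_assoc, hε2, one_mul]
  have hsum : ∑ x, u x * u x + 2 * α = e := by rw [← hα]; exact hnorm i0
  -- the norm of `u` on the image of `c`
  have himg : ∑ x ∈ Finset.univ.image c, u x * u x = Fintype.card I * (α * α) := by
    rw [Finset.sum_image (fun i _ j _ h => hc h)]
    have : ∀ i, u (c i) * u (c i) = α * α := by
      intro i
      rw [huc i]
      linear_combination (α * α) * hε2
    simp [this, Finset.card_univ]
  have hge : (Fintype.card I : ℤ) * (α * α) ≤ ∑ x, u x * u x := by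
    rw [← himg]
    exact Finset.sum_le_sum_of_subset_of_nonneg (Finset.subset_univ _)
      (fun x _ _ => mul_self_nonneg (u x))
  have hge' : ∀ x, x ∉ Finset.univ.image c →
      (Fintype.card I : ℤ) * (α * α) + u x * u x ≤ ∑ x, u x * u x := by
    intro x hx
    have h1 : ∑ y ∈ insert x (Finset.univ.image c), u y * u y ≤ ∑ y, u y * u y :=
      Finset.sum_le_sum_of_subset_of_nonneg (Finset.subset_univ _)
        (fun x _ _ => mul_self_nonneg (u x))
    rw [Finset.sum_insert hx, himg] at h1
    linarith
  have hcard : (e : ℤ) + 2 ≤ Fintype.card I := by exact_mod_cast hI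
  have he' : (1 : ℤ) ≤ e := by exact_mod_cast he
  have hα0 : α = 0 := by
    by_contra hne
    have hsq : 1 ≤ α * α := by
      rcases lt_or_gt_of_ne hne with h | h <;> nlinarith
    have hmul : ((e : ℤ) + 2) * (α * α) ≤ Fintype.card I * (α * α) :=
      mul_le_mul_of_nonneg_right hcard (by positivity)
    have h1 : (e : ℤ) * (α * α - 1) + 2 * (α * (α + 1)) ≤ 0 := by nlinarith
    have h2 : 0 ≤ α * (α + 1) := by
      rcases le_or_gt 0 α with h | h
      · positivity
      · nlinarith
    have h3 : α * α - 1 ≤ 0 := by nlinarith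
    have h4 : α * α = 1 := by linarith
    have h5 : α = -1 := by
      rw [h4] at h1
      have h6 : α * (α + 1) = 0 := by linarith
      rcases mul_eq_zero.1 h6 with h7 | h7
      · exact absurd h7 hne
      · linarith
    -- `u` vanishes outside the image of `c`
    have hzero : ∀ x, x ∉ Finset.univ.image c → u x = 0 := by
      intro x hx
      have h6 := hge' x hx
      rw [h5] at h6 hsum
      have h7 : u x * u x ≤ 0 := by linarith
      exact mul_self_eq_zero.1 (le_antisymm h7 (mul_self_nonneg _))
    have huc' : ∀ i, u (c i) = -ε := by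
      intro i
      rw [huc i, h5]
      ring
    -- the vector `v i0` has constant sign
    obtain ⟨j, hj⟩ : ∃ j, j ≠ i0 := by
      have : 1 < Fintype.card I := by omega
      exact Fintype.exists_ne_of_one_lt_card this i0
    have hval : ∀ x, -ε * v i0 x = if x ∈ Finset.univ.image c ∧ x ≠ c i0 then 1 else 0 := by
      intro x
      rw [hv i0 x]
      by_cases hx : x ∈ Finset.univ.image c
      · obtain ⟨k, -, hk⟩ := Finset.mem_image.1 hx
        by_cases hxi : x = c i0
        · have hR : ¬ (x ∈ Finset.univ.image c ∧ x ≠ c i0) := fun h => h.2 hxi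
          rw [if_neg hR, if_pos hxi, hxi, huc' i0]
          ring
        · have hR : x ∈ Finset.univ.image c ∧ x ≠ c i0 := ⟨hx, hxi⟩
          rw [if_pos hR, if_neg hxi, ← hk, huc' k]
          linear_combination hε2
      · have : x ≠ c i0 := fun h => hx (h ▸ Finset.mem_image_of_mem c (Finset.mem_univ i0))
        have hR : ¬ (x ∈ Finset.univ.image c ∧ x ≠ c i0) := fun h => hx h.1
        rw [if_neg hR, hzero x hx, if_neg this]
        ring
    have hs : ∑ x, (-ε * v i0 x) * d x = 0 := by
      have h6 : ∀ x, (-ε * v i0 x) * d x = -ε * (v i0 x * d x) := fun x => by ring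
      simp only [h6, ← Finset.mul_sum, hr, mul_zero]
    have hpos : 0 < ∑ x, (-ε * v i0 x) * d x := by
      apply Finset.sum_pos'
      · intro x _
        rw [hval x]
        split_ifs
        · simpa using (hd x).le
        · simp
      · refine ⟨c j, Finset.mem_univ _, ?_⟩
        rw [hval (c j), if_pos ⟨Finset.mem_image_of_mem c (Finset.mem_univ j),
          fun h => hj (hc h)⟩]
        simpa using hd (c j)
    omega
  rw [hα0] at hsum huc
  have huc0 : ∀ i, u (c i) = 0 := fun i => by rw [huc i, mul_zero]
  by_cases hx : ∃ i, c i = χ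
  · right
    obtain ⟨i1, hi1⟩ := hx
    refine ⟨ε, hε, i1, fun i => ?_⟩
    rw [hv i χ, ← hi1, huc0 i1, zero_add]
    by_cases hii : i = i1
    · simp [hii]
    · rw [if_neg (fun h => hii (hc h).symm), if_neg hii, mul_zero]
  · left
    push Not at hx
    refine ⟨u χ, ?_, fun i => ?_⟩
    · have h1 : u χ * u χ ≤ ∑ x, u x * u x :=
        Finset.single_le_sum (f := fun x => u x * u x) (fun x _ => mul_self_nonneg (u x))
          (Finset.mem_univ χ)
      have h2 : u χ ^ 2 = u χ * u χ := by ring
      rw [h2]
      linarith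
    · rw [hv i χ, if_neg (fun h => hx i h.symm), mul_zero, add_zero]

end Pool.Agent.Helper42.CY
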