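import Pool.Agent.Helper42.IR.Typ
import Pool.Agent.Helper97.S4.Defs

/-!
# Project CY (MP_5ecade_al): groups with cyclic Sylow `p`-subgroups, common definitions

`K` is a subgroup of the finite group `G` with a cyclic Sylow `p`-subgroup `Q` of order `q = p ^ a`,
`a ≥ 2`, `Z` is the subgroup of order `p` of `Q`, `C = K ⊓ centralizer Z = Q ⊔ H` with the normal
`p`-complement `H`. `lift Q H lam` is the linear character of `C` with `H` in its kernel which extends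
the character `lam` of `Q`, `prodC Q H lam φ` its product with `φ`. `Ca p Q H` are the canonical
characters of `C`: irreducible, of degree prime to `p`, with trivial determinant on `Q`. The numbers
`aa Q H χ lam φ` are the differences of the multiplicities of `lift lam * φ` and of `φ` in `χ`. The local
subgroup is `NN K Z`.
-/

namespace Pool.Agent.Helper42.CY

open Pool.Agent.Helper42.INC Pool.Agent.Helper42.IR

section loc

variable {G : Type} [Group G]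

/-- `Q` is a cyclic Sylow `p`-subgroup of `K` of order at least `p ^ 2`, `Z` its subgroup of order `p`
and `H` is the normal `p`-complement of the centralizer of `Z` in `K` -/
structure LocC (p : ℕ) (K Q Z H : Subgroup G) : Prop where
  QK : Q ≤ K
  cyc : IsCyclic Q
  cQ : ∃ a, 2 ≤ a ∧ Nat.card Q = p ^ a
  syl : ¬ p ∣ Q.relIndex K
  ZQ : Z ≤ Q
  cZ : Nat.card Z = p
  HC : H ≤ K ⊓ Subgroup.centralizer (Z : Set G)
  nH : K ⊓ Subgroup.centralizer (Z : Set G) ≤ Subgroup.normalizer (H : Set G)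
  pH : ¬ p ∣ Nat.card H
  sup : Q ⊔ H = K ⊓ Subgroup.centralizer (Z : Set G)

open Classical in
/-- the linear character of `Q ⊔ H` with `H` in its kernel extending `lam` (zero off `Q ⊔ H`) -/
noncomputable def lift (Q H : Subgroup G) (lam : G → ℂ) : G → ℂ :=
  fun g => ∑ᶠ x : Q, if (x : G)⁻¹ * g ∈ H then lam (x : G) else 0

open Classical in
/-- restriction to a subgroup (zero off it) -/
noncomputable def rst (L : Subgroup G) (f : G → ℂ) : G → ℂ := fun x => if x ∈ L then f x else 0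

/-- the product of `lift Q H lam` and `φ` -/
noncomputable def prodC (Q H : Subgroup G) (lam φ : G → ℂ) : G → ℂ :=
  fun g => lift Q H lam g * φ g

/-- the determinant on `Q` of a function which is a character on `Q` -/
noncomputable def dt (Q : Subgroup G) (f : G → ℂ) (x : G) : ℂ :=
  ∏ᶠ mu : IrrS Q, mu.1 x ^ ⌊(ip Q f mu.1).re⌋₊

/-- the multiplicities of `f` on `Q` are natural numbers -/
def NM (Q : Subgroup G) (f : G → ℂ) : Prop := ∀ mu ∈ IrrS Q, ∃ m : ℕ, ip Q f mu = m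

/-- the canonical characters of `Q ⊔ H` -/
def Ca (p : ℕ) (Q H : Subgroup G) : Set (G → ℂ) :=
  {φ | φ ∈ IrrSP p (Q ⊔ H) ∧ ∀ x ∈ Q, dt Q φ x = 1}

/-- the difference of the multiplicities of `lift lam * φ` and `φ` in `χ` restricted to `Q ⊔ H` -/
noncomputable def aa (Q H : Subgroup G) (χ lam φ : G → ℂ) : ℂ :=
  ip (Q ⊔ H) χ (prodC Q H lam φ) - ip (Q ⊔ H) χ φ

/-- `χ` belongs to the block of `φ` -/
def Bl (Q H : Subgroup G) (χ φ : G → ℂ) : Prop := ∃ lam ∈ IrrS Q, aa Q H χ lam φ ≠ 0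

/-- nonexceptional shape with sign `ε` -/
def NE (Q H : Subgroup G) (χ φ : G → ℂ) (ε : ℂ) : Prop :=
  ∀ lam ∈ IrrS Q, lam ≠ oneS Q → aa Q H χ lam φ = ε

/-- exceptional shape with sign `ε` and label `l0` -/
def EX (K Q H : Subgroup G) (χ φ l0 : G → ℂ) (ε : ℂ) : Prop :=
  ∀ lam ∈ IrrS Q, lam ≠ oneS Q →
    ((∃ n ∈ NN K Q, cnj n φ = φ ∧ cnj n l0 = lam) → aa Q H χ lam φ = ε) ∧
    ((¬ ∃ n ∈ NN K Q, cnj n φ = φ ∧ cnj n l0 = lam) → aa Q H χ lam φ = 0)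

open Classical in
/-- everything we need to know about the characters of `K` on `C = Q ⊔ H` -/
structure Pkg (p : ℕ) (K Q Z H : Subgroup G) : Prop where
  exb : ∀ χ ∈ IrrSP p K, ∃ φ ∈ Ca p Q H, Bl Q H χ φ
  unb : ∀ χ ∈ IrrSP p K, ∀ φ ∈ Ca p Q H, ∀ ρ ∈ Ca p Q H, Bl Q H χ φ → Bl Q H χ ρ →
    ∃ n ∈ NN K Q, cnj n φ = ρ
  def0 : ∀ χ ∈ IrrS K, p ∣ deg χ → ∀ φ ∈ Ca p Q H, ¬ Bl Q H χ φ
  shape : ∀ χ ∈ IrrSP p K, ∀ φ ∈ Ca p Q H, Bl Q H χ φ → ∃ ε : ℂ, (ε = 1 ∨ ε = -1) ∧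
    (NE Q H χ φ ε ∨ ∃ l0 ∈ IrrS Q, l0 ≠ oneS Q ∧ EX K Q H χ φ l0 ε)
  norm : ∀ φ ∈ Ca p Q H, ∀ lam ∈ IrrS Q, ∀ lam' ∈ IrrS Q, lam ≠ oneS Q → lam' ≠ oneS Q →
    ∑ᶠ χ : IrrS K, aa Q H χ.1 lam φ * aa Q H χ.1 lam' φ =
      ((Q ⊔ H).relIndex (NN K Q ⊓ stab φ) : ℂ) +
        (if ∃ n ∈ NN K Q, cnj n φ = φ ∧ cnj n lam = lam' then 1 else 0)
  degNE : ∀ χ ∈ IrrSP p K, ∀ φ ∈ Ca p Q H, ∀ ε : ℂ, (ε = 1 ∨ ε = -1) → NE Q H χ φ ε →
    (deg χ : ZMod p) ^ 2 = (((NN K Z ⊓ stab φ).relIndex (NN K Z) * deg φ : ℕ) : ZMod p) ^ 2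
  degEX : ∀ χ ∈ IrrSP p K, ∀ φ ∈ Ca p Q H, ∀ l0 ∈ IrrS Q, l0 ≠ oneS Q → ∀ ε : ℂ,
    (ε = 1 ∨ ε = -1) → EX K Q H χ φ l0 ε →
    (deg χ : ZMod p) ^ 2 = (((Q ⊔ H).relIndex (NN K Z) * deg φ : ℕ) : ZMod p) ^ 2

/-- types of partners: either `ψ` is induced from `lift l0 * φ`, or `ψ` lies over `φ` -/
def Typ (K Q H : Subgroup G) (χ ψ φ : G → ℂ) : Prop :=
  (∃ l0 ∈ IrrS Q, l0 ≠ oneS Q ∧ EX K Q H ψ φ l0 1 ∧ aa Q H χ l0 φ ≠ 0) ∨
  (ip (Q ⊔ H) ψ φ ≠ 0 ∧ ∀ lam ∈ IrrS Q, lam ≠ oneS Q → aa Q H χ lam φ ≠ 0)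

/-- the output of section 4 -/
structure Sec4 (p : ℕ) (K Q Z H : Subgroup G) (F : (G → ℂ) → (G → ℂ)) : Prop where
  bij : Set.BijOn F (IrrSP p K) (IrrSP p (NN K Z))
  equivariant : ∀ n ∈ Subgroup.normalizer (Z : Set G), ∀ χ ∈ IrrSP p K,
    F (cnj n χ) = cnj n (F χ)
  degree : ∀ χ ∈ IrrSP p K, (deg (F χ) : ZMod p) ^ 2 = (deg χ : ZMod p) ^ 2
  block : ∀ χ ∈ IrrSP p K, ∀ φ ∈ Ca p Q H, Bl Q H χ φ ↔ Bl Q H (F χ) φ
  typ : ∀ χ ∈ IrrSP p K, ∀ φ ∈ Ca p Q H, Bl Q H χ φ → Typ K Q H χ (F χ) φ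

/-! ### Section 4 -/

/-- the characters of `K` of degree prime to `p` in the block of `φ` -/
def BB (p : ℕ) (K Q H : Subgroup G) (φ : G → ℂ) : Set (G → ℂ) :=
  {χ | χ ∈ IrrSP p K ∧ Bl Q H χ φ}

/-- full support over `φ` -/
def Full (Q H : Subgroup G) (χ φ : G → ℂ) : Prop :=
  ∀ lam ∈ IrrS Q, lam ≠ oneS Q → aa Q H χ lam φ ≠ 0

/-- the characters of `K` of degree prime to `p` with full support over `φ` -/
def FF (p : ℕ) (K Q H : Subgroup G) (φ : G → ℂ) : Set (G → ℂ) :=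
  {χ | χ ∈ IrrSP p K ∧ Full Q H χ φ}

/-- the characters of `K` of degree prime to `p` in the block of `φ` without full support -/
def EE (p : ℕ) (K Q H : Subgroup G) (φ : G → ℂ) : Set (G → ℂ) :=
  {χ | χ ∈ BB p K Q H φ ∧ ¬ Full Q H χ φ}

/-- the support of `χ` -/
def Sp (p : ℕ) (Q H : Subgroup G) (χ : G → ℂ) : Set ((G → ℂ) × (G → ℂ)) :=
  {x | x.1 ∈ Ca p Q H ∧ x.2 ∈ IrrS Q ∧ aa Q H χ x.2 x.1 ≠ 0}

end loc

end Pool.Agent.Helper42.CY
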