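import Pool.Agent.Helper42.CY.Lab

/-!
# CY-06 (project CY): the determinant function `dt`

`dt Q f x = ∏ mu ∈ IrrS Q, mu x ^ ⌊re (ip Q f mu)⌋₊` for functions `f` with natural multiplicities `NM Q f`;
`Q` cyclic, all `mu ∈ IrrS Q` are linear (`lin_mul`), `IrrS Q` is finite (`irrS_finite`).

* `nm_irr`: `ip_res_nat`. `nm_sum`: `ip` is additive in the first argument.
* `dt_congr`: `ip Q f mu` only depends on `f` on `Q`.
* `dt_sum`: the multiplicities of `∑ n i * f i` are `∑ n i * m i mu`, `mu x ^ (∑ ..) = ∏ ..`.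
* `nm_one`: `f 1 = ∑ mu, ip Q f mu * mu 1 = ∑ mu, ip Q f mu` (`expand_on`; `f` is a class function on `Q`
  trivially, `Q` is commutative).
* `dt_twist`: `ip Q (lam f) mu = ip Q f (lam⁻¹ mu)`, so after the substitution `mu = lam nu`
  `dt Q (lam f) x = ∏ nu, (lam x nu x) ^ (m nu) = lam x ^ (∑ m nu) * dt Q f x`, `∑ m nu = f 1`.
* `dt_cnj`: `ip Q (cnj a f) (cnj a mu) = ip Q f mu` (`ip_cnj`), substitution `mu ↦ cnj a mu` in the product.
-/

namespace Pool.Agent.Helper42.CY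

open Pool.Agent.Helper42.INC Pool.Agent.Helper42.IR Pool.Agent.Helper97.S4

variable {G : Type} [Group G] [Finite G] {p : ℕ} [Fact p.Prime] {K Q Z H : Subgroup G}

private theorem dtx_ip_congr {f g : G → ℂ} (h : ∀ x ∈ Q, f x = g x) (mu : G → ℂ) :
    ip Q f mu = ip Q g mu := by
  have h1 : (fun y : Q => f y) = fun y : Q => g y := funext fun y => h y y.2
  unfold ip
  rw [h1]

private theorem dtx_ip_sum {ι : Type} (s : Finset ι) (n : ι → ℕ) (f : ι → G → ℂ) (mu : G → ℂ) :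
    ip Q (fun x => ∑ i ∈ s, (n i : ℂ) * f i x) mu = ∑ i ∈ s, (n i : ℂ) * ip Q (f i) mu := by
  have h1 : (fun y : Q => ∑ i ∈ s, (n i : ℂ) * f i y) =
      ∑ i ∈ s, (n i : ℂ) • (fun y : Q => f i y) := by
    funext y
    simp only [Finset.sum_apply, Pi.smul_apply, smul_eq_mul]
  unfold ip
  rw [h1, B_sum_left]
  exact Finset.sum_congr rfl fun i _ => B_smul_left _ _ _

/-- the multiplicity -/
private noncomputable def dtx_m (Q : Subgroup G) (f mu : G → ℂ) : ℕ := ⌊(ip Q f mu).re⌋₊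

private theorem dtx_m_eq {f mu : G → ℂ} (hf : NM Q f) (hmu : mu ∈ IrrS Q) :
    (dtx_m Q f mu : ℂ) = ip Q f mu := by
  obtain ⟨m, hm⟩ := hf mu hmu
  unfold dtx_m
  rw [hm, Complex.natCast_re, Nat.floor_natCast]

private theorem dtx_eq [Fintype (IrrS Q)] (f : G → ℂ) (x : G) :
    dt Q f x = ∏ mu : IrrS Q, mu.1 x ^ dtx_m Q f mu.1 := by
  unfold dt
  rw [finprod_eq_prod_of_fintype]
  rfl

theorem nm_irr {L : Subgroup G} (hQL : Q ≤ L) {f : G → ℂ} (hf : f ∈ IrrS L) : NM Q f :=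
  fun _ hmu => ip_res_nat hQL hf hmu

theorem dt_congr {f g : G → ℂ} (h : ∀ x ∈ Q, f x = g x) (x : G) : dt Q f x = dt Q g x := by
  unfold dt
  refine finprod_congr fun mu => ?_
  rw [dtx_ip_congr h]

theorem nm_sum {ι : Type} (s : Finset ι) (n : ι → ℕ) (f : ι → G → ℂ) (hf : ∀ i ∈ s, NM Q (f i)) :
    NM Q (fun x => ∑ i ∈ s, (n i : ℂ) * f i x) := by
  intro mu hmu
  refine ⟨∑ i ∈ s, n i * dtx_m Q (f i) mu, ?_⟩
  rw [dtx_ip_sum]
  push_cast
  exact Finset.sum_congr rfl fun i hi => by rw [dtx_m_eq (hf i hi) hmu]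

theorem dt_sum {ι : Type} (s : Finset ι) (n : ι → ℕ) (f : ι → G → ℂ) (hf : ∀ i ∈ s, NM Q (f i))
    (x : G) : dt Q (fun x => ∑ i ∈ s, (n i : ℂ) * f i x) x = ∏ i ∈ s, dt Q (f i) x ^ n i := by
  classical
  have := (irrS_finite Q).fintype
  have h1 : ∀ mu : IrrS Q, dtx_m Q (fun x => ∑ i ∈ s, (n i : ℂ) * f i x) mu.1 =
      ∑ i ∈ s, n i * dtx_m Q (f i) mu.1 := by
    intro mu
    have h2 := dtx_m_eq (nm_sum s n f hf) mu.2
    rw [dtx_ip_sum] at h2
    have h3 : ((∑ i ∈ s, n i * dtx_m Q (f i) mu.1 : ℕ) : ℂ) =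
        ∑ i ∈ s, (n i : ℂ) * ip Q (f i) mu.1 := by
      push_cast
      exact Finset.sum_congr rfl fun i hi => by rw [dtx_m_eq (hf i hi) mu.2]
    exact_mod_cast h2.trans h3.symm
  rw [dtx_eq]
  calc ∏ mu : IrrS Q, mu.1 x ^ dtx_m Q (fun x => ∑ i ∈ s, (n i : ℂ) * f i x) mu.1 =
      ∏ mu : IrrS Q, ∏ i ∈ s, (mu.1 x ^ dtx_m Q (f i) mu.1) ^ n i := by
        refine Finset.prod_congr rfl fun mu _ => ?_
        rw [h1 mu, ← Finset.prod_pow_eq_pow_sum]
        exact Finset.prod_congr rfl fun i _ => by rw [← pow_mul, mul_comm (n i)]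
    _ = ∏ i ∈ s, dt Q (f i) x ^ n i := by
        rw [Finset.prod_comm]
        refine Finset.prod_congr rfl fun i _ => ?_
        rw [dtx_eq, Finset.prod_pow]

private theorem dtx_nm_one (hL : LocC p K Q Z H) {f : G → ℂ} (hf : NM Q f) {d : ℕ} (hd : f 1 = d)
    [Fintype (IrrS Q)] : ∑ mu : IrrS Q, dtx_m Q f mu.1 = d := by
  have hcl : ∀ y ∈ Q, ∀ x ∈ Q, f (y * x * y⁻¹) = f x := by
    intro y hy x hx
    rw [hL.commQ hy hx, mul_assoc, mul_inv_cancel, mul_one]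
  have h1 := expand_on hcl Q.one_mem
  rw [finsum_eq_sum_of_fintype, hd] at h1
  have h2 : (d : ℂ) = ((∑ mu : IrrS Q, dtx_m Q f mu.1 : ℕ) : ℂ) := by
    rw [h1]
    push_cast
    refine Finset.sum_congr rfl fun mu _ => ?_
    rw [dtx_m_eq hf mu.2, (lin_mul hL mu.2).1, mul_one]
  exact_mod_cast h2.symm

/-- multiplication by a linear character permutes the characters -/
private noncomputable def dtx_equiv (hL : LocC p K Q Z H) {lam : G → ℂ} (hl : lam ∈ IrrS Q) :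
    IrrS Q ≃ IrrS Q where
  toFun nu := ⟨fun x => lam x * nu.1 x, lam_mul_mem hL hl nu.2⟩
  invFun nu := ⟨fun x => (lam x)⁻¹ * nu.1 x, lam_mul_mem hL (lam_inv_mem hL hl).1 nu.2⟩
  left_inv := by
    intro nu
    apply Subtype.ext
    funext x
    change (lam x)⁻¹ * (lam x * nu.1 x) = nu.1 x
    by_cases hx : x ∈ Q
    · rw [← mul_assoc, mul_comm (lam x)⁻¹, (lam_inv_mem hL hl).2 x hx, one_mul]
    · rw [nu.2.2 x hx, mul_zero, mul_zero]
  right_inv := by
    intro nu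
    apply Subtype.ext
    funext x
    change lam x * ((lam x)⁻¹ * nu.1 x) = nu.1 x
    by_cases hx : x ∈ Q
    · rw [← mul_assoc, (lam_inv_mem hL hl).2 x hx, one_mul]
    · rw [nu.2.2 x hx, mul_zero, mul_zero]

private theorem dtx_ip_twist (hL : LocC p K Q Z H) {lam : G → ℂ} (hl : lam ∈ IrrS Q)
    (f nu : G → ℂ) : ip Q (fun x => lam x * f x) (fun x => lam x * nu x) = ip Q f nu := by
  unfold ip B
  congr 1
  refine finsum_congr fun y => ?_
  have h1 : lam (y : G) * lam ((y⁻¹ : Q) : G) = 1 := by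
    rw [← (lin_mul hL hl).2.1 y y.2 _ (y⁻¹).2, ← Subgroup.coe_mul, mul_inv_cancel,
      Subgroup.coe_one, (lin_mul hL hl).1]
  calc lam (y : G) * f y * (lam ((y⁻¹ : Q) : G) * nu ((y⁻¹ : Q) : G)) =
      (lam (y : G) * lam ((y⁻¹ : Q) : G)) * (f y * nu ((y⁻¹ : Q) : G)) := by ring
    _ = f y * nu ((y⁻¹ : Q) : G) := by rw [h1, one_mul]

theorem dt_twist (hL : LocC p K Q Z H) {lam f : G → ℂ} (hl : lam ∈ IrrS Q) (hf : NM Q f) {d : ℕ}
    (hd : f 1 = d) {x : G} (hx : x ∈ Q) :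
    dt Q (fun x => lam x * f x) x = lam x ^ d * dt Q f x := by
  classical
  have := (irrS_finite Q).fintype
  rw [dtx_eq, dtx_eq, ← Equiv.prod_comp (dtx_equiv hL hl)]
  have h1 : ∀ nu : IrrS Q, (dtx_equiv hL hl nu).1 x ^
      dtx_m Q (fun x => lam x * f x) (dtx_equiv hL hl nu).1 =
      lam x ^ dtx_m Q f nu.1 * nu.1 x ^ dtx_m Q f nu.1 := by
    intro nu
    have h2 : dtx_m Q (fun x => lam x * f x) (dtx_equiv hL hl nu).1 = dtx_m Q f nu.1 := by
      change ⌊(ip Q (fun x => lam x * f x) (fun x => lam x * nu.1 x)).re⌋₊ = _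
      rw [dtx_ip_twist hL hl]
      rfl
    rw [h2]
    exact mul_pow _ _ _
  rw [Finset.prod_congr rfl fun nu _ => h1 nu, Finset.prod_mul_distrib,
    Finset.prod_pow_eq_pow_sum, dtx_nm_one hL hf hd]

/-- the determinant is a linear character of `Q` (zero off `Q` if cut off) -/
theorem dt_mem (hL : LocC p K Q Z H) (f : G → ℂ) : rst Q (dt Q f) ∈ IrrS Q := by
  classical
  have := (irrS_finite Q).fintype
  apply lin_mem hL
  · unfold rst
    rw [if_pos Q.one_mem, dtx_eq]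
    exact Finset.prod_eq_one fun mu _ => by rw [(lin_mul hL mu.2).1, one_pow]
  · intro x hx y hy
    unfold rst
    rw [if_pos hx, if_pos hy, if_pos (Q.mul_mem hx hy), dtx_eq, dtx_eq, dtx_eq,
      ← Finset.prod_mul_distrib]
    refine Finset.prod_congr rfl fun mu _ => ?_
    rw [(lin_mul hL mu.2).2.1 x hx y hy, mul_pow]
  · intro x hx
    unfold rst
    rw [if_neg hx]

/-- conjugation permutes the characters -/
private noncomputable def dtx_cnj {a : G} (ha : a ∈ Subgroup.normalizer (Q : Set G)) :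
    IrrS Q ≃ IrrS Q where
  toFun nu := ⟨cnj a nu.1, cnj_mem_irrS ha nu.2⟩
  invFun nu := ⟨cnj a⁻¹ nu.1, cnj_mem_irrS (Subgroup.inv_mem _ ha) nu.2⟩
  left_inv := by
    intro nu
    apply Subtype.ext
    exact cnj_inv_cnj a nu.1
  right_inv := by
    intro nu
    apply Subtype.ext
    change cnj a (cnj a⁻¹ nu.1) = nu.1
    rw [cnj_cnj, mul_inv_cancel, cnj_one]

theorem dt_cnj {a : G} (ha : a ∈ Subgroup.normalizer (Q : Set G)) (f : G → ℂ) (x : G) :
    dt Q (cnj a f) x = dt Q f (a⁻¹ * x * a) := by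
  classical
  have := (irrS_finite Q).fintype
  rw [dtx_eq, dtx_eq, ← Equiv.prod_comp (dtx_cnj ha)]
  refine Finset.prod_congr rfl fun nu _ => ?_
  have h2 : dtx_m Q (cnj a f) (dtx_cnj ha nu).1 = dtx_m Q f nu.1 := by
    change ⌊(ip Q (cnj a f) (cnj a nu.1)).re⌋₊ = _
    rw [ip_cnj ha]
    rfl
  rw [h2]
  rfl

end Pool.Agent.Helper42.CY
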