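import Pool.Agent.Helper42.CY.EUni
import Pool.Agent.Helper42.CY.CanJ
import Pool.Agent.Helper42.IR.E.CaseI

/-!
# CY-32 (project CY, section 5.1): Lemma E, the exceptional case

Adapt Helper42/IR/E/CaseI.lean (its `relIndex_of_prod` is general: `IR.E.relIndex_of_prod`; copy the private
lemmas `ci_congr`, `ci_self`, `ci_trans`, `ci_top`).

`A = N_G(Z)`, `N = NN K Z`, `l0 ∈ IrrS Q`, `l0 ≠ oneS Q`, `aa Q H χ l0 φ ≠ 0`, `EX K Q H ψ φ l0 1`.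
`ρ ∈ Ca p Q H2` from `uni` for `l0`. Put `D = Q ⊔ H`, `ζ = prodC Q H l0 φ ∈ IrrS D`, `S = Q ⊔ H2`,
`Ψ = prodC Q H2 l0 ρ ∈ IrrS S` (`prodC_mem` for `hL2`). `Ψ = ζ` on `D`: `ρ = φ` on `D` and `lift_res`
(CanJ.lean, `K ≤ K ⊔ H2`).
* `ψ` is over `ζ`: `1 = aa Q H ψ l0 φ = ip D ψ ζ - ip D ψ φ` (`EX` with `n = 1`), natural numbers
  (`ip_res_nat`).
* `N ⊓ stab ζ = D`: if `n ∈ N` fixes `ζ` then by `stab_prodC` it centralizes `Z`: `n ∈ K ⊓ C(Z) = Q ⊔ H`; and `ζ`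
  is a class function on `D`. `cliff_corr` with `L = D`, `J = N`, `φ := ζ`, `ξ := ζ` (after rewriting
  `N ⊓ stab ζ = D`): `deg ψ = |N : D| deg ζ`, `deg ζ = deg φ` (`deg_prodC`), and `ψ` is the only character in
  `IrrS N` over `ζ`.
* `A = N S`: for `a ∈ A`, `ip D ψ (cnj a ζ) = ip D ψ ζ ≠ 0` (`cnj a ψ = ψ`, `a` normalizes `D`: `norm_sup`);
  `clifford` gives `n ∈ N` with `cnj n ζ = cnj a ζ`, so `n⁻¹ a` fixes `ζ`; by `stab_prodC` it centralizes `Z` and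
  fixes `φ`, so it is in `C(Z) ⊓ stab φ = Q ⊔ H2` (`hcent`). Hence `|A : S| = |N : N ⊓ S|`
  (`relIndex_of_prod`) and `N ⊓ S = D` (`hKH`, `D ≤ N`).
* `ext_by_deg` gives `f`; `deg Ψ = deg ρ = deg φ` (value at `1`). `ip H2 f (rst H2 ρ) ≠ 0` by `ip_trans` for
  `H2 ≤ S ≤ A`, as `Ψ = ρ` on `H2` (`lift_H`). `rst H2 ρ ∈ IrrS H2`: `rst_H` for `hL2`.
* `ip H2 χh (rst H2 ρ) ≠ 0` (`ip_of_aa`): one of the multiplicities of `prodC Q H2 l0 ρ` and `ρ` in the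
  restriction of `χh` to `Q ⊔ H2` is nonzero; both restrict to `rst H2 ρ` on `H2`; `ip_trans`.
-/

namespace Pool.Agent.Helper42.CY

open Pool.Agent.Helper42.INC Pool.Agent.Helper42.IR Pool.Agent.Helper97.S4

variable {G : Type} [Group G] [Finite G] {p : ℕ} [Fact p.Prime] {K Q Z H H2 : Subgroup G}
  [K.Normal]

omit [Finite G] in
private lemma ci_congr {L : Subgroup G} {f f' : G → ℂ} (g : G → ℂ) (h : ∀ x ∈ L, f x = f' x) :
    ip L f g = ip L f' g := by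
  unfold ip
  congr 1
  funext x
  exact h x.1 x.2

private lemma ci_self {L : Subgroup G} {ρ : G → ℂ} (hρ : ρ ∈ IrrS L) : ip L ρ ρ ≠ 0 := by
  classical
  rw [ip_irrS hρ hρ, if_pos rfl]
  exact one_ne_zero

/-- constituents of constituents -/
private lemma ci_trans {L M J : Subgroup G} (hLM : L ≤ M) (hMJ : M ≤ J) {χ θ ρ : G → ℂ}
    (hχ : χ ∈ IrrS J) (hθ : θ ∈ IrrS M) (hρ : ρ ∈ IrrS L) (h1 : ip M χ θ ≠ 0)
    (h2 : ip L θ ρ ≠ 0) : ip L χ ρ ≠ 0 := by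
  have hfin : Finite (IrrS M) := irrS_finite M
  have := Fintype.ofFinite (IrrS M)
  rw [ip_trans hLM hMJ hχ ρ, finsum_eq_sum_of_fintype]
  have hnat : ∀ τ : IrrS M, ∃ n : ℕ, ip M χ τ.1 * ip L τ.1 ρ = n := by
    intro τ
    obtain ⟨a, ha⟩ := ip_res_nat hMJ hχ τ.2
    obtain ⟨b, hb⟩ := ip_res_nat hLM τ.2 hρ
    refine ⟨a * b, ?_⟩
    rw [ha, hb]
    push_cast
    rfl
  choose n hn using hnat
  rw [Finset.sum_congr rfl (fun τ _ => hn τ), ← Nat.cast_sum]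
  have h5 : n ⟨θ, hθ⟩ ≠ 0 := by
    intro h0
    have h6 := hn ⟨θ, hθ⟩
    rw [h0, Nat.cast_zero] at h6
    exact mul_ne_zero h1 h2 h6
  have h11 : 0 < ∑ τ, n τ := by
    refine lt_of_lt_of_le (Nat.pos_of_ne_zero h5) ?_
    exact Finset.single_le_sum (f := n) (fun _ _ => Nat.zero_le _) (Finset.mem_univ _)
  exact_mod_cast h11.ne'

private lemma ci_top {χ : G → ℂ} (h : χ ∈ Irr G) : χ ∈ IrrS (⊤ : Subgroup G) := by
  refine ⟨?_, fun x hx => absurd (Subgroup.mem_top x) hx⟩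
  exact irr_comp (Subgroup.topEquiv (G := G)) h

omit [Finite G] in
private lemma ci_rst {L : Subgroup G} (f : G → ℂ) {x : G} (hx : x ∈ L) : rst L f x = f x := by
  classical
  unfold rst
  rw [if_pos hx]

omit [Finite G] in
private lemma ci_normK (g : G) : g ∈ Subgroup.normalizer (K : Set G) := by
  rw [Subgroup.mem_normalizer_iff]
  intro k
  constructor
  · intro hk
    exact Subgroup.Normal.conj_mem inferInstance k hk g
  · intro hk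
    have h1 := Subgroup.Normal.conj_mem (H := K) inferInstance _ hk g⁻¹
    have e : g⁻¹ * (g * k * g⁻¹) * g⁻¹⁻¹ = k := by group
    rwa [e] at h1

theorem ip_of_aa (hL2 : LocC p (K ⊔ H2) Q Z H2) {χh : G → ℂ} (hχh : χh ∈ Irr G) {lam ρ : G → ℂ}
    (hl : lam ∈ IrrS Q) (hρ : ρ ∈ Ca p Q H2) (ha : aa Q H2 (rst (K ⊔ H2) χh) lam ρ ≠ 0) :
    ip H2 χh (rst H2 ρ) ≠ 0 := by
  have hle : Q ⊔ H2 ≤ K ⊔ H2 := hL2.sup_le.trans inf_le_left
  have hres : ∀ x ∈ Q ⊔ H2, rst (K ⊔ H2) χh x = χh x := fun x hx => ci_rst χh (hle hx)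
  have hH := rst_H hL2 hρ.1
  have hself : ∀ θ : G → ℂ, (∀ x ∈ H2, θ x = ρ x) → ip H2 θ (rst H2 ρ) ≠ 0 := by
    intro θ hθ
    rw [ci_congr (f' := rst H2 ρ) _ (fun x hx => (hθ x hx).trans (ci_rst ρ hx).symm)]
    exact ci_self hH
  by_cases h1 : ip (Q ⊔ H2) χh (prodC Q H2 lam ρ) = 0
  · have h2 : ip (Q ⊔ H2) χh ρ ≠ 0 := by
      intro h3
      apply ha
      unfold aa
      rw [ci_congr _ hres, ci_congr _ hres, h1, h3, sub_zero]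
    exact ci_trans (L := H2) (M := Q ⊔ H2) (J := ⊤) le_sup_right le_top (ci_top hχh)
      hρ.1.1 hH h2 (hself ρ fun _ _ => rfl)
  · refine ci_trans (L := H2) (M := Q ⊔ H2) (J := ⊤) le_sup_right le_top (ci_top hχh)
      (prodC_mem hL2 hl hρ.1.1) hH h1 (hself _ fun x hx => ?_)
    change lift Q H2 lam x * ρ x = ρ x
    rw [lift_H hL2 hl hx, one_mul]

theorem caseI (hL : LocC p K Q Z H) {φ : G → ℂ} (hφ : φ ∈ Ca p Q H)
    (h2 : Hyp2 p K Q Z H H2 φ)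
    (hP : Pkg p K Q Z H) (hP2 : Pkg p (K ⊔ H2) Q Z H2) {χh χ ψ : G → ℂ} (hχh : χh ∈ Irr G)
    (hχ : χ ∈ IrrSP p K) (hres : ∀ k ∈ K, χh k = χ k) (hψ : ψ ∈ IrrSP p (NN K Z))
    (hinv : ∀ a ∈ Subgroup.normalizer (Z : Set G), cnj a ψ = ψ) {l0 : G → ℂ}
    (hl : l0 ∈ IrrS Q) (hl1 : l0 ≠ oneS Q) (hex : EX K Q H ψ φ l0 1)
    (ha : aa Q H χ l0 φ ≠ 0) :
    ∃ f ∈ IrrS (Subgroup.normalizer (Z : Set G)), (∀ n ∈ NN K Z, f n = ψ n) ∧
      ∃ ρ ∈ IrrS H2, ip H2 f ρ ≠ 0 ∧ ip H2 χh ρ ≠ 0 := by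
  obtain ⟨ρ, hρ, haρ, hρφ, -⟩ := uni hL hφ h2 hP hP2 hχh hχ hres hl ha
  have hζ : prodC Q H l0 φ ∈ IrrS (Q ⊔ H) := prodC_mem hL hl hφ.1.1
  have hΨ : prodC Q H2 l0 ρ ∈ IrrS (Q ⊔ H2) := prodC_mem h2.hL2 hl hρ.1.1
  have hΨζ : ∀ x ∈ Q ⊔ H, prodC Q H2 l0 ρ x = prodC Q H l0 φ x := by
    intro x hx
    change lift Q H2 l0 x * ρ x = lift Q H l0 x * φ x
    rw [lift_res hL h2.hL2 le_sup_left l0 hx, hρφ x hx]
  have hDN : Q ⊔ H ≤ NN K Z := hL.sup_le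
  have hnD : ∀ a ∈ Subgroup.normalizer (Z : Set G),
      a ∈ Subgroup.normalizer ((Q ⊔ H : Subgroup G) : Set G) := fun a haZ =>
    hL.norm_sup (ci_normK a) haZ
  have hnN : NN K Z ≤ Subgroup.normalizer ((Q ⊔ H : Subgroup G) : Set G) := fun a haN =>
    hnD a haN.2
  -- `ψ` is over `ζ`
  have hover : ip (Q ⊔ H) ψ (prodC Q H l0 φ) ≠ 0 := by
    have h1 : aa Q H ψ l0 φ = 1 :=
      (hex l0 hl hl1).1 ⟨1, (NN K Q).one_mem, cnj_one _, cnj_one _⟩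
    unfold aa at h1
    obtain ⟨m, hm⟩ := ip_res_nat hDN hψ.1 hφ.1.1
    rw [hm] at h1
    intro h3
    rw [h3, zero_sub] at h1
    have h4 : ((m + 1 : ℕ) : ℂ) = 0 := by
      push_cast
      rw [← h1]
      ring
    exact Nat.succ_ne_zero m (by exact_mod_cast h4)
  -- elements of `A` fixing `ζ`
  have hfix : ∀ s ∈ Subgroup.normalizer (Z : Set G), cnj s (prodC Q H l0 φ) = prodC Q H l0 φ →
      s ∈ Subgroup.centralizer (Z : Set G) ∧ cnj s φ = φ := fun s hs hs1 =>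
    stab_prodC hL hl hl1 hφ (ci_normK s) hs hs1
  have hstab : NN K Z ⊓ stab (prodC Q H l0 φ) = Q ⊔ H := by
    apply le_antisymm
    · intro n hn
      have h3 := (hfix n hn.1.2 hn.2).1
      rw [hL.sup]
      exact ⟨hn.1.1, h3⟩
    · intro d hd
      exact ⟨hDN hd, cnj_eq_self hd hζ⟩
  have hcc := E.cliff_corr (L := Q ⊔ H) (J := NN K Z) (φ := prodC Q H l0 φ) (ξ := prodC Q H l0 φ)
    (ψ := ψ) hDN hnN hζ (by rw [hstab]; exact hζ) (ci_self hζ) hψ.1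
    (by rw [hstab]; exact hover)
  rw [hstab] at hcc
  obtain ⟨hdeg, -, huniq⟩ := hcc
  -- `A = N S`
  have hprod : ∀ a ∈ Subgroup.normalizer (Z : Set G), ∃ n ∈ NN K Z, ∃ s ∈ Q ⊔ H2,
      a = n * s := by
    intro a haQ
    have h3 : ip (Q ⊔ H) ψ (cnj a (prodC Q H l0 φ)) ≠ 0 := by
      have h4 := ip_cnj (hnD a haQ) ψ (prodC Q H l0 φ)
      rw [hinv a haQ] at h4
      rw [h4]
      exact hover
    obtain ⟨k, hk, hkk⟩ := clifford hDN hnN hψ.1 hζ (cnj_mem_irrS (hnD a haQ) hζ) hover h3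
    have h4 : cnj (k⁻¹ * a) (prodC Q H l0 φ) = prodC Q H l0 φ := by
      rw [← cnj_cnj, ← hkk, cnj_inv_cnj]
    have h5 : k⁻¹ * a ∈ Subgroup.normalizer (Z : Set G) :=
      Subgroup.mul_mem _ (Subgroup.inv_mem _ hk.2) haQ
    obtain ⟨h6, h7⟩ := hfix _ h5 h4
    refine ⟨k, hk, k⁻¹ * a, ?_, by group⟩
    rw [← h2.hcent]
    exact ⟨h6, h7⟩
  have hSA : Q ⊔ H2 ≤ Subgroup.normalizer (Z : Set G) := by
    rw [← h2.hcent]
    exact inf_le_left.trans (Subgroup.centralizer_le_normalizer _)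
  have hNA : NN K Z ≤ Subgroup.normalizer (Z : Set G) := inf_le_right
  have hDS : Q ⊔ H ≤ Q ⊔ H2 := sup_le_sup_left h2.hH Q
  have hNS : NN K Z ⊓ (Q ⊔ H2) = Q ⊔ H := by
    apply le_antisymm
    · rintro n ⟨hn, hn2⟩
      rw [← h2.hKH]
      exact ⟨hn.1, hn2⟩
    · exact le_inf hDN hDS
  have hidx := E.relIndex_of_prod hSA hNA hprod
  rw [hNS] at hidx
  have hdegΨ : deg (prodC Q H2 l0 ρ) = deg (prodC Q H l0 φ) := by
    unfold deg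
    rw [hΨζ 1 (Subgroup.one_mem _)]
  obtain ⟨f, hf, hfΨ, hfψ⟩ := E.ext_by_deg hSA hNA hDS hDN hΨ hψ.1 hζ hΨζ huniq
    (by rw [hidx, hdegΨ, hdeg])
  have hH := rst_H h2.hL2 hρ.1
  refine ⟨f, hf, hfψ, rst H2 ρ, hH, ?_, ip_of_aa h2.hL2 hχh hl hρ haρ⟩
  refine ci_trans (L := H2) (M := Q ⊔ H2) le_sup_right hSA hf hΨ hH hfΨ ?_
  rw [ci_congr (f' := rst H2 ρ) _ (fun x hx => ?_)]
  · exact ci_self hH
  · change lift Q H2 l0 x * ρ x = rst H2 ρ x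
    rw [lift_H h2.hL2 hl hx, one_mul, ci_rst ρ hx]

end Pool.Agent.Helper42.CY
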