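import Pool.Agent.Helper42.CY.Nice

/-!
# Project CY, section 4: the characters of `N = NN K Z`

`C = Q ⊔ H` is normal in `N = NN K Z`.
-/

namespace Pool.Agent.Helper42.CY

open Pool.Agent.Helper42.INC Pool.Agent.Helper42.IR Pool.Agent.Helper97.S4

variable {G : Type} [Group G] [Finite G] {p : ℕ} [Fact p.Prime] {K Q Z H : Subgroup G}

/-- elements of `NN K Z` act on the characters of `Q ⊔ H` like elements of `NN K Q` -/
theorem cnj_Z (hL : LocC p K Q Z H) {n : G} (hn : n ∈ NN K Z) :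
    ∃ b ∈ NN K Q, ∀ θ ∈ IrrS (Q ⊔ H), cnj n θ = cnj b θ := by
  obtain ⟨c, hc, b, hb, rfl⟩ := hL.frattini' hn
  refine ⟨b, hb, fun θ hθ => ?_⟩
  have hbC : b ∈ Subgroup.normalizer ((Q ⊔ H : Subgroup G) : Set G) :=
    hL.norm_sup (memK hb) (hL.normQ_Z hb.2)
  rw [← cnj_cnj, cnj_eq_self hc (cnj_mem_irrS hbC hθ)]

theorem norm_C_NN (hL : LocC p K Q Z H) :
    NN K Z ≤ Subgroup.normalizer ((Q ⊔ H : Subgroup G) : Set G) := by
  intro a ha
  exact hL.norm_sup (Subgroup.le_normalizer ha.1) ha.2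

/-- conjugate constituents -/
theorem clif_Z (hL : LocC p K Q Z H) {ψ : G → ℂ} (hψ : ψ ∈ IrrS (NN K Z)) {lam lam' φ φ' : G → ℂ}
    (hl : lam ∈ IrrS Q) (hl' : lam' ∈ IrrS Q) (hφ : φ ∈ Ca p Q H) (hφ' : φ' ∈ Ca p Q H)
    (h : ip (Q ⊔ H) ψ (prodC Q H lam φ) ≠ 0) (h' : ip (Q ⊔ H) ψ (prodC Q H lam' φ') ≠ 0) :
    ∃ n ∈ NN K Q, cnj n lam = lam' ∧ cnj n φ = φ' := by
  obtain ⟨k, hk, hkk⟩ := clifford hL.sup_le (norm_C_NN hL) hψ (prodC_mem hL hl hφ.1.1)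
    (prodC_mem hL hl' hφ'.1.1) h h'
  obtain ⟨b, hb, hbb⟩ := cnj_Z hL hk
  rw [hbb _ (prodC_mem hL hl hφ.1.1), cnj_prodC hL (memK hb) hb.2] at hkk
  have hbZ := hL.normQ_Z hb.2
  obtain ⟨h4, h5⟩ := prodC_inj hL (cnj_mem_irrS hb.2 hl) hl' (ca_cnj hL (memK hb) hbZ hφ) hφ' hkk
  exact ⟨b, hb, h4, h5⟩

theorem cnj_one_lam {n : G} (hn : n ∈ Subgroup.normalizer (Q : Set G)) {lam : G → ℂ}
    (h : cnj n (oneS Q) = lam) : lam = oneS Q := by
  rw [← h]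
  exact cnj_oneS hn

/-- characters over `φ` are not over `prodC lam φ'`, `lam ≠ oneS Q` -/
theorem ip_zero_of (hL : LocC p K Q Z H) {ψ : G → ℂ} (hψ : ψ ∈ IrrS (NN K Z)) {lam φ φ' : G → ℂ}
    (hl : lam ∈ IrrS Q) (h1 : lam ≠ oneS Q) (hφ : φ ∈ Ca p Q H) (hφ' : φ' ∈ Ca p Q H)
    (h : ip (Q ⊔ H) ψ φ ≠ 0) : ip (Q ⊔ H) ψ (prodC Q H lam φ') = 0 := by
  by_contra hne
  rw [← prodC_one hL hφ.1.1.2] at h
  obtain ⟨n, hn, h2, _⟩ := clif_Z hL hψ (IR.oneS_mem Q) hl hφ hφ' h hne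
  exact h1 (cnj_one_lam hn.2 h2)

/-- The two types of characters of `N = NN K Z` in the block of `φ`. -/
theorem local_types (hL : LocC p K Q Z H) (hPN : Pkg p (NN K Z) Q Z H) {ψ : G → ℂ}
    (hψ : ψ ∈ IrrSP p (NN K Z)) {φ : G → ℂ} (hφ : φ ∈ Ca p Q H) (hb : Bl Q H ψ φ) :
    (ip (Q ⊔ H) ψ φ ≠ 0 ∧ NE Q H ψ φ (-1)) ∨
    (ip (Q ⊔ H) ψ φ = 0 ∧ ∃ l0 ∈ IrrS Q, l0 ≠ oneS Q ∧ EX K Q H ψ φ l0 1 ∧
      ip (Q ⊔ H) ψ (prodC Q H l0 φ) ≠ 0) := by
  have hN := nice_N hL hPN hψ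
  obtain ⟨ε, hε, hs⟩ := hN.sgn
  have hbb := hb
  obtain ⟨l0, hl0, hne0⟩ := hbb
  have hl01 : l0 ≠ oneS Q := by
    rintro rfl
    exact hne0 (aa_oneS hL ψ φ)
  by_cases hq : ip (Q ⊔ H) ψ φ = 0
  · right
    have hnq : ∀ lam : G → ℂ, aa Q H ψ lam φ = ip (Q ⊔ H) ψ (prodC Q H lam φ) := by
      intro lam
      unfold aa
      rw [hq, sub_zero]
    have hnat : ∀ lam ∈ IrrS Q, ∃ n : ℕ, aa Q H ψ lam φ = n := by
      intro lam hlam
      rw [hnq]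
      exact ip_res_nat hL.sup_le hψ.1 (prodC_mem hL hlam hφ.1.1)
    have hval : aa Q H ψ l0 φ = 1 := by
      rcases hs φ hφ l0 hl0 with h1 | h1
      · exact absurd h1 hne0
      · rcases hε with h2 | h2
        · rw [h1, h2]
        · exfalso
          obtain ⟨m, hm⟩ := hnat l0 hl0
          rw [h1, h2] at hm
          have h3 : ((m + 1 : ℕ) : ℂ) = 0 := by push_cast; rw [← hm]; ring
          exact Nat.succ_ne_zero m (by exact_mod_cast h3)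
    have hne0' : ip (Q ⊔ H) ψ (prodC Q H l0 φ) ≠ 0 := by
      rw [← hnq]
      exact hne0
    refine ⟨hq, l0, hl0, hl01, ?_, hne0'⟩
    intro lam hlam hlam1
    constructor
    · rintro ⟨n, hn, h1, h2⟩
      have h3 := hN.aa_inv hL hn l0 φ
      rw [h1, h2, hval] at h3
      exact h3
    · intro hno
      by_contra hne
      apply hno
      have hne' : ip (Q ⊔ H) ψ (prodC Q H lam φ) ≠ 0 := by
        rw [← hnq]
        exact hne
      obtain ⟨k, hk, h4, h5⟩ := clif_Z hL hψ.1 hl0 hlam hφ hφ hne0' hne'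
      exact ⟨k, hk, h5, h4⟩
  · left
    refine ⟨hq, ?_⟩
    obtain ⟨m, hm⟩ := ip_res_nat hL.sup_le hψ.1 hφ.1.1
    have hval : ∀ lam ∈ IrrS Q, lam ≠ oneS Q → aa Q H ψ lam φ = - (m : ℂ) := by
      intro lam hlam hlam1
      unfold aa
      rw [ip_zero_of hL hψ.1 hlam hlam1 hφ hφ hq, hm, zero_sub]
    have hm1 : m = 1 := by
      have h0 := hval l0 hl0 hl01
      rcases hs φ hφ l0 hl0 with h1 | h1
      · exact absurd h1 hne0
      · rw [h1] at h0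
        rcases hε with h2 | h2
        · exfalso
          rw [h2] at h0
          have h3 : ((m + 1 : ℕ) : ℂ) = 0 := by push_cast; linear_combination h0
          exact Nat.succ_ne_zero m (by exact_mod_cast h3)
        · rw [h2] at h0
          have h3 : (m : ℂ) = 1 := (neg_injective h0).symm
          exact_mod_cast h3
    intro lam hlam hlam1
    rw [hval lam hlam hlam1, hm1, Nat.cast_one]

end Pool.Agent.Helper42.CY
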