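import Pool.Agent.Helper42.IR.E.CliffC
import Pool.Agent.Helper42.CY.Loc1

/-!
# CY-30 (project CY, section 5.1): the Clifford correspondent of `ψ`

Adapt Helper42/IR/E/Xi.lean (replace `normalizer Q` by `normalizer Z`, `NN K Q` by `NN K Z`, `H` by `Q ⊔ H`).
`N = NN K Z`, `C = Q ⊔ H`, `T = N ⊓ stab φ`, `ψ ∈ IrrS N` with `ip C ψ φ = 1`. By `ip_trans` (`C ≤ T ≤ N`)
`1 = ∑_ξ ip T ψ ξ * ip C ξ φ` (natural numbers), so exactly one `ξ ∈ IrrS T` has both numbers nonzero, and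
they are `1`. `C` is normalized by `N` (`norm_C_NN`) and `T` fixes `φ`, so `ξ = φ` on `C` (`cliff_inv`). For
`s ∈ N_G(Z) ⊓ stab φ`: `s` normalizes `K`, `N`, `T` and `C` (`norm_sup`); `cnj s ξ` has the same properties
(`ip_cnj`, `cnj s ψ = ψ`, `cnj s φ = φ`), so `cnj s ξ = ξ` by uniqueness. The rest is `cliff_corr` for `L = C`,
`J = N` (`deg ξ = deg φ`).

`prod_stab`: every `a ∈ N_G(Z)` is `n s` with `n ∈ N`, `s ∈ N_G(Z) ⊓ stab φ`:
`ip C ψ (cnj a φ) = ip C (cnj a ψ) (cnj a φ) = ip C ψ φ ≠ 0`, and `clifford` gives `n ∈ N` with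
`cnj n φ = cnj a φ`.
-/

namespace Pool.Agent.Helper42.CY

open Pool.Agent.Helper42.INC Pool.Agent.Helper42.IR Pool.Agent.Helper97.S4

variable {G : Type} [Group G] [Finite G] {p : ℕ} [Fact p.Prime] {K Q Z H : Subgroup G} [K.Normal]

/-- a sum of products of natural numbers equal to one has exactly one nonzero term -/
private theorem cexi_unique {ι : Type*} [Fintype ι] {a b : ι → ℕ} (h : ∑ i, a i * b i = 1) :
    ∃ i, a i = 1 ∧ b i = 1 ∧ ∀ j, a j ≠ 0 → b j ≠ 0 → j = i := by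
  classical
  have h1 : ∃ i, a i * b i ≠ 0 := by
    by_contra hcon
    push Not at hcon
    rw [Finset.sum_eq_zero (fun i _ => hcon i)] at h
    exact zero_ne_one h
  obtain ⟨i, hi⟩ := h1
  have h2 : a i * b i ≤ 1 := by
    rw [← h]
    exact Finset.single_le_sum (f := fun i => a i * b i) (fun _ _ => Nat.zero_le _)
      (Finset.mem_univ i)
  have h3 : a i * b i = 1 := le_antisymm h2 (Nat.one_le_iff_ne_zero.2 hi)
  refine ⟨i, Nat.eq_one_of_mul_eq_one_right h3, Nat.eq_one_of_mul_eq_one_left h3, ?_⟩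
  intro j hj hj'
  by_contra hne
  have h4 : a j * b j ≠ 0 := mul_ne_zero hj hj'
  have h5 : ∑ k ∈ ({i, j} : Finset ι), a k * b k ≤ ∑ k, a k * b k :=
    Finset.sum_le_sum_of_subset (Finset.subset_univ _)
  rw [Finset.sum_pair (Ne.symm hne), h, h3] at h5
  omega

private theorem cexi_norm (φ : G → ℂ) {s : G}
    (hs : s ∈ Subgroup.normalizer (Z : Set G) ⊓ stab φ) :
    s ∈ Subgroup.normalizer ((NN K Z ⊓ stab φ : Subgroup G) : Set G) := by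
  have hsK : s ∈ Subgroup.normalizer (K : Set G) := by
    rw [Subgroup.normalizer_eq_top]
    trivial
  have h1 := norm_NN hsK hs.1
  have h2 : s ∈ Subgroup.normalizer ((stab φ : Subgroup G) : Set G) :=
    Subgroup.le_normalizer hs.2
  refine (Subgroup.mem_normalizer_iff (H := NN K Z ⊓ stab φ)).2 fun g => ?_
  constructor
  · rintro ⟨h3, h4⟩
    exact ⟨(Subgroup.mem_normalizer_iff.1 h1 g).1 h3, (Subgroup.mem_normalizer_iff.1 h2 g).1 h4⟩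
  · rintro ⟨h3, h4⟩
    exact ⟨(Subgroup.mem_normalizer_iff.1 h1 g).2 h3, (Subgroup.mem_normalizer_iff.1 h2 g).2 h4⟩

theorem exists_xi (hL : LocC p K Q Z H) {φ : G → ℂ} (hφ : φ ∈ IrrS (Q ⊔ H))
    {ψ : G → ℂ} (hψ : ψ ∈ IrrS (NN K Z)) (h1 : ip (Q ⊔ H) ψ φ = 1)
    (hinv : ∀ a ∈ Subgroup.normalizer (Z : Set G), cnj a ψ = ψ) :
    ∃ ξ ∈ IrrS (NN K Z ⊓ stab φ), (∀ x ∈ Q ⊔ H, ξ x = φ x) ∧ ip (NN K Z ⊓ stab φ) ψ ξ ≠ 0 ∧
      (∀ s ∈ Subgroup.normalizer (Z : Set G) ⊓ stab φ, cnj s ξ = ξ) ∧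
      deg ψ = (NN K Z ⊓ stab φ).relIndex (NN K Z) * deg φ ∧
      ∀ ψ' ∈ IrrS (NN K Z), ip (NN K Z ⊓ stab φ) ψ' ξ ≠ 0 → ψ' = ψ := by
  classical
  have hHN : Q ⊔ H ≤ NN K Z := hL.sup_le
  have hHst : Q ⊔ H ≤ stab φ := fun h hh => cnj_eq_self hh hφ
  have hHT : Q ⊔ H ≤ NN K Z ⊓ stab φ := le_inf hHN hHst
  have hTN : NN K Z ⊓ stab φ ≤ NN K Z := inf_le_left
  have hNH : NN K Z ≤ Subgroup.normalizer ((Q ⊔ H : Subgroup G) : Set G) := norm_C_NN hL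
  have := (irrS_finite (NN K Z ⊓ stab φ)).fintype
  choose a ha using fun θ : IrrS (NN K Z ⊓ stab φ) => ip_res_nat hTN hψ θ.2
  choose b hb using fun θ : IrrS (NN K Z ⊓ stab φ) => ip_res_nat hHT θ.2 hφ
  have hsum : ∑ θ : IrrS (NN K Z ⊓ stab φ), a θ * b θ = 1 := by
    have h2 := ip_trans hHT hTN hψ φ
    rw [h1, finsum_eq_sum_of_fintype] at h2
    have h3 : ∀ θ : IrrS (NN K Z ⊓ stab φ),
        ip (NN K Z ⊓ stab φ) ψ θ.1 * ip (Q ⊔ H) θ.1 φ = ((a θ * b θ : ℕ) : ℂ) := by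
      intro θ
      rw [ha, hb]
      push_cast
      rfl
    rw [Finset.sum_congr rfl (fun θ _ => h3 θ), ← Nat.cast_sum] at h2
    exact_mod_cast h2.symm
  obtain ⟨⟨ξ, hξ⟩, hξ1, hξ2, huniq⟩ := cexi_unique hsum
  have hipT : ip (NN K Z ⊓ stab φ) ψ ξ = 1 := by
    have h2 := ha ⟨ξ, hξ⟩
    rw [hξ1, Nat.cast_one] at h2
    exact h2
  have hipH : ip (Q ⊔ H) ξ φ = 1 := by
    have h2 := hb ⟨ξ, hξ⟩
    rw [hξ2, Nat.cast_one] at h2
    exact h2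
  have hipT0 : ip (NN K Z ⊓ stab φ) ψ ξ ≠ 0 := by
    rw [hipT]
    exact one_ne_zero
  have hipH0 : ip (Q ⊔ H) ξ φ ≠ 0 := by
    rw [hipH]
    exact one_ne_zero
  have hres : ∀ x ∈ Q ⊔ H, ξ x = φ x := by
    intro x hx
    have h2 := IR.E.cliff_inv hHT (hTN.trans hNH) hξ hφ inf_le_right hipH0 hx
    rw [hipH, one_mul] at h2
    exact h2
  obtain ⟨hc1, _, hc3⟩ := IR.E.cliff_corr hHN hNH hφ hξ hipH0 hψ hipT0
  refine ⟨ξ, hξ, hres, hipT0, ?_, ?_, hc3⟩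
  · intro s hs
    have hsT := cexi_norm (K := K) (Z := Z) φ hs
    have hsK : s ∈ Subgroup.normalizer (K : Set G) := by
      rw [Subgroup.normalizer_eq_top]
      trivial
    have hsH : s ∈ Subgroup.normalizer ((Q ⊔ H : Subgroup G) : Set G) := hL.norm_sup hsK hs.1
    have hmem : cnj s ξ ∈ IrrS (NN K Z ⊓ stab φ) := cnj_mem_irrS hsT hξ
    have h2 : ip (NN K Z ⊓ stab φ) ψ (cnj s ξ) = 1 := by
      have h3 := ip_cnj hsT ψ ξ
      rw [hinv s hs.1, hipT] at h3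
      exact h3
    have h3 : ip (Q ⊔ H) (cnj s ξ) φ = 1 := by
      have h4 := ip_cnj hsH ξ φ
      rw [mem_stab.1 hs.2, hipH] at h4
      exact h4
    have h4 : a ⟨cnj s ξ, hmem⟩ ≠ 0 := by
      intro h0
      have h5 := ha ⟨cnj s ξ, hmem⟩
      rw [h0, Nat.cast_zero] at h5
      exact one_ne_zero (h2.symm.trans h5)
    have h6 : b ⟨cnj s ξ, hmem⟩ ≠ 0 := by
      intro h0
      have h5 := hb ⟨cnj s ξ, hmem⟩
      rw [h0, Nat.cast_zero] at h5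
      exact one_ne_zero (h3.symm.trans h5)
    exact congrArg Subtype.val (huniq ⟨cnj s ξ, hmem⟩ h4 h6)
  · rw [hc1]
    congr 1
    unfold deg
    rw [hres 1 (Subgroup.one_mem _)]

theorem prod_stab (hL : LocC p K Q Z H) {φ : G → ℂ} (hφ : φ ∈ IrrS (Q ⊔ H)) {ψ : G → ℂ}
    (hψ : ψ ∈ IrrS (NN K Z)) (hip : ip (Q ⊔ H) ψ φ ≠ 0)
    (hinv : ∀ a ∈ Subgroup.normalizer (Z : Set G), cnj a ψ = ψ) {a : G}
    (ha : a ∈ Subgroup.normalizer (Z : Set G)) :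
    ∃ n ∈ NN K Z, ∃ s ∈ Subgroup.normalizer (Z : Set G) ⊓ stab φ, a = n * s := by
  have hHN : Q ⊔ H ≤ NN K Z := hL.sup_le
  have hNH : NN K Z ≤ Subgroup.normalizer ((Q ⊔ H : Subgroup G) : Set G) := norm_C_NN hL
  have haK : a ∈ Subgroup.normalizer (K : Set G) := by
    rw [Subgroup.normalizer_eq_top]
    trivial
  have haH : a ∈ Subgroup.normalizer ((Q ⊔ H : Subgroup G) : Set G) := hL.norm_sup haK ha
  have h1 : ip (Q ⊔ H) ψ (cnj a φ) ≠ 0 := by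
    have h2 := ip_cnj haH ψ φ
    rw [hinv a ha] at h2
    rw [h2]
    exact hip
  obtain ⟨n, hn, hnn⟩ := clifford hHN hNH hψ hφ (cnj_mem_irrS haH hφ) hip h1
  have h3 : n⁻¹ * a ∈ Subgroup.normalizer (Z : Set G) := Subgroup.mul_mem _ (inv_mem hn.2) ha
  have h4 : n⁻¹ * a ∈ stab φ := by
    rw [mem_stab, ← cnj_cnj, ← hnn]
    exact cnj_inv_cnj n φ
  refine ⟨n, hn, n⁻¹ * a, Subgroup.mem_inf.2 ⟨h3, h4⟩, ?_⟩
  group

end Pool.Agent.Helper42.CY
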