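import Pool.Agent.Helper42.CY.ECaseI
import Pool.Agent.Helper42.CY.EXi
import Pool.Agent.Helper42.IR.E.CaseII

/-!
# CY-33 (project CY, section 5.1): Lemma E, the nonexceptional case

Adapt Helper42/IR/E/CaseII.lean (its `ext_cyclic_rel` is general, and so are `glue_exists`, `glue_inv` of
IR/E/Glue2.lean: use them with `Q ⊔ H2` in place of `H2` and `Q ⊔ H` in place of `H`).

`A = N_G(Z)`, `N = NN K Z`, `T = N ⊓ stab φ`, `S = A ⊓ stab φ`, `C = Q ⊔ H`, `C2 = Q ⊔ H2`.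

`common_rho`: there is `ρ ∈ Ca p Q H2`, `ρ = φ` on `C`, fixed by `S`, with `aa Q H2 (rst (K ⊔ H2) χh) lam ρ ≠ 0`
for some `lam ∈ IrrS Q`. Proof: the hypotheses of `glue_inv` hold for `T`, `C2`, `C`, `ξ` and each `ρ_lam` of
`uni` (`lam ≠ oneS Q`; `exists_ne_oneS`): `T ⊓ C2 = C` (`hKH`, `C ≤ T`), `C2 ≤ C(Z) ⊓ stab φ ≤ S` (`hcent`),
which normalizes `T` and fixes `ξ`; `hcomm`. So every `ρ_lam` is fixed by `T`, and by `uni_orb` all `ρ_lam` are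
equal to one `ρ`. For `s ∈ S`: by `uni_conj` (with `lam' ≠ oneS Q`) and the uniqueness in `uni` for `lam'`,
`cnj s ρ = ρ_{lam'} = ρ`.

`caseII`: `ξ` from `exists_xi`; `m ∈ IrrS (T ⊔ C2)` from `glue_exists` for `ξ` and `ρ`; it is fixed by `S` (`S`
normalizes `T`, `C2` (`hnorm`), `C` (`norm_sup`) and fixes `ξ`, `ρ`). `ext_cyclic_rel` with `F = T ⊔ C2` and the
restriction to `S` of `π` from `exists_piQ Z`: its kernel on `S` is `S ⊓ C(Z) = C2 ≤ F`. So there is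
`Ψ ∈ IrrS S` with `Ψ = m` on `T ⊔ C2`. `ext_by_deg` with `A`, `S`, `N`, `D = T`, `ζ = ξ`: `Ψ = ξ` on `T`;
uniqueness of `ψ` over `ξ` and `deg ψ = |N : T| deg φ` from `exists_xi`; `deg Ψ = deg φ` (value at `1`);
`|A : S| = |N : T|` by `prod_stab` and `relIndex_of_prod` (`N ⊓ S = T`). `ip H2 f (rst H2 ρ) ≠ 0` by
`ip_trans` as `Ψ = ρ` on `H2`. `ip H2 χh (rst H2 ρ) ≠ 0`: `ip_of_aa`.
-/

namespace Pool.Agent.Helper42.CY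

open Pool.Agent.Helper42.INC Pool.Agent.Helper42.IR Pool.Agent.Helper97.S4

variable {G : Type} [Group G] [Finite G] {p : ℕ} [Fact p.Prime] {K Q Z H H2 : Subgroup G}
  [K.Normal]

omit [K.Normal] in
/-- transitivity of lying over -/
private theorem cii_over {L M J : Subgroup G} (hLM : L ≤ M) (hMJ : M ≤ J) {χ θ ρ : G → ℂ}
    (hχ : χ ∈ IrrS J) (hθ : θ ∈ IrrS M) (hρ : ρ ∈ IrrS L) (h1 : ip M χ θ ≠ 0)
    (h2 : ip L θ ρ ≠ 0) : ip L χ ρ ≠ 0 := by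
  have hfin : Finite (IrrS M) := irrS_finite M
  have := Fintype.ofFinite (IrrS M)
  rw [ip_trans hLM hMJ hχ, finsum_eq_sum_of_fintype]
  have hnat : ∀ t : IrrS M, ∃ n : ℕ, ip M χ t.1 * ip L t.1 ρ = n := by
    intro t
    obtain ⟨a, ha⟩ := ip_res_nat hMJ hχ t.2
    obtain ⟨b, hb⟩ := ip_res_nat hLM t.2 hρ
    refine ⟨a * b, ?_⟩
    rw [ha, hb]
    push_cast
    rfl
  choose n hn using hnat
  rw [Finset.sum_congr rfl (fun t _ => hn t), ← Nat.cast_sum]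
  intro h0
  have h3 : ∑ t : IrrS M, n t = 0 := by exact_mod_cast h0
  have h4 := (Finset.sum_eq_zero_iff.1 h3) ⟨θ, hθ⟩ (Finset.mem_univ _)
  have h5 := hn ⟨θ, hθ⟩
  rw [h4, Nat.cast_zero] at h5
  exact (mul_ne_zero h1 h2) h5

omit [K.Normal] in
/-- the scalar product only depends on the values on the subgroup -/
private theorem cii_ip_eq {L : Subgroup G} {χ ρ : G → ℂ} (hρ : ρ ∈ IrrS L)
    (h : ∀ x ∈ L, χ x = ρ x) : ip L χ ρ = 1 := by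
  have h1 : ip L χ ρ = ip L ρ ρ := by
    unfold ip
    congr 1
    funext x
    exact h x.1 x.2
  rw [h1, ip_irrS hρ hρ, if_pos rfl]

private theorem cii_basic (hL : LocC p K Q Z H) {φ : G → ℂ} (hφ : φ ∈ IrrS (Q ⊔ H))
    (h2 : Hyp2 p K Q Z H H2 φ) :
    (NN K Z ⊓ stab φ) ⊓ (Q ⊔ H2) = Q ⊔ H ∧
      Q ⊔ H2 ≤ Subgroup.normalizer (Z : Set G) ⊓ stab φ ∧
      ∀ h ∈ Q ⊔ H2, ∀ t ∈ NN K Z ⊓ stab φ, h * t * h⁻¹ ∈ NN K Z ⊓ stab φ := by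
  have hC2S : Q ⊔ H2 ≤ Subgroup.normalizer (Z : Set G) ⊓ stab φ := by
    rw [← h2.hcent]
    exact inf_le_inf_right _ (Subgroup.centralizer_le_normalizer _)
  refine ⟨?_, hC2S, ?_⟩
  · apply le_antisymm
    · rw [← h2.hKH]
      exact inf_le_inf_right _ (inf_le_left.trans inf_le_left)
    · exact le_inf (hL.C_le_stab hφ) (sup_le_sup_left h2.hH Q)
  · intro h hh t ht
    have h1 := hC2S hh
    refine ⟨⟨Subgroup.Normal.conj_mem inferInstance t ht.1.1 h, ?_⟩, ?_⟩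
    · exact Subgroup.mul_mem _ (Subgroup.mul_mem _ h1.1 ht.1.2) (Subgroup.inv_mem _ h1.1)
    · exact Subgroup.mul_mem _ (Subgroup.mul_mem _ h1.2 ht.2) (Subgroup.inv_mem _ h1.2)

theorem common_rho (hL : LocC p K Q Z H) {φ : G → ℂ} (hφ : φ ∈ Ca p Q H)
    (h2 : Hyp2 p K Q Z H H2 φ)
    (hP : Pkg p K Q Z H) (hP2 : Pkg p (K ⊔ H2) Q Z H2) {χh χ ξ : G → ℂ} (hχh : χh ∈ Irr G)
    (hχ : χ ∈ IrrSP p K) (hres : ∀ k ∈ K, χh k = χ k)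
    (ha : ∀ lam ∈ IrrS Q, lam ≠ oneS Q → aa Q H χ lam φ ≠ 0)
    (hξ : ξ ∈ IrrS (NN K Z ⊓ stab φ)) (hξφ : ∀ x ∈ Q ⊔ H, ξ x = φ x)
    (hξi : ∀ s ∈ Subgroup.normalizer (Z : Set G) ⊓ stab φ, cnj s ξ = ξ) :
    ∃ ρ ∈ Ca p Q H2, (∀ x ∈ Q ⊔ H, ρ x = φ x) ∧
      (∀ s ∈ Subgroup.normalizer (Z : Set G) ⊓ stab φ, cnj s ρ = ρ) ∧
      ∃ lam ∈ IrrS Q, aa Q H2 (rst (K ⊔ H2) χh) lam ρ ≠ 0 := by
  obtain ⟨hT, hC2S, hn⟩ := cii_basic hL hφ.1.1 h2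
  -- the extensions
  have hex : ∀ lam ∈ IrrS Q, lam ≠ oneS Q → ∃ ρ ∈ Ca p Q H2,
      aa Q H2 (rst (K ⊔ H2) χh) lam ρ ≠ 0 ∧ (∀ x ∈ Q ⊔ H, ρ x = φ x) ∧
      (∀ ρ' ∈ Ca p Q H2, aa Q H2 (rst (K ⊔ H2) χh) lam ρ' ≠ 0 → ip (Q ⊔ H) ρ' φ ≠ 0 →
        ρ' = ρ) ∧
      ∀ t ∈ NN K Z ⊓ stab φ, cnj t ρ = ρ := by
    intro lam hl hl1
    obtain ⟨ρ, hρ, h3, h4, h5⟩ := uni hL hφ h2 hP hP2 hχh hχ hres hl (ha lam hl hl1)
    refine ⟨ρ, hρ, h3, h4, h5, fun t ht => ?_⟩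
    exact IR.E.glue_inv (T := NN K Z ⊓ stab φ) (H2 := Q ⊔ H2) (H := Q ⊔ H) (φ := φ) hT hn
      (fun t ht h hh => h2.hcomm t ht.1 h hh) hξ hρ.1.1 hφ.1.1 hξφ h4
      (fun h hh => hξi h (hC2S hh)) ht
  obtain ⟨l0, hl0, hl01⟩ := exists_ne_oneS hL
  obtain ⟨ρ, hρ, h3, h4, h5, h6⟩ := hex l0 hl0 hl01
  have hsame : ∀ lam ∈ IrrS Q, lam ≠ oneS Q → ∀ ρ' ∈ Ca p Q H2,
      aa Q H2 (rst (K ⊔ H2) χh) lam ρ' ≠ 0 → ip (Q ⊔ H) ρ' φ ≠ 0 → ρ' = ρ := by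
    intro lam hl hl1 ρ' hρ' ha' hip'
    obtain ⟨ρ1, hρ1, h3', h4', h5', -⟩ := hex lam hl hl1
    have e1 := h5' ρ' hρ' ha' hip'
    obtain ⟨t, ht, ht1, ht2⟩ := uni_orb hL hφ h2 hP2 hχh hχ hres hl0 hl hρ hρ1 h3 h3' h4 h4'
    have e2 := h6 t ⟨ht, ht1⟩
    rw [e1, ← ht2, e2]
  have hip : ip (Q ⊔ H) ρ φ ≠ 0 := by
    rw [cii_ip_eq hφ.1.1 h4]
    exact one_ne_zero
  refine ⟨ρ, hρ, h4, ?_, l0, hl0, h3⟩
  intro s hs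
  obtain ⟨l1, hl1, hl11, k1, k2, k3⟩ := uni_conj hL hφ h2 hχh hl0 hρ h3 hip hs
  exact hsame l1 hl1 (hl11 hl01) _ k3 k1 k2

theorem caseII (hL : LocC p K Q Z H) {φ : G → ℂ} (hφ : φ ∈ Ca p Q H)
    (h2 : Hyp2 p K Q Z H H2 φ) (hP : Pkg p K Q Z H) (hP2 : Pkg p (K ⊔ H2) Q Z H2)
    {χh χ ψ : G → ℂ} (hχh : χh ∈ Irr G)
    (hχ : χ ∈ IrrSP p K) (hres : ∀ k ∈ K, χh k = χ k) (hψ : ψ ∈ IrrSP p (NN K Z))
    (h1 : ip (Q ⊔ H) ψ φ = 1) (hinv : ∀ a ∈ Subgroup.normalizer (Z : Set G), cnj a ψ = ψ)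
    (ha : ∀ lam ∈ IrrS Q, lam ≠ oneS Q → aa Q H χ lam φ ≠ 0) :
    ∃ f ∈ IrrS (Subgroup.normalizer (Z : Set G)), (∀ n ∈ NN K Z, f n = ψ n) ∧
      ∃ ρ ∈ IrrS H2, ip H2 f ρ ≠ 0 ∧ ip H2 χh ρ ≠ 0 := by
  obtain ⟨hT, hC2S, hn⟩ := cii_basic hL hφ.1.1 h2
  obtain ⟨ξ, hξ, hξφ, hξψ, hξi, hdegψ, huniq⟩ := exists_xi hL hφ.1.1 hψ.1 h1 hinv
  obtain ⟨ρ, hρ, hρφ, hρi, lam, hl, hal⟩ :=
    common_rho hL hφ h2 hP hP2 hχh hχ hres ha hξ hξφ hξi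
  obtain ⟨m, hm, hmT, hmC2, hmi⟩ := IR.E.glue_exists (T := NN K Z ⊓ stab φ) (H2 := Q ⊔ H2)
    (H := Q ⊔ H) (φ := φ) hT hn (fun t ht h hh => h2.hcomm t ht.1 h hh) hξ hρ.1.1 hφ.1.1 hξφ
    hρφ (fun h hh => hξi h (hC2S hh))
  have hKn : Subgroup.normalizer (K : Set G) = ⊤ := Subgroup.normalizer_eq_top K
  have hTS : NN K Z ⊓ stab φ ≤ Subgroup.normalizer (Z : Set G) ⊓ stab φ :=
    inf_le_inf_right _ inf_le_right
  have hnT : ∀ s ∈ Subgroup.normalizer (Z : Set G) ⊓ stab φ,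
      s ∈ Subgroup.normalizer ((NN K Z ⊓ stab φ : Subgroup G) : Set G) := by
    have key : ∀ s ∈ Subgroup.normalizer (Z : Set G) ⊓ stab φ, ∀ t ∈ NN K Z ⊓ stab φ,
        s * t * s⁻¹ ∈ NN K Z ⊓ stab φ := by
      intro s h3 t ht
      refine ⟨⟨Subgroup.Normal.conj_mem inferInstance t ht.1.1 s, ?_⟩, ?_⟩
      · exact Subgroup.mul_mem _ (Subgroup.mul_mem _ h3.1 ht.1.2) (Subgroup.inv_mem _ h3.1)
      · exact Subgroup.mul_mem _ (Subgroup.mul_mem _ h3.2 ht.2) (Subgroup.inv_mem _ h3.2)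
    intro s hs
    rw [Subgroup.mem_normalizer_iff]
    intro t
    refine ⟨key s hs t, fun h => ?_⟩
    have h3 := key s⁻¹ (Subgroup.inv_mem _ hs) _ h
    have e : s⁻¹ * (s * t * s⁻¹) * s⁻¹⁻¹ = t := by group
    rwa [e] at h3
  have hnC : ∀ s ∈ Subgroup.normalizer (Z : Set G) ⊓ stab φ,
      s ∈ Subgroup.normalizer ((Q ⊔ H : Subgroup G) : Set G) := by
    intro s hs
    exact hL.norm_sup (by rw [hKn]; exact Subgroup.mem_top _) hs.1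
  have hF : (NN K Z ⊓ stab φ) ⊔ (Q ⊔ H2) ≤ Subgroup.normalizer (Z : Set G) ⊓ stab φ :=
    sup_le hTS hC2S
  have hnF : Subgroup.normalizer (Z : Set G) ⊓ stab φ ≤
      Subgroup.normalizer (((NN K Z ⊓ stab φ) ⊔ (Q ⊔ H2) : Subgroup G) : Set G) := by
    intro s hs
    exact Subgroup.normalizer_inf_normalizer_le_normalizer_sup _ _ ⟨hnT s hs, h2.hnorm s hs⟩
  have hst : Subgroup.normalizer (Z : Set G) ⊓ stab φ ≤ stab m := by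
    intro s hs
    exact hmi s (hnT s hs) (h2.hnorm s hs) (hnC s hs) (hξi s hs) (hρi s hs)
  obtain ⟨π0, hπ0⟩ := exists_piQ (p := p) Z hL.cZ
  obtain ⟨Ψ, hΨ, hΨm⟩ := IR.E.ext_cyclic_rel (p := p) hF hnF hm hst
    (π0.comp (Subgroup.inclusion inf_le_left)) (by
      intro s hs
      have h3 : ((Subgroup.inclusion (inf_le_left :
        Subgroup.normalizer (Z : Set G) ⊓ stab φ ≤ Subgroup.normalizer (Z : Set G)) s :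
          Subgroup.normalizer (Z : Set G)) : G) ∈ Subgroup.centralizer (Z : Set G) :=
        (hπ0 _).1 hs
      have h4 : (s : G) ∈ Q ⊔ H2 := by
        rw [← h2.hcent]
        exact ⟨h3, s.2.2⟩
      exact (le_sup_right : Q ⊔ H2 ≤ (NN K Z ⊓ stab φ) ⊔ (Q ⊔ H2)) h4)
  have hΨT : ∀ x ∈ NN K Z ⊓ stab φ, Ψ x = ξ x := by
    intro x hx
    rw [hΨm x ((le_sup_left : NN K Z ⊓ stab φ ≤ (NN K Z ⊓ stab φ) ⊔ (Q ⊔ H2)) hx), hmT x hx]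
  have hΨC2 : ∀ x ∈ Q ⊔ H2, Ψ x = ρ x := by
    intro x hx
    rw [hΨm x ((le_sup_right : Q ⊔ H2 ≤ (NN K Z ⊓ stab φ) ⊔ (Q ⊔ H2)) hx), hmC2 x hx]
  have hipψ : ip (Q ⊔ H) ψ φ ≠ 0 := by
    rw [h1]
    exact one_ne_zero
  have hdegΨ : deg Ψ = deg φ := by
    have h3 : Ψ 1 = φ 1 := by
      rw [hΨT 1 (Subgroup.one_mem _), hξφ 1 (Subgroup.one_mem _)]
    have h4 := irrS_deg hφ.1.1
    rw [← h3] at h4
    exact deg_eq h4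
  have hidx : (Subgroup.normalizer (Z : Set G) ⊓ stab φ).relIndex
      (Subgroup.normalizer (Z : Set G)) = (NN K Z ⊓ stab φ).relIndex (NN K Z) := by
    rw [IR.E.relIndex_of_prod (A := Subgroup.normalizer (Z : Set G))
      (S := Subgroup.normalizer (Z : Set G) ⊓ stab φ) (N := NN K Z) inf_le_left inf_le_right
      (fun a haA => prod_stab hL hφ.1.1 hψ.1 hipψ hinv haA)]
    congr 1
    rw [← inf_assoc]
    congr 1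
    exact inf_eq_left.2 inf_le_right
  obtain ⟨f, hf, hfΨ, hfψ⟩ := IR.E.ext_by_deg (A := Subgroup.normalizer (Z : Set G))
    (S := Subgroup.normalizer (Z : Set G) ⊓ stab φ) (N := NN K Z) (D := NN K Z ⊓ stab φ)
    inf_le_left inf_le_right hTS inf_le_left hΨ hψ.1 hξ hΨT huniq
    (by rw [hidx, hdegΨ, hdegψ])
  have hρ2 : rst H2 ρ ∈ IrrS H2 := rst_H h2.hL2 hρ.1
  refine ⟨f, hf, hfψ, rst H2 ρ, hρ2, ?_, ip_of_aa h2.hL2 hχh hl hρ hal⟩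
  refine cii_over (le_sup_right.trans hC2S) inf_le_left hf hΨ hρ2 hfΨ ?_
  rw [cii_ip_eq hρ2 (fun x hx => by
    rw [hΨC2 x ((le_sup_right : H2 ≤ Q ⊔ H2) hx)]
    unfold rst
    rw [if_pos hx])]
  exact one_ne_zero

end Pool.Agent.Helper42.CY
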