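import Pool.Agent.Helper42.IR.F.Pull2
import Pool.Agent.Helper42.CY.Can

/-!
# CY-27 (project CY): transport along an injective homomorphism

`ι : K → G` injective, `ez ι f` the extension by zero (Helper42/IR/F/Pull.lean: `ez_apply`, `ez_off`, `ez_inj`,
`ez_irrS`, `irrS_map`, `deg_ez`, `cnj_ez`, `oneS_ez`; Pull2.lean: `NN_map`, `centralizer_map`,
`cnj_ez_conj`, `ne_oneS_ez`, `conj_ez`: all general).

* `ip_ez`: reindex the sum over `L.map ι`.
* `lift_ez`: `(Q ⊔ H).map ι = Q.map ι ⊔ H.map ι`; the sum over `Q.map ι`; `(ι x)⁻¹ * ι k ∈ H.map ι` iff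
  `x⁻¹ k ∈ H`; both vanish off the range of `ι`.
* `dt_ez`: the product over `IrrS (Q.map ι)` (`irrS_map`, `ez_irrS`) and `ip_ez`.
* `locC_map`: orders, indices and cyclicity are preserved; `centralizer_map` for `Z`.
* `pkg_map`: every `χ ∈ IrrS ι.range` is `ez ι χ'` with `χ' ∈ IrrS ⊤` (`irrS_map` for `L = ⊤`,
  `(⊤).map ι = ι.range`), etc. `conj_ez` is stated for `NN ι.range (Q.map ι)`. Relative indices are
  preserved by `map ι` (injective), `(NN ⊤ Q ⊓ stab φ).map ι = NN ι.range (Q.map ι) ⊓ stab (ez ι φ)`.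
-/

namespace Pool.Agent.Helper42.CY

open Pool.Agent.Helper42.INC Pool.Agent.Helper42.IR Pool.Agent.Helper97.S4
open Pool.Agent.Helper42.IR.F (ez ez_apply ez_off ez_inj ez_irrS irrS_map deg_ez cnj_ez oneS_ez NN_map
  centralizer_map cnj_ez_conj ne_oneS_ez conj_ez)

variable {K G : Type} [Group K] [Group G] [Finite K] [Finite G] {ι : K →* G}
  (hι : Function.Injective ι)

include hι

theorem ip_ez (L : Subgroup K) (f g : K → ℂ) : ip (L.map ι) (ez ι f) (ez ι g) = ip L f g := by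
  let e : L ≃* L.map ι := L.equivMapOfInjective ι hι
  have he : ∀ x : L, ((e x : L.map ι) : G) = ι x := fun x => rfl
  unfold ip B
  rw [← Nat.card_congr e.toEquiv]
  congr 1
  rw [← finsum_comp_equiv e.toEquiv]
  refine finsum_congr fun x => ?_
  change ez ι f ((e x : L.map ι) : G) * ez ι g (((e x : L.map ι) : G))⁻¹ = f x * g (x : K)⁻¹
  rw [he, ← map_inv, ez_apply hι, ez_apply hι]

theorem lift_ez (Q H : Subgroup K) (lam : K → ℂ) :
    lift (Q.map ι) (H.map ι) (ez ι lam) = ez ι (lift Q H lam) := by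
  classical
  let eQ : Q ≃* Q.map ι := Q.equivMapOfInjective ι hι
  have heQ : ∀ x : Q, ((eQ x : Q.map ι) : G) = ι x := fun x => rfl
  funext g
  unfold lift
  rw [← finsum_comp_equiv eQ.toEquiv]
  by_cases hr : g ∈ ι.range
  · obtain ⟨k, rfl⟩ := hr
    rw [ez_apply hι]
    refine finsum_congr fun x => ?_
    change (if (((eQ x : Q.map ι) : G))⁻¹ * ι k ∈ H.map ι then
      ez ι lam ((eQ x : Q.map ι) : G) else 0) = if (x : K)⁻¹ * k ∈ H then lam (x : K) else 0
    rw [heQ, ← map_inv, ← map_mul, ez_apply hι]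
    refine if_congr ?_ rfl rfl
    exact Subgroup.mem_map_iff_mem hι
  · rw [ez_off ι _ hr]
    apply finsum_eq_zero_of_forall_eq_zero
    intro x
    change (if (((eQ x : Q.map ι) : G))⁻¹ * g ∈ H.map ι then
      ez ι lam ((eQ x : Q.map ι) : G) else 0) = 0
    rw [if_neg]
    rintro ⟨h, -, hh⟩
    apply hr
    rw [heQ] at hh
    refine ⟨(x : K) * h, ?_⟩
    rw [map_mul, hh]
    group

theorem prodC_ez (Q H : Subgroup K) (lam φ : K → ℂ) :
    prodC (Q.map ι) (H.map ι) (ez ι lam) (ez ι φ) = ez ι (prodC Q H lam φ) := by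
  funext g
  unfold prodC
  rw [lift_ez hι]
  by_cases hr : g ∈ ι.range
  · obtain ⟨k, rfl⟩ := hr
    rw [ez_apply hι, ez_apply hι, ez_apply hι]
  · rw [ez_off ι _ hr, ez_off ι _ hr, ez_off ι _ hr, zero_mul]

theorem aa_ez (Q H : Subgroup K) (χ lam φ : K → ℂ) :
    aa (Q.map ι) (H.map ι) (ez ι χ) (ez ι lam) (ez ι φ) = aa Q H χ lam φ := by
  unfold aa
  rw [prodC_ez hι, ← Subgroup.map_sup, ip_ez hι, ip_ez hι]

private theorem irrSP_ez' {p : ℕ} {L : Subgroup K} {φ : K → ℂ} :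
    ez ι φ ∈ IrrSP p (L.map ι) ↔ φ ∈ IrrSP p L := by
  unfold IrrSP
  refine and_congr (ez_irrS hι) ?_
  rw [deg_ez hι]

private theorem dt_ez (Q : Subgroup K) (φ : K → ℂ) (x : K) :
    dt (Q.map ι) (ez ι φ) (ι x) = dt Q φ x := by
  unfold dt
  let e : IrrS Q ≃ IrrS (Q.map ι) := Equiv.ofBijective
    (fun mu => ⟨ez ι mu.1, (ez_irrS hι).2 mu.2⟩) ⟨fun a b hab => Subtype.ext (ez_inj hι
      (congrArg Subtype.val hab)), fun b => by
        obtain ⟨f', hf', hb⟩ := irrS_map hι b.2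
        exact ⟨⟨f', hf'⟩, Subtype.ext hb.symm⟩⟩
  have he : ∀ mu : IrrS Q, (e mu).1 = ez ι mu.1 := fun mu => rfl
  rw [← finprod_comp_equiv e]
  refine finprod_congr fun mu => ?_
  rw [he, ip_ez hι, ez_apply hι]

private theorem relIndex_map' (L M : Subgroup K) :
    (L.map ι).relIndex (M.map ι) = L.relIndex M :=
  Subgroup.relIndex_map_map_of_injective L M hι

theorem ca_ez {p : ℕ} {Q H : Subgroup K} {φ : K → ℂ} :
    ez ι φ ∈ Ca p (Q.map ι) (H.map ι) ↔ φ ∈ Ca p Q H := by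
  unfold Ca
  refine and_congr ?_ ?_
  · rw [← Subgroup.map_sup]
    exact irrSP_ez' hι
  · constructor
    · intro h x hx
      have h1 := h (ι x) ⟨x, hx, rfl⟩
      rwa [dt_ez hι] at h1
    · rintro h _ ⟨x, hx, rfl⟩
      rw [dt_ez hι]
      exact h x hx

theorem ca_map {p : ℕ} {Q H : Subgroup K} {f : G → ℂ} (hf : f ∈ Ca p (Q.map ι) (H.map ι)) :
    ∃ φ ∈ Ca p Q H, f = ez ι φ := by
  have h1 := hf.1.1
  rw [← Subgroup.map_sup] at h1
  obtain ⟨φ, -, rfl⟩ := irrS_map hι h1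
  exact ⟨φ, (ca_ez hι).1 hf, rfl⟩

theorem locC_map {p : ℕ} {Q Z H : Subgroup K} :
    LocC p ι.range (Q.map ι) (Z.map ι) (H.map ι) ↔ LocC p (⊤ : Subgroup K) Q Z H := by
  have hcard : ∀ L : Subgroup K, Nat.card (L.map ι) = Nat.card L := fun L =>
    (Nat.card_congr (L.equivMapOfInjective ι hι).toEquiv).symm
  have hr : ι.range = (⊤ : Subgroup K).map ι := MonoidHom.range_eq_map ι
  have hcen := centralizer_map hι Z
  have hmem : ∀ (L : Subgroup K) (x : K), ι x ∈ L.map ι ↔ x ∈ L := fun L x =>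
    Subgroup.mem_map_iff_mem hι
  have hcyc : IsCyclic (Q.map ι) ↔ IsCyclic Q := by
    constructor
    · intro h
      exact isCyclic_of_surjective (Q.equivMapOfInjective ι hι).symm
        (Q.equivMapOfInjective ι hι).symm.surjective
    · intro h
      exact isCyclic_of_surjective (Q.equivMapOfInjective ι hι)
        (Q.equivMapOfInjective ι hι).surjective
  have hnorm : (((⊤ : Subgroup K) ⊓ Subgroup.centralizer (Z : Set K)).map ι ≤
      Subgroup.normalizer ((H.map ι : Subgroup G) : Set G)) ↔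
      (⊤ : Subgroup K) ⊓ Subgroup.centralizer (Z : Set K) ≤ Subgroup.normalizer (H : Set K) := by
    constructor
    · intro h k hk
      have h1 := h (Subgroup.mem_map_of_mem ι hk)
      rw [Subgroup.mem_normalizer_iff] at h1 ⊢
      intro x
      have h2 := h1 (ι x)
      rw [hmem, ← map_inv, ← map_mul, ← map_mul, hmem] at h2
      exact h2
    · rintro h _ ⟨k, hk, rfl⟩
      have h1 := h hk
      rw [Subgroup.mem_normalizer_iff] at h1
      rw [Subgroup.mem_normalizer_iff]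
      intro y
      constructor
      · rintro ⟨x, hx, rfl⟩
        rw [← map_inv, ← map_mul, ← map_mul, hmem]
        exact (h1 x).1 hx
      · rintro ⟨x, hx, hxy⟩
        have h2 : y = ι (k⁻¹ * x * k) := by
          rw [map_mul, map_mul, hxy, map_inv]
          group
        rw [h2, hmem, h1]
        have h3 : k * (k⁻¹ * x * k) * k⁻¹ = x := by group
        rw [h3]
        exact hx
  constructor
  · intro h
    refine ⟨le_top, hcyc.1 h.cyc, ?_, ?_, ?_, ?_, ?_, ?_, ?_, ?_⟩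
    · rw [← hcard]
      exact h.cQ
    · rw [← relIndex_map' hι, ← hr]
      exact h.syl
    · exact (Subgroup.map_le_map_iff_of_injective hι).1 h.ZQ
    · rw [← hcard]
      exact h.cZ
    · have := h.HC
      rwa [hcen, Subgroup.map_le_map_iff_of_injective hι] at this
    · have := h.nH
      rw [hcen] at this
      exact hnorm.1 this
    · rw [← hcard]
      exact h.pH
    · have := h.sup
      rw [hcen, ← Subgroup.map_sup] at this
      exact Subgroup.map_injective hι this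
  · intro h
    refine ⟨?_, hcyc.2 h.cyc, ?_, ?_, ?_, ?_, ?_, ?_, ?_, ?_⟩
    · rw [hr]
      exact Subgroup.map_mono le_top
    · rw [hcard]
      exact h.cQ
    · rw [hr, relIndex_map' hι]
      exact h.syl
    · exact Subgroup.map_mono h.ZQ
    · rw [hcard]
      exact h.cZ
    · rw [hcen, Subgroup.map_le_map_iff_of_injective hι]
      exact h.HC
    · rw [hcen]
      exact hnorm.2 h.nH
    · rw [hcard]
      exact h.pH
    · rw [hcen, ← Subgroup.map_sup, h.sup]

theorem bl_ez {Q H : Subgroup K} {χ φ : K → ℂ} :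
    Bl (Q.map ι) (H.map ι) (ez ι χ) (ez ι φ) ↔ Bl Q H χ φ := by
  constructor
  · rintro ⟨lam, hlam, h⟩
    obtain ⟨lam', hlam', rfl⟩ := irrS_map hι hlam
    rw [aa_ez hι] at h
    exact ⟨lam', hlam', h⟩
  · rintro ⟨lam, hlam, h⟩
    refine ⟨ez ι lam, (ez_irrS hι).2 hlam, ?_⟩
    rw [aa_ez hι]
    exact h

theorem ne_ez {Q H : Subgroup K} {χ φ : K → ℂ} {ε : ℂ} :
    NE (Q.map ι) (H.map ι) (ez ι χ) (ez ι φ) ε ↔ NE Q H χ φ ε := by
  constructor
  · intro h lam hlam hne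
    have h1 := h (ez ι lam) ((ez_irrS hι).2 hlam) ((ne_oneS_ez hι).2 hne)
    rwa [aa_ez hι] at h1
  · intro h lam hlam hne
    obtain ⟨lam', hlam', rfl⟩ := irrS_map hι hlam
    rw [aa_ez hι]
    exact h lam' hlam' ((ne_oneS_ez hι).1 hne)

theorem ex_ez {Q H : Subgroup K} {ψ φ l0 : K → ℂ} {ε : ℂ} :
    EX ι.range (Q.map ι) (H.map ι) (ez ι ψ) (ez ι φ) (ez ι l0) ε ↔
      EX (⊤ : Subgroup K) Q H ψ φ l0 ε := by
  constructor
  · intro h lam hlam hne
    have h1 := h (ez ι lam) ((ez_irrS hι).2 hlam) ((ne_oneS_ez hι).2 hne)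
    rw [conj_ez hι, aa_ez hι] at h1
    exact h1
  · intro h lam hlam hne
    obtain ⟨lam', hlam', rfl⟩ := irrS_map hι hlam
    rw [conj_ez hι, aa_ez hι]
    exact h lam' hlam' ((ne_oneS_ez hι).1 hne)

theorem typ_ez {Q H : Subgroup K} {χ ψ φ : K → ℂ} :
    Typ ι.range (Q.map ι) (H.map ι) (ez ι χ) (ez ι ψ) (ez ι φ) ↔
      Typ (⊤ : Subgroup K) Q H χ ψ φ := by
  unfold Typ
  refine or_congr ?_ (and_congr ?_ ?_)
  · constructor
    · rintro ⟨l0, hl0, h1, h2, h3⟩
      obtain ⟨l0', hl0', rfl⟩ := irrS_map hι hl0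
      rw [aa_ez hι] at h3
      exact ⟨l0', hl0', (ne_oneS_ez hι).1 h1, (ex_ez hι).1 h2, h3⟩
    · rintro ⟨l0, hl0, h1, h2, h3⟩
      refine ⟨ez ι l0, (ez_irrS hι).2 hl0, (ne_oneS_ez hι).2 h1, (ex_ez hι).2 h2, ?_⟩
      rw [aa_ez hι]
      exact h3
  · rw [← Subgroup.map_sup, ip_ez hι]
  · constructor
    · intro h lam hlam hne
      have h1 := h (ez ι lam) ((ez_irrS hι).2 hlam) ((ne_oneS_ez hι).2 hne)
      rwa [aa_ez hι] at h1
    · intro h lam hlam hne
      obtain ⟨lam', hlam', rfl⟩ := irrS_map hι hlam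
      rw [aa_ez hι]
      exact h lam' hlam' ((ne_oneS_ez hι).1 hne)

end Pool.Agent.Helper42.CY
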