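import Pool.Agent.Helper42.CY.PkgTop
import Pool.Agent.Helper42.CY.Pull

/-!
# CY-28 (project CY): the package for a subgroup

* `pkg_map`: transport of `Pkg` along an injective homomorphism `ι` (see the header of Pull.lean): every
  `χ ∈ IrrS ι.range` is `ez ι χ'` with `χ' ∈ IrrS ⊤` (`irrS_map` for `L = ⊤`, `(⊤).map ι = ι.range`), every
  `φ ∈ Ca p (Q.map ι) (H.map ι)` is `ez ι φ'` (`ca_map`), every `lam ∈ IrrS (Q.map ι)` is `ez ι lam'`. `bl_ez`, `ne_ez`,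
  `ex_ez`, `deg_ez`, `conj_ez` (IR/F/Pull2.lean). Relative indices are preserved by `map ι`:
  `(NN ⊤ Q ⊓ stab φ).map ι = NN ι.range (Q.map ι) ⊓ stab (ez ι φ)` (`NN_map`, `cnj_ez_conj`, `ez_inj`),
  `Subgroup.relIndex_map_map_of_injective` or similar. The field `norm` holds in general (`norm` of
  NormC.lean with `locC_map`).
* `pkg_of_loc`: `ι = K.subtype`, `ι.range = K`, and `Q = (Q.subgroupOf K).map ι` etc. (`Q ≤ K`).
-/

namespace Pool.Agent.Helper42.CY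

open Pool.Agent.Helper42.INC Pool.Agent.Helper42.IR Pool.Agent.Helper97.S4
open Pool.Agent.Helper42.IR.F (ez irrS_map deg_ez NN_map cnj_ez_conj ez_inj ez_irrS ne_oneS_ez)

private theorem ps_range {K G : Type} [Group K] [Group G] {ι : K →* G}
    (hι : Function.Injective ι) {f : G → ℂ} (hf : f ∈ IrrS ι.range) :
    ∃ f' ∈ IrrS (⊤ : Subgroup K), f = ez ι f' := by
  rw [MonoidHom.range_eq_map] at hf
  exact irrS_map hι hf

private theorem ps_rangeP {K G : Type} [Group K] [Group G] {ι : K →* G}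
    (hι : Function.Injective ι) {p : ℕ} {f : G → ℂ} (hf : f ∈ IrrSP p ι.range) :
    ∃ f' ∈ IrrSP p (⊤ : Subgroup K), f = ez ι f' := by
  obtain ⟨f', h1, rfl⟩ := ps_range hι hf.1
  refine ⟨f', ⟨h1, ?_⟩, rfl⟩
  have h2 := hf.2
  rw [deg_ez hι] at h2
  exact h2

private theorem ps_stab {K G : Type} [Group K] [Group G] {ι : K →* G}
    (hι : Function.Injective ι) (Q : Subgroup K) (φ : K → ℂ) :
    NN ι.range (Q.map ι) ⊓ IR.stab (ez ι φ) = (NN (⊤ : Subgroup K) Q ⊓ IR.stab φ).map ι := by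
  rw [NN_map hι]
  ext g
  constructor
  · rintro ⟨⟨k, hk, rfl⟩, h⟩
    have h1 : cnj (ι k) (ez ι φ) = ez ι φ := h
    rw [cnj_ez_conj hι] at h1
    exact ⟨k, ⟨hk, ez_inj hι h1⟩, rfl⟩
  · rintro ⟨k, ⟨hk, h⟩, rfl⟩
    refine ⟨⟨k, hk, rfl⟩, ?_⟩
    change cnj (ι k) (ez ι φ) = ez ι φ
    have h1 : cnj k φ = φ := h
    rw [cnj_ez_conj hι, h1]

theorem pkg_map {K G : Type} [Group K] [Group G] [Finite K] [Finite G] {ι : K →* G}
    (hι : Function.Injective ι) {p : ℕ} [Fact p.Prime] {Q Z H : Subgroup K}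
    (hL : LocC p (⊤ : Subgroup K) Q Z H) (h : Pkg p (⊤ : Subgroup K) Q Z H) :
    Pkg p ι.range (Q.map ι) (Z.map ι) (H.map ι) where
  exb := by
    intro χ hχ
    obtain ⟨χ', hχ', rfl⟩ := ps_rangeP hι hχ
    obtain ⟨φ, hφ, hB⟩ := h.exb χ' hχ'
    exact ⟨ez ι φ, (ca_ez hι).2 hφ, (bl_ez hι).2 hB⟩
  unb := by
    intro χ hχ φ hφ ρ hρ h1 h2
    obtain ⟨χ', hχ', rfl⟩ := ps_rangeP hι hχ
    obtain ⟨φ', hφ', rfl⟩ := ca_map hι hφ
    obtain ⟨ρ', hρ', rfl⟩ := ca_map hι hρ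
    obtain ⟨n, hn, h3⟩ := h.unb χ' hχ' φ' hφ' ρ' hρ' ((bl_ez hι).1 h1) ((bl_ez hι).1 h2)
    refine ⟨ι n, ?_, ?_⟩
    · rw [NN_map hι]
      exact ⟨n, hn, rfl⟩
    · rw [cnj_ez_conj hι, h3]
  def0 := by
    intro χ hχ hd φ hφ hB
    obtain ⟨χ', hχ', rfl⟩ := ps_range hι hχ
    obtain ⟨φ', hφ', rfl⟩ := ca_map hι hφ
    rw [deg_ez hι] at hd
    exact h.def0 χ' hχ' hd φ' hφ' ((bl_ez hι).1 hB)
  shape := by
    intro χ hχ φ hφ hB
    obtain ⟨χ', hχ', rfl⟩ := ps_rangeP hι hχ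
    obtain ⟨φ', hφ', rfl⟩ := ca_map hι hφ
    obtain ⟨ε, hε, h1⟩ := h.shape χ' hχ' φ' hφ' ((bl_ez hι).1 hB)
    refine ⟨ε, hε, ?_⟩
    rcases h1 with h1 | ⟨l0, hl0, hne, h1⟩
    · exact Or.inl ((ne_ez hι).2 h1)
    · exact Or.inr ⟨ez ι l0, (ez_irrS hι).2 hl0, (ne_oneS_ez hι).2 hne, (ex_ez hι).2 h1⟩
  norm := by
    classical
    intro φ hφ lam hl lam' hl' h1 h1'
    rw [norm ((locC_map hι).2 hL) hφ hl hl' h1 h1']
  degNE := by
    intro χ hχ φ hφ ε hε h1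
    obtain ⟨χ', hχ', rfl⟩ := ps_rangeP hι hχ
    obtain ⟨φ', hφ', rfl⟩ := ca_map hι hφ
    have h2 := h.degNE χ' hχ' φ' hφ' ε hε ((ne_ez hι).1 h1)
    rw [deg_ez hι, deg_ez hι, h2, ps_stab hι, NN_map hι,
      Subgroup.relIndex_map_map_of_injective _ _ hι]
  degEX := by
    intro χ hχ φ hφ l0 hl0 hne ε hε h1
    obtain ⟨χ', hχ', rfl⟩ := ps_rangeP hι hχ
    obtain ⟨φ', hφ', rfl⟩ := ca_map hι hφ
    obtain ⟨l', hl', rfl⟩ := irrS_map hι hl0
    have h2 := h.degEX χ' hχ' φ' hφ' l' hl' ((ne_oneS_ez hι).1 hne) ε hε ((ex_ez hι).1 h1)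
    rw [deg_ez hι, deg_ez hι, h2, ← Subgroup.map_sup, NN_map hι,
      Subgroup.relIndex_map_map_of_injective _ _ hι]

theorem pkg_of_loc {G : Type} [Group G] [Finite G] {p : ℕ} [Fact p.Prime] {K Q Z H : Subgroup G}
    (hL : LocC p K Q Z H) (hp2 : p ≠ 2) : Pkg p K Q Z H := by
  have hHK : H ≤ K := hL.HK
  have hZK : Z ≤ K := hL.ZQ.trans hL.QK
  have e : ∀ {L : Subgroup G}, L ≤ K → (L.subgroupOf K).map K.subtype = L := by
    intro L hLK
    rw [Subgroup.subgroupOf_map_subtype, inf_eq_left.2 hLK]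
  have h1 : LocC p K.subtype.range ((Q.subgroupOf K).map K.subtype)
      ((Z.subgroupOf K).map K.subtype) ((H.subgroupOf K).map K.subtype) := by
    rw [e hL.QK, e hZK, e hHK, Subgroup.range_subtype]
    exact hL
  have hι : Function.Injective K.subtype := K.subtype_injective
  have h2 := (locC_map hι).1 h1
  have h3 := pkg_map hι h2 (pkg_top hp2 h2)
  rw [e hL.QK, e hZK, e hHK, Subgroup.range_subtype] at h3
  exact h3

end Pool.Agent.Helper42.CY
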