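import Pool.Agent.Helper42.CY.ECaseII
import Pool.Agent.Helper42.CY.PkgSub
import Pool.Agent.Helper42.IR.E.Sc

/-!
# CY-34 (project CY, section 5.1): Lemma E

Adapt Helper42/IR/E/Final.lean. `H2` from `exists_H2`; `Pkg` for `K`, `NN K Z` (`LocC.nn`), `K ⊔ H2` from
`pkg_of_loc`. `Typ` gives the case: `caseI` or `caseII`. In the second case `ip (Q ⊔ H) ψ φ ≠ 0`; by
`local_types` `NE Q H ψ φ (-1)` (the other alternative has `ip (Q ⊔ H) ψ φ = 0`), and for a nontrivial `lam`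
(`exists_ne_oneS`) `aa Q H ψ lam φ = 0 - ip (Q ⊔ H) ψ φ` by `ip_zero_of`, so `ip (Q ⊔ H) ψ φ = 1`. So there are `f`
and `ρ`. An irreducible character is a character: `f ∈ CharS A`, `A = N_G(Z)`. Let `c` centralize `K`; `c ∈ H2`
(`hcK`), `H2 ≤ C(Z) ≤ A` (`HC` of `hL2`). `sc_irr` for `χh` on `⊤` (as a function in `IrrS ⊤`) and `N = K`:
`Sc ⊤ χh c z`; `sc_const`: `Sc H2 ρ c z`. `sc_irr` for `f` on `A` and `N = NN K Z` (centralized by `c` as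
`NN K Z ≤ K`): `Sc A f c z'`; `sc_const`: `Sc H2 ρ c z'`. As `ρ 1 ≠ 0`, `z = z'` (`sc_one`). So `f (a c) = z f a` and
`χh c = z χh 1 = z χ 1`.
-/

namespace Pool.Agent.Helper42.CY

open Pool.Agent.Helper42.INC Pool.Agent.Helper42.IR Pool.Agent.Helper97.S4

theorem lemmaE {G : Type} [Group G] [Finite G] {p : ℕ} [Fact p.Prime] (hp2 : p ≠ 2)
    (K Q Z H : Subgroup G) [K.Normal] (hL : LocC p K Q Z H) (hidx : ¬ p ∣ K.index)
    (hz : ¬ p ∣ Nat.card (Subgroup.center K)) {χh χ ψ φ : G → ℂ} (hχh : χh ∈ Irr G)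
    (hχ : χ ∈ IrrSP p K) (hres : ∀ k ∈ K, χh k = χ k) (hφ : φ ∈ Ca p Q H) (hB : Bl Q H χ φ)
    (hψ : ψ ∈ IrrSP p (NN K Z)) (hBψ : Bl Q H ψ φ)
    (hinv : ∀ a ∈ Subgroup.normalizer (Z : Set G), cnj a ψ = ψ) (htyp : Typ K Q H χ ψ φ) :
    ∃ ψh ∈ CharS (Subgroup.normalizer (Z : Set G)), (∀ n ∈ NN K Z, ψh n = ψ n) ∧
      ∀ c ∈ Subgroup.centralizer (K : Set G), ∀ a ∈ Subgroup.normalizer (Z : Set G),
        χ 1 * ψh (a * c) = ψh a * χh c := by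
  obtain ⟨H2, h2⟩ := exists_H2 hL hidx hz hφ.1.1
  have hPK : Pkg p K Q Z H := pkg_of_loc hL hp2
  have hPN : Pkg p (NN K Z) Q Z H := pkg_of_loc hL.nn hp2
  have hP2 : Pkg p (K ⊔ H2) Q Z H2 := pkg_of_loc h2.hL2 hp2
  obtain ⟨f, hf, hfres, ρ, hρ, hipf, hipχ⟩ :
      ∃ f ∈ IrrS (Subgroup.normalizer (Z : Set G)), (∀ n ∈ NN K Z, f n = ψ n) ∧
        ∃ ρ ∈ IrrS H2, ip H2 f ρ ≠ 0 ∧ ip H2 χh ρ ≠ 0 := by
    rcases htyp with ⟨l0, hl, hl1, hex, ha⟩ | ⟨hq, ha⟩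
    · exact caseI hL hφ h2 hPK hP2 hχh hχ hres hψ hinv hl hl1 hex ha
    · have h1 : ip (Q ⊔ H) ψ φ = 1 := by
        rcases local_types hL hPN hψ hφ hBψ with ⟨_, hNE⟩ | ⟨h0, _⟩
        · obtain ⟨lam, hl, hl1⟩ := exists_ne_oneS hL
          have e1 : ip (Q ⊔ H) ψ (prodC Q H lam φ) - ip (Q ⊔ H) ψ φ = -1 := hNE lam hl hl1
          rw [ip_zero_of hL hψ.1 hl hl1 hφ hφ hq, zero_sub] at e1
          exact neg_injective e1
        · exact absurd h0 hq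
      exact caseII hL hφ h2 hPK hP2 hχh hχ hres hψ h1 hinv ha
  have hcN : Subgroup.centralizer (Z : Set G) ≤ Subgroup.normalizer (Z : Set G) :=
    Subgroup.centralizer_le_normalizer _
  have hH2Z : H2 ≤ Subgroup.normalizer (Z : Set G) :=
    (h2.hL2.HC.trans inf_le_right).trans hcN
  refine ⟨f, ?_, hfres, ?_⟩
  · refine ⟨?_, hf.2⟩
    obtain ⟨V, i1, i2, i3, τ, _, hτ⟩ := hf.1
    exact ⟨V, i1, i2, i3, τ, hτ⟩
  · intro c hc a ha
    have hcH2 : c ∈ H2 := h2.hcK hc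
    have hχT : χh ∈ IrrS (⊤ : Subgroup G) := by
      refine ⟨?_, fun x hx => absurd (Subgroup.mem_top x) hx⟩
      exact irr_comp Subgroup.topEquiv hχh
    obtain ⟨z, hz0, hz1⟩ := E.sc_irr (A := (⊤ : Subgroup G)) (N := K) le_top hχT hχ.1 hres
      (Subgroup.mem_top c) hc
    have hz2 := E.sc_const (A := (⊤ : Subgroup G)) (S := H2) le_top hχT hρ hipχ hcH2 hz1
    have hcNN : c ∈ Subgroup.centralizer ((NN K Z : Subgroup G) : Set G) :=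
      Subgroup.centralizer_le (fun x hx => hx.1) hc
    obtain ⟨z', hz0', hz1'⟩ := E.sc_irr (A := Subgroup.normalizer (Z : Set G)) (N := NN K Z)
      inf_le_right hf hψ.1 hfres (hH2Z hcH2) hcNN
    have hz2' := E.sc_const hH2Z hf hρ hipf hcH2 hz1'
    have hρ1 : ρ 1 ≠ 0 := irrS_one_ne hρ
    have hzz : z = z' := by
      have e1 := E.sc_one hz2
      have e2 := E.sc_one hz2'
      exact mul_right_cancel₀ hρ1 (e1.symm.trans e2)
    have e3 := E.sc_one hz1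
    have e4 := hz1' a ha
    rw [e4, e3, hres 1 K.one_mem, ← hzz]
    ring

end Pool.Agent.Helper42.CY
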