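import Pool.Agent.Helper42.CY.LocE
import Pool.Agent.Helper97.S4.LocB

/-!
# CY-29 (project CY, section 5.1): the subgroup `H2`

Adapt Helper42/IR/E/Grp.lean. `K` is normal in `G` of index prime to `p`, `LocC p K Q Z H`,
`p ∤ |Z(K)|`, `φ ∈ IrrS (Q ⊔ H)`.

`Q` is a Sylow `p`-subgroup of `G`, so by `exists_locC` (for `K = ⊤`) there is `Hh` with
`LocC p ⊤ Q Z Hh`: `C_G(Z) = Q Hh`, `Hh` is the set of elements of `C_G(Z)` of order prime to `p`
(`LocC.mem_H_iff`). Put `H2 = Hh ⊓ stab φ`.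
* `H ≤ Hh`: elements of `H` centralize `Z` and have order prime to `p`. `H ≤ stab φ`: `φ` is a class function
  on `Q ⊔ H` and vanishes off it (`cnj_eq_self`). `Q ≤ stab φ` for the same reason.
* `hKH`: `K ⊓ (Q ⊔ H2) ≤ K ⊓ centralizer Z = Q ⊔ H`.
* `hcK`: `c` centralizing `K` centralizes `Z` and `Q ⊔ H`, so it fixes `φ`; its order is prime to `p`: otherwise
  a power `c'` of `c` has order `p`, `c' ∈ C_G(Z)`, so `c' ∈ Z ≤ K` by `LocC.mem_Z` for `⊤`, and `c'` is an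
  element of order `p` of the center of `K`.
* `hcent`: `s = x h ∈ C_G(Z) = Q Hh` with `x ∈ Q` fixes `φ` iff `h` does.
* `hL2 : LocC p (K ⊔ H2) Q Z H2`: an element of `(K ⊔ H2) ⊓ C(Z)` is `k h` (`K` is normal,
  `Subgroup.mem_sup_of_normal_left` or similar) with `h ∈ H2 ≤ C(Z)`, so `k ∈ K ⊓ C(Z) = Q ⊔ H`; so it is in
  `Q ⊔ H2`. `Q.relIndex (K ⊔ H2)` divides `Q.index = Q.relIndex K * K.index`. `H2` is normalized by
  `Q ⊔ H2 = C(Z) ⊓ stab φ`, as `Hh` is normal in `C(Z)` (`nH` for `⊤`).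
* `hnorm`: `s` normalizes `C(Z)` (it normalizes `Z`) and `stab φ` (`s ∈ stab φ`), so `C(Z) ⊓ stab φ = Q ⊔ H2`.
* `hcomm`: `t ∈ NN K Z`, `h ∈ Q ⊔ H2 ≤ C(Z)`: `t h t⁻¹ h⁻¹` is in `K` (normal) and in `C(Z)` (`t` normalizes
  `C(Z)`), so in `K ⊓ C(Z) = Q ⊔ H`.
* `hNN`: an element `k h` of `NN (K ⊔ H2) Z` has `k ∈ NN K Z`, as `h ∈ H2` centralizes `Z`.
-/

namespace Pool.Agent.Helper42.CY

open Pool.Agent.Helper42.INC Pool.Agent.Helper42.IR Pool.Agent.Helper97.S4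

/-- the properties of `H2` -/
structure Hyp2 {G : Type} [Group G] (p : ℕ) (K Q Z H H2 : Subgroup G) (φ : G → ℂ) : Prop where
  hH : H ≤ H2
  hst : Q ⊔ H2 ≤ stab φ
  hKH : K ⊓ (Q ⊔ H2) = Q ⊔ H
  hcK : Subgroup.centralizer (K : Set G) ≤ H2
  hL2 : LocC p (K ⊔ H2) Q Z H2
  hnorm : ∀ s ∈ Subgroup.normalizer (Z : Set G) ⊓ stab φ,
    s ∈ Subgroup.normalizer ((Q ⊔ H2 : Subgroup G) : Set G)
  hcent : Subgroup.centralizer (Z : Set G) ⊓ stab φ = Q ⊔ H2
  hcomm : ∀ t ∈ NN K Z, ∀ h ∈ Q ⊔ H2, t * h * t⁻¹ * h⁻¹ ∈ Q ⊔ H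
  hNN : ∀ g ∈ NN (K ⊔ H2) Z, ∃ n ∈ NN K Z, ∃ h ∈ H2, g = n * h

section aux

variable {G : Type} [Group G] [Finite G] {p : ℕ} [Fact p.Prime] {K Q Z H : Subgroup G}

omit [Finite G] in
/-- an element centralizing `H` fixes the functions vanishing off `H` -/
private lemma grp_cent_stab {φ : G → ℂ} (hφ : ∀ x, x ∉ H → φ x = 0) {c : G}
    (hc : ∀ h ∈ H, h * c = c * h) : c ∈ stab φ := by
  rw [mem_stab]
  funext x
  rw [cnj_apply]
  by_cases hx : x ∈ H
  · have e : c⁻¹ * x * c = x := by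
      rw [mul_assoc, hc x hx]
      group
    rw [e]
  · rw [hφ x hx]
    apply hφ
    intro h
    apply hx
    have e := hc _ h
    have e2 : x = c⁻¹ * x * c := by
      have h1 : c⁻¹ * x * c * c = x * c := by
        rw [e]; group
      exact (mul_right_cancel h1).symm
    rw [e2]
    exact h

/-- elements centralizing `K` lie in the complement of `Q` in the centralizer of `Z` -/
private lemma grp_cent {Hh : Subgroup G} (hL : LocC p K Q Z H) (hT : LocC p ⊤ Q Z Hh)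
    (hz : ¬ p ∣ Nat.card (Subgroup.center K)) {c : G}
    (hc : c ∈ Subgroup.centralizer (K : Set G)) : c ∈ Hh := by
  have hp : p.Prime := Fact.out
  have hZK : Z ≤ K := hL.ZQ.trans hL.QK
  have hcK : ∀ k ∈ K, k * c = c * k := fun k hk => Subgroup.mem_centralizer_iff.mp hc k hk
  have hcQ : c ∈ Q ⊔ Hh := by
    rw [hT.sup]
    refine ⟨Subgroup.mem_top c, ?_⟩
    exact Subgroup.mem_centralizer_iff.mpr fun x hx => hcK x (hZK hx)
  refine hT.mem_H_iff.2 ⟨hcQ, fun hd => ?_⟩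
  obtain ⟨m, hm⟩ := hd
  have h0 : 0 < orderOf c := orderOf_pos c
  have hm0 : 0 < m := by
    rcases Nat.eq_zero_or_pos m with h | h
    · rw [h, mul_zero] at hm
      omega
    · exact h
  have h1 : (c ^ m) ^ p = 1 := by rw [← pow_mul, mul_comm, ← hm, pow_orderOf_eq_one]
  have h2 : c ^ m ≠ 1 := by
    apply pow_ne_one_of_lt_orderOf hm0.ne'
    rw [hm]
    have h2 := hp.two_le
    nlinarith
  have h3 : c ^ m ∈ Z := hT.mem_Z (Subgroup.pow_mem _ hcQ m) h1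
  have h4 : c ^ m ∈ K := hZK h3
  have h5 : (⟨c ^ m, h4⟩ : K) ∈ Subgroup.center K := by
    rw [Subgroup.mem_center_iff]
    intro k
    apply Subtype.ext
    change (k : G) * c ^ m = c ^ m * (k : G)
    have hk : Commute (k : G) c := hcK k k.2
    exact hk.pow_right _
  have h6 : orderOf (c ^ m) = p := by
    rcases (Nat.dvd_prime hp).mp (orderOf_dvd_of_pow_eq_one h1) with h' | h'
    · exact absurd (orderOf_eq_one_iff.mp h') h2
    · exact h'
  apply hz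
  have h7 : orderOf (⟨⟨c ^ m, h4⟩, h5⟩ : Subgroup.center K) = p := by
    rw [← h6, ← Subgroup.orderOf_coe, ← Subgroup.orderOf_coe]
  have h8 : orderOf (⟨⟨c ^ m, h4⟩, h5⟩ : Subgroup.center K) ∣ Nat.card (Subgroup.center K) :=
    orderOf_dvd_natCard _
  rw [h7] at h8
  exact h8

end aux

theorem exists_H2 {G : Type} [Group G] [Finite G] {p : ℕ} [Fact p.Prime] {K Q Z H : Subgroup G}
    [K.Normal] (hL : LocC p K Q Z H) (hidx : ¬ p ∣ K.index)
    (hz : ¬ p ∣ Nat.card (Subgroup.center K)) {φ : G → ℂ} (hφ : φ ∈ IrrS (Q ⊔ H)) :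
    ∃ H2 : Subgroup G, Hyp2 p K Q Z H H2 φ := by
  have hp : p.Prime := Fact.out
  have hidxQ : ¬ p ∣ Q.index := by
    rw [← Subgroup.relIndex_mul_index hL.QK]
    intro h
    rcases hp.dvd_mul.1 h with h1 | h1
    · exact hL.syl h1
    · exact hidx h1
  obtain ⟨Hh, hT⟩ : ∃ Hh, LocC p (⊤ : Subgroup G) Q Z Hh := by
    refine exists_locC le_top hL.cyc hL.cQ ?_ hL.ZQ hL.cZ
    rw [Subgroup.relIndex_top_right]
    exact hidxQ
  have hZK : Z ≤ K := hL.ZQ.trans hL.QK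
  have hHHh : H ≤ Hh := by
    intro h hh
    have h1 := hL.mem_H_iff.mp hh
    refine hT.mem_H_iff.mpr ⟨?_, h1.2⟩
    rw [hT.sup]
    have h2 := h1.1
    rw [hL.sup] at h2
    exact ⟨Subgroup.mem_top h, h2.2⟩
  have hHhC : Hh ≤ Subgroup.centralizer (Z : Set G) := fun h hh => (hT.HC hh).2
  have hQC : Q ≤ Subgroup.centralizer (Z : Set G) := fun x hx => (hL.QC hx).2
  have hCK : Q ⊔ H ≤ K := by
    rw [hL.sup]
    exact inf_le_left
  have hCC : Q ⊔ H ≤ Subgroup.centralizer (Z : Set G) := by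
    rw [hL.sup]
    exact inf_le_right
  have hCst : Q ⊔ H ≤ stab φ := fun h hh => Pool.Agent.Helper97.S4.cnj_eq_self hh hφ
  have hHst : H ≤ stab φ := le_sup_right.trans hCst
  have hQst : Q ≤ stab φ := le_sup_left.trans hCst
  have hHH2 : H ≤ Hh ⊓ stab φ := le_inf hHHh hHst
  have hle : Hh ⊓ stab φ ≤ Hh := inf_le_left
  have hle2 : Q ⊔ H ≤ Q ⊔ (Hh ⊓ stab φ) := sup_le_sup_left hHH2 Q
  have hQH2C : Q ⊔ (Hh ⊓ stab φ) ≤ Subgroup.centralizer (Z : Set G) :=
    sup_le hQC (hle.trans hHhC)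
  have hcent : Subgroup.centralizer (Z : Set G) ⊓ stab φ = Q ⊔ (Hh ⊓ stab φ) := by
    apply le_antisymm
    · rintro s ⟨hs1, hs2⟩
      have h1 : s ∈ Q ⊔ Hh := by
        rw [hT.sup]
        exact ⟨Subgroup.mem_top s, hs1⟩
      obtain ⟨x, hx, h, hh, e⟩ := hT.mem_sup.mp h1
      have h2 : h ∈ stab φ := by
        have e2 : h = x⁻¹ * s := by rw [e]; group
        rw [e2]
        exact (stab φ).mul_mem ((stab φ).inv_mem (hQst hx)) hs2
      rw [e]
      exact Subgroup.mul_mem _ (Subgroup.mem_sup_left hx) (Subgroup.mem_sup_right ⟨hh, h2⟩)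
    · exact sup_le (le_inf hQC hQst) (inf_le_inf hHhC le_rfl)
  -- elements of the normalizer of `Z` normalize its centralizer
  have hnC : ∀ s ∈ Subgroup.normalizer (Z : Set G), ∀ h,
      h ∈ Subgroup.centralizer (Z : Set G) ↔ s * h * s⁻¹ ∈ Subgroup.centralizer (Z : Set G) := by
    have hone : ∀ s ∈ Subgroup.normalizer (Z : Set G), ∀ h,
        h ∈ Subgroup.centralizer (Z : Set G) →
          s * h * s⁻¹ ∈ Subgroup.centralizer (Z : Set G) := by
      intro s hs h hh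
      rw [Subgroup.mem_centralizer_iff] at hh ⊢
      intro x hx
      have hx' : s⁻¹ * x * s ∈ (Z : Set G) := (Subgroup.mem_normalizer_iff''.mp hs x).mp hx
      have e := hh _ hx'
      calc x * (s * h * s⁻¹) = s * ((s⁻¹ * x * s) * h) * s⁻¹ := by group
        _ = s * (h * (s⁻¹ * x * s)) * s⁻¹ := by rw [e]
        _ = s * h * s⁻¹ * x := by group
    intro s hs h
    refine ⟨hone s hs h, fun h1 => ?_⟩
    have h2 := hone s⁻¹ (Subgroup.inv_mem _ hs) _ h1
    have e : s⁻¹ * (s * h * s⁻¹) * s⁻¹⁻¹ = h := by group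
    rw [e] at h2
    exact h2
  refine ⟨Hh ⊓ stab φ, hHH2, sup_le hQst inf_le_right, ?_, ?_, ?_, ?_, hcent, ?_, ?_⟩
  · apply le_antisymm
    · rintro h ⟨h1, h2⟩
      rw [hL.sup]
      exact ⟨h1, hQH2C h2⟩
    · exact le_inf hCK hle2
  · intro c hc
    refine ⟨grp_cent hL hT hz hc, grp_cent_stab hφ.2 fun h hh => ?_⟩
    exact Subgroup.mem_centralizer_iff.mp hc h (hCK hh)
  · have hsup : Q ⊔ (Hh ⊓ stab φ) =
        (K ⊔ (Hh ⊓ stab φ)) ⊓ Subgroup.centralizer (Z : Set G) := by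
      apply le_antisymm
      · exact le_inf (sup_le_sup_right hL.QK _) hQH2C
      · rintro g ⟨hg1, hg2⟩
        obtain ⟨k, hk, h, hh, rfl⟩ := Subgroup.mem_sup_of_normal_left.mp hg1
        have hkC : k ∈ Subgroup.centralizer (Z : Set G) := by
          have e : k = k * h * h⁻¹ := by group
          rw [e]
          exact Subgroup.mul_mem _ hg2 (Subgroup.inv_mem _ (hHhC hh.1))
        have hkQ : k ∈ Q ⊔ H := by
          rw [hL.sup]
          exact ⟨hk, hkC⟩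
        exact Subgroup.mul_mem _ (hle2 hkQ) (Subgroup.mem_sup_right hh)
    refine ⟨hL.QK.trans le_sup_left, hL.cyc, hL.cQ, ?_, hL.ZQ, hL.cZ, ?_, ?_, ?_, hsup⟩
    · intro h
      apply hidxQ
      rw [← Subgroup.relIndex_mul_index (hL.QK.trans (le_sup_left (a := K) (b := Hh ⊓ stab φ)))]
      exact Dvd.dvd.mul_right h _
    · rw [← hsup]
      exact le_sup_right
    · rw [← hsup, ← hcent]
      rintro s ⟨hs1, hs2⟩
      have hs3 : s ∈ Subgroup.normalizer (Hh : Set G) := hT.nH ⟨Subgroup.mem_top s, hs1⟩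
      rw [Subgroup.mem_normalizer_iff] at hs3 ⊢
      intro h
      constructor
      · rintro ⟨h1, h2⟩
        refine ⟨(hs3 h).mp h1, ?_⟩
        exact (stab φ).mul_mem ((stab φ).mul_mem hs2 h2) ((stab φ).inv_mem hs2)
      · rintro ⟨h1, h2⟩
        refine ⟨(hs3 h).mpr h1, ?_⟩
        have e : h = s⁻¹ * (s * h * s⁻¹) * s := by group
        change h ∈ stab φ
        rw [e]
        exact (stab φ).mul_mem ((stab φ).mul_mem ((stab φ).inv_mem hs2) h2) hs2
    · intro h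
      exact hT.pH (h.trans (Subgroup.card_dvd_of_le hle))
  · rintro s ⟨hs1, hs2⟩
    rw [← hcent, Subgroup.mem_normalizer_iff]
    intro h
    constructor
    · rintro ⟨h1, h2⟩
      refine ⟨(hnC s hs1 h).1 h1, ?_⟩
      exact (stab φ).mul_mem ((stab φ).mul_mem hs2 h2) ((stab φ).inv_mem hs2)
    · rintro ⟨h1, h2⟩
      refine ⟨(hnC s hs1 h).2 h1, ?_⟩
      have e : h = s⁻¹ * (s * h * s⁻¹) * s := by group
      change h ∈ stab φ
      rw [e]
      exact (stab φ).mul_mem ((stab φ).mul_mem ((stab φ).inv_mem hs2) h2) hs2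
  · rintro t ⟨ht1, ht2⟩ h hh
    rw [hL.sup]
    refine ⟨?_, ?_⟩
    · have e : t * h * t⁻¹ * h⁻¹ = t * (h * t⁻¹ * h⁻¹) := by group
      rw [e]
      exact K.mul_mem ht1 (Subgroup.Normal.conj_mem inferInstance _ (K.inv_mem ht1) _)
    · have h1 := hQH2C hh
      exact Subgroup.mul_mem _ ((hnC t ht2 h).1 h1) (Subgroup.inv_mem _ h1)
  · rintro g ⟨hg1, hg2⟩
    obtain ⟨k, hk, h, hh, rfl⟩ := Subgroup.mem_sup_of_normal_left.mp hg1
    refine ⟨k, ⟨hk, ?_⟩, h, hh, rfl⟩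
    have e : k = k * h * h⁻¹ := by group
    have hCN := Subgroup.centralizer_le_normalizer (Z : Set G)
    have h3 : k * h * h⁻¹ ∈ Subgroup.normalizer (Z : Set G) :=
      Subgroup.mul_mem _ hg2 (Subgroup.inv_mem _ (hCN (hHhC hh.1)))
    rw [← e] at h3
    exact h3

end Pool.Agent.Helper42.CY
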