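import Pool.Agent.Helper42.CY.EGrp
import Pool.Agent.Helper42.CY.Loc1
import Pool.Agent.Helper42.CY.AAx
import Pool.Agent.Helper42.IR.E.Uni

/-!
# CY-31 (project CY, section 5.1): the extensions of `φ` below `χ`

Adapt Helper42/IR/E/Uni.lean. `K` normal, `LocC p K Q Z H`, `Hyp2 p K Q Z H H2 φ`, `K2 = K ⊔ H2`,
`C = Q ⊔ H`, `C2 = Q ⊔ H2`. `χh ∈ Irr G` restricts to `χ ∈ IrrSP p K`; `χ2 = rst K2 χh ∈ IrrSP p K2`
(`rst_mem`: `rst` is the same function as `IR.E.rest`, use `IR.E.rest_mem`).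

`uni`: let `ε = ±1` be the sign of `χ2` (`nice_K` for `K2`: `Nice.sgn`). As `χ2 = χ` on `K ⊇ C` (`aa_congr`),
`aa Q H χ lam φ = ∑_ρ aa Q H2 χ2 lam ρ * ip C ρ φ` (`aa_expand_C` with `J = K2`, `K2 ≤ normalizer K` as `K` is
normal), which is `ε` times the sum of the natural numbers `ip C ρ φ` (`ip_res_nat`) over the `ρ ∈ Ca p Q H2`
with `aa Q H2 χ2 lam ρ ≠ 0`; and `aa Q H χ lam φ = ±1` (`nice_K` for `K`). So exactly one `ρ` contributes and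
`ip C ρ φ = 1`. `C2` fixes `φ` (`hst`) and normalizes `C` (`hcomm` or `hKH` and `K` normal), so
`ρ = 1 * φ` on `C` by `cliff_inv`.

`uni_conj`: `s ∈ N(Z) ⊓ stab φ` normalizes `C2` (`hnorm`), so it normalizes `H2` (the set of the elements of
order prime to `p` of `C2`, `mem_H_iff` for `hL2`) and `K2 = K ⊔ H2`. By `frattini` for `hL2`, `s = c b` with
`c ∈ C2` and `b` normalizing `K2` and `Q`. `cnj s ρ = cnj c (cnj b ρ) = cnj b ρ` (`cnj_eq_self`,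
`cnj b ρ ∈ IrrS C2`), `b = c⁻¹ s` fixes `φ`, and `cnj b χ2 = χ2` as `χh` is a class function on `G`.
`aa_cnj` for `K2`, `ca_cnj`, `ip_cnj`, `cnj b φ = φ`; take `lam' = cnj b lam` (`cnj_mem_irrS`, `cnj_oneS`).

`uni_orb`: `Pkg.unb` for `K2` (both are in the blocks of `χ2`) gives `g ∈ NN K2 Q ≤ NN K2 Z` (`NNQ_le`) with
`cnj g ρ = ρ'`, `g = t h` (`hNN`), `h ∈ H2` fixes `ρ`; so `cnj t ρ = ρ'`, and restricting to `C` (normalized by
`t`): `cnj t φ = φ`.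
-/

namespace Pool.Agent.Helper42.CY

open Pool.Agent.Helper42.INC Pool.Agent.Helper42.IR Pool.Agent.Helper97.S4

variable {G : Type} [Group G] [Finite G] {p : ℕ} [Fact p.Prime] {K Q Z H H2 : Subgroup G}
  [K.Normal]

omit [Finite G] [K.Normal] in
private lemma eu_rst_of_mem {L : Subgroup G} (f : G → ℂ) {x : G} (hx : x ∈ L) :
    rst L f x = f x := if_pos hx

omit [Finite G] [K.Normal] in
private lemma eu_rst_of_not_mem {L : Subgroup G} (f : G → ℂ) {x : G} (hx : x ∉ L) :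
    rst L f x = 0 := if_neg hx

private lemma eu_sum_one {ι : Type*} [Fintype ι] (n : ι → ℕ) (h : ∑ i, n i = 1) :
    ∃ i, n i = 1 ∧ ∀ j, n j ≠ 0 → j = i := by
  classical
  have h1 : ∃ i, n i ≠ 0 := by
    by_contra hcon
    push Not at hcon
    rw [Finset.sum_eq_zero (fun i _ => hcon i)] at h
    exact zero_ne_one h
  obtain ⟨i, hi⟩ := h1
  have h2 := Finset.add_sum_erase Finset.univ n (Finset.mem_univ i)
  refine ⟨i, ?_, ?_⟩
  · omega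
  · intro j hj
    by_contra hne
    have h3 : n j ≤ ∑ x ∈ Finset.univ.erase i, n x :=
      Finset.single_le_sum (f := n) (fun _ _ => Nat.zero_le _)
        (Finset.mem_erase.2 ⟨hne, Finset.mem_univ j⟩)
    omega

omit [Finite G] in
private lemma eu_norm_K (x : G) : x ∈ Subgroup.normalizer (K : Set G) := by
  rw [Subgroup.normalizer_eq_top]
  exact Subgroup.mem_top x

theorem rst_mem {L : Subgroup G} (hKL : K ≤ L) {χh χ : G → ℂ} (hχh : χh ∈ Irr G)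
    (hχ : χ ∈ IrrSP p K) (hres : ∀ k ∈ K, χh k = χ k) : rst L χh ∈ IrrSP p L := IR.E.rest_mem hKL hχh hχ hres

theorem uni (hL : LocC p K Q Z H) {φ : G → ℂ} (hφ : φ ∈ Ca p Q H) (h2 : Hyp2 p K Q Z H H2 φ)
    (hP : Pkg p K Q Z H) (hP2 : Pkg p (K ⊔ H2) Q Z H2) {χh χ : G → ℂ} (hχh : χh ∈ Irr G)
    (hχ : χ ∈ IrrSP p K) (hres : ∀ k ∈ K, χh k = χ k) {lam : G → ℂ} (hl : lam ∈ IrrS Q)
    (ha : aa Q H χ lam φ ≠ 0) :
    ∃ ρ ∈ Ca p Q H2, aa Q H2 (rst (K ⊔ H2) χh) lam ρ ≠ 0 ∧ (∀ x ∈ Q ⊔ H, ρ x = φ x) ∧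
      ∀ ρ' ∈ Ca p Q H2, aa Q H2 (rst (K ⊔ H2) χh) lam ρ' ≠ 0 → ip (Q ⊔ H) ρ' φ ≠ 0 →
        ρ' = ρ := by
  classical
  have := (ca_finite p Q H2).fintype
  set χ2 : G → ℂ := rst (K ⊔ H2) χh with hχ2d
  have hKn : K ⊔ H2 ≤ Subgroup.normalizer (K : Set G) := fun x _ => eu_norm_K x
  have hχ2 : χ2 ∈ IrrSP p (K ⊔ H2) := rst_mem le_sup_left hχh hχ hres
  obtain ⟨ε, hε, hs⟩ := (nice_K h2.hL2 hP2 hχ2).sgn
  obtain ⟨ε1, hε1, hs1⟩ := (nice_K hL hP hχ).sgn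
  have hval : aa Q H χ lam φ = ε1 := by
    rcases hs1 φ hφ lam hl with h | h
    · exact absurd h ha
    · exact h
  have hCK : Q ⊔ H ≤ K := sup_le hL.QK hL.HK
  have hCC : Q ⊔ H ≤ Q ⊔ H2 := sup_le_sup_left h2.hH Q
  have hc : aa Q H χ lam φ = aa Q H χ2 lam φ := by
    apply aa_congr
    intro x hx
    rw [hχ2d, eu_rst_of_mem _ ((le_sup_left : K ≤ K ⊔ H2) (hCK hx)), hres _ (hCK hx)]
  have hexp := aa_expand_C hL h2.hL2 le_sup_left hKn hχ2.1 hl hφ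
  rw [finsum_eq_sum_of_fintype] at hexp
  have hn0 : ∀ ρ : Ca p Q H2, ∃ n : ℕ, ip (Q ⊔ H) ρ.1 φ = n := fun ρ =>
    ip_res_nat hCC ρ.2.1.1 hφ.1.1
  choose n hn using hn0
  let m : Ca p Q H2 → ℕ := fun ρ => if aa Q H2 χ2 lam ρ.1 ≠ 0 then n ρ else 0
  have hterm : ∀ ρ : Ca p Q H2, aa Q H2 χ2 lam ρ.1 * ip (Q ⊔ H) ρ.1 φ = ε * (m ρ : ℂ) := by
    intro ρ
    by_cases h : aa Q H2 χ2 lam ρ.1 = 0
    · have h3 : m ρ = 0 := if_neg (by simpa using h)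
      rw [h, h3, zero_mul, Nat.cast_zero, mul_zero]
    · have h3 : m ρ = n ρ := if_pos h
      rcases hs ρ.1 ρ.2 lam hl with h4 | h4
      · exact absurd h4 h
      · rw [h4, h3, hn]
  rw [Finset.sum_congr rfl (fun ρ _ => hterm ρ), ← Finset.mul_sum, ← Nat.cast_sum, ← hc, hval]
    at hexp
  have hm : ∑ ρ, m ρ = 1 := by
    revert hexp
    generalize ∑ ρ, m ρ = S
    intro hexp
    rcases hε with h | h <;> rcases hε1 with h' | h' <;> rw [h, h'] at hexp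
    · rw [one_mul] at hexp
      exact_mod_cast hexp.symm
    · exfalso
      have h3 : ((S + 1 : ℕ) : ℂ) = 0 := by
        push_cast
        linear_combination -hexp
      have h4 : S + 1 = 0 := by exact_mod_cast h3
      omega
    · exfalso
      have h3 : ((S + 1 : ℕ) : ℂ) = 0 := by
        push_cast
        linear_combination hexp
      have h4 : S + 1 = 0 := by exact_mod_cast h3
      omega
    · have h3 : (S : ℂ) = 1 := by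
        linear_combination hexp
      exact_mod_cast h3
  obtain ⟨ρ, hρ1, hρu⟩ := eu_sum_one m hm
  have hρa : aa Q H2 χ2 lam ρ.1 ≠ 0 := by
    intro h
    have h3 : m ρ = 0 := if_neg (by simpa using h)
    rw [h3] at hρ1
    exact zero_ne_one hρ1
  have hρn : n ρ = 1 := by
    have h3 : m ρ = n ρ := if_pos hρa
    rw [← h3]
    exact hρ1
  refine ⟨ρ.1, ρ.2, hρa, ?_, ?_⟩
  · intro x hx
    have h3 := IR.E.cliff_inv hCC (C_norm hL h2.hL2 le_sup_left hKn) ρ.2.1.1 hφ.1.1 h2.hst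
      (by rw [hn, hρn, Nat.cast_one]; exact one_ne_zero) hx
    rw [h3, hn, hρn, Nat.cast_one, one_mul]
  · intro ρ' hρ' ha' hip
    have h3 : m ⟨ρ', hρ'⟩ = n ⟨ρ', hρ'⟩ := if_pos ha'
    have h4 : m ⟨ρ', hρ'⟩ ≠ 0 := by
      rw [h3]
      intro h5
      apply hip
      have h6 := hn ⟨ρ', hρ'⟩
      rw [h5, Nat.cast_zero] at h6
      exact h6
    exact congrArg Subtype.val (hρu _ h4)

theorem uni_conj (hL : LocC p K Q Z H) {φ : G → ℂ} (hφ : φ ∈ Ca p Q H)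
    (h2 : Hyp2 p K Q Z H H2 φ) {χh : G → ℂ} (hχh : χh ∈ Irr G) {lam ρ : G → ℂ}
    (hl : lam ∈ IrrS Q) (hρ : ρ ∈ Ca p Q H2) (ha : aa Q H2 (rst (K ⊔ H2) χh) lam ρ ≠ 0)
    (hip : ip (Q ⊔ H) ρ φ ≠ 0) {s : G} (hs : s ∈ Subgroup.normalizer (Z : Set G) ⊓ stab φ) :
    ∃ lam' ∈ IrrS Q, (lam ≠ oneS Q → lam' ≠ oneS Q) ∧
      aa Q H2 (rst (K ⊔ H2) χh) lam' (cnj s ρ) ≠ 0 ∧ ip (Q ⊔ H) (cnj s ρ) φ ≠ 0 ∧
      cnj s ρ ∈ Ca p Q H2 := by
  have hsZ : s ∈ Subgroup.normalizer (Z : Set G) := hs.1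
  have hsφ : s ∈ stab φ := hs.2
  have hsφ' : cnj s φ = φ := hs.2
  have hs2 : s ∈ Subgroup.normalizer ((Q ⊔ H2 : Subgroup G) : Set G) := h2.hnorm s hs
  have hsH2 : s ∈ Subgroup.normalizer (H2 : Set G) := by
    rw [Subgroup.mem_normalizer_iff]
    intro x
    rw [h2.hL2.mem_H_iff, h2.hL2.mem_H_iff]
    have e1 := Subgroup.mem_normalizer_iff.1 hs2 x
    have e2 : orderOf (s * x * s⁻¹) = orderOf x := by
      have := orderOf_injective (MulAut.conj s).toMonoidHom (MulAut.conj s).injective x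
      exact this
    rw [e2]
    exact and_congr_left fun _ => e1
  have hsK2 : s ∈ Subgroup.normalizer ((K ⊔ H2 : Subgroup G) : Set G) := by
    have hle : ∀ t : G, t ∈ Subgroup.normalizer (H2 : Set G) → ∀ x ∈ K ⊔ H2,
        t * x * t⁻¹ ∈ K ⊔ H2 := by
      intro t ht x hx
      obtain ⟨k, hk, h, hh, rfl⟩ := Subgroup.mem_sup_of_normal_left.1 hx
      have e : t * (k * h) * t⁻¹ = (t * k * t⁻¹) * (t * h * t⁻¹) := by group
      rw [e]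
      exact (K ⊔ H2).mul_mem
        ((le_sup_left : K ≤ K ⊔ H2) (Subgroup.Normal.conj_mem inferInstance _ hk _))
        ((le_sup_right : H2 ≤ K ⊔ H2) ((Subgroup.mem_normalizer_iff.1 ht h).1 hh))
    rw [Subgroup.mem_normalizer_iff]
    intro x
    constructor
    · intro hx
      exact hle s hsH2 _ hx
    · intro hx
      have h3 := hle s⁻¹ (inv_mem hsH2) _ hx
      have h4 : s⁻¹ * (s * x * s⁻¹) * s⁻¹⁻¹ = x := by group
      rwa [h4] at h3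
  obtain ⟨c, hc, b, hb, hcb⟩ := h2.hL2.frattini hsK2 hsZ
  have hbK2 : b ∈ Subgroup.normalizer ((K ⊔ H2 : Subgroup G) : Set G) := hb.1
  have hbQ : b ∈ Subgroup.normalizer (Q : Set G) := hb.2
  have hbZ : b ∈ Subgroup.normalizer (Z : Set G) := h2.hL2.normQ_Z hbQ
  have hbC2 : b ∈ Subgroup.normalizer ((Q ⊔ H2 : Subgroup G) : Set G) :=
    h2.hL2.norm_sup hbK2 hbZ
  have hsb : cnj s ρ = cnj b ρ := by
    rw [hcb, ← cnj_cnj]
    exact cnj_eq_self hc (cnj_mem_irrS hbC2 hρ.1.1)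
  have hinv : cnj b (rst (K ⊔ H2) χh) = rst (K ⊔ H2) χh := by
    funext x
    change rst (K ⊔ H2) χh (b⁻¹ * x * b) = rst (K ⊔ H2) χh x
    have e1 := Subgroup.mem_normalizer_iff''.1 hbK2 x
    by_cases hx : x ∈ K ⊔ H2
    · rw [eu_rst_of_mem _ hx, eu_rst_of_mem _ (e1.1 hx)]
      have h3 := Irr.isClass hχh b⁻¹ x
      rw [inv_inv] at h3
      exact h3
    · rw [eu_rst_of_not_mem _ hx, eu_rst_of_not_mem _ (fun h => hx (e1.2 h))]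
  refine ⟨cnj b lam, cnj_mem_irrS hbQ hl, fun h => cnj_ne_oneS hbQ h, ?_, ?_,
    ca_cnj h2.hL2 hsK2 hsZ hρ⟩
  · rw [hsb]
    have h3 := aa_cnj h2.hL2 hbK2 hbQ (rst (K ⊔ H2) χh) lam ρ
    rw [hinv] at h3
    rw [h3]
    exact ha
  · have hsC : s ∈ Subgroup.normalizer ((Q ⊔ H : Subgroup G) : Set G) :=
      hL.norm_sup (eu_norm_K s) hsZ
    have h3 := ip_cnj hsC ρ φ
    rw [hsφ'] at h3
    rw [h3]
    exact hip

theorem uni_orb (hL : LocC p K Q Z H) {φ : G → ℂ} (hφ : φ ∈ Ca p Q H)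
    (h2 : Hyp2 p K Q Z H H2 φ) (hP2 : Pkg p (K ⊔ H2) Q Z H2) {χh χ : G → ℂ} (hχh : χh ∈ Irr G)
    (hχ : χ ∈ IrrSP p K) (hres : ∀ k ∈ K, χh k = χ k) {lam lam' ρ ρ' : G → ℂ}
    (hl : lam ∈ IrrS Q) (hl' : lam' ∈ IrrS Q) (hρ : ρ ∈ Ca p Q H2) (hρ' : ρ' ∈ Ca p Q H2)
    (ha : aa Q H2 (rst (K ⊔ H2) χh) lam ρ ≠ 0)
    (ha' : aa Q H2 (rst (K ⊔ H2) χh) lam' ρ' ≠ 0) (he : ∀ x ∈ Q ⊔ H, ρ x = φ x)
    (he' : ∀ x ∈ Q ⊔ H, ρ' x = φ x) : ∃ t ∈ NN K Z, cnj t φ = φ ∧ cnj t ρ = ρ' := by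
  have hχ2 : rst (K ⊔ H2) χh ∈ IrrSP p (K ⊔ H2) := rst_mem le_sup_left hχh hχ hres
  obtain ⟨g, hg, hgρ⟩ := hP2.unb _ hχ2 ρ hρ ρ' hρ' ⟨lam, hl, ha⟩ ⟨lam', hl', ha'⟩
  obtain ⟨t, ht, h, hh, rfl⟩ := h2.hNN g (h2.hL2.NNQ_le hg)
  have h3 : cnj t ρ = ρ' := by
    rw [← hgρ, ← cnj_cnj, cnj_eq_self ((le_sup_right : H2 ≤ Q ⊔ H2) hh) hρ.1.1]
  refine ⟨t, ht, ?_, h3⟩
  have htC := norm_C_NN hL ht
  funext x
  change φ (t⁻¹ * x * t) = φ x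
  by_cases hx : x ∈ Q ⊔ H
  · have h4 : t⁻¹ * x * t ∈ Q ⊔ H := (Subgroup.mem_normalizer_iff''.1 htC x).1 hx
    rw [← he _ h4, ← he' _ hx, ← h3]
    rfl
  · rw [hφ.1.1.2 x hx]
    apply hφ.1.1.2
    intro h4
    exact hx ((Subgroup.mem_normalizer_iff''.1 htC x).2 h4)

end Pool.Agent.Helper42.CY
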