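import Pool.Agent.Helper42.CY.Fibre
import Pool.Agent.Helper97.S4.Glue

/-!
# Project CY, section 4: the equivariant bijection
-/

open scoped Pointwise

namespace Pool.Agent.Helper42.CY

open Pool.Agent.Helper42.INC Pool.Agent.Helper42.IR Pool.Agent.Helper97.S4

attribute [local instance] cnjAct

variable {G : Type} [Group G] [Finite G] {p : ℕ} [Fact p.Prime] {K Q Z H : Subgroup G}

theorem Sp_aa {χ ψ : G → ℂ} (h : Sp p Q H ψ = Sp p Q H χ) {φ lam : G → ℂ} (hφ : φ ∈ Ca p Q H)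
    (hl : lam ∈ IrrS Q) : aa Q H ψ lam φ ≠ 0 ↔ aa Q H χ lam φ ≠ 0 := by
  have h1 : (φ, lam) ∈ Sp p Q H ψ ↔ (φ, lam) ∈ Sp p Q H χ := by rw [h]
  exact ⟨fun h2 => (h1.1 ⟨hφ, hl, h2⟩).2.2, fun h2 => (h1.2 ⟨hφ, hl, h2⟩).2.2⟩

theorem Sp_Bl {χ ψ : G → ℂ} (h : Sp p Q H ψ = Sp p Q H χ) {φ : G → ℂ} (hφ : φ ∈ Ca p Q H) :
    Bl Q H ψ φ ↔ Bl Q H χ φ := by
  constructor
  · rintro ⟨lam, hl, h1⟩
    exact ⟨lam, hl, (Sp_aa h hφ hl).1 h1⟩
  · rintro ⟨lam, hl, h1⟩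
    exact ⟨lam, hl, (Sp_aa h hφ hl).2 h1⟩

theorem NE_of_full {K' : Subgroup G} {χ φ : G → ℂ} {ε : ℂ} (hf : Full Q H χ φ)
    (h : NE Q H χ φ ε ∨ ∃ l0 ∈ IrrS Q, l0 ≠ oneS Q ∧ EX K' Q H χ φ l0 ε) : NE Q H χ φ ε := by
  rcases h with h | ⟨l0, hl0, h0, h⟩
  · exact h
  · intro lam hl h1
    obtain ⟨h2, h3⟩ := h lam hl h1
    by_cases hc : ∃ n ∈ NN K' Q, cnj n φ = φ ∧ cnj n l0 = lam
    · exact h2 hc
    · exact absurd (h3 hc) (hf lam hl h1)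

theorem EX_of_not_full {K' : Subgroup G} {χ φ : G → ℂ} {ε : ℂ} (hε : ε = 1 ∨ ε = -1)
    (hf : ¬ Full Q H χ φ)
    (h : NE Q H χ φ ε ∨ ∃ l0 ∈ IrrS Q, l0 ≠ oneS Q ∧ EX K' Q H χ φ l0 ε) :
    ∃ l0 ∈ IrrS Q, l0 ≠ oneS Q ∧ EX K' Q H χ φ l0 ε := by
  rcases h with h | h
  · exfalso
    apply hf
    intro lam hl h1
    rw [h lam hl h1]
    rcases hε with rfl | rfl <;> norm_num
  · exact h

/-- Equal supports give congruent squares of degrees. Let `φ` with `Bl Q H χ φ` (`Nice.blk`), so also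
`Bl Q H ψ φ`. If `Full Q H χ φ` (so `Full Q H ψ φ`), then both have shape `NE` with sign `± 1`: by
`Pkg.shape`, and in the case `EX` with label `l0` all nontrivial `lam` must be conjugate to `l0`
because of full support, so `NE` holds with the same sign. Use `Pkg.degNE` for `K` and for `NN K Q`
(with `NN_NN`). If not full, both have shape `EX` (`NE` has full support), use `Pkg.degEX`. -/
theorem degree_of_Sp (hL : LocC p K Q Z H) (hPK : Pkg p K Q Z H) (hPN : Pkg p (NN K Z) Q Z H)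
    {χ ψ : G → ℂ} (hχ : χ ∈ IrrSP p K) (hψ : ψ ∈ IrrSP p (NN K Z)) (h : Sp p Q H ψ = Sp p Q H χ) :
    (deg ψ : ZMod p) ^ 2 = (deg χ : ZMod p) ^ 2 := by
  obtain ⟨φ, hφ, hb⟩ := (nice_K hL hPK hχ).blk
  have hbψ : Bl Q H ψ φ := (Sp_Bl h hφ).2 hb
  obtain ⟨ε, hε, h1⟩ := hPK.shape χ hχ φ hφ hb
  obtain ⟨ε', hε', h2⟩ := hPN.shape ψ hψ φ hφ hbψ
  by_cases hf : Full Q H χ φ
  · have hfψ : Full Q H ψ φ := fun lam hl hl1 => (Sp_aa h hφ hl).2 (hf lam hl hl1)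
    have h3 := hPK.degNE χ hχ φ hφ ε hε (NE_of_full hf h1)
    have h4 := hPN.degNE ψ hψ φ hφ ε' hε' (NE_of_full hfψ h2)
    rw [NN_NN] at h4
    rw [h3, h4]
  · have hfψ : ¬ Full Q H ψ φ := fun hc => hf fun lam hl hl1 => (Sp_aa h hφ hl).1 (hc lam hl hl1)
    obtain ⟨l0, hl0, h01, h5⟩ := EX_of_not_full hε hf h1
    obtain ⟨l0', hl0', h01', h5'⟩ := EX_of_not_full hε' hfψ h2
    have h3 := hPK.degEX χ hχ φ hφ l0 hl0 h01 ε hε h5
    have h4 := hPN.degEX ψ hψ φ hφ l0' hl0' h01' ε' hε' h5'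
    rw [NN_NN] at h4
    rw [h3, h4]

/-- Equal supports give the relation `Typ`: apply `local_types` to `ψ` and `φ`. In type 1,
`Full Q H ψ φ` (all values are `-1`), so `Full Q H χ φ` by equality of the supports, the second
alternative of `Typ`. In type 2, `aa Q H ψ l0 φ = 1` (`EX` with `n = 1`), so `(φ, l0)` is in the support
of `χ`, the first alternative. -/
theorem typ_of_Sp (hL : LocC p K Q Z H) (hPN : Pkg p (NN K Z) Q Z H)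
    {χ ψ : G → ℂ} (hψ : ψ ∈ IrrSP p (NN K Z)) (h : Sp p Q H ψ = Sp p Q H χ) {φ : G → ℂ}
    (hφ : φ ∈ Ca p Q H) (hb : Bl Q H χ φ) : Typ K Q H χ ψ φ := by
  have hbψ : Bl Q H ψ φ := (Sp_Bl h hφ).2 hb
  rcases local_types hL hPN hψ hφ hbψ with ⟨h1, h2⟩ | ⟨_, l0, hl0, h0, h1, _⟩
  · right
    refine ⟨h1, fun lam hl hl1 => (Sp_aa h hφ hl).1 ?_⟩
    rw [h2 lam hl hl1]
    norm_num
  · left
    refine ⟨l0, hl0, h0, h1, (Sp_aa h hφ hl0).1 ?_⟩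
    rw [(h1 l0 hl0 h0).1 ⟨1, Subgroup.one_mem _, cnj_one _, cnj_one _⟩]
    norm_num

/-- Section 4. Apply `glue` with `A = G` acting on `G → ℂ` by `cnj` (`cnjAct`) and on sets of pairs,
`S = normalizer Q`, `f = Sp p Q H` (`Sp_cnj`), `X = IrrSP p K`, `Y = IrrSP p (NN K Z)` (stable:
`cnj_mem_irrSP`, `norm_NN`, `K` normal) and `fibre`; then `degree_of_Sp`, `typ_of_Sp`, and
`Bl Q H χ φ ↔ ∃ lam, (φ, lam) ∈ Sp p Q H χ`. Elements `n ∈ normalizer Z` are `c * b` with `c ∈ Q ⊔ H`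
acting trivially on both sides and `b ∈ normalizer Q` (`frattini`). -/
theorem section4 (K Q Z H : Subgroup G) [K.Normal] (hL : LocC p K Q Z H)
    (hP : ∀ K' Q' Z' H' : Subgroup G, LocC p K' Q' Z' H' → Pkg p K' Q' Z' H') :
    ∃ F, Sec4 p K Q Z H F := by
  have hK : ∀ a : G, a ∈ Subgroup.normalizer (K : Set G) := by
    intro a
    rw [Subgroup.normalizer_eq_top]
    exact Subgroup.mem_top a
  have hPK : Pkg p K Q Z H := hP K Q Z H hL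
  have hPN : Pkg p (NN K Z) Q Z H := hP _ Q Z H hL.nn
  obtain ⟨F, hF, hF2, hF3⟩ := glue (A := G) (α := G → ℂ) (Z := Set ((G → ℂ) × (G → ℂ)))
    (Subgroup.normalizer (Q : Set G)) (Sp p Q H)
    (fun s hs x => Sp_cnj hL (hK s) hs x) (IrrSP p K) (IrrSP p (NN K Z))
    (fun s _ x hx => cnj_mem_irrSP (hK s) hx)
    (fun s hs y hy => cnj_mem_irrSP (norm_NN (hK s) (hL.normQ_Z hs)) hy)
    (fun z => fibre hP hL (fun a _ => hK a) z)
  refine ⟨F, hF, ?_, ?_, ?_, ?_⟩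
  · intro n hn χ hχ
    obtain ⟨c, hc, b, hb, rfl⟩ := hL.frattini (hK n) hn
    have hcN : c ∈ NN K Z := hL.sup_le hc
    have hcK : c ∈ K := hcN.1
    have hbZ := hL.normQ_Z hb.2
    rw [← cnj_cnj, ← cnj_cnj, cnj_eq_self hcK (cnj_mem_irrS (hK b) hχ.1),
      cnj_eq_self hcN (cnj_mem_irrS (norm_NN (hK b) hbZ) (hF.mapsTo hχ).1)]
    exact hF2 b hb.2 χ hχ
  · intro χ hχ
    exact degree_of_Sp hL hPK hPN hχ (hF.mapsTo hχ) (hF3 χ hχ)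
  · intro χ hχ φ hφ
    exact (Sp_Bl (hF3 χ hχ) hφ).symm
  · intro χ hχ φ hφ hb
    exact typ_of_Sp hL hPN (hF.mapsTo hχ) (hF3 χ hχ) hφ hb

end Pool.Agent.Helper42.CY
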