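import Pool.Agent.Helper42.CY.Unb
import Pool.Agent.Helper42.IR.PkgTop

/-!
# CY-26 (project CY): the package for the whole group

`exb`: Mult.lean. `unb`: Unb.lean. `def0`: Blk.lean. `shape`: `shape_all`. `norm`: NormC.lean.
`degNE`: `χ` is in the block of `φ`: a nontrivial label (`exists_ne_oneS`) has `aa = ε ≠ 0`; `deg_mod` and
`mult_NE_sq` (`m = ip H χ φ`, `mult_nat`). `degEX`: `aa Q H χ l0 φ = ε ≠ 0` (`n = 1`); `deg_mod`, `mult_EX_sq`, and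
`|N : T| e = |N : Q ⊔ H|`, `N = NN ⊤ Z`, `T = N ⊓ stab φ`, `e = |T : Q ⊔ H|` (`ee_eq`,
`Subgroup.relIndex_mul_relIndex`). `NN ⊤ Z = ⊤ ⊓ normalizer Z = normalizer Z`.
-/

namespace Pool.Agent.Helper42.CY

open Pool.Agent.Helper42.INC Pool.Agent.Helper42.IR Pool.Agent.Helper97.S4

variable {p : ℕ} [Fact p.Prime] {K : Type} [Group K] [Finite K]

omit [Finite K] in
private lemma NN_top (Z : Subgroup K) :
    NN (⊤ : Subgroup K) Z = Subgroup.normalizer (Z : Set K) := by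
  unfold NN
  exact top_inf_eq _

private lemma ne_zero_sign {ε : ℂ} (hε : ε = 1 ∨ ε = -1) : ε ≠ 0 := by
  rcases hε with rfl | rfl
  · exact one_ne_zero
  · exact neg_ne_zero.2 one_ne_zero

theorem pkg_top {Q Z H : Subgroup K} (hp2 : p ≠ 2) (hL : LocC p (⊤ : Subgroup K) Q Z H) :
    Pkg p (⊤ : Subgroup K) Q Z H where
  exb := fun χ hχ => exb hL hχ
  unb := fun χ hχ φ hφ ρ hρ h1 h2 => unb hp2 hL hχ.1 hφ hρ h1 h2
  def0 := fun χ hχ hd φ hφ => def0 hp2 hL hχ hd hφ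
  shape := fun χ hχ φ hφ hB => shape_all hp2 hL hχ.1 hφ hB
  norm := by
    classical
    intro φ hφ lam hl lam' hl' h1 h1'
    rw [norm hL hφ hl hl' h1 h1']
  degNE := by
    intro χ hχ φ hφ ε hε h
    obtain ⟨m, hm⟩ := mult_nat hL hχ.1 hφ
    obtain ⟨lam, hl, hl1⟩ := exists_ne_oneS hL
    have hB : Bl Q H χ φ := ⟨lam, hl, by rw [h lam hl hl1]; exact ne_zero_sign hε⟩
    have h2 := deg_mod hp2 hL hχ.1 hφ hB hm
    have h3 := mult_NE_sq hL hχ.1 hφ hε h hm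
    rw [NN_top, h2, Nat.cast_mul _ m, mul_pow, h3, mul_one]
  degEX := by
    intro χ hχ φ hφ l0 hl0 hl1 ε hε h
    obtain ⟨m, hm⟩ := mult_nat hL hχ.1 hφ
    have hB : Bl Q H χ φ := by
      refine ⟨l0, hl0, ?_⟩
      rw [(h l0 hl0 hl1).1 ⟨1, Subgroup.one_mem _, cnj_one φ, cnj_one l0⟩]
      exact ne_zero_sign hε
    have h2 := deg_mod hp2 hL hχ.1 hφ hB hm
    have h3 := mult_EX_sq hL hχ.1 hφ hl0 hl1 hε h hm
    have h4 : (Q ⊔ H).relIndex (NN (⊤ : Subgroup K) Z ⊓ stab φ) *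
        (NN (⊤ : Subgroup K) Z ⊓ stab φ).relIndex (NN (⊤ : Subgroup K) Z) =
          (Q ⊔ H).relIndex (NN (⊤ : Subgroup K) Z) :=
      Subgroup.relIndex_mul_relIndex _ _ _ (hL.C_le_stab hφ.1.1) inf_le_left
    rw [← h4, h2, ← hL.ee_eq hφ.1.1, NN_top]
    push_cast
    rw [mul_pow, h3]
    ring

end Pool.Agent.Helper42.CY
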