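import Pool.Agent.Helper42.CY.FixFull
import Pool.Agent.Helper42.CY.Beta
import Pool.Agent.Helper97.S4.Gset

/-!
# Project CY, section 4: equivariant bijections of the fibres of the support map
-/

open scoped Pointwise

namespace Pool.Agent.Helper42.CY

open Pool.Agent.Helper42.INC Pool.Agent.Helper42.IR Pool.Agent.Helper97.S4

attribute [local instance] cnjAct

variable {G : Type} [Group G] [Finite G] {p : ℕ} [Fact p.Prime] {K Q Z H : Subgroup G}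

theorem bl_of_full (hL : LocC p K Q Z H) {χ φ : G → ℂ} (h : Full Q H χ φ) : Bl Q H χ φ := by
  obtain ⟨lam, hl, h1⟩ := exists_ne_oneS hL
  exact ⟨lam, hl, h lam hl h1⟩

/-- characters of full support lie over `φ` -/
theorem over_of_full (hL : LocC p K Q Z H) (hPN : Pkg p (NN K Z) Q Z H) {φ : G → ℂ}
    (hφ : φ ∈ Ca p Q H) {ψ : G → ℂ} (hψ : ψ ∈ FF p (NN K Z) Q H φ) : ip (Q ⊔ H) ψ φ ≠ 0 := by
  rcases local_types hL hPN hψ.1 hφ (bl_of_full hL hψ.2) with ⟨h1, _⟩ |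
    ⟨_, l0, hl0, h0, h1, _⟩
  · exact h1
  · exfalso
    obtain ⟨lam, hl, lam', hl', h2, h2', hC⟩ := exists_not_Cj hL hφ
    apply hC
    have key : ∀ lam ∈ IrrS Q, lam ≠ oneS Q → Cj K Q φ l0 lam := by
      intro lam hl hl1
      by_contra hc
      exact hψ.2 lam hl hl1 ((h1 lam hl hl1).2 hc)
    exact Cj_trans (Cj_symm (key lam hl h2)) (key lam' hl' h2')

/-- Characters with full support over `φ`. Let `S ≤ normalizer K ⊓ normalizer Q` be a subgroup all of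
whose elements `a` move `φ` inside its `NN K Q`-orbit. Then there is an `S`-equivariant bijection from
`FF p K Q H φ` to `FF p (NN K Z) Q H φ`. Both sets are finite and `S`-stable (`BB_stable`), and each
`a ∈ S` has the same number of fixed points on both (`fix_full`). Every `ψ ∈ FF p (NN K Z) Q H φ` lies
over `φ` (`over_of_full`). By `fix_of_fix` each `a ∈ S` acts on `FF p (NN K Z) Q H φ` trivially or without
fixed points; use `iso_free`. -/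
theorem full_iso (hP : ∀ K' Q' Z' H' : Subgroup G, LocC p K' Q' Z' H' → Pkg p K' Q' Z' H')
    (hL : LocC p K Q Z H) {φ : G → ℂ} (hφ : φ ∈ Ca p Q H) (S : Subgroup G)
    (hSK : ∀ a ∈ S, a ∈ Subgroup.normalizer (K : Set G))
    (hSQ : ∀ a ∈ S, a ∈ Subgroup.normalizer (Q : Set G))
    (hSφ : ∀ a ∈ S, ∃ m ∈ NN K Q, cnj a φ = cnj m φ) :
    ∃ F : (G → ℂ) → (G → ℂ), Set.BijOn F (FF p K Q H φ) (FF p (NN K Z) Q H φ) ∧
      ∀ a ∈ S, ∀ χ ∈ FF p K Q H φ, F (cnj a χ) = cnj a (F χ) := by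
  have hPK : Pkg p K Q Z H := hP K Q Z H hL
  have hLN : LocC p (NN K Z) Q Z H := hL.nn
  have hPN : Pkg p (NN K Z) Q Z H := hP _ Q Z H hLN
  have hX : (FF p K Q H φ).Finite := (irrS_finite K).subset fun χ hχ => hχ.1.1
  have hY : (FF p (NN K Z) Q H φ).Finite := (irrS_finite (NN K Z)).subset fun χ hχ => hχ.1.1
  have hSX : ∀ s ∈ S, ∀ x ∈ FF p K Q H φ, s • x ∈ FF p K Q H φ := by
    intro s hs x hx
    obtain ⟨m, hm, hma⟩ := hSφ s hs
    exact (BB_stable hL hPK (hSK s hs) (hSQ s hs) hm hma).2.1 x hx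
  have hSY : ∀ s ∈ S, ∀ x ∈ FF p (NN K Z) Q H φ, s • x ∈ FF p (NN K Z) Q H φ := by
    intro s hs x hx
    obtain ⟨m, hm, hma⟩ := hSφ s hs
    exact (BB_stable hLN hPN (norm_NN (hSK s hs) (hL.normQ_Z (hSQ s hs))) (hSQ s hs)
      (show m ∈ NN (NN K Z) Q by rw [hL.NN_Q]; exact hm) hma).2.1 x hx
  have hfix : ∀ s ∈ S, Nat.card {x : G → ℂ // x ∈ FF p K Q H φ ∧ s • x = x} =
      Nat.card {y : G → ℂ // y ∈ FF p (NN K Z) Q H φ ∧ s • y = y} := by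
    intro s hs
    obtain ⟨m, hm, hma⟩ := hSφ s hs
    exact fix_full hP hL hφ (hSK s hs) (hSQ s hs) hm hma
  refine iso_free S _ _ hX hY hSX hSY hfix ?_
  intro s hs
  by_cases hc : ∀ y ∈ FF p (NN K Z) Q H φ, s • y ≠ y
  · exact Or.inr hc
  · left
    push Not at hc
    obtain ⟨y, hy, hfy⟩ := hc
    intro y' hy'
    exact fix_of_fix hL (hSK s hs) (hL.normQ_Z (hSQ s hs)) hy.1.1 hy'.1.1 hφ.1.1
      (over_of_full hL hPN hφ hy) (over_of_full hL hPN hφ hy') hfy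

theorem Sp_aa' {χ ψ : G → ℂ} (h : Sp p Q H ψ = Sp p Q H χ) {φ lam : G → ℂ} (hφ : φ ∈ Ca p Q H)
    (hl : lam ∈ IrrS Q) : aa Q H ψ lam φ ≠ 0 ↔ aa Q H χ lam φ ≠ 0 := by
  have h1 : (φ, lam) ∈ Sp p Q H ψ ↔ (φ, lam) ∈ Sp p Q H χ := by rw [h]
  exact ⟨fun h2 => (h1.1 ⟨hφ, hl, h2⟩).2.2, fun h2 => (h1.2 ⟨hφ, hl, h2⟩).2.2⟩

/-- The fibres of the support map. Let `K` be normalized by `normalizer Q` (in the application `K` is
normal). If both fibres over `z` are empty any map works. Otherwise some `χ` in `IrrSP p K` or in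
`IrrSP p (NN K Z)` has support `z`; it is nice (`nice_K`, `nice_N`), let `φ` with `Bl Q H χ φ`.
If `Full Q H χ φ` then both fibres are the sets `FF` (`Sp_eq_iff_full`, `nice_K`, `nice_N`), the
stabilizer of `z` in `normalizer Q` satisfies the hypothesis of `full_iso`: if `a • z = z` then for
`(φ, lam) ∈ z`, `(cnj a φ, cnj a lam) ∈ z`, so `Bl Q H χ (cnj a φ)` and `Nice.one` gives
`m ∈ NN K Q` with `cnj m φ = cnj a φ`. Use `full_iso` for `S = normalizer Q ⊓ stabilizer G z`.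
If not full, both fibres are singletons: they are subsets of `EE _ Q H φ` with at most one element by
`EE_Sp_inj`, and nonempty by `EE_match` (and the membership of `χ`; note that supports determine
membership in the block and fullness). The unique map between singletons is equivariant for the
stabilizer of `z`, since `cnj a` maps each fibre to itself (`Sp_cnj`, `cnj_mem_irrSP`). -/
theorem fibre (hP : ∀ K' Q' Z' H' : Subgroup G, LocC p K' Q' Z' H' → Pkg p K' Q' Z' H')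
    (hL : LocC p K Q Z H)
    (hK : ∀ a ∈ Subgroup.normalizer (Q : Set G), a ∈ Subgroup.normalizer (K : Set G))
    (z : Set ((G → ℂ) × (G → ℂ))) :
    ∃ F : (G → ℂ) → (G → ℂ),
      Set.BijOn F {χ | χ ∈ IrrSP p K ∧ Sp p Q H χ = z} {ψ | ψ ∈ IrrSP p (NN K Z) ∧ Sp p Q H ψ = z} ∧
      ∀ a ∈ Subgroup.normalizer (Q : Set G), a • z = z → ∀ χ ∈ IrrSP p K, Sp p Q H χ = z →
        F (cnj a χ) = cnj a (F χ) := by
  have hPK : Pkg p K Q Z H := hP K Q Z H hL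
  have hLN : LocC p (NN K Z) Q Z H := hL.nn
  have hPN : Pkg p (NN K Z) Q Z H := hP _ Q Z H hLN
  by_cases hemp : (∀ χ, ¬ (χ ∈ IrrSP p K ∧ Sp p Q H χ = z)) ∧
      ∀ ψ, ¬ (ψ ∈ IrrSP p (NN K Z) ∧ Sp p Q H ψ = z)
  · refine ⟨id, ?_, ?_⟩
    · refine ⟨fun χ hχ => (hemp.1 χ hχ).elim, fun χ hχ => (hemp.1 χ hχ).elim,
        fun ψ hψ => (hemp.2 ψ hψ).elim⟩
    · intro a _ _ χ hχ hz
      exact (hemp.1 χ ⟨hχ, hz⟩).elim
  have h0 : ∃ χ₀, Nice p K Q H χ₀ ∧ Sp p Q H χ₀ = z := by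
    by_contra hcon
    apply hemp
    refine ⟨fun χ hχ => hcon ⟨χ, nice_K hL hPK hχ.1, hχ.2⟩,
      fun ψ hψ => hcon ⟨ψ, nice_N hL hPN hψ.1, hψ.2⟩⟩
  obtain ⟨χ₀, hn₀, hz₀⟩ := h0
  obtain ⟨φ, hφ, hb⟩ := hn₀.blk
  have hstabK : ∀ a ∈ Subgroup.normalizer (Q : Set G), a • z = z → ∀ χ ∈ IrrSP p K,
      Sp p Q H χ = z → cnj a χ ∈ IrrSP p K ∧ Sp p Q H (cnj a χ) = z := by
    intro a ha haz χ hχ hz
    refine ⟨cnj_mem_irrSP (hK a ha) hχ, ?_⟩
    rw [Sp_cnj hL (hK a ha) ha, hz, haz]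
  have hstabN : ∀ a ∈ Subgroup.normalizer (Q : Set G), a • z = z → ∀ χ ∈ IrrSP p (NN K Z),
      Sp p Q H χ = z → cnj a χ ∈ IrrSP p (NN K Z) ∧ Sp p Q H (cnj a χ) = z := by
    intro a ha haz χ hχ hz
    refine ⟨cnj_mem_irrSP (norm_NN (hK a ha) (hL.normQ_Z ha)) hχ, ?_⟩
    rw [Sp_cnj hL (hK a ha) ha, hz, haz]
  by_cases hf : Full Q H χ₀ φ
  · have hA : {χ | χ ∈ IrrSP p K ∧ Sp p Q H χ = z} = FF p K Q H φ := by
      ext χ
      constructor
      · rintro ⟨h1, h2⟩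
        exact ⟨h1, (Sp_eq_iff_full hL hφ hn₀ (nice_K hL hPK h1) hf).1 (h2.trans hz₀.symm)⟩
      · rintro ⟨h1, h2⟩
        exact ⟨h1, ((Sp_eq_iff_full hL hφ hn₀ (nice_K hL hPK h1) hf).2 h2).trans hz₀⟩
    have hB : {ψ | ψ ∈ IrrSP p (NN K Z) ∧ Sp p Q H ψ = z} = FF p (NN K Z) Q H φ := by
      ext χ
      constructor
      · rintro ⟨h1, h2⟩
        exact ⟨h1, (Sp_eq_iff_full hL hφ hn₀ (nice_N hL hPN h1) hf).1 (h2.trans hz₀.symm)⟩
      · rintro ⟨h1, h2⟩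
        exact ⟨h1, ((Sp_eq_iff_full hL hφ hn₀ (nice_N hL hPN h1) hf).2 h2).trans hz₀⟩
    obtain ⟨F, hF, hF2⟩ := full_iso hP hL hφ
      (Subgroup.normalizer (Q : Set G) ⊓ MulAction.stabilizer G z)
      (fun a ha => hK a ha.1) (fun a ha => ha.1) (by
        intro a ha
        have haz : a • z = z := ha.2
        obtain ⟨lam, hl, hlam⟩ := hb
        have h1 : ((φ, lam) : (G → ℂ) × (G → ℂ)) ∈ z := by
          rw [← hz₀]
          exact ⟨hφ, hl, hlam⟩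
        have h2 : (a • ((φ, lam) : (G → ℂ) × (G → ℂ))) ∈ a • z := Set.smul_mem_smul_set h1
        rw [haz] at h2
        have h3 : ((cnj a φ, cnj a lam) : (G → ℂ) × (G → ℂ)) ∈ Sp p Q H χ₀ := by
          rw [hz₀]
          exact h2
        obtain ⟨h4, h5, h6⟩ := h3
        obtain ⟨m, hm, h7⟩ := hn₀.one φ hφ (cnj a φ) h4 ⟨lam, hl, hlam⟩ ⟨_, h5, h6⟩
        exact ⟨m, hm, h7.symm⟩)
    refine ⟨F, by rw [hA, hB]; exact hF, ?_⟩
    intro a ha haz χ hχ hz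
    refine hF2 a ⟨ha, haz⟩ χ ?_
    rw [← hA]
    exact ⟨hχ, hz⟩
  · have hEE : ∀ {K' : Subgroup G} {χ : G → ℂ}, χ ∈ IrrSP p K' → Sp p Q H χ = z →
        χ ∈ EE p K' Q H φ := by
      intro K' χ hχ hz
      have hs : Sp p Q H χ = Sp p Q H χ₀ := hz.trans hz₀.symm
      refine ⟨⟨hχ, ?_⟩, ?_⟩
      · obtain ⟨lam, hl, hlam⟩ := hb
        exact ⟨lam, hl, (Sp_aa' hs hφ hl).2 hlam⟩
      · intro hc
        exact hf fun lam hl h1 => (Sp_aa' hs hφ hl).1 (hc lam hl h1)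
    obtain ⟨g, hg, hg2⟩ := EE_match hL hPK hPN hφ
    have hmaps : ∀ χ ∈ IrrSP p K, Sp p Q H χ = z →
        g χ ∈ IrrSP p (NN K Z) ∧ Sp p Q H (g χ) = z := by
      intro χ hχ hz
      have h1 := hEE hχ hz
      exact ⟨(hg.mapsTo h1).1.1, (hg2 χ h1).trans hz⟩
    refine ⟨g, ⟨fun χ hχ => hmaps χ hχ.1 hχ.2, ?_, ?_⟩, ?_⟩
    · exact hg.injOn.mono fun χ hχ => hEE hχ.1 hχ.2
    · intro ψ hψ
      obtain ⟨χ, hχ, rfl⟩ := hg.surjOn (hEE hψ.1 hψ.2)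
      exact ⟨χ, ⟨hχ.1.1, (hg2 χ hχ).symm.trans hψ.2⟩, rfl⟩
    · intro a ha haz χ hχ hz
      obtain ⟨h1, h2⟩ := hstabK a ha haz χ hχ hz
      obtain ⟨h3, h4⟩ := hmaps _ h1 h2
      obtain ⟨h5, h6⟩ := hmaps χ hχ hz
      obtain ⟨h7, h8⟩ := hstabN a ha haz _ h5 h6
      exact EE_Sp_inj hLN hPN hφ (hEE h3 h4) (hEE h7 h8) (h4.trans h8.symm)

end Pool.Agent.Helper42.CY
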