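import Pool.Agent.Helper42.CY.LocE
import Pool.Agent.Helper97.S4.LocB

/-!
# Project CY, section 4: the overgroup `J = K ⟨a⟩`
-/

namespace Pool.Agent.Helper42.CY

open Pool.Agent.Helper42.INC Pool.Agent.Helper42.IR Pool.Agent.Helper97.S4

variable {G : Type} [Group G] [Finite G] {p : ℕ} [Fact p.Prime] {K J Q Z H : Subgroup G} {a : G}
  {n : ℕ}

/-- overgroups of index prime to `p` -/
theorem exists_over (hL : LocC p K Q Z H) (hKJ : K ≤ J) (hi : ¬ p ∣ K.relIndex J) :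
    ∃ HJ : Subgroup G, LocC p J Q Z HJ := by
  refine exists_locC (hL.QK.trans hKJ) hL.cyc hL.cQ ?_ hL.ZQ hL.cZ
  rw [← Subgroup.relIndex_mul_relIndex Q K J hL.QK hKJ]
  intro h
  rcases (Fact.out : p.Prime).dvd_mul.1 h with h1 | h1
  · exact hL.syl h1
  · exact hi h1

theorem exists_HJ (hL : LocC p K Q Z H) (haK : a ∈ Subgroup.normalizer (K : Set G))
    (hn : ∀ k : ℕ, a ^ k ∈ K ↔ n ∣ k)
    (hpn : ¬ p ∣ n) : ∃ HJ : Subgroup G, LocC p (K ⊔ Subgroup.zpowers a) Q Z HJ := by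
  have hKJ : K ≤ K ⊔ Subgroup.zpowers a := le_sup_left
  refine exists_over hL hKJ ?_
  have h1 := card_sup_zpowers haK hn
  have h2 : Nat.card K * K.relIndex (K ⊔ Subgroup.zpowers a) =
      Nat.card (K ⊔ Subgroup.zpowers a : Subgroup G) := by
    have h := Subgroup.relIndex_mul_relIndex (⊥ : Subgroup G) K (K ⊔ Subgroup.zpowers a) bot_le hKJ
    rw [Subgroup.relIndex_bot_left, Subgroup.relIndex_bot_left] at h
    exact h
  have h3 : 0 < Nat.card K := Nat.card_pos
  have h4 : K.relIndex (K ⊔ Subgroup.zpowers a) = n := by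
    rw [h1, mul_comm] at h2
    exact Nat.eq_of_mul_eq_mul_right h3 h2
  rw [h4]
  exact hpn

end Pool.Agent.Helper42.CY
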