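import Pool.Agent.Helper42.CY.Over
import Pool.Agent.Helper42.CY.LocJ

/-!
# Project CY, section 4: equal numbers of fixed points, order prime to `p`
-/

namespace Pool.Agent.Helper42.CY

open Pool.Agent.Helper42.INC Pool.Agent.Helper42.IR Pool.Agent.Helper97.S4

variable {G : Type} [Group G] [Finite G] {p : ℕ} [Fact p.Prime] {K Q Z H : Subgroup G}

/-- The totals agree: with `J = K ⊔ zpowers a`, `N = NN K Q`, `J' = N ⊔ zpowers a = NN J Q`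
(`NN_sup_zpowers`), the numbers of characters of `J` over `BB p K Q H φ` and of `J'` over
`BB p N Q H φ` agree. Take `HJ` from `exists_HJ`. By `over_iff` for `K` and for `N` (with `Loc.nn`,
`order_NN`, `norm_NN`), these are the numbers of `card_blocks` for `J`, `Q`, `HJ` and
`R φ' = (ip H φ' φ ≠ 0)`; the hypothesis `hcard` is `card_BB_eq` for `J`. All packages come from
`hP`. -/
theorem totals_eq (hP : ∀ K' Q' Z' H' : Subgroup G, LocC p K' Q' Z' H' → Pkg p K' Q' Z' H')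
    (hL : LocC p K Q Z H) {φ : G → ℂ} (hφ : φ ∈ Ca p Q H) {a : G} {n : ℕ}
    (haK : a ∈ Subgroup.normalizer (K : Set G)) (haQ : a ∈ Subgroup.normalizer (Q : Set G))
    (hn : ∀ k : ℕ, a ^ k ∈ K ↔ n ∣ k) (hpn : ¬ p ∣ n) :
    Nat.card {χ : G → ℂ // χ ∈ IrrS (K ⊔ Subgroup.zpowers a) ∧
        ∃ θ ∈ BB p K Q H φ, ip K χ θ ≠ 0} =
      Nat.card {χ : G → ℂ // χ ∈ IrrS (NN K Z ⊔ Subgroup.zpowers a) ∧
        ∃ θ ∈ BB p (NN K Z) Q H φ, ip (NN K Z) χ θ ≠ 0} := by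
  obtain ⟨HJ, hLJ⟩ := exists_HJ hL haK hn hpn
  have haZ := hL.normQ_Z haQ
  have hNN := NN_sup_zpowers haK haZ hn
  have hLJN : LocC p (NN K Z ⊔ Subgroup.zpowers a) Q Z HJ := by
    have h := (hLJ.nn)
    rwa [hNN] at h
  have h1 : Nat.card {χ : G → ℂ // χ ∈ IrrS (K ⊔ Subgroup.zpowers a) ∧
        ∃ θ ∈ BB p K Q H φ, ip K χ θ ≠ 0} =
      Nat.card {χ : G → ℂ // χ ∈ IrrSP p (K ⊔ Subgroup.zpowers a) ∧
        ∃ φ' ∈ Ca p Q HJ, Bl Q HJ χ φ' ∧ ip (Q ⊔ H) φ' φ ≠ 0} := by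
    refine Nat.card_congr (Equiv.subtypeEquivRight fun χ => ⟨?_, ?_⟩)
    · rintro ⟨hχ, h⟩
      exact (over_iff hL hLJ (hP _ _ _ _ hL) (hP _ _ _ _ hLJ) haK haQ hn hφ hχ).1 h
    · intro h
      exact ⟨h.1.1, (over_iff hL hLJ (hP _ _ _ _ hL) (hP _ _ _ _ hLJ) haK haQ hn hφ h.1.1).2 h⟩
  have h2 : Nat.card {χ : G → ℂ // χ ∈ IrrS (NN K Z ⊔ Subgroup.zpowers a) ∧
        ∃ θ ∈ BB p (NN K Z) Q H φ, ip (NN K Z) χ θ ≠ 0} =
      Nat.card {χ : G → ℂ // χ ∈ IrrSP p (NN K Z ⊔ Subgroup.zpowers a) ∧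
        ∃ φ' ∈ Ca p Q HJ, Bl Q HJ χ φ' ∧ ip (Q ⊔ H) φ' φ ≠ 0} := by
    refine Nat.card_congr (Equiv.subtypeEquivRight fun χ => ⟨?_, ?_⟩)
    · rintro ⟨hχ, h⟩
      exact (over_iff (hL.nn) hLJN (hP _ _ _ _ (hL.nn)) (hP _ _ _ _ hLJN) (norm_NN haK haZ) haQ
        (order_NN haZ hn) hφ hχ).1 h
    · intro h
      exact ⟨h.1.1, (over_iff (hL.nn) hLJN (hP _ _ _ _ (hL.nn)) (hP _ _ _ _ hLJN) (norm_NN haK haZ) haQ
        (order_NN haZ hn) hφ h.1.1).2 h⟩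
  have h3 := card_blocks hLJ (hP _ _ _ _ hLJ) (hP _ _ _ _ (hLJ.nn))
    (fun φ' hφ' => card_BB_eq hLJ (hP _ _ _ _ hLJ) (hP _ _ _ _ (hLJ.nn)) hφ')
    (fun φ' => ip (Q ⊔ H) φ' φ ≠ 0)
  rw [hNN] at h3
  rw [h1, h2]
  exact h3

private theorem cnj_pow_orbit (K Q : Subgroup G) {φ : G → ℂ} {a : G}
    (haK : a ∈ Subgroup.normalizer (K : Set G)) (haQ : a ∈ Subgroup.normalizer (Q : Set G))
    (hm : ∃ m ∈ NN K Q, cnj a φ = cnj m φ) (d : ℕ) :
    ∃ m ∈ NN K Q, cnj (a ^ d) φ = cnj m φ := by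
  obtain ⟨m, hmN, hm⟩ := hm
  induction d with
  | zero => exact ⟨1, Subgroup.one_mem _, by rw [pow_zero]⟩
  | succ d ih =>
    obtain ⟨m', hm'N, hm'⟩ := ih
    have hNN := norm_NN haK haQ
    refine ⟨a * m' * a⁻¹ * m, Subgroup.mul_mem _ ?_ hmN, ?_⟩
    · exact (Subgroup.mem_normalizer_iff.1 hNN m').1 hm'N
    · rw [pow_succ', ← cnj_cnj, hm', cnj_cnj, ← cnj_cnj (a * m' * a⁻¹) m, ← hm, cnj_cnj]
      congr 1
      group

private theorem card_pair_eq {K' : Subgroup G} {a : G} {n : ℕ}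
    (hn : ∀ k : ℕ, a ^ k ∈ K' ↔ n ∣ k) (𝓑 : Set (G → ℂ)) (h𝓑 : 𝓑 ⊆ IrrS K') (b c : ℕ) :
    Nat.card {θ : G → ℂ // θ ∈ 𝓑 ∧ cnj (a ^ b) θ = θ ∧ cnj (a ^ c) θ = θ} =
      Nat.card (Fx (a ^ (Nat.gcd (Nat.gcd b c) n)) 𝓑) := by
  refine Nat.card_congr (Equiv.subtypeEquivRight fun θ => ⟨?_, ?_⟩)
  · rintro ⟨h1, h2⟩
    exact ⟨h1, (fix_gcd hn (h𝓑 h1) b c).1 h2⟩
  · rintro ⟨h1, h2⟩
    exact ⟨h1, (fix_gcd hn (h𝓑 h1) b c).2 h2⟩

/-- Strong induction on `n`. By `pairs_count` for `K` and for `NN K Q` (`BB_stable`, `order_NN`) and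
`totals_eq`, the sums over `b, c < n` of the numbers of common fixed points of `a ^ b` and `a ^ c`
agree. By `fix_gcd` the common fixed points of `a ^ b`, `a ^ c` are the fixed points of `a ^ d`,
`d = gcd (b, c, n)`, on both sides. For `d > 1` the numbers agree by induction (`order_pow`: `a ^ d` has
exact order `n / d < n`, it normalizes `K` and `Q` and moves `φ` inside its orbit under `NN K Q`, by
induction on the exponent: if `cnj a φ = cnj m φ` then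
`cnj (a ^ (d + 1)) φ = cnj a (cnj m' φ) = cnj (a m' a⁻¹) (cnj m φ)`).
Subtracting, (number of pairs with `d = 1`) * (number of fixed points of `a`) agree, and the number of
pairs with `d = 1` is positive: the pair `(b, c) = (1 % n, 0)`. -/
theorem fix_eq (hP : ∀ K' Q' Z' H' : Subgroup G, LocC p K' Q' Z' H' → Pkg p K' Q' Z' H')
    (hL : LocC p K Q Z H) {φ : G → ℂ} (hφ : φ ∈ Ca p Q H) (n : ℕ) :
    ∀ a : G, a ∈ Subgroup.normalizer (K : Set G) → a ∈ Subgroup.normalizer (Q : Set G) →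
      (∃ m ∈ NN K Q, cnj a φ = cnj m φ) → (∀ k : ℕ, a ^ k ∈ K ↔ n ∣ k) → ¬ p ∣ n →
      Nat.card (Fx a (BB p K Q H φ)) = Nat.card (Fx a (BB p (NN K Z) Q H φ)) := by
  induction n using Nat.strong_induction_on with
  | _ n ih =>
  intro a haK haQ hm hn hpn
  have hn0 : 0 < n := order_pos hn
  have hsub : BB p K Q H φ ⊆ IrrS K := fun χ hχ => hχ.1.1
  have hsub' : BB p (NN K Z) Q H φ ⊆ IrrS (NN K Z) := fun χ hχ => hχ.1.1
  have haZ := hL.normQ_Z haQ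
  have haN := norm_NN haK haZ
  have hnN := order_NN haZ hn
  obtain ⟨m, hmN, hma⟩ := hm
  have hst := (BB_stable hL (hP _ _ _ _ hL) haK haQ hmN hma).1
  have hst' := (BB_stable (hL.nn) (hP _ _ _ _ (hL.nn)) haN haQ
    (show m ∈ NN (NN K Z) Q by rw [hL.NN_Q]; exact hmN) hma).1
  have e1 := pairs_count haK hn (BB p K Q H φ) hsub hst
  have e2 := pairs_count haN hnN (BB p (NN K Z) Q H φ) hsub' hst'
  have e3 := totals_eq hP hL hφ haK haQ hn hpn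
  rw [e3, ← e2] at e1
  simp only [card_pair_eq hn (BB p K Q H φ) hsub, card_pair_eq hnN (BB p (NN K Z) Q H φ) hsub'] at e1
  have key : ∀ b c : ℕ, Nat.gcd (Nat.gcd b c) n ≠ 1 →
      Nat.card (Fx (a ^ (Nat.gcd (Nat.gcd b c) n)) (BB p K Q H φ)) =
      Nat.card (Fx (a ^ (Nat.gcd (Nat.gcd b c) n)) (BB p (NN K Z) Q H φ)) := by
    intro b c hd
    set d := Nat.gcd (Nat.gcd b c) n with hdef
    have hdn : d ∣ n := Nat.gcd_dvd_right _ _
    have hd0 : 0 < d := Nat.pos_of_dvd_of_pos hdn hn0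
    refine ih (n / d) (Nat.div_lt_self hn0 (by omega)) (a ^ d) (Subgroup.pow_mem _ haK _)
      (Subgroup.pow_mem _ haQ _) (cnj_pow_orbit K Q haK haQ ⟨m, hmN, hma⟩ d)
      (order_pow hn hdn hd0) (fun h => hpn (h.trans (Nat.div_dvd_of_dvd hdn)))
  have h0 : Nat.gcd (Nat.gcd (1 % n) 0) n = 1 := by
    rw [Nat.gcd_zero_right]
    rcases Nat.lt_or_ge 1 n with h | h
    · rw [Nat.mod_eq_of_lt h, Nat.gcd_one_left]
    · have : n = 1 := by omega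
      subst this
      simp
  have hmem : 1 % n ∈ Finset.range n := Finset.mem_range.2 (Nat.mod_lt _ hn0)
  have hmem0 : 0 ∈ Finset.range n := Finset.mem_range.2 hn0
  rcases lt_trichotomy (Nat.card (Fx a (BB p K Q H φ))) (Nat.card (Fx a (BB p (NN K Z) Q H φ)))
    with hlt | heq | hlt
  · exfalso
    refine absurd e1 (ne_of_lt ?_)
    have hle : ∀ b c : ℕ, Nat.card (Fx (a ^ (Nat.gcd (Nat.gcd b c) n)) (BB p K Q H φ)) ≤
        Nat.card (Fx (a ^ (Nat.gcd (Nat.gcd b c) n)) (BB p (NN K Z) Q H φ)) := by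
      intro b c
      by_cases h : Nat.gcd (Nat.gcd b c) n = 1
      · rw [h, pow_one]; exact hlt.le
      · exact (key b c h).le
    refine Finset.sum_lt_sum (fun b _ => Finset.sum_le_sum (fun c _ => hle b c))
      ⟨1 % n, hmem, Finset.sum_lt_sum (fun c _ => hle _ c) ⟨0, hmem0, ?_⟩⟩
    rw [h0, pow_one]
    exact hlt
  · exact heq
  · exfalso
    refine absurd e1 (ne_of_gt ?_)
    have hle : ∀ b c : ℕ, Nat.card (Fx (a ^ (Nat.gcd (Nat.gcd b c) n)) (BB p (NN K Z) Q H φ)) ≤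
        Nat.card (Fx (a ^ (Nat.gcd (Nat.gcd b c) n)) (BB p K Q H φ)) := by
      intro b c
      by_cases h : Nat.gcd (Nat.gcd b c) n = 1
      · rw [h, pow_one]; exact hlt.le
      · exact (key b c h).ge
    refine Finset.sum_lt_sum (fun b _ => Finset.sum_le_sum (fun c _ => hle b c))
      ⟨1 % n, hmem, Finset.sum_lt_sum (fun c _ => hle _ c) ⟨0, hmem0, ?_⟩⟩
    rw [h0, pow_one]
    exact hlt

end Pool.Agent.Helper42.CY
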