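import Pool.Agent.Helper42.CY.Match
import Pool.Agent.Helper97.S4.PPow

/-!
# Project CY, section 4: elements of `p`-power order act trivially on the characters of full support
-/

namespace Pool.Agent.Helper42.CY

open Pool.Agent.Helper42.INC Pool.Agent.Helper42.IR Pool.Agent.Helper97.S4

variable {G : Type} [Group G] [Finite G] {p : ℕ} [Fact p.Prime] {K Q Z H : Subgroup G}

omit [Finite G] in
private lemma cnj_iterate (a : G) (i : ℕ) (χ : G → ℂ) : (cnj a)^[i] χ = cnj (a ^ i) χ := by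
  induction i with
  | zero => simp
  | succ i ih =>
    rw [Function.iterate_succ_apply', ih, cnj_cnj, pow_succ']

theorem fix_pow (hL : LocC p K Q Z H) (hPK : Pkg p K Q Z H) {φ : G → ℂ} (hφ : φ ∈ Ca p Q H)
    {a m : G}
    (haK : a ∈ Subgroup.normalizer (K : Set G)) (haQ : a ∈ Subgroup.normalizer (Q : Set G))
    (hm : m ∈ NN K Q) (hφa : cnj a φ = cnj m φ) {t : ℕ} {χ : G → ℂ}
    (hχ : χ ∈ FF p K Q H φ) (h : cnj (a ^ (p ^ t)) χ = χ) : cnj a χ = χ := by
  have hst := BB_stable hL hPK haK haQ hm hφa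
  have hfin : (FF p K Q H φ).Finite :=
    (irrS_finite K).subset (fun θ hθ => hθ.1.1)
  have hee := hL.ee_lt φ
  have hcard : Nat.card (FF p K Q H φ) ≤ p := by
    rw [card_FF hL hPK hφ]
    omega
  have hh : (cnj a)^[p ^ t] χ = χ := by rw [cnj_iterate, h]
  rcases orbit_p (cnj a) (FF p K Q H φ) hfin hst.2.1 hcard hχ hh with h1 | ⟨h1, h2⟩
  · exact h1
  · exfalso
    rw [card_FF hL hPK hφ] at h1
    omega

end Pool.Agent.Helper42.CY
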