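import Pool.Agent.Helper42.CY.FixEq
import Pool.Agent.Helper42.CY.PPow

/-!
# Project CY, section 4: equal numbers of fixed points on the characters of full support
-/

namespace Pool.Agent.Helper42.CY

open Pool.Agent.Helper42.INC Pool.Agent.Helper42.IR Pool.Agent.Helper97.S4

variable {G : Type} [Group G] [Finite G] {p : ℕ} [Fact p.Prime] {K Q Z H : Subgroup G}

omit [Finite G] in
private theorem ff_pow_fix {a : G} {χ : G → ℂ} (h : cnj a χ = χ) (k : ℕ) :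
    cnj (a ^ k) χ = χ := by
  induction k with
  | zero => rw [pow_zero, cnj_one]
  | succ k ih => rw [pow_succ, ← cnj_cnj, h, ih]

private theorem ff_move {K Q : Subgroup G} {φ : G → ℂ} {a m : G}
    (haK : a ∈ Subgroup.normalizer (K : Set G)) (haQ : a ∈ Subgroup.normalizer (Q : Set G))
    (hm : m ∈ NN K Q) (hφa : cnj a φ = cnj m φ) (k : ℕ) :
    ∃ m' ∈ NN K Q, cnj (a ^ k) φ = cnj m' φ := by
  induction k with
  | zero => exact ⟨1, Subgroup.one_mem _, by rw [pow_zero]⟩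
  | succ k ih =>
    obtain ⟨m', hm', h⟩ := ih
    refine ⟨a * m' * a⁻¹ * m, ?_, ?_⟩
    · exact Subgroup.mul_mem _ ((Subgroup.mem_normalizer_iff.1 (norm_NN haK haQ) m').1 hm') hm
    · rw [pow_succ', ← cnj_cnj a (a ^ k) φ, h, ← cnj_cnj (a * m' * a⁻¹) m φ, ← hφa, cnj_cnj,
        cnj_cnj]
      congr 1
      group

private theorem ff_FF_sub_BB (hL : LocC p K Q Z H) {φ χ : G → ℂ}
    (hχ : χ ∈ FF p K Q H φ) : χ ∈ BB p K Q H φ := by
  obtain ⟨lam, hl, hl1⟩ := exists_ne_oneS hL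
  exact ⟨hχ.1, lam, hl, hχ.2 lam hl hl1⟩

private theorem ff_card_add (hL : LocC p K Q Z H) {φ : G → ℂ} (a : G) :
    Nat.card (Fx a (BB p K Q H φ)) =
      Nat.card (Fx a (FF p K Q H φ)) + Nat.card (Fx a (EE p K Q H φ)) := by
  have hfin : (IrrS K).Finite := irrS_finite K
  have h1 : Fx a (BB p K Q H φ) = Fx a (FF p K Q H φ) ∪ Fx a (EE p K Q H φ) := by
    ext χ
    constructor
    · rintro ⟨hb, hf⟩
      by_cases hF : Full Q H χ φ
      · exact Or.inl ⟨⟨hb.1, hF⟩, hf⟩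
      · exact Or.inr ⟨⟨hb, hF⟩, hf⟩
    · rintro (⟨hb, hf⟩ | ⟨hb, hf⟩)
      · exact ⟨ff_FF_sub_BB hL hb, hf⟩
      · exact ⟨hb.1, hf⟩
  have hd : Disjoint (Fx a (FF p K Q H φ)) (Fx a (EE p K Q H φ)) := by
    rw [Set.disjoint_left]
    rintro χ ⟨h2, _⟩ ⟨h3, _⟩
    exact h3.2 h2.2
  have hf1 : (Fx a (FF p K Q H φ)).Finite := hfin.subset (fun χ hχ => hχ.1.1.1)
  have hf2 : (Fx a (EE p K Q H φ)).Finite := hfin.subset (fun χ hχ => hχ.1.1.1.1)
  rw [h1, Nat.card_coe_set_eq, Nat.card_coe_set_eq, Nat.card_coe_set_eq,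
    Set.ncard_union_eq hd hf1 hf2]

private theorem ff_same (hL : LocC p K Q Z H) (hPK : Pkg p K Q Z H) {φ : G → ℂ} (hφ : φ ∈ Ca p Q H)
    {a m : G} (haK : a ∈ Subgroup.normalizer (K : Set G))
    (haQ : a ∈ Subgroup.normalizer (Q : Set G)) (hm : m ∈ NN K Q) (hφa : cnj a φ = cnj m φ)
    (t : ℕ) : Fx a (FF p K Q H φ) = Fx (a ^ (p ^ t)) (FF p K Q H φ) := by
  ext χ
  constructor
  · rintro ⟨h1, h2⟩
    exact ⟨h1, ff_pow_fix h2 _⟩
  · rintro ⟨h1, h2⟩
    exact ⟨h1, fix_pow hL hPK hφ haK haQ hm hφa h1 h2⟩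

/-- Let `n = p ^ t * r`, `p ∤ r`, be the exact order of `a` modulo `K` (`exists_order`), and
`a' = a ^ (p ^ t)`, of exact order `r` (`order_pow`). By `fix_pow` (for `K` and for `NN K Q`, using
`Loc.nn`, `NN_NN`, `norm_NN`) the elements `a` and `a'` have the same fixed points in `FF` on both
sides (if `a` fixes `χ` so does its power). `a'` moves `φ` inside its orbit. By `fix_eq` for `a'` the
numbers of fixed points in `BB` agree, by `card_Fx_EE` those in `EE` agree, and `BB` is the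
disjoint union of `FF` and `EE`. -/
theorem fix_full (hP : ∀ K' Q' Z' H' : Subgroup G, LocC p K' Q' Z' H' → Pkg p K' Q' Z' H')
    (hL : LocC p K Q Z H) {φ : G → ℂ} (hφ : φ ∈ Ca p Q H) {a m : G}
    (haK : a ∈ Subgroup.normalizer (K : Set G)) (haQ : a ∈ Subgroup.normalizer (Q : Set G))
    (hm : m ∈ NN K Q) (hφa : cnj a φ = cnj m φ) :
    Nat.card (Fx a (FF p K Q H φ)) = Nat.card (Fx a (FF p (NN K Z) Q H φ)) := by
  have hpp : p.Prime := Fact.out
  have hPK : Pkg p K Q Z H := hP _ _ _ _ hL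
  have hPN : Pkg p (NN K Z) Q Z H := hP _ _ _ _ (hL.nn)
  obtain ⟨n, hn0, hn⟩ := exists_order K a
  obtain ⟨t, r, hpr, hnr⟩ := Nat.exists_eq_pow_mul_and_not_dvd hn0.ne' p hpp.ne_one
  have hmN : m ∈ NN (NN K Z) Q := by rw [hL.NN_Q]; exact hm
  rw [ff_same hL hPK hφ haK haQ hm hφa t,
    ff_same (hL.nn) hPN hφ (norm_NN haK (hL.normQ_Z haQ)) haQ hmN hφa t]
  have hd : p ^ t ∣ n := ⟨r, hnr⟩
  have hd0 : 0 < p ^ t := pow_pos hpp.pos t
  have ho := order_pow hn hd hd0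
  have hr : n / p ^ t = r := by
    rw [hnr]
    exact Nat.mul_div_cancel_left r hd0
  rw [hr] at ho
  have haK' : a ^ p ^ t ∈ Subgroup.normalizer (K : Set G) := Subgroup.pow_mem _ haK _
  have haQ' : a ^ p ^ t ∈ Subgroup.normalizer (Q : Set G) := Subgroup.pow_mem _ haQ _
  obtain ⟨m', hm', hφ'⟩ := ff_move haK haQ hm hφa (p ^ t)
  have h1 := fix_eq hP hL hφ r (a ^ p ^ t) haK' haQ' ⟨m', hm', hφ'⟩ ho hpr
  have h2 := card_Fx_EE hL hPK hPN haK' haQ' hφ hm' hφ'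
  rw [ff_card_add hL, ff_card_add (hL.nn), h2] at h1
  exact Nat.add_right_cancel h1

end Pool.Agent.Helper42.CY
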