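import Pool.Agent.Helper42.CY.WD
import Pool.Agent.Helper42.IR.Key35

/-!
# CY-20 (project CY): the alternative (Key)

Compare `key35` in Helper42/IR/Key35.lean. `T = normalizer Z ⊓ stab φ`, `E = Eph R H (rst H φ)`, all matrices over
the residue field, `A'(x) = toK (A x)` for `x ∈ Q ≤ T`, `N = ∑_{x ∈ Q} A' x`. `π` with `E π = π = π E` commuting
with `toK (R t)`, `t ∈ T`. By `keyK`: `π = E g - trQ b`, `g` commuting with all `toK (R k)`, `E b = b = b E`.
Let `b̄ = |H|⁻¹ ∑_{h ∈ H} R h b R h⁻¹` (`|H|` is invertible in `kk p`); it commutes with the `R h`, hence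
with all `s B` (`sspan`), and `E b̄ = b̄ = b̄ E`. Conjugating the equation by `R h` and averaging (`π`, `E`, `g`
commute with `R h`): `π = E g - |H|⁻¹ ∑_h ∑_x R (h x) b R (h x)⁻¹ = E g - |H|⁻¹ ∑_x ∑_h R (x h) b R (x h)⁻¹
= E g - ∑_x R x b̄ R x⁻¹` (`H Q = Q H`). As `R x E = s(Φ x) A' x`, `b̄ = E b̄ E`, `b̄` commutes with `s(..)`, and
`A'` with `s(..)`: `R x b̄ R x⁻¹ = A' x b̄ A' x⁻¹`. So `π = E g - ∑_x A' x b̄ A' x⁻¹` (*). `π` commutes with all `s B`,
so also with `A' x` (`A' x = s(Φ x⁻¹) R x` up to `E`: `A' x = s(Φ x⁻¹) (R x E)` by `RE`, `sA`); the same for `E g`.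

By `LocalR` (applied to `g`) `g` is nilpotent or a unit. Let `v` satisfy `A' y v = v` (`y` generates `Q`): then
`A' x v = v` for all `x ∈ Q` and `E v = v`.
* `g` nilpotent, `g ^ j = 0`, `j ≥ 1`: by induction `π ^ j = (E g) ^ j - ∑_x A' x b' A' x⁻¹` for some `b'`
  (see `pow_trQ` in TrQ.lean), so `π ^ j v = - ∑_x A' x b' v = N (- b' v) = N (E (- b' v))`.
* `g` a unit, `π v = 0`: `g v = E g v = ∑_x A' x b̄ v = N b̄ v`; multiply by `g⁻¹` (it commutes with `N`):
  `v = N (g⁻¹ b̄ v)`, and `g⁻¹ b̄ v` is fixed by `E`.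
-/

namespace Pool.Agent.Helper42.CY

open Pool.Agent.Helper42.INC Pool.Agent.Helper42.IR Pool.Agent.Helper97.S4

/-- the last step, for a multiplicative family of matrices -/
private theorem k35_core {k : Type} [Field k] {n : ℕ} {Q : Type} [Group Q] [Finite Q]
    (A : Q → Matrix (Fin n) (Fin n) k) (hA : ∀ x y, A (x * y) = A x * A y)
    (g b π : Matrix (Fin n) (Fin n) k) (hg : ∀ x, A x * g = g * A x)
    (hπ : ∀ x, A x * π = π * A x) (hf : π = A 1 * g - ∑ᶠ x : Q, A x * b * A x⁻¹)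
    (hloc : IsNilpotent g ∨ IsUnit g) {y : Q} (hy : ∀ x : Q, x ∈ Subgroup.zpowers y) :
    (∃ j : ℕ, ∀ v : Fin n → k, (A y).mulVec v = v → ∃ w : Fin n → k, (A 1).mulVec w = w ∧
        (π ^ j).mulVec v = (∑ᶠ x : Q, A x).mulVec w) ∨
    (∀ v : Fin n → k, (A y).mulVec v = v → π.mulVec v = 0 → ∃ w : Fin n → k,
      (A 1).mulVec w = w ∧ v = (∑ᶠ x : Q, A x).mulVec w) := by
  classical
  have := Fintype.ofFinite Q
  rw [finsum_eq_sum_of_fintype] at hf
  rw [finsum_eq_sum_of_fintype]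
  have hE1 : ∀ x, A 1 * A x = A x := fun x => by rw [← hA, one_mul]
  have hE2 : ∀ x, A x * A 1 = A x := fun x => by rw [← hA, mul_one]
  have hN : (∑ x : Q, A x) * A 1 = ∑ x : Q, A x := by
    rw [Finset.sum_mul]
    exact Finset.sum_congr rfl fun x _ => hE2 x
  have hfix : ∀ v : Fin n → k, (A y).mulVec v = v → ∀ x, (A x).mulVec v = v := by
    intro v hv x
    obtain ⟨i, hi⟩ := (Submonoid.mem_powers_iff _ _).1 (mem_powers_iff_mem_zpowers.2 (hy x))
    rw [← hi]
    clear hi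
    have h0 : (A 1).mulVec v = v := by
      conv_lhs => rw [← hv]
      rw [Matrix.mulVec_mulVec, hE1, hv]
    induction i with
    | zero => rw [pow_zero, h0]
    | succ i ih => rw [pow_succ, hA, ← Matrix.mulVec_mulVec, hv, ih]
  -- the relative trace
  have htr_fix : ∀ (c : Matrix (Fin n) (Fin n) k) (v : Fin n → k), (∀ x, (A x).mulVec v = v) →
      (∑ x : Q, A x * c * A x⁻¹).mulVec v = (∑ x : Q, A x).mulVec (c.mulVec v) := by
    intro c v hv
    rw [Matrix.sum_mulVec, Matrix.sum_mulVec]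
    refine Finset.sum_congr rfl fun x _ => ?_
    rw [← Matrix.mulVec_mulVec, hv, ← Matrix.mulVec_mulVec]
  have hpow : ∀ j : ℕ, ∃ c : Matrix (Fin n) (Fin n) k,
      π ^ j = (A 1 * g) ^ j - ∑ x : Q, A x * c * A x⁻¹ := by
    intro j
    induction j with
    | zero => exact ⟨0, by simp⟩
    | succ j ih =>
      obtain ⟨c, hc⟩ := ih
      refine ⟨b * (A 1 * g) ^ j + π * c, ?_⟩
      have hEg : ∀ x, A x * (A 1 * g) = (A 1 * g) * A x := by
        intro x
        rw [← mul_assoc, hE2, mul_assoc, ← hg, ← mul_assoc, hE1]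
      have hEgj : ∀ x, A x * (A 1 * g) ^ j = (A 1 * g) ^ j * A x := by
        intro x
        have hc' : Commute (A x) (A 1 * g) := hEg x
        exact (hc'.pow_right j).eq
      have e1 : ∑ x : Q, A x * (b * (A 1 * g) ^ j + π * c) * A x⁻¹ =
          (∑ x : Q, A x * b * A x⁻¹) * (A 1 * g) ^ j + π * ∑ x : Q, A x * c * A x⁻¹ := by
        rw [Finset.sum_mul, Finset.mul_sum, ← Finset.sum_add_distrib]
        refine Finset.sum_congr rfl fun x _ => ?_
        rw [mul_add, add_mul]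
        congr 1
        · rw [mul_assoc (A x * b), hEgj, mul_assoc, mul_assoc, mul_assoc]
        · rw [← mul_assoc (A x), hπ]
          simp only [mul_assoc]
      rw [e1, pow_succ', pow_succ' (A 1 * g), hc, mul_sub]
      have e2 : π * (A 1 * g) ^ j = (A 1 * g) * (A 1 * g) ^ j -
          (∑ x : Q, A x * b * A x⁻¹) * (A 1 * g) ^ j := by
        conv_lhs => rw [hf]
        rw [sub_mul]
      rw [e2]
      abel
  rcases hloc with ⟨j, hj⟩ | hunit
  · left
    refine ⟨j + 1, ?_⟩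
    intro v hv
    obtain ⟨c, hc⟩ := hpow (j + 1)
    have hz : (A 1 * g) ^ (j + 1) = 0 := by
      have hc' : Commute (A 1) g := hg 1
      rw [hc'.mul_pow, pow_succ g, hj, zero_mul, mul_zero]
    rw [hz, zero_sub] at hc
    refine ⟨(A 1).mulVec (-(c.mulVec v)), ?_, ?_⟩
    · rw [Matrix.mulVec_mulVec, hE1]
    · have e4 : ∀ u : Fin n → k, (∑ x : Q, A x).mulVec ((A 1).mulVec u) =
          (∑ x : Q, A x).mulVec u := fun u => by rw [Matrix.mulVec_mulVec, hN]
      rw [hc, Matrix.neg_mulVec, htr_fix c v (hfix v hv), e4, Matrix.mulVec_neg]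
  · right
    intro v hv hπv
    obtain ⟨u, hu⟩ := hunit
    set gi : Matrix (Fin n) (Fin n) k := ((u⁻¹ : (Matrix (Fin n) (Fin n) k)ˣ) :
      Matrix (Fin n) (Fin n) k) with hgi
    have hgig : gi * g = 1 := by rw [← hu, hgi, Units.inv_mul]
    have hggi : g * gi = 1 := by rw [← hu, hgi, Units.mul_inv]
    have hxgi : ∀ x, A x * gi = gi * A x := by
      intro x
      calc A x * gi = (gi * g) * (A x * gi) := by rw [hgig, one_mul]
        _ = gi * ((g * A x) * gi) := by simp only [Matrix.mul_assoc]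
        _ = gi * ((A x * g) * gi) := by rw [hg]
        _ = gi * A x * (g * gi) := by simp only [Matrix.mul_assoc]
        _ = _ := by rw [hggi, mul_one]
    have hNgi : (∑ x : Q, A x) * gi = gi * ∑ x : Q, A x := by
      rw [Finset.sum_mul, Finset.mul_sum]
      exact Finset.sum_congr rfl fun x _ => hxgi x
    have e1 : g.mulVec v = (∑ x : Q, A x).mulVec (b.mulVec v) := by
      have e3 : (A 1 * g).mulVec v - (∑ x : Q, A x * b * A x⁻¹).mulVec v = 0 := by
        rw [← Matrix.sub_mulVec, ← hf, hπv]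
      rw [hg, ← Matrix.mulVec_mulVec, hfix v hv 1, htr_fix b v (hfix v hv), sub_eq_zero] at e3
      exact e3
    refine ⟨(A 1).mulVec (gi.mulVec (b.mulVec v)), ?_, ?_⟩
    · rw [Matrix.mulVec_mulVec, hE1]
    · rw [Matrix.mulVec_mulVec, hN, Matrix.mulVec_mulVec, hNgi, ← Matrix.mulVec_mulVec, ← e1,
        Matrix.mulVec_mulVec, hgig, Matrix.one_mulVec]

/-- what commutes with a set commutes with its span -/
private theorem k35_span {k : Type} [Field k] {n : ℕ} {S : Set (Matrix (Fin n) (Fin n) k)}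
    {M : Matrix (Fin n) (Fin n) k} (hM : ∀ x ∈ S, x * M = M * x) {B : Matrix (Fin n) (Fin n) k}
    (hB : B ∈ Submodule.span k S) : B * M = M * B := by
  induction hB using Submodule.span_induction with
  | mem x hx => exact hM x hx
  | zero => rw [zero_mul, mul_zero]
  | add x y _ _ hx hy => rw [add_mul, mul_add, hx, hy]
  | smul a x _ hx => rw [Matrix.smul_mul, Matrix.mul_smul, hx]

/-- averaging over the normal complement -/
private theorem k35_avg {k : Type} [Field k] {K : Type} [Group K] [Finite K] {n : ℕ}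
    (ρ : K →* Matrix (Fin n) (Fin n) k) (Q H : Subgroup K)
    (hQH : Q ≤ Subgroup.normalizer (H : Set K)) (hcard : (Nat.card H : k) ≠ 0)
    (π f b : Matrix (Fin n) (Fin n) k) (hπ : ∀ h ∈ H, ρ h * π = π * ρ h)
    (hf : ∀ h ∈ H, ρ h * f = f * ρ h)
    (hb : π = f - ∑ᶠ x : Q, ρ (x : K) * b * ρ (x : K)⁻¹) :
    ∃ c : Matrix (Fin n) (Fin n) k, (∀ h ∈ H, ρ h * c = c * ρ h) ∧
      (∀ e : Matrix (Fin n) (Fin n) k, (∀ h ∈ H, ρ h * e = e * ρ h) → e * b = b → b * e = b →
        e * c = c ∧ c * e = c) ∧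
      π = f - ∑ᶠ x : Q, ρ (x : K) * c * ρ (x : K)⁻¹ := by
  classical
  have := Fintype.ofFinite Q
  have := Fintype.ofFinite H
  rw [finsum_eq_sum_of_fintype] at hb
  set D : Matrix (Fin n) (Fin n) k := ∑ h : H, ρ (h : K) * b * ρ (h : K)⁻¹ with hD
  have hinv : ∀ x : K, ρ x⁻¹ * ρ x = 1 := fun x => by rw [← map_mul, inv_mul_cancel, map_one]
  have hinv' : ∀ x : K, ρ x * ρ x⁻¹ = 1 := fun x => by rw [← map_mul, mul_inv_cancel, map_one]
  have hDH : ∀ h ∈ H, ρ h * D = D * ρ h := by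
    intro h hh
    rw [hD, Finset.mul_sum, Finset.sum_mul]
    refine Fintype.sum_equiv (Equiv.mulLeft (⟨h, hh⟩ : H)) _ _ ?_
    intro x
    have h1 : ((Equiv.mulLeft (⟨h, hh⟩ : H) x : H) : K) = h * x := rfl
    rw [h1, mul_inv_rev, map_mul, map_mul]
    calc ρ h * (ρ (x : K) * b * ρ (x : K)⁻¹) = ρ h * ρ (x : K) * b * (ρ (x : K)⁻¹ * 1) := by
          simp only [Matrix.mul_assoc, mul_one]
      _ = ρ h * ρ (x : K) * b * (ρ (x : K)⁻¹ * (ρ h⁻¹ * ρ h)) := by rw [hinv]
      _ = _ := by simp only [Matrix.mul_assoc]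
  have key : (Nat.card H : k) • π = (Nat.card H : k) • f - ∑ x : Q, ρ (x : K) * D * ρ (x : K)⁻¹ := by
    have e1 : ∀ h : H, π = f - ρ (h : K) * (∑ x : Q, ρ (x : K) * b * ρ (x : K)⁻¹) * ρ (h : K)⁻¹ := by
      intro h
      have e2 : π = ρ (h : K) * π * ρ (h : K)⁻¹ := by
        rw [hπ h h.2, mul_assoc, hinv', mul_one]
      have e3 : f = ρ (h : K) * f * ρ (h : K)⁻¹ := by
        rw [hf h h.2, mul_assoc, hinv', mul_one]
      conv_lhs => rw [e2, hb]
      rw [mul_sub, sub_mul, ← e3]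
    have e2 : (Nat.card H : k) • π = ∑ h : H, π := by
      rw [Finset.sum_const, Finset.card_univ, ← Nat.card_eq_fintype_card, Nat.cast_smul_eq_nsmul]
    have e3 : (Nat.card H : k) • f = ∑ h : H, f := by
      rw [Finset.sum_const, Finset.card_univ, ← Nat.card_eq_fintype_card, Nat.cast_smul_eq_nsmul]
    rw [e2, e3, Finset.sum_congr rfl (fun h _ => e1 h), Finset.sum_sub_distrib]
    congr 1
    have e4 : ∀ h : H, ρ (h : K) * (∑ x : Q, ρ (x : K) * b * ρ (x : K)⁻¹) * ρ (h : K)⁻¹ =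
        ∑ x : Q, ρ ((h : K) * x) * b * ρ ((h : K) * x)⁻¹ := by
      intro h
      rw [Finset.mul_sum, Finset.sum_mul]
      refine Finset.sum_congr rfl fun x _ => ?_
      rw [mul_inv_rev, map_mul, map_mul]
      simp only [Matrix.mul_assoc]
    rw [Finset.sum_congr rfl (fun h _ => e4 h), Finset.sum_comm]
    refine Finset.sum_congr rfl fun x _ => ?_
    rw [hD, Finset.mul_sum, Finset.sum_mul]
    have hxn := hQH x.2
    refine Fintype.sum_bijective
      (fun h : H => (⟨(x : K)⁻¹ * h * x, by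
        have h2 := (Subgroup.mem_normalizer_iff.1 ((Subgroup.normalizer (H : Set K)).inv_mem hxn)
          (h : K)).1 h.2
        rwa [inv_inv] at h2⟩ : H)) ?_ _ _ ?_
    · refine ⟨fun h h' he => ?_, fun h => ?_⟩
      · have h3 := congrArg Subtype.val he
        apply Subtype.ext
        have h4 : (x : K)⁻¹ * h * x = (x : K)⁻¹ * h' * x := h3
        exact mul_left_cancel (mul_right_cancel h4)
      · refine ⟨⟨(x : K) * h * (x : K)⁻¹, (Subgroup.mem_normalizer_iff.1 hxn (h : K)).1 h.2⟩, ?_⟩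
        apply Subtype.ext
        change (x : K)⁻¹ * ((x : K) * h * (x : K)⁻¹) * x = h
        group
    · intro h
      have h5 : (h : K) * x = x * ((x : K)⁻¹ * h * x) := by group
      change ρ ((h : K) * x) * b * ρ ((h : K) * x)⁻¹ =
        ρ (x : K) * (ρ ((x : K)⁻¹ * h * x) * b * ρ ((x : K)⁻¹ * h * x)⁻¹) * ρ (x : K)⁻¹
      rw [h5]
      generalize (x : K)⁻¹ * (h : K) * x = w
      rw [mul_inv_rev, map_mul, map_mul]
      simp only [Matrix.mul_assoc]
  clear_value D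
  refine ⟨(Nat.card H : k)⁻¹ • D, ?_, ?_, ?_⟩
  · intro h hh
    rw [Matrix.mul_smul, Matrix.smul_mul, hDH h hh]
  · intro e he heb hbe
    have hinvH : ∀ h : H, ρ (h : K)⁻¹ * e = e * ρ (h : K)⁻¹ := fun h => he _ (H.inv_mem h.2)
    constructor
    · rw [Matrix.mul_smul]
      congr 1
      rw [hD, Finset.mul_sum]
      refine Finset.sum_congr rfl fun h _ => ?_
      rw [← mul_assoc, ← mul_assoc, ← he h h.2, mul_assoc (ρ (h : K)), heb]
    · rw [Matrix.smul_mul]
      congr 1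
      rw [hD, Finset.sum_mul]
      refine Finset.sum_congr rfl fun h _ => ?_
      rw [mul_assoc, hinvH, ← mul_assoc, mul_assoc (ρ (h : K)) b e, hbe]
  · rw [finsum_eq_sum_of_fintype]
    have e5 : ∀ x : Q, ρ (x : K) * ((Nat.card H : k)⁻¹ • D) * ρ (x : K)⁻¹ =
        (Nat.card H : k)⁻¹ • (ρ (x : K) * D * ρ (x : K)⁻¹) := by
      intro x
      rw [Matrix.mul_smul, Matrix.smul_mul]
    rw [Finset.sum_congr rfl (fun x _ => e5 x), ← Finset.smul_sum]
    have e6 := congrArg (fun M => (Nat.card H : k)⁻¹ • M) key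
    simp only [smul_sub, smul_smul, inv_mul_cancel₀ hcard, one_smul] at e6
    exact e6

theorem key35 {p : ℕ} [Fact p.Prime] {K : Type} [Group K] [Finite K] {n d : ℕ}
    (R : K →* Matrix (Fin n) (Fin n) (OO p)) {Q Z H : Subgroup K}
    (hL : LocC p (⊤ : Subgroup K) Q Z H) (hLoc : LocalR R) {φ : K → ℂ} (hφ : φ ∈ Ca p Q H)
    {Φ : (Subgroup.normalizer (Z : Set K) ⊓ stab φ : Subgroup K) →*
      Matrix (Fin d) (Fin d) (OO p)}
    {s : Matrix (Fin d) (Fin d) (kk p) →ₗ[kk p] Matrix (Fin n) (Fin n) (kk p)}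
    {A : (Subgroup.normalizer (Z : Set K) ⊓ stab φ : Subgroup K) → Matrix (Fin n) (Fin n) (OO p)}
    (hW : WD R (Subgroup.normalizer (Z : Set K) ⊓ stab φ) Q H φ (Eph R H (rst H φ)) Φ s A)
    (hQT : Q ≤ Subgroup.normalizer (Z : Set K) ⊓ stab φ) {y : Q}
    (hy : ∀ x : Q, x ∈ Subgroup.zpowers y) (π : Matrix (Fin n) (Fin n) (kk p))
    (h1 : toK (Eph R H (rst H φ)) * π = π) (h2 : π * toK (Eph R H (rst H φ)) = π)
    (h3 : ∀ t ∈ Subgroup.normalizer (Z : Set K) ⊓ stab φ, toK (R t) * π = π * toK (R t)) :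
    (∃ j : ℕ, ∀ v : Fin n → kk p, (toK (A (Subgroup.inclusion hQT y))).mulVec v = v →
      ∃ w : Fin n → kk p, (toK (Eph R H (rst H φ))).mulVec w = w ∧
        (π ^ j).mulVec v = (∑ᶠ x : Q, toK (A (Subgroup.inclusion hQT x))).mulVec w) ∨
    (∀ v : Fin n → kk p, (toK (A (Subgroup.inclusion hQT y))).mulVec v = v →
      π.mulVec v = 0 → ∃ w : Fin n → kk p, (toK (Eph R H (rst H φ))).mulVec w = w ∧
        v = (∑ᶠ x : Q, toK (A (Subgroup.inclusion hQT x))).mulVec w) := by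
  classical
  have hφ' : rst H φ ∈ IrrS H := rst_H hL hφ.1
  obtain ⟨g, b, hg, heb, hbe, hf⟩ := keyK R hL hφ π h1 h2 h3
  set E := toK (Eph R H (rst H φ)) with hE
  have hHT : ∀ h ∈ H, h ∈ Subgroup.normalizer (Z : Set K) ⊓ stab φ := by
    intro h hh
    have h4 := hL.C_le_stab hφ.1.1 ((le_sup_right : H ≤ Q ⊔ H) hh)
    exact ⟨h4.1.2, h4.2⟩
  have hQH : Q ≤ Subgroup.normalizer (H : Set K) := fun x hx =>
    hL.norm_C ((le_sup_left : Q ≤ Q ⊔ H) hx)
  have hcard : (Nat.card H : kk p) ≠ 0 := by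
    rw [Ne, CharP.cast_eq_zero_iff (kk p) p]
    exact hL.pH
  have hρ : ∀ x, redR R x = toK (R x) := fun x => redR_apply R x
  have sE1 : ∀ B, E * s B = s B := fun B => by rw [hE, ← hW.s1, ← hW.smul, one_mul]
  have sE2 : ∀ B, s B * E = s B := fun B => by rw [hE, ← hW.s1, ← hW.smul, mul_one]
  have hTE : ∀ t (ht : t ∈ Subgroup.normalizer (Z : Set K) ⊓ stab φ),
      toK (R t) * E = E * toK (R t) := by
    intro t ht
    have h4 := hW.sR ⟨t, ht⟩ 1
    have h5 : toK (Φ ⟨t, ht⟩) * toK (Φ (⟨t, ht⟩ : (Subgroup.normalizer (Z : Set K) ⊓ stab φ :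
        Subgroup K))⁻¹) = 1 := by
      rw [← toK_mul, ← map_mul, mul_inv_cancel, map_one, toK_one]
    rw [mul_one, h5, hW.s1] at h4
    exact h4
  have hEg : ∀ h ∈ H, toK (R h) * (E * g) = (E * g) * toK (R h) := by
    intro h hh
    rw [← mul_assoc, hTE h (hHT h hh), mul_assoc, hg h, ← mul_assoc]
  obtain ⟨c, hcH, hce, hcf⟩ := k35_avg (redR R) Q H hQH hcard π (E * g) b
    (fun h hh => by rw [hρ]; exact h3 h (hHT h hh))
    (fun h hh => by rw [hρ]; exact hEg h hh) hf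
  obtain ⟨hec, hce'⟩ := hce E (fun h hh => by rw [hρ]; exact hTE h (hHT h hh)) heb hbe
  -- commuting with the matrices `s B`
  have hcomm : ∀ M : Matrix (Fin n) (Fin n) (kk p), (∀ h ∈ H, toK (R h) * M = M * toK (R h)) →
      ∀ B, s B * M = M * s B := by
    intro M hM B
    refine k35_span ?_ (hW.sspan B)
    rintro _ ⟨h, rfl⟩
    exact hM h h.2
  have hcs : ∀ B, s B * c = c * s B := hcomm c (fun h hh => by
    have := hcH h hh
    rwa [hρ] at this)
  have hπs : ∀ B, s B * π = π * s B := hcomm π (fun h hh => h3 h (hHT h hh))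
  have hgs : ∀ B, s B * g = g * s B := hcomm g (fun h _ => hg h)
  have hEg' : E * g = g * E := by
    have h4 := hgs 1
    rwa [hW.s1] at h4
  set A' : Q → Matrix (Fin n) (Fin n) (kk p) := fun x => toK (A (Subgroup.inclusion hQT x))
    with hA'
  have hA'1 : A' 1 = E := by
    change toK (A (Subgroup.inclusion hQT 1)) = E
    rw [map_one, hW.one]
  have hA'm : ∀ x x', A' (x * x') = A' x * A' x' := by
    intro x x'
    change toK (A (Subgroup.inclusion hQT (x * x'))) =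
      toK (A (Subgroup.inclusion hQT x)) * toK (A (Subgroup.inclusion hQT x'))
    rw [map_mul, hW.mul, toK_mul]
  have hEA : ∀ x, E * A' x = A' x := fun x => by rw [← hA'1, ← hA'm, one_mul]
  have hAE : ∀ x, A' x * E = A' x := fun x => by rw [← hA'1, ← hA'm, mul_one]
  have hsA : ∀ x B, A' x * s B = s B * A' x := fun x B => hW.sA (Subgroup.inclusion hQT x) B
  have hRE : ∀ x : Q, toK (R (x : K)) * E = s (toK (Φ (Subgroup.inclusion hQT x))) * A' x :=
    fun x => hW.RE (Subgroup.inclusion hQT x)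
  have hSS : ∀ x : Q, s (toK (Φ (Subgroup.inclusion hQT x⁻¹))) *
      s (toK (Φ (Subgroup.inclusion hQT x))) = E := by
    intro x
    rw [← hW.smul, ← toK_mul, ← map_mul, ← map_mul, inv_mul_cancel, map_one, map_one, toK_one,
      hW.s1]
  have hSS' : ∀ x : Q, s (toK (Φ (Subgroup.inclusion hQT x))) *
      s (toK (Φ (Subgroup.inclusion hQT x⁻¹))) = E := by
    intro x
    have h4 := hSS x⁻¹
    rwa [inv_inv] at h4
  have hAx : ∀ x : Q, A' x = s (toK (Φ (Subgroup.inclusion hQT x⁻¹))) * (toK (R (x : K)) * E) := by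
    intro x
    rw [hRE, ← mul_assoc, hSS, hEA]
  -- the matrices which commute with everything commute with `A'`
  have hAcomm : ∀ M : Matrix (Fin n) (Fin n) (kk p), (∀ B, s B * M = M * s B) →
      (∀ x : Q, toK (R (x : K)) * M = M * toK (R (x : K))) → E * M = M * E →
      ∀ x, A' x * M = M * A' x := by
    intro M hM1 hM2 hM3 x
    rw [hAx, mul_assoc, mul_assoc, hM3, ← mul_assoc (toK (R (x : K))), hM2, ← mul_assoc,
      ← mul_assoc, hM1]
    simp only [mul_assoc]
  have hconj : ∀ x : Q, redR R (x : K) * c * redR R (x : K)⁻¹ = A' x * c * A' x⁻¹ := by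
    intro x
    rw [hρ, hρ]
    have h4 : E * toK (R (x : K)⁻¹) = s (toK (Φ (Subgroup.inclusion hQT x⁻¹))) * A' x⁻¹ := by
      rw [← hTE _ (hQT (Q.inv_mem x.2))]
      exact hRE x⁻¹
    calc toK (R (x : K)) * c * toK (R (x : K)⁻¹)
        = (toK (R (x : K)) * E) * c * (E * toK (R (x : K)⁻¹)) := by
          have h5 : c = E * c * E := by rw [hec, hce']
          conv_lhs => rw [h5]
          simp only [mul_assoc]
      _ = (s (toK (Φ (Subgroup.inclusion hQT x))) * A' x) * c *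
            (s (toK (Φ (Subgroup.inclusion hQT x⁻¹))) * A' x⁻¹) := by rw [hRE, h4]
      _ = A' x * (s (toK (Φ (Subgroup.inclusion hQT x))) * c) *
            (s (toK (Φ (Subgroup.inclusion hQT x⁻¹))) * A' x⁻¹) := by
          rw [← hsA]
          simp only [mul_assoc]
      _ = A' x * c * ((s (toK (Φ (Subgroup.inclusion hQT x))) *
            s (toK (Φ (Subgroup.inclusion hQT x⁻¹)))) * A' x⁻¹) := by
          rw [hcs]
          simp only [mul_assoc]
      _ = A' x * c * A' x⁻¹ := by rw [hSS', hEA]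
  have hfin : π = A' 1 * g - ∑ᶠ x : Q, A' x * c * A' x⁻¹ := by
    rw [hA'1]
    conv_lhs => rw [hcf]
    congr 1
    exact finsum_congr hconj
  have hfinal := k35_core A' hA'm g c π
    (hAcomm g hgs (fun x => hg x) hEg')
    (hAcomm π hπs (fun x => h3 x (hQT x.2)) (by rw [h1, h2])) hfin
    (hLoc g (fun k => (hg k).symm)) hy
  rw [hA'1] at hfinal
  exact hfinal

end Pool.Agent.Helper42.CY
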