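import Pool.Agent.Helper42.CY.LocG
import Pool.Agent.Helper97.S4.Chr
import Pool.Agent.Helper97.S4.Act

/-!
# CY-04 (project CY): the linear characters `lift Q H lam` of `C = Q ⊔ H`

`Q` is cyclic, so commutative, and all irreducible characters of `Q` are linear (`irr_comm` of
Helper97/S4/F1a.lean, `cmx_comm_lin` and `cmx_sum_irr` of Helper42/IR/Cm.lean: the sum of all irreducible
characters of a finite commutative group at `x` is `|Q|` for `x = 1` and `0` otherwise; for `x = 1` this is the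
number of characters).

Every `g ∈ C` is `x * h` with unique `x ∈ Q`, `h ∈ H`, and `(x')⁻¹ * g ∈ H` for `x' ∈ Q` iff `x' = x`
(`H` is normal in `C`); so `lift Q H lam (x * h) = lam x`. `lift_mul`: `x h x' h' = x x' ((x')⁻¹ h x' h')`.
-/

namespace Pool.Agent.Helper42.CY

open Pool.Agent.Helper42.INC Pool.Agent.Helper42.IR Pool.Agent.Helper97.S4

section aux

variable {A : Type} [Group A] [Finite A]

/-- irreducible characters of commutative groups are linear -/
private lemma labx_comm_lin (hc : ∀ x y : A, x * y = y * x) {χ : A → ℂ} (h : χ ∈ Irr A) :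
    χ 1 = 1 ∧ ∀ x y, χ (x * y) = χ x * χ y := by
  classical
  have hA := Fintype.ofFinite A
  obtain ⟨n, hn, hn1⟩ := irr_one h
  have hBself := B_irr_self h
  obtain ⟨V, _, _, _, ρ, hρ, rfl⟩ := h
  have hfr : (Module.finrank ℂ V : ℂ) = n := by rw [← hn1, Representation.char_one]
  have hfr' : Module.finrank ℂ V = n := by exact_mod_cast hfr
  have hV : Nontrivial V := by
    apply Module.nontrivial_of_finrank_pos (R := ℂ)
    rw [hfr']; exact hn
  have hsc : ∀ g : A, ∃ c : ℂ, ρ g = c • (LinearMap.id : V →ₗ[ℂ] V) := by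
    intro g
    let F : Representation.IntertwiningMap ρ ρ := ⟨ρ g, fun h => by
      have h1 : ρ (g * h) = ρ (h * g) := by rw [hc]
      rw [map_mul, map_mul] at h1
      exact h1⟩
    obtain ⟨c, hcc⟩ :=
      (Representation.IsIrreducible.algebraMap_intertwiningMap_bijective_of_isAlgClosed
        (ρ := ρ)).2 F
    refine ⟨c, ?_⟩
    have : F.toLinearMap = c • LinearMap.id := by
      rw [← hcc]; rfl
    exact this
  choose c hcc using hsc
  have hid : (LinearMap.id : V →ₗ[ℂ] V) ≠ 0 := by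
    obtain ⟨v, hv⟩ := exists_ne (0 : V)
    intro h0
    exact hv (by simpa using LinearMap.congr_fun h0 v)
  have hinj : ∀ a b : ℂ, a • (LinearMap.id : V →ₗ[ℂ] V) = b • (LinearMap.id : V →ₗ[ℂ] V) →
      a = b := fun a b hab => smul_left_injective ℂ hid hab
  have hmul : ∀ x y, c (x * y) = c x * c y := by
    intro x y
    apply hinj
    rw [← hcc, map_mul, hcc x, hcc y]
    ext v
    simp only [Module.End.mul_apply, LinearMap.smul_apply, LinearMap.id_coe, id_eq, smul_smul]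
  have hone : c 1 = 1 := by
    apply hinj
    rw [← hcc, map_one, one_smul]
    rfl
  have hchar : ∀ x, ρ.character x = c x * n := by
    intro x
    unfold Representation.character
    rw [hcc x, map_smul, LinearMap.trace_id, smul_eq_mul, hfr]
  have hn2 : (n : ℂ) * n = 1 := by
    rw [B_eq] at hBself
    have h1 : ∀ x ∈ (Finset.univ : Finset A), ρ.character x * ρ.character x⁻¹ = (n : ℂ) * n := by
      intro x _
      rw [hchar, hchar]
      have h2 : c x * c x⁻¹ = 1 := by rw [← hmul, mul_inv_cancel, hone]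
      calc c x * (n : ℂ) * (c x⁻¹ * n) = (c x * c x⁻¹) * (n * n) := by ring
        _ = n * n := by rw [h2, one_mul]
    rw [Finset.sum_congr rfl h1, Finset.sum_const, Finset.card_univ, nsmul_eq_mul, ← mul_assoc,
      Nat.card_eq_fintype_card, inv_mul_cancel₀, one_mul] at hBself
    · exact hBself
    · exact_mod_cast Fintype.card_ne_zero
  have hn3 : n = 1 := by
    have : n * n = 1 := by exact_mod_cast hn2
    exact Nat.eq_one_of_mul_eq_one_right this
  subst hn3
  constructor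
  · rw [hn1]; simp
  · intro x y
    rw [hchar, hchar, hchar, hmul]
    simp

/-- the sum of the irreducible characters of a commutative group -/
private lemma labx_sum_irr (hc : ∀ x y : A, x * y = y * x) [Fintype (Irr A)] [DecidableEq A] (x : A) :
    ∑ χ : Irr A, χ.1 x = if x = 1 then (Nat.card A : ℂ) else 0 := by
  classical
  have := Fintype.ofFinite A
  set δ : A → ℂ := fun x => if x = 1 then (Nat.card A : ℂ) else 0 with hδ
  have hδc : IsClass δ := by
    intro g x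
    simp only [hδ, conj_eq_one_iff]
  have hB : ∀ χ ∈ Irr A, B δ χ = χ 1 := by
    intro χ _
    rw [B_eq, Finset.sum_eq_single 1]
    · simp only [hδ, if_true, inv_one]
      rw [← mul_assoc, inv_mul_cancel₀, one_mul]
      exact_mod_cast Nat.card_pos.ne'
    · intro x _ hx; simp only [hδ, if_neg hx]; simp
    · intro h; exact absurd (Finset.mem_univ _) h
  have h := congrFun (expand δ hδc) x
  simp only [Finset.sum_apply, Pi.smul_apply, smul_eq_mul] at h
  change _ = δ x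
  rw [h]
  apply Finset.sum_congr rfl
  intro χ _
  rw [hB χ.1 χ.2, (labx_comm_lin hc χ.2).1, one_mul]

/-- the trivial character is irreducible -/
private lemma labx_triv : (fun _ : A => (1 : ℂ)) ∈ Irr A := by
  classical
  have := Fintype.ofFinite A
  have htr : (fun _ : A => (1 : ℂ)) = (Representation.trivial ℂ A ℂ).character := by
    funext x
    unfold Representation.character
    have : (Representation.trivial ℂ A ℂ) x = LinearMap.id := by
      ext; simp
    rw [this, LinearMap.trace_id]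
    simp
  apply irr_of_norm_one
  · intro g x; rfl
  · intro χ hχ
    obtain ⟨V, _, _, _, ρ, hρ, rfl⟩ := hχ
    rw [htr]
    exact B_char _ _
  · rw [B_eq]
    simp only [mul_one, Finset.sum_const, Finset.card_univ, nsmul_eq_mul]
    rw [Nat.card_eq_fintype_card, inv_mul_cancel₀]
    exact_mod_cast Fintype.card_ne_zero

end aux

variable {G : Type} [Group G] [Finite G] {p : ℕ} [Fact p.Prime] {K Q Z H : Subgroup G}

omit [Finite G] in
private lemma labx_oneS {Q : Subgroup G} {x : G} (hx : x ∈ Q) : oneS Q x = 1 := by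
  unfold oneS
  rw [if_pos hx]

/-- conjugation as a permutation of a subgroup -/
private def labx_E {G : Type} [Group G] {Q : Subgroup G} {t : G}
    (hQ : t ∈ Subgroup.normalizer (Q : Set G)) : Q ≃ Q where
  toFun x := ⟨t⁻¹ * x * t, (Subgroup.mem_normalizer_iff''.1 hQ x).1 x.2⟩
  invFun x := ⟨t * x * t⁻¹, (Subgroup.mem_normalizer_iff.1 hQ x).1 x.2⟩
  left_inv := by
    intro x
    apply Subtype.ext
    change t * (t⁻¹ * x * t) * t⁻¹ = x
    group
  right_inv := by
    intro x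
    apply Subtype.ext
    change t⁻¹ * (t * x * t⁻¹) * t = x
    group

theorem lin_mul (hL : LocC p K Q Z H) {lam : G → ℂ} (hl : lam ∈ IrrS Q) :
    lam 1 = 1 ∧ (∀ x ∈ Q, ∀ y ∈ Q, lam (x * y) = lam x * lam y) ∧
      ∀ x ∈ Q, lam x ^ Nat.card Q = 1 := by
  have h := labx_comm_lin (A := Q) (fun x y => Subtype.ext (hL.commQ x.2 y.2)) hl.1
  have h1 : lam 1 = 1 := h.1
  have hm : ∀ x ∈ Q, ∀ y ∈ Q, lam (x * y) = lam x * lam y := by
    intro x hx y hy
    exact h.2 ⟨x, hx⟩ ⟨y, hy⟩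
  refine ⟨h1, hm, ?_⟩
  intro x hx
  have hp : ∀ k : ℕ, lam (x ^ k) = lam x ^ k := by
    intro k
    induction k with
    | zero => rw [pow_zero, pow_zero, h1]
    | succ k ih => rw [pow_succ, pow_succ, hm _ (Q.pow_mem hx k) _ hx, ih]
  rw [← hp]
  have h2 : (⟨x, hx⟩ : Q) ^ Nat.card Q = 1 := pow_card_eq_one'
  have h3 : x ^ Nat.card Q = 1 := congrArg Subtype.val h2
  rw [h3, h1]

theorem card_irrS (hL : LocC p K Q Z H) : Nat.card (IrrS Q) = Nat.card Q := by
  classical
  obtain ⟨e, -⟩ := exists_irrSEquiv Q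
  rw [Nat.card_congr e]
  have : Fintype (Irr Q) := Fintype.ofFinite _
  have h := sum_deg_sq (G := Q)
  have h1 : ∀ χ ∈ (Finset.univ : Finset (Irr Q)), (deg χ.1) ^ 2 = 1 := by
    intro χ _
    have h2 := (labx_comm_lin (A := Q) (fun x y => Subtype.ext (hL.commQ x.2 y.2)) χ.2).1
    have h3 : deg χ.1 = 1 := deg_eq (by rw [h2]; simp)
    rw [h3, one_pow]
  rw [Finset.sum_congr rfl h1, Finset.sum_const, Finset.card_univ, smul_eq_mul, mul_one] at h
  rw [Nat.card_eq_fintype_card]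
  exact h

/-- linear functions on `Q` are irreducible characters -/
theorem lin_mem (hL : LocC p K Q Z H) {f : G → ℂ} (h1 : f 1 = 1)
    (hm : ∀ x ∈ Q, ∀ y ∈ Q, f (x * y) = f x * f y) (h0 : ∀ x, x ∉ Q → f x = 0) :
    f ∈ IrrS Q := by
  classical
  let l0 : Q →* ℂ :=
    { toFun := fun x => f x
      map_one' := h1
      map_mul' := fun x y => hm x x.2 y y.2 }
  have h := irr_linTwist (MonoidHom.toHomUnits l0) (labx_triv (A := Q))
  refine ⟨?_, h0⟩
  have h2 : (fun h : Q => f h) =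
      (fun x => ((MonoidHom.toHomUnits l0 x : ℂˣ) : ℂ) * (fun _ : Q => (1 : ℂ)) x) := by
    funext x
    simp only [mul_one, MonoidHom.coe_toHomUnits]
    rfl
  rw [h2]
  exact h

/-- the product of two characters of `Q` and the inverse character -/
theorem lam_mul_mem (hL : LocC p K Q Z H) {lam mu : G → ℂ} (hl : lam ∈ IrrS Q) (hm : mu ∈ IrrS Q) :
    (fun x => lam x * mu x) ∈ IrrS Q := by
  obtain ⟨l1, lm, -⟩ := lin_mul hL hl
  obtain ⟨m1, mm, -⟩ := lin_mul hL hm
  refine lin_mem hL ?_ ?_ ?_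
  · simp only [l1, m1, mul_one]
  · intro x hx y hy
    simp only [lm x hx y hy, mm x hx y hy]
    ring
  · intro x hx
    simp only [hl.2 x hx, zero_mul]

theorem lam_inv_mem (hL : LocC p K Q Z H) {lam : G → ℂ} (hl : lam ∈ IrrS Q) :
    (fun x => (lam x)⁻¹) ∈ IrrS Q ∧ ∀ x ∈ Q, lam x * (lam x)⁻¹ = 1 := by
  obtain ⟨l1, lm, lp⟩ := lin_mul hL hl
  refine ⟨lin_mem hL ?_ ?_ ?_, ?_⟩
  · simp only [l1, inv_one]
  · intro x hx y hy
    simp only [lm x hx y hy, mul_inv]
  · intro x hx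
    simp only [hl.2 x hx, inv_zero]
  · intro x hx
    apply mul_inv_cancel₀
    intro h0
    have h1 := lp x hx
    rw [h0, zero_pow Nat.card_pos.ne'] at h1
    exact zero_ne_one h1

theorem sum_irrS (hL : LocC p K Q Z H) {x : G} (hx : x ∈ Q) (h1 : x ≠ 1) :
    ∑ᶠ lam : IrrS Q, lam.1 x = 0 := by
  classical
  obtain ⟨e, he⟩ := exists_irrSEquiv Q
  have : Fintype (Irr Q) := Fintype.ofFinite _
  have hs := labx_sum_irr (A := Q) (fun x y => Subtype.ext (hL.commQ x.2 y.2)) ⟨x, hx⟩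
  rw [if_neg (fun h => h1 (congrArg Subtype.val h))] at hs
  rw [← finsum_comp_equiv e.symm, finsum_eq_sum_of_fintype, ← hs]
  apply Finset.sum_congr rfl
  intro l _
  have h2 := congrFun (he (e.symm l)) ⟨x, hx⟩
  rw [Equiv.apply_symm_apply] at h2
  exact h2.symm

/-- orthogonality: the sum of the values of a nontrivial character -/
theorem sum_lam (hL : LocC p K Q Z H) {lam : G → ℂ} (hl : lam ∈ IrrS Q) (h1 : lam ≠ oneS Q) :
    ∑ᶠ x : Q, lam (x : G)⁻¹ = 0 := by
  classical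
  obtain ⟨hl1, hlm, -⟩ := lin_mul hL hl
  have := Fintype.ofFinite Q
  obtain ⟨q, hq, hq1⟩ : ∃ q ∈ Q, lam q ≠ 1 := by
    by_contra hcon
    push Not at hcon
    apply h1
    funext q
    by_cases hq : q ∈ Q
    · rw [labx_oneS hq, hcon q hq]
    · rw [hl.2 q hq, (Pool.Agent.Helper97.S4.oneS_mem Q).2 q hq]
  rw [finsum_eq_sum_of_fintype]
  have h2 : lam q * ∑ x : Q, lam (x : G)⁻¹ = ∑ x : Q, lam (x : G)⁻¹ := by
    rw [Finset.mul_sum]
    rw [← Equiv.sum_comp (Equiv.mulRight (⟨q, hq⟩ : Q)) (fun x : Q => lam q * lam (x : G)⁻¹)]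
    refine Finset.sum_congr rfl fun x _ => ?_
    change lam q * lam ((x : G) * q)⁻¹ = lam (x : G)⁻¹
    have h3 : ((x : G) * q)⁻¹ = q⁻¹ * (x : G)⁻¹ := mul_inv_rev _ _
    rw [h3, ← hlm _ hq _ (Q.mul_mem (Q.inv_mem hq) (Q.inv_mem x.2)), mul_inv_cancel_left]
  have h4 : (lam q - 1) * ∑ x : Q, lam (x : G)⁻¹ = 0 := by
    rw [sub_mul, one_mul, h2, sub_self]
  rcases mul_eq_zero.1 h4 with h5 | h5
  · exact absurd (sub_eq_zero.1 h5) hq1
  · exact h5

theorem lift_apply (hL : LocC p K Q Z H) (lam : G → ℂ) {x h : G} (hx : x ∈ Q) (hh : h ∈ H) :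
    lift Q H lam (x * h) = lam x := by
  unfold lift
  rw [finsum_eq_single _ (⟨x, hx⟩ : Q)]
  · rw [inv_mul_cancel_left, if_pos hh]
  · intro y hy
    rw [if_neg]
    intro h2
    have h3 : (y : G)⁻¹ * x ∈ H := by
      have h5 := H.mul_mem h2 (H.inv_mem hh)
      have e : (y : G)⁻¹ * (x * h) * h⁻¹ = (y : G)⁻¹ * x := by group
      rwa [e] at h5
    have h4 := hL.disj (Q.mul_mem (Q.inv_mem y.2) hx) h3
    apply hy
    apply Subtype.ext
    exact (inv_mul_eq_one.1 h4)

theorem lift_Q (hL : LocC p K Q Z H) (lam : G → ℂ) {x : G} (hx : x ∈ Q) :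
    lift Q H lam x = lam x := by
  have h := lift_apply hL lam hx H.one_mem
  rwa [mul_one] at h

theorem lift_off (hL : LocC p K Q Z H) (lam : G → ℂ) {g : G} (hg : g ∉ Q ⊔ H) :
    lift Q H lam g = 0 := by
  unfold lift
  apply finsum_eq_zero_of_forall_eq_zero
  intro x
  rw [if_neg]
  intro h3
  apply hg
  rw [hL.mem_sup]
  exact ⟨x, x.2, _, h3, by group⟩

theorem lift_H (hL : LocC p K Q Z H) {lam : G → ℂ} (hl : lam ∈ IrrS Q) {h : G} (hh : h ∈ H) :
    lift Q H lam h = 1 := by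
  have h1 := lift_apply hL lam Q.one_mem hh
  rw [one_mul] at h1
  rw [h1, (lin_mul hL hl).1]

theorem lift_mul (hL : LocC p K Q Z H) {lam : G → ℂ} (hl : lam ∈ IrrS Q) {g g' : G}
    (hg : g ∈ Q ⊔ H) (hg' : g' ∈ Q ⊔ H) :
    lift Q H lam (g * g') = lift Q H lam g * lift Q H lam g' := by
  obtain ⟨-, lm, -⟩ := lin_mul hL hl
  obtain ⟨x, hx, h, hh, rfl⟩ := hL.mem_sup.1 hg
  obtain ⟨x', hx', h', hh', rfl⟩ := hL.mem_sup.1 hg'
  have hn : x'⁻¹ * h * x' ∈ H := by
    have h1 := hL.norm_C (g := x') (Subgroup.mem_sup_left hx')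
    exact (Subgroup.mem_normalizer_iff''.1 h1 h).1 hh
  have e : x * h * (x' * h') = (x * x') * ((x'⁻¹ * h * x') * h') := by group
  rw [e, lift_apply hL lam (Q.mul_mem hx hx') (H.mul_mem hn hh'), lift_apply hL lam hx hh,
    lift_apply hL lam hx' hh', lm x hx x' hx']

theorem lift_ne (hL : LocC p K Q Z H) {lam : G → ℂ} (hl : lam ∈ IrrS Q) {g : G}
    (hg : g ∈ Q ⊔ H) : lift Q H lam g ≠ 0 ∧ lift Q H lam g⁻¹ = (lift Q H lam g)⁻¹ := by
  have h1 : lift Q H lam g * lift Q H lam g⁻¹ = 1 := by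
    rw [← lift_mul hL hl hg (Subgroup.inv_mem _ hg), mul_inv_cancel]
    exact lift_H hL hl H.one_mem
  refine ⟨left_ne_zero_of_mul_eq_one h1, ?_⟩
  exact eq_inv_of_mul_eq_one_right h1

theorem lift_oneS (hL : LocC p K Q Z H) {g : G} (hg : g ∈ Q ⊔ H) : lift Q H (oneS Q) g = 1 := by
  obtain ⟨x, hx, h, hh, rfl⟩ := hL.mem_sup.1 hg
  rw [lift_apply hL _ hx hh, labx_oneS hx]

/-- `lift` is multiplicative in the character -/
theorem lift_mul_lam (hL : LocC p K Q Z H) (lam mu : G → ℂ) (g : G) :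
    lift Q H (fun x => lam x * mu x) g = lift Q H lam g * lift Q H mu g := by
  by_cases hg : g ∈ Q ⊔ H
  · obtain ⟨x, hx, h, hh, rfl⟩ := hL.mem_sup.1 hg
    rw [lift_apply hL _ hx hh, lift_apply hL _ hx hh, lift_apply hL _ hx hh]
  · rw [lift_off hL _ hg, lift_off hL _ hg, zero_mul]

theorem lift_inj (hL : LocC p K Q Z H) {lam mu : G → ℂ} (hl : lam ∈ IrrS Q) (hm : mu ∈ IrrS Q)
    (h : ∀ x ∈ Q, lift Q H lam x = lift Q H mu x) : lam = mu := by
  funext x
  by_cases hx : x ∈ Q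
  · have h1 := h x hx
    rwa [lift_Q hL lam hx, lift_Q hL mu hx] at h1
  · rw [hl.2 x hx, hm.2 x hx]

/-- the lifts are class functions under `C` -/
theorem lift_conj (hL : LocC p K Q Z H) {lam : G → ℂ} (hl : lam ∈ IrrS Q) {c : G}
    (hc : c ∈ Q ⊔ H) : cnj c (lift Q H lam) = lift Q H lam := by
  funext g
  rw [cnj_apply]
  by_cases hg : g ∈ Q ⊔ H
  · have hci := Subgroup.inv_mem _ hc
    rw [lift_mul hL hl (Subgroup.mul_mem _ hci hg) hc, lift_mul hL hl hci hg]
    have h1 : lift Q H lam c⁻¹ * lift Q H lam c = 1 := by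
      rw [← lift_mul hL hl hci hc, inv_mul_cancel]
      exact lift_H hL hl H.one_mem
    calc lift Q H lam c⁻¹ * lift Q H lam g * lift Q H lam c
        = (lift Q H lam c⁻¹ * lift Q H lam c) * lift Q H lam g := by ring
      _ = lift Q H lam g := by rw [h1, one_mul]
  · rw [lift_off hL _ hg, lift_off hL]
    intro h1
    apply hg
    have h2 := Subgroup.mul_mem _ (Subgroup.mul_mem _ hc h1) (Subgroup.inv_mem _ hc)
    have e : c * (c⁻¹ * g * c) * c⁻¹ = g := by group
    rwa [e] at h2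

theorem cnj_lift (hL : LocC p K Q Z H) {a : G} (haQ : a ∈ Subgroup.normalizer (Q : Set G))
    (haH : a ∈ Subgroup.normalizer (H : Set G)) (lam : G → ℂ) :
    cnj a (lift Q H lam) = lift Q H (cnj a lam) := by
  classical
  funext g
  change ∑ᶠ x : Q, (if (x : G)⁻¹ * (a⁻¹ * g * a) ∈ H then lam (x : G) else 0) =
    ∑ᶠ x : Q, (if (x : G)⁻¹ * g ∈ H then lam (a⁻¹ * x * a) else 0)
  rw [← finsum_comp_equiv (labx_E haQ)]
  apply finsum_congr
  intro x
  change (if (a⁻¹ * (x : G) * a)⁻¹ * (a⁻¹ * g * a) ∈ H then lam (a⁻¹ * x * a) else 0) = _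
  have e : (a⁻¹ * (x : G) * a)⁻¹ * (a⁻¹ * g * a) = a⁻¹ * ((x : G)⁻¹ * g) * a := by group
  rw [e]
  have h1 : a⁻¹ * ((x : G)⁻¹ * g) * a ∈ H ↔ (x : G)⁻¹ * g ∈ H :=
    (Subgroup.mem_normalizer_iff''.1 haH _).symm
  by_cases h2 : (x : G)⁻¹ * g ∈ H
  · rw [if_pos h2, if_pos (h1.2 h2)]
  · rw [if_neg h2, if_neg (fun h3 => h2 (h1.1 h3))]

/-- the sum of all lifts: `|Q|` on `H` and `0` on `C \ H` -/
theorem sum_lift (hL : LocC p K Q Z H) {g : G} (hg : g ∈ Q ⊔ H) :
    (g ∈ H → ∑ᶠ lam : IrrS Q, lift Q H lam.1 g = (Nat.card Q : ℂ)) ∧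
      (g ∉ H → ∑ᶠ lam : IrrS Q, lift Q H lam.1 g = 0) := by
  classical
  constructor
  · intro hH
    have h1 : ∀ lam : IrrS Q, lift Q H lam.1 g = 1 := fun lam => lift_H hL lam.2 hH
    rw [finsum_congr h1]
    have := (irrS_finite Q).fintype
    rw [finsum_eq_sum_of_fintype, Finset.sum_const, Finset.card_univ, nsmul_eq_mul, mul_one,
      ← Nat.card_eq_fintype_card, card_irrS hL]
  · intro hH
    obtain ⟨x, hx, h, hh, rfl⟩ := hL.mem_sup.1 hg
    have hx1 : x ≠ 1 := by
      rintro rfl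
      rw [one_mul] at hH
      exact hH hh
    have h1 : ∀ lam : IrrS Q, lift Q H lam.1 (x * h) = lam.1 x :=
      fun lam => lift_apply hL lam.1 hx hh
    rw [finsum_congr h1]
    exact sum_irrS hL hx hx1

/-- The stabilizer of a nontrivial label: if `a = c b` normalizes `K` and `Z` and fixes
`lift Q H lam`, `lam ≠ oneS Q`, then it centralizes `Z`. For `a` normalizing `Q`: with `Q = ⟨y⟩`,
`a⁻¹ y a = y ^ c`, `lam (y) = lam (y) ^ c`, and `lam y` has order `p ^ k`, `k ≥ 1`, so `c ≡ 1` modulo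
`p` and `a` centralizes `Z = ⟨y ^ (q/p)⟩`. -/
theorem stab_lam (hL : LocC p K Q Z H) {lam : G → ℂ} (hl : lam ∈ IrrS Q) (h1 : lam ≠ oneS Q)
    {a : G} (haQ : a ∈ Subgroup.normalizer (Q : Set G)) (ha : cnj a lam = lam) :
    a ∈ Subgroup.centralizer (Z : Set G) := by
  classical
  obtain ⟨hl1, hlm, hlp⟩ := lin_mul hL hl
  obtain ⟨k, hk2, hk⟩ := hL.cQ
  have hpp : p.Prime := Fact.out
  let l0 : Q →* ℂ :=
    { toFun := fun x => lam x
      map_one' := hl1
      map_mul' := fun x y => hlm x x.2 y y.2 }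
  let l : Q →* ℂˣ := MonoidHom.toHomUnits l0
  have hl0 : ∀ x : Q, ((l x : ℂˣ) : ℂ) = lam x := fun x => rfl
  obtain ⟨y, hy⟩ := hL.cyc.exists_generator
  have hay : a⁻¹ * (y : G) * a ∈ Q := (Subgroup.mem_normalizer_iff''.1 haQ y).1 y.2
  obtain ⟨c, hc⟩ := Subgroup.mem_zpowers_iff.1 (hy ⟨_, hay⟩)
  have hc' : a⁻¹ * (y : G) * a = (y : G) ^ c :=
    (congrArg Subtype.val hc).symm.trans (Subgroup.coe_zpow Q y c)
  have hly : l ⟨_, hay⟩ = l y := by
    apply Units.ext
    rw [hl0, hl0]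
    exact congrFun ha y
  have hu : (l y) ^ (c - 1) = 1 := by
    rw [zpow_sub_one, ← map_zpow, hc, hly, mul_inv_cancel]
  have hu2 : (l y) ^ ((p ^ k : ℕ) : ℤ) = 1 := by
    rw [zpow_natCast, ← hk]
    apply Units.ext
    rw [Units.val_pow_eq_pow_val, hl0, Units.val_one]
    exact hlp y y.2
  have hpc : (p : ℤ) ∣ c - 1 := by
    by_contra hnd
    apply h1
    have hcop : IsCoprime (c - 1) ((p ^ k : ℕ) : ℤ) := by
      push_cast
      apply IsCoprime.pow_right
      exact ((Nat.prime_iff_prime_int.1 hpp).coprime_iff_not_dvd.2 hnd).symm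
    have hu1 : l y = 1 := by
      obtain ⟨s, t, hst⟩ := hcop
      have h2 : (l y) ^ (s * (c - 1) + t * ((p ^ k : ℕ) : ℤ)) = 1 := by
        rw [zpow_add, mul_comm s, mul_comm t, zpow_mul, zpow_mul, hu, hu2, one_zpow, one_zpow,
          one_mul]
      rwa [hst, zpow_one] at h2
    funext x
    by_cases hx : x ∈ Q
    · rw [labx_oneS hx]
      obtain ⟨j, hj⟩ := Subgroup.mem_zpowers_iff.1 (hy ⟨x, hx⟩)
      have h3 : l ⟨x, hx⟩ = 1 := by rw [← hj, map_zpow, hu1, one_zpow]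
      have h4 := congrArg Units.val h3
      rw [hl0] at h4
      exact h4
    · rw [hl.2 x hx, (Pool.Agent.Helper97.S4.oneS_mem Q).2 x hx]
  rw [Subgroup.mem_centralizer_iff]
  intro z hz
  have hzQ : z ∈ Q := hL.ZQ hz
  have hzp : z ^ p = 1 := by
    have h2 : (⟨z, hz⟩ : Z) ^ Nat.card Z = 1 := pow_card_eq_one'
    rw [hL.cZ] at h2
    exact congrArg Subtype.val h2
  obtain ⟨j, hj⟩ := Subgroup.mem_zpowers_iff.1 (hy ⟨z, hzQ⟩)
  have hj' : (y : G) ^ j = z := (Subgroup.coe_zpow Q y j).symm.trans (congrArg Subtype.val hj)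
  have h5 : a⁻¹ * z * a = z := by
    have e1 : a⁻¹ * z * a = (a⁻¹ * (y : G) * a) ^ j := by
      rw [← hj']
      have := conj_zpow (i := j) (a := a⁻¹) (b := (y : G))
      rw [inv_inv] at this
      exact this.symm
    rw [e1, hc', ← zpow_mul, mul_comm, zpow_mul, hj']
    obtain ⟨w, hw⟩ := hpc
    have e2 : c = (p : ℤ) * w + 1 := by linarith
    rw [e2, zpow_add, zpow_mul, zpow_natCast, hzp, one_zpow, one_mul, zpow_one]
  calc z * a = a * (a⁻¹ * z * a) := by group
    _ = a * z := by rw [h5]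

/-- the projection of `C = Q ⊔ H` onto `Q` with kernel `H` -/
theorem exists_projQ (hL : LocC p K Q Z H) : ∃ π : (Q ⊔ H : Subgroup G) →* Q,
    (∀ g : (Q ⊔ H : Subgroup G), π g = 1 ↔ (g : G) ∈ H) ∧
      ∀ g : (Q ⊔ H : Subgroup G), ((π g : Q) : G)⁻¹ * (g : G) ∈ H := by
  classical
  have hch : ∀ g : (Q ⊔ H : Subgroup G), ∃ x : Q, (x : G)⁻¹ * (g : G) ∈ H := by
    intro g
    obtain ⟨x, hx, h, hh, he⟩ := hL.mem_sup.1 g.2
    refine ⟨⟨x, hx⟩, ?_⟩
    rw [he]
    change x⁻¹ * (x * h) ∈ H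
    rwa [inv_mul_cancel_left]
  choose f hf using hch
  have hun : ∀ (g : (Q ⊔ H : Subgroup G)) (x : Q), (x : G)⁻¹ * (g : G) ∈ H → f g = x := by
    intro g x hx
    apply Subtype.ext
    exact (hL.mul_inj (f g).2 x.2 (hf g) hx (by group)).1
  refine ⟨{ toFun := f, map_one' := ?_, map_mul' := ?_ }, ?_, ?_⟩
  · apply hun
    simp
  · intro g g'
    apply hun
    have h1 := hf g
    have h2 := hf g'
    have h3 := (Subgroup.mem_normalizer_iff''.1
      (hL.norm_C (g := (f g' : G)) (Subgroup.mem_sup_left (f g').2)) _).1 h1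
    have h4 := H.mul_mem h3 h2
    have e : (f g' : G)⁻¹ * ((f g : G)⁻¹ * (g : G)) * (f g' : G) * ((f g' : G)⁻¹ * (g' : G)) =
        ((f g * f g' : Q) : G)⁻¹ * ((g * g' : (Q ⊔ H : Subgroup G)) : G) := by
      rw [Subgroup.coe_mul, Subgroup.coe_mul]
      group
    rwa [e] at h4
  · intro g
    change f g = 1 ↔ _
    constructor
    · intro h1
      have h2 := hf g
      rw [h1] at h2
      simpa using h2
    · intro h1
      apply hun
      simpa using h1
  · intro g
    exact hf g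

theorem exists_ne_oneS (hL : LocC p K Q Z H) : ∃ lam ∈ IrrS Q, lam ≠ oneS Q := by
  classical
  by_contra hcon
  push Not at hcon
  have hs : Subsingleton (IrrS Q) := by
    constructor
    rintro ⟨x, hx⟩ ⟨y, hy⟩
    apply Subtype.ext
    change x = y
    rw [hcon x hx, hcon y hy]
  obtain ⟨k, hk2, hk⟩ := hL.cQ
  have h1 : Nat.card (IrrS Q) ≤ 1 := Finite.card_le_one_iff_subsingleton.2 hs
  rw [card_irrS hL, hk] at h1
  have hpp : p.Prime := Fact.out
  have h2 : 1 < p ^ k := Nat.one_lt_pow (by omega) hpp.one_lt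
  omega

end Pool.Agent.Helper42.CY
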