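import Pool.Agent.Helper42.CY.Defs
import Pool.Agent.Helper97.S4.LocA

/-!
# CY-01 (project CY): elementary group theory of `LocC p K Q Z H`

`C = Q ⊔ H = K ⊓ centralizer Z`, `H` is normal in `C` of order prime to `p`, `Q` is cyclic of order
`p ^ a`. Compare Helper97/S4/LocA.lean and Helper42/IR/LocFacts.lean.

* `commQ`: cyclic groups are commutative. `disj`: the orders of `Q` and `H` are coprime.
* `mem_sup`: `Q ≤ C ≤ normalizer H`, so `Q H` is a subgroup. `mul_inj`: `y⁻¹ x = k h⁻¹ ∈ Q ⊓ H`.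
* `mem_H_iff`: `H` is normal in `C` with `C / H` of order a power of `p` (`(x h) ^ |Q| ∈ H`, since modulo `H`
  it is `x ^ |Q| = 1`). If `g ∈ C` has order `m` prime to `p` then `g ^ |Q| ∈ H` and `g` is a power of
  `g ^ |Q|`.
* `mem_Z`: every `g ∈ C` with `g ^ p = 1` is in `Z`: `Z` is central in `C`, the subgroup generated by
  `Z` and `g` is a `p`-group of exponent `p`; it meets `H` trivially, so it embeds in `C / H ≅ Q`, which
  is cyclic, so it has order at most `p`, and it contains `Z`.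
* `pow_Z`: `x ∈ C`, `x ∉ H`: by `mem_H_iff`, `p ∣ orderOf x`; `z = x ^ (orderOf x / p)` has order `p`, so
  `z ∈ Z` and `z ≠ 1`.
* `norm_H`: the set of elements of `C` of order prime to `p` is stable under `a`.
* `normQ_Z`: `Z` is the set of the `x ∈ Q` with `x ^ p = 1`.
-/

namespace Pool.Agent.Helper42.CY

open Pool.Agent.Helper42.INC Pool.Agent.Helper42.IR Pool.Agent.Helper97.S4

variable {G : Type} [Group G] [Finite G] {p : ℕ} [Fact p.Prime] {K Q Z H : Subgroup G}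

theorem LocC.commQ (hL : LocC p K Q Z H) {x y : G} (hx : x ∈ Q) (hy : y ∈ Q) : x * y = y * x := by
  have hc : IsCyclic Q := hL.cyc
  have h1 : (⟨x, hx⟩ : Q) * ⟨y, hy⟩ = ⟨y, hy⟩ * ⟨x, hx⟩ := by
    let _ := IsCyclic.commGroup (α := Q)
    exact mul_comm _ _
  exact congrArg Subtype.val h1

theorem LocC.ndvd (hL : LocC p K Q Z H) : (Nat.card Q).Coprime (Nat.card H) := by
  have hp : p.Prime := Fact.out
  obtain ⟨a, _, ha⟩ := hL.cQ
  rw [ha]
  exact Nat.Coprime.pow_left a ((Nat.Prime.coprime_iff_not_dvd hp).2 hL.pH)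

theorem LocC.disj (hL : LocC p K Q Z H) {x : G} (hx : x ∈ Q) (hh : x ∈ H) : x = 1 := by
  have h1 : orderOf x ∣ Nat.card Q := Subgroup.orderOf_dvd_natCard Q hx
  have h2 : orderOf x ∣ Nat.card H := Subgroup.orderOf_dvd_natCard H hh
  exact orderOf_eq_one_iff.1 (Nat.eq_one_of_dvd_coprimes (LocC.ndvd hL) h1 h2)

theorem LocC.QC (hL : LocC p K Q Z H) : Q ≤ K ⊓ Subgroup.centralizer (Z : Set G) := by
  rw [← hL.sup]
  exact le_sup_left

theorem LocC.HK (hL : LocC p K Q Z H) : H ≤ K := by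
  exact hL.HC.trans inf_le_left

/-- elements of `Q ⊔ H` normalize `H` -/
theorem LocC.norm_C (hL : LocC p K Q Z H) {g : G} (hg : g ∈ Q ⊔ H) :
    g ∈ Subgroup.normalizer (H : Set G) := by
  rw [hL.sup] at hg
  exact hL.nH hg

theorem LocC.mem_sup (hL : LocC p K Q Z H) {g : G} : g ∈ Q ⊔ H ↔ ∃ x ∈ Q, ∃ h ∈ H, g = x * h := by
  constructor
  · intro hg
    have hn : ∀ x ∈ Q, ∀ h ∈ H, x * h * x⁻¹ ∈ H := fun x hx h hh =>
      (Subgroup.mem_normalizer_iff.1 (LocC.norm_C hL (Subgroup.mem_sup_left hx)) h).1 hh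
    let T : Subgroup G :=
      { carrier := {g | ∃ x ∈ Q, ∃ h ∈ H, g = x * h}
        one_mem' := ⟨1, Q.one_mem, 1, H.one_mem, (one_mul 1).symm⟩
        mul_mem' := by
          rintro a b ⟨x, hx, h, hh, rfl⟩ ⟨y, hy, k, hk, rfl⟩
          refine ⟨x * y, Q.mul_mem hx hy, y⁻¹ * h * y⁻¹⁻¹ * k,
            H.mul_mem (hn _ (Q.inv_mem hy) h hh) hk, ?_⟩
          group
        inv_mem' := by
          rintro a ⟨x, hx, h, hh, rfl⟩
          refine ⟨x⁻¹, Q.inv_mem hx, x * h⁻¹ * x⁻¹, hn x hx _ (H.inv_mem hh), ?_⟩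
          group }
    have hT : Q ⊔ H ≤ T := by
      apply _root_.sup_le
      · intro x hx
        exact ⟨x, hx, 1, H.one_mem, (mul_one x).symm⟩
      · intro h hh
        exact ⟨1, Q.one_mem, h, hh, (one_mul h).symm⟩
    exact hT hg
  · rintro ⟨x, hx, h, hh, rfl⟩
    exact Subgroup.mul_mem _ (Subgroup.mem_sup_left hx) (Subgroup.mem_sup_right hh)

theorem LocC.mul_inj (hL : LocC p K Q Z H) {x y h k : G} (hx : x ∈ Q) (hy : y ∈ Q) (hh : h ∈ H)
    (hk : k ∈ H) (he : x * h = y * k) : x = y ∧ h = k := by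
  have h1 : y⁻¹ * x = k * h⁻¹ := by
    rw [inv_mul_eq_iff_eq_mul, ← mul_assoc, eq_mul_inv_iff_mul_eq]
    exact he
  have h2 : y⁻¹ * x = 1 := LocC.disj hL (Q.mul_mem (Q.inv_mem hy) hx) (by
    rw [h1]
    exact H.mul_mem hk (H.inv_mem hh))
  have h3 : x = y := by
    rw [inv_mul_eq_one] at h2
    exact h2.symm
  refine ⟨h3, ?_⟩
  rw [h3] at he
  exact mul_left_cancel he

theorem LocC.card_C (hL : LocC p K Q Z H) :
    Nat.card (Q ⊔ H : Subgroup G) = Nat.card Q * Nat.card H := by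
  let f : Q × H → (Q ⊔ H : Subgroup G) := fun z =>
    ⟨(z.1 : G) * (z.2 : G), (LocC.mem_sup hL).2 ⟨z.1, z.1.2, z.2, z.2.2, rfl⟩⟩
  have hf : Function.Bijective f := by
    constructor
    · rintro ⟨a, b⟩ ⟨c, d⟩ he
      have he' : (a : G) * (b : G) = (c : G) * (d : G) := congrArg Subtype.val he
      obtain ⟨h1, h2⟩ := LocC.mul_inj hL a.2 c.2 b.2 d.2 he'
      exact Prod.ext (Subtype.ext h1) (Subtype.ext h2)
    · rintro ⟨g, hg⟩
      obtain ⟨x, hx, h, hh, rfl⟩ := (LocC.mem_sup hL).1 hg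
      exact ⟨(⟨x, hx⟩, ⟨h, hh⟩), rfl⟩
  rw [← Nat.card_congr (Equiv.ofBijective f hf), Nat.card_prod]

/-- the powers of `x * k` are in `x ^ n * H` -/
private theorem LocC.pow_aux (hL : LocC p K Q Z H) {x k : G} (hx : x ∈ Q) (hk : k ∈ H) (n : ℕ) :
    ∃ k' ∈ H, (x * k) ^ n = x ^ n * k' := by
  induction n with
  | zero => exact ⟨1, H.one_mem, by simp⟩
  | succ n ih =>
    obtain ⟨k', hk', he⟩ := ih
    have h1 : x⁻¹ * k' * x⁻¹⁻¹ ∈ H :=
      (Subgroup.mem_normalizer_iff.1 (LocC.norm_C hL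
        (Subgroup.mem_sup_left (Q.inv_mem hx))) k').1 hk'
    refine ⟨x⁻¹ * k' * x⁻¹⁻¹ * k, H.mul_mem h1 hk, ?_⟩
    rw [pow_succ, he, pow_succ]
    group

/-- the elements of `Q` killed by `p` -/
private theorem LocC.mem_Z_aux (hL : LocC p K Q Z H) {x : G} (hx : x ∈ Q) (h : x ^ p = 1) :
    x ∈ Z := by
  classical
  have hp : p.Prime := Fact.out
  haveI : IsCyclic Q := hL.cyc
  haveI : Fintype Q := Fintype.ofFinite Q
  have h1 := IsCyclic.card_pow_eq_one_le (α := Q) hp.pos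
  let B : Finset Q := Finset.univ.filter fun a : Q => (a : G) ∈ Z
  have hB : B.card = p := by
    have h2 : Nat.card (Z.subgroupOf Q) = p :=
      (Nat.card_congr (Subgroup.subgroupOfEquivOfLe hL.ZQ).toEquiv).trans hL.cZ
    rw [← h2]
    rw [Nat.card_eq_fintype_card, Fintype.card_subtype]
    exact congrArg Finset.card (Finset.filter_congr fun a _ => Subgroup.mem_subgroupOf.symm)
  have hsub : B ⊆ Finset.univ.filter fun a : Q => a ^ p = 1 := by
    intro a ha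
    rw [Finset.mem_filter] at ha ⊢
    refine ⟨Finset.mem_univ _, ?_⟩
    have h3 : (⟨(a : G), ha.2⟩ : Z) ^ Nat.card Z = 1 := pow_card_eq_one'
    rw [hL.cZ] at h3
    have h5 : (a : G) ^ p = 1 := congrArg Subtype.val h3
    exact Subtype.ext h5
  have heq := Finset.eq_of_subset_of_card_le hsub (by rw [hB]; exact h1)
  have h4 : (⟨x, hx⟩ : Q) ∈ Finset.univ.filter fun a : Q => a ^ p = 1 := by
    rw [Finset.mem_filter]
    exact ⟨Finset.mem_univ _, Subtype.ext h⟩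
  rw [← heq, Finset.mem_filter] at h4
  exact h4.2

private theorem LocC.conj_aux {K Z : Subgroup G} {a h : G}
    (haK : a ∈ Subgroup.normalizer (K : Set G)) (haZ : a ∈ Subgroup.normalizer (Z : Set G)) :
    h ∈ K ⊓ Subgroup.centralizer (Z : Set G) ↔
      a * h * a⁻¹ ∈ K ⊓ Subgroup.centralizer (Z : Set G) := by
  rw [Subgroup.mem_inf, Subgroup.mem_inf]
  have h1 : h ∈ K ↔ a * h * a⁻¹ ∈ K := Subgroup.mem_normalizer_iff.mp haK h
  have h2 : h ∈ Subgroup.centralizer (Z : Set G) ↔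
      a * h * a⁻¹ ∈ Subgroup.centralizer (Z : Set G) := by
    rw [Subgroup.mem_centralizer_iff, Subgroup.mem_centralizer_iff]
    constructor
    · intro hh x hx
      have hx' : a⁻¹ * x * a ∈ (Z : Set G) := (Subgroup.mem_normalizer_iff''.mp haZ x).mp hx
      have e := hh _ hx'
      calc x * (a * h * a⁻¹) = a * ((a⁻¹ * x * a) * h) * a⁻¹ := by group
        _ = a * (h * (a⁻¹ * x * a)) * a⁻¹ := by rw [e]
        _ = a * h * a⁻¹ * x := by group
    · intro hh x hx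
      have hx' : a * x * a⁻¹ ∈ (Z : Set G) := (Subgroup.mem_normalizer_iff.mp haZ x).mp hx
      have e := hh _ hx'
      calc x * h = a⁻¹ * ((a * x * a⁻¹) * (a * h * a⁻¹)) * a := by group
        _ = a⁻¹ * ((a * h * a⁻¹) * (a * x * a⁻¹)) * a := by rw [e]
        _ = h * x := by group
  rw [h1, h2]

theorem LocC.mem_H_iff (hL : LocC p K Q Z H) {h : G} :
    h ∈ H ↔ h ∈ Q ⊔ H ∧ ¬ p ∣ orderOf h := by
  have hp : p.Prime := Fact.out
  constructor
  · intro hh
    exact ⟨Subgroup.mem_sup_right hh, fun hd => hL.pH (hd.trans (Subgroup.orderOf_dvd_natCard H hh))⟩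
  · rintro ⟨h1, h2⟩
    obtain ⟨x, hx, k, hk, rfl⟩ := (LocC.mem_sup hL).1 h1
    obtain ⟨k', hk', he⟩ := LocC.pow_aux hL hx hk (Nat.card Q)
    have hx1 : x ^ Nat.card Q = 1 := by
      have h3 : (⟨x, hx⟩ : Q) ^ Nat.card Q = 1 := pow_card_eq_one'
      exact congrArg Subtype.val h3
    rw [hx1, one_mul] at he
    obtain ⟨a, _, ha⟩ := hL.cQ
    have hcop : (Nat.card Q).Coprime (orderOf (x * k)) := by
      rw [ha]
      exact Nat.Coprime.pow_left a ((Nat.Prime.coprime_iff_not_dvd hp).2 h2)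
    obtain ⟨m, hm⟩ := exists_pow_eq_self_of_coprime hcop
    rw [← hm, he]
    exact H.pow_mem hk' m

/-- `Z` is central in `Q ⊔ H` -/
theorem LocC.central (hL : LocC p K Q Z H) {z g : G} (hz : z ∈ Z) (hg : g ∈ Q ⊔ H) :
    z * g = g * z := by
  rw [hL.sup] at hg
  exact Subgroup.mem_centralizer_iff.1 hg.2 z hz

theorem LocC.mem_Z (hL : LocC p K Q Z H) {g : G} (hg : g ∈ Q ⊔ H) (h : g ^ p = 1) : g ∈ Z := by
  have hp : p.Prime := Fact.out
  obtain ⟨x, hx, k, hk, rfl⟩ := (LocC.mem_sup hL).1 hg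
  obtain ⟨k', hk', he⟩ := LocC.pow_aux hL hx hk p
  rw [h] at he
  have h1 : x ^ p = 1 := by
    refine LocC.disj hL (Q.pow_mem hx p) ?_
    have h2 : x ^ p = k'⁻¹ := eq_inv_of_mul_eq_one_left he.symm
    rw [h2]
    exact H.inv_mem hk'
  have h2 : x ∈ Z := LocC.mem_Z_aux hL hx h1
  have h3 : Commute x k := LocC.central hL h2 (Subgroup.mem_sup_right hk)
  have h4 : k ^ p = 1 := by
    rw [h3.mul_pow, h1, one_mul] at h
    exact h
  have h5 : k = 1 := by
    have h6 : Nat.Coprime p (Nat.card H) := (Nat.Prime.coprime_iff_not_dvd hp).2 hL.pH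
    exact orderOf_eq_one_iff.1 (Nat.eq_one_of_dvd_coprimes h6 (orderOf_dvd_of_pow_eq_one h4)
      (Subgroup.orderOf_dvd_natCard H hk))
  rw [h5, mul_one]
  exact h2

theorem LocC.pow_Z (hL : LocC p K Q Z H) {x : G} (hx : x ∈ Q ⊔ H) (hxH : x ∉ H) :
    ∃ i : ℕ, x ^ i ∈ Z ∧ x ^ i ≠ 1 := by
  have hp : p.Prime := Fact.out
  have h1 : p ∣ orderOf x := by
    by_contra hcon
    exact hxH ((LocC.mem_H_iff hL).2 ⟨hx, hcon⟩)
  obtain ⟨m, hm⟩ := h1
  have h0 : 0 < orderOf x := orderOf_pos x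
  have hm0 : 0 < m := by
    rcases Nat.eq_zero_or_pos m with h | h
    · rw [h, mul_zero] at hm
      omega
    · exact h
  refine ⟨m, ?_, ?_⟩
  · apply LocC.mem_Z hL (Subgroup.pow_mem _ hx m)
    rw [← pow_mul, mul_comm, ← hm, pow_orderOf_eq_one]
  · apply pow_ne_one_of_lt_orderOf hm0.ne'
    rw [hm]
    have h2 := hp.two_le
    nlinarith

theorem LocC.norm_H (hL : LocC p K Q Z H) {a : G} (haK : a ∈ Subgroup.normalizer (K : Set G))
    (haZ : a ∈ Subgroup.normalizer (Z : Set G)) : a ∈ Subgroup.normalizer (H : Set G) := by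
  rw [Subgroup.mem_normalizer_iff]
  intro h
  change h ∈ H ↔ a * h * a⁻¹ ∈ H
  rw [LocC.mem_H_iff hL, LocC.mem_H_iff hL, hL.sup]
  have ho : orderOf (a * h * a⁻¹) = orderOf h := by
    have := (MulAut.conj a).orderOf_eq h
    simpa [MulAut.conj_apply] using this
  rw [ho, ← LocC.conj_aux haK haZ]

theorem LocC.norm_H' (hL : LocC p K Q Z H) {a : G} (ha : a ∈ NN K Z) :
    a ∈ Subgroup.normalizer (H : Set G) := by
  exact LocC.norm_H hL (Subgroup.le_normalizer ha.1) ha.2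

/-- `Q ⊔ H` is normalized by `normalizer K ⊓ normalizer Z` -/
theorem LocC.norm_sup (hL : LocC p K Q Z H) {a : G} (haK : a ∈ Subgroup.normalizer (K : Set G))
    (haZ : a ∈ Subgroup.normalizer (Z : Set G)) :
    a ∈ Subgroup.normalizer ((Q ⊔ H : Subgroup G) : Set G) := by
  rw [Subgroup.mem_normalizer_iff]
  intro h
  change h ∈ Q ⊔ H ↔ a * h * a⁻¹ ∈ Q ⊔ H
  rw [hL.sup]
  exact LocC.conj_aux haK haZ

theorem LocC.sup_le (hL : LocC p K Q Z H) : Q ⊔ H ≤ NN K Z := by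
  rw [hL.sup]
  intro g hg
  exact ⟨hg.1, Subgroup.centralizer_le_normalizer _ hg.2⟩

theorem LocC.normQ_Z (hL : LocC p K Q Z H) {a : G} (ha : a ∈ Subgroup.normalizer (Q : Set G)) :
    a ∈ Subgroup.normalizer (Z : Set G) := by
  have hZ : ∀ x : G, x ∈ Z ↔ x ∈ Q ∧ x ^ p = 1 := by
    intro x
    constructor
    · intro hx
      refine ⟨hL.ZQ hx, ?_⟩
      have h3 : (⟨x, hx⟩ : Z) ^ Nat.card Z = 1 := pow_card_eq_one'
      rw [hL.cZ] at h3
      exact congrArg Subtype.val h3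
    · rintro ⟨h1, h2⟩
      exact LocC.mem_Z_aux hL h1 h2
  rw [Subgroup.mem_normalizer_iff]
  intro h
  change h ∈ Z ↔ a * h * a⁻¹ ∈ Z
  rw [hZ, hZ]
  have h1 : h ∈ Q ↔ a * h * a⁻¹ ∈ Q := Subgroup.mem_normalizer_iff.1 ha h
  have h2 : h ^ p = 1 ↔ (a * h * a⁻¹) ^ p = 1 := by
    rw [conj_pow]
    constructor
    · intro h3
      rw [h3]
      group
    · intro h3
      have h4 : a⁻¹ * (a * h ^ p * a⁻¹) * a = h ^ p := by group
      rw [← h4, h3]
      group
  rw [← h1, ← h2]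

theorem LocC.NNQ_le (hL : LocC p K Q Z H) : NN K Q ≤ NN K Z := by
  intro g hg
  exact ⟨hg.1, LocC.normQ_Z hL hg.2⟩

/-- the local subgroup of the local subgroup for `Q` -/
theorem LocC.NN_Q (hL : LocC p K Q Z H) : NN (NN K Z) Q = NN K Q := by
  apply le_antisymm
  · intro g hg
    exact ⟨hg.1.1, hg.2⟩
  · intro g hg
    exact ⟨⟨hg.1, LocC.normQ_Z hL hg.2⟩, hg.2⟩

/-- the local subgroup has the same local structure -/
theorem LocC.nn (hL : LocC p K Q Z H) : LocC p (NN K Z) Q Z H := by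
  have hCN : Subgroup.centralizer (Z : Set G) ≤ Subgroup.normalizer (Z : Set G) :=
    Subgroup.centralizer_le_normalizer _
  have he : NN K Z ⊓ Subgroup.centralizer (Z : Set G) = K ⊓ Subgroup.centralizer (Z : Set G) := by
    unfold NN
    rw [inf_assoc, inf_eq_right.mpr hCN]
  have hQN : Q ≤ NN K Z := le_trans le_sup_left (LocC.sup_le hL)
  have hNK : NN K Z ≤ K := inf_le_left
  refine ⟨hQN, hL.cyc, hL.cQ, ?_, hL.ZQ, hL.cZ, ?_, ?_, hL.pH, ?_⟩
  · intro hd
    apply hL.syl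
    rw [← Subgroup.relIndex_mul_relIndex Q (NN K Z) K hQN hNK]
    exact Dvd.dvd.mul_right hd _
  · rw [he]
    exact hL.HC
  · rw [he]
    exact hL.nH
  · rw [he]
    exact hL.sup

/-- `H` is determined by `K` and `Z` -/
theorem LocC.unique_H {H' : Subgroup G} (hL : LocC p K Q Z H) (hL' : LocC p K Q Z H') :
    H = H' := by
  ext h
  rw [LocC.mem_H_iff hL, LocC.mem_H_iff hL', hL.sup, hL'.sup]

end Pool.Agent.Helper42.CY
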