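import Pool.Agent.Helper42.IR.MatUnits

/-!
# CY-17 (project CY): matrix units in the group ring of a `p'`-group, over `OO p` and over the residue
field

The same as `exists_s` of Helper42/IR/MatUnits.lean, whose proof first treats `OO p`; only the statement
over `OO p`, the trace formula and the compatibility of both versions are new.
`S B = (d/|H|) ∑_{h ∈ H} tr(B Φ(h⁻¹)) R(h)` (`d/|H| ∈ OO p` by `inv_nat_mem`), `s B` the same formula with
`toK` applied to `Φ` and `R`.
-/

namespace Pool.Agent.Helper42.CY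

open Pool.Agent.Helper42.INC Pool.Agent.Helper42.IR

variable {p : ℕ} [Fact p.Prime]

private lemma mo_gen {A : Type} [CommRing A] {K : Type} [Group K] {n d : ℕ}
    (R : K →* Matrix (Fin n) (Fin n) A) {H X : Subgroup K} [Fintype H]
    (hHX : H ≤ X) (hXH : X ≤ Subgroup.normalizer (H : Set K))
    (Φ : X →* Matrix (Fin d) (Fin d) A) (c : A)
    (hrel : ∀ M Y : Matrix (Fin d) (Fin d) A,
      c * ∑ h : H, (M * Φ (Subgroup.inclusion hHX h⁻¹)).trace *
        (Y * Φ (Subgroup.inclusion hHX h)).trace = (M * Y).trace) :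
    ∃ S : Matrix (Fin d) (Fin d) A →ₗ[A] Matrix (Fin n) (Fin n) A,
      (∀ B, S B = c • ∑ h : H, (B * Φ (Subgroup.inclusion hHX h⁻¹)).trace • R (h : K)) ∧
      (∀ B B', S (B * B') = S B * S B') ∧
      (∀ (x : X) (B : Matrix (Fin d) (Fin d) A),
        R x * S B = S (Φ x * B * Φ x⁻¹) * R x) ∧
      (∀ h : X, (h : K) ∈ H → R h * S 1 = S (Φ h)) ∧
      ∀ B, S B ∈ Submodule.span A (Set.range fun h : H => R (h : K)) := by
  classical
  set ι := Subgroup.inclusion hHX with hι
  let Ψ : H →* Matrix (Fin d) (Fin d) A := Φ.comp ι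
  have hrel' : ∀ M Y : Matrix (Fin d) (Fin d) A,
      c * ∑ h : H, (M * Ψ h⁻¹).trace * (Y * Ψ h).trace = (M * Y).trace := hrel
  let s : Matrix (Fin d) (Fin d) A →ₗ[A] Matrix (Fin n) (Fin n) A :=
    { toFun := fun B => c • ∑ h : H, (B * Ψ h⁻¹).trace • R (h : K)
      map_add' := by
        intro B B'
        rw [← smul_add, ← Finset.sum_add_distrib]
        congr 1
        refine Finset.sum_congr rfl fun h _ => ?_
        rw [add_mul, Matrix.trace_add, add_smul]
      map_smul' := by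
        intro a B
        rw [RingHom.id_apply, smul_comm a c]
        congr 1
        rw [Finset.smul_sum]
        refine Finset.sum_congr rfl fun h _ => ?_
        rw [Matrix.smul_mul, Matrix.trace_smul, smul_assoc] }
  have hs : ∀ B, s B = c • ∑ h : H, (B * Ψ h⁻¹).trace • R (h : K) := fun B => rfl
  have hKone : ∀ x : X, Φ x⁻¹ * Φ x = 1 := by
    intro x
    rw [← map_mul, inv_mul_cancel, map_one]
  refine ⟨s, fun B => rfl, ?_, ?_, ?_, ?_⟩
  · -- multiplicativity
    intro B B'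
    rw [hs B, hs B', Matrix.smul_mul, Matrix.mul_smul, Finset.sum_mul_sum, hs (B * B')]
    congr 1
    have h1 : ∀ i : H, ∑ j : H, ((B * Ψ i⁻¹).trace • R (i : K)) *
        ((B' * Ψ j⁻¹).trace • R (j : K)) =
        ∑ m : H, ((B * Ψ i⁻¹).trace * ((B' * Ψ m⁻¹) * Ψ i).trace) • R (m : K) := by
      intro i
      refine Fintype.sum_equiv (Equiv.mulLeft i) _ _ ?_
      intro j
      have e1 : (((Equiv.mulLeft i j : H)) : K) = i * j := rfl
      have e2 : (Equiv.mulLeft i j : H)⁻¹ = j⁻¹ * i⁻¹ := by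
        change (i * j)⁻¹ = j⁻¹ * i⁻¹
        rw [mul_inv_rev]
      rw [e1, e2, map_mul, map_mul, Matrix.smul_mul, Matrix.mul_smul, smul_smul]
      congr 2
      rw [mul_assoc, mul_assoc, ← map_mul, inv_mul_cancel, map_one, mul_one]
    rw [Finset.sum_congr rfl fun i _ => h1 i, Finset.sum_comm, Finset.smul_sum]
    refine Finset.sum_congr rfl fun m _ => ?_
    rw [← Finset.sum_smul, ← smul_assoc, smul_eq_mul, hrel', mul_assoc]
  · -- conjugation
    intro x B
    rw [hs B, hs, Matrix.mul_smul, Matrix.smul_mul, Finset.mul_sum, Finset.sum_mul]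
    congr 1
    have hn := Subgroup.mem_normalizer_iff.1 (hXH x.2)
    let e : H ≃ H :=
      { toFun := fun h => ⟨(x : K) * h * (x : K)⁻¹, (hn h).1 h.2⟩
        invFun := fun h => ⟨(x : K)⁻¹ * h * x, (hn _).2 (by
          have : (x : K) * ((x : K)⁻¹ * (h : K) * x) * (x : K)⁻¹ = h := by group
          rw [this]
          exact h.2)⟩
        left_inv := fun h => by
          apply Subtype.ext
          change (x : K)⁻¹ * ((x : K) * (h : K) * (x : K)⁻¹) * x = h
          group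
        right_inv := fun h => by
          apply Subtype.ext
          change (x : K) * ((x : K)⁻¹ * (h : K) * x) * (x : K)⁻¹ = h
          group }
    refine Fintype.sum_equiv e _ _ ?_
    intro h
    have e1 : ((e h : H) : K) = x * h * (x : K)⁻¹ := rfl
    have e2 : ι (e h)⁻¹ = x * ι h⁻¹ * x⁻¹ := by
      apply Subtype.ext
      change ((x : K) * (h : K) * (x : K)⁻¹)⁻¹ = (x : K) * (h : K)⁻¹ * (x : K)⁻¹
      group
    have e3 : Ψ (e h)⁻¹ = Φ x * Ψ h⁻¹ * Φ x⁻¹ := by
      change Φ (ι (e h)⁻¹) = _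
      rw [e2, map_mul, map_mul]
      rfl
    rw [e1, e3, Matrix.mul_smul, Matrix.smul_mul, ← map_mul, ← map_mul]
    congr 1
    · calc (B * Ψ h⁻¹).trace
          = (B * Ψ h⁻¹ * (Φ x⁻¹ * Φ x)).trace := by rw [hKone, mul_one]
        _ = (Φ x * (B * Ψ h⁻¹ * Φ x⁻¹)).trace := by
            rw [← mul_assoc, Matrix.trace_mul_comm]
        _ = (Φ x * B * (Φ x⁻¹ * Φ x) * Ψ h⁻¹ * Φ x⁻¹).trace := by
            rw [hKone, mul_one]; simp only [mul_assoc]
        _ = (Φ x * B * Φ x⁻¹ * (Φ x * Ψ h⁻¹ * Φ x⁻¹)).trace := by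
            simp only [mul_assoc]
    · have e5 : (x : K) * (h : K) = x * h * (x : K)⁻¹ * x := by group
      rw [← e5]
  · -- left multiplication
    intro h0 hh0
    rw [hs 1, hs, Matrix.mul_smul, Finset.mul_sum]
    congr 1
    let g0 : H := ⟨(h0 : K), hh0⟩
    refine Fintype.sum_equiv (Equiv.mulLeft g0) _ _ ?_
    intro h
    have e1 : (((Equiv.mulLeft g0 h : H)) : K) = h0 * h := rfl
    have e2 : (Equiv.mulLeft g0 h : H)⁻¹ = h⁻¹ * g0⁻¹ := by
      change (g0 * h)⁻¹ = h⁻¹ * g0⁻¹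
      rw [mul_inv_rev]
    have e4 : Ψ g0⁻¹ = Φ h0⁻¹ := rfl
    rw [e1, e2, map_mul Ψ, e4, Matrix.mul_smul, ← map_mul]
    congr 1
    rw [one_mul, Matrix.trace_mul_comm (Φ h0), mul_assoc, hKone, mul_one]
  · intro B
    rw [hs B]
    refine Submodule.smul_mem _ _ (Submodule.sum_mem _ fun h _ => Submodule.smul_mem _ _ ?_)
    exact Submodule.subset_span ⟨h, rfl⟩

private lemma mo_surj {n : ℕ} (A : Matrix (Fin n) (Fin n) (kk p)) :
    ∃ A' : Matrix (Fin n) (Fin n) (OO p), toK A' = A := by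
  choose f hf using fun i j => IsLocalRing.residue_surjective (A i j)
  exact ⟨Matrix.of f, by ext i j; exact hf i j⟩

theorem exists_sO {K : Type} [Group K] [Finite K] {n d : ℕ}
    (R : K →* Matrix (Fin n) (Fin n) (OO p)) {H X : Subgroup K} (hH : ¬ p ∣ Nat.card H)
    (hHX : H ≤ X) (hXH : X ≤ Subgroup.normalizer (H : Set K)) {φ : K → ℂ} (hφ : φ ∈ IrrS H)
    (Φ : X →* Matrix (Fin d) (Fin d) (OO p))
    (hΦ : ∀ h : X, (h : K) ∈ H → (((Φ h).trace : OO p) : ℂ) = φ h) :
    ∃ (S : Matrix (Fin d) (Fin d) (OO p) →ₗ[OO p] Matrix (Fin n) (Fin n) (OO p))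
      (s : Matrix (Fin d) (Fin d) (kk p) →ₗ[kk p] Matrix (Fin n) (Fin n) (kk p)),
      S 1 = Eph R H φ ∧ (∀ B B', S (B * B') = S B * S B') ∧
      (∀ (x : X) (B : Matrix (Fin d) (Fin d) (OO p)),
        R x * S B = S (Φ x * B * Φ x⁻¹) * R x) ∧
      (∀ h : X, (h : K) ∈ H → R h * S 1 = S (Φ h)) ∧
      (∀ (B : Matrix (Fin d) (Fin d) (OO p)) (M : Matrix (Fin n) (Fin n) (OO p)),
        (((S B * M).trace : OO p) : ℂ) = (d : ℂ) * (Nat.card H : ℂ)⁻¹ *
          ∑ᶠ h : H, (((B * Φ ⟨(h : K)⁻¹, X.inv_mem (hHX h.2)⟩).trace : OO p) : ℂ) *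
            (((R (h : K) * M).trace : OO p) : ℂ)) ∧
      (∀ B, s (toK B) = toK (S B)) ∧ (∀ B B', s (B * B') = s B * s B') ∧
      (∀ (x : X) (B : Matrix (Fin d) (Fin d) (kk p)),
        toK (R x) * s B = s (toK (Φ x) * B * toK (Φ x⁻¹)) * toK (R x)) ∧
      ∀ B, s B ∈ Submodule.span (kk p) (Set.range fun h : H => toK (R (h : K))) := by
  classical
  let _ : Fintype H := Fintype.ofFinite H
  -- the restriction of `Φ` to `H`
  let ι : H →* X := Subgroup.inclusion hHX
  let Ψ : H →* Matrix (Fin d) (Fin d) (OO p) := Φ.comp ι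
  have hchR : chR Ψ = fun h : H => φ h := by
    funext h
    exact hΦ (ι h) h.2
  have hSch : SchurR Ψ := schurR_of_mem Ψ (by rw [hchR]; exact hφ.1)
  -- the scalar
  have hu : IsUnit ((Nat.card H : ℕ) : OO p) := isUnit_nat hH
  obtain ⟨v, hv⟩ := hu.exists_right_inv
  -- Schur relation over `OO p`
  have hrel : ∀ A' Y' : Matrix (Fin d) (Fin d) (OO p),
      ((d : OO p) * v) * ∑ h : H, (A' * Ψ h⁻¹).trace * (Y' * Ψ h).trace = (A' * Y').trace := by
    intro A' Y'
    have h1 := schur_rel Ψ hSch A' Y'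
    rw [finsum_eq_sum_of_fintype] at h1
    calc ((d : OO p) * v) * ∑ h : H, (A' * Ψ h⁻¹).trace * (Y' * Ψ h).trace
        = v * ((d : OO p) * ∑ h : H, (A' * Ψ h⁻¹).trace * (Y' * Ψ h).trace) := by ring
      _ = (((Nat.card H : ℕ) : OO p) * v) * (A' * Y').trace := by rw [h1]; ring
      _ = (A' * Y').trace := by rw [hv, one_mul]
  -- Schur relation over the residue field
  let c : kk p := IsLocalRing.residue (OO p) ((d : OO p) * v)
  have hrelK : ∀ A Y : Matrix (Fin d) (Fin d) (kk p),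
      c * ∑ h : H, (A * toK (Ψ h⁻¹)).trace * (Y * toK (Ψ h)).trace = (A * Y).trace := by
    intro A Y
    obtain ⟨A', rfl⟩ := mo_surj A
    obtain ⟨Y', rfl⟩ := mo_surj Y
    have h3 := congrArg (IsLocalRing.residue (OO p)) (hrel A' Y')
    rw [map_mul, map_sum] at h3
    simp only [map_mul, ← trace_toK, toK_mul] at h3
    exact h3
  let RK : K →* Matrix (Fin n) (Fin n) (kk p) :=
    { toFun := fun g => toK (R g)
      map_one' := by rw [map_one, toK_one]
      map_mul' := fun g h => by rw [map_mul, toK_mul] }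
  let ΦK : X →* Matrix (Fin d) (Fin d) (kk p) :=
    { toFun := fun g => toK (Φ g)
      map_one' := by rw [map_one, toK_one]
      map_mul' := fun g h => by rw [map_mul, toK_mul] }
  obtain ⟨S, S0, S1, S2, S3, -⟩ := mo_gen R hHX hXH Φ ((d : OO p) * v) hrel
  obtain ⟨s, s0, s1, s2, -, s4⟩ := mo_gen RK hHX hXH ΦK c hrelK
  have hd' : φ 1 = d := by
    have h3 := hΦ 1 H.one_mem
    rw [map_one, Matrix.trace_one, Fintype.card_fin] at h3
    have h4 : (((1 : X) : K)) = 1 := rfl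
    rw [h4] at h3
    rw [← h3]
    simp
  have hd : (deg φ : ℂ) = d := by
    rw [deg_eq hd']
  have hv' : (Nat.card H : ℂ)⁻¹ = (v : ℂ) := by
    have h2 := congrArg (Subtype.val : OO p → ℂ) hv
    have h3 : (Nat.card H : ℂ) * (v : ℂ) = 1 := by simpa using h2
    exact inv_eq_of_mul_eq_one_right h3
  have hdv : (((d : OO p) * v : OO p) : ℂ) = (d : ℂ) * (Nat.card H : ℂ)⁻¹ := by
    rw [hv']
    simp
  refine ⟨S, s, ?_, S1, S2, S3, ?_, ?_, s1, s2, s4⟩
  · -- `S 1`
    apply toC_inj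
    rw [toC_Eph R H hH hφ, finsum_eq_sum_of_fintype, S0 1, toC_smul, toC_sum, hdv, hd]
    congr 1
    refine Finset.sum_congr rfl fun h _ => ?_
    rw [toC_smul, one_mul]
    congr 1
    exact hΦ (ι h⁻¹) (h⁻¹).2
  · -- traces
    intro B M
    rw [finsum_eq_sum_of_fintype, S0 B, Matrix.smul_mul, Matrix.trace_smul, smul_eq_mul,
      Finset.sum_mul, Matrix.trace_sum]
    have e0 : ∀ a b : OO p, ((a * b : OO p) : ℂ) = (a : ℂ) * (b : ℂ) := fun a b => rfl
    rw [e0, hdv]
    congr 1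
    refine (map_sum (OO p).subtype _ _).trans ?_
    refine Finset.sum_congr rfl fun h _ => ?_
    rw [Matrix.smul_mul, Matrix.trace_smul, smul_eq_mul]
    rfl
  · -- reduction
    intro B
    rw [s0, S0, toK_smul, toK_sum]
    congr 1
    refine Finset.sum_congr rfl fun h _ => ?_
    rw [toK_smul, ← trace_toK, toK_mul]
    rfl

end Pool.Agent.Helper42.CY
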