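import Pool.Agent.Helper42.CY.Shape

/-!
# Project IR, section 4 (S4-13): matching the exceptional characters of `K` and `NN K Q`

Everything in `Shape` holds for `K` and for `N = NN K Q` in place of `K` (use `Loc.nn`, `NN_NN`,
`ee_NN`, `Cj_NN`, `Tr_NN`). Characters without full support over `φ` are determined by their support.
-/

namespace Pool.Agent.Helper42.CY

open Pool.Agent.Helper42.INC Pool.Agent.Helper42.IR Pool.Agent.Helper97.S4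

variable {G : Type} [Group G] [Finite G] {p : ℕ} [Fact p.Prime] {K Q Z H : Subgroup G}

/-- `EE_unique` (`EE` is empty in the transitive case): pick `lam` with `(φ, lam) ∈ Sp χ`; it is
nontrivial by `aa_oneS`. -/
theorem EE_Sp_inj (hL : LocC p K Q Z H) (hPK : Pkg p K Q Z H) {φ : G → ℂ} (hφ : φ ∈ Ca p Q H)
    {χ χ' : G → ℂ} (hχ : χ ∈ EE p K Q H φ) (hχ' : χ' ∈ EE p K Q H φ)
    (h : Sp p Q H χ = Sp p Q H χ') : χ = χ' := by
  obtain ⟨lam, hl, h0⟩ := hχ.1.2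
  have h1 : lam ≠ oneS Q := by
    intro e
    rw [e] at h0
    exact h0 (aa_oneS hL χ φ)
  have hm : (φ, lam) ∈ Sp p Q H χ := ⟨hφ, hl, h0⟩
  rw [h] at hm
  obtain ⟨u, _, hu⟩ := EE_unique hL hPK hφ hl h1
  rw [hu χ ⟨hχ, h0⟩, hu χ' ⟨hχ', hm.2.2⟩]

/-- one direction of the matching, for two groups with the same local data -/
private theorem match_aux {K1 K2 : Subgroup G} (hP1 : Pkg p K1 Q Z H)
    (hL1 : LocC p K1 Q Z H)
    (hL2 : LocC p K2 Q Z H) (hP2 : Pkg p K2 Q Z H) (hL : LocC p K Q Z H) {φ : G → ℂ} (hφ : φ ∈ Ca p Q H)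
    (hC : ∀ lam lam', Cj K1 Q φ lam lam' ↔ Cj K2 Q φ lam lam')
    (hn1 : ∀ χ ∈ IrrSP p K1, Nice p K Q H χ) (hn2 : ∀ χ ∈ IrrSP p K2, Nice p K Q H χ)
    {χ : G → ℂ} (hχ : χ ∈ EE p K1 Q H φ) :
    ∃ ψ ∈ EE p K2 Q H φ, Sp p Q H ψ = Sp p Q H χ := by
  obtain ⟨lam, hl, h0⟩ := hχ.1.2
  have h1 : lam ≠ oneS Q := by
    intro e
    rw [e] at h0
    exact h0 (aa_oneS hL χ φ)
  obtain ⟨ψ, ⟨hψ, h0'⟩, _⟩ := EE_unique hL2 hP2 hφ hl h1
  refine ⟨ψ, hψ, ?_⟩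
  refine Sp_eq_of hL (hn2 ψ hψ.1.1) (hn1 χ hχ.1.1) hφ hψ.1.2 hχ.1.2 ?_
  intro lam' hl'
  by_cases h1' : lam' = oneS Q
  · rw [h1', aa_oneS hL, aa_oneS hL]
  · rw [EE_support hL2 hP2 hφ hψ hl h0' hl' h1', EE_support hL1 hP1 hφ hχ hl h0 hl' h1', hC]

/-- The matching: for `χ ∈ EE p K Q H φ` choose `lam` with `aa Q H χ lam φ ≠ 0`, and let `g χ` be the
unique element of `EE p (NN K Z) Q H φ` with `aa Q H (g χ) lam φ ≠ 0`. By `EE_support` for both, the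
supports over `φ` agree, so the supports agree by `Sp_eq_of` (`nice_K`, `nice_N`). Bijective by
`EE_Sp_inj` on both sides and the same construction backwards. -/
theorem EE_match (hL : LocC p K Q Z H) (hPK : Pkg p K Q Z H) (hPN : Pkg p (NN K Z) Q Z H) {φ : G → ℂ}
    (hφ : φ ∈ Ca p Q H) : ∃ g : (G → ℂ) → (G → ℂ),
      Set.BijOn g (EE p K Q H φ) (EE p (NN K Z) Q H φ) ∧
      ∀ χ ∈ EE p K Q H φ, Sp p Q H (g χ) = Sp p Q H χ := by
  classical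
  · have fwd : ∀ χ, χ ∈ EE p K Q H φ → ∃ ψ ∈ EE p (NN K Z) Q H φ, Sp p Q H ψ = Sp p Q H χ :=
      fun χ hχ => match_aux hPK hL (hL.nn) hPN hL hφ (fun a b => (hL.Cj_NN φ a b).symm)
        (fun χ h => nice_K hL hPK h) (fun χ h => nice_N hL hPN h) hχ
    have bwd : ∀ ψ, ψ ∈ EE p (NN K Z) Q H φ → ∃ χ ∈ EE p K Q H φ, Sp p Q H χ = Sp p Q H ψ :=
      fun χ hχ => match_aux hPN hL.nn hL hPK hL hφ (fun a b => hL.Cj_NN φ a b)
        (fun χ h => nice_N hL hPN h) (fun χ h => nice_K hL hPK h) hχ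
    choose! g hg1 hg2 using fwd
    refine ⟨g, ⟨fun χ hχ => hg1 χ hχ, ?_, ?_⟩, hg2⟩
    · intro χ hχ χ' hχ' e
      refine EE_Sp_inj hL hPK hφ hχ hχ' ?_
      rw [← hg2 χ hχ, ← hg2 χ' hχ', e]
    · intro ψ hψ
      obtain ⟨χ, hχ, e⟩ := bwd ψ hψ
      exact ⟨χ, hχ, EE_Sp_inj (hL.nn) hPN hφ (hg1 χ hχ) hψ ((hg2 χ hχ).trans e)⟩

/-- `card_FF_Tr`, `card_FF_not_Tr` for both -/
theorem card_FF_eq (hL : LocC p K Q Z H) (hPK : Pkg p K Q Z H) (hPN : Pkg p (NN K Z) Q Z H) {φ : G → ℂ}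
    (hφ : φ ∈ Ca p Q H) : Nat.card (FF p K Q H φ) = Nat.card (FF p (NN K Z) Q H φ) := by
  rw [card_FF hL hPK hφ, card_FF hL.nn hPN hφ, hL.ee_NN]

/-- full support implies being in the block -/
private theorem bl_of_full (hL : LocC p K Q Z H) {χ φ : G → ℂ} (h : Full Q H χ φ) :
    Bl Q H χ φ := by
  obtain ⟨lam, hl, h1⟩ := exists_ne_oneS hL
  exact ⟨lam, hl, h lam hl h1⟩

/-- the block is the disjoint union of `FF` and `EE` -/
private theorem card_BB_split (hL : LocC p K Q Z H) (K1 : Subgroup G) (φ : G → ℂ) :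
    Nat.card (BB p K1 Q H φ) = Nat.card (FF p K1 Q H φ) + Nat.card (EE p K1 Q H φ) := by
  have hfin : ∀ X : Set (G → ℂ), X ⊆ IrrS K1 → X.Finite :=
    fun X hX => (irrS_finite K1).subset hX
  have hF : (FF p K1 Q H φ).Finite := hfin _ fun χ h => h.1.1
  have hE : (EE p K1 Q H φ).Finite := hfin _ fun χ h => h.1.1.1
  have hU : BB p K1 Q H φ = FF p K1 Q H φ ∪ EE p K1 Q H φ := by
    ext χ
    constructor
    · intro h
      by_cases hf : Full Q H χ φ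
      · exact Or.inl ⟨h.1, hf⟩
      · exact Or.inr ⟨h, hf⟩
    · rintro (h | h)
      · exact ⟨h.1, bl_of_full hL h.2⟩
      · exact h.1
  have hD : Disjoint (FF p K1 Q H φ) (EE p K1 Q H φ) := by
    rw [Set.disjoint_left]
    intro χ h h'
    exact h'.2 h.2
  rw [Nat.card_coe_set_eq, Nat.card_coe_set_eq, Nat.card_coe_set_eq, hU]
  exact Set.ncard_union_eq hD hF hE

/-- `BB` is the disjoint union of `FF` and `EE` (a character with full support is in the block, by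
`exists_ne_oneS`), all finite. -/
theorem card_BB_eq (hL : LocC p K Q Z H) (hPK : Pkg p K Q Z H) (hPN : Pkg p (NN K Z) Q Z H) {φ : G → ℂ}
    (hφ : φ ∈ Ca p Q H) : Nat.card (BB p K Q H φ) = Nat.card (BB p (NN K Z) Q H φ) := by
  rw [card_BB_split hL K φ, card_BB_split hL (NN K Z) φ, card_FF_eq hL hPK hPN hφ]
  obtain ⟨g, hg, _⟩ := EE_match hL hPK hPN hφ
  rw [Nat.card_congr (Set.BijOn.equiv g hg)]

/-- Let `a` normalize `K` and `Q`, with `cnj a φ = cnj m φ`, `m ∈ NN K Q`. Then `BB`, `FF`, `EE` are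
stable under `cnj a` (`Nice.bl_act`, `Nice.full_act`, `cnj_mem_irrSP`). -/
theorem BB_stable (hL : LocC p K Q Z H) (hPK : Pkg p K Q Z H) {a m : G}
    (haK : a ∈ Subgroup.normalizer (K : Set G)) (haQ : a ∈ Subgroup.normalizer (Q : Set G))
    {φ : G → ℂ} (hm : m ∈ NN K Q) (hφa : cnj a φ = cnj m φ) :
    (∀ χ ∈ BB p K Q H φ, cnj a χ ∈ BB p K Q H φ) ∧ (∀ χ ∈ FF p K Q H φ, cnj a χ ∈ FF p K Q H φ) ∧
      ∀ χ ∈ EE p K Q H φ, cnj a χ ∈ EE p K Q H φ := by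
  have hB : ∀ χ ∈ BB p K Q H φ, cnj a χ ∈ BB p K Q H φ := by
    intro χ hχ
    have h1 := cnj_mem_irrSP haK hχ.1
    exact ⟨h1, (Nice.bl_act hL haK haQ (nice_K hL hPK h1) hm hφa).2 hχ.2⟩
  refine ⟨hB, ?_, ?_⟩
  · intro χ hχ
    have h1 := cnj_mem_irrSP haK hχ.1
    exact ⟨h1, (Nice.full_act hL haK haQ (nice_K hL hPK h1) hm hφa).2 hχ.2⟩
  · intro χ hχ
    have h1 := cnj_mem_irrSP haK hχ.1.1
    exact ⟨hB χ hχ.1, fun h =>
      hχ.2 ((Nice.full_act hL haK haQ (nice_K hL hPK h1) hm hφa).1 h)⟩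

/-- The fixed points of `a` in `EE` on both sides: the matching `g` of `EE_match` commutes with
`cnj a` (`Sp_cnj` and `EE_Sp_inj` for `NN K Q`). -/
theorem card_Fx_EE (hL : LocC p K Q Z H) (hPK : Pkg p K Q Z H) (hPN : Pkg p (NN K Z) Q Z H) {a m : G}
    (haK : a ∈ Subgroup.normalizer (K : Set G)) (haQ : a ∈ Subgroup.normalizer (Q : Set G))
    {φ : G → ℂ} (hφ : φ ∈ Ca p Q H) (hm : m ∈ NN K Q) (hφa : cnj a φ = cnj m φ) :
    Nat.card (Fx a (EE p K Q H φ)) = Nat.card (Fx a (EE p (NN K Z) Q H φ)) := by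
  obtain ⟨g, hg, hS⟩ := EE_match hL hPK hPN hφ
  have hmN : m ∈ NN (NN K Z) Q := by rw [hL.NN_Q]; exact hm
  have haZ := hL.normQ_Z haQ
  have hstK := (BB_stable hL hPK haK haQ hm hφa).2.2
  have hstN := (BB_stable (hL.nn) hPN (norm_NN haK haZ) haQ hmN hφa).2.2
  have hcomm : ∀ χ ∈ EE p K Q H φ, g (cnj a χ) = cnj a (g χ) := by
    intro χ hχ
    refine EE_Sp_inj (hL.nn) hPN hφ (hg.mapsTo (hstK χ hχ)) (hstN _ (hg.mapsTo hχ)) ?_
    rw [hS _ (hstK χ hχ), Sp_cnj hL haK haQ, Sp_cnj hL haK haQ, hS χ hχ]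
  refine Nat.card_congr (Set.BijOn.equiv g ⟨?_, ?_, ?_⟩)
  · intro χ hχ
    refine ⟨hg.mapsTo hχ.1, ?_⟩
    rw [← hcomm χ hχ.1, hχ.2]
  · intro χ hχ χ' hχ' e
    exact hg.injOn hχ.1 hχ'.1 e
  · intro ψ hψ
    obtain ⟨χ, hχ, e⟩ := hg.surjOn hψ.1
    refine ⟨χ, ⟨hχ, ?_⟩, e⟩
    refine hg.injOn (hstK χ hχ) hχ ?_
    rw [hcomm χ hχ, e, hψ.2]

/-- Characters with full support have the same support: for `χ ∈ FF p K Q H φ` (or `NN K Q`) and any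
nice `χ'` in `IrrSP`, `Sp p Q H χ' = Sp p Q H χ` iff `Full Q H χ' φ`. -/
theorem Sp_eq_iff_full (hL : LocC p K Q Z H) {φ : G → ℂ} (hφ : φ ∈ Ca p Q H) {χ χ' : G → ℂ}
    (h : Nice p K Q H χ) (h' : Nice p K Q H χ') (hf : Full Q H χ φ) :
    Sp p Q H χ' = Sp p Q H χ ↔ Full Q H χ' φ := by
  constructor
  · intro e lam hl h1
    have hm : (φ, lam) ∈ Sp p Q H χ := ⟨hφ, hl, hf lam hl h1⟩
    rw [← e] at hm
    exact hm.2.2
  · intro hf'
    refine Sp_eq_of hL h' h hφ (bl_of_full hL hf') (bl_of_full hL hf) ?_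
    intro lam hl
    by_cases h1 : lam = oneS Q
    · rw [h1, aa_oneS hL, aa_oneS hL]
    · exact ⟨fun _ => hf lam hl h1, fun _ => hf' lam hl h1⟩

end Pool.Agent.Helper42.CY
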