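import Pool.Agent.Helper42.CY.Coh

/-!
# CY-23 (project CY): the multiplicity of `φ` on `H`

`χ ∈ IrrS K`, `φ ∈ Ca p Q H`, `m0 = ip (Q ⊔ H) χ φ` (a natural number, `ip_res_nat`). By `sum_prodC`
`ip H χ φ = ∑ lam, ip C χ (prodC lam φ) = |Q| m0 + ∑_{lam ≠ oneS Q} aa Q H χ lam φ` (`card_irrS`).
* `mult_NE`: all these `aa` are `ε`.
* `class_card`: the labels conjugate to `l0 ≠ oneS Q` under `S = NN K Q ⊓ stab φ` correspond to the cosets of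
  the stabilizer of `l0` in `S`, which is `S ⊓ (Q ⊔ H)` (`stab_lam`: it centralizes `Z`; conversely elements of
  `Q ⊔ H` normalizing `Q` fix `lift Q H l0`, so `l0`: `lift_conj`, `cnj_lift`, `lift_inj`); their number is
  `ee K Q H φ`.
* `mult_EX`: the `aa` are `ε` for the `ee K Q H φ` labels conjugate to `l0` and `0` for the others.
* `mult_not_Bl`: all `aa` vanish.
* `mult_unit`: in `ZMod p`: `|Q| = 0`, `ε = ± 1`, `0 < ee < p`.
-/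

namespace Pool.Agent.Helper42.CY

open Pool.Agent.Helper42.INC Pool.Agent.Helper42.IR Pool.Agent.Helper97.S4

variable {G : Type} [Group G] [Finite G] {p : ℕ} [Fact p.Prime] {K Q Z H : Subgroup G}

omit [Finite G] [Fact p.Prime] in
private theorem ml_CK (hL : LocC p K Q Z H) : Q ⊔ H ≤ K := by
  rw [hL.sup]
  exact inf_le_left

private theorem ml_sum (hL : LocC p K Q Z H) {χ : G → ℂ} (hχ : χ ∈ IrrS K) {φ : G → ℂ}
    (hφ : φ ∈ Ca p Q H) : ∃ m0 : ℕ, ip H χ φ = (Nat.card Q : ℂ) * m0 +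
      ∑ᶠ lam : IrrS Q, aa Q H χ lam.1 φ := by
  classical
  have hfin : Finite (IrrS Q) := (irrS_finite Q).to_subtype
  have := Fintype.ofFinite (IrrS Q)
  obtain ⟨m0, hm0⟩ := ip_res_nat (ml_CK hL) hχ hφ.1.1
  refine ⟨m0, ?_⟩
  rw [← sum_prodC hL χ φ, finsum_eq_sum_of_fintype, finsum_eq_sum_of_fintype]
  have h1 : ∀ lam : IrrS Q, ip (Q ⊔ H) χ (prodC Q H lam.1 φ) = (m0 : ℂ) + aa Q H χ lam.1 φ := by
    intro lam
    unfold aa
    rw [hm0]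
    ring
  rw [Finset.sum_congr rfl fun lam _ => h1 lam, Finset.sum_add_distrib, Finset.sum_const,
    Finset.card_univ, ← Nat.card_eq_fintype_card, card_irrS hL, nsmul_eq_mul]

omit [Finite G] in
private theorem ml_not_Cj {φ l0 : G → ℂ} (h1 : l0 ≠ oneS Q) : ¬ Cj K Q φ l0 (oneS Q) := by
  rintro ⟨n, hn, -, h2⟩
  apply h1
  have h3 : cnj n⁻¹ (cnj n l0) = cnj n⁻¹ (oneS Q) := by rw [h2]
  rw [cnj_inv_cnj, cnj_oneS (Subgroup.inv_mem _ hn.2)] at h3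
  exact h3

private theorem ml_fix (hL : LocC p K Q Z H) {lam : G → ℂ} (hl : lam ∈ IrrS Q) {c : G}
    (hc : c ∈ NN K Q) (hcC : c ∈ Q ⊔ H) : cnj c lam = lam := by
  have h1 := cnj_lift hL hc.2 (hL.norm_C hcC) lam
  rw [lift_conj hL hl hcC] at h1
  exact (lift_inj hL hl (cnj_mem_irrS hc.2 hl) (fun x _ => congrFun h1 x)).symm

theorem mult_nat (hL : LocC p K Q Z H) {χ : G → ℂ} (hχ : χ ∈ IrrS K) {φ : G → ℂ}
    (hφ : φ ∈ Ca p Q H) : ∃ m : ℕ, ip H χ φ = m := by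
  classical
  have hfin : Finite (IrrS Q) := (irrS_finite Q).to_subtype
  have := Fintype.ofFinite (IrrS Q)
  have h1 : ∀ lam : IrrS Q, ∃ n : ℕ, ip (Q ⊔ H) χ (prodC Q H lam.1 φ) = n := fun lam =>
    ip_res_nat (ml_CK hL) hχ (prodC_mem hL lam.2 hφ.1.1)
  choose n hn using h1
  refine ⟨∑ lam : IrrS Q, n lam, ?_⟩
  rw [← sum_prodC hL χ φ, finsum_eq_sum_of_fintype, Finset.sum_congr rfl fun lam _ => hn lam]
  push_cast
  rfl

theorem class_card (hL : LocC p K Q Z H) {φ : G → ℂ} (hφ : φ ∈ Ca p Q H) {l0 : G → ℂ}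
    (hl : l0 ∈ IrrS Q) (h1 : l0 ≠ oneS Q) :
    Nat.card {lam : G → ℂ // lam ∈ IrrS Q ∧ Cj K Q φ l0 lam} = ee K Q H φ := by
  classical
  have hCS : (Q ⊔ H).relIndex (NN K Q ⊓ stab φ) =
      Nat.card ((NN K Q ⊓ stab φ : Subgroup G) ⧸ ((Q ⊔ H).subgroupOf (NN K Q ⊓ stab φ))) := rfl
  unfold ee
  rw [hCS]
  symm
  have hf : ∀ a b : (NN K Q ⊓ stab φ : Subgroup G),
      (QuotientGroup.leftRel ((Q ⊔ H).subgroupOf (NN K Q ⊓ stab φ))) a b →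
      (⟨cnj (a : G) l0, cnj_mem_irrS a.2.1.2 hl, a, a.2.1, a.2.2, rfl⟩ :
        {lam : G → ℂ // lam ∈ IrrS Q ∧ Cj K Q φ l0 lam}) =
      ⟨cnj (b : G) l0, cnj_mem_irrS b.2.1.2 hl, b, b.2.1, b.2.2, rfl⟩ := by
    intro a b hab
    rw [QuotientGroup.leftRel_apply, Subgroup.mem_subgroupOf] at hab
    have h1 : ((a⁻¹ * b : (NN K Q ⊓ stab φ : Subgroup G)) : G) = (a : G)⁻¹ * (b : G) := rfl
    rw [h1] at hab
    have h2 : (a : G)⁻¹ * (b : G) ∈ NN K Q :=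
      Subgroup.mul_mem _ (Subgroup.inv_mem _ a.2.1) b.2.1
    have h3 := ml_fix hL hl h2 hab
    have h4 : (b : G) = (a : G) * ((a : G)⁻¹ * (b : G)) := by group
    apply Subtype.ext
    change cnj (a : G) l0 = cnj (b : G) l0
    rw [h4, ← cnj_cnj, h3]
  refine Nat.card_eq_of_bijective (Quotient.lift _ hf) ⟨?_, ?_⟩
  · intro x y
    induction x using Quotient.inductionOn with
    | h a =>
      induction y using Quotient.inductionOn with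
      | h b =>
        intro hxy
        have h5 : cnj (a : G) l0 = cnj (b : G) l0 := congrArg Subtype.val hxy
        have h6 : (a : G)⁻¹ * (b : G) ∈ NN K Q :=
          Subgroup.mul_mem _ (Subgroup.inv_mem _ a.2.1) b.2.1
        have h7 : cnj ((a : G)⁻¹ * (b : G)) l0 = l0 := by
          rw [← cnj_cnj, ← h5, cnj_inv_cnj]
        have h8 := stab_lam hL hl h1 h6.2 h7
        apply Quotient.sound
        change (QuotientGroup.leftRel _) a b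
        rw [QuotientGroup.leftRel_apply, Subgroup.mem_subgroupOf]
        change (a : G)⁻¹ * (b : G) ∈ Q ⊔ H
        rw [hL.sup]
        exact ⟨h6.1, h8⟩
  · rintro ⟨lam, hlam, n, hn, h2, h3⟩
    refine ⟨Quotient.mk _ (⟨n, hn, h2⟩ : (NN K Q ⊓ stab φ : Subgroup G)), ?_⟩
    apply Subtype.ext
    exact h3

theorem mult_NE (hL : LocC p K Q Z H) {χ : G → ℂ} (hχ : χ ∈ IrrS K) {φ : G → ℂ}
    (hφ : φ ∈ Ca p Q H) {ε : ℂ} (h : NE Q H χ φ ε) :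
    ∃ m0 : ℕ, ip H χ φ = (Nat.card Q : ℂ) * m0 + ((Nat.card Q : ℂ) - 1) * ε := by
  classical
  have hfin : Finite (IrrS Q) := (irrS_finite Q).to_subtype
  have := Fintype.ofFinite (IrrS Q)
  obtain ⟨m0, hm0⟩ := ml_sum hL hχ hφ
  refine ⟨m0, ?_⟩
  rw [hm0, finsum_eq_sum_of_fintype]
  congr 1
  have h1 : ∀ lam : IrrS Q, aa Q H χ lam.1 φ = ε - (if lam = ⟨oneS Q, Pool.Agent.Helper97.S4.oneS_mem Q⟩ then ε else 0) := by
    intro lam
    by_cases hlam : lam = ⟨oneS Q, Pool.Agent.Helper97.S4.oneS_mem Q⟩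
    · rw [if_pos hlam, hlam, sub_self]
      exact aa_oneS hL χ φ
    · rw [if_neg hlam, sub_zero]
      exact h lam.1 lam.2 (fun h2 => hlam (Subtype.ext h2))
  rw [Finset.sum_congr rfl fun lam _ => h1 lam, Finset.sum_sub_distrib, Finset.sum_const,
    Finset.card_univ, ← Nat.card_eq_fintype_card, card_irrS hL, nsmul_eq_mul,
    Finset.sum_ite_eq', if_pos (Finset.mem_univ _)]
  ring

theorem mult_EX (hL : LocC p K Q Z H) {χ : G → ℂ} (hχ : χ ∈ IrrS K) {φ : G → ℂ}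
    (hφ : φ ∈ Ca p Q H) {l0 : G → ℂ} (hl : l0 ∈ IrrS Q) (h1 : l0 ≠ oneS Q) {ε : ℂ}
    (h : EX K Q H χ φ l0 ε) :
    ∃ m0 : ℕ, ip H χ φ = (Nat.card Q : ℂ) * m0 + (ee K Q H φ : ℂ) * ε := by
  classical
  have hfin : Finite (IrrS Q) := (irrS_finite Q).to_subtype
  have := Fintype.ofFinite (IrrS Q)
  obtain ⟨m0, hm0⟩ := ml_sum hL hχ hφ
  refine ⟨m0, ?_⟩
  rw [hm0, finsum_eq_sum_of_fintype]
  congr 1
  have h2 : ∀ lam : IrrS Q, aa Q H χ lam.1 φ = (if Cj K Q φ l0 lam.1 then ε else 0) := by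
    intro lam
    by_cases hlam : lam.1 = oneS Q
    · rw [if_neg (by rw [hlam]; exact ml_not_Cj h1), hlam]
      exact aa_oneS hL χ φ
    · by_cases hc : Cj K Q φ l0 lam.1
      · rw [if_pos hc]
        exact (h lam.1 lam.2 hlam).1 hc
      · rw [if_neg hc]
        exact (h lam.1 lam.2 hlam).2 hc
  rw [Finset.sum_congr rfl fun lam _ => h2 lam, Finset.sum_ite, Finset.sum_const,
    Finset.sum_const_zero, add_zero, nsmul_eq_mul, ← class_card hL hφ hl h1]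
  congr 2
  rw [← Fintype.card_subtype, ← Nat.card_eq_fintype_card]
  refine Nat.card_congr ⟨fun x => ⟨x.1.1, x.1.2, x.2⟩, fun x => ⟨⟨x.1, x.2.1⟩, x.2.2⟩, ?_, ?_⟩
  · intro x
    rfl
  · intro x
    rfl

theorem mult_not_Bl (hL : LocC p K Q Z H) {χ : G → ℂ} (hχ : χ ∈ IrrS K) {φ : G → ℂ}
    (hφ : φ ∈ Ca p Q H) (h : ¬ Bl Q H χ φ) : ∃ m0 : ℕ, ip H χ φ = (Nat.card Q : ℂ) * m0 := by
  classical
  have hfin : Finite (IrrS Q) := (irrS_finite Q).to_subtype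
  have := Fintype.ofFinite (IrrS Q)
  obtain ⟨m0, hm0⟩ := ml_sum hL hχ hφ
  refine ⟨m0, ?_⟩
  rw [hm0, finsum_eq_sum_of_fintype]
  have h2 : ∀ lam : IrrS Q, aa Q H χ lam.1 φ = 0 := by
    intro lam
    by_contra hne
    exact h ⟨lam.1, lam.2, hne⟩
  rw [Finset.sum_congr rfl fun lam _ => h2 lam, Finset.sum_const_zero, add_zero]

/-- the multiplicity modulo `p`, up to sign -/
theorem mult_NE_sq (hL : LocC p K Q Z H) {χ : G → ℂ} (hχ : χ ∈ IrrS K) {φ : G → ℂ}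
    (hφ : φ ∈ Ca p Q H) {ε : ℂ} (hε : ε = 1 ∨ ε = -1) (h : NE Q H χ φ ε) {m : ℕ}
    (hm : ip H χ φ = m) : (m : ZMod p) ^ 2 = 1 := by
  obtain ⟨m0, hm0⟩ := mult_NE hL hχ hφ h
  have hq : ((Nat.card Q : ℕ) : ZMod p) = 0 := by
    obtain ⟨a, ha, hQ⟩ := hL.cQ
    rw [hQ, Nat.cast_pow, ZMod.natCast_self, zero_pow (by omega)]
  rw [hm] at hm0
  rcases hε with rfl | rfl
  · have h1 : (m : ℤ) = (Nat.card Q : ℤ) * m0 + ((Nat.card Q : ℤ) - 1) * 1 := by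
      exact_mod_cast hm0
    have h2 : ((m : ℤ) : ZMod p) = (((Nat.card Q : ℤ) * m0 + ((Nat.card Q : ℤ) - 1) * 1 : ℤ) : ZMod p) := by
      rw [h1]
    push_cast at h2
    rw [hq] at h2
    rw [h2]
    ring
  · have h1 : (m : ℤ) = (Nat.card Q : ℤ) * m0 + ((Nat.card Q : ℤ) - 1) * (-1) := by
      exact_mod_cast hm0
    have h2 : ((m : ℤ) : ZMod p) = (((Nat.card Q : ℤ) * m0 + ((Nat.card Q : ℤ) - 1) * (-1) : ℤ) : ZMod p) := by
      rw [h1]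
    push_cast at h2
    rw [hq] at h2
    rw [h2]
    ring

theorem mult_EX_sq (hL : LocC p K Q Z H) {χ : G → ℂ} (hχ : χ ∈ IrrS K) {φ : G → ℂ}
    (hφ : φ ∈ Ca p Q H) {l0 : G → ℂ} (hl : l0 ∈ IrrS Q) (h1 : l0 ≠ oneS Q) {ε : ℂ}
    (hε : ε = 1 ∨ ε = -1) (h : EX K Q H χ φ l0 ε) {m : ℕ}
    (hm : ip H χ φ = m) : (m : ZMod p) ^ 2 = (ee K Q H φ : ZMod p) ^ 2 := by
  obtain ⟨m0, hm0⟩ := mult_EX hL hχ hφ hl h1 h
  have hq : ((Nat.card Q : ℕ) : ZMod p) = 0 := by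
    obtain ⟨a, ha, hQ⟩ := hL.cQ
    rw [hQ, Nat.cast_pow, ZMod.natCast_self, zero_pow (by omega)]
  rw [hm] at hm0
  rcases hε with rfl | rfl
  · have h1 : (m : ℤ) = (Nat.card Q : ℤ) * m0 + (ee K Q H φ : ℤ) * 1 := by
      exact_mod_cast hm0
    have h2 : ((m : ℤ) : ZMod p) = (((Nat.card Q : ℤ) * m0 + (ee K Q H φ : ℤ) * 1 : ℤ) : ZMod p) := by
      rw [h1]
    push_cast at h2
    rw [hq] at h2
    rw [h2]
    ring
  · have h1 : (m : ℤ) = (Nat.card Q : ℤ) * m0 + (ee K Q H φ : ℤ) * (-1) := by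
      exact_mod_cast hm0
    have h2 : ((m : ℤ) : ZMod p) = (((Nat.card Q : ℤ) * m0 + (ee K Q H φ : ℤ) * (-1) : ℤ) : ZMod p) := by
      rw [h1]
    push_cast at h2
    rw [hq] at h2
    rw [h2]
    ring

/-- for `χ` of one of the two shapes the multiplicity is prime to `p` -/
theorem mult_ndvd (hL : LocC p K Q Z H) {χ : G → ℂ} (hχ : χ ∈ IrrS K) {φ : G → ℂ}
    (hφ : φ ∈ Ca p Q H) (h : ∃ ε : ℂ, (ε = 1 ∨ ε = -1) ∧
      (NE Q H χ φ ε ∨ ∃ l0 ∈ IrrS Q, l0 ≠ oneS Q ∧ EX K Q H χ φ l0 ε)) {m : ℕ}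
    (hm : ip H χ φ = m) : ¬ p ∣ m := by
  have hp : p.Prime := Fact.out
  intro hd
  have h0 : (m : ZMod p) = 0 := (ZMod.natCast_eq_zero_iff m p).2 hd
  obtain ⟨ε, hε, h | ⟨l0, hl, h1, h⟩⟩ := h
  · have h2 := mult_NE_sq hL hχ hφ hε h hm
    rw [h0] at h2
    simp at h2
  · have h2 := mult_EX_sq hL hχ hφ hl h1 hε h hm
    rw [h0, zero_pow two_ne_zero] at h2
    have h3 : ((ee K Q H φ : ℕ) : ZMod p) = 0 := pow_eq_zero_iff two_ne_zero |>.1 h2.symm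
    have h4 := (ZMod.natCast_eq_zero_iff _ p).1 h3
    have h5 := hL.ee_lt φ
    have h6 := hL.ee_pos φ
    exact absurd (Nat.le_of_dvd h6 h4) (by omega)

/-- Some canonical `φ` has multiplicity prime to `p`. The degree of `χ` is the sum over the `θ ∈ IrrS C`,
`C = Q ⊔ H`, of `ip C χ θ * deg θ` (`expand_on`), where the `θ` of degree prime to `p` are the `prodC lam φ`
(`ca_exists`, `prodC_inj`, `prodC_mem`), so modulo `p` it is `∑ φ ∈ Ca, deg φ * ∑ lam, ip C χ (prodC lam φ) =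
∑ φ, deg φ * ip H χ φ` (`sum_prodC`). -/
theorem exists_mult (hL : LocC p K Q Z H) {χ : G → ℂ} (hχ : χ ∈ IrrSP p K) :
    ∃ φ ∈ Ca p Q H, ∃ m : ℕ, ip H χ φ = m ∧ ¬ p ∣ m := by
  classical
  have hp : p.Prime := Fact.out
  have hfinQ : Finite (IrrS Q) := (irrS_finite Q).to_subtype
  have := Fintype.ofFinite (IrrS Q)
  have hfinC : Finite (IrrS (Q ⊔ H)) := (irrS_finite (Q ⊔ H)).to_subtype
  have := Fintype.ofFinite (IrrS (Q ⊔ H))
  have hfinA : Finite (Ca p Q H) :=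
    ((irrS_finite (Q ⊔ H)).subset (fun φ (hφ : φ ∈ Ca p Q H) => hφ.1.1)).to_subtype
  have := Fintype.ofFinite (Ca p Q H)
  by_contra hcon
  push Not at hcon
  apply hχ.2
  have h1 : ∀ θ : IrrS (Q ⊔ H), ∃ n : ℕ, ip (Q ⊔ H) χ θ.1 = n := fun θ =>
    ip_res_nat (ml_CK hL) hχ.1 θ.2
  choose n hn using h1
  have hdeg : deg χ = ∑ θ : IrrS (Q ⊔ H), n θ * deg θ.1 := by
    have h2 : χ 1 = ∑ᶠ ρ : IrrS (Q ⊔ H), ip (Q ⊔ H) χ ρ.1 * ρ.1 1 := by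
      refine expand_on (fun y hy x _ => ?_) (Subgroup.one_mem _)
      have h3 := congrFun (cnj_eq_self (Subgroup.inv_mem _ (ml_CK hL hy)) hχ.1) x
      rw [cnj_apply, inv_inv] at h3
      exact h3
    rw [finsum_eq_sum_of_fintype, irrS_deg hχ.1] at h2
    have h3 : (deg χ : ℂ) = ((∑ θ : IrrS (Q ⊔ H), n θ * deg θ.1 : ℕ) : ℂ) := by
      rw [h2]
      push_cast
      refine Finset.sum_congr rfl fun θ _ => ?_
      rw [hn θ, irrS_deg θ.2]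
    exact_mod_cast h3
  rw [hdeg, ← Finset.sum_filter_add_sum_filter_not Finset.univ (fun θ : IrrS (Q ⊔ H) => p ∣ deg θ.1)]
  refine dvd_add (Finset.dvd_sum fun θ hθ => ?_) ?_
  · exact Dvd.dvd.mul_left (Finset.mem_filter.1 hθ).2 _
  have h4 : ∑ θ ∈ Finset.univ.filter (fun θ : IrrS (Q ⊔ H) => ¬ p ∣ deg θ.1), n θ * deg θ.1 =
      ∑ x : Ca p Q H × IrrS Q,
        n ⟨prodC Q H x.2.1 x.1.1, prodC_mem hL x.2.2 x.1.2.1.1⟩ * deg (prodC Q H x.2.1 x.1.1) := by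
    symm
    refine Finset.sum_bij (fun x _ => ⟨prodC Q H x.2.1 x.1.1, prodC_mem hL x.2.2 x.1.2.1.1⟩)
      ?_ ?_ ?_ ?_
    · intro x _
      rw [Finset.mem_filter]
      refine ⟨Finset.mem_univ _, ?_⟩
      rw [deg_prodC hL x.2.2]
      exact x.1.2.1.2
    · intro x _ y _ hxy
      have h5 := congrArg Subtype.val hxy
      obtain ⟨h6, h7⟩ := prodC_inj hL x.2.2 y.2.2 x.1.2 y.1.2 h5
      exact Prod.ext (Subtype.ext h7) (Subtype.ext h6)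
    · intro θ hθ
      obtain ⟨lam, hlam, φ, hφ, he⟩ := ca_exists hL ⟨θ.2, (Finset.mem_filter.1 hθ).2⟩
      exact ⟨(⟨φ, hφ⟩, ⟨lam, hlam⟩), Finset.mem_univ _, Subtype.ext he.symm⟩
    · intro x _
      rfl
  rw [h4, Fintype.sum_prod_type]
  refine Finset.dvd_sum fun φ _ => ?_
  have h5 : ∑ lam : IrrS Q,
      n ⟨prodC Q H lam.1 φ.1, prodC_mem hL lam.2 φ.2.1.1⟩ * deg (prodC Q H lam.1 φ.1) =
      (∑ lam : IrrS Q, n ⟨prodC Q H lam.1 φ.1, prodC_mem hL lam.2 φ.2.1.1⟩) * deg φ.1 := by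
    rw [Finset.sum_mul]
    refine Finset.sum_congr rfl fun lam _ => ?_
    rw [deg_prodC hL lam.2]
  rw [h5]
  apply Dvd.dvd.mul_right
  refine hcon φ.1 φ.2 _ ?_
  rw [← sum_prodC hL χ φ.1, finsum_eq_sum_of_fintype]
  push_cast
  refine Finset.sum_congr rfl fun lam _ => ?_
  exact hn ⟨prodC Q H lam.1 φ.1, prodC_mem hL lam.2 φ.2.1.1⟩

theorem exb (hL : LocC p K Q Z H) {χ : G → ℂ} (hχ : χ ∈ IrrSP p K) :
    ∃ φ ∈ Ca p Q H, Bl Q H χ φ := by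
  obtain ⟨φ, hφ, m, hm, hd⟩ := exists_mult hL hχ
  refine ⟨φ, hφ, ?_⟩
  by_contra hB
  obtain ⟨m0, hm0⟩ := mult_not_Bl hL hχ.1 hφ hB
  apply hd
  rw [hm] at hm0
  have h1 : m = Nat.card Q * m0 := by exact_mod_cast hm0
  rw [h1]
  apply Dvd.dvd.mul_right
  obtain ⟨a, ha, hQ⟩ := hL.cQ
  rw [hQ]
  exact dvd_pow_self p (by omega)

end Pool.Agent.Helper42.CY
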