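import Pool.Agent.Helper42.CY.AAx
import Pool.Agent.Helper42.CY.Coh

/-!
# Project CY, section 4: blocks and signs

`Nice p K Q H χ` collects what we use of a character of degree prime to `p`, both for `K` and for the
local subgroup `NN K Z` (note `NN (NN K Z) Q = NN K Q`).
-/

open scoped Pointwise

namespace Pool.Agent.Helper42.CY

open Pool.Agent.Helper42.INC Pool.Agent.Helper42.IR Pool.Agent.Helper97.S4

attribute [local instance] cnjAct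

/-- blocks and signs of a character -/
structure Nice {G : Type} [Group G] (p : ℕ) (K Q H : Subgroup G) (χ : G → ℂ) : Prop where
  inv : ∀ n ∈ NN K Q, cnj n χ = χ
  blk : ∃ φ ∈ Ca p Q H, Bl Q H χ φ
  one : ∀ φ ∈ Ca p Q H, ∀ ρ ∈ Ca p Q H, Bl Q H χ φ → Bl Q H χ ρ → ∃ n ∈ NN K Q, cnj n φ = ρ
  sgn : ∃ ε : ℂ, (ε = 1 ∨ ε = -1) ∧
    ∀ φ ∈ Ca p Q H, ∀ lam ∈ IrrS Q, aa Q H χ lam φ = 0 ∨ aa Q H χ lam φ = ε

variable {G : Type} [Group G] [Finite G] {p : ℕ} [Fact p.Prime] {K Q Z H : Subgroup G}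

theorem memK {n : G} (hn : n ∈ NN K Q) : n ∈ Subgroup.normalizer (K : Set G) :=
  Subgroup.le_normalizer hn.1

theorem Nice.inv' {χ : G → ℂ} (h : Nice p K Q H χ) {n : G} (hn : n ∈ NN K Q) : cnj n χ = χ :=
  h.inv n hn

theorem nice_K (hL : LocC p K Q Z H) (hPK : Pkg p K Q Z H) {χ : G → ℂ} (hχ : χ ∈ IrrSP p K) :
    Nice p K Q H χ := by
  have hinv : ∀ n ∈ NN K Q, cnj n χ = χ := fun n hn => cnj_eq_self hn.1 hχ.1
  obtain ⟨φ, hφ, hb⟩ := hPK.exb χ hχ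
  obtain ⟨ε, hε, hsh⟩ := hPK.shape χ hχ φ hφ hb
  have h0 : ∀ lam ∈ IrrS Q, aa Q H χ lam φ = 0 ∨ aa Q H χ lam φ = ε := by
    intro lam hlam
    by_cases h1 : lam = oneS Q
    · left
      rw [h1]
      exact aa_oneS hL χ φ
    · rcases hsh with hN | ⟨l0, hl0, hl1, hE⟩
      · right
        exact hN lam hlam h1
      · by_cases h2 : ∃ n ∈ NN K Q, cnj n φ = φ ∧ cnj n l0 = lam
        · right
          exact (hE lam hlam h1).1 h2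
        · left
          exact (hE lam hlam h1).2 h2
  refine ⟨hinv, ⟨φ, hφ, hb⟩, fun φ' hφ' ρ hρ hb1 hb2 => hPK.unb χ hχ φ' hφ' ρ hρ hb1 hb2,
    ε, hε, ?_⟩
  intro ρ hρ lam hlam
  by_cases h1 : aa Q H χ lam ρ = 0
  · exact Or.inl h1
  · obtain ⟨n, hn, rfl⟩ := hPK.unb χ hχ φ hφ ρ hρ hb ⟨lam, hlam, h1⟩
    have h2 : aa Q H χ lam (cnj n φ) = aa Q H χ (cnj n⁻¹ lam) φ := by
      have h3 := aa_cnj hL (memK hn) hn.2 χ (cnj n⁻¹ lam) φ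
      rw [hinv n hn, cnj_cnj, mul_inv_cancel, cnj_one] at h3
      exact h3
    rw [h2]
    exact h0 _ (cnj_mem_irrS (inv_mem hn.2) hlam)

/-- `nice_K` for `NN K Z` -/
theorem nice_N (hL : LocC p K Q Z H) (hPN : Pkg p (NN K Z) Q Z H) {ψ : G → ℂ}
    (hψ : ψ ∈ IrrSP p (NN K Z)) : Nice p K Q H ψ := by
  have h := nice_K hL.nn hPN hψ
  have e := hL.NN_Q
  refine ⟨?_, h.blk, ?_, h.sgn⟩
  · intro n hn
    exact h.inv n (by rw [e]; exact hn)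
  · intro φ hφ ρ hρ h1 h2
    obtain ⟨n, hn, h3⟩ := h.one φ hφ ρ hρ h1 h2
    exact ⟨n, by rw [e] at hn; exact hn, h3⟩

/-- `aa_cnj` with `cnj n χ = χ` -/
theorem Nice.aa_inv (hL : LocC p K Q Z H) {χ : G → ℂ} (h : Nice p K Q H χ) {n : G}
    (hn : n ∈ NN K Q) (lam φ : G → ℂ) : aa Q H χ (cnj n lam) (cnj n φ) = aa Q H χ lam φ := by
  have h3 := aa_cnj hL (memK hn) hn.2 χ lam φ
  rw [h.inv n hn] at h3
  exact h3

/-- blocks are invariant -/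
theorem Nice.bl_inv (hL : LocC p K Q Z H) {χ : G → ℂ} (h : Nice p K Q H χ) {n : G}
    (hn : n ∈ NN K Q) (φ : G → ℂ) : Bl Q H χ (cnj n φ) ↔ Bl Q H χ φ := by
  constructor
  · rintro ⟨lam, hlam, h1⟩
    refine ⟨cnj n⁻¹ lam, cnj_mem_irrS (inv_mem hn.2) hlam, ?_⟩
    rw [← h.aa_inv hL hn, cnj_cnj, mul_inv_cancel, cnj_one]
    exact h1
  · rintro ⟨lam, hlam, h1⟩
    refine ⟨cnj n lam, cnj_mem_irrS hn.2 hlam, ?_⟩
    rw [h.aa_inv hL hn]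
    exact h1

/-- full support is invariant -/
theorem Nice.full_inv (hL : LocC p K Q Z H) {χ : G → ℂ} (h : Nice p K Q H χ) {n : G}
    (hn : n ∈ NN K Q) (φ : G → ℂ) : Full Q H χ (cnj n φ) ↔ Full Q H χ φ := by
  constructor
  · intro hf lam hlam h1
    rw [← h.aa_inv hL hn]
    exact hf _ (cnj_mem_irrS hn.2 hlam) (cnj_ne_oneS hn.2 h1)
  · intro hf lam hlam h1
    have h2 := hf (cnj n⁻¹ lam) (cnj_mem_irrS (inv_mem hn.2) hlam)
      (cnj_ne_oneS (inv_mem hn.2) h1)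
    rw [← h.aa_inv hL hn, cnj_cnj, mul_inv_cancel, cnj_one] at h2
    exact h2

/-- Let `a` normalize `K` and `Q` and move `φ` inside its `NN K Q`-orbit. Then for nice `χ`, `cnj a χ`
nice, `Bl Q H (cnj a χ) φ ↔ Bl Q H χ φ`. -/
theorem Nice.bl_act (hL : LocC p K Q Z H) {χ : G → ℂ} {a m : G}
    (haK : a ∈ Subgroup.normalizer (K : Set G)) (haQ : a ∈ Subgroup.normalizer (Q : Set G))
    (h' : Nice p K Q H (cnj a χ)) {φ : G → ℂ} (hm : m ∈ NN K Q) (hφa : cnj a φ = cnj m φ) :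
    Bl Q H (cnj a χ) φ ↔ Bl Q H χ φ := by
  rw [← Nice.bl_inv hL h' hm, ← hφa]
  constructor
  · rintro ⟨lam, hlam, h1⟩
    refine ⟨cnj a⁻¹ lam, cnj_mem_irrS (inv_mem haQ) hlam, ?_⟩
    rw [← aa_cnj hL haK haQ, cnj_cnj, mul_inv_cancel, cnj_one]
    exact h1
  · rintro ⟨lam, hlam, h1⟩
    refine ⟨cnj a lam, cnj_mem_irrS haQ hlam, ?_⟩
    rw [aa_cnj hL haK haQ]
    exact h1

theorem Nice.full_act (hL : LocC p K Q Z H) {χ : G → ℂ} {a m : G}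
    (haK : a ∈ Subgroup.normalizer (K : Set G)) (haQ : a ∈ Subgroup.normalizer (Q : Set G))
    (h' : Nice p K Q H (cnj a χ)) {φ : G → ℂ} (hm : m ∈ NN K Q) (hφa : cnj a φ = cnj m φ) :
    Full Q H (cnj a χ) φ ↔ Full Q H χ φ := by
  rw [← Nice.full_inv hL h' hm, ← hφa]
  constructor
  · intro hf lam hlam h1
    rw [← aa_cnj hL haK haQ]
    exact hf _ (cnj_mem_irrS haQ hlam) (cnj_ne_oneS haQ h1)
  · intro hf lam hlam h1
    have h2 := hf (cnj a⁻¹ lam) (cnj_mem_irrS (inv_mem haQ) hlam)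
      (cnj_ne_oneS (inv_mem haQ) h1)
    rw [← aa_cnj hL haK haQ, cnj_cnj, mul_inv_cancel, cnj_one] at h2
    exact h2

/-- For nice `χ`, `χ'` in the block of `φ`, equality of the supports over `φ` gives equality of the
supports. -/
theorem Sp_eq_of (hL : LocC p K Q Z H) {χ χ' : G → ℂ} (h : Nice p K Q H χ)
    (h' : Nice p K Q H χ') {φ : G → ℂ} (hφ : φ ∈ Ca p Q H) (hb : Bl Q H χ φ)
    (hb' : Bl Q H χ' φ) (he : ∀ lam ∈ IrrS Q, aa Q H χ lam φ ≠ 0 ↔ aa Q H χ' lam φ ≠ 0) :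
    Sp p Q H χ = Sp p Q H χ' := by
  have key : ∀ {χ χ' : G → ℂ}, Nice p K Q H χ → Nice p K Q H χ' → Bl Q H χ φ →
      (∀ lam ∈ IrrS Q, aa Q H χ lam φ ≠ 0 ↔ aa Q H χ' lam φ ≠ 0) →
        Sp p Q H χ ⊆ Sp p Q H χ' := by
    intro χ χ' h h' hb he x hx
    obtain ⟨hx1, hx2, hx3⟩ := hx
    obtain ⟨n, hn, h1⟩ := h.one φ hφ x.1 hx1 hb ⟨x.2, hx2, hx3⟩
    refine ⟨hx1, hx2, ?_⟩
    have e1 : ∀ {ξ : G → ℂ}, Nice p K Q H ξ →
        aa Q H ξ x.2 x.1 = aa Q H ξ (cnj n⁻¹ x.2) φ := by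
      intro ξ hξ
      have h5 := hξ.aa_inv hL hn (cnj n⁻¹ x.2) φ
      rw [cnj_cnj, mul_inv_cancel, cnj_one, h1] at h5
      exact h5
    rw [e1 h']
    rw [e1 h] at hx3
    exact (he _ (cnj_mem_irrS (inv_mem hn.2) hx2)).1 hx3
  exact Set.Subset.antisymm (key h h' hb he) (key h' h hb' (fun lam hl => (he lam hl).symm))

/-- The support is equivariant. -/
theorem Sp_cnj (hL : LocC p K Q Z H) {a : G} (haK : a ∈ Subgroup.normalizer (K : Set G))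
    (haQ : a ∈ Subgroup.normalizer (Q : Set G)) (χ : G → ℂ) :
    Sp p Q H (cnj a χ) = a • Sp p Q H χ := by
  have haZ := hL.normQ_Z haQ
  ext x
  rw [Set.mem_smul_set_iff_inv_smul_mem]
  have e1 : a⁻¹ • x = (cnj a⁻¹ x.1, cnj a⁻¹ x.2) := rfl
  rw [e1]
  have e2 : ∀ f : G → ℂ, cnj a (cnj a⁻¹ f) = f := by
    intro f
    rw [cnj_cnj, mul_inv_cancel, cnj_one]
  constructor
  · rintro ⟨h1, h2, h3⟩
    refine ⟨ca_cnj hL (inv_mem haK) (inv_mem haZ) h1,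
      cnj_mem_irrS (inv_mem haQ) h2, ?_⟩
    change aa Q H χ (cnj a⁻¹ x.2) (cnj a⁻¹ x.1) ≠ 0
    rw [← aa_cnj hL haK haQ, e2, e2]
    exact h3
  · rintro ⟨h1, h2, h3⟩
    have h1' := ca_cnj hL haK haZ h1
    have h2' := cnj_mem_irrS haQ h2
    change aa Q H χ (cnj a⁻¹ x.2) (cnj a⁻¹ x.1) ≠ 0 at h3
    rw [← aa_cnj hL haK haQ, e2, e2] at h3
    change cnj a (cnj a⁻¹ x.1) ∈ Ca p Q H at h1'
    change cnj a (cnj a⁻¹ x.2) ∈ IrrS Q at h2'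
    rw [e2] at h1' h2'
    exact ⟨h1', h2', h3⟩

end Pool.Agent.Helper42.CY
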