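import Pool.Agent.Helper42.CY.Match
import Pool.Agent.Helper97.S4.Over
import Pool.Agent.Helper97.S4.LocB

/-!
# Project IR, section 4 (S4-14): characters of `J` over a block of `K`

`a` normalizes `K` and `Q`, `J = K ⊔ zpowers a`, `LocC p K Q Z H`, `Loc p J Q HJ`, `H ≤ HJ`.
-/

namespace Pool.Agent.Helper42.CY

open Pool.Agent.Helper42.INC Pool.Agent.Helper42.IR Pool.Agent.Helper97.S4

variable {G : Type} [Group G] [Finite G] {p : ℕ} [Fact p.Prime] {K Q Z H HJ : Subgroup G} {a : G}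
  {n : ℕ}

/-- CLAIM: a character `χ'` of `J` lies over a character of `K` in the block of `φ` iff it has degree
prime to `p` and lies in the block of some `φ'` over `φ`.

(⇒) Let `χ ∈ BB p K Q H φ` with `ip K χ' χ ≠ 0`, `ε` the sign of `χ` (`Nice.sgn`), and choose `lam`
with `aa Q H χ lam φ ≠ 0`. Every `θ ∈ IrrS K` with `ip K χ' θ ≠ 0` is `cnj (a ^ b) χ`
(`under_iff`), so `aa Q H θ lam φ = aa Q H χ (cnj (a ^ b)⁻¹ lam) (cnj (a ^ b)⁻¹ φ)` is `0` or `ε`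
(`aa_cnj`, `Loc.norm_H`). By `aa_expand_K`, `aa Q H χ' lam φ` is `ε` times a sum of nonnegative
numbers (`ip_res_nat`), the term of `χ` being positive; so `aa Q H χ' lam φ ≠ 0`. By `aa_expand_H`
some `φ' ∈ Ca p Q HJ` has `aa Q HJ χ' lam φ' ≠ 0` and `ip H φ' φ ≠ 0`. By `Pkg.def0` for `J` the degree
of `χ'` is prime to `p`.
(⇐) `χ' ∈ IrrSP p J`, `aa Q HJ χ' lam φ' ≠ 0`, `ip H φ' φ ≠ 0`. All `aa Q HJ χ' lam φ''` are `0` or
`ε'` (`nice_K` for `J`), so by `aa_expand_H` and `ip_res_nat`, `aa Q H χ' lam φ ≠ 0`. By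
`aa_expand_K` there is `θ ∈ IrrS K` with `ip K χ' θ ≠ 0` and `aa Q H θ lam φ ≠ 0`, and `θ ∈ IrrSP p K` by
`Pkg.def0` for `K`. -/
theorem over_iff (hL : LocC p K Q Z H) (hLJ : LocC p (K ⊔ Subgroup.zpowers a) Q Z HJ)
    (hPK : Pkg p K Q Z H) (hPJ : Pkg p (K ⊔ Subgroup.zpowers a) Q Z HJ)
    (haK : a ∈ Subgroup.normalizer (K : Set G)) (haQ : a ∈ Subgroup.normalizer (Q : Set G))
    (hn : ∀ k : ℕ, a ^ k ∈ K ↔ n ∣ k) {φ : G → ℂ} (hφ : φ ∈ Ca p Q H) {χ' : G → ℂ}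
    (hχ' : χ' ∈ IrrS (K ⊔ Subgroup.zpowers a)) :
    (∃ χ ∈ BB p K Q H φ, ip K χ' χ ≠ 0) ↔
      (χ' ∈ IrrSP p (K ⊔ Subgroup.zpowers a) ∧
        ∃ φ' ∈ Ca p Q HJ, Bl Q HJ χ' φ' ∧ ip (Q ⊔ H) φ' φ ≠ 0) := by
  have hKJ : K ≤ K ⊔ Subgroup.zpowers a := le_sup_left
  have hCK : Q ⊔ H ≤ K := by
    rw [hL.sup]
    exact inf_le_left
  have hnJ : K ⊔ Subgroup.zpowers a ≤ Subgroup.normalizer (K : Set G) := sup_le_normalizer haK
  have hCC : Q ⊔ H ≤ Q ⊔ HJ := sup_le_sup_left (H_le hL hLJ hKJ) Q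
  have finK : Finite (IrrS K) := (irrS_finite K).to_subtype
  have finHJ : Finite (Ca p Q HJ) := (ca_finite p Q HJ).to_subtype
  constructor
  · rintro ⟨χ, ⟨hχ, lam, hlam, hb⟩, hip⟩
    obtain ⟨ε, hε, hsg⟩ := (nice_K hL hPK hχ).sgn
    have key : aa Q H χ' lam φ ≠ 0 := by
      rw [aa_expand_K hKJ hCK hχ']
      refine over_finsum_mul_ne_zero (ε := ε) (fun θ : IrrS K => ip K χ' θ.1)
        (fun θ : IrrS K => aa Q H θ.1 lam φ) (fun θ => ip_res_nat hKJ hχ' θ.2) ?_ ⟨χ, hχ.1⟩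
        (mul_ne_zero hip hb)
      intro θ hθ
      obtain ⟨b, -, hbb⟩ := (under_iff haK hn hχ' hχ.1 θ.2 hip).1 hθ
      have haQ' : a ^ b ∈ Subgroup.normalizer (Q : Set G) := pow_mem haQ b
      have haK' : a ^ b ∈ Subgroup.normalizer (K : Set G) := pow_mem haK b
      have h1 := aa_cnj hL haK' haQ' χ (cnj (a ^ b)⁻¹ lam) (cnj (a ^ b)⁻¹ φ)
      rw [cnj_cnj, cnj_cnj, mul_inv_cancel, cnj_one, cnj_one] at h1
      change aa Q H θ.1 lam φ = 0 ∨ aa Q H θ.1 lam φ = ε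
      rw [← hbb, h1]
      exact hsg _ (ca_cnj hL (inv_mem haK') (inv_mem (hL.normQ_Z haQ')) hφ) _ (cnj_mem_irrS (inv_mem haQ') hlam)
    have key2 := key
    rw [aa_expand_C hL hLJ hKJ hnJ hχ' hlam hφ] at key2
    obtain ⟨φ', hφ'⟩ := over_exists_of_finsum key2
    have hb' : Bl Q HJ χ' φ'.1 := ⟨lam, hlam, left_ne_zero_of_mul hφ'⟩
    refine ⟨⟨hχ', ?_⟩, φ'.1, φ'.2, hb', right_ne_zero_of_mul hφ'⟩
    intro hd
    exact hPJ.def0 χ' hχ' hd φ'.1 φ'.2 hb'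
  · rintro ⟨hχP, φ', hφ', ⟨lam, hlam, hb⟩, hip⟩
    obtain ⟨ε, hε, hsg⟩ := (nice_K hLJ hPJ hχP).sgn
    have key : aa Q H χ' lam φ ≠ 0 := by
      rw [aa_expand_C hL hLJ hKJ hnJ hχ' hlam hφ]
      have e1 : ∀ φ'' : Ca p Q HJ, aa Q HJ χ' lam φ''.1 * ip (Q ⊔ H) φ''.1 φ =
          ip (Q ⊔ H) φ''.1 φ * aa Q HJ χ' lam φ''.1 := fun φ'' => mul_comm _ _
      rw [finsum_congr e1]
      exact over_finsum_mul_ne_zero (ε := ε) (fun φ'' : Ca p Q HJ => ip (Q ⊔ H) φ''.1 φ)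
        (fun φ'' : Ca p Q HJ => aa Q HJ χ' lam φ''.1)
        (fun φ'' => ip_res_nat hCC φ''.2.1.1 hφ.1.1)
        (fun φ'' _ => hsg φ''.1 φ''.2 lam hlam) ⟨φ', hφ'⟩ (mul_ne_zero hip hb)
    rw [aa_expand_K hKJ hCK hχ'] at key
    obtain ⟨θ, hθ⟩ := over_exists_of_finsum key
    have hb' : Bl Q H θ.1 φ := ⟨lam, hlam, right_ne_zero_of_mul hθ⟩
    refine ⟨θ.1, ⟨⟨θ.2, ?_⟩, hb'⟩, left_ne_zero_of_mul hθ⟩
    intro hd
    exact hPK.def0 θ.1 θ.2 hd φ hφ hb'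

/-- Counting characters by blocks, with an arbitrary condition `R` on `φ`: the map
`χ ↦ {φ ∈ Ca p Q H | Bl Q H χ φ}` has the same fibre sizes for `K` and `NN K Q`. Indeed if some
`χ` (for `K` or `NN K Q`) satisfies the condition with `φ`, then its fibre (the characters with the
same set of `φ`) is `BB _ Q H φ` on both sides, because for nice characters the set is the
`NN K Q`-orbit of `φ` (`Nice.one`, `Nice.bl_inv`). Use `exists_equiv_of_fiber` of INC/Count.lean and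
the hypothesis `hcard`. -/
theorem card_blocks (hL : LocC p K Q Z H) (hPK : Pkg p K Q Z H) (hPN : Pkg p (NN K Z) Q Z H)
    (hcard : ∀ φ ∈ Ca p Q H, Nat.card (BB p K Q H φ) = Nat.card (BB p (NN K Z) Q H φ))
    (R : (G → ℂ) → Prop) :
    Nat.card {χ : G → ℂ // χ ∈ IrrSP p K ∧ ∃ φ ∈ Ca p Q H, Bl Q H χ φ ∧ R φ} =
      Nat.card {χ : G → ℂ // χ ∈ IrrSP p (NN K Z) ∧ ∃ φ ∈ Ca p Q H, Bl Q H χ φ ∧ R φ} := by
  have finP : ∀ L : Subgroup G, Finite {χ : G → ℂ // χ ∈ IrrSP p L} := fun L =>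
    ((irrS_finite L).subset (fun χ hχ => hχ.1)).to_subtype
  have := finP K
  have := finP (NN K Z)
  -- the set of blocks
  let F : (G → ℂ) → Set (G → ℂ) := fun χ => {φ | φ ∈ Ca p Q H ∧ Bl Q H χ φ}
  let O : (G → ℂ) → Set (G → ℂ) := fun φ => {ρ | ρ ∈ Ca p Q H ∧ ∃ n ∈ NN K Q, cnj n φ = ρ}
  have hFO : ∀ χ, Nice p K Q H χ → ∀ φ ∈ Ca p Q H, Bl Q H χ φ → F χ = O φ := by
    intro χ hχ φ hφ hb
    ext ρ
    constructor
    · rintro ⟨h1, h2⟩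
      exact ⟨h1, hχ.one φ hφ ρ h1 hb h2⟩
    · rintro ⟨h1, n, hn, rfl⟩
      exact ⟨h1, (hχ.bl_inv hL hn φ).2 hb⟩
  have hF : ∀ χ, Nice p K Q H χ → ∀ φ ∈ Ca p Q H, (F χ = O φ ↔ Bl Q H χ φ) := by
    intro χ hχ φ hφ
    constructor
    · intro h1
      have h2 : φ ∈ O φ := ⟨hφ, 1, one_mem _, cnj_one φ⟩
      rw [← h1] at h2
      exact h2.2
    · exact hFO χ hχ φ hφ
  have hfib : ∀ L : Subgroup G, (∀ χ ∈ IrrSP p L, Nice p K Q H χ) → ∀ φ ∈ Ca p Q H,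
      Nat.card {χ : {χ : G → ℂ // χ ∈ IrrSP p L} // F χ.1 = O φ} = Nat.card (BB p L Q H φ) := by
    intro L hL' φ hφ
    refine Nat.card_congr ((Equiv.subtypeSubtypeEquivSubtypeInter (fun χ => χ ∈ IrrSP p L)
      (fun χ => F χ = O φ)).trans (Equiv.subtypeEquivRight ?_))
    intro χ
    constructor
    · rintro ⟨h1, h2⟩
      exact ⟨h1, (hF χ (hL' χ h1) φ hφ).1 h2⟩
    · rintro ⟨h1, h2⟩
      exact ⟨h1, (hF χ (hL' χ h1) φ hφ).2 h2⟩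
  have hfib0 : ∀ L : Subgroup G, (∀ χ ∈ IrrSP p L, Nice p K Q H χ) → ∀ c : Set (G → ℂ),
      (¬ ∃ φ ∈ Ca p Q H, O φ = c) →
      Nat.card {χ : {χ : G → ℂ // χ ∈ IrrSP p L} // F χ.1 = c} = 0 := by
    intro L hL' c hc
    rw [Nat.card_eq_zero]
    left
    refine ⟨fun χ => hc ?_⟩
    have hN := hL' χ.1.1 χ.1.2
    obtain ⟨φ, hφ, hb⟩ := hN.blk
    exact ⟨φ, hφ, ((hF χ.1.1 hN φ hφ).2 hb).symm.trans χ.2⟩
  have hK : ∀ χ ∈ IrrSP p K, Nice p K Q H χ := fun χ hχ => nice_K hL hPK hχ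
  have hN : ∀ χ ∈ IrrSP p (NN K Z), Nice p K Q H χ := fun χ hχ => nice_N hL hPN hχ
  obtain ⟨e, he⟩ := exists_equiv_of_fiber
    (fun χ : {χ : G → ℂ // χ ∈ IrrSP p K} => F χ.1)
    (fun χ : {χ : G → ℂ // χ ∈ IrrSP p (NN K Z)} => F χ.1) (by
      intro c
      by_cases hc : ∃ φ ∈ Ca p Q H, O φ = c
      · obtain ⟨φ, hφ, rfl⟩ := hc
        rw [hfib K hK φ hφ, hfib (NN K Z) hN φ hφ]
        exact hcard φ hφ
      · rw [hfib0 K hK c hc, hfib0 (NN K Z) hN c hc])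
  have e1 : ∀ L : Subgroup G,
      Nat.card {χ : G → ℂ // χ ∈ IrrSP p L ∧ ∃ φ ∈ Ca p Q H, Bl Q H χ φ ∧ R φ} =
      Nat.card {χ : {χ : G → ℂ // χ ∈ IrrSP p L} // ∃ φ ∈ F χ.1, R φ} := by
    intro L
    refine Nat.card_congr (Equiv.trans (Equiv.subtypeEquivRight ?_)
      (Equiv.subtypeSubtypeEquivSubtypeInter (fun χ => χ ∈ IrrSP p L)
        (fun χ => ∃ φ ∈ F χ, R φ)).symm)
    intro χ
    refine and_congr_right (fun _ => ?_)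
    constructor
    · rintro ⟨φ, h1, h2, h3⟩
      exact ⟨φ, ⟨h1, h2⟩, h3⟩
    · rintro ⟨φ, ⟨h1, h2⟩, h3⟩
      exact ⟨φ, h1, h2, h3⟩
  rw [e1 K, e1 (NN K Z)]
  refine Nat.card_congr (e.subtypeEquiv ?_)
  intro χ
  have h1 : F (e χ).1 = F χ.1 := he χ
  rw [h1]

end Pool.Agent.Helper42.CY
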