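import Pool.Agent.Helper42.IR.ExtX
import Pool.Agent.Helper42.IR.SchurIrr
import Pool.Agent.Helper42.IR.Special
import Pool.Agent.Helper42.CY.Can

/-!
# CY-16 (project CY): the complement `X` and the extension of `φ` to `T`

`φ ∈ Ca p Q H`, `T = normalizer Z ⊓ stab φ ≥ C = Q ⊔ H`. Compare Helper42/IR/ExtX.lean.

* `exists_X`: `S = normalizer Q ⊓ stab φ` is contained in `T` (`normQ_Z`), `Q` is a normal Sylow
  `p`-subgroup of `S` (`syl`), so it has a complement `X0` in `S` (Schur-Zassenhaus,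
  `Subgroup.exists_right_complement'_of_coprime`); `X0` normalizes `H` (`norm_H`), `X = H ⊔ X0 = H X0` has order
  prime to `p`. `T = C S` (`frattini` and `C ≤ stab φ`), so every `t ∈ T` is `x z`, `x ∈ Q`, `z ∈ X`
  (`t = c s`, `c = x h`, `s = y z0`, `x h y z0 = (x y) (y⁻¹ h y z0)`, `y` normalizes `H`).
* `X_comm`: `X / (X ⊓ C(Z))` is abelian (`comm_cent`), `X ⊓ C(Z)` consists of elements of `C` of order prime to
  `p`, so it is `H` (`mem_H_iff`).
* `exists_tau`: for `z ∈ X`, `z = h s`, `h ∈ H`, `s ∈ X0`; let `y` generate `Q`; `s y s⁻¹ = y ^ c`, and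
  `z y z⁻¹ = h y ^ c h⁻¹ = y ^ c (y ^ (-c) h y ^ c) h⁻¹` is `y ^ c` modulo `H`; `c` is well defined modulo `|Q|` and
  `z ↦ c` is a homomorphism `X → (ZMod |Q|)ˣ` with kernel containing `H`; its image is isomorphic to a
  quotient of `X / H`, and `z ^ (p-1) ∈ X ⊓ C(Z) = H` (the group `(ZMod p)ˣ` of `exists_piQ` has order
  `p - 1`), so `c ^ (p - 1) = 1` modulo `|Q|`. Compose with the reduction `(ZMod |Q|)ˣ → (ZMod p)ˣ`.
* `exists_Phi`: `C` is normal in `T` with cyclic quotient (`exists_piQ Z`; kernel `C` on `T`), `φ` is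
  `T`-invariant, so it extends to `T` (`ext_cyclic_rel` of IR/E/CaseII.lean has this form, or `ext_cyclic` of
  ExtX.lean for the group `↥T`); integral matrix form of the extension: `exists_special` for the group `↥T`.
  Its size is `deg φ` (trace of `Φ 1 = 1`).
-/

namespace Pool.Agent.Helper42.CY

open Pool.Agent.Helper42.INC Pool.Agent.Helper42.IR Pool.Agent.Helper97.S4

variable {p : ℕ} [Fact p.Prime] {K : Type} [Group K] [Finite K] {Q Z H : Subgroup K}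
  (hL : LocC p (⊤ : Subgroup K) Q Z H)

/-- the product of two subgroups, the second normalizing the first -/
private def phic_prod {G : Type} [Group G] (A B : Subgroup G)
    (hn : ∀ s ∈ B, ∀ h ∈ A, s * h * s⁻¹ ∈ A) : Subgroup G where
  carrier := {g | ∃ h ∈ A, ∃ s ∈ B, g = h * s}
  one_mem' := ⟨1, A.one_mem, 1, B.one_mem, by rw [mul_one]⟩
  mul_mem' := by
    rintro _ _ ⟨h, hh, s, hs, rfl⟩ ⟨h', hh', s', hs', rfl⟩
    refine ⟨h * (s * h' * s⁻¹), A.mul_mem hh (hn s hs h' hh'), s * s', B.mul_mem hs hs', ?_⟩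
    group
  inv_mem' := by
    rintro _ ⟨h, hh, s, hs, rfl⟩
    refine ⟨s⁻¹ * h⁻¹ * s⁻¹⁻¹, hn _ (B.inv_mem hs) _ (A.inv_mem hh), s⁻¹, B.inv_mem hs, ?_⟩
    group

private lemma phic_pow {G : Type} [Group G] {A B : Subgroup G}
    (hn : ∀ s ∈ B, ∀ h ∈ A, s * h * s⁻¹ ∈ A) {h s : G} (hh : h ∈ A) (hs : s ∈ B) (n : ℕ) :
    (h * s) ^ n * (s ^ n)⁻¹ ∈ A := by
  induction n with
  | zero => simp
  | succ n ih =>
    have e : (h * s) ^ (n + 1) * (s ^ (n + 1))⁻¹ =
        ((h * s) ^ n * (s ^ n)⁻¹) * (s ^ n * h * (s ^ n)⁻¹) := by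
      rw [pow_succ, pow_succ]
      group
    rw [e]
    exact A.mul_mem ih (hn _ (B.pow_mem hs n) _ hh)

private lemma phic_card {G : Type} [Group G] [Finite G] {q : ℕ} (hq : q.Prime) {A B : Subgroup G}
    (hn : ∀ s ∈ B, ∀ h ∈ A, s * h * s⁻¹ ∈ A) (hA : ¬ q ∣ Nat.card A) (hB : ¬ q ∣ Nat.card B) :
    ¬ q ∣ Nat.card (phic_prod A B hn) := by
  intro hd
  have : Fact q.Prime := ⟨hq⟩
  obtain ⟨⟨g, h, hh, s, hs, rfl⟩, hg⟩ := exists_prime_orderOf_dvd_card' q hd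
  have hg' : orderOf (h * s) = q := by
    have e := Subgroup.orderOf_mk (h * s) (show h * s ∈ phic_prod A B hn from ⟨h, hh, s, hs, rfl⟩)
    rw [← e]
    exact hg
  have h1 := phic_pow hn hh hs (Nat.card B)
  have h2 : s ^ Nat.card B = 1 := by
    have h3 := pow_card_eq_one' (G := B) (x := ⟨s, hs⟩)
    exact congrArg Subtype.val h3
  rw [h2, inv_one, mul_one] at h1
  have h4 : (h * s) ^ (Nat.card B * Nat.card A) = 1 := by
    have h5 := pow_card_eq_one' (G := A) (x := ⟨_, h1⟩)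
    have h6 : ((h * s) ^ Nat.card B) ^ Nat.card A = 1 := congrArg Subtype.val h5
    rw [pow_mul, h6]
  have h7 : q ∣ Nat.card B * Nat.card A := by
    rw [← hg']
    exact orderOf_dvd_of_pow_eq_one h4
  rcases (Nat.Prime.dvd_mul hq).1 h7 with h8 | h8
  · exact hB h8
  · exact hA h8

omit [Finite K] in
private lemma phic_top (a : K) : a ∈ Subgroup.normalizer ((⊤ : Subgroup K) : Set K) := by
  rw [Subgroup.mem_normalizer_iff]
  intro x
  exact ⟨fun _ => Subgroup.mem_top _, fun _ => Subgroup.mem_top _⟩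

omit [Finite K] in
private lemma phic_nn {a : K} (ha : a ∈ Subgroup.normalizer (Z : Set K)) :
    a ∈ NN (⊤ : Subgroup K) Z := ⟨Subgroup.mem_top _, ha⟩

include hL

private lemma phic_normH {a : K} (ha : a ∈ Subgroup.normalizer (Z : Set K)) {h : K} (hh : h ∈ H) :
    a * h * a⁻¹ ∈ H :=
  (Subgroup.mem_normalizer_iff.1 (hL.norm_H (phic_top a) ha) h).1 hh

private lemma phic_sup {g : K} : g ∈ Q ⊔ H ↔ g ∈ Subgroup.centralizer (Z : Set K) := by
  rw [hL.sup, top_inf_eq]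

private lemma phic_CZ {g : K} (hg : g ∈ Q ⊔ H) : g ∈ Subgroup.normalizer (Z : Set K) :=
  (hL.sup_le hg).2

theorem exists_X {φ : K → ℂ} (hφ : φ ∈ Ca p Q H) :
    ∃ X : Subgroup K, H ≤ X ∧ X ≤ Subgroup.normalizer (Z : Set K) ⊓ stab φ ∧
      (∀ t ∈ Subgroup.normalizer (Z : Set K) ⊓ stab φ, ∃ x ∈ Q, ∃ z ∈ X, t = x * z) ∧
      ¬ p ∣ Nat.card X := by
  classical
  have hpr : p.Prime := Fact.out
  obtain ⟨a, ha2, hcQ⟩ := hL.cQ
  have hCst : Q ⊔ H ≤ NN (⊤ : Subgroup K) Z ⊓ stab φ := hL.C_le_stab hφ.1.1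
  set S : Subgroup K := Subgroup.normalizer (Q : Set K) ⊓ stab φ with hS
  have hQS : Q ≤ S := le_inf Subgroup.le_normalizer
    (le_sup_left.trans (hCst.trans inf_le_right))
  have hST : S ≤ Subgroup.normalizer (Z : Set K) ⊓ stab φ := fun s hs =>
    ⟨hL.normQ_Z hs.1, hs.2⟩
  have hnorm : (Q.subgroupOf S).Normal := by
    refine ⟨fun n hn g => ?_⟩
    rw [Subgroup.mem_subgroupOf] at hn ⊢
    have h1 : (g : K) ∈ Subgroup.normalizer (Q : Set K) := g.2.1
    have := (Subgroup.mem_normalizer_iff.mp h1 (n : K)).mp hn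
    simpa using this
  have hcard : Nat.card (Q.subgroupOf S) = p ^ a :=
    (Nat.card_congr (Subgroup.subgroupOfEquivOfLe hQS).toEquiv).trans hcQ
  have hnd : ¬ p ∣ (Q.subgroupOf S).index := by
    intro h
    apply hL.syl
    have h1 : Q.relIndex S * S.relIndex ⊤ = Q.relIndex ⊤ :=
      Subgroup.relIndex_mul_relIndex Q S ⊤ hQS le_top
    rw [← h1]
    exact Dvd.dvd.mul_right h _
  have hcop : Nat.Coprime (Nat.card (Q.subgroupOf S)) (Q.subgroupOf S).index := by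
    rw [hcard]
    exact ((Nat.Prime.coprime_iff_not_dvd hpr).mpr hnd).pow_left a
  obtain ⟨M, hM⟩ := Subgroup.exists_right_complement'_of_coprime hcop
  have hMcard : Nat.card M = (Q.subgroupOf S).index := by
    have h1 := hM.card_mul_card
    have h2 := (Q.subgroupOf S).card_mul_index
    have h3 : 0 < Nat.card (Q.subgroupOf S) := Nat.card_pos
    exact Nat.eq_of_mul_eq_mul_left h3 (h1.trans h2.symm)
  have hXcard : ¬ p ∣ Nat.card (M.map S.subtype) := by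
    rw [Subgroup.card_map_of_injective S.subtype_injective, hMcard]
    exact hnd
  have hXS : M.map S.subtype ≤ S := by
    rintro _ ⟨x, _, rfl⟩
    exact x.2
  have hdec : ∀ t ∈ S, ∃ x ∈ Q, ∃ z ∈ M.map S.subtype, t = x * z := by
    intro t ht
    obtain ⟨⟨a, b⟩, hab⟩ := hM.2 ⟨t, ht⟩
    have h1 : ((a : S) : K) * ((b : S) : K) = t := congrArg Subtype.val hab
    exact ⟨((a : S) : K), a.2, ((b : S) : K), ⟨_, b.2, rfl⟩, h1.symm⟩
  have hn : ∀ s ∈ M.map S.subtype, ∀ h ∈ H, s * h * s⁻¹ ∈ H := fun s hs h hh =>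
    phic_normH hL (hST (hXS hs)).1 hh
  have hHT : H ≤ Subgroup.normalizer (Z : Set K) ⊓ stab φ := fun h hh =>
    ⟨(hCst (le_sup_right (a := Q) hh)).1.2, (hCst (le_sup_right (a := Q) hh)).2⟩
  refine ⟨phic_prod H (M.map S.subtype) hn, fun h hh => ⟨h, hh, 1, Subgroup.one_mem _,
    (mul_one h).symm⟩, ?_, ?_, phic_card hpr hn hL.pH hXcard⟩
  · rintro _ ⟨h, hh, s, hs, rfl⟩
    exact Subgroup.mul_mem _ (hHT hh) (hST (hXS hs))
  · intro t ht
    obtain ⟨c, hc, b, hb, rfl⟩ := hL.frattini' (phic_nn ht.1)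
    have hbS : b ∈ S := by
      refine ⟨hb.2, ?_⟩
      have e : b = c⁻¹ * (c * b) := by group
      rw [e]
      exact Subgroup.mul_mem _ (Subgroup.inv_mem _ (hCst hc).2) ht.2
    obtain ⟨y, hy, z, hz, rfl⟩ := hdec b hbS
    obtain ⟨x, hx, h, hh, rfl⟩ := hL.mem_sup.1 hc
    have hyn : y⁻¹ * h * y⁻¹⁻¹ ∈ H := phic_normH hL
      (Subgroup.inv_mem _ (phic_CZ hL (le_sup_left (b := H) hy))) hh
    refine ⟨x * y, Q.mul_mem hx hy, (y⁻¹ * h * y⁻¹⁻¹) * z, ⟨_, hyn, z, hz, rfl⟩, ?_⟩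
    group

theorem X_comm {X : Subgroup K} (hX : X ≤ Subgroup.normalizer (Z : Set K))
    (hp : ¬ p ∣ Nat.card X) {a b : K} (ha : a ∈ X) (hb : b ∈ X) :
    a * b * a⁻¹ * b⁻¹ ∈ H := by
  have hmem : a * b * a⁻¹ * b⁻¹ ∈ X :=
    X.mul_mem (X.mul_mem (X.mul_mem ha hb) (X.inv_mem ha)) (X.inv_mem hb)
  rw [hL.mem_H_iff]
  refine ⟨(phic_sup hL).2 (comm_cent hL.cZ (hX ha) (hX hb)), fun hd =>
    hp (hd.trans (Subgroup.orderOf_dvd_natCard _ hmem))⟩

/-- the action modulo `H` is a power map -/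
private def phic_R {G : Type} [Group G] (Q H : Subgroup G) (z : G) (c : ℕ) : Prop :=
  ∀ y ∈ Q, z * y * z⁻¹ * (y ^ c)⁻¹ ∈ H

private lemma phic_exists {z : K} (hz : z ∈ Subgroup.normalizer (Z : Set K)) :
    ∃ c : ℕ, phic_R Q H z c := by
  obtain ⟨c0, hc0, b, hb, rfl⟩ := hL.frattini' (phic_nn hz)
  obtain ⟨g, hg⟩ := hL.cyc.exists_generator
  have hb' : b ∈ Subgroup.normalizer (Q : Set K) := hb.2
  have hbg : b * g * b⁻¹ ∈ Q := (Subgroup.mem_normalizer_iff.1 hb' (g : K)).1 g.2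
  have hpg : (⟨b * g * b⁻¹, hbg⟩ : Q) ∈ Submonoid.powers g := mem_powers_iff_mem_zpowers.2 (hg _)
  obtain ⟨c, hc⟩ := hpg
  have hc' : (g : K) ^ c = b * g * b⁻¹ := congrArg Subtype.val hc
  have hby : ∀ y ∈ Q, b * y * b⁻¹ = y ^ c := by
    intro y hy
    have hpy : (⟨y, hy⟩ : Q) ∈ Submonoid.powers g := mem_powers_iff_mem_zpowers.2 (hg _)
    obtain ⟨k, hk⟩ := hpy
    have hk' : (g : K) ^ k = y := congrArg Subtype.val hk
    rw [← hk', ← conj_pow, ← hc', ← pow_mul, ← pow_mul, mul_comm]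
  refine ⟨c, fun y hy => ?_⟩
  obtain ⟨x, hx, h, hh, rfl⟩ := hL.mem_sup.1 hc0
  have hyc : y ^ c ∈ Q := Q.pow_mem hy c
  have hycN : y ^ c ∈ Subgroup.normalizer (Z : Set K) := phic_CZ hL (le_sup_left (b := H) hyc)
  have hxN : x ∈ Subgroup.normalizer (Z : Set K) := phic_CZ hL (le_sup_left (b := H) hx)
  have e1 : x * h * b * y * (x * h * b)⁻¹ * (y ^ c)⁻¹ =
      x * (h * (y ^ c * h⁻¹ * (y ^ c)⁻¹)) * x⁻¹ * (x * y ^ c * x⁻¹ * (y ^ c)⁻¹) := by
    rw [← hby y hy]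
    group
  rw [e1, hL.commQ hx hyc, mul_inv_cancel_right, mul_inv_cancel, mul_one]
  exact phic_normH hL hxN (H.mul_mem hh (phic_normH hL hycN (H.inv_mem hh)))

private lemma phic_unique {z : K} {c c' : ℕ} (h : phic_R Q H z c) (h' : phic_R Q H z c') :
    c ≡ c' [MOD Nat.card Q] := by
  obtain ⟨g, hg⟩ := hL.cyc.exists_generator
  have h1 := H.mul_mem (H.inv_mem (h g g.2)) (h' g g.2)
  have e1 : (z * (g : K) * z⁻¹ * ((g : K) ^ c)⁻¹)⁻¹ * (z * (g : K) * z⁻¹ * ((g : K) ^ c')⁻¹) =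
      (g : K) ^ c * ((g : K) ^ c')⁻¹ := by
    group
  rw [e1] at h1
  have h2 := hL.disj (Q.mul_mem (Q.pow_mem g.2 c) (Q.inv_mem (Q.pow_mem g.2 c'))) h1
  have h3 : (g : K) ^ c = (g : K) ^ c' := mul_inv_eq_one.1 h2
  have h4 : g ^ c = g ^ c' := Subtype.ext h3
  rw [← orderOf_eq_card_of_forall_mem_zpowers hg]
  exact pow_eq_pow_iff_modEq.1 h4

private lemma phic_mul {z z' : K} (hz : z ∈ Subgroup.normalizer (Z : Set K)) {c c' : ℕ}
    (h : phic_R Q H z c) (h' : phic_R Q H z' c') : phic_R Q H (z * z') (c * c') := by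
  intro y hy
  have h1 := phic_normH hL hz (h' y hy)
  have h2 := h (y ^ c') (Q.pow_mem hy c')
  have e : z * z' * y * (z * z')⁻¹ * (y ^ (c * c'))⁻¹ =
      (z * (z' * y * z'⁻¹ * (y ^ c')⁻¹) * z⁻¹) * (z * y ^ c' * z⁻¹ * ((y ^ c') ^ c)⁻¹) := by
    rw [← pow_mul, mul_comm c' c]
    group
  rw [e]
  exact H.mul_mem h1 h2

private lemma phic_one {h : K} (hh : h ∈ H) : phic_R Q H h 1 := by
  intro y hy
  rw [pow_one]
  have e : h * y * h⁻¹ * y⁻¹ = h * (y * h⁻¹ * y⁻¹) := by group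
  rw [e]
  exact H.mul_mem hh (phic_normH hL (phic_CZ hL (le_sup_left (b := H) hy)) (H.inv_mem hh))

private lemma phic_powR {z : K} (hz : z ∈ Subgroup.normalizer (Z : Set K)) {c : ℕ}
    (h : phic_R Q H z c) (n : ℕ) : phic_R Q H (z ^ n) (c ^ n) := by
  induction n with
  | zero =>
    rw [pow_zero, pow_zero]
    exact phic_one hL H.one_mem
  | succ n ih =>
    rw [pow_succ, pow_succ]
    exact phic_mul hL (Subgroup.pow_mem _ hz n) ih h

theorem exists_tau {X : Subgroup K} (hHX : H ≤ X) (hX : X ≤ Subgroup.normalizer (Z : Set K))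
    (hp : ¬ p ∣ Nat.card X) :
    ∃ τ : X →* (ZMod p)ˣ, ∀ z : X, ∃ c : ℕ, (c : ZMod p) = ((τ z : (ZMod p)ˣ) : ZMod p) ∧
      c ^ (p - 1) ≡ 1 [MOD Nat.card Q] ∧ ∀ y ∈ Q, (z : K) * y * (z : K)⁻¹ * (y ^ c)⁻¹ ∈ H := by
  classical
  have hpr : p.Prime := Fact.out
  obtain ⟨a, ha2, hcQ⟩ := hL.cQ
  have hpN : p ∣ Nat.card Q := by
    rw [hcQ]
    exact dvd_pow_self p (by omega)
  choose c hc using fun z : X => phic_exists hL (hX z.2)
  let F : X →* ZMod (Nat.card Q) :=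
    { toFun := fun z => (c z : ZMod (Nat.card Q))
      map_one' := by
        have h1 := phic_unique hL (hc 1) (phic_one hL H.one_mem)
        have h2 := (ZMod.natCast_eq_natCast_iff _ _ _).2 h1
        rw [h2, Nat.cast_one]
      map_mul' := fun z z' => by
        have h1 := phic_unique hL (hc (z * z')) (phic_mul hL (hX z.2) (hc z) (hc z'))
        have h2 := (ZMod.natCast_eq_natCast_iff _ _ _).2 h1
        rw [h2, Nat.cast_mul] }
  refine ⟨(Units.map (ZMod.castHom hpN (ZMod p)).toMonoidHom).comp F.toHomUnits, fun z =>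
    ⟨c z, ?_, ?_, hc z⟩⟩
  · change (c z : ZMod p) = ZMod.castHom hpN (ZMod p) (c z : ZMod (Nat.card Q))
    rw [map_natCast]
  · obtain ⟨π, hπ⟩ := exists_piQ (p := p) Z hL.cZ
    have h1 : (z : K) ^ (p - 1) ∈ Subgroup.centralizer (Z : Set K) := by
      have h2 : π (⟨(z : K), hX z.2⟩ ^ (p - 1)) = 1 := by
        rw [map_pow]
        have h3 : Nat.card (ZMod p)ˣ = p - 1 := by
          rw [Nat.card_eq_fintype_card, ZMod.card_units_eq_totient, Nat.totient_prime hpr]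
        rw [← h3]
        exact pow_card_eq_one'
      exact (hπ _).1 h2
    have h2 : (z : K) ^ (p - 1) ∈ H := by
      rw [hL.mem_H_iff]
      refine ⟨(phic_sup hL).2 h1, fun hd => hp (hd.trans
        (Subgroup.orderOf_dvd_natCard _ (X.pow_mem z.2 _)))⟩
    exact phic_unique hL (phic_powR hL (hX z.2) (hc z) (p - 1)) (phic_one hL h2)

theorem exists_Phi {φ : K → ℂ} (hφ : φ ∈ Ca p Q H) :
    ∃ Φ : (Subgroup.normalizer (Z : Set K) ⊓ stab φ : Subgroup K) →*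
        Matrix (Fin (deg φ)) (Fin (deg φ)) (OO p),
      ∀ t : (Subgroup.normalizer (Z : Set K) ⊓ stab φ : Subgroup K), (t : K) ∈ Q ⊔ H →
        (((Φ t).trace : OO p) : ℂ) = φ t := by
  classical
  have hCst : Q ⊔ H ≤ NN (⊤ : Subgroup K) Z ⊓ stab φ := hL.C_le_stab hφ.1.1
  set T : Subgroup K := Subgroup.normalizer (Z : Set K) ⊓ stab φ with hT
  have hCT : Q ⊔ H ≤ T := fun x hx => ⟨(hCst hx).1.2, (hCst hx).2⟩
  have hmem : ∀ x : T, x ∈ (Q ⊔ H).subgroupOf T ↔ (x : K) ∈ Q ⊔ H := fun x =>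
    Subgroup.mem_subgroupOf
  have hN : ((Q ⊔ H).subgroupOf T).Normal := by
    constructor
    intro x hx g
    rw [hmem] at hx ⊢
    exact (Subgroup.mem_normalizer_iff.1 (hL.norm_sup (phic_top (g : K)) g.2.1) (x : K)).1 hx
  obtain ⟨π, hπ⟩ := exists_piQ (p := p) Z hL.cZ
  have hTN : T ≤ Subgroup.normalizer (Z : Set K) := inf_le_left
  have hker : (π.comp (Subgroup.inclusion hTN)).ker = (Q ⊔ H).subgroupOf T := by
    ext g
    rw [MonoidHom.mem_ker, hmem, phic_sup hL]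
    exact hπ _
  have hcyc : IsCyclic (T ⧸ (Q ⊔ H).subgroupOf T) := by
    have h1 : IsCyclic (T ⧸ (π.comp (Subgroup.inclusion hTN)).ker) :=
      isCyclic_of_injective (QuotientGroup.kerLift (π.comp (Subgroup.inclusion hTN)))
        (QuotientGroup.kerLift_injective _)
    exact isCyclic_of_injective (QuotientGroup.quotientMulEquivOfEq hker).symm.toMonoidHom
      (QuotientGroup.quotientMulEquivOfEq hker).symm.injective
  have hθ : (fun x : T => φ x) ∈ IrrS ((Q ⊔ H).subgroupOf T) := by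
    refine ⟨?_, ?_⟩
    · exact irr_comp (Subgroup.subgroupOfEquivOfLe hCT) hφ.1.1.1
    · intro x hx
      apply hφ.1.1.2
      rwa [Subgroup.mem_subgroupOf] at hx
  have hinv : ∀ g : T, cnj g (fun x : T => φ x) = fun x : T => φ x := by
    intro g
    funext x
    have h1 : cnj (g : K) φ = φ := g.2.2
    have h2 := congrFun h1 (x : K)
    exact h2
  obtain ⟨χ, hχ, hext⟩ := ext_cyclic ((Q ⊔ H).subgroupOf T) hcyc hθ hinv
  obtain ⟨n, R, hR, -, -⟩ := exists_special (p := p) hχ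
  have hn : n = deg φ := by
    have h1 := congrFun hR 1
    have h2 : chR R 1 = n := by
      change (((R 1).trace : OO p) : ℂ) = n
      rw [map_one, Matrix.trace_one]
      simp
    rw [h2, hext 1 (Subgroup.one_mem _)] at h1
    symm
    apply deg_eq
    exact h1.symm
  subst hn
  refine ⟨R, fun t ht => ?_⟩
  have h1 := congrFun hR t
  rw [hext t (by rw [Subgroup.mem_subgroupOf]; exact ht)] at h1
  exact h1

end Pool.Agent.Helper42.CY
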