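import Mathlib

/-!
# CY-14 (project CY): the weight vector for `x ^ (p ^ a) = 1` (Mathlib only)

Compare Helper42/IR/WtVec.lean (the case `a = 1`); all proofs are adaptations.

`A` an algebra over a field `k` of characteristic `p` (odd), `x ∈ A` with `x ^ (p ^ a) = 1`, `a ≥ 1`,
`u = wt k p r x = ∑_{j < p} j⁻¹ x ^ (j ^ r)` with `r = p ^ (a - 1)` (the term `j = 0` has coefficient
`(0 : k)⁻¹ = 0`).

* `wt_unit`: the polynomial `f = ∑ j⁻¹ X ^ (j ^ r)` has `f(1) = ∑ j⁻¹ = 0` (`p` odd) and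
  `f'(1) = ∑_{j=1}^{p-1} j⁻¹ j ^ r = p - 1 = -1`, as `j ^ r = j` in `F_p` (`r` a power of `p`). So
  `f = (X - 1) g` with `g(1) = -1`, and `v = g(x)` is `-1` plus a multiple of the nilpotent `x - 1`
  (`(x - 1) ^ (p ^ a) = x ^ (p ^ a) - 1 = 0`), hence invertible in the subalgebra generated by `x`.
* `wt_pow_q`, `wt_pow`: `u ^ m = (x - 1) ^ m v ^ m`, and `(x - 1) ^ (p ^ a - 1) = ∑_{j < p ^ a} x ^ j`
  (`(X - 1) ^ (p ^ a) = X ^ (p ^ a) - 1` and `k[X]` is a domain).
* `wt_semi`: `σ x = x ^ c σ`, `c ^ (p - 1) ≡ 1` modulo `p ^ a`. As `p - 1` divides `r - 1`, `c ≡ c ^ r` modulo `p ^ a`.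
  `σ u = ∑ j⁻¹ x ^ (c j ^ r) σ = ∑ j⁻¹ x ^ ((c j) ^ r) σ = c ∑ (c j)⁻¹ x ^ ((c j) ^ r) σ`, and
  `x ^ (m ^ r)` only depends on `m` modulo `p` (`m ≡ m'` modulo `p` implies `m ^ r ≡ m' ^ r` modulo
  `p ^ a`, `r = p ^ (a - 1)`); reindex `j ↦ c j` modulo `p`.
* `wt_comm`: `x - 1` is a polynomial in `u` (see the case `a = 1`).
-/

namespace Pool.Agent.Helper42.CY

/-- the weight vector -/
noncomputable def wt (k : Type) [Field k] (p r : ℕ) {A : Type} [Ring A] [Algebra k A] (x : A) : A :=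
  ∑ j ∈ Finset.range p, ((j : k)⁻¹) • x ^ (j ^ r)

section poly

open Polynomial

variable (p : ℕ) [Fact p.Prime] (k : Type) [Field k] [CharP k p]

/-- the polynomial of the weight vector -/
private noncomputable def wtP (r : ℕ) : k[X] :=
  ∑ j ∈ Finset.range p, C ((j : k)⁻¹) * X ^ (j ^ r)

private theorem X_sub_one_pow_q (a : ℕ) : ((X : k[X]) - 1) ^ p ^ a = X ^ p ^ a - 1 := by
  have h := sub_pow_char_pow (X : k[X]) (p := p) (n := a) 1
  rwa [one_pow] at h

private theorem X_sub_one_pow (a : ℕ) :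
    ((X : k[X]) - 1) ^ (p ^ a - 1) = ∑ j ∈ Finset.range (p ^ a), X ^ j := by
  have hp : 0 < p ^ a := Nat.pow_pos (Fact.out : p.Prime).pos
  have h0 : (X : k[X]) - 1 ≠ 0 := by
    have := X_sub_C_ne_zero (1 : k)
    rwa [C_1] at this
  apply mul_left_cancel₀ h0
  rw [mul_geom_sum, ← pow_succ', Nat.sub_add_cancel hp, X_sub_one_pow_q]

private theorem sum_inv (hp2 : p ≠ 2) : ∑ j ∈ Finset.range p, ((j : k)⁻¹) = 0 := by
  have hp := (Fact.out : p.Prime).one_lt
  obtain ⟨m, hm⟩ : ∃ m, p = m + 1 := ⟨p - 1, by omega⟩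
  have hpk : ((m : k) + 1) = 0 := by
    have := CharP.cast_eq_zero k p
    rw [hm] at this
    exact_mod_cast this
  have h2 : (2 : k) ≠ 0 := by
    intro h
    have h1 : ((2 : ℕ) : k) = 0 := by exact_mod_cast h
    rw [CharP.cast_eq_zero_iff k p] at h1
    have h3 := Nat.le_of_dvd (by norm_num) h1
    omega
  have hr : ∑ j ∈ Finset.range p, ((j : k)⁻¹) = ∑ j ∈ Finset.range m, (((j + 1 : ℕ) : k)⁻¹) := by
    rw [hm, Finset.sum_range_succ']
    simp
  rw [hr]
  have h3 := Finset.sum_range_reflect (fun j : ℕ => (((j + 1 : ℕ) : k)⁻¹)) m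
  have h4 : ∑ j ∈ Finset.range m, (((m - 1 - j + 1 : ℕ) : k)⁻¹) =
      ∑ j ∈ Finset.range m, (-(((j + 1 : ℕ) : k)⁻¹)) := by
    refine Finset.sum_congr rfl (fun j hj => ?_)
    rw [Finset.mem_range] at hj
    have h5 : ((m - 1 - j + 1 : ℕ) : k) = -((j + 1 : ℕ) : k) := by
      have h6 : (m - 1 - j + 1) + (j + 1) = m + 1 := by omega
      have h7 : ((m - 1 - j + 1 : ℕ) : k) + ((j + 1 : ℕ) : k) = 0 := by
        rw [← Nat.cast_add, h6]
        push_cast
        exact hpk
      exact eq_neg_of_add_eq_zero_left h7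
    rw [h5, inv_neg]
  rw [Finset.sum_neg_distrib] at h4
  set S := ∑ j ∈ Finset.range m, (((j + 1 : ℕ) : k)⁻¹) with hS
  have h8 : -S = S := by rw [← h4]; exact h3
  have h9 : 2 * S = 0 := by
    have := neg_eq_iff_add_eq_zero.1 h8
    rw [two_mul]
    exact this
  exact (mul_eq_zero.1 h9).resolve_left h2

private theorem natCast_pow_q (a j : ℕ) : ((j : k)) ^ p ^ a = (j : k) := by
  induction a with
  | zero => simp
  | succ a ih =>
    rw [pow_succ, pow_mul, ih]
    have := map_natCast (frobenius k p) j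
    rwa [frobenius_def] at this

private theorem wtP_factor (a : ℕ) (hp2 : p ≠ 2) : ∃ g b c : k[X],
    wtP p k (p ^ (a - 1)) = (X - 1) * g ∧ b * g + c * (X - 1) ^ p ^ a = 1 := by
  have hp := (Fact.out : p.Prime).one_lt
  have h1 : (wtP p k (p ^ (a - 1))).eval 1 = 0 := by
    unfold wtP
    rw [eval_finsetSum]
    simp only [eval_mul, eval_C, eval_pow, eval_X, one_pow, mul_one]
    exact sum_inv p k hp2
  obtain ⟨g, hg⟩ := (dvd_iff_isRoot.2 h1 : (X - C (1 : k)) ∣ wtP p k (p ^ (a - 1)))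
  have hd : (derivative (wtP p k (p ^ (a - 1)))).eval 1 = -1 := by
    unfold wtP
    rw [derivative_sum, eval_finsetSum]
    have h2 : ∀ j ∈ Finset.range p,
        (derivative (C ((j : k)⁻¹) * X ^ (j ^ p ^ (a - 1)))).eval 1 =
        if j = 0 then 0 else 1 := by
      intro j hj
      rw [Finset.mem_range] at hj
      rw [derivative_C_mul, derivative_X_pow]
      simp only [eval_mul, eval_C, eval_pow, eval_X, one_pow, mul_one, Nat.cast_pow,
        natCast_pow_q p k]
      split_ifs with h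
      · subst h; simp
      · refine inv_mul_cancel₀ ?_
        rw [Ne, CharP.cast_eq_zero_iff k p]
        intro hdv
        exact absurd (Nat.le_of_dvd (Nat.pos_of_ne_zero h) hdv) (by omega)
    rw [Finset.sum_congr rfl h2]
    obtain ⟨m, hm⟩ : ∃ m, p = m + 1 := ⟨p - 1, by omega⟩
    have hpk : ((m : k) + 1) = 0 := by
      have := CharP.cast_eq_zero k p
      rw [hm] at this
      exact_mod_cast this
    rw [hm, Finset.sum_range_succ']
    simp
    exact eq_neg_of_add_eq_zero_left hpk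
  have hg1 : g.eval 1 = -1 := by
    rw [hg, derivative_mul] at hd
    simpa using hd
  have hnd : ¬ (X - C (1 : k)) ∣ g := by
    rw [dvd_iff_isRoot, IsRoot, hg1]
    exact neg_ne_zero.2 one_ne_zero
  have hco : IsCoprime g ((X - C (1 : k)) ^ p ^ a) :=
    ((irreducible_X_sub_C (1 : k)).coprime_iff_not_dvd.2 hnd).symm.pow_right
  obtain ⟨b, c, hab⟩ := hco
  rw [C_1] at hab hg
  exact ⟨g, b, c, hg, hab⟩

variable {p k} {A : Type} [Ring A] [Algebra k A]

private theorem aeval_wtP (r : ℕ) (x : A) : aeval x (wtP p k r) = wt k p r x := by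
  unfold wtP wt
  rw [map_sum]
  refine Finset.sum_congr rfl (fun j _ => ?_)
  rw [map_mul, aeval_C, map_pow, aeval_X, Algebra.smul_def]

private theorem aeval_comm (x : A) (f g : k[X]) :
    aeval x f * aeval x g = aeval x g * aeval x f := by
  rw [← map_mul, mul_comm, map_mul]

private theorem sub_one_pow_q (a : ℕ) {x : A} (hx : x ^ p ^ a = 1) (k : Type) [Field k]
    [CharP k p] [Algebra k A] : (x - 1) ^ p ^ a = 0 := by
  have h := congrArg (Polynomial.aeval x) (X_sub_one_pow_q p k a)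
  simp only [map_pow, map_sub, Polynomial.aeval_X, map_one] at h
  rw [h, hx, sub_self]

private theorem sub_one_pow (a : ℕ) (k : Type) [Field k] [CharP k p] [Algebra k A] (x : A) :
    (x - 1) ^ (p ^ a - 1) = ∑ j ∈ Finset.range (p ^ a), x ^ j := by
  have h := congrArg (Polynomial.aeval x) (X_sub_one_pow p k a)
  simp only [map_pow, map_sub, map_sum, Polynomial.aeval_X, map_one] at h
  exact h

private theorem wt_factor (a : ℕ) {x : A} (hx : x ^ p ^ a = 1) (hp2 : p ≠ 2) :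
    ∃ g b : k[X], wt k p (p ^ (a - 1)) x = (x - 1) * aeval x g ∧
    aeval x b * aeval x g = 1 := by
  obtain ⟨g, b, c, hg, hab⟩ := wtP_factor p k a hp2
  refine ⟨g, b, ?_, ?_⟩
  · rw [← aeval_wtP, hg]
    simp
  · have h := congrArg (aeval x) hab
    simp only [map_add, map_mul, map_pow, map_sub, aeval_X, map_one] at h
    rw [sub_one_pow_q a hx k, mul_zero, add_zero] at h
    exact h

end poly

private theorem comm_sub_one {A : Type} [Ring A] {x v : A} (h : v * x = x * v) :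
    Commute (x - 1) v := by
  show (x - 1) * v = v * (x - 1)
  rw [sub_mul, mul_sub, h, one_mul, mul_one]

variable {p : ℕ} [Fact p.Prime] {k A : Type} [Field k] [CharP k p] [Ring A] [Algebra k A]
  {x : A} {a : ℕ}

theorem wt_unit (ha : 1 ≤ a) (hx : x ^ p ^ a = 1) (hp2 : p ≠ 2) :
    ∃ v w : A, v * w = 1 ∧ w * v = 1 ∧ v * x = x * v ∧ wt k p (p ^ (a - 1)) x = (x - 1) * v := by
  obtain ⟨g, b, h1, h2⟩ := wt_factor (k := k) a hx hp2
  refine ⟨Polynomial.aeval x g, Polynomial.aeval x b, ?_, h2, ?_, h1⟩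
  · rw [aeval_comm, h2]
  · have := aeval_comm (k := k) x g Polynomial.X
    rwa [Polynomial.aeval_X] at this

theorem wt_pow_q (ha : 1 ≤ a) (hx : x ^ p ^ a = 1) (hp2 : p ≠ 2) :
    wt k p (p ^ (a - 1)) x ^ p ^ a = 0 := by
  obtain ⟨v, w, -, -, h3, h4⟩ := wt_unit (k := k) ha hx hp2
  rw [h4, (comm_sub_one h3).mul_pow, sub_one_pow_q a hx k, zero_mul]

theorem wt_pow (ha : 1 ≤ a) (hx : x ^ p ^ a = 1) (hp2 : p ≠ 2) :
    ∃ v w : A, v * w = 1 ∧ w * v = 1 ∧ v * x = x * v ∧
      wt k p (p ^ (a - 1)) x ^ (p ^ a - 1) = (∑ j ∈ Finset.range (p ^ a), x ^ j) * v := by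
  obtain ⟨v, w, h1, h2, h3, h4⟩ := wt_unit (k := k) ha hx hp2
  have hvw : Commute v w := by show v * w = w * v; rw [h1, h2]
  refine ⟨v ^ (p ^ a - 1), w ^ (p ^ a - 1), ?_, ?_, ?_, ?_⟩
  · rw [← hvw.mul_pow, h1, one_pow]
  · rw [← hvw.symm.mul_pow, h2, one_pow]
  · exact ((show Commute v x from h3).pow_left _).eq
  · rw [h4, (comm_sub_one h3).mul_pow, sub_one_pow a k]

theorem wt_semi (ha : 1 ≤ a) (hx : x ^ p ^ a = 1) {σ : A} {c : ℕ}
    (hc : c ^ (p - 1) ≡ 1 [MOD p ^ a]) (h : σ * x = x ^ c * σ) :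
    σ * wt k p (p ^ (a - 1)) x = (c : k) • (wt k p (p ^ (a - 1)) x * σ) := by
  have hp := (Fact.out : p.Prime)
  set r := p ^ (a - 1) with hr
  have hpa : p ∣ p ^ a := dvd_pow_self p (by omega)
  have hcp : ¬ p ∣ c := by
    intro hd
    have h1 : c ^ (p - 1) ≡ 1 [MOD p] := hc.of_dvd hpa
    have h2 : c ^ (p - 1) ≡ 0 [MOD p] :=
      (Nat.modEq_zero_iff_dvd).2 (dvd_pow hd (by have := hp.two_le; omega))
    have h3 : (1 : ℕ) ≡ 0 [MOD p] := h1.symm.trans h2
    have h4 := (Nat.modEq_zero_iff_dvd).1 h3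
    exact hp.one_lt.ne' (Nat.dvd_one.1 h4)
  have hc0 : (c : k) ≠ 0 := by rwa [Ne, CharP.cast_eq_zero_iff k p]
  -- `c ≡ c ^ r`
  have hrm : ∃ m, r = 1 + (p - 1) * m := by
    rw [hr]
    generalize a - 1 = n
    induction n with
    | zero => exact ⟨0, by simp⟩
    | succ n ih =>
      obtain ⟨m, hm⟩ := ih
      refine ⟨1 + p * m, ?_⟩
      obtain ⟨q, hq⟩ : ∃ q, p = q + 1 := ⟨p - 1, by have := hp.one_lt; omega⟩
      rw [pow_succ, hm, hq]
      simp only [Nat.add_sub_cancel]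
      ring
  have hcr : c ^ r ≡ c [MOD p ^ a] := by
    obtain ⟨m, hm⟩ := hrm
    rw [hm, pow_add, pow_one, pow_mul]
    have h1 := (hc.pow m).mul_left c
    rwa [one_pow, mul_one] at h1
  have hxmod : ∀ {m m' : ℕ}, m ≡ m' [MOD p ^ a] → x ^ m = x ^ m' := by
    intro m m' hm
    rw [pow_eq_pow_mod m hx, pow_eq_pow_mod m' hx]
    rw [show m % p ^ a = m' % p ^ a from hm]
  have hmr : ∀ {m m' : ℕ}, m ≡ m' [MOD p] → m ^ r ≡ m' ^ r [MOD p ^ a] := by
    intro m m' hm
    have h1 : ((p : ℕ) : ℤ) ∣ (m : ℤ) - (m' : ℤ) := by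
      have := (Nat.modEq_iff_dvd.1 hm.symm)
      exact this
    have h2 := dvd_sub_pow_of_dvd_sub h1 (a - 1)
    rw [Nat.sub_add_cancel ha] at h2
    apply Nat.ModEq.symm
    rw [Nat.modEq_iff_dvd]
    push_cast
    rw [hr]
    exact_mod_cast h2
  have hpow : ∀ j : ℕ, σ * x ^ j = x ^ (c * j) * σ := by
    intro j
    induction j with
    | zero => simp
    | succ j ih =>
      rw [pow_succ, ← mul_assoc, ih, mul_assoc, h, ← mul_assoc, ← pow_add, Nat.mul_succ]
  let e : ℕ → ℕ := fun j => (c * j) % p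
  have hcop : Nat.Coprime c p := ((Nat.Prime.coprime_iff_not_dvd hp).2 hcp).symm
  have hinj : Set.InjOn e (Finset.range p : Set ℕ) := by
    intro i hi j hj hij
    have hi' : i < p := Finset.mem_range.1 hi
    have hj' : j < p := Finset.mem_range.1 hj
    have h1 : c * i ≡ c * j [MOD p] := hij
    have h2 : i ≡ j [MOD p] := Nat.ModEq.cancel_left_of_coprime (by
      rw [Nat.gcd_comm]; exact hcop) h1
    have h3 : i % p = j % p := h2
    rwa [Nat.mod_eq_of_lt hi', Nat.mod_eq_of_lt hj'] at h3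
  have himg : (Finset.range p).image e = Finset.range p := by
    apply Finset.eq_of_subset_of_card_le
    · intro y hy
      obtain ⟨j, -, rfl⟩ := Finset.mem_image.1 hy
      exact Finset.mem_range.2 (Nat.mod_lt _ hp.pos)
    · rw [Finset.card_image_of_injOn hinj]
  have hcast : ∀ j : ℕ, ((e j : ℕ) : k) = (c : k) * (j : k) := by
    intro j
    have h1 : ((c * j : ℕ) : k) = ((c * j % p : ℕ) : k) := by
      conv_lhs => rw [← Nat.mod_add_div (c * j) p]
      rw [Nat.cast_add, Nat.cast_mul, CharP.cast_eq_zero k p, zero_mul, add_zero]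
    simp only [e]
    rw [← h1, Nat.cast_mul]
  have hexp : ∀ j : ℕ, x ^ (c * j ^ r) = x ^ ((e j) ^ r) := by
    intro j
    apply hxmod
    have h1 : c * j ^ r ≡ (c * j) ^ r [MOD p ^ a] := by
      rw [mul_pow]
      exact (hcr.mul_right _).symm
    exact h1.trans (hmr (Nat.mod_modEq _ _).symm)
  have hmain : ∑ j ∈ Finset.range p, ((j : k)⁻¹) • x ^ (c * j ^ r) = (c : k) • wt k p r x := by
    unfold wt
    conv_rhs => rw [← himg, Finset.sum_image hinj, Finset.smul_sum]
    refine Finset.sum_congr rfl (fun j _ => ?_)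
    rw [smul_smul, hcast, mul_inv, ← mul_assoc, mul_inv_cancel₀ hc0, one_mul, hexp]
  calc σ * wt k p r x = ∑ j ∈ Finset.range p, ((j : k)⁻¹) • (σ * x ^ (j ^ r)) := by
        unfold wt
        rw [Finset.mul_sum]
        refine Finset.sum_congr rfl (fun j _ => ?_)
        rw [mul_smul_comm]
    _ = (∑ j ∈ Finset.range p, ((j : k)⁻¹) • x ^ (c * j ^ r)) * σ := by
        rw [Finset.sum_mul]
        refine Finset.sum_congr rfl (fun j _ => ?_)
        rw [hpow, smul_mul_assoc]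
    _ = (c : k) • (wt k p r x * σ) := by rw [hmain, smul_mul_assoc]

open Polynomial in
theorem wt_comm (ha : 1 ≤ a) (hx : x ^ p ^ a = 1) (hp2 : p ≠ 2) {π : A}
    (h : π * wt k p (p ^ (a - 1)) x = wt k p (p ^ (a - 1)) x * π) : π * x = x * π := by
  have hpos : 0 < p ^ a := Nat.pow_pos (Fact.out : p.Prime).pos
  obtain ⟨g, b, h1, h2⟩ := wt_factor (k := k) a hx hp2
  have hπ : Commute π (wt k p (p ^ (a - 1)) x) := h
  set u := wt k p (p ^ (a - 1)) x with hu
  set t := x - 1 with ht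
  have htx : t = aeval x (X - 1 : k[X]) := by simp [ht]
  -- `t = u w`
  have htu : t = u * aeval x b := by
    rw [h1, mul_assoc, aeval_comm, h2, mul_one]
  have hua : Commute u (aeval x b) := by
    rw [h1, htx, ← map_mul]
    exact aeval_comm _ _ _
  have key : ∀ n : ℕ, ∃ z : A, Commute π z ∧ ∃ r : k[X], t = z + t ^ (n + 1) * aeval x r := by
    intro n
    induction n with
    | zero => exact ⟨0, Commute.zero_right _, 1, by simp⟩
    | succ n ih =>
      obtain ⟨z, hz, r, hr⟩ := ih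
      obtain ⟨s, hs⟩ := (X_sub_C_dvd_sub_C_eval :
        (X - C (1 : k)) ∣ (b ^ (n + 1) * r) - C ((b ^ (n + 1) * r).eval 1))
      set c0 := (b ^ (n + 1) * r).eval 1 with hc0
      have hs' : b ^ (n + 1) * r = C c0 + (X - 1) * s := by
        rw [C_1] at hs
        rw [← hs]; ring
      have h3 : t ^ (n + 1) * aeval x r = c0 • u ^ (n + 1) + t ^ (n + 2) * aeval x (g ^ (n + 1) * s) := by
        have h4 : t ^ (n + 1) * aeval x r = u ^ (n + 1) * aeval x (b ^ (n + 1) * r) := by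
          rw [htu, hua.mul_pow, map_mul, map_pow, mul_assoc]
        have h5 : u ^ (n + 1) * (t * aeval x s) = t ^ (n + 2) * aeval x (g ^ (n + 1) * s) := by
          have h6 : u ^ (n + 1) = t ^ (n + 1) * aeval x (g ^ (n + 1)) := by
            rw [h1, Commute.mul_pow, map_pow]
            rw [htx]
            exact aeval_comm _ _ _
          rw [h6, htx, ← map_pow, ← map_pow, ← map_mul, ← map_mul, ← map_mul, ← map_mul]
          congr 1
          ring
        rw [h4, hs', map_add, map_mul, aeval_C, mul_add]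
        have h7 : aeval x (X - 1 : k[X]) = t := htx.symm
        rw [h7, h5, Algebra.smul_def]
        congr 1
        exact ((Algebra.commutes c0 (u ^ (n + 1)))).symm
      refine ⟨z + c0 • u ^ (n + 1), hz.add_right ((hπ.pow_right _).smul_right _),
        g ^ (n + 1) * s, ?_⟩
      rw [add_assoc, ← h3]
      exact hr
  obtain ⟨z, hz, r, hr⟩ := key (p ^ a - 1)
  rw [Nat.sub_add_cancel hpos, ht, sub_one_pow_q a hx k, zero_mul, add_zero] at hr
  have h8 : Commute π (x - 1) := by rw [hr]; exact hz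
  have h9 : Commute π x := by
    have := h8.add_right (Commute.one_right π)
    rwa [sub_add_cancel] at this
  exact h9.eq

end Pool.Agent.Helper42.CY
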