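import Pool.Agent.Helper42.CY.Key35
import Pool.Agent.Helper42.CY.WtC
import Pool.Agent.Helper42.IR.LA3
import Pool.Agent.Helper42.IR.ValAlg

/-!
# CY-21 (project CY): the rank inequality

Compare `rank_small` in Helper42/IR/Rank35.lean (its first part, the restriction of matrices to the range
of an idempotent, `res`, `pull`, ..., is private there: copy it).

Apply `dim_ker_le` (IR/LA3.lean) with `k = kk p`, `p := q = |Q| = p ^ a`, `W` the range of `E = toK (Eph ..)`, `X` from
`exists_X`, the subgroup `H.subgroupOf X` of `X`, `σ x` the restriction of `toK (R x)` to `W` (`toK (R x)` commutes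
with `E` for `x ∈ T`, by `sR` for `B = 1`), `s` the restriction of `s` to `W`, `φ := toK ∘ Φ` on `X`,
`u` the restriction of `wt k p (p ^ (a-1)) (A y)` to `W` (in the algebra `End W`, where `A 1 = E` is the identity, so
`A y ^ (p ^ a) = 1`). `hs`: `sR`. `hH`: `RE` and `hH` for `h ∈ H`: `R h E = s(Φ h) E = s(Φ h)`. `hspan`: `sspan`.
`hab`: `X_comm`. `τ`: the homomorphism of `exists_tau` followed by `(ZMod p)ˣ → kˣ`. `hu`: `σ z = s(Φ z) A z` on
`W`, where `s(..)` commutes with `A y` and `A z A y = A (z y z⁻¹) A z`, `z y z⁻¹ = h y ^ c` with `h ∈ H`, so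
`A (z y z⁻¹) = A y ^ c`; `wt_semi`. `hup`: `wt_pow_q`.
`hkey`: given `π : W → W` commuting with `u` and the `σ x`, let `π'` be the matrix of `v ↦ π (E v)`; `E π' = π' = π' E`;
`π'` commutes with `R z E` for `z ∈ X`, so with the `s B` (`sspan`, `H ≤ X`), and with `A y` (`wt_comm`), so with
`R x E = s(Φ x) A x` for `x ∈ Q` and with `R t`, `t ∈ T = Q X`. Apply `key35`: `ker u` is the space of the `w ∈ W` with
`A y w = w` (`wt_unit`), and `range (u ^ (q - 1))` is `N W`, `N = ∑_{x ∈ Q} A x` (`wt_pow`; the powers `y ^ j`,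
`j < q`, are the elements of `Q`).
Conclusion: `dim ker u ≤ d + dim N W`; `dim ker u = rank E - rank (A y - E)`, `dim N W = rank N`.
-/

namespace Pool.Agent.Helper42.CY

open Pool.Agent.Helper42.INC Pool.Agent.Helper42.IR Pool.Agent.Helper97.S4

/-! ### restriction of matrices to the range of an idempotent -/

section res

variable {F : Type} [Field F] {n : ℕ} (E : Matrix (Fin n) (Fin n) F)

/-- the range of `E` -/
private abbrev rgW : Submodule F (Fin n → F) := LinearMap.range E.mulVecLin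

/-- the compression of a matrix to the range of `E` -/
private noncomputable def res : Matrix (Fin n) (Fin n) F →ₗ[F] (rgW E →ₗ[F] rgW E) where
  toFun A := (E.mulVecLin.rangeRestrict).comp (A.mulVecLin.comp (rgW E).subtype)
  map_add' A B := by
    apply LinearMap.ext
    intro w
    apply Subtype.ext
    change E.mulVec ((A + B).mulVec (w : Fin n → F)) =
      E.mulVec (A.mulVec (w : Fin n → F)) + E.mulVec (B.mulVec (w : Fin n → F))
    rw [Matrix.add_mulVec, Matrix.mulVec_add]
  map_smul' c A := by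
    apply LinearMap.ext
    intro w
    apply Subtype.ext
    change E.mulVec ((c • A).mulVec (w : Fin n → F)) = c • E.mulVec (A.mulVec (w : Fin n → F))
    rw [Matrix.smul_mulVec, Matrix.mulVec_smul]

private lemma res_coe (A : Matrix (Fin n) (Fin n) F) (w : rgW E) :
    (res E A w : Fin n → F) = E.mulVec (A.mulVec (w : Fin n → F)) := rfl

variable {E} (hE : E * E = E)

include hE in
private lemma mem_rgW {v : Fin n → F} : v ∈ rgW E ↔ E.mulVec v = v := by
  constructor
  · rintro ⟨w, rfl⟩
    change E.mulVec (E.mulVec w) = E.mulVec w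
    rw [Matrix.mulVec_mulVec, hE]
  · intro h
    exact ⟨v, h⟩

include hE in
private lemma res_coe' {A : Matrix (Fin n) (Fin n) F} (hA : A * E = E * A) (w : rgW E) :
    (res E A w : Fin n → F) = A.mulVec (w : Fin n → F) := by
  rw [res_coe, Matrix.mulVec_mulVec, ← hA, ← Matrix.mulVec_mulVec, (mem_rgW hE).1 w.2]

include hE in
private lemma res_mul {A : Matrix (Fin n) (Fin n) F} (hA : A * E = E * A)
    (B : Matrix (Fin n) (Fin n) F) : res E (A * B) = res E A * res E B := by
  apply LinearMap.ext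
  intro w
  apply Subtype.ext
  rw [Module.End.mul_apply, res_coe, res_coe' hE hA, res_coe, Matrix.mulVec_mulVec,
    Matrix.mulVec_mulVec, Matrix.mulVec_mulVec, ← mul_assoc, hA]

include hE in
private lemma res_mul' (A : Matrix (Fin n) (Fin n) F) {B : Matrix (Fin n) (Fin n) F}
    (hB : B * E = E * B) : res E (A * B) = res E A * res E B := by
  apply LinearMap.ext
  intro w
  apply Subtype.ext
  rw [Module.End.mul_apply, res_coe, res_coe, res_coe' hE hB, ← Matrix.mulVec_mulVec _ A]

include hE in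
private lemma res_one : res E 1 = 1 := by
  apply LinearMap.ext
  intro w
  apply Subtype.ext
  rw [res_coe, Matrix.one_mulVec, (mem_rgW hE).1 w.2]
  rfl

include hE in
private lemma res_E : res E E = 1 := by
  apply LinearMap.ext
  intro w
  apply Subtype.ext
  rw [res_coe, (mem_rgW hE).1 w.2, (mem_rgW hE).1 w.2]
  rfl

variable (E) in
/-- a matrix extending an endomorphism of the range of `E` -/
private noncomputable def pull (π : rgW E →ₗ[F] rgW E) : Matrix (Fin n) (Fin n) F :=
  LinearMap.toMatrix' ((rgW E).subtype.comp (π.comp E.mulVecLin.rangeRestrict))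

private lemma pull_mulVec (π : rgW E →ₗ[F] rgW E) (v : Fin n → F) :
    (pull E π).mulVec v = (π (E.mulVecLin.rangeRestrict v) : Fin n → F) := by
  unfold pull
  rw [LinearMap.toMatrix'_mulVec]
  rfl

include hE in
private lemma rr_mulVec (v : Fin n → F) :
    E.mulVecLin.rangeRestrict (E.mulVec v) = E.mulVecLin.rangeRestrict v := by
  apply Subtype.ext
  change E.mulVec (E.mulVec v) = E.mulVec v
  rw [Matrix.mulVec_mulVec, hE]

include hE in
private lemma rr_coe (w : rgW E) : E.mulVecLin.rangeRestrict (w : Fin n → F) = w := by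
  apply Subtype.ext
  change E.mulVec (w : Fin n → F) = w
  exact (mem_rgW hE).1 w.2

private lemma ext_mulVec {A B : Matrix (Fin n) (Fin n) F} (h : ∀ v, A.mulVec v = B.mulVec v) :
    A = B := by
  apply Matrix.toLin'.injective
  apply LinearMap.ext
  intro v
  rw [Matrix.toLin'_apply, Matrix.toLin'_apply, h v]

include hE in
private lemma E_pull (π : rgW E →ₗ[F] rgW E) : E * pull E π = pull E π := by
  apply ext_mulVec
  intro v
  rw [← Matrix.mulVec_mulVec, pull_mulVec]
  exact (mem_rgW hE).1 (π _).2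

include hE in
private lemma pull_E (π : rgW E →ₗ[F] rgW E) : pull E π * E = pull E π := by
  apply ext_mulVec
  intro v
  rw [← Matrix.mulVec_mulVec, pull_mulVec, pull_mulVec, rr_mulVec hE]

include hE in
private lemma pull_comm (π : rgW E →ₗ[F] rgW E) {A : Matrix (Fin n) (Fin n) F}
    (hA : A * E = E * A) (h : π * res E A = res E A * π) : A * pull E π = pull E π * A := by
  apply ext_mulVec
  intro v
  rw [← Matrix.mulVec_mulVec, ← Matrix.mulVec_mulVec, pull_mulVec, pull_mulVec]
  have h1 : E.mulVecLin.rangeRestrict (A.mulVec v) = res E A (E.mulVecLin.rangeRestrict v) := by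
    apply Subtype.ext
    rw [res_coe' hE hA]
    change E.mulVec (A.mulVec v) = A.mulVec (E.mulVec v)
    rw [Matrix.mulVec_mulVec, Matrix.mulVec_mulVec, hA]
  rw [h1, ← Module.End.mul_apply, h, Module.End.mul_apply, res_coe' hE hA]

include hE in
private lemma pull_pow (π : rgW E →ₗ[F] rgW E) (j : ℕ) (w : rgW E) :
    (pull E π ^ j).mulVec (w : Fin n → F) = ((π ^ j) w : Fin n → F) := by
  induction j with
  | zero => rw [pow_zero, pow_zero, Matrix.one_mulVec]; rfl
  | succ j ih =>
    rw [pow_succ', pow_succ', ← Matrix.mulVec_mulVec, ih, pull_mulVec, rr_coe hE,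
      Module.End.mul_apply]

include hE in
private lemma rank_res {A : Matrix (Fin n) (Fin n) F} (hA : A * E = E * A) :
    (A * E).rank = Module.finrank F (LinearMap.range (res E A)) := by
  have h1 : LinearMap.range (A * E).mulVecLin =
      (LinearMap.range (res E A)).map (rgW E).subtype := by
    apply le_antisymm
    · rintro _ ⟨v, rfl⟩
      refine ⟨res E A (E.mulVecLin.rangeRestrict v), ⟨_, rfl⟩, ?_⟩
      change (res E A (E.mulVecLin.rangeRestrict v) : Fin n → F) = (A * E).mulVec v
      rw [res_coe' hE hA, ← Matrix.mulVec_mulVec]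
      rfl
    · rintro _ ⟨_, ⟨w, rfl⟩, rfl⟩
      refine ⟨w, ?_⟩
      change (A * E).mulVec (w : Fin n → F) = (res E A w : Fin n → F)
      rw [res_coe' hE hA, ← Matrix.mulVec_mulVec, (mem_rgW hE).1 w.2]
  unfold Matrix.rank
  rw [h1]
  exact (LinearEquiv.finrank_eq
    (Submodule.equivMapOfInjective (rgW E).subtype (rgW E).injective_subtype
      (LinearMap.range (res E A)))).symm

end res

private lemma unit_aux {A : Type} [Ring A] {x v w : A} (hwv : w * v = 1) (hvx : v * x = x * v) :
    w * ((x - 1) * v) = x - 1 ∧ (x - 1) * v = v * (x - 1) := by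
  constructor
  · rw [sub_mul, one_mul, ← hvx, mul_sub, ← mul_assoc, hwv, one_mul]
  · rw [sub_mul, one_mul, ← hvx, mul_sub, mul_one]

private theorem rank_aux {p : ℕ} [Fact p.Prime] (hp2 : p ≠ 2) {K : Type} [Group K] [Finite K]
    {n d : ℕ} (R : K →* Matrix (Fin n) (Fin n) (OO p)) {T Q H X : Subgroup K} {a : ℕ}
    (ha1 : 1 ≤ a) (hQa : Nat.card Q = p ^ a) {φ : K → ℂ} {E0 : Matrix (Fin n) (Fin n) (OO p)}
    {Φ : T →* Matrix (Fin d) (Fin d) (OO p)}
    {s : Matrix (Fin d) (Fin d) (kk p) →ₗ[kk p] Matrix (Fin n) (Fin n) (kk p)}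
    {A : T → Matrix (Fin n) (Fin n) (OO p)} (hW : WD R T Q H φ E0 Φ s A)
    (hQT : Q ≤ T) {y : Q} (hy : ∀ x : Q, x ∈ Subgroup.zpowers y)
    (hHX : H ≤ X) (hXT : X ≤ T) (hT : ∀ t ∈ T, ∃ x ∈ Q, ∃ z ∈ X, t = x * z)
    (hpX : ¬ p ∣ Nat.card X) (hcomm : ∀ a ∈ X, ∀ b ∈ X, a * b * a⁻¹ * b⁻¹ ∈ H)
    (τ0 : X →* (ZMod p)ˣ)
    (hτ0 : ∀ z : X, ∃ c : ℕ, (c : ZMod p) = ((τ0 z : (ZMod p)ˣ) : ZMod p) ∧
      c ^ (p - 1) ≡ 1 [MOD Nat.card Q] ∧ ∀ y ∈ Q, (z : K) * y * (z : K)⁻¹ * (y ^ c)⁻¹ ∈ H)
    (hkey35 : ∀ π : Matrix (Fin n) (Fin n) (kk p), toK E0 * π = π → π * toK E0 = π →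
      (∀ t ∈ T, toK (R t) * π = π * toK (R t)) →
      (∃ j : ℕ, ∀ v : Fin n → kk p, (toK (A (Subgroup.inclusion hQT y))).mulVec v = v →
        ∃ w : Fin n → kk p, (toK E0).mulVec w = w ∧
          (π ^ j).mulVec v = (∑ᶠ x : Q, toK (A (Subgroup.inclusion hQT x))).mulVec w) ∨
      (∀ v : Fin n → kk p, (toK (A (Subgroup.inclusion hQT y))).mulVec v = v →
        π.mulVec v = 0 → ∃ w : Fin n → kk p, (toK E0).mulVec w = w ∧
          v = (∑ᶠ x : Q, toK (A (Subgroup.inclusion hQT x))).mulVec w)) :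
    (toK E0).rank ≤ (toK (A (Subgroup.inclusion hQT y) - E0)).rank +
      (toK (∑ᶠ x : Q, A (Subgroup.inclusion hQT x))).rank + d := by
  classical
  have hp : p.Prime := Fact.out
  have : Fintype Q := Fintype.ofFinite Q
  have hE : toK E0 * toK E0 = toK E0 := by rw [← toK_mul, hW.hE]
  have hΦΦ : ∀ t : T, toK (Φ t) * toK (Φ t⁻¹) = 1 := by
    intro t
    rw [← toK_mul, ← map_mul, mul_inv_cancel, map_one, toK_one]
  have hcT : ∀ t : T, toK (R t) * toK E0 = toK E0 * toK (R t) := by
    intro t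
    rw [← hW.s1, hW.sR, mul_one, hΦΦ]
  have hA1 : toK (A 1) = toK E0 := by rw [hW.one]
  have hAmul : ∀ t t', toK (A (t * t')) = toK (A t) * toK (A t') := by
    intro t t'
    rw [hW.mul, toK_mul]
  have hAE : ∀ t, toK (A t) * toK E0 = toK (A t) := by
    intro t
    rw [← hA1, ← hAmul, mul_one]
  have hEA : ∀ t, toK E0 * toK (A t) = toK (A t) := by
    intro t
    rw [← hA1, ← hAmul, one_mul]
  have hAc : ∀ t, toK (A t) * toK E0 = toK E0 * toK (A t) := fun t => by rw [hAE, hEA]
  have hs1 : s 1 = toK E0 := hW.s1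
  have hsm := hW.smul
  have hsA := hW.sA
  have hRE := hW.RE
  have hsR := hW.sR
  have hsp := hW.sspan
  have hAH : ∀ t : T, (t : K) ∈ H → toK (A t) = toK E0 := fun t ht => by rw [hW.hH t ht]
  have eAy : toK (A (Subgroup.inclusion hQT y) - E0) =
      toK (A (Subgroup.inclusion hQT y)) - toK E0 := toK_sub _ _
  have eN : toK (∑ᶠ x : Q, A (Subgroup.inclusion hQT x)) =
      ∑ᶠ x : Q, toK (A (Subgroup.inclusion hQT x)) := by
    rw [finsum_eq_sum_of_fintype, finsum_eq_sum_of_fintype, toK_sum]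
  rw [eAy, eN]
  generalize toK E0 = E at *
  have hsE : ∀ B, s B * E = E * s B := by
    intro B
    rw [← hs1, ← hsm, ← hsm, mul_one, one_mul]
  -- the action on the multiplicity space
  let α : T →* (rgW E →ₗ[kk p] rgW E) :=
    { toFun := fun t => res E (toK (A t))
      map_one' := by
        rw [hA1, res_E hE]
      map_mul' := by
        intro t t'
        rw [hAmul, res_mul hE (hAc t)] }
  have hα : ∀ t, α t = res E (toK (A t)) := fun _ => rfl
  let s' : Matrix (Fin d) (Fin d) (kk p) →ₐ[kk p] (rgW E →ₗ[kk p] rgW E) :=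
    AlgHom.ofLinearMap ((res E).comp s)
      (by
        change res E (s 1) = 1
        rw [hs1]
        exact res_E hE)
      (by
        intro A B
        change res E (s (A * B)) = res E (s A) * res E (s B)
        rw [hsm, res_mul hE (hsE A)])
  have hs' : ∀ B, s' B = res E (s B) := fun _ => rfl
  have hαs : ∀ t B, α t * s' B = s' B * α t := by
    intro t B
    rw [hα, hs', ← res_mul hE (hAc t), ← res_mul hE (hsE B), hsA]
  have hρ : ∀ t : T, res E (toK (R t)) = s' (toK (Φ t)) * α t := by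
    intro t
    rw [hα, hs', ← res_mul hE (hsE _), ← hRE, res_mul' hE _ rfl, res_E hE, mul_one]
  have hαH : ∀ t : T, (t : K) ∈ H → α t = 1 := by
    intro t ht
    rw [hα, hAH t ht, res_E hE]
  -- the generator
  let y' : T := Subgroup.inclusion hQT y
  have hord : orderOf y = p ^ a := by
    rw [← hQa]
    exact orderOf_eq_card_of_forall_mem_zpowers hy
  have hyq : y' ^ p ^ a = 1 := by
    change (Subgroup.inclusion hQT y) ^ p ^ a = 1
    rw [← map_pow, ← hord, pow_orderOf_eq_one, map_one]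
  have hxq : (α y') ^ p ^ a = 1 := by rw [← map_pow, hyq, map_one]
  have hgen : ∀ x : Q, ∃ j : ℕ, y ^ j = x := by
    intro x
    have h1 := hy x
    rw [← mem_powers_iff_mem_zpowers] at h1
    exact h1
  -- the norm
  have hN : (∑ᶠ x : Q, toK (A (Subgroup.inclusion hQT x))) =
      ∑ j ∈ Finset.range (p ^ a), toK (A (y' ^ j)) := by
    rw [finsum_eq_sum_of_fintype]
    symm
    refine Finset.sum_bij (fun j _ => (y ^ j : Q)) (fun j _ => Finset.mem_univ _)
      ?_ ?_ ?_
    · intro b hb c hc hbc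
      have h1 : y ^ b = y ^ c := hbc
      rw [pow_eq_pow_iff_modEq, hord] at h1
      exact h1.eq_of_lt_of_lt (Finset.mem_range.1 hb) (Finset.mem_range.1 hc)
    · intro x _
      obtain ⟨j, hj⟩ := hgen x
      refine ⟨j % p ^ a, Finset.mem_range.2 (Nat.mod_lt _ (pow_pos hp.pos a)), ?_⟩
      rw [← hj, ← hord, pow_mod_orderOf]
    · intro j _
      change toK (A ((Subgroup.inclusion hQT y) ^ j)) = toK (A (Subgroup.inclusion hQT (y ^ j)))
      rw [map_pow]
  have hNE : (∑ᶠ x : Q, toK (A (Subgroup.inclusion hQT x))) * E =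
      E * (∑ᶠ x : Q, toK (A (Subgroup.inclusion hQT x))) := by
    rw [hN, Finset.sum_mul, Finset.mul_sum]
    exact Finset.sum_congr rfl fun j _ => hAc _
  have hNE' : (∑ᶠ x : Q, toK (A (Subgroup.inclusion hQT x))) * E =
      (∑ᶠ x : Q, toK (A (Subgroup.inclusion hQT x))) := by
    rw [hN, Finset.sum_mul]
    exact Finset.sum_congr rfl fun j _ => hAE _
  have hNres : res E (∑ᶠ x : Q, toK (A (Subgroup.inclusion hQT x))) =
      ∑ j ∈ Finset.range (p ^ a), (α y') ^ j := by
    rw [hN, map_sum]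
    exact Finset.sum_congr rfl fun j _ => map_pow α y' j
  generalize (∑ᶠ x : Q, toK (A (Subgroup.inclusion hQT x))) = N at *
  -- the representation of `X`
  let σ : Representation (kk p) X (rgW E) :=
    { toFun := fun x => res E (toK (R (x : K)))
      map_one' := by
        rw [show ((1 : X) : K) = 1 from rfl, map_one, toK_one, res_one hE]
      map_mul' := by
        intro a b
        rw [Subgroup.coe_mul, map_mul, toK_mul]
        exact res_mul hE (hcT (Subgroup.inclusion hXT a)) _ }
  have hσ : ∀ x : X, σ x = s' (toK (Φ (Subgroup.inclusion hXT x))) *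
      α (Subgroup.inclusion hXT x) := fun x => hρ (Subgroup.inclusion hXT x)
  let ΦX : X →* Matrix (Fin d) (Fin d) (kk p) :=
    { toFun := fun x => toK (Φ (Subgroup.inclusion hXT x))
      map_one' := by rw [map_one, map_one, toK_one]
      map_mul' := by
        intro a b
        rw [map_mul, map_mul, toK_mul] }
  have hΦX : ∀ x : X, ΦX x = toK (Φ (Subgroup.inclusion hXT x)) := fun _ => rfl
  let τ : X →* (kk p)ˣ := (Units.map (ZMod.castHom (dvd_refl p) (kk p)).toMonoidHom).comp τ0
  have hτ : ∀ z : X, ∀ c : ℕ, (c : ZMod p) = ((τ0 z : (ZMod p)ˣ) : ZMod p) →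
      ((τ z : (kk p)ˣ) : kk p) = (c : kk p) := by
    intro z c hc
    change (ZMod.castHom (dvd_refl p) (kk p)) ((τ0 z : (ZMod p)ˣ) : ZMod p) = (c : kk p)
    rw [← hc, map_natCast]
  have hXcard : (Nat.card X : kk p) ≠ 0 := by
    intro h
    exact hpX ((CharP.cast_eq_zero_iff (kk p) p _).1 h)
  obtain ⟨v, w, hvw, hwv, hvx, hu⟩ :=
    wt_unit (k := kk p) (A := (rgW E →ₗ[kk p] rgW E)) ha1 hxq hp2
  obtain ⟨v', w', hvw', hwv', hvx', hup⟩ :=
    wt_pow (k := kk p) (A := (rgW E →ₗ[kk p] rgW E)) ha1 hxq hp2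
  have h2q : 2 ≤ p ^ a := by
    calc 2 ≤ p := hp.two_le
      _ = p ^ 1 := (pow_one p).symm
      _ ≤ p ^ a := Nat.pow_le_pow_right hp.pos ha1
  have key := dim_ker_le hXcard σ (p ^ a) h2q (H.subgroupOf X) s' ΦX ?_ ?_ ?_ ?_ τ
    (wt (kk p) p (p ^ (a - 1)) (α y')) ?_ (wt_pow_q ha1 hxq hp2) ?_
  · have e1 : LinearMap.ker (wt (kk p) p (p ^ (a - 1)) (α y')) =
        LinearMap.ker (res E (toK (A y') - E)) := by
      rw [map_sub, res_E hE]
      obtain ⟨h2, h3⟩ := unit_aux hwv hvx
      ext z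
      rw [LinearMap.mem_ker, LinearMap.mem_ker, ← hα]
      constructor
      · intro hz
        rw [← h2, ← hu, Module.End.mul_apply, hz, map_zero]
      · intro hz
        rw [hu, h3, Module.End.mul_apply, hz, map_zero]
    have e2 : LinearMap.range (wt (kk p) p (p ^ (a - 1)) (α y') ^ (p ^ a - 1)) =
        LinearMap.range (res E N) := by
      rw [hup, hNres]
      apply le_antisymm
      · rintro _ ⟨z, rfl⟩
        exact ⟨v' z, rfl⟩
      · rintro _ ⟨z, rfl⟩
        refine ⟨w' z, ?_⟩
        rw [← Module.End.mul_apply, mul_assoc, hvw', mul_one]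
    have e3 : (toK (A y') - E).rank =
        Module.finrank (kk p) (LinearMap.range (res E (toK (A y') - E))) := by
      rw [← rank_res hE (by rw [sub_mul, mul_sub, hAc]), sub_mul, hAE, hE]
    have e4 : N.rank = Module.finrank (kk p) (LinearMap.range (res E N)) := by
      rw [← rank_res hE hNE, hNE']
    have e6 := LinearMap.finrank_range_add_finrank_ker (res E (toK (A y') - E))
    rw [e1, e2] at key
    have e7 : E.rank = Module.finrank (kk p) (rgW E) := rfl
    change E.rank ≤ (toK (A y') - E).rank + N.rank + d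
    rw [e3, e4, e7]
    omega
  · -- `hs`
    intro x B
    have h0 : σ x = res E (toK (R (Subgroup.inclusion hXT x : T))) := rfl
    have h0' : ΦX x⁻¹ = toK (Φ (Subgroup.inclusion hXT x)⁻¹) := by rw [hΦX, map_inv]
    rw [h0', hΦX, h0, hs', hs', ← res_mul hE (hcT _), ← res_mul hE (hsE _), hsR]
  · intro h hh
    rw [hσ, hΦX, hαH _ (Subgroup.mem_subgroupOf.1 hh), mul_one]
  · intro B
    rw [hs']
    have h2 := Submodule.mem_map_of_mem (f := res E) (hsp B)
    rw [Submodule.map_span] at h2
    refine Submodule.span_mono ?_ h2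
    rintro _ ⟨_, ⟨h, rfl⟩, rfl⟩
    exact ⟨⟨⟨h, hHX h.2⟩, Subgroup.mem_subgroupOf.2 h.2⟩, rfl⟩
  · intro b c
    rw [Subgroup.mem_subgroupOf]
    exact hcomm _ b.2 _ c.2
  · intro z
    obtain ⟨c, hc1, hc2, hc3⟩ := hτ0 z
    rw [hτ z c hc1]
    rw [hQa] at hc2
    refine wt_semi ha1 hxq hc2 ?_
    -- `α z * α y' = (α y') ^ c * α z`
    have h1 : α (Subgroup.inclusion hXT z) * α y' =
        α y' ^ c * α (Subgroup.inclusion hXT z) := by
      have h2 : (Subgroup.inclusion hXT z) * y' =
          ((Subgroup.inclusion hXT z) * y' * (Subgroup.inclusion hXT z)⁻¹ * (y' ^ c)⁻¹) *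
            (y' ^ c) * (Subgroup.inclusion hXT z) := by group
      rw [← map_mul, h2, map_mul, map_mul, hαH, one_mul, map_pow]
      exact hc3 y y.2
    rw [hσ, mul_assoc, h1, ← mul_assoc, ← mul_assoc]
    congr 1
    rw [← map_pow, hαs]
  · -- `hkey`
    intro π hπu hπσ
    have hπy : π * α y' = α y' * π := wt_comm ha1 hxq hp2 hπu
    have hPX : ∀ x ∈ X, toK (R x) * pull E π = pull E π * toK (R x) := fun x hx =>
      pull_comm hE π (hcT ⟨x, hXT hx⟩) (hπσ ⟨x, hx⟩)
    have hPs : ∀ B, s B * pull E π = pull E π * s B := by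
      intro B
      have h1 : ∀ M ∈ Submodule.span (kk p) (Set.range fun h : H => toK (R (h : K))),
          M * pull E π = pull E π * M := by
        intro M hM
        induction hM using Submodule.span_induction with
        | mem x hx =>
          obtain ⟨h, rfl⟩ := hx
          exact hPX h (hHX h.2)
        | zero => rw [zero_mul, mul_zero]
        | add x z _ _ hx hz => rw [add_mul, mul_add, hx, hz]
        | smul c x _ hx => rw [smul_mul_assoc, mul_smul_comm, hx]
      exact h1 _ (hsp B)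
    have hPA : ∀ j : ℕ, toK (A (y' ^ j)) * pull E π = pull E π * toK (A (y' ^ j)) := by
      intro j
      refine pull_comm hE π (hAc _) ?_
      rw [← hα, map_pow]
      have h1 : Commute π (α y') := hπy
      exact (h1.pow_right j).eq
    have hEP : E * pull E π = pull E π := E_pull hE π
    have hPE : pull E π * E = pull E π := pull_E hE π
    have hPQ : ∀ x ∈ Q, toK (R x) * pull E π = pull E π * toK (R x) := by
      intro x hx
      obtain ⟨j, hj⟩ := hgen ⟨x, hx⟩
      have h1 : (y' ^ j : T) = ⟨x, hQT hx⟩ := by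
        apply Subtype.ext
        have h0 : ((y ^ j : Q) : K) = x := congrArg Subtype.val hj
        change ((Subgroup.inclusion hQT y) ^ j : T).1 = x
        rw [← map_pow]
        exact h0
      have h2 := hRE (y' ^ j)
      have h3 : toK (R x) * E = s (toK (Φ (y' ^ j))) * toK (A (y' ^ j)) := by
        rw [← h2, h1]
      have h4 : toK (R x) * E = E * toK (R x) := hcT ⟨x, hQT hx⟩
      calc toK (R x) * pull E π = (toK (R x) * E) * pull E π := by rw [mul_assoc, hEP]
        _ = pull E π * (toK (R x) * E) := by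
            rw [h3, mul_assoc, hPA, ← mul_assoc, hPs, mul_assoc]
        _ = pull E π * toK (R x) := by rw [h4, ← mul_assoc, hPE]
    have hPT : ∀ t ∈ T, toK (R t) * pull E π = pull E π * toK (R t) := by
      intro t ht
      obtain ⟨x, hx, z, hz, rfl⟩ := hT t ht
      rw [map_mul, toK_mul, mul_assoc, hPX z hz, ← mul_assoc, hPQ x hx, mul_assoc]
    have hker : ∀ z : rgW E, wt (kk p) p (p ^ (a - 1)) (α y') z = 0 →
        (toK (A y')).mulVec (z : Fin n → kk p) = z := by
      intro z hz
      have h1 : (α y' - 1) z = 0 := by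
        obtain ⟨h2, -⟩ := unit_aux hwv hvx
        rw [← h2, ← hu, Module.End.mul_apply, hz, map_zero]
      have h3 : α y' z = z := sub_eq_zero.1 h1
      have h4 := congrArg (Subtype.val) h3
      rw [hα, res_coe' hE (hAc _)] at h4
      exact h4
    have hran : ∀ z : rgW E, res E N z ∈
        LinearMap.range (wt (kk p) p (p ^ (a - 1)) (α y') ^ (p ^ a - 1)) := by
      intro z
      refine ⟨w' z, ?_⟩
      rw [hup, hNres, ← Module.End.mul_apply, mul_assoc, hvw', mul_one]
    rcases hkey35 (pull E π) hEP hPE hPT with ⟨j, hj⟩ | h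
    · left
      refine ⟨j, fun z hz => ?_⟩
      obtain ⟨w1, hw1, hw2⟩ := hj z (hker z hz)
      rw [pull_pow hE] at hw2
      have h1 : (π ^ j) z = res E N ⟨w1, (mem_rgW hE).2 hw1⟩ := by
        apply Subtype.ext
        rw [res_coe' hE hNE]
        exact hw2
      rw [h1]
      exact hran _
    · right
      intro z hz hπz
      have h0 : (pull E π).mulVec (z : Fin n → kk p) = 0 := by
        rw [pull_mulVec, rr_coe hE, hπz]
        rfl
      obtain ⟨w1, hw1, hw2⟩ := h z (hker z hz) h0
      have h1 : z = res E N ⟨w1, (mem_rgW hE).2 hw1⟩ := by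
        apply Subtype.ext
        rw [res_coe' hE hNE]
        exact hw2
      rw [h1]
      exact hran _

theorem rank_small {p : ℕ} [Fact p.Prime] (hp2 : p ≠ 2) {K : Type} [Group K] [Finite K] {n d : ℕ}
    (R : K →* Matrix (Fin n) (Fin n) (OO p)) {Q Z H : Subgroup K}
    (hL : LocC p (⊤ : Subgroup K) Q Z H) (hLoc : LocalR R) {φ : K → ℂ} (hφ : φ ∈ Ca p Q H)
    {Φ : (Subgroup.normalizer (Z : Set K) ⊓ stab φ : Subgroup K) →*
      Matrix (Fin d) (Fin d) (OO p)}
    {s : Matrix (Fin d) (Fin d) (kk p) →ₗ[kk p] Matrix (Fin n) (Fin n) (kk p)}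
    {A : (Subgroup.normalizer (Z : Set K) ⊓ stab φ : Subgroup K) → Matrix (Fin n) (Fin n) (OO p)}
    (hW : WD R (Subgroup.normalizer (Z : Set K) ⊓ stab φ) Q H φ (Eph R H (rst H φ)) Φ s A)
    (hQT : Q ≤ Subgroup.normalizer (Z : Set K) ⊓ stab φ) {y : Q}
    (hy : ∀ x : Q, x ∈ Subgroup.zpowers y) :
    (toK (Eph R H (rst H φ))).rank ≤
      (toK (A (Subgroup.inclusion hQT y) - Eph R H (rst H φ))).rank +
        (toK (∑ᶠ x : Q, A (Subgroup.inclusion hQT x))).rank + d := by
  obtain ⟨a, ha2, hQa⟩ := hL.cQ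
  obtain ⟨X, hHX, hXT, hT, hpX⟩ := exists_X hL hφ
  have hXZ : X ≤ Subgroup.normalizer (Z : Set K) := fun x hx => (hXT hx).1
  obtain ⟨τ0, hτ0⟩ := exists_tau hL hHX hXZ hpX
  exact rank_aux hp2 R (by omega) hQa hW hQT hy hHX hXT hT hpX
    (fun a ha b hb => X_comm hL hXZ hpX ha hb) τ0 hτ0
    (fun π h1 h2 h3 => key35 R hL hLoc hφ hW hQT hy π h1 h2 h3)

end Pool.Agent.Helper42.CY
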