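import Pool.Agent.Helper42.CY.Nice
import Pool.Agent.Helper97.S4.Shape

/-!
# Project IR, section 4 (S4-12): numbers of characters in a block

`FF` = full support over `φ`, `EE` = in the block of `φ` without full support, `Tr` = all nontrivial
characters of `Q` are conjugate under the stabilizer of `φ` in `NN K Q`, `ee` = index of `Q ⊔ H` in
this stabilizer.
-/

namespace Pool.Agent.Helper42.CY

open Pool.Agent.Helper42.INC Pool.Agent.Helper42.IR Pool.Agent.Helper97.S4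

variable {G : Type} [Group G] [Finite G] {p : ℕ} [Fact p.Prime] {K Q Z H : Subgroup G}

/-- From `Pkg.norm`: in the sum over `χ ∈ IrrS K` of `aa χ lam φ * aa χ lam' φ` the terms with
`p ∣ deg χ` vanish (`Pkg.def0`), the others are `0` or `ε * ε = 1` (`Nice.sgn`), so the sum is the
number of `χ ∈ IrrSP p K` with both factors nonzero. -/
theorem card_both (hL : LocC p K Q Z H) (hPK : Pkg p K Q Z H) {φ : G → ℂ} (hφ : φ ∈ Ca p Q H)
    {lam lam' : G → ℂ} (hl : lam ∈ IrrS Q) (hl' : lam' ∈ IrrS Q) (h1 : lam ≠ oneS Q)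
    (h1' : lam' ≠ oneS Q) :
    (Cj K Q φ lam lam' → Nat.card {χ : G → ℂ // χ ∈ IrrSP p K ∧ aa Q H χ lam φ ≠ 0 ∧
      aa Q H χ lam' φ ≠ 0} = ee K Q H φ + 1) ∧
    (¬ Cj K Q φ lam lam' → Nat.card {χ : G → ℂ // χ ∈ IrrSP p K ∧ aa Q H χ lam φ ≠ 0 ∧
      aa Q H χ lam' φ ≠ 0} = ee K Q H φ) := by
  classical
  have hfin : Finite (IrrS K) := (irrS_finite K).to_subtype
  have := Fintype.ofFinite (IrrS K)
  set S : Set (G → ℂ) := {χ | χ ∈ IrrSP p K ∧ aa Q H χ lam φ ≠ 0 ∧ aa Q H χ lam' φ ≠ 0} with hS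
  have hterm : ∀ χ : IrrS K, aa Q H χ.1 lam φ * aa Q H χ.1 lam' φ =
      if χ.1 ∈ S then (1 : ℂ) else 0 := by
    intro χ
    by_cases hd : p ∣ deg χ.1
    · have h2 : χ.1 ∉ S := fun h => h.1.2 hd
      rw [if_neg h2]
      have h3 : aa Q H χ.1 lam φ = 0 := by
        by_contra hne
        exact hPK.def0 χ.1 χ.2 hd φ hφ ⟨lam, hl, hne⟩
      rw [h3, zero_mul]
    · have hSP : χ.1 ∈ IrrSP p K := ⟨χ.2, hd⟩
      obtain ⟨ε, hε, hs⟩ := (nice_K hL hPK hSP).sgn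
      have hee : ε * ε = 1 := by rcases hε with h | h <;> rw [h] <;> norm_num
      rcases hs φ hφ lam hl with h2 | h2
      · have h3 : χ.1 ∉ S := fun h => h.2.1 h2
        rw [if_neg h3, h2, zero_mul]
      · rcases hs φ hφ lam' hl' with h4 | h4
        · have h3 : χ.1 ∉ S := fun h => h.2.2 h4
          rw [if_neg h3, h4, mul_zero]
        · have hε0 : ε ≠ 0 := by
            intro h0
            rw [h0, zero_mul] at hee
            exact zero_ne_one hee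
          have h3 : χ.1 ∈ S := ⟨hSP, by rw [h2]; exact hε0, by rw [h4]; exact hε0⟩
          rw [if_pos h3, h2, h4, hee]
  have hsum : ∑ᶠ χ : IrrS K, aa Q H χ.1 lam φ * aa Q H χ.1 lam' φ = (Nat.card S : ℂ) := by
    rw [finsum_eq_sum_of_fintype, Finset.sum_congr rfl (fun χ _ => hterm χ), Finset.sum_boole]
    congr 1
    rw [← Fintype.card_subtype, ← Nat.card_eq_fintype_card]
    exact Nat.card_congr (Equiv.subtypeSubtypeEquivSubtype (p := fun χ => χ ∈ IrrS K)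
      (q := fun χ => χ ∈ S) (fun h => h.1.1))
  have hn := hPK.norm φ hφ lam hl lam' hl' h1 h1'
  rw [hsum] at hn
  constructor
  · intro hC
    have hC' : ∃ n ∈ NN K Q, cnj n φ = φ ∧ cnj n lam = lam' := hC
    rw [if_pos hC'] at hn
    have h5 : (Nat.card S : ℂ) = ((ee K Q H φ + 1 : ℕ) : ℂ) := by
      rw [hn, ee]; push_cast; ring
    exact_mod_cast h5
  · intro hC
    have hC' : ¬ ∃ n ∈ NN K Q, cnj n φ = φ ∧ cnj n lam = lam' := hC
    rw [if_neg hC', add_zero] at hn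
    have h5 : (Nat.card S : ℂ) = ((ee K Q H φ : ℕ) : ℂ) := by
      rw [hn, ee]
    exact_mod_cast h5

/-- From `Pkg.shape`: `NE` gives full support; in the case `EX` the support over `φ` is the orbit of
`l0`. -/
theorem full_or (hPK : Pkg p K Q Z H) {φ : G → ℂ} (hφ : φ ∈ Ca p Q H) {χ : G → ℂ}
    (hχ : χ ∈ BB p K Q H φ) :
    Full Q H χ φ ∨ ∃ l0 ∈ IrrS Q, l0 ≠ oneS Q ∧
      ∀ lam ∈ IrrS Q, lam ≠ oneS Q → (aa Q H χ lam φ ≠ 0 ↔ Cj K Q φ l0 lam) := by
  obtain ⟨ε, hε, hs⟩ := hPK.shape χ hχ.1 φ hφ hχ.2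
  have hε0 : ε ≠ 0 := by
    rcases hε with h | h <;> rw [h] <;> norm_num
  rcases hs with h | ⟨l0, hl0, hne, h⟩
  · left
    intro lam hl h1
    rw [h lam hl h1]
    exact hε0
  · right
    refine ⟨l0, hl0, hne, fun lam hl h1 => ?_⟩
    constructor
    · intro h2
      by_contra hcon
      exact h2 ((h lam hl h1).2 hcon)
    · intro h2
      rw [(h lam hl h1).1 h2]
      exact hε0

/-- for `χ ∈ EE` the support over `φ` is the orbit of each of its elements (`full_or`, `Cj_trans`) -/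
theorem EE_support (hL : LocC p K Q Z H) (hPK : Pkg p K Q Z H) {φ : G → ℂ} (hφ : φ ∈ Ca p Q H) {χ lam : G → ℂ}
    (hχ : χ ∈ EE p K Q H φ) (hl : lam ∈ IrrS Q) (h0 : aa Q H χ lam φ ≠ 0) {lam' : G → ℂ}
    (hl' : lam' ∈ IrrS Q) (h1' : lam' ≠ oneS Q) :
    aa Q H χ lam' φ ≠ 0 ↔ Cj K Q φ lam lam' := by
  have h1 : lam ≠ oneS Q := by
    intro h
    rw [h] at h0
    exact h0 (aa_oneS hL χ φ)
  rcases full_or hPK hφ hχ.1 with h | ⟨l0, hl0, hne, h⟩
  · exact absurd h hχ.2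
  · have h2 : Cj K Q φ l0 lam := (h lam hl h1).1 h0
    rw [h lam' hl' h1']
    exact ⟨fun h3 => Cj_trans (Cj_symm h2) h3, fun h3 => Cj_trans h2 h3⟩

/-- If `lam`, `lam'` are nontrivial and not conjugate, the set of `card_both` is `FF`: a character of
the block without full support has support one orbit (`full_or`). -/
theorem card_FF (hL : LocC p K Q Z H) (hPK : Pkg p K Q Z H) {φ : G → ℂ} (hφ : φ ∈ Ca p Q H) : Nat.card (FF p K Q H φ) = ee K Q H φ := by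
  obtain ⟨lam, hl, lam', hl', h1, h1', hC⟩ := exists_not_Cj hL hφ
  rw [← (card_both hL hPK hφ hl hl' h1 h1').2 hC]
  apply Nat.card_congr
  refine Equiv.subtypeEquivRight (fun χ => ?_)
  constructor
  · intro hχ
    exact ⟨hχ.1, hχ.2 lam hl h1, hχ.2 lam' hl' h1'⟩
  · rintro ⟨h2, h3, h4⟩
    refine ⟨h2, ?_⟩
    rcases full_or hPK hφ (χ := χ) ⟨h2, lam, hl, h3⟩ with h | ⟨l0, hl0, hne, h⟩
    · exact h
    · exact absurd (Cj_trans (Cj_symm ((h lam hl h1).1 h3)) ((h lam' hl' h1').1 h4)) hC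

/-- In the nontransitive case the set of `card_both` for `lam = lam'` has `ee + 1` elements and
contains `FF`, which has `ee` elements, so exactly one element outside `FF`. -/
theorem EE_unique (hL : LocC p K Q Z H) (hPK : Pkg p K Q Z H) {φ : G → ℂ} (hφ : φ ∈ Ca p Q H)
    {lam : G → ℂ} (hl : lam ∈ IrrS Q) (h1 : lam ≠ oneS Q) :
    ∃! χ : G → ℂ, χ ∈ EE p K Q H φ ∧ aa Q H χ lam φ ≠ 0 := by
  set T : Set (G → ℂ) := {χ | χ ∈ IrrSP p K ∧ aa Q H χ lam φ ≠ 0 ∧ aa Q H χ lam φ ≠ 0} with hTd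
  have hTc : T.ncard = ee K Q H φ + 1 := (card_both hL hPK hφ hl hl h1 h1).1 (Cj_refl K Q φ lam)
  have hFc : (FF p K Q H φ).ncard = ee K Q H φ := card_FF hL hPK hφ
  have hTfin : T.Finite := (irrS_finite K).subset (fun χ hχ => hχ.1.1)
  have hFT : FF p K Q H φ ⊆ T := fun χ hχ => ⟨hχ.1, hχ.2 lam hl h1, hχ.2 lam hl h1⟩
  have h2 : (T \ FF p K Q H φ).ncard = 1 := by
    have := Set.ncard_sdiff_add_ncard_of_subset hFT hTfin
    omega
  have hmem : ∀ χ, χ ∈ T \ FF p K Q H φ ↔ (χ ∈ EE p K Q H φ ∧ aa Q H χ lam φ ≠ 0) := by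
    intro χ
    constructor
    · rintro ⟨h3, h4⟩
      refine ⟨⟨⟨h3.1, lam, hl, h3.2.1⟩, fun h5 => h4 ⟨h3.1, h5⟩⟩, h3.2.1⟩
    · rintro ⟨h3, h4⟩
      exact ⟨⟨h3.1.1, h4, h4⟩, fun h5 => h3.2 h5.2⟩
  obtain ⟨a, ha⟩ := Set.ncard_eq_one.1 h2
  refine ⟨a, ?_, ?_⟩
  · apply (hmem a).1
    rw [ha]
    exact Set.mem_singleton a
  · intro b hb
    have h3 := (hmem b).2 hb
    rw [ha] at h3
    exact h3

end Pool.Agent.Helper42.CY
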