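import Pool.Agent.Helper42.CY.Blk

/-!
# CY-25 (project CY): uniqueness of the block

Compare `bs_conj` in Helper42/IR/BSepC.lean. `χ = chR R` of degree `n`; `φ`, `ρ ∈ Ca p Q H` with
`m = ip H χ φ`, `m' = ip H χ ρ` prime to `p`. CLAIM: `ρ` is conjugate to `φ` under `N = normalizer Z`. Suppose not.
Let `ε_φ = ∑ Eph R H ψ` over the `N`-orbit of `rst H φ` in `IrrS H` (`rst_cnj`: it consists of the
`rst H (cnj t φ)`), `ε_ρ` likewise; they commute with `R t`, `t ∈ N` (`Eph_conj`, `norm_H`), and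
`ε_φ ε_ρ = 0` (`Eph_mul_ne`, `ca_ext`: the orbits are disjoint). By `keyO_top` `ε_φ = c - trQ b`,
`c n = |K : N| tr ε_φ` and `tr ε_φ = |orbit| deg φ m` (`trace_Eph`; the multiplicities are constant on the
orbit as `χ` is a class function), a unit of `OO p`: `|orbit| = |N : T|` with `Q ⊔ H ≤ T` (`index_prime`),
`p ∤ |K : N|` (`index_mod`). Hence `c` is a unit, and so is `tr ε_ρ`. Taking traces in
`0 = ε_φ ε_ρ = c ε_ρ - trQ (b ε_ρ)` (`trQ_mul`, `trace_trQ`): `c tr ε_ρ = |Q| tr (b ε_ρ)` is in the maximal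
ideal, a contradiction. So there is `t ∈ N` with `cnj t φ = ρ`; by `frattini'` `t = c b`, `c ∈ Q ⊔ H`,
`b ∈ NN ⊤ Q`, and `cnj b φ = cnj c⁻¹ ρ = ρ`.
-/

namespace Pool.Agent.Helper42.CY

open Pool.Agent.Helper42.INC Pool.Agent.Helper42.IR Pool.Agent.Helper97.S4

variable {p : ℕ} [Fact p.Prime] {K : Type} [Group K] [Finite K] {Q Z H : Subgroup K}

omit [Finite K] in
private theorem ub_mem {t : K} (ht : t ∈ Subgroup.normalizer (H : Set K)) {φ : K → ℂ}
    (hφ : φ ∈ IrrS H) : cnj t φ ∈ IrrS H := by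
  have hmem : ∀ x, x ∈ H ↔ t⁻¹ * x * t ∈ H := Subgroup.mem_normalizer_iff''.1 ht
  constructor
  · let e : H ≃* H :=
      { toFun := fun x => ⟨t⁻¹ * x * t, (hmem x).1 x.2⟩
        invFun := fun x => ⟨t * x * t⁻¹, (Subgroup.mem_normalizer_iff.1 ht x).1 x.2⟩
        left_inv := fun x => by apply Subtype.ext; change t * (t⁻¹ * x * t) * t⁻¹ = x; group
        right_inv := fun x => by apply Subtype.ext; change t⁻¹ * (t * x * t⁻¹) * t = x; group
        map_mul' := fun x y => by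
          apply Subtype.ext
          change t⁻¹ * (x * y) * t = (t⁻¹ * x * t) * (t⁻¹ * y * t)
          group }
    exact irr_comp e hφ.1
  · intro x hx
    exact hφ.2 _ (fun h => hx ((hmem x).2 h))

omit [Finite K] [Fact p.Prime] in
private theorem ub_deg (t : K) (φ : K → ℂ) : deg (cnj t φ) = deg φ := by
  unfold deg cnj
  simp

omit [Finite K] in
private theorem ub_ip {n : ℕ} (R : K →* Matrix (Fin n) (Fin n) (OO p)) {t : K}
    (ht : t ∈ Subgroup.normalizer (H : Set K)) (φ : K → ℂ) :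
    ip H (chR R) (cnj t φ) = ip H (chR R) φ := by
  have hmem : ∀ x, x ∈ H ↔ t⁻¹ * x * t ∈ H := Subgroup.mem_normalizer_iff''.1 ht
  let e : H ≃ H :=
    { toFun := fun x => ⟨t⁻¹ * x * t, (hmem x).1 x.2⟩
      invFun := fun x => ⟨t * x * t⁻¹, (Subgroup.mem_normalizer_iff.1 ht x).1 x.2⟩
      left_inv := fun x => by apply Subtype.ext; change t * (t⁻¹ * x * t) * t⁻¹ = x; group
      right_inv := fun x => by apply Subtype.ext; change t⁻¹ * (t * x * t⁻¹) * t = x; group }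
  unfold ip B
  congr 1
  symm
  rw [← finsum_comp_equiv e]
  apply finsum_congr
  intro x
  change chR R (t⁻¹ * x * t) * φ (t⁻¹ * x * t)⁻¹ = chR R x * φ (t⁻¹ * (x : K)⁻¹ * t)
  have e1 : (t⁻¹ * (x : K) * t)⁻¹ = t⁻¹ * (x : K)⁻¹ * t := by group
  have e2 : chR R (t⁻¹ * x * t) = chR R x := by
    unfold chR
    rw [mul_assoc, map_mul, Matrix.trace_mul_comm, ← map_mul]
    congr 3
    group
  rw [e1, e2]

omit [Fact p.Prime] [Finite K] in
private theorem ub_deg_rst (φ : K → ℂ) : deg (rst H φ) = deg φ := by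
  unfold deg rst
  rw [if_pos H.one_mem]

omit [Fact p.Prime] [Finite K] in
private theorem ub_ip_rst (χ φ : K → ℂ) : ip H χ (rst H φ) = ip H χ φ := by
  have h : (fun h : H => rst H φ (h : K)) = (fun h : H => φ (h : K)) := by
    funext h
    unfold rst
    rw [if_pos h.2]
  unfold ip
  rw [h]

omit [Finite K] in
private theorem ub_irrS_top {χ : K → ℂ} (h : χ ∈ IrrS (⊤ : Subgroup K)) : χ ∈ Irr K :=
  irr_comp (Subgroup.topEquiv (G := K)).symm h.1

/-- the orbit has cardinality prime to `p` -/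
private theorem ub_orbit (hL : LocC p (⊤ : Subgroup K) Q Z H) {φ : K → ℂ} (hφ : φ ∈ Ca p Q H)
    (O : Finset (K → ℂ))
    (hO : ∀ ψ, ψ ∈ O ↔ ∃ t ∈ Subgroup.normalizer (Z : Set K), cnj t (rst H φ) = ψ) :
    ¬ p ∣ O.card := by
  classical
  have := Fintype.ofFinite K
  have hNN : NN (⊤ : Subgroup K) Z = Subgroup.normalizer (Z : Set K) := by
    unfold NN
    rw [top_inf_eq]
  have hst : ∀ t ∈ Subgroup.normalizer (Z : Set K),
      (cnj t (rst H φ) = rst H φ ↔ t ∈ stab φ) := fun t ht =>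
    (rst_cnj hL hφ ht).2
  have h1 : Q ⊔ H ≤ Subgroup.normalizer (Z : Set K) ⊓ stab φ := by
    have h1 := hL.C_le_stab hφ.1.1
    rwa [hNN] at h1
  set N := Subgroup.normalizer (Z : Set K) with hN
  set T := N ⊓ stab φ with hT
  have h2 : ¬ p ∣ T.relIndex N := by
    have h3 := (hL.index_prime h1 (by rw [hNN]; exact inf_le_left)).1
    rwa [hNN] at h3
  have h3 : (Finset.univ.filter (fun t : K => t ∈ N)).card =
      O.card * (Finset.univ.filter (fun t : K => t ∈ T)).card := by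
    rw [Finset.card_eq_sum_card_fiberwise (f := fun t => cnj t (rst H φ)) (t := O) (by
      intro t ht
      exact (hO _).2 ⟨t, (Finset.mem_filter.1 ht).2, rfl⟩)]
    rw [Finset.sum_const_nat (m := (Finset.univ.filter (fun t : K => t ∈ T)).card)]
    intro ψ hψ
    obtain ⟨t0, ht0, rfl⟩ := (hO ψ).1 hψ
    refine Finset.card_bij' (fun t _ => t0⁻¹ * t) (fun t _ => t0 * t) ?_ ?_ ?_ ?_
    · intro t ht
      rw [Finset.mem_filter, Finset.mem_filter] at ht
      rw [Finset.mem_filter]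
      have h5 : t0⁻¹ * t ∈ N := N.mul_mem (N.inv_mem ht0) ht.1.2
      refine ⟨Finset.mem_univ _, Subgroup.mem_inf.2 ⟨h5, (hst _ h5).1 ?_⟩⟩
      rw [← cnj_cnj, ht.2, cnj_inv_cnj]
    · intro t ht
      rw [Finset.mem_filter] at ht
      have h4 := Subgroup.mem_inf.1 ht.2
      rw [Finset.mem_filter, Finset.mem_filter]
      refine ⟨⟨Finset.mem_univ _, N.mul_mem ht0 h4.1⟩, ?_⟩
      rw [← cnj_cnj, (hst _ h4.1).2 h4.2]
    · intro t _
      exact mul_inv_cancel_left _ _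
    · intro t _
      exact inv_mul_cancel_left _ _
  have h4 : ∀ L : Subgroup K, (Finset.univ.filter (fun t : K => t ∈ L)).card = Nat.card L := by
    intro L
    rw [Nat.card_eq_fintype_card, Fintype.card_subtype]
  rw [h4, h4] at h3
  have h5 : T.relIndex N * Nat.card T = Nat.card N := by
    have h6 := Subgroup.card_mul_index (T.subgroupOf N)
    rw [Nat.card_congr (Subgroup.subgroupOfEquivOfLe (inf_le_left : T ≤ N)).toEquiv, mul_comm] at h6
    exact h6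
  have h7 : O.card = T.relIndex N := by
    have h8 : 0 < Nat.card T := Nat.card_pos
    exact Nat.eq_of_mul_eq_mul_right h8 (by rw [← h3, h5])
  rw [h7]
  exact h2

private theorem ub_conj (hL : LocC p (⊤ : Subgroup K) Q Z H) {n : ℕ}
    (R : K →* Matrix (Fin n) (Fin n) (OO p)) (hR : SchurR R) {φ ρ : K → ℂ}
    (hφ : φ ∈ Ca p Q H) (hρ : ρ ∈ Ca p Q H) {m m' : ℕ} (hm : ip H (chR R) φ = m)
    (hm' : ip H (chR R) ρ = m') (hd : ¬ p ∣ m) (hd' : ¬ p ∣ m') :
    ∃ t ∈ Subgroup.normalizer (Z : Set K), cnj t φ = ρ := by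
  classical
  have := Fintype.ofFinite K
  have hNN : NN (⊤ : Subgroup K) Z = Subgroup.normalizer (Z : Set K) := by
    unfold NN
    rw [top_inf_eq]
  have hQN : Q ≤ Subgroup.normalizer (Z : Set K) := by
    rw [← hNN]
    exact le_sup_left.trans hL.sup_le
  have hidx : ¬ p ∣ (Subgroup.normalizer (Z : Set K)).index := by
    intro h1
    have h2 := hL.index_mod
    rw [hNN, Subgroup.relIndex_top_right, (ZMod.natCast_eq_zero_iff _ _).2 h1] at h2
    exact zero_ne_one h2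
  have hrc := fun {f : K → ℂ} (hf : f ∈ Ca p Q H) {k : K}
    (hk : k ∈ Subgroup.normalizer (Z : Set K)) => rst_cnj hL hf hk
  have hca := fun {f : K → ℂ} (hf : f ∈ Ca p Q H) {k : K}
    (hk : k ∈ Subgroup.normalizer (Z : Set K)) =>
      ca_cnj hL (a := k) (by rw [Subgroup.mem_normalizer_iff]; simp) hk hf
  have hNH : ∀ t ∈ Subgroup.normalizer (Z : Set K), t ∈ Subgroup.normalizer (H : Set K) :=
    fun t ht => hL.norm_H' (by rw [hNN]; exact ht)
  have hkt := keyO_top R hL hR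
  set N := Subgroup.normalizer (Z : Set K) with hN
  by_contra hcon
  push Not at hcon
  have hp : p.Prime := Fact.out
  -- orbit sums
  let O : (K → ℂ) → Finset (K → ℂ) := fun f =>
    (Finset.univ.filter (fun t : K => t ∈ N)).image (fun t => cnj t (rst H f))
  have hO : ∀ f ψ, ψ ∈ O f ↔ ∃ t ∈ N, cnj t (rst H f) = ψ := by
    intro f ψ
    simp [O]
  have hOI : ∀ {f}, f ∈ Ca p Q H → ∀ ψ ∈ O f, ψ ∈ IrrS H := by
    intro f hf ψ hψ
    obtain ⟨t, ht, rfl⟩ := (hO f ψ).1 hψ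
    exact ub_mem (hNH t ht) (rst_H hL hf.1)
  let E : (K → ℂ) → Matrix (Fin n) (Fin n) (OO p) := fun f => ∑ ψ ∈ O f, Eph R H ψ
  have hinv : ∀ s : K, R s⁻¹ * R s = 1 := fun s => by rw [← map_mul, inv_mul_cancel, map_one]
  have hEc : ∀ {f}, f ∈ Ca p Q H → ∀ s ∈ N, R s * E f = E f * R s := by
    intro f hf s hs
    have h1 : ∀ ψ ∈ O f, R s * Eph R H ψ = Eph R H (cnj s ψ) * R s := by
      intro ψ hψ
      rw [← Eph_conj R H hL.pH (hOI hf ψ hψ) (hNH s hs), Matrix.mul_assoc, hinv, Matrix.mul_one]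
    change R s * (∑ ψ ∈ O f, Eph R H ψ) = (∑ ψ ∈ O f, Eph R H ψ) * R s
    rw [Finset.mul_sum, Finset.sum_congr rfl h1, ← Finset.sum_mul]
    congr 1
    refine Finset.sum_nbij' (fun ψ => cnj s ψ) (fun ψ => cnj s⁻¹ ψ) ?_ ?_ ?_ ?_ ?_
    · intro ψ hψ
      obtain ⟨t, ht, rfl⟩ := (hO f ψ).1 hψ
      exact (hO f _).2 ⟨s * t, N.mul_mem hs ht, (cnj_cnj s t _).symm⟩
    · intro ψ hψ
      obtain ⟨t, ht, rfl⟩ := (hO f ψ).1 hψ
      exact (hO f _).2 ⟨s⁻¹ * t, N.mul_mem (N.inv_mem hs) ht, (cnj_cnj s⁻¹ t _).symm⟩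
    · intro ψ _
      exact cnj_inv_cnj s ψ
    · intro ψ _
      change cnj s (cnj s⁻¹ ψ) = ψ
      rw [cnj_cnj, mul_inv_cancel, cnj_one]
    · intro ψ _
      rfl
  have hE0 : E φ * E ρ = 0 := by
    change (∑ ψ ∈ O φ, Eph R H ψ) * (∑ ψ ∈ O ρ, Eph R H ψ) = 0
    rw [Finset.sum_mul]
    refine Finset.sum_eq_zero fun ψ hψ => ?_
    rw [Finset.mul_sum]
    refine Finset.sum_eq_zero fun ψ' hψ' => ?_
    refine Eph_mul_ne R H hL.pH (hOI hφ ψ hψ) (hOI hρ ψ' hψ') ?_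
    rintro rfl
    obtain ⟨t, ht, h1⟩ := (hO φ ψ).1 hψ
    obtain ⟨s, hs, h2⟩ := (hO ρ ψ).1 hψ'
    have hst : s⁻¹ * t ∈ N := N.mul_mem (N.inv_mem hs) ht
    refine hcon (s⁻¹ * t) hst ?_
    have h3 : rst H (cnj (s⁻¹ * t) φ) = rst H ρ := by
      rw [← (hrc hφ hst).1, ← cnj_cnj, h1, ← h2, cnj_inv_cnj]
    refine ca_ext hL (hca hφ hst) hρ fun x hx => ?_
    have h4 := congrFun h3 x
    unfold rst at h4
    rw [if_pos hx, if_pos hx] at h4
    exact h4
  have hEt : ∀ {f}, f ∈ Ca p Q H → ∀ k : ℕ, ip H (chR R) f = k →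
      (E f).trace = (((O f).card * (deg f * k) : ℕ) : OO p) := by
    intro f hf k hk
    apply Subtype.ext
    change (((∑ ψ ∈ O f, Eph R H ψ).trace : OO p) : ℂ) = _
    rw [← trace_toC, toC_sum, Matrix.trace_sum]
    have h1 : ∀ ψ ∈ O f, (toC (Eph R H ψ)).trace = (deg f : ℂ) * k := by
      intro ψ hψ
      rw [trace_toC, trace_Eph R H hL.pH (hOI hf ψ hψ)]
      obtain ⟨t, ht, rfl⟩ := (hO f ψ).1 hψ
      rw [ub_deg, ub_ip R (hNH t ht), ub_deg_rst, ub_ip_rst, hk]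
    rw [Finset.sum_congr rfl h1, Finset.sum_const, nsmul_eq_mul]
    push_cast
    rfl
  have hu : ∀ {f}, f ∈ Ca p Q H → ∀ k : ℕ, ¬ p ∣ k → ¬ p ∣ (O f).card * (deg f * k) := by
    intro f hf k hk
    rw [hp.dvd_mul, hp.dvd_mul]
    rintro (h1 | h1 | h1)
    · exact ub_orbit hL hf (O f) (hO f) h1
    · exact hf.1.2 h1
    · exact hk h1
  obtain ⟨c, b, hcb, hct⟩ := hkt (E φ) (hEc hφ)
  have hc : IsUnit c := by
    have h1 : IsUnit (c * (n : OO p)) := by
      rw [hct, hEt hφ m hm, ← Nat.cast_mul]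
      refine isUnit_nat ?_
      rw [hp.dvd_mul]
      rintro (h2 | h2)
      · exact hidx h2
      · exact hu hφ m hd h2
    exact isUnit_of_mul_isUnit_left h1
  have hkey : c * (E ρ).trace = (Nat.card Q : OO p) * (b * E ρ).trace := by
    have h1 : c • E ρ = trQ R Q (b * E ρ) := by
      rw [← trQ_mul R Q b (E ρ) (fun y hy => hEc hρ y (hQN hy))]
      have h2 : E φ * E ρ = c • E ρ - trQ R Q b * E ρ := by
        conv_lhs => rw [hcb]
        rw [Matrix.sub_mul, Matrix.smul_mul, Matrix.one_mul]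
      rw [hE0] at h2
      exact (sub_eq_zero.1 h2.symm)
    have h3 := congrArg Matrix.trace h1
    rw [Matrix.trace_smul, trace_trQ, smul_eq_mul] at h3
    exact h3
  have hfin : IsUnit (c * (E ρ).trace) := by
    rw [hEt hρ m' hm']
    exact hc.mul (isUnit_nat (hu hρ m' hd'))
  rw [hkey] at hfin
  have hQm : (Nat.card Q : OO p) ∈ IsLocalRing.maximalIdeal (OO p) := by
    obtain ⟨a, ha, hQ⟩ := hL.cQ
    rw [hQ]
    obtain ⟨k, rfl⟩ : ∃ k, a = k + 1 := ⟨a - 1, by omega⟩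
    rw [pow_succ, Nat.cast_mul]
    exact Ideal.mul_mem_left _ _ (p_mem p)
  exact hQm (isUnit_of_mul_isUnit_left hfin)

theorem unb (hp2 : p ≠ 2) (hL : LocC p (⊤ : Subgroup K) Q Z H) {χ : K → ℂ}
    (hχ : χ ∈ IrrS (⊤ : Subgroup K)) {φ ρ : K → ℂ} (hφ : φ ∈ Ca p Q H) (hρ : ρ ∈ Ca p Q H)
    (hB : Bl Q H χ φ) (hB' : Bl Q H χ ρ) : ∃ n ∈ NN (⊤ : Subgroup K) Q, cnj n φ = ρ := by
  have hNN : NN (⊤ : Subgroup K) Z = Subgroup.normalizer (Z : Set K) := by
    unfold NN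
    rw [top_inf_eq]
  obtain ⟨m, hm⟩ := mult_nat hL hχ hφ
  obtain ⟨m', hm'⟩ := mult_nat hL hχ hρ
  have hd := ndvd_of_Bl hp2 hL hχ hφ hB hm
  have hd' := ndvd_of_Bl hp2 hL hχ hρ hB' hm'
  obtain ⟨n, R, rfl, hR, -⟩ := exists_special (p := p) (ub_irrS_top hχ)
  obtain ⟨t, ht, htρ⟩ := ub_conj hL R hR hφ hρ hm hm' hd hd'
  obtain ⟨c, hc, b, hb, rfl⟩ := hL.frattini' (a := t) (by rw [hNN]; exact ht)
  refine ⟨b, hb, ?_⟩
  have h1 : cnj c⁻¹ (cnj (c * b) φ) = cnj c⁻¹ ρ := by rw [htρ]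
  rw [cnj_cnj, inv_mul_cancel_left] at h1
  rw [h1]
  exact cnj_eq_self (Subgroup.inv_mem _ hc) hρ.1.1

end Pool.Agent.Helper42.CY
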