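import Pool.Agent.Helper42.CY.MatO
import Pool.Agent.Helper42.CY.PhiC
import Pool.Agent.Helper42.CY.KeyC

/-!
# CY-18 (project CY): the action of `T` on the multiplicity space

`R : K → M_n(OO p)`, `φ ∈ Ca p Q H`, `E = Eph R H (rst H φ)`, `T = normalizer Z ⊓ stab φ`, `Φ : T → M_d(OO p)` from
`exists_Phi`, `S`, `s` from `exists_sO` (for `X = T`). Put `A t = S (Φ t⁻¹) * R t`.
* `A t * A t' = S(Φ t⁻¹) R t S(Φ t'⁻¹) R t' = S(Φ t⁻¹) S(Φ t Φ t'⁻¹ Φ t⁻¹) R t R t' = S(Φ (t t')⁻¹) R (t t')`.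
* `A 1 = S 1 = E`; for `h ∈ H`: `R h S(Φ h⁻¹) = S(Φ h⁻¹) R h` (third property), and
  `R h S(Φ h⁻¹) = R h S 1 S(Φ h⁻¹) = S(Φ h) S(Φ h⁻¹) = E`.
* `sA`: `A t S B = S(Φ t⁻¹) S(Φ t B Φ t⁻¹) R t = S(B Φ t⁻¹) R t = S B A t`; reduce modulo the maximal ideal (every
  matrix over `kk p` is the reduction of a matrix over `OO p`).
* `RE`: `S(Φ t) A t = S(1) R t = E R t = R t E` (`R t * S 1 = S 1 * R t` by the third property).
* `trace`: the trace formula of `exists_sO` with `B = Φ t⁻¹`, `M = R t`: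
  `(d/|H|) ∑_h tr(Φ(t⁻¹ h⁻¹)) χ(h t)` and `tr Φ((h t)⁻¹) = φ((h t)⁻¹)` for `h t ∈ Q ⊔ H`.
-/

namespace Pool.Agent.Helper42.CY

open Pool.Agent.Helper42.INC Pool.Agent.Helper42.IR Pool.Agent.Helper97.S4

/-- the action of `T` on the multiplicity space, in the form of matrices `A t` with `A 1 = E` -/
structure WD {p : ℕ} [Fact p.Prime] {K : Type} [Group K] {n d : ℕ}
    (R : K →* Matrix (Fin n) (Fin n) (OO p)) (T Q H : Subgroup K) (φ : K → ℂ)
    (E : Matrix (Fin n) (Fin n) (OO p)) (Φ : T →* Matrix (Fin d) (Fin d) (OO p))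
    (s : Matrix (Fin d) (Fin d) (kk p) →ₗ[kk p] Matrix (Fin n) (Fin n) (kk p))
    (A : T → Matrix (Fin n) (Fin n) (OO p)) : Prop where
  hE : E * E = E
  one : A 1 = E
  mul : ∀ t t', A (t * t') = A t * A t'
  hH : ∀ t : T, (t : K) ∈ H → A t = E
  trace : ∀ t : T, (t : K) ∈ Q ⊔ H → (((A t).trace : OO p) : ℂ) =
    (d : ℂ) * (Nat.card H : ℂ)⁻¹ * ∑ᶠ h : H, chR R ((h : K) * t) * φ ((h : K) * t)⁻¹
  s1 : s 1 = toK E
  smul : ∀ B B', s (B * B') = s B * s B'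
  sspan : ∀ B, s B ∈ Submodule.span (kk p) (Set.range fun h : H => toK (R (h : K)))
  sR : ∀ (t : T) (B : Matrix (Fin d) (Fin d) (kk p)),
    toK (R t) * s B = s (toK (Φ t) * B * toK (Φ t⁻¹)) * toK (R t)
  sA : ∀ (t : T) (B : Matrix (Fin d) (Fin d) (kk p)), toK (A t) * s B = s B * toK (A t)
  RE : ∀ t : T, toK (R t) * toK E = s (toK (Φ t)) * toK (A t)

private theorem wd_mat {n : ℕ} {p : ℕ} [Fact p.Prime] (B : Matrix (Fin n) (Fin n) (kk p)) :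
    ∃ B' : Matrix (Fin n) (Fin n) (OO p), toK B' = B := by
  choose f hf using fun i j => IsLocalRing.residue_surjective (B i j)
  exact ⟨Matrix.of f, by ext i j; exact hf i j⟩

theorem exists_WD {p : ℕ} [Fact p.Prime] {K : Type} [Group K] [Finite K] {n : ℕ}
    (R : K →* Matrix (Fin n) (Fin n) (OO p)) {Q Z H : Subgroup K}
    (hL : LocC p (⊤ : Subgroup K) Q Z H) {φ : K → ℂ} (hφ : φ ∈ Ca p Q H) :
    ∃ (Φ : (Subgroup.normalizer (Z : Set K) ⊓ stab φ : Subgroup K) →*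
        Matrix (Fin (deg φ)) (Fin (deg φ)) (OO p))
      (s : Matrix (Fin (deg φ)) (Fin (deg φ)) (kk p) →ₗ[kk p] Matrix (Fin n) (Fin n) (kk p))
      (A : (Subgroup.normalizer (Z : Set K) ⊓ stab φ : Subgroup K) →
        Matrix (Fin n) (Fin n) (OO p)),
      WD R (Subgroup.normalizer (Z : Set K) ⊓ stab φ) Q H φ (Eph R H (rst H φ)) Φ s A := by
  classical
  have hNN : NN (⊤ : Subgroup K) Z = Subgroup.normalizer (Z : Set K) := by
    unfold NN
    rw [top_inf_eq]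
  have hrst : rst H φ ∈ IrrS H := rst_H hL hφ.1
  have hCT : Q ⊔ H ≤ Subgroup.normalizer (Z : Set K) ⊓ stab φ := by
    have h1 := hL.C_le_stab hφ.1.1
    rwa [hNN] at h1
  have hHT : H ≤ Subgroup.normalizer (Z : Set K) ⊓ stab φ := le_sup_right.trans hCT
  have hTH : Subgroup.normalizer (Z : Set K) ⊓ stab φ ≤ Subgroup.normalizer (H : Set K) := by
    intro t ht
    have htZ : t ∈ Subgroup.normalizer (Z : Set K) := ht.1
    exact hL.norm_H' (by rw [hNN]; exact htZ)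
  obtain ⟨Φ, hΦ⟩ := exists_Phi hL hφ
  obtain ⟨S, s, hS1, hSm, hSR, hSH, hStr, hsS, hsm, hsR, hssp⟩ := exists_sO R hL.pH hHT hTH hrst Φ
    (fun h hh => by
      rw [hΦ h (le_sup_right (a := Q) hh)]
      unfold rst
      rw [if_pos hh])
  have hΦ1 : ∀ x : (Subgroup.normalizer (Z : Set K) ⊓ stab φ : Subgroup K),
      Φ x * Φ x⁻¹ = 1 := fun x => by rw [← map_mul, mul_inv_cancel, map_one]
  have hΦ2 : ∀ x : (Subgroup.normalizer (Z : Set K) ⊓ stab φ : Subgroup K),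
      Φ x⁻¹ * Φ x = 1 := fun x => by rw [← map_mul, inv_mul_cancel, map_one]
  have hAA : ∀ (t : (Subgroup.normalizer (Z : Set K) ⊓ stab φ : Subgroup K))
      (B : Matrix (Fin (deg φ)) (Fin (deg φ)) (OO p)),
      (S (Φ t⁻¹) * R t) * S B = S B * (S (Φ t⁻¹) * R t) := by
    intro t B
    have e1 : Φ t⁻¹ * (Φ t * B * Φ t⁻¹) = B * Φ t⁻¹ := by
      rw [← mul_assoc, ← mul_assoc, hΦ2, one_mul]
    calc S (Φ t⁻¹) * R t * S B = S (Φ t⁻¹) * (R t * S B) := mul_assoc _ _ _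
      _ = S (Φ t⁻¹) * (S (Φ t * B * Φ t⁻¹) * R t) := by rw [hSR]
      _ = (S (Φ t⁻¹) * S (Φ t * B * Φ t⁻¹)) * R t := (mul_assoc _ _ _).symm
      _ = (S B * S (Φ t⁻¹)) * R t := by rw [← hSm, e1, hSm]
      _ = S B * (S (Φ t⁻¹) * R t) := mul_assoc _ _ _
  refine ⟨Φ, s, fun t => S (Φ t⁻¹) * R t, ?_⟩
  refine
    { hE := Eph_mul_self R H hL.pH hrst
      one := ?_
      mul := ?_
      hH := ?_
      trace := ?_
      s1 := ?_
      smul := hsm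
      sspan := hssp
      sR := hsR
      sA := ?_
      RE := ?_ }
  · change S (Φ 1⁻¹) * R ((1 : (Subgroup.normalizer (Z : Set K) ⊓ stab φ : Subgroup K)) : K) = _
    rw [inv_one, map_one, hS1, Subgroup.coe_one, map_one, mul_one]
  · intro t t'
    change S (Φ (t * t')⁻¹) * R ((t : K) * (t' : K)) = S (Φ t⁻¹) * R t * (S (Φ t'⁻¹) * R t')
    rw [mul_assoc (S (Φ t⁻¹)) (R t) _, ← mul_assoc (R (t : K)) _ _, hSR, mul_assoc _ (R (t : K)) _,
      ← map_mul R, ← mul_assoc, ← hSm]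
    congr 2
    rw [← mul_assoc, ← mul_assoc, hΦ2, one_mul, mul_inv_rev, map_mul]
  · intro t ht
    change S (Φ t⁻¹) * R t = _
    have h1 : S (Φ t⁻¹) * R t = R t * S (Φ t⁻¹) := by
      rw [hSR]
      congr 2
      rw [hΦ1, one_mul]
    rw [h1]
    have h2 : S (Φ t⁻¹) = S 1 * S (Φ t⁻¹) := by rw [← hSm, one_mul]
    rw [h2, ← mul_assoc, hSH t ht, ← hSm, hΦ1, hS1]
  · intro t ht
    change (((S (Φ t⁻¹) * R t).trace : OO p) : ℂ) = _
    rw [hStr]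
    congr 1
    apply finsum_congr
    intro h
    have hht : (h : K) * (t : K) ∈ Q ⊔ H :=
      Subgroup.mul_mem _ (le_sup_right (a := Q) h.2) ht
    have h1 : Φ t⁻¹ * Φ ⟨(h : K)⁻¹, (Subgroup.normalizer (Z : Set K) ⊓ stab φ).inv_mem
        (hHT h.2)⟩ = Φ ⟨((h : K) * (t : K))⁻¹, (Subgroup.normalizer (Z : Set K) ⊓ stab φ).inv_mem
        (hCT hht)⟩ := by
      rw [← map_mul]
      congr 1
      apply Subtype.ext
      change (t : K)⁻¹ * (h : K)⁻¹ = ((h : K) * (t : K))⁻¹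
      rw [mul_inv_rev]
    rw [h1, hΦ _ (Subgroup.inv_mem _ hht), ← map_mul R, mul_comm]
    rfl
  · rw [← hS1, ← hsS, toK_one]
  · intro t B
    obtain ⟨B', rfl⟩ := wd_mat B
    rw [hsS, ← toK_mul, ← toK_mul, hAA]
  · intro t
    rw [hsS, ← toK_mul, ← toK_mul]
    congr 1
    rw [← mul_assoc, ← hSm, hΦ1, ← hS1, hSR, mul_one, hΦ1]

end Pool.Agent.Helper42.CY
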